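import Pool.Agent.Helper44.RED.StC

/-! # Project RED: specialisation of Gram determinants (lemmas for XNZ, NSq, XVar; helper78) -/

set_option autoImplicit false

open MvPolynomial

namespace Pool.Agent.Helper44.RED

section maps

variable {R R' ι : Type} [CommRing R] [CommRing R'] [Fintype ι]

lemma bf_map_Sp (ψ : R →+* R') (a x y : ι → R) :
    ψ (bf a x y) = bf (fun i => ψ (a i)) (fun i => ψ (x i)) (fun i => ψ (y i)) := by
  unfold bf; rw [map_sum]; exact Finset.sum_congr rfl fun i _ => by rw [map_mul, map_mul]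

lemma gd_map_Sp (ψ : R →+* R') (a : ι → R) (y : ℕ → ι → R) (l : ℕ) :
    ψ (gd a y l) = gd (fun i => ψ (a i)) (fun p i => ψ (y p i)) l := by
  unfold gd
  rw [RingHom.map_det]
  congr 1
  ext p q
  simp only [RingHom.mapMatrix_apply, Matrix.map_apply, Matrix.of_apply]
  exact bf_map_Sp ψ a (y p) (y q)

lemma ppf_map_Sp {n : ℕ} (ψ : R →+* R') (x : Fin n → R) (S : Pu n) :
    ψ (ppf x S) = ppf (fun j => ψ (x j)) S := by
  unfold ppf pf; rw [map_prod]; exact Finset.prod_congr rfl fun j _ => by rw [map_neg]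

lemma ext0_map_Sp {s : ℕ} (ψ : R →+* R') (Y : Fin s → ι → R) (p : ℕ) (i : ι) :
    ψ (ext0 Y p i) = ext0 (fun l i => ψ (Y l i)) p i := by
  unfold ext0
  by_cases h : p < s
  · simp [h]
  · simp [h]

lemma lin_map_Sp {k F F' : Type} [CommRing k] [CommRing F] [CommRing F'] [Algebra k F]
    [Algebra k F'] (ψ : F →ₐ[k] F') {t : ℕ} (A : Matrix (Fin t) (Fin t) k) (τ : Fin t → F)
    (j : Fin t) : ψ (lin A τ j) = lin A (fun i => ψ (τ i)) j := by
  unfold lin; rw [map_sum]; exact Finset.sum_congr rfl fun i _ => by rw [map_mul, AlgHom.commutes]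

lemma bs_map_Sp {k F F' : Type} [CommRing k] [CommRing F] [CommRing F'] [Algebra k F]
    [Algebra k F'] (ψ : F →ₐ[k] F') {t s : ℕ} (b : Fin s → MvPolynomial (Fin t) k)
    (A : Matrix (Fin t) (Fin t) k) (τ : Fin t → F) (l : Fin s) :
    ψ (bs b A τ l) = bs b A (fun i => ψ (τ i)) l := by
  unfold bs
  rw [MvPolynomial.comp_aeval_apply]
  have e : (fun i => ψ (lin A τ i)) = lin A (fun i => ψ (τ i)) := by
    funext j
    exact lin_map_Sp ψ A τ j
  rw [e]

/-- Gram determinant of orthogonal vectors -/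
lemma gd_orth_Sp (a : ι → R) (y : ℕ → ι → R) (l : ℕ)
    (h : ∀ p q, p < l → q < l → p ≠ q → bf a (y p) (y q) = 0) :
    gd a y l = ∏ p ∈ Finset.range l, qf a (y p) := by
  unfold gd
  have e : (Matrix.of fun p q : Fin l => bf a (y p) (y q)) =
      Matrix.diagonal (fun p : Fin l => qf a (y p)) := by
    ext p q
    rw [Matrix.of_apply]
    by_cases hpq : p = q
    · subst hpq; rw [Matrix.diagonal_apply_eq, bf_self]
    · rw [Matrix.diagonal_apply_ne _ hpq]
      exact h p q p.2 q.2 (fun h => hpq (Fin.ext h))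
  rw [e, Matrix.det_diagonal, Finset.prod_range]

/-- the Gram determinant only depends on the first vectors -/
lemma gd_congr_Sp (a : ι → R) (y y' : ℕ → ι → R) (l : ℕ) (h : ∀ p, p < l → y p = y' p) :
    gd a y l = gd a y' l := by
  unfold gd
  congr 1
  ext p q
  rw [Matrix.of_apply, Matrix.of_apply, h p p.2, h q q.2]

end maps

lemma lin_one_Sp {k F : Type} [CommRing k] [CommRing F] [Algebra k F] {t : ℕ} (τ : Fin t → F) :
    lin (1 : Matrix (Fin t) (Fin t) k) τ = τ := by
  funext j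
  unfold lin
  rw [Finset.sum_eq_single j]
  · simp
  · intro i _ hi; rw [Matrix.one_apply_ne (Ne.symm hi)]; simp
  · intro h; exact absurd (Finset.mem_univ _) h

lemma lin_lin_Sp {k F : Type} [CommRing k] [CommRing F] [Algebra k F] {t : ℕ}
    (A B : Matrix (Fin t) (Fin t) k) (τ : Fin t → F) : lin A (lin B τ) = lin (A * B) τ := by
  funext j
  unfold lin
  simp only [Matrix.mul_apply, map_sum, map_mul, Finset.mul_sum, Finset.sum_mul]
  rw [Finset.sum_comm]
  exact Finset.sum_congr rfl fun i _ => Finset.sum_congr rfl fun i' _ => by ring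

/-- an invertible linear substitution does not kill a polynomial -/
lemma bs_ne_zero_Sp {k F : Type} [Field k] [CommRing F] [Algebra k F] {t s : ℕ}
    (b : Fin s → MvPolynomial (Fin t) k) (A : Matrix (Fin t) (Fin t) k) (hA : A.det ≠ 0)
    (τ : Fin t → F) (hτ : Function.Injective (MvPolynomial.aeval τ : MvPolynomial (Fin t) k →ₐ[k] F))
    (l : Fin s) (hb : b l ≠ 0) : bs b A τ l ≠ 0 := by
  intro h
  apply hb
  have h1 : (MvPolynomial.aeval τ : MvPolynomial (Fin t) k →ₐ[k] F)
      (bs b A (fun j => (X j : MvPolynomial (Fin t) k)) l) = 0 := by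
    rw [bs_map_Sp]
    simpa using h
  have h2 : bs b A (fun j => (X j : MvPolynomial (Fin t) k)) l = 0 :=
    hτ (by rw [h1, map_zero])
  have hAinv : A * A⁻¹ = 1 := Matrix.mul_nonsing_inv A (isUnit_iff_ne_zero.2 hA)
  have h3 : (MvPolynomial.aeval (lin A⁻¹ (fun j => (X j : MvPolynomial (Fin t) k))) :
      MvPolynomial (Fin t) k →ₐ[k] MvPolynomial (Fin t) k)
      (bs b A (fun j => (X j : MvPolynomial (Fin t) k)) l) = b l := by
    rw [bs_map_Sp]
    unfold bs
    have e : lin A (fun i => (MvPolynomial.aeval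
        (lin A⁻¹ (fun j => (X j : MvPolynomial (Fin t) k))) :
        MvPolynomial (Fin t) k →ₐ[k] MvPolynomial (Fin t) k) (X i)) =
        (fun j => (X j : MvPolynomial (Fin t) k)) := by
      have e1 : (fun i => (MvPolynomial.aeval
        (lin A⁻¹ (fun j => (X j : MvPolynomial (Fin t) k))) :
        MvPolynomial (Fin t) k →ₐ[k] MvPolynomial (Fin t) k) (X i)) =
        lin A⁻¹ (fun j => (X j : MvPolynomial (Fin t) k)) := by
        funext i; rw [MvPolynomial.aeval_X]
      rw [e1, lin_lin_Sp, hAinv, lin_one_Sp]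
    rw [e]
    exact MvPolynomial.aeval_X_left_apply (b l)
  rw [← h3, h2, map_zero]

lemma card_Pu_Sp (n : ℕ) : Fintype.card (Pu n) = 2 ^ n - 1 := by
  classical
  have h1 : Fintype.card (Pu n) = Fintype.card {S : Finset (Fin n) // ¬ (S = ∅)} :=
    Fintype.card_congr (Equiv.subtypeEquivRight fun S => Finset.nonempty_iff_ne_empty)
  rw [h1, Fintype.card_subtype_compl]
  simp

lemma exists_emb_Sp {n m : ℕ} (h : m ≤ 2 ^ n - 1) : ∃ e : Fin m → Pu n, Function.Injective e := by
  rw [← card_Pu_Sp] at h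
  obtain ⟨e⟩ := Function.Embedding.nonempty_of_card_le (α := Fin m) (β := Pu n)
    (by rwa [Fintype.card_fin])
  exact ⟨e, e.injective⟩

lemma gdp_map_Sp {R R' : Type} [CommRing R] [CommRing R'] (ψ : R →+* R') {n s : ℕ}
    (x : Fin n → R) (Y : Fin s → Pu n → R) (l : ℕ) :
    ψ (gd (ppf x) (ext0 Y) l) = gd (ppf (fun j => ψ (x j))) (ext0 (fun m S => ψ (Y m S))) l := by
  rw [gd_map_Sp]
  congr 1
  · funext S; exact ppf_map_Sp ψ x S
  · funext p S; exact ext0_map_Sp ψ Y p S

/-- the radicand `b_l(σ τ) Δ_l Δ_{l+1}` under algebra homomorphisms -/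
lemma rad_map_Sp {k R R' : Type} [CommRing k] [CommRing R] [CommRing R'] [Algebra k R]
    [Algebra k R'] (ψ : R →ₐ[k] R') {t n s : ℕ} (b : Fin s → MvPolynomial (Fin t) k)
    (A : Matrix (Fin t) (Fin t) k) (τ : Fin t → R) (x : Fin n → R) (Y : Fin s → Pu n → R)
    (l : Fin s) :
    ψ (bs b A τ l * (gd (ppf x) (ext0 Y) l * gd (ppf x) (ext0 Y) (l + 1))) =
      bs b A (fun i => ψ (τ i)) l *
        (gd (ppf (fun j => ψ (x j))) (ext0 (fun m S => ψ (Y m S))) l *
          gd (ppf (fun j => ψ (x j))) (ext0 (fun m S => ψ (Y m S))) (l + 1)) := by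
  rw [map_mul, map_mul, bs_map_Sp]
  have h := gdp_map_Sp ψ.toRingHom x Y
  have h1 : ψ (gd (ppf x) (ext0 Y) l) = ψ.toRingHom (gd (ppf x) (ext0 Y) l) := rfl
  have h2 : ψ (gd (ppf x) (ext0 Y) (l + 1)) = ψ.toRingHom (gd (ppf x) (ext0 Y) (l + 1)) := rfl
  rw [h1, h2, h, h]
  rfl

lemma Indep.aeval_inj_Sp {k F ι : Type} [CommRing k] [CommRing F] [Algebra k F] {y : ι → F}
    (h : Indep (algebraMap k F) y) :
    Function.Injective (MvPolynomial.aeval y : MvPolynomial ι k →ₐ[k] F) := fun _ _ hab => h hab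

/-- elements of a field generated by `y` are quotients of polynomials in `y` -/
lemma exists_quot_Sp {k F ι : Type} [Field k] [Field F] [Algebra k F] {y : ι → F}
    (h : GenBy (algebraMap k F) (Set.range y)) (z : F) : ∃ A B : MvPolynomial ι k,
      MvPolynomial.aeval y B ≠ 0 ∧ z = MvPolynomial.aeval y A / MvPolynomial.aeval y B := by
  have hle : Subring.closure (Set.range (algebraMap k F) ∪ Set.range y) ≤
      (MvPolynomial.aeval y : MvPolynomial ι k →ₐ[k] F).toRingHom.range := by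
    rw [Subring.closure_le]
    rintro a (⟨c, rfl⟩ | ⟨i, rfl⟩)
    · exact ⟨C c, by simp⟩
    · exact ⟨X i, by simp⟩
  have hz : z ∈ Subfield.closure (Set.range (algebraMap k F) ∪ Set.range y) := by
    unfold GenBy at h
    rw [h]; exact Subfield.mem_top z
  rw [Subfield.mem_closure_iff] at hz
  obtain ⟨a, ha, b, hb, rfl⟩ := hz
  obtain ⟨A, hA⟩ := hle ha
  obtain ⟨B, hB⟩ := hle hb
  have hA' : MvPolynomial.aeval y A = a := hA
  have hB' : MvPolynomial.aeval y B = b := hB
  by_cases hb0 : b = 0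
  · refine ⟨0, 1, by simp, ?_⟩
    rw [hb0]; simp
  · exact ⟨A, B, by rw [hB']; exact hb0, by rw [hA', hB']⟩

lemma ppf_ne_zero_Sp {K : Type} [Field K] {n : ℕ} {x : Fin n → K} (hx : ∀ j, x j ≠ 0) (S : Pu n) :
    ppf x S ≠ 0 := pf_ne_zero hx S.1

end Pool.Agent.Helper44.RED
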