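import Pool.Agent.Helper44.RED.Lib

/-!
# Project RED: lemmas on `Indep`, `GenBy`, `PureExt`
-/

set_option autoImplicit false

namespace Pool.Agent.Helper44.RED

section indep

variable {E F G ι κ : Type}

lemma Indep.ne_zero [CommRing E] [CommRing F] {φ : E →+* F} {y : ι → F} (h : Indep φ y)
    {p : MvPolynomial ι E} (hp : p ≠ 0) : MvPolynomial.eval₂Hom φ y p ≠ 0 := fun h0 =>
  hp (h (by rw [h0, map_zero]))

lemma Indep.inj [CommRing E] [CommRing F] {φ : E →+* F} {y : ι → F} (h : Indep φ y) :
    Function.Injective φ := by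
  intro a b hab
  have := h (show MvPolynomial.eval₂Hom φ y (MvPolynomial.C a) =
    MvPolynomial.eval₂Hom φ y (MvPolynomial.C b) by simpa using hab)
  exact MvPolynomial.C_injective _ _ this

lemma indep_iff [CommRing E] [CommRing F] [Algebra E F] {y : ι → F} :
    Indep (algebraMap E F) y ↔ AlgebraicIndependent E y := Iff.rfl

lemma Indep.comp_inj [CommRing E] [CommRing F] {φ : E →+* F} {y : ι → F} (h : Indep φ y)
    (e : κ → ι) (he : Function.Injective e) : Indep φ (fun j => y (e j)) := by
  intro p q hpq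
  have h1 : ∀ r : MvPolynomial κ E, MvPolynomial.eval₂Hom φ (fun j => y (e j)) r =
      MvPolynomial.eval₂Hom φ y (MvPolynomial.rename e r) := by
    intro r
    simp only [MvPolynomial.coe_eval₂Hom, MvPolynomial.eval₂_rename]
    rfl
  rw [h1, h1] at hpq
  exact MvPolynomial.rename_injective e he (h hpq)

lemma Indep.equiv [CommRing E] [CommRing F] {φ : E →+* F} {y : ι → F} (h : Indep φ y)
    (e : κ ≃ ι) : Indep φ (fun j => y (e j)) := h.comp_inj e e.injective

/-- independence after an injective map of the target -/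
lemma Indep.map [CommRing E] [CommRing F] [CommRing G] {φ : E →+* F} {y : ι → F} (h : Indep φ y)
    (ψ : F →+* G) (hψ : Function.Injective ψ) : Indep (ψ.comp φ) (fun i => ψ (y i)) := by
  intro p q hpq
  have h1 : ∀ r : MvPolynomial ι E, MvPolynomial.eval₂Hom (ψ.comp φ) (fun i => ψ (y i)) r =
      ψ (MvPolynomial.eval₂Hom φ y r) := by
    intro r
    simp only [MvPolynomial.coe_eval₂Hom]
    exact (MvPolynomial.eval₂_comp_left ψ φ y r).symm
  rw [h1, h1] at hpq
  exact h (hψ hpq)

/-- independence descends -/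
lemma Indep.of_map [CommRing E] [CommRing F] [CommRing G] {φ : E →+* F} {y : ι → F}
    (ψ : F →+* G) (h : Indep (ψ.comp φ) (fun i => ψ (y i))) : Indep φ y := by
  intro p q hpq
  have h1 : ∀ r : MvPolynomial ι E, MvPolynomial.eval₂Hom (ψ.comp φ) (fun i => ψ (y i)) r =
      ψ (MvPolynomial.eval₂Hom φ y r) := by
    intro r
    simp only [MvPolynomial.coe_eval₂Hom]
    exact (MvPolynomial.eval₂_comp_left ψ φ y r).symm
  exact h (by rw [h1, h1, hpq])

/-- transitivity of independence -/
lemma Indep.comp [CommRing E] [CommRing F] [CommRing G] {φ : E →+* F} {y : ι → F}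
    (h : Indep φ y) {ψ : F →+* G} {z : κ → G} (h' : Indep ψ z) :
    Indep (ψ.comp φ) (Sum.elim (fun i => ψ (y i)) z) := by
  -- MvPolynomial (ι ⊕ κ) E ≃ MvPolynomial κ (MvPolynomial ι E)
  let e1 : MvPolynomial (ι ⊕ κ) E ≃+* MvPolynomial (κ ⊕ ι) E :=
    (MvPolynomial.renameEquiv E (Equiv.sumComm ι κ)).toRingEquiv
  let e2 : MvPolynomial (κ ⊕ ι) E ≃+* MvPolynomial κ (MvPolynomial ι E) :=
    (MvPolynomial.sumAlgEquiv E κ ι).toRingEquiv
  have key : ∀ p, MvPolynomial.eval₂Hom (ψ.comp φ) (Sum.elim (fun i => ψ (y i)) z) p =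
      MvPolynomial.eval₂Hom ψ z (MvPolynomial.map (MvPolynomial.eval₂Hom φ y) (e2 (e1 p))) := by
    intro p
    have : MvPolynomial.eval₂Hom (ψ.comp φ) (Sum.elim (fun i => ψ (y i)) z) =
        ((MvPolynomial.eval₂Hom ψ z).comp (MvPolynomial.map (MvPolynomial.eval₂Hom φ y))).comp
          (e2.toRingHom.comp e1.toRingHom) := by
      apply MvPolynomial.ringHom_ext
      · intro r
        simp [e1, e2]
      · rintro (i | i)
        · simp [e1, e2]
        · simp [e1, e2]
    rw [this]; rfl
  intro p q hpq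
  rw [key, key] at hpq
  have h1 := h' hpq
  have h2 := MvPolynomial.map_injective _ h h1
  exact e1.injective (e2.injective h2)

lemma GenBy.comp [Field E] [Field F] [Field G] {φ : E →+* F} {S : Set F} (h : GenBy φ S)
    {ψ : F →+* G} {T : Set G} (h' : GenBy ψ T) : GenBy (ψ.comp φ) (ψ '' S ∪ T) := by
  unfold GenBy at *
  rw [eq_top_iff, ← h', Subfield.closure_le]
  rintro z (⟨y, rfl⟩ | hz)
  · have hy : y ∈ Subfield.closure (Set.range φ ∪ S) := by rw [h]; trivial
    have h1 : ψ y ∈ (Subfield.closure (Set.range φ ∪ S)).map ψ := ⟨y, hy, rfl⟩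
    rw [RingHom.map_field_closure] at h1
    refine Subfield.closure_mono ?_ h1
    rw [Set.image_union]
    rintro w (⟨_, ⟨c, rfl⟩, rfl⟩ | ⟨s, hs, rfl⟩)
    · exact Or.inl ⟨c, rfl⟩
    · exact Or.inr (Or.inl ⟨s, hs, rfl⟩)
  · exact Subfield.subset_closure (Or.inr (Or.inr hz))

lemma GenBy.mono [Field E] [Field F] {φ : E →+* F} {S T : Set F} (h : GenBy φ S) (hST : S ⊆ T) :
    GenBy φ T := by
  unfold GenBy at *
  rw [eq_top_iff, ← h]
  exact Subfield.closure_mono (Set.union_subset_union_right _ hST)

/-- the fraction field of the polynomial ring maps to `F` -/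
theorem Indep.lift [Field E] [Field F] {φ : E →+* F} {y : ι → F} (h : Indep φ y) :
    ∃ j : FractionRing (MvPolynomial ι E) →+* F, (∀ c, j (algebraMap E _ c) = φ c) ∧
      (∀ i, j (algebraMap (MvPolynomial ι E) _ (MvPolynomial.X i)) = y i) ∧
      ∀ p, j (algebraMap (MvPolynomial ι E) _ p) = MvPolynomial.eval₂Hom φ y p := by
  have hj : ∀ p, IsLocalization.lift (M := nonZeroDivisors (MvPolynomial ι E))
      (S := FractionRing (MvPolynomial ι E)) (g := MvPolynomial.eval₂Hom φ y)
      (fun s => (h.ne_zero (nonZeroDivisors.ne_zero s.2)).isUnit)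
      (algebraMap (MvPolynomial ι E) _ p) = MvPolynomial.eval₂Hom φ y p := fun p =>
    IsLocalization.lift_eq _ _
  refine ⟨_, fun c => ?_, fun i => ?_, hj⟩
  · rw [IsScalarTower.algebraMap_apply E (MvPolynomial ι E), hj, MvPolynomial.algebraMap_eq]
    simp
  · rw [hj]; simp

/-- the image of a field homomorphism contains a generated subfield -/
lemma range_top_of_gen [Field E] [Field F] [Field G] {φ : E →+* F} {S : Set F} (h : GenBy φ S)
    (j : G →+* F) (h1 : ∀ c, φ c ∈ Set.range j) (h2 : ∀ s ∈ S, s ∈ Set.range j) :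
    Function.Surjective j := by
  intro z
  have hz : z ∈ Subfield.closure (Set.range φ ∪ S) := by
    have : Subfield.closure (Set.range φ ∪ S) = ⊤ := h
    rw [this]; trivial
  have : Subfield.closure (Set.range φ ∪ S) ≤ j.fieldRange := by
    rw [Subfield.closure_le]
    rintro w (⟨c, rfl⟩ | hw)
    · obtain ⟨a, ha⟩ := h1 c; exact ⟨a, ha⟩
    · obtain ⟨a, ha⟩ := h2 w hw; exact ⟨a, ha⟩
  obtain ⟨a, ha⟩ := this hz
  exact ⟨a, ha⟩

theorem Indep.iso [Field E] [Field F] {φ : E →+* F} {y : ι → F} (h : Indep φ y)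
    (hg : GenBy φ (Set.range y)) :
    ∃ j : FractionRing (MvPolynomial ι E) ≃+* F, (∀ c, j (algebraMap E _ c) = φ c) ∧
      (∀ i, j (algebraMap (MvPolynomial ι E) _ (MvPolynomial.X i)) = y i) ∧
      ∀ p, j (algebraMap (MvPolynomial ι E) _ p) = MvPolynomial.eval₂Hom φ y p := by
  obtain ⟨j, h1, h2, h3⟩ := h.lift
  have hs : Function.Surjective j := range_top_of_gen hg j (fun c => ⟨_, h1 c⟩)
    (by rintro _ ⟨i, rfl⟩; exact ⟨_, h2 i⟩)
  exact ⟨RingEquiv.ofBijective j ⟨j.injective, hs⟩, h1, h2, h3⟩

lemma indep_unit_iff [CommRing E] [CommRing F] {φ : E →+* F} {z : F} :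
    Indep φ (fun _ : Unit => z) ↔ Function.Injective (Polynomial.eval₂RingHom φ z) := by
  have key : ∀ p : MvPolynomial Unit E, MvPolynomial.eval₂Hom φ (fun _ : Unit => z) p =
      Polynomial.eval₂RingHom φ z (MvPolynomial.uniqueAlgEquiv E Unit p) := by
    intro p
    have : MvPolynomial.eval₂Hom φ (fun _ : Unit => z) = (Polynomial.eval₂RingHom φ z).comp
        ((MvPolynomial.uniqueAlgEquiv E Unit : MvPolynomial Unit E →ₐ[E] Polynomial E) :
          MvPolynomial Unit E →+* Polynomial E) := by
      apply MvPolynomial.ringHom_ext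
      · intro r; simp
      · intro i; simp
    rw [this]; rfl
  constructor
  · intro h p q hpq
    obtain ⟨p', rfl⟩ := (MvPolynomial.uniqueAlgEquiv E Unit).surjective p
    obtain ⟨q', rfl⟩ := (MvPolynomial.uniqueAlgEquiv E Unit).surjective q
    rw [← key, ← key] at hpq
    rw [h hpq]
  · intro h p q hpq
    rw [key, key] at hpq
    exact (MvPolynomial.uniqueAlgEquiv E Unit).injective (h hpq)

/-- one variable: `F ≅ RatFunc E` -/
theorem Indep.isoRat [Field E] [Field F] {φ : E →+* F} {z : F} (h : Indep φ (fun _ : Unit => z))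
    (hg : GenBy φ {z}) :
    ∃ j : RatFunc E ≃+* F, (∀ c, j (algebraMap E (RatFunc E) c) = φ c) ∧ j RatFunc.X = z ∧
      ∀ p : Polynomial E, j (algebraMap (Polynomial E) (RatFunc E) p) = Polynomial.eval₂ φ z p := by
  have hinj := indep_unit_iff.1 h
  have hu : ∀ s : nonZeroDivisors (Polynomial E), IsUnit (Polynomial.eval₂RingHom φ z s) := by
    intro s
    refine IsUnit.mk0 _ fun h0 => nonZeroDivisors.ne_zero s.2 (hinj (by rw [h0, map_zero]))
  have hj : ∀ p, IsLocalization.lift (M := nonZeroDivisors (Polynomial E))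
      (S := RatFunc E) (g := Polynomial.eval₂RingHom φ z) hu
      (algebraMap (Polynomial E) _ p) = Polynomial.eval₂RingHom φ z p := fun p =>
    IsLocalization.lift_eq _ _
  set j := IsLocalization.lift (M := nonZeroDivisors (Polynomial E))
      (S := RatFunc E) (g := Polynomial.eval₂RingHom φ z) hu with hjdef
  have h1 : ∀ c, j (algebraMap E (RatFunc E) c) = φ c := by
    intro c
    rw [IsScalarTower.algebraMap_apply E (Polynomial E), hj]
    simp
  have h2 : j RatFunc.X = z := by
    rw [← RatFunc.algebraMap_X, hj]; simp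
  have hs : Function.Surjective j := range_top_of_gen hg j (fun c => ⟨_, h1 c⟩)
    (by rintro _ rfl; exact ⟨_, h2⟩)
  exact ⟨RingEquiv.ofBijective j ⟨j.injective, hs⟩, h1, h2, hj⟩

theorem indep_ratFunc [Field E] : Indep (algebraMap E (RatFunc E)) (fun _ : Unit => RatFunc.X) := by
  rw [indep_unit_iff]
  have : Polynomial.eval₂RingHom (algebraMap E (RatFunc E)) RatFunc.X =
      algebraMap (Polynomial E) (RatFunc E) := by
    apply Polynomial.ringHom_ext
    · intro a
      simp only [Polynomial.coe_eval₂RingHom, Polynomial.eval₂_C]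
      rw [IsScalarTower.algebraMap_apply E (Polynomial E) (RatFunc E), Polynomial.algebraMap_eq]
    · simp
  rw [this]
  exact RatFunc.algebraMap_injective E

theorem genBy_ratFunc [Field E] : GenBy (algebraMap E (RatFunc E)) {RatFunc.X} := by
  unfold GenBy
  rw [eq_top_iff]
  intro z _
  set K := Subfield.closure (Set.range (algebraMap E (RatFunc E)) ∪ {RatFunc.X})
  have hp : ∀ p : Polynomial E, algebraMap (Polynomial E) (RatFunc E) p ∈ K := by
    intro p
    induction p using Polynomial.induction_on' with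
    | add p q hp hq => rw [map_add]; exact K.add_mem hp hq
    | monomial n a =>
      rw [← Polynomial.C_mul_X_pow_eq_monomial, map_mul, map_pow, RatFunc.algebraMap_X,
        RatFunc.algebraMap_C]
      refine K.mul_mem (Subfield.subset_closure (Or.inl ⟨a, ?_⟩))
        (K.pow_mem (Subfield.subset_closure (Or.inr rfl)) _)
      rw [IsScalarTower.algebraMap_apply E (Polynomial E) (RatFunc E), Polynomial.algebraMap_eq,
        RatFunc.algebraMap_C]
  obtain ⟨a, b, hb, rfl⟩ := IsFractionRing.div_surjective (A := Polynomial E) z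
  exact K.div_mem (hp a) (hp b)

theorem indep_frac [Field E] :
    Indep (algebraMap E (FractionRing (MvPolynomial ι E)))
      (fun i => algebraMap (MvPolynomial ι E) (FractionRing (MvPolynomial ι E))
        (MvPolynomial.X i)) := by
  have : MvPolynomial.eval₂Hom (algebraMap E (FractionRing (MvPolynomial ι E)))
      (fun i => algebraMap (MvPolynomial ι E) (FractionRing (MvPolynomial ι E))
        (MvPolynomial.X i)) = algebraMap (MvPolynomial ι E) (FractionRing (MvPolynomial ι E)) := by
    apply MvPolynomial.ringHom_ext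
    · intro a
      simp only [MvPolynomial.coe_eval₂Hom, MvPolynomial.eval₂_C]
      rw [IsScalarTower.algebraMap_apply E (MvPolynomial ι E)
        (FractionRing (MvPolynomial ι E)), MvPolynomial.algebraMap_eq]
    · intro i; simp
  unfold Indep
  rw [this]
  exact IsFractionRing.injective _ _

theorem genBy_frac [Field E] :
    GenBy (algebraMap E (FractionRing (MvPolynomial ι E)))
      (Set.range fun i => algebraMap (MvPolynomial ι E) (FractionRing (MvPolynomial ι E))
        (MvPolynomial.X i)) := by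
  unfold GenBy
  rw [eq_top_iff]
  intro z _
  set K := Subfield.closure (Set.range (algebraMap E (FractionRing (MvPolynomial ι E))) ∪
    Set.range fun i => algebraMap (MvPolynomial ι E) (FractionRing (MvPolynomial ι E))
        (MvPolynomial.X i))
  have hp : ∀ p : MvPolynomial ι E,
      algebraMap (MvPolynomial ι E) (FractionRing (MvPolynomial ι E)) p ∈ K := by
    intro p
    induction p using MvPolynomial.induction_on with
    | C a =>
      refine Subfield.subset_closure (Or.inl ⟨a, ?_⟩)
      rw [IsScalarTower.algebraMap_apply E (MvPolynomial ι E), MvPolynomial.algebraMap_eq]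
    | add p q hp hq => rw [map_add]; exact K.add_mem hp hq
    | mul_X p i hp =>
      rw [map_mul]
      exact K.mul_mem hp (Subfield.subset_closure (Or.inr ⟨i, rfl⟩))
  obtain ⟨a, b, hb, rfl⟩ := IsFractionRing.div_surjective (A := MvPolynomial ι E) z
  exact K.div_mem (hp a) (hp b)

lemma GenBy.equiv [Field E] [Field F] {φ : E →+* F} {y : ι → F} (h : GenBy φ (Set.range y))
    (e : κ ≃ ι) : GenBy φ (Set.range fun j => y (e j)) := by
  have : (Set.range fun j => y (e j)) = Set.range y := e.surjective.range_comp y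
  rw [this]; exact h

lemma pureExt_of_fintype [Fintype ι] [Field E] [Field F] {φ : E →+* F} {y : ι → F}
    (h : Indep φ y) (hg : GenBy φ (Set.range y)) : PureExt φ := by
  classical
  let e := (Fintype.equivFin ι).symm
  exact ⟨Fintype.card ι, fun j => y (e j), h.equiv e, hg.equiv e⟩

lemma pureExt_ratFunc [Field E] : PureExt (algebraMap E (RatFunc E)) :=
  pureExt_of_fintype (ι := Unit) indep_ratFunc (by
    rw [Set.range_const]; exact genBy_ratFunc)

lemma pureExt_frac [Fintype ι] [Field E] :
    PureExt (algebraMap E (FractionRing (MvPolynomial ι E))) :=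
  pureExt_of_fintype indep_frac genBy_frac

lemma PureExt.comp [Field E] [Field F] [Field G] {φ : E →+* F} {ψ : F →+* G} (h : PureExt φ)
    (h' : PureExt ψ) : PureExt (ψ.comp φ) := by
  obtain ⟨m, y, h1, h2⟩ := h
  obtain ⟨n, z, h3, h4⟩ := h'
  refine pureExt_of_fintype (h1.comp h3) ?_
  have := h2.comp h4
  rw [Set.Sum.elim_range]
  rwa [← Set.range_comp] at this

lemma pureExt_equiv [Field E] [Field F] (e : E ≃+* F) : PureExt (e : E →+* F) := by
  refine ⟨0, Fin.elim0, ?_, ?_⟩
  · intro p q hpq
    obtain ⟨a, rfl⟩ := MvPolynomial.C_surjective (Fin 0) p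
    obtain ⟨b, rfl⟩ := MvPolynomial.C_surjective (Fin 0) q
    simp only [MvPolynomial.coe_eval₂Hom, MvPolynomial.eval₂_C] at hpq
    rw [e.injective hpq]
  · unfold GenBy
    rw [eq_top_iff]
    intro z _
    exact Subfield.subset_closure (Or.inl ⟨e.symm z, by simp⟩)

/-- `F/E` pure, `F ≅ G` -/
lemma PureExt.of_equiv [Field E] [Field F] [Field G] {φ : E →+* F} (h : PureExt φ) (e : F ≃+* G) :
    PureExt ((e : F →+* G).comp φ) := h.comp (pureExt_equiv e)

/-- splitting an independent generating family in two parts: `E ⊂ L = E(z ∘ inl) ⊂ F = L(z ∘ inr)` -/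
theorem peelSum [Field E] [Field F] {φ : E →+* F} {z : ι ⊕ κ → F} (h : Indep φ z)
    (hg : GenBy φ (Set.range z)) :
    ∃ (L : Subfield F) (ψ : E →+* L) (z' : ι → L), (∀ c, (ψ c : F) = φ c) ∧
      (∀ i, (z' i : F) = z (Sum.inl i)) ∧ Indep ψ z' ∧ GenBy ψ (Set.range z') ∧
      Indep L.subtype (fun j : κ => z (Sum.inr j)) ∧
      GenBy L.subtype (Set.range fun j : κ => z (Sum.inr j)) := by
  obtain ⟨j, hj1, hj2, hj3⟩ := h.lift
  let L : Subfield F := Subfield.closure (Set.range φ ∪ Set.range (fun i => z (Sum.inl i)))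
  have hφ : ∀ c, φ c ∈ L := fun c => Subfield.subset_closure (Or.inl ⟨c, rfl⟩)
  have hz : ∀ i, z (Sum.inl i) ∈ L := fun i => Subfield.subset_closure (Or.inr ⟨i, rfl⟩)
  let ψ : E →+* L := φ.codRestrict L.toSubring hφ
  let z' : ι → L := fun i => ⟨z (Sum.inl i), hz i⟩
  have hψ : ∀ c, (ψ c : F) = φ c := fun c => rfl
  have hind : Indep ψ z' := by
    refine Indep.of_map L.subtype ?_
    exact h.comp_inj Sum.inl Sum.inl_injective
  have hgen : GenBy ψ (Set.range z') := by
    unfold GenBy
    rw [eq_top_iff]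
    rintro ⟨w, hw⟩ _
    have h1 : (Subfield.closure (Set.range ψ ∪ Set.range z')).map L.subtype = L := by
      rw [RingHom.map_field_closure, Set.image_union, ← Set.range_comp, ← Set.range_comp]
      rfl
    have h2 : w ∈ (Subfield.closure (Set.range ψ ∪ Set.range z')).map L.subtype := by
      rw [h1]; exact hw
    obtain ⟨v, hv, hvw⟩ := h2
    have : v = ⟨w, hw⟩ := Subtype.ext hvw
    rw [← this]; exact hv
  refine ⟨L, ψ, z', hψ, fun i => rfl, hind, hgen, ?_, ?_⟩
  · -- independence of the second part over L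
    obtain ⟨e, he1, he2, he3⟩ := hind.iso hgen
    -- clear denominators
    have hc : ∀ s : Finset (κ →₀ ℕ), ∀ c : (κ →₀ ℕ) → L, ∃ d : MvPolynomial ι E, d ≠ 0 ∧
        ∀ m ∈ s, ∃ q : MvPolynomial ι E, c m * e (algebraMap _ _ d) = e (algebraMap _ _ q) := by
      classical
      intro s c
      obtain ⟨d, hd⟩ := IsLocalization.exist_integer_multiples (nonZeroDivisors (MvPolynomial ι E))
        s (fun m => e.symm (c m))
      refine ⟨d, nonZeroDivisors.ne_zero d.2, fun m hm => ?_⟩
      obtain ⟨q, hq⟩ := hd m hm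
      refine ⟨q, ?_⟩
      rw [hq, Algebra.smul_def, map_mul, RingEquiv.apply_symm_apply, mul_comm]
    have key : ∀ P : MvPolynomial κ L, MvPolynomial.eval₂Hom L.subtype
        (fun j => z (Sum.inr j)) P = 0 → P = 0 := by
      classical
      intro P hP
      obtain ⟨d, hd, hq⟩ := hc P.support (fun m => P.coeff m)
      choose! q hq using hq
      let Q : MvPolynomial κ (MvPolynomial ι E) := ∑ m ∈ P.support, MvPolynomial.monomial m (q m)
      have hmap : MvPolynomial.map (MvPolynomial.eval₂Hom ψ z') Q =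
          MvPolynomial.C (e (algebraMap _ _ d)) * P := by
        conv_rhs => rw [P.as_sum, Finset.mul_sum]
        simp only [Q, map_sum]
        refine Finset.sum_congr rfl fun m hm => ?_
        rw [MvPolynomial.map_monomial, MvPolynomial.C_mul_monomial, ← he3, mul_comm, hq m hm]
      have h0 : MvPolynomial.eval₂Hom L.subtype (fun j => z (Sum.inr j))
          (MvPolynomial.map (MvPolynomial.eval₂Hom ψ z') Q) = 0 := by
        rw [hmap, map_mul, hP, mul_zero]
      have hring : (MvPolynomial.eval₂Hom L.subtype (fun j => z (Sum.inr j))).comp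
          (MvPolynomial.map (MvPolynomial.eval₂Hom ψ z')) =
          (MvPolynomial.eval₂Hom φ z).comp
          ((MvPolynomial.renameEquiv E (Equiv.sumComm κ ι)).toRingEquiv.toRingHom.comp
            (MvPolynomial.sumAlgEquiv E κ ι).toRingEquiv.symm.toRingHom) := by
        apply MvPolynomial.ringHom_ext
        · intro r
          have : (RingHom.comp (RingHom.comp (MvPolynomial.eval₂Hom L.subtype
              (fun j => z (Sum.inr j))) (MvPolynomial.map (MvPolynomial.eval₂Hom ψ z')))
              MvPolynomial.C) = (RingHom.comp ((MvPolynomial.eval₂Hom φ z).comp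
          ((MvPolynomial.renameEquiv E (Equiv.sumComm κ ι)).toRingEquiv.toRingHom.comp
            (MvPolynomial.sumAlgEquiv E κ ι).toRingEquiv.symm.toRingHom))
            (MvPolynomial.C : MvPolynomial ι E →+* _)) := by
            apply MvPolynomial.ringHom_ext
            · intro c
              simp [hψ]
            · intro i
              simp [z']
          exact RingHom.congr_fun this r
        · intro i
          simp
      have h1 : (MvPolynomial.eval₂Hom φ z) ((MvPolynomial.renameEquiv E (Equiv.sumComm κ ι))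
          ((MvPolynomial.sumAlgEquiv E κ ι).symm Q)) = 0 := by
        have := RingHom.congr_fun hring Q
        rw [RingHom.comp_apply, h0] at this
        exact this.symm
      have h2 := h (h1.trans (map_zero _).symm)
      rw [map_eq_zero_iff _ (MvPolynomial.renameEquiv E (Equiv.sumComm κ ι)).injective,
        map_eq_zero_iff _ (MvPolynomial.sumAlgEquiv E κ ι).symm.injective] at h2
      rw [h2, map_zero] at hmap
      rcases mul_eq_zero.1 hmap.symm with h3 | h3
      · exfalso
        rw [MvPolynomial.C_eq_zero] at h3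
        have h4 := (map_eq_zero_iff _ e.injective).1 h3
        exact hd ((map_eq_zero_iff _ (IsFractionRing.injective _ _)).1 h4)
      · exact h3
    intro p q hpq
    have := key (p - q) (by rw [map_sub, hpq, sub_self])
    exact sub_eq_zero.1 this
  · unfold GenBy
    rw [eq_top_iff, ← show Subfield.closure (Set.range φ ∪ Set.range z) = ⊤ from hg,
      Subfield.closure_le]
    rintro w (⟨c, rfl⟩ | ⟨i | j, rfl⟩)
    · exact Subfield.subset_closure (Or.inl ⟨ψ c, rfl⟩)
    · exact Subfield.subset_closure (Or.inl ⟨z' i, rfl⟩)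
    · exact Subfield.subset_closure (Or.inr ⟨j, rfl⟩)

/-- peeling off the last variable -/
theorem peelLast [Field E] [Field F] {φ : E →+* F} {m : ℕ} {z : Fin (m + 1) → F} (h : Indep φ z)
    (hg : GenBy φ (Set.range z)) :
    ∃ (L : Subfield F) (ψ : E →+* L) (z' : Fin m → L), (∀ c, (ψ c : F) = φ c) ∧
      (∀ i, (z' i : F) = z i.castSucc) ∧ Indep ψ z' ∧ GenBy ψ (Set.range z') ∧
      Indep L.subtype (fun _ : Unit => z (Fin.last m)) ∧ GenBy L.subtype {z (Fin.last m)} := by
  let e : Fin m ⊕ Unit ≃ Fin (m + 1) :=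
    { toFun := Sum.elim Fin.castSucc (fun _ => Fin.last m)
      invFun := fun i => if h : i.1 < m then Sum.inl ⟨i.1, h⟩ else Sum.inr ()
      left_inv := by
        rintro (i | i)
        · simp
        · simp
      right_inv := by
        intro i
        by_cases h : i.1 < m
        · simp [h]
        · simp only [h, dite_false, Sum.elim_inr]
          exact Fin.ext (by simp; omega) }
  obtain ⟨L, ψ, z', h1, h2, h3, h4, h5, h6⟩ := peelSum (h.equiv e) (hg.equiv e)
  refine ⟨L, ψ, z', h1, fun i => h2 i, h3, h4, h5, ?_⟩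
  have : (Set.range fun j : Unit => z (e (Sum.inr j))) = {z (Fin.last m)} := by
    ext w; simp [e]
  rw [this] at h6
  exact h6

/-- peeling off the first variable -/
theorem peelFirst [Field E] [Field F] {φ : E →+* F} {m : ℕ} {z : Fin (m + 1) → F} (h : Indep φ z)
    (hg : GenBy φ (Set.range z)) :
    ∃ (L : Subfield F) (ψ : E →+* L) (z' : Fin m → L), (∀ c, (ψ c : F) = φ c) ∧
      (∀ i, (z' i : F) = z i.succ) ∧ Indep ψ z' ∧ GenBy ψ (Set.range z') ∧
      Indep L.subtype (fun _ : Unit => z 0) ∧ GenBy L.subtype {z 0} := by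
  let e : Fin m ⊕ Unit ≃ Fin (m + 1) :=
    { toFun := Sum.elim Fin.succ (fun _ => 0)
      invFun := fun i => Fin.cases (Sum.inr ()) (fun j => Sum.inl j) i
      left_inv := by
        rintro (i | i)
        · simp
        · simp
      right_inv := by
        intro i
        refine Fin.cases ?_ (fun j => ?_) i
        · simp
        · simp }
  obtain ⟨L, ψ, z', h1, h2, h3, h4, h5, h6⟩ := peelSum (h.equiv e) (hg.equiv e)
  refine ⟨L, ψ, z', h1, fun i => h2 i, h3, h4, h5, ?_⟩
  have : (Set.range fun j : Unit => z (e (Sum.inr j))) = {z 0} := by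
    ext w; simp [e]
  rw [this] at h6
  exact h6

end indep

end Pool.Agent.Helper44.RED
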