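import Pool.Agent.Helper44.RED.StD
import Pool.Agent.Helper44.RED.Fld

/-!
# Project RED, module HOMOG
-/

set_option autoImplicit false

namespace Pool.Agent.Helper44.RED

/-- evaluation of a homogeneous polynomial at a multiple -/
private lemma eval_smul_Homog {k F : Type} [CommRing k] [CommRing F] {m : ℕ} (φ : k →+* F)
    (c : F) (y : Fin m → F) (q : MvPolynomial (Fin m) k) (d : ℕ) (hq : q.IsHomogeneous d) :
    MvPolynomial.eval₂Hom φ (fun i => c * y i) q = c ^ d * MvPolynomial.eval₂Hom φ y q := by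
  simp only [MvPolynomial.coe_eval₂Hom]
  rw [MvPolynomial.eval₂_eq', MvPolynomial.eval₂_eq', Finset.mul_sum]
  refine Finset.sum_congr rfl fun s hs => ?_
  have hd : s.degree = d := by
    by_contra h
    exact (MvPolynomial.mem_support_iff.1 hs) (hq.coeff_eq_zero h)
  have h1 : ∏ i, (c * y i) ^ s i = c ^ d * ∏ i, y i ^ s i := by
    simp_rw [mul_pow]
    rw [Finset.prod_mul_distrib, Finset.prod_pow_eq_pow_sum]
    congr 2
    rw [← hd, Finsupp.degree_eq_sum]
  rw [h1]; ring

section

variable (k : Type) [Field k] (m : ℕ)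

/-- the quotients `τ_{j+1}/τ_0` -/
private noncomputable def yy : Fin m → KT k (m + 1) := fun j =>
  tv k (m + 1) j.succ / tv k (m + 1) 0

private lemma tv_ne_Homog (n : ℕ) (i : Fin n) : tv k n i ≠ 0 := by
  unfold tv
  rw [Ne, map_eq_zero_iff _ (IsFractionRing.injective (MvPolynomial (Fin n) k) (KT k n))]
  exact MvPolynomial.X_ne_zero i

private lemma ev_tv_Homog (n : ℕ) (p : MvPolynomial (Fin n) k) :
    MvPolynomial.eval₂Hom (algebraMap k (KT k n)) (tv k n) p =
      algebraMap (MvPolynomial (Fin n) k) (KT k n) p := by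
  have : MvPolynomial.eval₂Hom (algebraMap k (KT k n)) (tv k n) =
      algebraMap (MvPolynomial (Fin n) k) (KT k n) := by
    apply MvPolynomial.ringHom_ext
    · intro a
      simp only [MvPolynomial.coe_eval₂Hom, MvPolynomial.eval₂_C]
      rw [IsScalarTower.algebraMap_apply k (MvPolynomial (Fin n) k) (KT k n)]
      rfl
    · intro i
      simp only [MvPolynomial.coe_eval₂Hom, MvPolynomial.eval₂_X]
      rfl
  rw [this]

private lemma indep_cons_Homog : Indep (algebraMap k (KT k (m + 1)))
    (Fin.cons (tv k (m + 1) 0) (yy k m) : Fin (m + 1) → KT k (m + 1)) := by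
  let A := MvPolynomial (Fin (m + 1)) k
  let θ : A →+* A := MvPolynomial.eval₂Hom MvPolynomial.C
    (Fin.cons (MvPolynomial.X 0) (fun i : Fin m => MvPolynomial.X 0 * MvPolynomial.X i.succ))
  let Ψ : A →+* KT k (m + 1) := MvPolynomial.eval₂Hom (algebraMap k (KT k (m + 1)))
    (Fin.cons (tv k (m + 1) 0) (yy k m) : Fin (m + 1) → KT k (m + 1))
  have h0 := tv_ne_Homog k (m + 1) 0
  have θC : ∀ a : k, θ (MvPolynomial.C a) = MvPolynomial.C a := fun a =>
    MvPolynomial.eval₂Hom_C _ _ _
  have θ0 : θ (MvPolynomial.X 0) = MvPolynomial.X 0 := MvPolynomial.eval₂Hom_X' _ _ _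
  have θs : ∀ j : Fin m, θ (MvPolynomial.X j.succ) = MvPolynomial.X 0 * MvPolynomial.X j.succ :=
    fun j => MvPolynomial.eval₂Hom_X' _ _ _
  have aC : ∀ a : k, algebraMap A (KT k (m + 1)) (MvPolynomial.C a) =
      algebraMap k (KT k (m + 1)) a := fun a =>
    (IsScalarTower.algebraMap_apply k A (KT k (m + 1)) a).symm
  have ΨC : ∀ a : k, Ψ (MvPolynomial.C a) = algebraMap k (KT k (m + 1)) a := fun a =>
    MvPolynomial.eval₂Hom_C _ _ _
  have Ψ0 : Ψ (MvPolynomial.X 0) = tv k (m + 1) 0 := MvPolynomial.eval₂Hom_X' _ _ _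
  have Ψs : ∀ j : Fin m, Ψ (MvPolynomial.X j.succ) = yy k m j :=
    fun j => MvPolynomial.eval₂Hom_X' _ _ _
  have hcomp : Ψ.comp θ = algebraMap A (KT k (m + 1)) := by
    apply MvPolynomial.ringHom_ext
    · intro a
      rw [RingHom.comp_apply, θC, ΨC, aC]
    · intro i
      rw [RingHom.comp_apply]
      refine Fin.cases ?_ (fun j => ?_) i
      · rw [θ0, Ψ0]
        rfl
      · rw [θs, map_mul, Ψ0, Ψs]
        unfold yy
        rw [mul_div_cancel₀ _ h0]
        rfl
  have hθ : Function.Injective θ := by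
    intro p q hpq
    have h1 : Ψ (θ p) = Ψ (θ q) := by rw [hpq]
    rw [← RingHom.comp_apply, ← RingHom.comp_apply, hcomp] at h1
    exact IsFractionRing.injective A (KT k (m + 1)) h1
  -- the images of the variables under `θ` are independent in the fraction field
  have hind : Indep (algebraMap k (KT k (m + 1)))
      (fun i => algebraMap A (KT k (m + 1)) (θ (MvPolynomial.X i))) := by
    have e : MvPolynomial.eval₂Hom (algebraMap k (KT k (m + 1)))
        (fun i => algebraMap A (KT k (m + 1)) (θ (MvPolynomial.X i))) =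
        (algebraMap A (KT k (m + 1))).comp θ := by
      apply MvPolynomial.ringHom_ext
      · intro a
        rw [RingHom.comp_apply, θC, aC]
        exact MvPolynomial.eval₂Hom_C _ _ _
      · intro i
        rw [RingHom.comp_apply]
        exact MvPolynomial.eval₂Hom_X' _ _ _
    unfold Indep
    rw [e]
    exact (IsFractionRing.injective A (KT k (m + 1))).comp hθ
  obtain ⟨Θ, hΘ1, hΘ2, _⟩ := hind.lift
  have t0 : Θ (tv k (m + 1) 0) = tv k (m + 1) 0 := by
    refine (hΘ2 0).trans ?_
    rw [θ0]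
    rfl
  have t1 : ∀ j : Fin m, Θ (tv k (m + 1) j.succ) = tv k (m + 1) 0 * tv k (m + 1) j.succ := by
    intro j
    refine (hΘ2 j.succ).trans ?_
    rw [θs, map_mul]
    rfl
  refine Indep.of_map Θ ?_
  have e1 : Θ.comp (algebraMap k (KT k (m + 1))) = algebraMap k (KT k (m + 1)) :=
    RingHom.ext hΘ1
  have e2 : (fun i => Θ ((Fin.cons (tv k (m + 1) 0) (yy k m) : Fin (m + 1) → KT k (m + 1)) i)) =
      tv k (m + 1) := by
    funext i
    refine Fin.cases ?_ (fun j => ?_) i
    · rw [Fin.cons_zero, t0]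
    · rw [Fin.cons_succ]
      unfold yy
      rw [map_div₀, t0, t1, mul_div_cancel_left₀ _ h0]
  rw [e1, e2]
  exact indep_frac

/-- the map `k(t) → k(τ)`, `t_j ↦ τ_{j+1}/τ_0` -/
private lemma exists_map_Homog : ∃ j : KT k m →+* KT k (m + 1), PureExt j ∧
    ∀ p, j (algebraMap (MvPolynomial (Fin m) k) (KT k m) p) =
      MvPolynomial.eval₂Hom (algebraMap k (KT k (m + 1))) (yy k m) p := by
  have h0 := tv_ne_Homog k (m + 1) 0
  let z : Fin m ⊕ Unit → KT k (m + 1) := Sum.elim (yy k m) (fun _ => tv k (m + 1) 0)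
  have hz : Indep (algebraMap k (KT k (m + 1))) z := by
    have h1 := (indep_cons_Homog k m).comp_inj
      (Sum.elim Fin.succ (fun _ : Unit => (0 : Fin (m + 1)))) (by
        rintro (a | a) (b | b) hab
        · exact congrArg _ (Fin.succ_injective _ hab)
        · exact absurd hab (Fin.succ_ne_zero a)
        · exact absurd hab.symm (Fin.succ_ne_zero b)
        · rfl)
    have h2 : (fun j => (Fin.cons (tv k (m + 1) 0) (yy k m) : Fin (m + 1) → KT k (m + 1))
        (Sum.elim Fin.succ (fun _ : Unit => (0 : Fin (m + 1))) j)) = z := by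
      funext j
      rcases j with j | j
      · simp [z]
      · simp [z]
    rw [h2] at h1
    exact h1
  have hg : GenBy (algebraMap k (KT k (m + 1))) (Set.range z) := by
    have h1 : GenBy (algebraMap k (KT k (m + 1))) (Set.range (tv k (m + 1))) := genBy_frac
    unfold GenBy at *
    rw [eq_top_iff, ← h1, Subfield.closure_le]
    have g0 : tv k (m + 1) 0 ∈ Subfield.closure (Set.range (algebraMap k (KT k (m + 1))) ∪
        Set.range z) := Subfield.subset_closure (Or.inr ⟨Sum.inr (), rfl⟩)
    rintro w (hw | ⟨i, rfl⟩)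
    · exact Subfield.subset_closure (Or.inl hw)
    · refine Fin.cases ?_ (fun j => ?_) i
      · exact g0
      · have g1 : yy k m j ∈ Subfield.closure (Set.range (algebraMap k (KT k (m + 1))) ∪
          Set.range z) := Subfield.subset_closure (Or.inr ⟨Sum.inl j, rfl⟩)
        have : tv k (m + 1) j.succ = yy k m j * tv k (m + 1) 0 := by
          unfold yy; rw [div_mul_cancel₀ _ h0]
        rw [this]
        exact mul_mem g1 g0
  obtain ⟨L, ψ, z', hψ, hz', hi, hgen, hi2, hg2⟩ := peelSum hz hg
  obtain ⟨e, he1, he2, he3⟩ := hi.iso hgen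
  refine ⟨L.subtype.comp (e : KT k m →+* L), ?_, ?_⟩
  · exact (pureExt_equiv e).comp (pureExt_of_fintype hi2 hg2)
  · intro p
    rw [RingHom.comp_apply]
    have h1 : (e : KT k m →+* L) (algebraMap (MvPolynomial (Fin m) k) (KT k m) p) =
        MvPolynomial.eval₂Hom ψ z' p := he3 p
    rw [h1]
    have h2 : L.subtype.comp (MvPolynomial.eval₂Hom ψ z') =
        MvPolynomial.eval₂Hom (algebraMap k (KT k (m + 1))) (yy k m) := by
      apply MvPolynomial.ringHom_ext
      · intro a
        simp only [RingHom.comp_apply, MvPolynomial.coe_eval₂Hom, MvPolynomial.eval₂_C]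
        exact hψ a
      · intro i
        simp only [RingHom.comp_apply, MvPolynomial.coe_eval₂Hom, MvPolynomial.eval₂_X]
        exact hz' i
    exact RingHom.congr_fun h2 p

end

/-- `hz c` in the fraction field -/
private lemma hz_eval_Homog {k : Type} [Field k] {m : ℕ} (c : MvPolynomial (Fin m) k) :
    algebraMap (MvPolynomial (Fin (m + 1)) k) (KT k (m + 1)) (hz c) =
      MvPolynomial.eval₂Hom (algebraMap k (KT k (m + 1))) (yy k m) c *
        (tv k (m + 1) 0 ^ c.totalDegree) ^ 2 := by
  have h0 := tv_ne_Homog k (m + 1) 0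
  have hc : MvPolynomial.eval₂Hom (algebraMap k (KT k (m + 1))) (yy k m) c =
      ∑ d ∈ Finset.range (c.totalDegree + 1), MvPolynomial.eval₂Hom (algebraMap k (KT k (m + 1)))
        (yy k m) (MvPolynomial.homogeneousComponent d c) := by
    conv_lhs => rw [← MvPolynomial.sum_homogeneousComponent c, map_sum]
  rw [hc, Finset.sum_mul]
  unfold hz
  rw [map_sum]
  refine Finset.sum_congr rfl fun d hd => ?_
  have hd' : d ≤ c.totalDegree := Nat.lt_succ_iff.1 (Finset.mem_range.1 hd)
  rw [map_mul, map_pow]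
  have h1 : algebraMap (MvPolynomial (Fin (m + 1)) k) (KT k (m + 1))
      (MvPolynomial.rename Fin.succ (MvPolynomial.homogeneousComponent d c)) =
      tv k (m + 1) 0 ^ d * MvPolynomial.eval₂Hom (algebraMap k (KT k (m + 1)))
        (yy k m) (MvPolynomial.homogeneousComponent d c) := by
    rw [← ev_tv_Homog]
    rw [← eval_smul_Homog _ _ _ _ d (MvPolynomial.homogeneousComponent_isHomogeneous d c)]
    simp only [MvPolynomial.coe_eval₂Hom, MvPolynomial.eval₂_rename]
    congr 1
    funext i
    simp only [Function.comp_apply, yy]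
    rw [mul_div_cancel₀ _ h0]
  rw [h1]
  change tv k (m + 1) 0 ^ (2 * c.totalDegree - d) * _ = _
  have h2 : tv k (m + 1) 0 ^ (2 * c.totalDegree - d) * tv k (m + 1) 0 ^ d =
      (tv k (m + 1) 0 ^ c.totalDegree) ^ 2 := by
    rw [← pow_add, ← pow_mul]
    congr 1
    omega
  rw [← mul_assoc, h2]
  ring

private lemma aniso_sq_Homog {K : Type} [Field K] {s : ℕ} (a r : Fin s → K) (ha : ∀ i, a i ≠ 0)
    (hr : ∀ i, r i ≠ 0) : Aniso (one (fun i => a i * r i ^ 2)) ↔ Aniso (one a) := by
  have e1 : one (fun i => a i * r i ^ 2) = fun i => (one a) i * (one r) i ^ 2 := by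
    funext i
    refine Fin.cases ?_ (fun j => ?_) i
    · simp [one]
    · simp [one]
  have hr1 : ∀ i, (one r) i ≠ 0 := by
    intro i
    refine Fin.cases ?_ (fun j => ?_) i
    · simp [one]
    · simpa [one] using hr j
  have ha1 : ∀ i, (one a) i ≠ 0 := by
    intro i
    refine Fin.cases ?_ (fun j => ?_) i
    · simp [one]
    · simpa [one] using ha j
  rw [e1]
  constructor
  · intro h
    refine h.of_emb ha1 ?_
    have h2 := Emb.sq (fun i => (one a) i * (one r) i ^ 2) (fun i => ((one r) i)⁻¹)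
    have e2 : (fun i => (one a) i * (one r) i ^ 2 * ((one r) i)⁻¹ ^ 2) = one a := by
      funext i
      have := hr1 i
      field_simp
    rw [e2] at h2
    exact h2
  · intro h
    exact h.of_emb (fun i => mul_ne_zero (ha1 i) (pow_ne_zero _ (hr1 i))) (Emb.sq _ _)

theorem pHomog : StPT → StHomog := by
  intro hPT k _ _ m c C hC
  obtain ⟨j, hj, hjp⟩ := exists_map_Homog k m
  have hne : ∀ l, MvPolynomial.eval₂Hom (algebraMap k (KT k (m + 1))) (yy k m) (C l) ≠ 0 := by
    intro l
    rw [← hjp]
    rw [Ne, map_eq_zero_iff _ j.injective, map_eq_zero_iff _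
      (IsFractionRing.injective (MvPolynomial (Fin m) k) (KT k m))]
    exact hC l
  have ht : ∀ n : ℕ, tv k (m + 1) 0 ^ n ≠ 0 := fun n => pow_ne_zero _ (tv_ne_Homog k (m + 1) 0)
  refine ⟨fun l => ⟨?_, ?_⟩, ?_⟩
  · intro h
    have h1 := hz_eval_Homog (C l)
    rw [h, map_zero] at h1
    exact mul_ne_zero (hne l) (pow_ne_zero _ (ht _)) h1.symm
  · unfold hz
    refine MvPolynomial.IsHomogeneous.sum _ _ _ fun d hd => ?_
    have hd' : d ≤ (C l).totalDegree := Nat.lt_succ_iff.1 (Finset.mem_range.1 hd)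
    have h1 : (MvPolynomial.X (0 : Fin (m + 1)) ^ (2 * (C l).totalDegree - d) :
        MvPolynomial (Fin (m + 1)) k).IsHomogeneous (2 * (C l).totalDegree - d) :=
      MvPolynomial.isHomogeneous_X_pow _ _
    have h2 := (MvPolynomial.homogeneousComponent_isHomogeneous d (C l)).rename_isHomogeneous
      (f := (Fin.succ : Fin m → Fin (m + 1)))
    have h3 := h1.mul h2
    have h4 : 2 * (C l).totalDegree - d + d = 2 * (C l).totalDegree := by omega
    rw [h4] at h3
    exact h3
  · have e1 : toKT (fun l => hz (C l)) = fun l =>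
        MvPolynomial.eval₂Hom (algebraMap k (KT k (m + 1))) (yy k m) (C l) *
          (tv k (m + 1) 0 ^ (C l).totalDegree) ^ 2 := by
      funext l
      exact hz_eval_Homog (C l)
    rw [e1, aniso_sq_Homog _ _ hne (fun l => ht _)]
    have e2 : one (fun l => MvPolynomial.eval₂Hom (algebraMap k (KT k (m + 1))) (yy k m) (C l)) =
        im j (one (toKT C)) := by
      funext i
      refine Fin.cases ?_ (fun l => ?_) i
      · simp [one, im]
      · simp only [one, im, Fin.cons_succ]
        exact (hjp (C l)).symm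
    rw [e2]
    constructor
    · exact fun h => h.of_im
    · exact fun h => (hPT _ _ j hj).aniso h

end Pool.Agent.Helper44.RED
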