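import Pool.Agent.Helper44.RED.StF
import Pool.Agent.Helper44.RED.M_Homog

/-!
# Project RED, module HOMD
-/

set_option autoImplicit false

namespace Pool.Agent.Helper44.RED

private lemma hzD_eq_HomD {k : Type} [Field k] {m : ℕ} (D : ℕ) (c : MvPolynomial (Fin m) k)
    (hD : c.totalDegree ≤ D) :
    hzD D c = hz c * (MvPolynomial.X 0 ^ (D - c.totalDegree)) ^ 2 := by
  unfold hzD hz
  have hsub : Finset.range (c.totalDegree + 1) ⊆ Finset.range (D + 1) := by
    intro d hd
    rw [Finset.mem_range] at hd ⊢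
    omega
  rw [← Finset.sum_subset hsub]
  · rw [Finset.sum_mul]
    refine Finset.sum_congr rfl fun d hd => ?_
    have hd' : d ≤ c.totalDegree := Nat.lt_succ_iff.1 (Finset.mem_range.1 hd)
    have h1 : (MvPolynomial.X (0 : Fin (m + 1)) : MvPolynomial (Fin (m + 1)) k) ^ (2 * D - d) =
        MvPolynomial.X 0 ^ (2 * c.totalDegree - d) *
          (MvPolynomial.X 0 ^ (D - c.totalDegree)) ^ 2 := by
      rw [← pow_mul, ← pow_add]
      congr 1
      omega
    rw [h1]
    ring
  · intro d _ hd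
    rw [Finset.mem_range, not_lt] at hd
    rw [MvPolynomial.homogeneousComponent_eq_zero _ _ (by omega), map_zero, mul_zero]

private lemma aniso_sq_HomD {K : Type} [Field K] {s : ℕ} (a r : Fin s → K) (ha : ∀ i, a i ≠ 0)
    (hr : ∀ i, r i ≠ 0) : Aniso (one (fun i => a i * r i ^ 2)) ↔ Aniso (one a) := by
  have e1 : one (fun i => a i * r i ^ 2) = fun i => (one a) i * (one r) i ^ 2 := by
    funext i
    refine Fin.cases ?_ (fun j => ?_) i
    · simp [one]
    · simp [one]
  have hr1 : ∀ i, (one r) i ≠ 0 := by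
    intro i
    refine Fin.cases ?_ (fun j => ?_) i
    · simp [one]
    · simpa [one] using hr j
  have ha1 : ∀ i, (one a) i ≠ 0 := by
    intro i
    refine Fin.cases ?_ (fun j => ?_) i
    · simp [one]
    · simpa [one] using ha j
  rw [e1]
  constructor
  · intro h
    refine h.of_emb ha1 ?_
    have h2 := Emb.sq (fun i => (one a) i * (one r) i ^ 2) (fun i => ((one r) i)⁻¹)
    have e2 : (fun i => (one a) i * (one r) i ^ 2 * ((one r) i)⁻¹ ^ 2) = one a := by
      funext i
      have := hr1 i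
      field_simp
    rw [e2] at h2
    exact h2
  · intro h
    exact h.of_emb (fun i => mul_ne_zero (ha1 i) (pow_ne_zero _ (hr1 i))) (Emb.sq _ _)

theorem pHomD : StPT → StHomD := by
  intro hPT k _ h2 m c C D hC hD
  obtain ⟨hA, hB⟩ := pHomog hPT k h2 m c C hC
  have hX : ∀ l, (MvPolynomial.X (0 : Fin (m + 1)) ^ (D l - (C l).totalDegree) :
      MvPolynomial (Fin (m + 1)) k) ≠ 0 := fun l => pow_ne_zero _ (MvPolynomial.X_ne_zero 0)
  have hinj := IsFractionRing.injective (MvPolynomial (Fin (m + 1)) k) (KT k (m + 1))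
  refine ⟨fun l => ⟨?_, ?_⟩, ?_⟩
  · rw [hzD_eq_HomD _ _ (hD l)]
    exact mul_ne_zero (hA l).1 (pow_ne_zero _ (hX l))
  · rw [hzD_eq_HomD _ _ (hD l)]
    have h1 : ((MvPolynomial.X (0 : Fin (m + 1)) ^ (D l - (C l).totalDegree)) ^ 2 :
        MvPolynomial (Fin (m + 1)) k).IsHomogeneous ((D l - (C l).totalDegree) * 2) :=
      (MvPolynomial.isHomogeneous_X_pow _ _).pow 2
    have h3 := (hA l).2.mul h1
    have h4 : 2 * (C l).totalDegree + (D l - (C l).totalDegree) * 2 = 2 * D l := by
      have := hD l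
      omega
    rw [h4] at h3
    exact h3
  · rw [← hB]
    have e1 : toKT (fun l => hzD (D l) (C l)) = fun l => (toKT fun l => hz (C l)) l *
        (algebraMap (MvPolynomial (Fin (m + 1)) k) (KT k (m + 1))
          (MvPolynomial.X 0 ^ (D l - (C l).totalDegree))) ^ 2 := by
      funext l
      change algebraMap (MvPolynomial (Fin (m + 1)) k) (KT k (m + 1)) (hzD (D l) (C l)) =
        algebraMap (MvPolynomial (Fin (m + 1)) k) (KT k (m + 1)) (hz (C l)) * _
      rw [hzD_eq_HomD _ _ (hD l), map_mul, map_pow]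
    rw [e1]
    refine aniso_sq_HomD _ _ (fun l => ?_) (fun l => ?_)
    · change algebraMap (MvPolynomial (Fin (m + 1)) k) (KT k (m + 1)) (hz (C l)) ≠ 0
      rw [Ne, map_eq_zero_iff _ hinj]
      exact (hA l).1
    · rw [Ne, map_eq_zero_iff _ hinj]
      exact hX l

end Pool.Agent.Helper44.RED
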