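import Pool.Agent.Helper44.RED.StF

set_option autoImplicit false

namespace Pool.Agent.Helper44.RED

private noncomputable def fracEquiv_Trans {k A B : Type} [Field k] [CommRing A] [CommRing B]
    [Algebra k A] [Algebra k B] (e : A ≃ₐ[k] B) : FractionRing A ≃ₐ[k] FractionRing B :=
  AlgEquiv.ofRingEquiv
    (f := IsFractionRing.ringEquivOfRingEquiv (K := FractionRing A) (L := FractionRing B)
      e.toRingEquiv) (by
    intro c
    rw [IsScalarTower.algebraMap_apply k A (FractionRing A),
      IsFractionRing.ringEquivOfRingEquiv_algebraMap,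
      IsScalarTower.algebraMap_apply k B (FractionRing B)]
    congr 1
    exact e.commutes c)

private lemma aux_Trans {k A B : Type} [Field k] [CommRing A] [CommRing B]
    [Algebra k A] [Algebra k B] (e : A ≃ₐ[k] B) (h : Rational k A) : Rational k B := by
  obtain ⟨N, ⟨f⟩⟩ := h
  exact ⟨N, ⟨(fracEquiv_Trans e).symm.trans f⟩⟩

private lemma aux2_Trans {k A B : Type} [Field k] [CommRing A] [CommRing B]
    [Algebra k A] [Algebra k B] (e : A ≃ₐ[k] B) (h : StRational k A) : StRational k B := by
  obtain ⟨p, N, ⟨f⟩⟩ := h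
  exact ⟨p, N, ⟨(fracEquiv_Trans (MvPolynomial.mapAlgEquiv (Fin p) e)).symm.trans f⟩⟩

/-- module TRANS -/
theorem pTrans : StTrans := by
  intro k R R' _ _ _ _ _ e
  exact ⟨⟨aux_Trans e, aux_Trans e.symm⟩, ⟨aux2_Trans e, aux2_Trans e.symm⟩⟩

end Pool.Agent.Helper44.RED
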