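import Pool.Agent.Helper44.RED.StD
import Pool.Agent.Helper44.RED.Fld

/-!
# Project RED, module AB
-/

set_option autoImplicit false

open Polynomial

namespace Pool.Agent.Helper44.RED

section AB

private lemma oddZ_mono_AB {K : Type} [Field K] {N : ℕ} {S T : Set (Matrix (Fin N) (Fin N) K)}
    (h : OddZ K T) (hST : S ⊆ T) : OddZ K S := by
  obtain ⟨L, i1, i2, hodd, u, hu, hz⟩ := h
  exact ⟨L, i1, i2, hodd, u, hu, fun A hA => hz A (hST hA)⟩

private lemma oddZ_transport_AB {K K' : Type} [Field K] [Field K'] (e : K ≃+* K') {N : ℕ}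
    {S : Set (Matrix (Fin N) (Fin N) K)} (h : OddZ K S) : OddZ K' ((fun A => A.map e) '' S) := by
  obtain ⟨L, i1, i2, hodd, u, hu, hz⟩ := h
  let alg : Algebra K' L := ((algebraMap K L).comp (e.symm : K' →+* K)).toAlgebra
  have hfin : Module.finrank K L = Module.finrank K' L := by
    refine Algebra.finrank_eq_of_equiv_equiv e (RingEquiv.refl L) ?_
    ext c
    show (algebraMap K L) (e.symm (e c)) = algebraMap K L c
    rw [e.symm_apply_apply]
  refine ⟨L, i1, alg, by rw [← hfin]; exact hodd, u, hu, ?_⟩
  rintro _ ⟨A, hA, rfl⟩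
  have h1 : (A.map e).map (algebraMap K' L) = A.map (algebraMap K L) := by
    ext a b
    show (algebraMap K L) (e.symm (e (A a b))) = algebraMap K L (A a b)
    rw [e.symm_apply_apply]
  show qm ((A.map e).map (algebraMap K' L)) u = 0
  rw [h1]
  exact hz A hA

private theorem claim_AB (hH1 : StH1) : ∀ (p : ℕ) (K E : Type) [Field K] [CharZero K] [Field E]
    (φ : K →+* E) (y : Fin p → E), Indep φ y → GenBy φ (Set.range y) →
    ∀ (N : ℕ) (A : Fin p → Matrix (Fin N) (Fin N) K) (S : Set (Matrix (Fin N) (Fin N) K)),
      OddZ E (insert (∑ i, y i • (A i).map φ) ((fun B => B.map φ) '' S)) →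
        OddZ K (Set.range A ∪ S) := by
  intro p
  induction p with
  | zero =>
    intro K E _ _ _ φ y hy hg N A S h
    have hsurj : Function.Surjective φ := by
      apply range_top_of_gen hg φ (fun c => ⟨c, rfl⟩)
      rintro s ⟨i, rfl⟩
      exact i.elim0
    let e : K ≃+* E := RingEquiv.ofBijective φ ⟨φ.injective, hsurj⟩
    refine oddZ_mono_AB (oddZ_transport_AB e.symm h) ?_
    rintro B (⟨i, rfl⟩ | hB)
    · exact i.elim0
    · refine ⟨B.map φ, Set.mem_insert_of_mem _ ⟨B, hB, rfl⟩, ?_⟩
      ext a b
      exact e.symm_apply_apply (B a b)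
  | succ p ih =>
    intro K E _ _ _ φ y hy hg N A S h
    obtain ⟨L, ψ, y', hψ, hy', hind, hgen, hind2, hgen2⟩ := peelLast hy hg
    obtain ⟨j, hj1, hj2, -⟩ := hind2.isoRat hgen2
    have hL : CharZero L := charZero_of_injective_ringHom ψ.injective
    set G : Matrix (Fin N) (Fin N) L := ∑ i, y' i • (A i.castSucc).map ψ with hG
    set H : Matrix (Fin N) (Fin N) L := (A (Fin.last p)).map ψ with hH
    have h1 := oddZ_transport_AB j.symm h
    have h2 : OddZ (RatFunc L) (insert (G.map (algebraMap L (RatFunc L)) +
        (RatFunc.X : RatFunc L) • H.map (algebraMap L (RatFunc L)))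
        ((fun A => A.map (algebraMap L (RatFunc L))) '' ((fun B => B.map ψ) '' S))) := by
      refine oddZ_mono_AB h1 ?_
      rintro M (rfl | ⟨_, ⟨B, hB, rfl⟩, rfl⟩)
      · refine ⟨_, Set.mem_insert _ _, ?_⟩
        ext a b
        show j.symm ((∑ i, y i • (A i).map φ) a b) = _
        rw [RingEquiv.symm_apply_eq]
        rw [Matrix.add_apply, Matrix.smul_apply, Matrix.map_apply, Matrix.map_apply, map_add,
          smul_eq_mul, map_mul, hj1, hj1, hj2, Fin.sum_univ_castSucc, Matrix.add_apply,
          Matrix.smul_apply, smul_eq_mul, Matrix.map_apply, Matrix.sum_apply, hG,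
          Matrix.sum_apply, map_sum]
        congr 1
        · refine Finset.sum_congr rfl fun i _ => ?_
          rw [Matrix.smul_apply, Matrix.smul_apply, smul_eq_mul, smul_eq_mul, map_mul,
            Matrix.map_apply, Matrix.map_apply]
          show _ = (y' i : E) * (ψ _ : E)
          rw [hy', hψ]
        · rw [hH, Matrix.map_apply]
          show _ = y (Fin.last p) * (ψ _ : E)
          rw [hψ]
      · refine ⟨B.map φ, Set.mem_insert_of_mem _ ⟨B, hB, rfl⟩, ?_⟩
        ext a b
        show j.symm (φ (B a b)) = algebraMap L (RatFunc L) (ψ (B a b))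
        rw [RingEquiv.symm_apply_eq, hj1]
        exact (hψ _).symm
    have h3 := hH1 L N ((fun B => B.map ψ) '' S) G H h2
    have h4 : OddZ L (insert (∑ i, y' i • (A i.castSucc).map ψ)
        ((fun B => B.map ψ) '' (insert (A (Fin.last p)) S))) := by
      rw [Set.image_insert_eq]
      exact h3
    have h5 := ih K L ψ y' hind hgen N (fun i => A i.castSucc) (insert (A (Fin.last p)) S) h4
    refine oddZ_mono_AB h5 ?_
    rintro B (⟨i, rfl⟩ | hB)
    · refine Fin.lastCases ?_ (fun i => ?_) i
      · exact Or.inr (Set.mem_insert _ _)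
      · exact Or.inl ⟨i, rfl⟩
    · exact Or.inr (Set.mem_insert_of_mem _ hB)

/-- AB. -/
theorem pAB (hBC : StOddBC) (hSp : StSpringer) (hH1 : StH1) : StAB := by
  intro K _ _ N p A
  have hC : CharZero (KT K p) :=
    charZero_of_injective_ringHom (algebraMap K (KT K p)).injective
  set M : Matrix (Fin N) (Fin N) (KT K p) :=
    ∑ i, tv K p i • (A i).map (algebraMap K (KT K p)) with hM
  constructor
  · rintro ⟨u, hu, hz⟩
    have h1 : OddZ (KT K p) (insert M ((fun B => B.map (algebraMap K (KT K p))) ''
        (∅ : Set (Matrix (Fin N) (Fin N) K)))) := by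
      refine ⟨KT K p, inferInstance, Algebra.id _, ?_, u, hu, ?_⟩
      · rw [Module.finrank_self]
        exact odd_one
      · rintro B (rfl | ⟨_, h, _⟩)
        · have e : M.map (algebraMap (KT K p) (KT K p)) = M := by
            ext a b
            rfl
          rw [e]
          exact hz
        · exact absurd h (Set.notMem_empty _)
    have h2 := claim_AB hH1 p K (KT K p) (algebraMap K (KT K p)) (tv K p) indep_frac genBy_frac N
      A ∅ h1
    exact oddZ_mono_AB h2 Set.subset_union_left
  · rintro ⟨L, i1, i2, hodd, u, hu, hz⟩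
    obtain ⟨L', i3, i4, j, hodd', hj⟩ := hBC K (KT K p) L hodd
    refine hSp (KT K p) L' N M hodd' ⟨fun a => j (u a), ?_, ?_⟩
    · intro h0
      apply hu
      funext a
      have := congrFun h0 a
      exact (map_eq_zero j).mp this
    · have h1 : M.map (algebraMap (KT K p) L') =
          ∑ i, algebraMap (KT K p) L' (tv K p i) • ((A i).map (algebraMap K L)).map j := by
        ext a b
        rw [Matrix.map_apply, hM, Matrix.sum_apply, map_sum, Matrix.sum_apply]
        refine Finset.sum_congr rfl fun i _ => ?_
        rw [Matrix.smul_apply, Matrix.smul_apply, smul_eq_mul, smul_eq_mul, map_mul,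
          Matrix.map_apply, Matrix.map_apply, Matrix.map_apply, hj]
      have h2 : ∀ i, qm (((A i).map (algebraMap K L)).map j) (fun a => j (u a)) = 0 := by
        intro i
        have h3 := hz (A i) ⟨i, rfl⟩
        have h4 : qm (((A i).map (algebraMap K L)).map j) (fun a => j (u a)) =
            j (qm ((A i).map (algebraMap K L)) u) := by
          unfold qm dotProduct Matrix.mulVec dotProduct
          rw [map_sum]
          refine Finset.sum_congr rfl fun a _ => ?_
          rw [map_mul, map_sum]
          congr 1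
          refine Finset.sum_congr rfl fun b _ => ?_
          rw [map_mul]
          rfl
        rw [h4, h3, map_zero]
      unfold qm
      rw [h1, Matrix.sum_mulVec, dotProduct_sum]
      refine Finset.sum_eq_zero fun i _ => ?_
      rw [Matrix.smul_mulVec, dotProduct_smul]
      have h3 := h2 i
      unfold qm at h3
      rw [h3, smul_zero]

end AB

end Pool.Agent.Helper44.RED
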