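import Pool.Agent.Helper44.RED.StB

/-!
# Project RED, module AllUnram
-/

set_option autoImplicit false

open Polynomial

namespace Pool.Agent.Helper44.RED

private lemma lin_smul_AllUnram {k F : Type} [CommRing k] [CommRing F] [Algebra k F] {t : ℕ}
    (A : Matrix (Fin t) (Fin t) k) (c : F) (τ : Fin t → F) : lin A (c • τ) = c • lin A τ := by
  funext j
  simp only [lin, Pi.smul_apply, smul_eq_mul, Finset.mul_sum]
  exact Finset.sum_congr rfl fun i _ => by ring

private lemma hom_smul_AllUnram {k F : Type} [CommRing k] [CommRing F] [Algebra k F] {t : ℕ}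
    (p : MvPolynomial (Fin t) k) (n : ℕ) (hp : p.IsHomogeneous n) (c : F) (y : Fin t → F) :
    MvPolynomial.aeval (c • y) p = c ^ n * MvPolynomial.aeval y p := by
  rw [MvPolynomial.aeval_def, MvPolynomial.aeval_def, MvPolynomial.eval₂_eq',
    MvPolynomial.eval₂_eq', Finset.mul_sum]
  refine Finset.sum_congr rfl fun d hd => ?_
  have hdeg : d.degree = n := by
    by_contra h
    exact (MvPolynomial.mem_support_iff.1 hd) (hp.coeff_eq_zero h)
  have h1 : ∏ i, (c • y) i ^ d i = c ^ n * ∏ i, y i ^ d i := by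
    have h2 : ∏ i, (c • y) i ^ d i = (∏ i, c ^ d i) * ∏ i, y i ^ d i := by
      rw [← Finset.prod_mul_distrib]
      exact Finset.prod_congr rfl fun i _ => by rw [Pi.smul_apply, smul_eq_mul, mul_pow]
    rw [h2, Finset.prod_pow_eq_pow_sum, ← hdeg, Finsupp.degree_eq_sum]
  rw [h1]
  ring

private lemma aeval_mem_AllUnram {k F : Type} [Field k] [Field F] [Algebra k F] {t : ℕ}
    (O : ValuationSubring F) (hO : ∀ c : k, algebraMap k F c ∈ O) (y : Fin t → F)
    (hy : ∀ j, y j ∈ O) (p : MvPolynomial (Fin t) k) : MvPolynomial.aeval y p ∈ O := by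
  rw [MvPolynomial.aeval_def, MvPolynomial.eval₂_eq']
  exact sum_mem fun d _ => mul_mem (hO _) (prod_mem fun i _ => pow_mem (hy i) _)

private lemma bs_nat_AllUnram {k F G : Type} [CommRing k] [CommRing F] [CommRing G] [Algebra k F]
    [Algebra k G] (φ : F →ₐ[k] G) {t s : ℕ} (b : Fin s → MvPolynomial (Fin t) k)
    (A : Matrix (Fin t) (Fin t) k) (τ : Fin t → F) (l : Fin s) :
    φ (bs b A τ l) = bs b A (fun j => φ (τ j)) l := by
  unfold bs
  rw [← AlgHom.comp_apply, MvPolynomial.comp_aeval]
  congr 2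
  funext j
  simp only [lin, map_sum, map_mul, AlgHom.commutes]

private lemma bf_ext_AllUnram {R : Type} [CommRing R] {n : ℕ} (x : Fin n → R)
    (u v : Pu n → R) :
    bf (pf x) (fun S => if h : S.Nonempty then u ⟨S, h⟩ else 0)
      (fun S => if h : S.Nonempty then v ⟨S, h⟩ else 0) = bf (ppf x) u v := by
  classical
  unfold bf
  rw [← Fintype.sum_subtype_add_sum_subtype (fun S : Finset (Fin n) => S.Nonempty)]
  have h2 : ∑ S : {S : Finset (Fin n) // ¬ S.Nonempty}, pf x S.1 *
      ((if h : S.1.Nonempty then u ⟨S.1, h⟩ else 0) * (if h : S.1.Nonempty then v ⟨S.1, h⟩ else 0))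
      = 0 := Finset.sum_eq_zero fun S _ => by rw [dif_neg S.2, zero_mul, mul_zero]
  rw [h2, add_zero]
  refine Finset.sum_congr rfl fun S _ => ?_
  beta_reduce
  rw [dif_pos S.2, dif_pos S.2]
  rfl

private lemma emb_one_AllUnram {R : Type} [CommRing R] {n s : ℕ} (x : Fin n → R)
    (u : Fin s → R) (h : Emb u (ppf x)) : Emb (one u) (pf x) := by
  classical
  obtain ⟨v, h0, h1⟩ := h
  set W : Fin s → Finset (Fin n) → R := fun j S => if h : S.Nonempty then v j ⟨S, h⟩ else 0
    with hW
  have hWe : ∀ j, W j ∅ = 0 := fun j => by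
    simp only [hW]
    rw [dif_neg Finset.not_nonempty_empty]
  have hs1 : ∀ j, bf (pf x) (W j) (Pi.single ∅ 1) = 0 := fun j => by
    rw [bf_single_right, hWe, zero_mul, mul_zero]
  refine ⟨Fin.cons (Pi.single ∅ 1) W, ?_, ?_⟩
  · intro i j hij
    refine Fin.cases ?_ (fun i => ?_) i hij <;> intro hij
    · refine Fin.cases (fun hij => absurd rfl hij) (fun j _ => ?_) j hij
      rw [Fin.cons_zero, Fin.cons_succ, bf_comm]
      exact hs1 j
    · refine Fin.cases (fun _ => ?_) (fun j hij => ?_) j hij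
      · rw [Fin.cons_zero, Fin.cons_succ]
        exact hs1 i
      · rw [Fin.cons_succ, Fin.cons_succ]
        exact (bf_ext_AllUnram x (v i) (v j)).trans (h0 i j fun h => hij (by rw [h]))
  · intro j
    refine Fin.cases ?_ (fun j => ?_) j
    · rw [Fin.cons_zero, qf_single, pf_empty, one_pow, mul_one]
      rfl
    · rw [Fin.cons_succ, ← bf_self]
      refine (bf_ext_AllUnram x (v j) (v j)).trans ?_
      rw [bf_self, h1 j]
      rfl

theorem pAllUnram : StGoodRed → StAllUnram := by
  intro hGR k F _ _ _ _ h2 t n s M b σ τ x hn hs hhom hNC hτ hx hne hEmb O hO hk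
  obtain ⟨n', rfl⟩ : ∃ n', n = n' + 1 := ⟨n - 1, by omega⟩
  rw [Nat.add_sub_cancel] at hs
  -- the variable of smallest valuation
  obtain ⟨j₀, hj₀⟩ : ∃ j, τ j ≠ 0 := by
    by_contra h
    push Not at h
    exact hτ (funext h)
  have _ : Nonempty (Fin t) := ⟨j₀⟩
  obtain ⟨l₀, hl₀⟩ := Finite.exists_max (fun j => O.valuation (τ j))
  have hl0 : τ l₀ ≠ 0 := by
    intro h
    have h1 := hl₀ j₀
    rw [h, map_zero] at h1
    have h3 : O.valuation (τ j₀) = 0 := le_antisymm h1 zero_le
    exact hj₀ ((map_eq_zero _).1 h3)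
  set y : Fin t → F := fun j => (τ l₀)⁻¹ * τ j with hy
  have hτy : τ = τ l₀ • y := by
    funext j
    simp only [hy, Pi.smul_apply, smul_eq_mul]
    rw [← mul_assoc, mul_inv_cancel₀ hl0, one_mul]
  have hyO : ∀ j, y j ∈ O := by
    intro j
    rw [← O.valuation_le_one_iff]
    simp only [hy]
    rw [map_mul, map_inv₀]
    have h3 : O.valuation (τ l₀) ≠ 0 := (_root_.map_ne_zero _).2 hl0
    calc (O.valuation (τ l₀))⁻¹ * O.valuation (τ j) ≤ (O.valuation (τ l₀))⁻¹ * O.valuation (τ l₀) := by
          gcongr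
          exact hl₀ j
      _ = 1 := inv_mul_cancel₀ h3
  have hyl : y l₀ = 1 := inv_mul_cancel₀ hl0
  choose D hD using hhom
  have hscale : ∀ i l, bs b (σ i) τ l = (τ l₀ ^ D l) ^ 2 * bs b (σ i) y l := by
    intro i l
    have h3 : bs b (σ i) (τ l₀ • y) l = τ l₀ ^ (2 * D l) * bs b (σ i) y l := by
      unfold bs
      rw [lin_smul_AllUnram, hom_smul_AllUnram _ _ (hD l)]
    rw [← hτy] at h3
    rw [h3, ← pow_mul, mul_comm (D l) 2]
  have hlin : ∀ i j, lin (σ i) y j ∈ O := fun i j =>
    sum_mem fun j' _ => mul_mem (hk _) (hyO j')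
  have hbO : ∀ i l, bs b (σ i) y l ∈ O := fun i l => aeval_mem_AllUnram O hk _ (hlin i) _
  have hb0 : ∀ i l, bs b (σ i) y l ≠ 0 := by
    intro i l h
    apply hne i l
    rw [hscale, h, mul_zero]
  -- the claim
  have hclaim : ∃ i, ∀ l, IsU O (bs b (σ i) y l) := by
    by_contra hcon
    push Not at hcon
    set P : Fin M → MvPolynomial (Fin t) k :=
      fun i => ∏ l, bs b (σ i) (fun j => (MvPolynomial.X j : MvPolynomial (Fin t) k)) l with hP
    have hPev : ∀ (G : Type) [CommRing G] [Algebra k G] (z : Fin t → G) (i : Fin M),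
        MvPolynomial.aeval z (P i) = ∏ l, bs b (σ i) z l := by
      intro G _ _ z i
      simp only [hP]
      rw [map_prod]
      refine Finset.prod_congr rfl fun l _ => ?_
      rw [bs_nat_AllUnram]
      simp only [MvPolynomial.aeval_X]
    have hPlt : ∀ i, O.valuation (MvPolynomial.aeval y (P i)) < 1 := by
      intro i
      obtain ⟨l, hl⟩ := hcon i
      rw [hPev]
      rw [← Finset.mul_prod_erase _ _ (Finset.mem_univ l), map_mul]
      have h3 : O.valuation (bs b (σ i) y l) < 1 := by
        by_contra h4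
        apply hl
        refine ⟨hbO i l, ?_, hb0 i l⟩
        rw [← O.valuation_le_one_iff, map_inv₀]
        have h5 : 1 ≤ O.valuation (bs b (σ i) y l) := not_lt.1 h4
        exact inv_le_one_of_one_le₀ h5
      have h4 : O.valuation (∏ l' ∈ Finset.univ.erase l, bs b (σ i) y l') ≤ 1 := by
        rw [O.valuation_le_one_iff]
        exact prod_mem fun l' _ => hbO i l'
      calc O.valuation (bs b (σ i) y l) * O.valuation (∏ l' ∈ Finset.univ.erase l, bs b (σ i) y l')
          ≤ O.valuation (bs b (σ i) y l) * 1 := by gcongr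
        _ < 1 := by rw [mul_one]; exact h3
    set I : Ideal (MvPolynomial (Fin t) k) := Ideal.span (Set.range P) with hI
    have hrad : (MvPolynomial.X l₀ : MvPolynomial (Fin t) k) ∈ I.radical := by
      rw [← MvPolynomial.vanishingIdeal_zeroLocus_eq_radical (K := k) I]
      rw [MvPolynomial.mem_vanishingIdeal_iff]
      intro z hz
      rw [MvPolynomial.mem_zeroLocus_iff] at hz
      have h3 : z = 0 := by
        apply hNC
        intro i
        rw [← hPev k z i]
        exact hz _ (Ideal.subset_span ⟨i, rfl⟩)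
      rw [MvPolynomial.aeval_X, h3, Pi.zero_apply]
    obtain ⟨R, hR⟩ := Ideal.mem_radical_iff.1 hrad
    have hall : ∀ p ∈ I, O.valuation (MvPolynomial.aeval y p) < 1 := by
      intro p hp
      rw [hI] at hp
      induction hp using Submodule.span_induction with
      | mem p hp =>
        obtain ⟨i, rfl⟩ := hp
        exact hPlt i
      | zero => rw [map_zero, map_zero]; exact zero_lt_one
      | add p q _ _ h3 h4 =>
        rw [map_add]
        exact lt_of_le_of_lt (O.valuation.map_add _ _) (max_lt h3 h4)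
      | smul a p _ h3 =>
        rw [smul_eq_mul, map_mul, map_mul]
        have h4 : O.valuation (MvPolynomial.aeval y a) ≤ 1 := by
          rw [O.valuation_le_one_iff]
          exact aeval_mem_AllUnram O hk y hyO a
        calc O.valuation (MvPolynomial.aeval y a) * O.valuation (MvPolynomial.aeval y p)
            ≤ 1 * O.valuation (MvPolynomial.aeval y p) := by gcongr
          _ < 1 := by rw [one_mul]; exact h3
    have h3 := hall _ hR
    rw [map_pow, MvPolynomial.aeval_X, hyl, one_pow, map_one] at h3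
    exact lt_irrefl _ h3
  obtain ⟨i, hi⟩ := hclaim
  have hE1 : Emb (fun l => bs b (σ i) y l) (bs b (σ i) τ) := by
    have h3 := Emb.sq (bs b (σ i) τ) (fun l => ((τ l₀) ^ D l)⁻¹)
    have h4 : (fun l => bs b (σ i) τ l * (((τ l₀) ^ D l)⁻¹) ^ 2) = fun l => bs b (σ i) y l := by
      funext l
      have h5 : τ l₀ ^ D l ≠ 0 := pow_ne_zero _ hl0
      rw [hscale]
      field_simp
    rw [h4] at h3
    exact h3
  have hE2 := emb_one_AllUnram x _ (hE1.trans (hEmb i))
  have h2F : (2 : F) = algebraMap k F 2 := by rw [map_ofNat]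
  have hU2 : IsU O (2 : F) := by
    refine ⟨?_, ?_, ?_⟩
    · rw [h2F]; exact hk 2
    · rw [h2F, ← map_inv₀]; exact hk _
    · rw [h2F]; exact (_root_.map_ne_zero _).2 h2
  exact hGR F O hO hU2 n' s x _ hs hx hi hE2

end Pool.Agent.Helper44.RED
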