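import Pool.Agent.Helper44.RED.StB

/-!
# Project RED: module AnisoRes
-/

set_option autoImplicit false

namespace Pool.Agent.Helper44.RED

variable {F : Type} [Field F]

private lemma val_unit_AnisoRes {O : ValuationSubring F} {z : F} (h : IsU O z) :
    O.valuation z = 1 := by
  obtain ⟨h1, h2, h3⟩ := h
  apply le_antisymm
  · exact (O.valuation_le_one_iff z).mpr h1
  · have h4 := (O.valuation_le_one_iff z⁻¹).mpr h2
    rw [map_inv₀] at h4
    have h5 : 0 < O.valuation z := (Valuation.pos_iff _).mpr h3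
    exact (inv_le_one₀ h5).mp h4

private lemma val_unif_AnisoRes {O : ValuationSubring F} {ϖ : F} (hϖ : Unif O ϖ) :
    0 < O.valuation ϖ ∧ O.valuation ϖ < 1 := by
  obtain ⟨h1, h2, h3, h4⟩ := hϖ
  have h5 : 0 < O.valuation ϖ := (Valuation.pos_iff _).mpr h2
  refine ⟨h5, lt_of_le_of_ne ((O.valuation_le_one_iff ϖ).mpr h1) ?_⟩
  intro h6
  apply h3
  rw [← O.valuation_le_one_iff, map_inv₀, h6, inv_one]

private lemma prim_AnisoRes {ι : Type} [Fintype ι] {O : ValuationSubring F} {ϖ : F}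
    (hϖ : Unif O ϖ) (X : ι → F) (hX : X ≠ 0) :
    ∃ m : ℤ, (∀ i, X i * ϖ ^ m ∈ O) ∧ ∃ i, IsU O (X i * ϖ ^ m) := by
  classical
  obtain ⟨h1, h2, h3, h4⟩ := hϖ
  have h5 : ∀ i, ∃ k : ℤ, X i ≠ 0 → IsU O (X i * ϖ ^ k) := by
    intro i
    by_cases h : X i = 0
    · exact ⟨0, fun h' => absurd h h'⟩
    · obtain ⟨k, hk⟩ := h4 (X i) h
      exact ⟨k, fun _ => hk⟩
  choose k hk using h5
  have hne : (Finset.univ.filter fun i => X i ≠ 0).Nonempty := by
    by_contra hcon
    apply hX
    funext i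
    by_contra hi
    exact hcon ⟨i, by simpa using hi⟩
  obtain ⟨i0, hi0, hmax⟩ := Finset.exists_max_image _ k hne
  have hi0' : X i0 ≠ 0 := by simpa using hi0
  refine ⟨k i0, fun i => ?_, i0, hk i0 hi0'⟩
  by_cases hi : X i = 0
  · rw [hi, zero_mul]; exact O.zero_mem
  · have h6 : k i ≤ k i0 := hmax i (by simpa using hi)
    obtain ⟨m, hm⟩ : ∃ m : ℕ, k i0 = k i + m := ⟨(k i0 - k i).toNat, by omega⟩
    rw [hm, zpow_add₀ h2, ← mul_assoc, zpow_natCast]
    exact O.mul_mem _ _ (hk i hi).1 (pow_mem h1 m)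

private lemma vqf_AnisoRes {ι : Type} [Fintype ι] {O : ValuationSubring F} {ϖ : F}
    (hϖ : Unif O ϖ) (μ X : ι → F) (hres : ResAniso O μ) (hX : X ≠ 0) :
    ∃ m : ℤ, O.valuation (qf μ X) = O.valuation ϖ ^ (-(2 * m)) ∧ (m ≤ 0 → ∀ i, X i ∈ O) := by
  obtain ⟨m, hm1, hm2⟩ := prim_AnisoRes hϖ X hX
  have h2 : ϖ ≠ 0 := hϖ.2.1
  refine ⟨m, ?_, ?_⟩
  · have h3 := val_unit_AnisoRes (hres (fun i => X i * ϖ ^ m) hm1 hm2)
    have h4 : qf μ (fun i => X i * ϖ ^ m) = ϖ ^ (2 * m) * qf μ X := by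
      have : (fun i => X i * ϖ ^ m) = (ϖ ^ m) • X := by
        funext i
        simp only [Pi.smul_apply, smul_eq_mul]
        ring
      rw [this, qf_smul, two_mul, zpow_add₀ h2]
      ring
    rw [h4, map_mul, map_zpow₀] at h3
    rw [zpow_neg]
    exact eq_inv_of_mul_eq_one_right h3
  · intro hm i
    obtain ⟨p, hp⟩ : ∃ p : ℕ, m = -(p : ℤ) := ⟨(-m).toNat, by omega⟩
    have h5 : X i = (X i * ϖ ^ m) * ϖ ^ p := by
      rw [mul_assoc, ← zpow_natCast, ← zpow_add₀ h2, hp]
      simp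
    rw [h5]
    exact O.mul_mem _ _ (hm1 i) (pow_mem hϖ.1 p)

private lemma integral_AnisoRes {ι : Type} [Fintype ι] {O : ValuationSubring F} {ϖ : F}
    (hϖ : Unif O ϖ) (μ X Y : ι → F) (hres : ResAniso O μ) (h : F) (hh : IsU O h)
    (hXY : qf μ X - ϖ * h * qf μ Y ∈ O) : (∀ i, X i ∈ O) ∧ (∀ i, Y i ∈ O) := by
  obtain ⟨ha0, ha1⟩ := val_unif_AnisoRes hϖ
  set a := O.valuation ϖ with ha
  have ha0' : a ≠ 0 := ne_of_gt ha0
  have hle : ∀ k : ℤ, a ^ k ≤ 1 → 0 ≤ k := by
    intro k hk
    by_contra hcon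
    push Not at hcon
    have := one_lt_zpow_of_neg₀ ha0 ha1 hcon
    exact absurd hk (not_le.mpr this)
  have hv := (O.valuation_le_one_iff _).mpr hXY
  have hB : ∀ m' : ℤ, O.valuation (qf μ Y) = a ^ (-(2 * m')) →
      O.valuation (ϖ * h * qf μ Y) = a ^ (1 - 2 * m') := by
    intro m' hm'
    rw [map_mul, map_mul, val_unit_AnisoRes hh, mul_one, ← ha, hm', sub_eq_add_neg,
      zpow_add₀ ha0', zpow_one]
  by_cases hX : X = 0
  · by_cases hY : Y = 0
    · subst hX hY
      exact ⟨fun _ => O.zero_mem, fun _ => O.zero_mem⟩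
    · obtain ⟨m', hm1', hm2'⟩ := vqf_AnisoRes hϖ μ Y hres hY
      rw [hX, qf_zero, zero_sub, Valuation.map_neg, hB m' hm1'] at hv
      refine ⟨fun i => by rw [hX]; exact O.zero_mem, hm2' ?_⟩
      have := hle _ hv
      omega
  · obtain ⟨m, hm1, hm2⟩ := vqf_AnisoRes hϖ μ X hres hX
    by_cases hY : Y = 0
    · rw [hY, qf_zero, mul_zero, sub_zero, hm1] at hv
      refine ⟨hm2 ?_, fun i => by rw [hY]; exact O.zero_mem⟩
      have := hle _ hv
      omega
    · obtain ⟨m', hm1', hm2'⟩ := vqf_AnisoRes hϖ μ Y hres hY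
      have hne : O.valuation (qf μ X) ≠ O.valuation (-(ϖ * h * qf μ Y)) := by
        rw [Valuation.map_neg, hm1, hB m' hm1']
        intro h5
        have h6 := zpow_right_injective₀ ha0 (ne_of_lt ha1) h5
        omega
      rw [sub_eq_add_neg, Valuation.map_add_of_distinct_val _ hne, Valuation.map_neg, hm1,
        hB m' hm1', max_le_iff] at hv
      have h7 := hle _ hv.1
      have h8 := hle _ hv.2
      exact ⟨hm2 (by omega), hm2' (by omega)⟩

/-- subsets of `Fin (n+1)` split by membership of the last element -/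
private def eqv_AnisoRes (n : ℕ) : Finset (Fin n) ⊕ Finset (Fin n) ≃ Finset (Fin (n + 1)) where
  toFun := Sum.elim (fun S => S.map Fin.castSuccEmb)
    (fun S => insert (Fin.last n) (S.map Fin.castSuccEmb))
  invFun := fun T => if Fin.last n ∈ T then Sum.inr (Finset.univ.filter fun j => j.castSucc ∈ T)
    else Sum.inl (Finset.univ.filter fun j => j.castSucc ∈ T)
  left_inv := by
    rintro (S | S)
    · have h1 : Fin.last n ∉ S.map Fin.castSuccEmb := by
        simp [Fin.castSucc_ne_last]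
      simp only [Sum.elim_inl, if_neg h1]
      congr 1
      ext j
      simp
    · simp only [Sum.elim_inr, Finset.mem_insert_self, if_true]
      congr 1
      ext j
      simp [Fin.castSucc_ne_last]
  right_inv := by
    intro T
    by_cases h : Fin.last n ∈ T
    · simp only [if_pos h, Sum.elim_inr]
      ext j
      refine Fin.lastCases ?_ (fun i => ?_) j
      · simp [h]
      · simp [Fin.castSucc_ne_last]
    · simp only [if_neg h, Sum.elim_inl]
      ext j
      refine Fin.lastCases ?_ (fun i => ?_) j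
      · simp [h, Fin.castSucc_ne_last]
      · simp

private lemma pf_inl_AnisoRes {n : ℕ} (x : Fin (n + 1) → F) (S : Finset (Fin n)) :
    pf x (eqv_AnisoRes n (Sum.inl S)) = pf (fun j : Fin n => x j.castSucc) S := by
  show pf x (S.map Fin.castSuccEmb) = _
  unfold pf
  rw [Finset.prod_map]
  rfl

private lemma pf_inr_AnisoRes {n : ℕ} (x : Fin (n + 1) → F) (S : Finset (Fin n)) :
    pf x (eqv_AnisoRes n (Sum.inr S)) =
      (- x (Fin.last n)) * pf (fun j : Fin n => x j.castSucc) S := by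
  show pf x (insert (Fin.last n) (S.map Fin.castSuccEmb)) = _
  unfold pf
  rw [Finset.prod_insert (by simp [Fin.castSucc_ne_last]), Finset.prod_map]
  rfl

private lemma bf_split_AnisoRes {n : ℕ} (x : Fin (n + 1) → F) (p q : Finset (Fin (n + 1)) → F) :
    bf (pf x) p q = bf (pf fun j : Fin n => x j.castSucc)
        (fun S => p (eqv_AnisoRes n (Sum.inl S))) (fun S => q (eqv_AnisoRes n (Sum.inl S))) -
      x (Fin.last n) * bf (pf fun j : Fin n => x j.castSucc)
        (fun S => p (eqv_AnisoRes n (Sum.inr S))) (fun S => q (eqv_AnisoRes n (Sum.inr S))) := by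
  unfold bf
  rw [← Equiv.sum_comp (eqv_AnisoRes n), Fintype.sum_sum_type, Finset.mul_sum, sub_eq_add_neg,
    ← Finset.sum_neg_distrib]
  congr 1
  · refine Finset.sum_congr rfl fun S _ => ?_
    rw [pf_inl_AnisoRes]
  · refine Finset.sum_congr rfl fun S _ => ?_
    rw [pf_inr_AnisoRes]
    ring

private lemma res_ne_AnisoRes {O : ValuationSubring F} (z : O) (h : IsU O (z : F)) :
    IsLocalRing.residue O z ≠ 0 := by
  rw [IsLocalRing.residue_ne_zero_iff_isUnit]
  obtain ⟨h1, h2, h3⟩ := h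
  refine isUnit_iff_exists_inv.mpr ⟨⟨(z : F)⁻¹, h2⟩, ?_⟩
  apply Subtype.ext
  exact mul_inv_cancel₀ h3

/-- ANISORES. -/
theorem pAnisoRes : StAnisoRes := by
  intro F _ O ϖ hϖ n s x h u hs hx hh hlast hres hu hEmb
  classical
  obtain ⟨v, hv0, hv1⟩ := hEmb
  set μ : Finset (Fin n) → F := pf (fun j : Fin n => x j.castSucc) with hμ
  have hμO : ∀ S, μ S ∈ O := by
    intro S
    rw [hμ]
    unfold pf
    exact prod_mem fun j _ => O.neg_mem _ (hx j).1
  set X : Fin (s + 1) → Finset (Fin n) → F := fun j S => v j (eqv_AnisoRes n (Sum.inl S)) with hX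
  set Y : Fin (s + 1) → Finset (Fin n) → F := fun j S => v j (eqv_AnisoRes n (Sum.inr S)) with hY
  have hbf : ∀ i j, bf (pf x) (v i) (v j) = bf μ (X i) (X j) - ϖ * h * bf μ (Y i) (Y j) := by
    intro i j
    rw [bf_split_AnisoRes, hlast]
  have hone : ∀ j, IsU O ((one u) j) := by
    intro j
    refine Fin.cases ?_ (fun i => ?_) j
    · show IsU O (1 : F)
      exact ⟨O.one_mem, by rw [inv_one]; exact O.one_mem, one_ne_zero⟩
    · exact hu i
  have hint : ∀ j, (∀ S, X j S ∈ O) ∧ (∀ S, Y j S ∈ O) := by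
    intro j
    apply integral_AnisoRes hϖ μ (X j) (Y j) hres h hh
    have := hbf j j
    rw [bf_self, bf_self, bf_self, hv1] at this
    rw [← this]
    exact (hone j).1
  -- reduction
  set r : O →+* IsLocalRing.ResidueField O := IsLocalRing.residue O with hr
  set μ' : Finset (Fin n) → O := fun S => ⟨μ S, hμO S⟩ with hμ'
  set X' : Fin (s + 1) → Finset (Fin n) → O := fun j S => ⟨X j S, (hint j).1 S⟩ with hX'
  set Y' : Fin (s + 1) → Finset (Fin n) → O := fun j S => ⟨Y j S, (hint j).2 S⟩ with hY'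
  set ϖ' : O := ⟨ϖ, hϖ.1⟩ with hϖ'
  set h' : O := ⟨h, hh.1⟩ with hh'
  set u' : Fin (s + 1) → O := fun j => ⟨(one u) j, (hone j).1⟩ with hu'
  have hcoe : ∀ (p q : Finset (Fin n) → O), ((bf μ' p q : O) : F) =
      bf μ (fun S => (p S : F)) (fun S => (q S : F)) := by
    intro p q
    have := bf_im (O.subtype) μ' p q
    exact this.symm
  have hrϖ : r ϖ' = 0 := by
    by_contra hcon
    obtain ⟨w, hw⟩ := isUnit_iff_exists_inv.mp
      ((IsLocalRing.residue_ne_zero_iff_isUnit ϖ').mp hcon)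
    have hw' : ϖ * (w : F) = 1 := congrArg (fun z : O => (z : F)) hw
    apply hϖ.2.2.1
    rw [inv_eq_of_mul_eq_one_right hw']
    exact w.2
  have hO : ∀ i j, bf μ' (X' i) (X' j) - ϖ' * h' * bf μ' (Y' i) (Y' j) =
      if i = j then u' i else 0 := by
    intro i j
    apply Subtype.ext
    have e1 : ((bf μ' (X' i) (X' j) - ϖ' * h' * bf μ' (Y' i) (Y' j) : O) : F) =
        bf (pf x) (v i) (v j) := by
      rw [hbf]
      push_cast
      rw [hcoe, hcoe]
    rw [e1]
    by_cases hij : i = j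
    · subst hij
      rw [if_pos rfl, bf_self, hv1]
    · rw [if_neg hij, hv0 i j hij]
      rfl
  have hO' : ∀ i j, bf (im r μ') (im r (X' i)) (im r (X' j)) = if i = j then r (u' i) else 0 := by
    intro i j
    rw [bf_im]
    have := congrArg r (hO i j)
    rw [map_sub, map_mul, map_mul, hrϖ, zero_mul, zero_mul, sub_zero] at this
    rw [this]
    split_ifs
    · rfl
    · exact map_zero r
  have hcard : ¬ LinearIndependent (IsLocalRing.ResidueField O) (fun j => im r (X' j)) := by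
    intro hli
    have := hli.fintype_card_le_finrank
    rw [Module.finrank_fintype_fun_eq_card, Fintype.card_fin, Fintype.card_finset,
      Fintype.card_fin, ← hs] at this
    omega
  rw [Fintype.not_linearIndependent_iff] at hcard
  obtain ⟨c, hc0, i, hi⟩ := hcard
  have h1 := bf_orth_right (a := im r μ') (b := fun j => r (u' j)) (v := fun j => im r (X' j))
    (fun i j hij => by rw [hO', if_neg hij]) (fun j => by rw [← bf_self, hO', if_pos rfl]) c i
  rw [hc0, bf_zero_left] at h1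
  rcases mul_eq_zero.mp h1.symm with h2 | h2
  · exact hi h2
  · exact res_ne_AnisoRes (u' i) (hone i) h2

end Pool.Agent.Helper44.RED
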