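import Pool.Agent.Helper44.RED.StA

/-!
# Project RED: module Cancel (Witt cancellation)
-/

set_option autoImplicit false

namespace Pool.Agent.Helper44.RED

/-- transitivity, no condition on the third index set -/
private lemma trans_Cancel {R ι κ μ : Type} [CommRing R] [Fintype ι] [Fintype κ] {a : ι → R}
    {b : κ → R} {c : μ → R} (h : Emb c b) (h' : Emb b a) : Emb c a := by
  obtain ⟨u, hu0, hu1⟩ := h
  obtain ⟨v, hv0, hv1⟩ := h'
  refine ⟨fun i => ∑ j, u i j • v j, fun i j hij => ?_, fun j => ?_⟩
  · rw [bf_orth hv0 hv1, hu0 i j hij]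
  · rw [qf_orth hv0 hv1, hu1]

private lemma restrict_Cancel {R ι κ κ' : Type} [CommRing R] [Fintype ι] {a : ι → R} {b : κ → R}
    (h : Emb b a) (e : κ' → κ) (he : Function.Injective e) : Emb (fun j => b (e j)) a := by
  obtain ⟨v, h0, h1⟩ := h
  exact ⟨fun j => v (e j), fun i j hij => h0 _ _ (fun h => hij (he h)), fun j => h1 _⟩

/-- cancellation of one vector -/
private lemma one_Cancel (hRefl : StRefl) {K κ κ' : Type} [Field K] [Fintype κ] (h2 : (2 : K) ≠ 0)
    (c : K) (hc : c ≠ 0) (ρ : κ → K) (β : κ' → K)
    (h : Emb (Sum.elim (fun _ : Unit => c) β) (Sum.elim (fun _ : Unit => c) ρ)) : Emb β ρ := by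
  classical
  obtain ⟨v, hv0, hv1⟩ := h
  have hy : qf (Sum.elim (fun _ : Unit => c) ρ) (Pi.single (Sum.inl ()) 1) = c := by
    rw [qf_single]
    simp
  have hx : qf (Sum.elim (fun _ : Unit => c) ρ) (v (Sum.inl ())) = c := by
    rw [hv1]
    rfl
  obtain ⟨T, hT, hTx⟩ := hRefl K (Unit ⊕ κ) h2 (Sum.elim (fun _ : Unit => c) ρ)
    (v (Sum.inl ())) (Pi.single (Sum.inl ()) 1) (by rw [hx, hy]) (by rw [hx]; exact hc)
  have hT0 : ∀ j : κ', T (v (Sum.inr j)) (Sum.inl ()) = 0 := by
    intro j
    have h1 : bf (Sum.elim (fun _ : Unit => c) ρ) (T (v (Sum.inr j))) (T (v (Sum.inl ()))) = 0 := by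
      rw [hT]
      exact hv0 _ _ (by simp)
    rw [hTx, bf_single_right] at h1
    rcases mul_eq_zero.1 h1 with h3 | h3
    · exact absurd h3 hc
    · simpa using h3
  have hbf : ∀ i j : κ', bf ρ (T (v (Sum.inr i)) ∘ Sum.inr) (T (v (Sum.inr j)) ∘ Sum.inr) =
      bf (Sum.elim (fun _ : Unit => c) ρ) (v (Sum.inr i)) (v (Sum.inr j)) := by
    intro i j
    rw [← hT, bf_sumElim]
    have h4 : bf (fun _ : Unit => c) (T (v (Sum.inr i)) ∘ Sum.inl)
        (T (v (Sum.inr j)) ∘ Sum.inl) = 0 := by
      unfold bf
      simp [hT0]
    rw [h4, zero_add]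
  refine ⟨fun j => T (v (Sum.inr j)) ∘ Sum.inr, fun i j hij => ?_, fun j => ?_⟩
  · rw [hbf]
    exact hv0 _ _ (fun h => hij (Sum.inr_injective h))
  · rw [← bf_self, hbf, bf_self, hv1]
    rfl

theorem pCancel : StRefl → StCancel := by
  intro hRefl K ι κ κ' _ _ _ h2 q ρ β hq h
  have key : ∀ (ι : Type) [Fintype ι] (q : ι → K) (β : κ' → K), (∀ i, q i ≠ 0) →
      Emb (Sum.elim q β) (Sum.elim q ρ) → Emb β ρ := by
    intro ι hι
    refine Fintype.induction_empty_option (P := fun (ι : Type) [Fintype ι] =>
      ∀ (q : ι → K) (β : κ' → K), (∀ i, q i ≠ 0) →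
        Emb (Sum.elim q β) (Sum.elim q ρ) → Emb β ρ) ?_ ?_ ?_ ι
    · intro α γ _ e ih q β hq h
      let _ : Fintype α := Fintype.ofEquiv γ e.symm
      refine ih (fun i => q (e i)) β (fun i => hq _) ?_
      have h1 : @Emb K (α ⊕ κ) (γ ⊕ κ) _ _ (Sum.elim q ρ) (Sum.elim (fun i => q (e i)) ρ) := by
        have h3 := Emb.comp_inj (Sum.elim (fun i => q (e i)) ρ) (Sum.map e.symm (id : κ → κ))
          (Function.Injective.sumMap e.symm.injective Function.injective_id)
        have h4 : (fun j => Sum.elim (fun i => q (e i)) ρ (Sum.map e.symm (id : κ → κ) j)) =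
            Sum.elim q ρ := by
          funext j
          rcases j with j | j <;> simp
        rw [h4] at h3
        exact h3
      have h5 := restrict_Cancel (trans_Cancel h h1) (Sum.map e (id : κ' → κ'))
        (Function.Injective.sumMap e.injective Function.injective_id)
      have h6 : (fun j => Sum.elim q β (Sum.map e (id : κ' → κ') j)) =
          Sum.elim (fun i => q (e i)) β := by
        funext j
        rcases j with j | j <;> simp
      rw [h6] at h5
      exact h5
    · intro q β hq h
      have h1 : Emb (Sum.elim q ρ) ρ := by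
        have h3 := Emb.comp_inj ρ (Sum.elim PEmpty.elim (id : κ → κ)) (by
          rintro (i | i) (j | j) hij
          · exact i.elim
          · exact i.elim
          · exact j.elim
          · exact congrArg Sum.inr hij)
        have h4 : (fun j => ρ (Sum.elim PEmpty.elim (id : κ → κ) j)) = Sum.elim q ρ := by
          funext j
          rcases j with j | j
          · exact j.elim
          · rfl
        rw [h4] at h3
        exact h3
      exact restrict_Cancel (trans_Cancel h h1) Sum.inr Sum.inr_injective
    · intro α _ ih q β hq h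
      apply ih (fun i => q (some i)) β (fun i => hq _)
      apply one_Cancel hRefl h2 (q none) (hq none)
      have h1 : Emb (Sum.elim q ρ)
          (Sum.elim (fun _ : Unit => q none) (Sum.elim (fun i : α => q (some i)) ρ)) := by
        obtain ⟨e, he⟩ : ∃ e : Option α ⊕ κ → Unit ⊕ (α ⊕ κ), e = fun j => match j with
          | Sum.inl none => Sum.inl ()
          | Sum.inl (some i) => Sum.inr (Sum.inl i)
          | Sum.inr i => Sum.inr (Sum.inr i) := ⟨_, rfl⟩
        have h3 := Emb.comp_inj
          (Sum.elim (fun _ : Unit => q none) (Sum.elim (fun i : α => q (some i)) ρ)) e (by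
            rw [he]
            rintro ((_ | i) | i) ((_ | j) | j) hij
            · rfl
            · simp at hij
            · simp at hij
            · simp at hij
            · simp at hij
              rw [hij]
            · simp at hij
            · simp at hij
            · simp at hij
            · simp at hij
              rw [hij])
        have h4 : (fun j => Sum.elim (fun _ : Unit => q none)
            (Sum.elim (fun i : α => q (some i)) ρ) (e j)) = Sum.elim q ρ := by
          funext j
          rw [he]
          rcases j with (_ | j) | j <;> rfl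
        rw [h4] at h3
        exact h3
      obtain ⟨e, he⟩ : ∃ e : Unit ⊕ (α ⊕ κ') → Option α ⊕ κ', e = fun j => match j with
        | Sum.inl _ => Sum.inl none
        | Sum.inr (Sum.inl i) => Sum.inl (some i)
        | Sum.inr (Sum.inr i) => Sum.inr i := ⟨_, rfl⟩
      have h5 := restrict_Cancel (trans_Cancel h h1) e (by
        rw [he]
        rintro (i | i | i) (j | j | j) hij
        · rfl
        · simp at hij
        · simp at hij
        · simp at hij
        · simp at hij
          rw [hij]
        · simp at hij
        · simp at hij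
        · simp at hij
        · simp at hij
          rw [hij])
      have h6 : (fun j => Sum.elim q β (e j)) =
          Sum.elim (fun _ : Unit => q none) (Sum.elim (fun i : α => q (some i)) β) := by
        funext j
        rw [he]
        rcases j with j | j | j <;> rfl
      rw [h6] at h5
      exact h5
  exact key ι q β hq h

end Pool.Agent.Helper44.RED
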