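import Pool.Agent.Helper44.RED.StA

/-!
# RED module Compl: orthogonal complements
-/

set_option autoImplicit false

namespace Pool.Agent.Helper44.RED

private lemma li_Compl {K ι κ : Type} [Field K] [Fintype ι] [Fintype κ] {a : ι → K} {b : κ → K}
    (hb : ∀ j, b j ≠ 0) (h : Emb b a) : Fintype.card κ ≤ Fintype.card ι := by
  obtain ⟨v, h0, h1⟩ := h
  have hli : LinearIndependent K v := by
    rw [Fintype.linearIndependent_iff]
    intro g hg i
    have h2 := bf_orth_right h0 h1 g i
    rw [hg, bf_zero_left] at h2
    rcases mul_eq_zero.1 h2.symm with h3 | h3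
    · exact h3
    · exact absurd h3 (hb i)
  have h3 := hli.fintype_card_le_finrank
  rwa [Module.finrank_fintype_fun_eq_card] at h3

/-- one more orthogonal vector -/
private lemma ext_Compl {K ι κ : Type} [Field K] [Fintype ι] [Fintype κ] (h2 : (2 : K) ≠ 0)
    {a : ι → K} (ha : ∀ i, a i ≠ 0) {b : κ → K} (hb : ∀ j, b j ≠ 0) (h : Emb b a)
    (hc : Fintype.card κ < Fintype.card ι) :
    ∃ e : K, e ≠ 0 ∧ Emb (Sum.elim b (fun _ : Unit => e)) a := by
  classical
  obtain ⟨v, h0, h1⟩ := h
  have hex : ∃ w : ι → K, (∀ j, bf a w (v j) = 0) ∧ qf a w ≠ 0 := by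
    by_contra hne
    push Not at hne
    -- all vectors orthogonal to the `v j` vanish
    have hz : ∀ w : ι → K, (∀ j, bf a w (v j) = 0) → w = 0 := by
      intro w hw
      funext i
      set P : ι → K := Pi.single i 1 - ∑ j, (bf a (Pi.single i 1) (v j) / b j) • v j with hP
      have hPo : ∀ j, bf a P (v j) = 0 := by
        intro j
        rw [hP, bf_sub_left, bf_orth_right h0 h1, div_mul_cancel₀ _ (hb j), sub_self]
      have h3 : qf a (w + P) = 0 := hne _ (fun j => by rw [bf_add_left, hw, hPo, add_zero])
      rw [qf_add, hne w hw, hne P hPo, zero_add, add_zero] at h3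
      have h4 : bf a w P = 0 := by
        rcases mul_eq_zero.1 h3 with h5 | h5
        · exact absurd h5 h2
        · exact h5
      rw [hP, bf_sub_right, bf_sum_right, bf_single_right] at h4
      have h5 : ∑ j, (bf a (Pi.single i 1) (v j) / b j) * bf a w (v j) = 0 :=
        Finset.sum_eq_zero fun j _ => by rw [hw, mul_zero]
      rw [h5, sub_zero, mul_one] at h4
      rcases mul_eq_zero.1 h4 with h6 | h6
      · exact absurd h6 (ha i)
      · exact h6
    have hsp : Submodule.span K (Set.range v) = ⊤ := by
      rw [eq_top_iff]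
      intro x _
      have h3 : x - ∑ j, (bf a x (v j) / b j) • v j = 0 := by
        apply hz
        intro j
        rw [bf_sub_left, bf_orth_right h0 h1, div_mul_cancel₀ _ (hb j), sub_self]
      rw [sub_eq_zero.1 h3]
      exact Submodule.sum_mem _ fun j _ =>
        Submodule.smul_mem _ _ (Submodule.subset_span ⟨j, rfl⟩)
    have h3 : Module.finrank K (Submodule.span K (Set.range v)) ≤ Fintype.card κ :=
      finrank_range_le_card v
    rw [hsp, finrank_top, Module.finrank_fintype_fun_eq_card] at h3
    omega
  obtain ⟨w, hw, hq⟩ := hex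
  refine ⟨qf a w, hq, Sum.elim v (fun _ => w), ?_, ?_⟩
  · rintro (i | i) (j | j) hij
    · exact h0 i j (fun h => hij (by rw [h]))
    · show bf a (v i) w = 0
      rw [bf_comm]
      exact hw i
    · exact hw j
    · exact absurd rfl hij
  · rintro (j | j)
    · exact h1 j
    · rfl

private lemma main_Compl {K ι : Type} [Field K] [Fintype ι] (h2 : (2 : K) ≠ 0)
    {a : ι → K} (ha : ∀ i, a i ≠ 0) (d : ℕ) : ∀ (κ : Type) [Fintype κ] (b : κ → K),
    (∀ j, b j ≠ 0) → Emb b a → Fintype.card κ + d = Fintype.card ι →
    ∃ c : Fin d → K, (∀ j, c j ≠ 0) ∧ Emb (Sum.elim b c) a := by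
  induction d with
  | zero =>
    intro κ _ b hb h _
    refine ⟨Fin.elim0, fun j => j.elim0, ?_⟩
    obtain ⟨v, h0, h1⟩ := h
    refine ⟨Sum.elim v (fun j => j.elim0), ?_, ?_⟩
    · rintro (i | i) (j | j) hij
      · exact h0 i j (fun h => hij (by rw [h]))
      · exact j.elim0
      · exact i.elim0
      · exact i.elim0
    · rintro (j | j)
      · exact h1 j
      · exact j.elim0
  | succ d ih =>
    intro κ _ b hb h hcard
    obtain ⟨e, he, hE⟩ := ext_Compl h2 ha hb h (by omega)
    obtain ⟨c, hc, hE2⟩ := ih (κ ⊕ Unit) (Sum.elim b (fun _ => e))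
      (by rintro (j | j); exacts [hb j, he]) hE
      (by rw [Fintype.card_sum, Fintype.card_unit]; omega)
    refine ⟨Fin.cons e c, ?_, ?_⟩
    · intro j
      refine Fin.cases ?_ (fun i => ?_) j
      · rw [Fin.cons_zero]; exact he
      · rw [Fin.cons_succ]; exact hc i
    · obtain ⟨v, h0, h1⟩ := hE2
      refine ⟨Sum.elim (fun j => v (Sum.inl (Sum.inl j)))
        (Fin.cons (v (Sum.inl (Sum.inr ()))) (fun i => v (Sum.inr i))), ?_, ?_⟩
      · rintro (i | i) (j | j) hij
        · exact h0 _ _ (fun h => hij (by
            have := Sum.inl.inj (Sum.inl.inj h)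
            rw [this]))
        · rw [Sum.elim_inl, Sum.elim_inr]
          refine Fin.cases ?_ (fun j' => ?_) j
          · rw [Fin.cons_zero]; exact h0 _ _ (by simp)
          · rw [Fin.cons_succ]; exact h0 _ _ (by simp)
        · rw [Sum.elim_inl, Sum.elim_inr]
          refine Fin.cases ?_ (fun i' => ?_) i
          · rw [Fin.cons_zero]; exact h0 _ _ (by simp)
          · rw [Fin.cons_succ]; exact h0 _ _ (by simp)
        · rw [Sum.elim_inr, Sum.elim_inr]
          revert hij
          refine Fin.cases ?_ (fun i' => ?_) i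
          · refine Fin.cases ?_ (fun j' => ?_) j
            · intro hij; exact absurd rfl hij
            · intro _
              rw [Fin.cons_zero, Fin.cons_succ]; exact h0 _ _ (by simp)
          · refine Fin.cases ?_ (fun j' => ?_) j
            · intro _
              rw [Fin.cons_zero, Fin.cons_succ]; exact h0 _ _ (by simp)
            · intro hij
              rw [Fin.cons_succ, Fin.cons_succ]
              exact h0 _ _ (fun h => hij (by rw [Sum.inr.inj h]))
      · rintro (j | j)
        · exact h1 _
        · rw [Sum.elim_inr, Sum.elim_inr]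
          refine Fin.cases ?_ (fun i => ?_) j
          · rw [Fin.cons_zero, Fin.cons_zero]; exact h1 _
          · rw [Fin.cons_succ, Fin.cons_succ]; exact h1 _

theorem pCompl : StCompl := by
  intro K ι _ _ h2 a ha m b hb h
  have h3 := li_Compl hb h
  rw [Fintype.card_fin] at h3
  exact ⟨h3, main_Compl h2 ha _ (Fin m) b hb h (by rw [Fintype.card_fin]; omega)⟩

end Pool.Agent.Helper44.RED
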