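import Pool.Agent.Helper44.RED.StA
import Pool.Agent.Helper44.RED.Fld

/-! # Project RED: existence of the function field of the cone -/

set_option autoImplicit false

namespace Pool.Agent.Helper44.RED

/-- the subfield generated by a homomorphism and a set, as a field of its own -/
lemma gen_ConeEx {E Ω : Type} [Field E] [Field Ω] (f : E →+* Ω) (ι : Type) (y0 : ι → Ω) (w0 : Ω) :
    ∃ (S : Subfield Ω) (φ : E →+* S) (y : ι → S) (w : S), S.subtype.comp φ = f ∧
      (∀ i, (y i : Ω) = y0 i) ∧ (w : Ω) = w0 ∧ GenBy φ (Set.range y ∪ {w}) := by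
  set T0 : Set Ω := Set.range f ∪ (Set.range y0 ∪ {w0}) with hT0
  set S : Subfield Ω := Subfield.closure T0 with hS
  have hf : ∀ a, f a ∈ S := fun a => Subfield.subset_closure (Or.inl ⟨a, rfl⟩)
  have hy : ∀ i, y0 i ∈ S := fun i => Subfield.subset_closure (Or.inr (Or.inl ⟨i, rfl⟩))
  have hw : w0 ∈ S := Subfield.subset_closure (Or.inr (Or.inr rfl))
  refine ⟨S, f.codRestrict S hf, fun i => ⟨y0 i, hy i⟩, ⟨w0, hw⟩, ?_, fun i => rfl, rfl, ?_⟩
  · ext a; rfl
  · unfold GenBy
    rw [eq_top_iff]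
    intro z _
    have hz : (z : Ω) ∈ S := z.2
    have himg : S.subtype '' (Set.range (f.codRestrict S hf) ∪
        (Set.range (fun i => (⟨y0 i, hy i⟩ : S)) ∪ {(⟨w0, hw⟩ : S)})) = T0 := by
      rw [Set.image_union, Set.image_union, ← Set.range_comp, ← Set.range_comp, Set.image_singleton]
      rfl
    have hmap := RingHom.map_field_closure S.subtype (Set.range (f.codRestrict S hf) ∪
        (Set.range (fun i => (⟨y0 i, hy i⟩ : S)) ∪ {(⟨w0, hw⟩ : S)}))
    rw [himg, ← hS] at hmap
    have hz2 : (z : Ω) ∈ Subfield.map S.subtype (Subfield.closure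
        (Set.range (f.codRestrict S hf) ∪
        (Set.range (fun i => (⟨y0 i, hy i⟩ : S)) ∪ {(⟨w0, hw⟩ : S)}))) := by
      rw [hmap]; exact hz
    obtain ⟨z', hz', he⟩ := hz2
    have : z' = z := Subtype.ext he
    rw [← this]
    exact hz'

theorem pConeEx : StConeEx := by
  intro E ι _ _ q a
  set K := FractionRing (MvPolynomial ι E)
  set Ω := AlgebraicClosure K
  set f : E →+* Ω := (algebraMap K Ω).comp (algebraMap E K) with hf
  set y0 : ι → Ω := fun i => algebraMap K Ω (algebraMap (MvPolynomial ι E) K (MvPolynomial.X i))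
    with hy0
  have hind : Indep f y0 := (indep_frac (E := E) (ι := ι)).map (algebraMap K Ω)
    (algebraMap K Ω).injective
  obtain ⟨w0, hw0⟩ := IsAlgClosed.exists_pow_nat_eq (f a * qf (im f q) y0) (n := 2) (by norm_num)
  obtain ⟨S, φ, y, w, h1, h2, h3, h4⟩ := gen_ConeEx f ι y0 w0
  refine ⟨S, inferInstance, φ, y, w, ⟨?_, h4, ?_⟩⟩
  · refine Indep.of_map S.subtype ?_
    rw [h1]
    have : (fun i => S.subtype (y i)) = y0 := funext h2
    rw [this]
    exact hind
  · apply Subtype.ext
    have hh : ∀ b : E, ((φ b : S) : Ω) = f b := fun b => by rw [← h1]; rfl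
    rw [SubmonoidClass.coe_pow, h3, hw0]
    unfold qf im
    push_cast
    rw [hh]
    simp only [hh, h2]

end Pool.Agent.Helper44.RED
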