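import Pool.Agent.Helper44.RED.StA
import Pool.Agent.Helper44.RED.Fld

/-!
# Project RED: module ConeMap (functoriality of the cone)
-/

set_option autoImplicit false

namespace Pool.Agent.Helper44.RED

/-- generators of a subfield, seen inside it -/
private lemma closure_self_ConeMap {Ω : Type} [Field Ω] (S : Set Ω)
    (S' : Set (Subfield.closure S)) (h : S ⊆ (Subfield.closure S).subtype '' S') :
    Subfield.closure S' = ⊤ := by
  rw [eq_top_iff]
  intro z _
  have h1 : (z : Ω) ∈ (Subfield.closure S').map (Subfield.closure S).subtype := by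
    rw [RingHom.map_field_closure]
    exact Subfield.closure_mono h z.2
  obtain ⟨x, hx, hxz⟩ := h1
  have : x = z := Subtype.ext hxz
  rw [← this]
  exact hx

theorem pConeMap : StConeMap := by
  intro E F E' ι _ _ _ _ φ q a y w ψ hC
  -- the rational function fields
  obtain ⟨j, hj1, hj2, -⟩ := hC.indep.lift
  have hind' : Indep (algebraMap E' (FractionRing (MvPolynomial ι E')))
      (fun i : ι => algebraMap (MvPolynomial ι E') (FractionRing (MvPolynomial ι E'))
        (MvPolynomial.X i)) := indep_frac
  have hind2 : Indep ((algebraMap E' (FractionRing (MvPolynomial ι E'))).comp ψ)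
      (fun i : ι => algebraMap (MvPolynomial ι E') (FractionRing (MvPolynomial ι E'))
        (MvPolynomial.X i)) := by
    have h1 : ∀ r : MvPolynomial ι E,
        MvPolynomial.eval₂Hom ((algebraMap E' (FractionRing (MvPolynomial ι E'))).comp ψ)
          (fun i : ι => algebraMap (MvPolynomial ι E') (FractionRing (MvPolynomial ι E'))
            (MvPolynomial.X i)) r
        = MvPolynomial.eval₂Hom (algebraMap E' (FractionRing (MvPolynomial ι E')))
          (fun i : ι => algebraMap (MvPolynomial ι E') (FractionRing (MvPolynomial ι E'))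
            (MvPolynomial.X i)) (MvPolynomial.map ψ r) := by
      intro r
      simp only [MvPolynomial.coe_eval₂Hom]
      rw [MvPolynomial.eval₂_map]
    intro p p' hp
    rw [h1, h1] at hp
    exact MvPolynomial.map_injective ψ ψ.injective (hind' hp)
  obtain ⟨hh, hh1, hh2, -⟩ := hind2.lift
  obtain ⟨ω, hω⟩ : ∃ ω : FractionRing (MvPolynomial ι E') →+*
      AlgebraicClosure (FractionRing (MvPolynomial ι E')), ω = algebraMap _ _ := ⟨_, rfl⟩
  -- `F` is algebraic over the rational function field
  letI algF : Algebra (FractionRing (MvPolynomial ι E)) F := j.toAlgebra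
  letI algΩ : Algebra (FractionRing (MvPolynomial ι E))
    (AlgebraicClosure (FractionRing (MvPolynomial ι E'))) := (ω.comp hh).toAlgebra
  have hjalg : ∀ k, algebraMap (FractionRing (MvPolynomial ι E)) F k = j k := fun _ => rfl
  have hωalg : ∀ k, algebraMap (FractionRing (MvPolynomial ι E))
      (AlgebraicClosure (FractionRing (MvPolynomial ι E'))) k = ω (hh k) := fun _ => rfl
  haveI halg : Algebra.IsAlgebraic (FractionRing (MvPolynomial ι E)) F := by
    constructor
    intro z
    have hz : z ∈ Subfield.closure (Set.range φ ∪ (Set.range y ∪ {w})) := by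
      have h1 : Subfield.closure (Set.range φ ∪ (Set.range y ∪ {w})) = ⊤ := hC.gen
      rw [h1]
      trivial
    have hle : Subfield.closure (Set.range φ ∪ (Set.range y ∪ {w})) ≤
        (algebraicClosure (FractionRing (MvPolynomial ι E)) F).toSubfield := by
      rw [Subfield.closure_le]
      rintro x (⟨c, rfl⟩ | ⟨i, rfl⟩ | hx)
      · rw [← hj1 c]
        exact mem_algebraicClosure_iff.2 (isAlgebraic_algebraMap _)
      · rw [← hj2 i]
        exact mem_algebraicClosure_iff.2 (isAlgebraic_algebraMap _)
      · rw [Set.mem_singleton_iff] at hx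
        subst hx
        have h2 : IsAlgebraic (FractionRing (MvPolynomial ι E)) (x ^ 2) := by
          rw [hC.eq]
          refine IsAlgebraic.mul ?_ ?_
          · rw [← hj1 a]
            exact isAlgebraic_algebraMap _
          · unfold qf im
            refine (mem_algebraicClosure_iff (F := FractionRing (MvPolynomial ι E))
              (E := F)).1 (sum_mem fun i _ => ?_)
            refine mem_algebraicClosure_iff.2 (IsAlgebraic.mul ?_ (IsAlgebraic.pow ?_ 2))
            · rw [← hj1]
              exact isAlgebraic_algebraMap _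
            · rw [← hj2]
              exact isAlgebraic_algebraMap _
        exact mem_algebraicClosure_iff.2 (IsAlgebraic.of_pow (by norm_num) h2)
    exact mem_algebraicClosure_iff.1 (hle hz)
  obtain ⟨g, hg⟩ : ∃ g : F →+* AlgebraicClosure (FractionRing (MvPolynomial ι E')),
      ∀ k, g (j k) = ω (hh k) := by
    refine ⟨(IsAlgClosed.lift (R := FractionRing (MvPolynomial ι E)) (S := F)
      (M := AlgebraicClosure (FractionRing (MvPolynomial ι E'))) :
        F →ₐ[FractionRing (MvPolynomial ι E)]
          AlgebraicClosure (FractionRing (MvPolynomial ι E'))).toRingHom, fun k => ?_⟩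
    exact AlgHom.commutes _ k
  have hgφ : ∀ c, g (φ c) = ω (algebraMap E' _ (ψ c)) := by
    intro c
    rw [← hj1 c, hg, hh1]
    rfl
  have hgy : ∀ i, g (y i) = ω (algebraMap (MvPolynomial ι E') _ (MvPolynomial.X i)) := by
    intro i
    rw [← hj2 i, hg, hh2]
  -- the generated subfield
  obtain ⟨e, he⟩ : ∃ e : E' →+* AlgebraicClosure (FractionRing (MvPolynomial ι E')),
      e = ω.comp (algebraMap E' _) := ⟨_, rfl⟩
  obtain ⟨S, hS⟩ : ∃ S : Set (AlgebraicClosure (FractionRing (MvPolynomial ι E'))),
      S = Set.range e ∪ (Set.range (fun i => g (y i)) ∪ {g w}) := ⟨_, rfl⟩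
  have heS : ∀ c, e c ∈ Subfield.closure S := fun c =>
    Subfield.subset_closure (by rw [hS]; exact Or.inl ⟨c, rfl⟩)
  have hyS : ∀ i, g (y i) ∈ Subfield.closure S := fun i =>
    Subfield.subset_closure (by rw [hS]; exact Or.inr (Or.inl ⟨i, rfl⟩))
  have hwS : g w ∈ Subfield.closure S :=
    Subfield.subset_closure (by rw [hS]; exact Or.inr (Or.inr rfl))
  have hge : ∀ c, g (φ c) = e (ψ c) := by
    intro c
    rw [hgφ, he]
    rfl
  have hgS : ∀ z, g z ∈ Subfield.closure S := by
    intro z
    have hz : z ∈ Subfield.closure (Set.range φ ∪ (Set.range y ∪ {w})) := by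
      have h1 : Subfield.closure (Set.range φ ∪ (Set.range y ∪ {w})) = ⊤ := hC.gen
      rw [h1]
      trivial
    have hle : Subfield.closure (Set.range φ ∪ (Set.range y ∪ {w})) ≤
        (Subfield.closure S).comap g := by
      rw [Subfield.closure_le]
      rintro x (⟨c, rfl⟩ | ⟨i, rfl⟩ | hx)
      · show g (φ c) ∈ Subfield.closure S
        rw [hge]
        exact heS _
      · exact hyS i
      · rw [Set.mem_singleton_iff] at hx
        subst hx
        exact hwS
    exact hle hz
  refine ⟨Subfield.closure S, inferInstance, e.codRestrict _ heS, g.codRestrict _ hgS,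
    fun i => ⟨g (y i), hyS i⟩, ⟨g w, hwS⟩, ⟨?_, ?_, ?_⟩, ?_⟩
  · -- independence
    apply Indep.of_map (Subfield.closure S).subtype
    have h1 := hind'.map ω ω.injective
    have e1 : (Subfield.closure S).subtype.comp (e.codRestrict _ heS)
        = ω.comp (algebraMap E' (FractionRing (MvPolynomial ι E'))) := by
      ext c
      rw [← he]
      rfl
    have e2 : (fun i => (Subfield.closure S).subtype (⟨g (y i), hyS i⟩ : Subfield.closure S))
        = fun i => ω (algebraMap (MvPolynomial ι E') (FractionRing (MvPolynomial ι E'))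
          (MvPolynomial.X i)) := by
      funext i
      exact hgy i
    rw [e1, e2]
    exact h1
  · -- generators
    unfold GenBy
    apply closure_self_ConeMap
    intro x hx
    rw [hS] at hx
    rcases hx with ⟨c, rfl⟩ | ⟨i, rfl⟩ | hx
    · exact ⟨⟨e c, heS c⟩, Or.inl ⟨c, rfl⟩, rfl⟩
    · exact ⟨⟨g (y i), hyS i⟩, Or.inr (Or.inl ⟨i, rfl⟩), rfl⟩
    · rw [Set.mem_singleton_iff] at hx
      subst hx
      exact ⟨⟨g w, hwS⟩, Or.inr (Or.inr rfl), rfl⟩
  · -- the equation
    apply (Subfield.closure S).subtype.injective
    rw [map_pow, map_mul, ← qf_im]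
    show g w ^ 2 = e (ψ a) * qf (im (Subfield.closure S).subtype
      (im (e.codRestrict _ heS) (im ψ q))) (fun i => g (y i))
    rw [← map_pow, hC.eq, map_mul, ← qf_im, hge]
    congr 2
    funext i
    show g (φ (q i)) = e (ψ (q i))
    exact hge _
  · ext c
    show g (φ c) = e (ψ c)
    exact hge c

end Pool.Agent.Helper44.RED
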