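import Pool.Agent.Helper44.RED.StA
import Pool.Agent.Helper44.RED.Fld

/-!
# Project RED: module ConePf (Pfister forms that become isotropic over a cone)
-/

set_option autoImplicit false

namespace Pool.Agent.Helper44.RED

/-- `F = L + L w` if `w² ∈ L` -/
lemma quad_ConePf {F : Type} [Field F] (L : Subfield F) (w : F) (δ : L) (hδ : (δ : F) = w ^ 2)
    (hwL : w ∉ L) (hS : Subfield.closure ((L : Set F) ∪ {w}) = ⊤) (z : F) :
    ∃ a b : L, z = a + b * w := by
  have hz : z ∈ Subfield.closure ((L : Set F) ∪ {w}) := by rw [hS]; trivial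
  induction hz using Subfield.closure_induction with
  | mem z hz =>
    rcases hz with hz | hz
    · exact ⟨⟨z, hz⟩, 0, by simp⟩
    · rw [Set.mem_singleton_iff] at hz
      exact ⟨0, 1, by simp [hz]⟩
  | one => exact ⟨1, 0, by simp⟩
  | add z z' _ _ h1 h2 =>
    obtain ⟨a, b, rfl⟩ := h1
    obtain ⟨a', b', rfl⟩ := h2
    exact ⟨a + a', b + b', by push_cast; ring⟩
  | neg z _ h1 =>
    obtain ⟨a, b, rfl⟩ := h1
    exact ⟨-a, -b, by push_cast; ring⟩
  | inv z _ h1 =>
    obtain ⟨a, b, rfl⟩ := h1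
    by_cases h0 : (a : F) + b * w = 0
    · exact ⟨0, 0, by rw [h0]; simp⟩
    · have h1 : (a : F) - b * w ≠ 0 := by
        intro h
        by_cases hb : (b : F) = 0
        · rw [hb, zero_mul, sub_zero] at h
          exact h0 (by rw [h, hb]; ring)
        · apply hwL
          have : w = (a : F) / b := by
            field_simp
            linear_combination -h
          rw [this]
          exact L.div_mem a.2 b.2
      have h2 : (a : F) ^ 2 - b ^ 2 * δ ≠ 0 := by
        rw [hδ]
        have : (a : F) ^ 2 - b ^ 2 * w ^ 2 = (a + b * w) * (a - b * w) := by ring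
        rw [this]
        exact mul_ne_zero h0 h1
      refine ⟨a / (a ^ 2 - b ^ 2 * δ), - b / (a ^ 2 - b ^ 2 * δ), ?_⟩
      push_cast
      rw [inv_eq_of_mul_eq_one_right]
      field_simp
      rw [hδ]
      ring
  | mul z z' _ _ h1 h2 =>
    obtain ⟨a, b, rfl⟩ := h1
    obtain ⟨a', b', rfl⟩ := h2
    refine ⟨a * a' + b * b' * δ, a * b' + b * a', ?_⟩
    push_cast
    rw [hδ]
    ring

lemma uniq_ConePf {F : Type} [Field F] (L : Subfield F) (w : F) (hwL : w ∉ L) (a b : L)
    (h : (a : F) + b * w = 0) : a = 0 ∧ b = 0 := by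
  have hb : (b : F) = 0 := by
    by_contra hb
    apply hwL
    have : w = -(a : F) / b := by
      field_simp
      linear_combination h
    rw [this]
    exact L.div_mem (L.neg_mem a.2) b.2
  refine ⟨?_, Subtype.ext hb⟩
  rw [hb, zero_mul, add_zero] at h
  exact Subtype.ext h

theorem pConePf : StPT → StRound → StSub → StConePf := by
  intro hPT hRound hSub
  intro E F ι _ _ _ h2 n x hx hπ φ q a y w hq ha hcone hiso
  classical
  obtain ⟨hind, hgen, hw⟩ := hcone
  let L : Subfield F := Subfield.closure (Set.range φ ∪ Set.range y)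
  have hφ : ∀ c, φ c ∈ L := fun c => Subfield.subset_closure (Or.inl ⟨c, rfl⟩)
  have hy : ∀ i, y i ∈ L := fun i => Subfield.subset_closure (Or.inr ⟨i, rfl⟩)
  let ψ : E →+* L := φ.codRestrict L.toSubring hφ
  let y' : ι → L := fun i => ⟨y i, hy i⟩
  have hψ : ∀ c, (ψ c : F) = φ c := fun c => rfl
  have hind' : Indep ψ y' := Indep.of_map L.subtype hind
  have hgen' : GenBy ψ (Set.range y') := by
    unfold GenBy
    rw [eq_top_iff]
    rintro ⟨v, hv⟩ _
    have h1 : (Subfield.closure (Set.range ψ ∪ Set.range y')).map L.subtype = L := by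
      rw [RingHom.map_field_closure, Set.image_union, ← Set.range_comp, ← Set.range_comp]
      rfl
    have h2 : v ∈ (Subfield.closure (Set.range ψ ∪ Set.range y')).map L.subtype := by
      rw [h1]; exact hv
    obtain ⟨u, hu, huv⟩ := h2
    have : u = ⟨v, hv⟩ := Subtype.ext huv
    rw [← this]; exact hu
  have hpure : PureExt ψ := pureExt_of_fintype hind' hgen'
  have hπL : Aniso (im ψ (pf x)) := (hPT E L ψ hpure).aniso hπ
  -- `w ∉ L`
  have hgen2 : Subfield.closure ((L : Set F) ∪ {w}) = ⊤ := by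
    rw [eq_top_iff, ← show Subfield.closure (Set.range φ ∪ (Set.range y ∪ {w})) = ⊤ from hgen,
      Subfield.closure_le]
    rintro z (⟨c, rfl⟩ | ⟨i, rfl⟩ | hz)
    · exact Subfield.subset_closure (Or.inl (hφ c))
    · exact Subfield.subset_closure (Or.inl (hy i))
    · exact Subfield.subset_closure (Or.inr hz)
  have hwL : w ∉ L := by
    intro hwL
    have htop : ∀ z : F, z ∈ L := by
      intro z
      have hz : z ∈ Subfield.closure ((L : Set F) ∪ {w}) := by rw [hgen2]; trivial
      have hle : Subfield.closure ((L : Set F) ∪ {w}) ≤ L := by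
        rw [Subfield.closure_le]
        rintro z (hz | hz)
        · exact hz
        · rw [Set.mem_singleton_iff] at hz; rw [hz]; exact hwL
      exact hle hz
    apply hiso
    intro X hX
    have h := hπL (fun S => ⟨X S, htop _⟩) (by
      apply L.subtype_injective
      rw [← qf_im, map_zero, ← hX]
      rfl)
    funext S
    exact congrArg Subtype.val (congrFun h S)
  -- `w² = δ`
  let δ : L := ψ a * qf (im ψ q) y'
  have hδ : (δ : F) = w ^ 2 := by
    have h1 : L.subtype (qf (im ψ q) y') = qf (im φ q) y := by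
      rw [← qf_im]; rfl
    have h3 : (δ : F) = (ψ a : F) * L.subtype (qf (im ψ q) y') := rfl
    rw [h3, h1, hw]; rfl
  have h2L : (2 : L) ≠ 0 := by
    have := (map_ne_zero ψ).2 h2
    rwa [map_ofNat] at this
  -- the isotropic vector
  have hiso' : ∃ X : Finset (Fin n) → F, qf (im φ (pf x)) X = 0 ∧ X ≠ 0 := by
    unfold Aniso at hiso
    push Not at hiso
    exact hiso
  obtain ⟨X, hX0, hXne⟩ := hiso'
  choose x0 x1 hX using fun S => quad_ConePf L w δ hδ hwL hgen2 (X S)
  set A : Finset (Fin n) → L := im ψ (pf x) with hA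
  have hXv : X = im L.subtype x0 + w • im L.subtype x1 := by
    funext S
    rw [hX S]
    show _ = (x0 S : F) + w * (x1 S : F)
    ring
  have hcalc : ((qf A x0 + δ * qf A x1 : L) : F) + ((2 * bf A x0 x1 : L) : F) * w = 0 := by
    rw [← hX0]
    have hAφ : im φ (pf x) = im L.subtype A := rfl
    rw [hAφ, hXv, qf_add, qf_smul, bf_smul_right, qf_im, qf_im, bf_im]
    push_cast
    rw [hδ]
    have h22 : ((2 : L) : F) = 2 := map_ofNat L.subtype 2
    simp only [Subfield.coe_subtype, h22]
    ring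
  obtain ⟨hc1, hc2⟩ := uniq_ConePf L w hwL _ _ hcalc
  have hB : bf A x0 x1 = 0 := by
    rcases mul_eq_zero.1 hc2 with h | h
    · exact absurd h h2L
    · exact h
  have hx1 : x1 ≠ 0 := by
    intro h
    rw [h, qf_zero, mul_zero, add_zero] at hc1
    have h3 := hπL x0 hc1
    apply hXne
    rw [hXv, h3, h]
    funext S
    simp [im]
  set c : L := qf A x1 with hc
  have hc0 : c ≠ 0 := fun h => hx1 (hπL x1 h)
  have hP0 : qf A x0 = - (δ * c) := by linear_combination hc1
  -- round
  have hApf : pf (im ψ x) = A := pf_im ψ x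
  have hR : Emb (fun S => c * A S) A := by
    have := hRound L h2L n (im ψ x) (fun j => (map_ne_zero ψ).2 (hx j)) x1 (by
      rw [hApf]; exact hc0)
    rw [hApf] at this
    exact this
  -- over the rational functions
  let Λ : L →+* RatFunc L := algebraMap L (RatFunc L)
  obtain ⟨e, he0, he1⟩ := hR.im (φ := Λ)
  set t : RatFunc L := Λ (ψ a) * RatFunc.X with ht
  set v : Finset (Fin n) → RatFunc L := im Λ x0 + t • im Λ x1 with hv
  have hqv : qf (im Λ A) v = Λ c * (t ^ 2 - Λ δ) := by
    rw [hv, qf_add, qf_smul, bf_smul_right, qf_im, qf_im, bf_im, hB, hP0, map_zero, map_neg,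
      map_mul]
    ring
  have hcΛ : Λ c ≠ 0 := (map_ne_zero Λ).2 hc0
  have hqg : qf (im Λ A) ((Λ c)⁻¹ • ∑ S, v S • e S) = t ^ 2 - Λ δ := by
    have h3 : qf (im Λ (fun S => c * A S)) v = Λ c * qf (im Λ A) v := by
      unfold qf im
      rw [Finset.mul_sum]
      refine Finset.sum_congr rfl fun S _ => ?_
      rw [map_mul]; ring
    rw [qf_smul, qf_orth he0 he1, h3, hqv]
    field_simp
  -- SUB
  refine hSub E (RatFunc L) (Finset (Fin n)) (ι ⊕ Unit) h2 (Λ.comp ψ) (pf x)
    (Sum.elim (fun i => - a * q i) (fun _ : Unit => a ^ 2))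
    (Sum.elim (fun i => Λ (y' i)) (fun _ => RatFunc.X)) ((Λ c)⁻¹ • ∑ S, v S • e S) hπ ?_ ?_ ?_ ?_
  · rintro (i | i)
    · exact mul_ne_zero (neg_ne_zero.2 ha) (hq i)
    · exact pow_ne_zero 2 ha
  · exact hind'.comp indep_ratFunc
  · have h3 := hgen'.comp (genBy_ratFunc (E := L))
    rw [Set.Sum.elim_range, Set.range_const]
    rwa [← Set.range_comp] at h3
  · have h3 : im (Λ.comp ψ) (pf x) = im Λ A := rfl
    rw [h3, hqg]
    have h4 : im (Λ.comp ψ) (Sum.elim (fun i => - a * q i) (fun _ : Unit => a ^ 2))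
        = Sum.elim (fun i => - Λ (ψ a) * Λ (ψ (q i))) (fun _ : Unit => Λ (ψ a) ^ 2) := by
      funext i
      rcases i with i | i
      · simp [im]
      · simp [im]
    rw [h4, qf_sumElim]
    simp only [Sum.elim_comp_inl, Sum.elim_comp_inr]
    have h5 : qf (fun _ : Unit => Λ (ψ a) ^ 2) (fun _ : Unit => (RatFunc.X : RatFunc L)) = t ^ 2 := by
      unfold qf
      rw [ht]
      simp
      ring
    have h6 : qf (fun i => - Λ (ψ a) * Λ (ψ (q i))) (fun i => Λ (y' i)) = - Λ δ := by
      have h7 : Λ δ = Λ (ψ a) * qf (im Λ (im ψ q)) (im Λ y') := by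
        rw [qf_im, ← map_mul]
      rw [h7]
      unfold qf im
      rw [Finset.mul_sum, ← Finset.sum_neg_distrib]
      refine Finset.sum_congr rfl fun i _ => ?_
      ring
    rw [h5, h6]
    ring

end Pool.Agent.Helper44.RED
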