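import Pool.Agent.Helper44.RED.StA
import Pool.Agent.Helper44.RED.Fld

set_option autoImplicit false

namespace Pool.Agent.Helper44.RED

/-- as many generators as independent elements: the generators are independent -/
theorem indep_of_gen_ConePure {E F ι : Type} [Field E] [Field F] [Fintype ι] {φ : E →+* F}
    {y z : ι → F} (hy : Indep φ y) (hz : GenBy φ (Set.range z)) : Indep φ z := by
  let _ : Algebra E F := φ.toAlgebra
  have hy' : AlgebraicIndependent E y := hy
  have hcard : Cardinal.mk ι ≤ Algebra.trdeg E F := hy'.cardinalMk_le_trdeg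
  have halg : Algebra.IsAlgebraic (Algebra.adjoin E (Set.range z)) F := by
    refine ⟨fun x => ?_⟩
    have hx : x ∈ Subfield.closure (Set.range φ ∪ Set.range z) := by
      have : Subfield.closure (Set.range φ ∪ Set.range z) = ⊤ := hz
      rw [this]; trivial
    induction hx using Subfield.closure_induction with
    | mem x hx =>
      rcases hx with ⟨c, rfl⟩ | ⟨i, rfl⟩
      · exact isAlgebraic_algebraMap (⟨algebraMap E F c,
          (Algebra.adjoin E (Set.range z)).algebraMap_mem c⟩ : Algebra.adjoin E (Set.range z))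
      · exact isAlgebraic_algebraMap (⟨z i,
          Algebra.subset_adjoin ⟨i, rfl⟩⟩ : Algebra.adjoin E (Set.range z))
    | one => exact isAlgebraic_one
    | add x y _ _ hx hy => exact hx.add hy
    | neg x _ hx => exact hx.neg
    | inv x _ hx => exact hx.inv
    | mul x y _ _ hx hy => exact hx.mul hy
  have hb : IsTranscendenceBasis E z :=
    Algebra.IsAlgebraic.isTranscendenceBasis_of_le_trdeg_of_finite E z hcard
  exact hb.1

private lemma pol_ConePure {E F ι : Type} [Field E] [Field F] [Fintype ι] (φ : E →+* F)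
    (q : ι → E) (y : ι → F) :
    MvPolynomial.eval₂Hom φ y (∑ i, MvPolynomial.C (q i) * MvPolynomial.X i ^ 2) =
      qf (im φ q) y := by
  unfold qf im
  rw [map_sum]
  refine Finset.sum_congr rfl fun i _ => ?_
  rw [map_mul, map_pow, MvPolynomial.eval₂Hom_C, MvPolynomial.eval₂Hom_X']

theorem pConePure : StConePure := by
  intro E F ι _ _ _ h2 φ q a y w _ ha hp hC
  obtain ⟨p₀, hp₀⟩ := hp
  have h2F : (2 : F) ≠ 0 := by
    intro h
    apply h2
    apply (map_eq_zero φ).1
    rw [map_ofNat]
    exact h
  have ha' : φ a ≠ 0 := fun h => ha ((map_eq_zero φ).1 h)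
  -- the value at the generic point is not zero
  have hqy : qf (im φ q) y ≠ 0 := by
    rw [← pol_ConePure φ q y]
    refine hC.indep.ne_zero fun h0 => ha ?_
    have h1 := congrArg (MvPolynomial.eval₂Hom (RingHom.id E) p₀) h0
    rw [pol_ConePure (RingHom.id E) q p₀, map_zero] at h1
    rw [← hp₀]
    exact h1
  have hw : w ≠ 0 := by
    intro h
    have := hC.eq
    rw [h, zero_pow two_ne_zero] at this
    rcases mul_eq_zero.1 this.symm with h3 | h3
    · exact ha' h3
    · exact hqy h3
  -- choice of the sign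
  obtain ⟨p, hp, hne⟩ : ∃ p : ι → E, qf q p = a ∧ bf (im φ q) (im φ p) y ≠ w := by
    by_cases h : bf (im φ q) (im φ p₀) y = w
    · refine ⟨-p₀, by rw [qf_neg, hp₀], fun h' => ?_⟩
      have h3 : im φ (-p₀) = -im φ p₀ := by
        funext i
        simp [im]
      rw [h3, bf_neg_left, h] at h'
      have h4 : (2 : F) * w = 0 := by linear_combination -h'
      rcases mul_eq_zero.1 h4 with h5 | h5
      · exact h2F h5
      · exact hw h5
    · exact ⟨p₀, hp₀, h⟩
  set Q : ι → F := im φ q with hQ
  set P : ι → F := im φ p with hP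
  have hPP : qf Q P = φ a := by rw [hQ, hP, qf_im, hp]
  set z : ι → F := y - (w / φ a) • P with hz
  have hbz : bf Q P z = bf Q P y - w := by
    rw [hz, bf_sub_right, bf_smul_right, bf_self, hPP]
    field_simp
  have hbz0 : bf Q P z ≠ 0 := by
    rw [hbz]
    exact sub_ne_zero.2 hne
  have hqz : 2 * bf Q P z * w = -(φ a * qf Q z) := by
    have h3 : qf Q z = qf Q y - 2 * (w / φ a * bf Q y P) + (w / φ a) ^ 2 * φ a := by
      rw [hz, qf_sub, bf_smul_right, qf_smul, hPP]
    have h4 := hC.eq
    rw [hbz, h3, bf_comm Q y P]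
    field_simp
    linear_combination -h4
  -- the field generated by z
  have hgen : GenBy φ (Set.range z) := by
    unfold GenBy
    set K := Subfield.closure (Set.range φ ∪ Set.range z) with hK
    have hφ : ∀ c, φ c ∈ K := fun c => Subfield.subset_closure (Or.inl ⟨c, rfl⟩)
    have hzi : ∀ i, z i ∈ K := fun i => Subfield.subset_closure (Or.inr ⟨i, rfl⟩)
    have hb : bf Q P z ∈ K := by
      unfold bf
      exact K.sum_mem fun i _ => K.mul_mem (hφ _) (K.mul_mem (hφ _) (hzi i))
    have hq : qf Q z ∈ K := by
      unfold qf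
      exact K.sum_mem fun i _ => K.mul_mem (hφ _) (K.pow_mem (hzi i) _)
    have h2K : (2 : F) ∈ K := by
      have := hφ 2
      rwa [map_ofNat] at this
    have hwK : w ∈ K := by
      have h5 : w = -(φ a * qf Q z) / (2 * bf Q P z) := by
        rw [eq_div_iff (mul_ne_zero h2F hbz0), ← hqz]
        ring
      rw [h5]
      exact K.div_mem (K.neg_mem (K.mul_mem (hφ a) hq)) (K.mul_mem h2K hb)
    have hyK : ∀ i, y i ∈ K := by
      intro i
      have h6 : y i = z i + w / φ a * P i := by
        rw [hz]
        simp only [Pi.sub_apply, Pi.smul_apply, smul_eq_mul]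
        ring
      rw [h6]
      exact K.add_mem (hzi i) (K.mul_mem (K.div_mem hwK (hφ a)) (hφ _))
    rw [eq_top_iff, ← show Subfield.closure (Set.range φ ∪ (Set.range y ∪ {w})) = ⊤ from hC.gen,
      Subfield.closure_le]
    rintro x (⟨c, rfl⟩ | ⟨i, rfl⟩ | hx)
    · exact hφ c
    · exact hyK i
    · rw [Set.mem_singleton_iff.1 hx]
      exact hwK
  exact pureExt_of_fintype (indep_of_gen_ConePure hC.indep hgen) hgen

end Pool.Agent.Helper44.RED
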