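import Pool.Agent.Helper44.RED.StB

/-!
# Project RED, module CONST: an everywhere unramified anisotropic form over `E(X)` is constant
-/

set_option autoImplicit false

open Polynomial

namespace Pool.Agent.Helper44.RED

section Const

variable {E : Type} [Field E]

/-- degree at most `m` -/
def Dg_Const (z : RatFunc E) (m : ℤ) : Prop := z = 0 ∨ z.intDegree ≤ m

lemma dg_zero_Const (m : ℤ) : Dg_Const (0 : RatFunc E) m := Or.inl rfl

lemma dg_mono_Const {z : RatFunc E} {m n : ℤ} (h : Dg_Const z m) (hmn : m ≤ n) : Dg_Const z n := by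
  rcases h with h | h
  · exact Or.inl h
  · exact Or.inr (h.trans hmn)

lemma dg_add_Const {z w : RatFunc E} {m : ℤ} (hz : Dg_Const z m) (hw : Dg_Const w m) :
    Dg_Const (z + w) m := by
  rcases hz with hz | hz
  · subst hz; rw [zero_add]; exact hw
  by_cases h0 : w = 0
  · subst h0; rw [add_zero]; exact Or.inr hz
  rcases hw with hw | hw
  · exact absurd hw h0
  by_cases h1 : z + w = 0
  · exact Or.inl h1
  · exact Or.inr ((RatFunc.intDegree_add_le h0 h1).trans (max_le hz hw))

lemma dg_neg_Const {z : RatFunc E} {m : ℤ} (hz : Dg_Const z m) : Dg_Const (-z) m := by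
  rcases hz with hz | hz
  · left; rw [hz, neg_zero]
  · right; rw [RatFunc.intDegree_neg]; exact hz

lemma dg_sub_Const {z w : RatFunc E} {m : ℤ} (hz : Dg_Const z m) (hw : Dg_Const w m) :
    Dg_Const (z - w) m := by
  rw [sub_eq_add_neg]; exact dg_add_Const hz (dg_neg_Const hw)

lemma dg_mul_Const {z w : RatFunc E} {m n : ℤ} (hz : Dg_Const z m) (hw : Dg_Const w n) :
    Dg_Const (z * w) (m + n) := by
  rcases hz with hz | hz
  · left; rw [hz, zero_mul]
  rcases hw with hw | hw
  · left; rw [hw, mul_zero]
  by_cases h0 : z = 0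
  · left; rw [h0, zero_mul]
  by_cases h1 : w = 0
  · left; rw [h1, mul_zero]
  right
  rw [RatFunc.intDegree_mul h0 h1]
  exact add_le_add hz hw

lemma dg_sum_Const {α : Type} (s : Finset α) (f : α → RatFunc E) (m : ℤ)
    (h : ∀ i ∈ s, Dg_Const (f i) m) : Dg_Const (∑ i ∈ s, f i) m := by
  classical
  induction s using Finset.induction_on with
  | empty => rw [Finset.sum_empty]; exact dg_zero_Const m
  | insert i s hi ih =>
    rw [Finset.sum_insert hi]
    exact dg_add_Const (h i (Finset.mem_insert_self i s))
      (ih (fun j hj => h j (Finset.mem_insert_of_mem hj)))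

lemma dg_prod_Const {α : Type} (s : Finset α) (f : α → RatFunc E)
    (h : ∀ i ∈ s, Dg_Const (f i) 0) : Dg_Const (∏ i ∈ s, f i) 0 := by
  classical
  induction s using Finset.induction_on with
  | empty => rw [Finset.prod_empty]; right; rw [RatFunc.intDegree_one]
  | insert i s hi ih =>
    rw [Finset.prod_insert hi]
    have := dg_mul_Const (h i (Finset.mem_insert_self i s))
      (ih (fun j hj => h j (Finset.mem_insert_of_mem hj)))
    simpa using this

lemma amap_Const (e : E) : algebraMap E (RatFunc E) e = algebraMap E[X] (RatFunc E) (C e) := by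
  rw [IsScalarTower.algebraMap_apply E E[X] (RatFunc E)]; rfl

lemma dg_cst_Const (e : E) : Dg_Const (algebraMap E (RatFunc E) e) 0 := by
  right
  rw [amap_Const, RatFunc.intDegree_polynomial, natDegree_C]; simp

lemma intDegree_cst_Const (e : E) : (algebraMap E (RatFunc E) e).intDegree = 0 := by
  rw [amap_Const, RatFunc.intDegree_polynomial, natDegree_C]; simp

lemma Xne_Const : (RatFunc.X : RatFunc E) ≠ 0 := RatFunc.X_ne_zero

lemma intDegree_Xpow_Const (m : ℕ) : ((RatFunc.X : RatFunc E) ^ m).intDegree = m := by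
  rw [← RatFunc.algebraMap_X, ← map_pow, RatFunc.intDegree_polynomial, natDegree_X_pow]

/-- the coefficient of `X ^ m` is `e`, and the degree is at most `m` (`m` a natural number) -/
def Rel_Const (z : RatFunc E) (m : ℕ) (e : E) : Prop :=
  Dg_Const (z - algebraMap E (RatFunc E) e * RatFunc.X ^ m) ((m : ℤ) - 1)

lemma dg_Xpow_Const (e : E) (m : ℕ) :
    Dg_Const (algebraMap E (RatFunc E) e * RatFunc.X ^ m) (m : ℤ) := by
  have h := dg_mul_Const (dg_cst_Const e) (Or.inr (intDegree_Xpow_Const (E := E) m).le)
  rwa [zero_add] at h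

lemma Rel_Const.dg {z : RatFunc E} {m : ℕ} {e : E} (h : Rel_Const z m e) : Dg_Const z m := by
  have h1 : z = (z - algebraMap E (RatFunc E) e * RatFunc.X ^ m) +
    algebraMap E (RatFunc E) e * RatFunc.X ^ m := by ring
  rw [h1]
  exact dg_add_Const (dg_mono_Const h (by omega)) (dg_Xpow_Const e m)

lemma Rel_Const.add {z w : RatFunc E} {m : ℕ} {e e' : E} (h : Rel_Const z m e)
    (h' : Rel_Const w m e') : Rel_Const (z + w) m (e + e') := by
  unfold Rel_Const
  have h1 : z + w - algebraMap E (RatFunc E) (e + e') * RatFunc.X ^ m =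
    (z - algebraMap E (RatFunc E) e * RatFunc.X ^ m) +
      (w - algebraMap E (RatFunc E) e' * RatFunc.X ^ m) := by rw [map_add]; ring
  rw [h1]
  exact dg_add_Const h h'

lemma Rel_Const.mul {z w : RatFunc E} {m n : ℕ} {e e' : E} (h : Rel_Const z m e)
    (h' : Rel_Const w n e') : Rel_Const (z * w) (m + n) (e * e') := by
  unfold Rel_Const
  have h1 : z * w - algebraMap E (RatFunc E) (e * e') * RatFunc.X ^ (m + n) =
    (z - algebraMap E (RatFunc E) e * RatFunc.X ^ m) * w +
      (algebraMap E (RatFunc E) e * RatFunc.X ^ m) *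
      (w - algebraMap E (RatFunc E) e' * RatFunc.X ^ n) := by rw [map_mul, pow_add]; ring
  rw [h1]
  apply dg_add_Const
  · exact dg_mono_Const (dg_mul_Const h h'.dg) (by push_cast; omega)
  · exact dg_mono_Const (dg_mul_Const (dg_Xpow_Const e m) h') (by push_cast; omega)

lemma rel_zero_Const (m : ℕ) : Rel_Const (0 : RatFunc E) m 0 := by
  left; rw [map_zero]; ring

lemma rel_cst_Const (e : E) : Rel_Const (algebraMap E (RatFunc E) e) 0 e := by
  left; rw [pow_zero, mul_one, sub_self]

lemma rel_mono_Const (e : E) (m : ℕ) :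
    Rel_Const (algebraMap E (RatFunc E) e * RatFunc.X ^ m) m e := by
  left; rw [sub_self]

lemma rel_sum_Const {α : Type} (s : Finset α) (f : α → RatFunc E) (g : α → E) (m : ℕ)
    (h : ∀ i ∈ s, Rel_Const (f i) m (g i)) : Rel_Const (∑ i ∈ s, f i) m (∑ i ∈ s, g i) := by
  classical
  induction s using Finset.induction_on with
  | empty => rw [Finset.sum_empty, Finset.sum_empty]; exact rel_zero_Const m
  | insert i s hi ih =>
    rw [Finset.sum_insert hi, Finset.sum_insert hi]
    exact (h i (Finset.mem_insert_self i s)).add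
      (ih (fun j hj => h j (Finset.mem_insert_of_mem hj)))

lemma rel_prod_Const {α : Type} (s : Finset α) (f : α → RatFunc E) (g : α → E) (m : α → ℕ)
    (h : ∀ i ∈ s, Rel_Const (f i) (m i) (g i)) :
    Rel_Const (∏ i ∈ s, f i) (∑ i ∈ s, m i) (∏ i ∈ s, g i) := by
  classical
  induction s using Finset.induction_on with
  | empty =>
    rw [Finset.sum_empty, Finset.prod_empty, Finset.prod_empty]
    have := rel_cst_Const (1 : E)
    rwa [map_one] at this
  | insert i s hi ih =>
    rw [Finset.prod_insert hi, Finset.prod_insert hi, Finset.sum_insert hi]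
    exact (h i (Finset.mem_insert_self i s)).mul
      (ih (fun j hj => h j (Finset.mem_insert_of_mem hj)))

lemma rel_eq_zero_Const {z : RatFunc E} {m : ℕ} {e : E} (h : Rel_Const z m e)
    (h' : Dg_Const z ((m : ℤ) - 1)) : e = 0 := by
  by_contra he
  have h1 : algebraMap E (RatFunc E) e * RatFunc.X ^ m =
    z - (z - algebraMap E (RatFunc E) e * RatFunc.X ^ m) := by ring
  have h2 : Dg_Const (algebraMap E (RatFunc E) e * RatFunc.X ^ m) ((m : ℤ) - 1) := by
    rw [h1]; exact dg_sub_Const h' h
  have h3 : algebraMap E (RatFunc E) e ≠ 0 := by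
    intro h; exact he ((map_eq_zero _).1 h)
  have h4 : (RatFunc.X : RatFunc E) ^ m ≠ 0 := pow_ne_zero _ Xne_Const
  rcases h2 with h2 | h2
  · exact mul_ne_zero h3 h4 h2
  · rw [RatFunc.intDegree_mul h3 h4, intDegree_cst_Const, intDegree_Xpow_Const] at h2
    omega

lemma rel_zero'_Const {z : RatFunc E} {m : ℕ} (h : Rel_Const z m 0) :
    Dg_Const z ((m : ℤ) - 1) := by
  unfold Rel_Const at h
  rwa [map_zero, zero_mul, sub_zero] at h

lemma exists_rel0_Const {z : RatFunc E} (h : Dg_Const z 0) :
    ∃ e : E, Dg_Const (z - algebraMap E (RatFunc E) e) (-1) := by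
  rcases h with h | h
  · exact ⟨0, by rw [h, map_zero, sub_self]; exact dg_zero_Const _⟩
  rcases lt_or_eq_of_le h with h1 | h1
  · exact ⟨0, by rw [map_zero, sub_zero]; right; omega⟩
  by_cases hz : z = 0
  · exact ⟨0, by rw [hz, map_zero, sub_self]; exact dg_zero_Const _⟩
  refine ⟨z.num.leadingCoeff, ?_⟩
  have hd : z.denom.Monic := RatFunc.monic_denom z
  have hnd : z.num.natDegree = z.denom.natDegree := by
    unfold RatFunc.intDegree at h1; omega
  have hn0 : z.num ≠ 0 := RatFunc.num_ne_zero hz
  set e : E := z.num.leadingCoeff with he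
  have he0 : e ≠ 0 := leadingCoeff_ne_zero.2 hn0
  have hden : algebraMap E[X] (RatFunc E) z.denom ≠ 0 := RatFunc.algebraMap_ne_zero z.denom_ne_zero
  have h2 : z - algebraMap E (RatFunc E) e =
      algebraMap E[X] (RatFunc E) (z.num - C e * z.denom) / algebraMap E[X] (RatFunc E) z.denom := by
    rw [amap_Const, map_sub, map_mul, sub_div, mul_div_assoc, div_self hden, mul_one,
      RatFunc.num_div_denom]
  rw [h2]
  by_cases h3 : z.num - C e * z.denom = 0
  · left; rw [h3, map_zero, zero_div]
  right
  rw [RatFunc.intDegree_div (RatFunc.algebraMap_ne_zero h3) hden, RatFunc.intDegree_polynomial,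
    RatFunc.intDegree_polynomial]
  have h4 : (z.num - C e * z.denom).degree < z.num.degree := by
    apply degree_sub_lt_left
    · rw [degree_mul, degree_C he0, zero_add, degree_eq_natDegree hn0,
        degree_eq_natDegree z.denom_ne_zero, hnd]
    · exact hn0
    · rw [leadingCoeff_mul, leadingCoeff_C, hd.leadingCoeff, mul_one]
  have h5 := (natDegree_lt_natDegree_iff h3).2 h4
  omega

lemma exists_rel_Const {z : RatFunc E} {m : ℕ} (h : Dg_Const z m) : ∃ e : E, Rel_Const z m e := by
  have hX : (RatFunc.X : RatFunc E) ^ m ≠ 0 := pow_ne_zero _ Xne_Const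
  have h1 : Dg_Const (z * ((RatFunc.X : RatFunc E) ^ m)⁻¹) 0 := by
    have h2 : Dg_Const (((RatFunc.X : RatFunc E) ^ m)⁻¹) (-(m : ℤ)) := by
      right; rw [RatFunc.intDegree_inv, intDegree_Xpow_Const]
    have := dg_mul_Const h h2
    simpa using this
  obtain ⟨e, he⟩ := exists_rel0_Const h1
  refine ⟨e, ?_⟩
  unfold Rel_Const
  have h3 : z - algebraMap E (RatFunc E) e * RatFunc.X ^ m =
      (z * ((RatFunc.X : RatFunc E) ^ m)⁻¹ - algebraMap E (RatFunc E) e) * RatFunc.X ^ m := by
    field_simp
  rw [h3]
  exact dg_mono_Const (dg_mul_Const he (Or.inr (intDegree_Xpow_Const m).le)) (by omega)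

lemma rel_det_Const {ι : Type} [Fintype ι] [DecidableEq ι] (N : Matrix ι ι (RatFunc E))
    (L : Matrix ι ι E) (m : ι → ℕ) (h : ∀ k i, Rel_Const (N k i) (m i) (L k i)) :
    Rel_Const N.det (∑ i, m i) L.det := by
  rw [Matrix.det_apply', Matrix.det_apply']
  apply rel_sum_Const
  intro σ _
  have h1 := rel_prod_Const Finset.univ (fun i => N (σ i) i) (fun i => L (σ i) i) m
    (fun i _ => h (σ i) i)
  have h2 := rel_cst_Const (((Equiv.Perm.sign σ : ℤ) : E))
  rw [map_intCast] at h2
  have h3 := h2.mul h1
  rwa [zero_add] at h3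

/-- reduction of a lattice basis at infinity -/
lemma reduce_Const {ι : Type} [Fintype ι] [DecidableEq ι] (M : Matrix ι ι (RatFunc E))
    (hdeg : M.det.intDegree = 0)
    (hani : ∀ q : ι → E[X],
      (∀ k, Dg_Const (M.mulVec (fun i => algebraMap E[X] (RatFunc E) (q i)) k) (-1)) → q = 0) :
    ∃ P : Matrix ι ι E[X], (∃ e : E, e ≠ 0 ∧ P.det = C e) ∧
      ∀ k i, Dg_Const ((M * P.map (algebraMap E[X] (RatFunc E))) k i) 0 := by
  have key : ∀ n : ℕ, ∀ (P : Matrix ι ι E[X]) (m : ι → ℕ), (∃ e : E, e ≠ 0 ∧ P.det = C e) →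
      (∀ k i, Dg_Const ((M * P.map (algebraMap E[X] (RatFunc E))) k i) (m i)) → ∑ i, m i = n →
      ∃ P : Matrix ι ι E[X], (∃ e : E, e ≠ 0 ∧ P.det = C e) ∧
        ∀ k i, Dg_Const ((M * P.map (algebraMap E[X] (RatFunc E))) k i) 0 := by
    intro n
    induction n with
    | zero =>
      intro P m hP hm hs
      refine ⟨P, hP, fun k i => ?_⟩
      have h0 : m i = 0 := (Finset.sum_eq_zero_iff.1 hs) i (Finset.mem_univ i)
      have := hm k i
      rw [h0] at this
      exact this
    | succ n ih =>
      intro P m hP hm hs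
      obtain ⟨e, he, hPe⟩ := hP
      set N : Matrix ι ι (RatFunc E) := M * P.map (algebraMap E[X] (RatFunc E)) with hN
      choose L hL using fun k i => exists_rel_Const (hm k i)
      have hrel := rel_det_Const N (Matrix.of L) m hL
      have hNdet : N.det = M.det * algebraMap E (RatFunc E) e := by
        rw [hN, Matrix.det_mul]
        congr 1
        have := (RingHom.map_det (algebraMap E[X] (RatFunc E)) P).symm
        rw [RingHom.mapMatrix_apply] at this
        rw [this, hPe, amap_Const]
      have hNdg : Dg_Const N.det ((∑ i, m i : ℕ) - 1 : ℤ) := by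
        rw [hNdet]
        have h1 : Dg_Const (M.det * algebraMap E (RatFunc E) e) (0 + 0) :=
          dg_mul_Const (Or.inr hdeg.le) (dg_cst_Const e)
        refine dg_mono_Const h1 ?_
        rw [hs]; push_cast; omega
      have hLdet : (Matrix.of L).det = 0 := rel_eq_zero_Const hrel hNdg
      obtain ⟨c, hc0, hLc⟩ := Matrix.exists_mulVec_eq_zero_iff.2 hLdet
      -- the largest exponent in the support
      classical
      have hne : (Finset.univ.filter (fun i => c i ≠ 0)).Nonempty := by
        by_contra hcon
        rw [Finset.not_nonempty_iff_eq_empty] at hcon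
        apply hc0
        funext i
        by_contra hi
        have : i ∈ (Finset.univ.filter (fun i => c i ≠ 0)) := by simpa using hi
        rw [hcon] at this
        simp at this
      obtain ⟨i₀, hi₀, hmax⟩ := Finset.exists_max_image _ m hne
      have hci₀ : c i₀ ≠ 0 := (Finset.mem_filter.1 hi₀).2
      have hmax' : ∀ i, c i ≠ 0 → m i ≤ m i₀ := fun i hi => hmax i (by simp [hi])
      set q : ι → E[X] := fun i => C (c i) * X ^ (m i₀ - m i) with hq
      have hqi₀ : q i₀ = C (c i₀) := by simp [hq]
      have hqmap : ∀ i, algebraMap E[X] (RatFunc E) (q i) =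
          algebraMap E (RatFunc E) (c i) * RatFunc.X ^ (m i₀ - m i) := by
        intro i
        rw [hq, map_mul, map_pow, RatFunc.algebraMap_X, amap_Const]
      have hterm : ∀ k i, Rel_Const (N k i * algebraMap E[X] (RatFunc E) (q i)) (m i₀)
          (L k i * c i) := by
        intro k i
        by_cases hi : c i = 0
        · rw [hqmap, hi, map_zero, zero_mul, mul_zero, mul_zero]; exact rel_zero_Const _
        · have h1 := (hL k i).mul (rel_mono_Const (c i) (m i₀ - m i))
          rw [hqmap]
          have h2 : m i + (m i₀ - m i) = m i₀ := by have := hmax' i hi; omega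
          rwa [h2] at h1
      have hcol : ∀ k, Dg_Const (∑ i, N k i * algebraMap E[X] (RatFunc E) (q i))
          ((m i₀ : ℤ) - 1) := by
        intro k
        have h1 := rel_sum_Const Finset.univ _ _ (m i₀) (fun i _ => hterm k i)
        have h2 : ∑ i, L k i * c i = 0 := by
          have := congrFun hLc k
          simpa [Matrix.mulVec, dotProduct] using this
        rw [h2] at h1
        exact rel_zero'_Const h1
      rcases Nat.eq_zero_or_pos (m i₀) with h0 | hpos
      · -- contradiction with anisotropy
        exfalso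
        have h1 : P.mulVec q = 0 := by
          apply hani
          intro k
          have h2 : M.mulVec (fun i => algebraMap E[X] (RatFunc E) (P.mulVec q i)) k =
              ∑ i, N k i * algebraMap E[X] (RatFunc E) (q i) := by
            have h3 : (fun i => algebraMap E[X] (RatFunc E) (P.mulVec q i)) =
                (P.map (algebraMap E[X] (RatFunc E))).mulVec
                  (fun i => algebraMap E[X] (RatFunc E) (q i)) := by
              funext i
              simp only [Matrix.mulVec, dotProduct, map_sum, map_mul, Matrix.map_apply]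
            rw [h3, Matrix.mulVec_mulVec, ← hN]
            rfl
          rw [h2]
          have := hcol k
          rw [h0] at this
          exact this
        have hPdet : P.det ≠ 0 := by rw [hPe]; exact C_ne_zero.2 he
        have h2 := Matrix.eq_zero_of_mulVec_eq_zero hPdet h1
        have h3 := congrFun h2 i₀
        rw [hqi₀] at h3
        exact hci₀ (C_eq_zero.1 h3)
      · set P' : Matrix ι ι E[X] := P.updateCol i₀ (fun k => ∑ i, (q i) • P k i) with hP'
        apply ih P' (Function.update m i₀ (m i₀ - 1))
        · refine ⟨c i₀ * e, mul_ne_zero hci₀ he, ?_⟩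
          rw [hP', Matrix.det_updateCol_sum, hqi₀, hPe, smul_eq_mul, ← C_mul]
        · intro k i
          by_cases hi : i = i₀
          · subst hi
            rw [Function.update_self]
            have h2 : (M * P'.map (algebraMap E[X] (RatFunc E))) k i =
                ∑ l, N k l * algebraMap E[X] (RatFunc E) (q l) := by
              rw [Matrix.mul_apply]
              have h3 : ∀ l, (P'.map (algebraMap E[X] (RatFunc E))) l i =
                  ∑ j, algebraMap E[X] (RatFunc E) (q j) * algebraMap E[X] (RatFunc E) (P l j) := by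
                intro l
                rw [Matrix.map_apply, hP', Matrix.updateCol_self, map_sum]
                exact Finset.sum_congr rfl fun j _ => by rw [smul_eq_mul, map_mul]
              simp only [h3, Finset.mul_sum]
              rw [Finset.sum_comm]
              refine Finset.sum_congr rfl fun j _ => ?_
              rw [hN, Matrix.mul_apply, Finset.sum_mul]
              refine Finset.sum_congr rfl fun l _ => ?_
              rw [Matrix.map_apply]; ring
            rw [h2]
            have h4 := hcol k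
            have h5 : ((m i - 1 : ℕ) : ℤ) = (m i : ℤ) - 1 := by omega
            rw [h5]; exact h4
          · rw [Function.update_of_ne hi]
            have h2 : (M * P'.map (algebraMap E[X] (RatFunc E))) k i = N k i := by
              rw [hN, Matrix.mul_apply, Matrix.mul_apply]
              refine Finset.sum_congr rfl fun l _ => ?_
              rw [Matrix.map_apply, Matrix.map_apply, hP', Matrix.updateCol_ne hi]
            rw [h2]; exact hm k i
        · have h1 : ∑ i, Function.update m i₀ (m i₀ - 1) i + 1 = ∑ i, m i := by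
            rw [Finset.sum_update_of_mem (Finset.mem_univ i₀),
              ← Finset.add_sum_erase Finset.univ m (Finset.mem_univ i₀)]
            have : (Finset.univ \ {i₀} : Finset ι) = Finset.univ.erase i₀ := by
              ext x; simp
            rw [this]; omega
          omega
  -- start
  have hstart : ∀ i, ∃ m : ℕ, ∀ k, Dg_Const (M k i) m := by
    intro i
    refine ⟨∑ k, (M k i).intDegree.toNat, fun k => Or.inr ?_⟩
    have h1 : (M k i).intDegree.toNat ≤ ∑ k, (M k i).intDegree.toNat :=
      Finset.single_le_sum (f := fun k => (M k i).intDegree.toNat) (fun _ _ => Nat.zero_le _)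
        (Finset.mem_univ k)
    have h2 := Int.self_le_toNat (M k i).intDegree
    calc (M k i).intDegree ≤ ((M k i).intDegree.toNat : ℤ) := h2
      _ ≤ _ := by exact_mod_cast h1
  choose m hm using hstart
  apply key (∑ i, m i) 1 m ⟨1, one_ne_zero, by rw [Matrix.det_one, C_1]⟩ _ rfl
  intro k i
  have h1 : (1 : Matrix ι ι E[X]).map (algebraMap E[X] (RatFunc E)) = 1 := by
    rw [Matrix.map_one _ (map_zero _) (map_one _)]
  rw [h1, mul_one]
  exact hm i k

lemma dg_iff_Const (z : RatFunc E) : (∃ f g : E[X], g ≠ 0 ∧ f.degree ≤ g.degree ∧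
      z = algebraMap E[X] (RatFunc E) f / algebraMap E[X] (RatFunc E) g) ↔ Dg_Const z 0 := by
  constructor
  · rintro ⟨f, g, hg, hfg, rfl⟩
    by_cases hf : f = 0
    · left; rw [hf, map_zero, zero_div]
    right
    rw [RatFunc.intDegree_div (RatFunc.algebraMap_ne_zero hf) (RatFunc.algebraMap_ne_zero hg),
      RatFunc.intDegree_polynomial, RatFunc.intDegree_polynomial]
    have := natDegree_le_natDegree hfg
    omega
  · rintro (h | h)
    · exact ⟨0, 1, one_ne_zero, by simp, by rw [h, map_zero, zero_div]⟩
    · refine ⟨z.num, z.denom, z.denom_ne_zero, ?_, (RatFunc.num_div_denom z).symm⟩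
      unfold RatFunc.intDegree at h
      have h1 : z.num.natDegree ≤ z.denom.natDegree := by omega
      calc z.num.degree ≤ (z.num.natDegree : WithBot ℕ) := degree_le_natDegree
        _ ≤ (z.denom.natDegree : WithBot ℕ) := by exact_mod_cast h1
        _ = z.denom.degree := (degree_eq_natDegree z.denom_ne_zero).symm

lemma dg_poly_Const {p : E[X]} {m : ℤ} (h : Dg_Const (algebraMap E[X] (RatFunc E) p) m)
    (hm : m < 0) : p = 0 := by
  rcases h with h | h
  · exact (map_eq_zero_iff _ (RatFunc.algebraMap_injective E)).1 h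
  · rw [RatFunc.intDegree_polynomial] at h; omega

lemma dg_poly0_Const {p : E[X]} (h : Dg_Const (algebraMap E[X] (RatFunc E) p) 0) :
    p = C (p.coeff 0) := by
  rcases h with h | h
  · have := (map_eq_zero_iff _ (RatFunc.algebraMap_injective E)).1 h
    rw [this]; simp
  · rw [RatFunc.intDegree_polynomial] at h
    exact eq_C_of_natDegree_eq_zero (by omega)

lemma gram_Const {R ι : Type} [CommRing R] [Fintype ι] [DecidableEq ι] (a : ι → R)
    (B : Matrix ι ι R) (x y : ι → R) :
    bf a (B.mulVec x) (B.mulVec y) =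
      x ⬝ᵥ (B.transpose * Matrix.diagonal a * B).mulVec y := by
  have h1 : bf a (B.mulVec x) (B.mulVec y) = (B.mulVec x) ⬝ᵥ
      ((Matrix.diagonal a).mulVec (B.mulVec y)) := by
    unfold bf
    rw [dotProduct]
    refine Finset.sum_congr rfl fun i _ => ?_
    rw [Matrix.mulVec_diagonal]; ring
  rw [h1, ← Matrix.mulVec_mulVec, ← Matrix.mulVec_mulVec, Matrix.dotProduct_mulVec x,
    Matrix.vecMul_transpose]

lemma sym_Const {R ι : Type} [CommRing R] [Fintype ι] [DecidableEq ι] (a : ι → R)
    (Q : Matrix ι ι R) : (Q.transpose * Matrix.diagonal a * Q).transpose =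
      Q.transpose * Matrix.diagonal a * Q := by
  rw [Matrix.transpose_mul, Matrix.transpose_mul, Matrix.transpose_transpose,
    Matrix.diagonal_transpose, mul_assoc]

end Const

theorem pConst : StFinLat → StInfPlace → StConst := by
  intro hFin hInf E ι _ _ _ h2 a hA hU
  obtain ⟨B, G, g, hB, hg, hBG, hGdet⟩ := hFin E ι a (fun i => hA.ne_zero i) hU
  obtain ⟨O, hO, hOm⟩ := hInf E
  have hOdg : ∀ z, z ∈ O ↔ Dg_Const z 0 := fun z => (hOm z).trans (dg_iff_Const z)
  obtain ⟨B', hB', hG', hG'det⟩ := hU O hO (fun c => (hOdg _).2 (dg_cst_Const c))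
  set G' : Matrix ι ι (RatFunc E) := B'.transpose * Matrix.diagonal a * B' with hG'def
  have hG'dg : ∀ i j, Dg_Const (G' i j) 0 := fun i j => (hOdg _).1 (hG' i j)
  have hB'u : IsUnit B'.det := isUnit_iff_ne_zero.2 hB'
  set M : Matrix ι ι (RatFunc E) := B'⁻¹ * B with hM
  have hB'M : B' * M = B := by
    rw [hM, ← mul_assoc, Matrix.mul_nonsing_inv _ hB'u, one_mul]
  clear_value M
  have hMG : M.transpose * G' * M = G.map (algebraMap E[X] (RatFunc E)) := by
    rw [← hBG, ← hB'M, Matrix.transpose_mul]; simp only [hG'def, mul_assoc]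
  -- the determinant of `M` has degree zero
  have hcg : algebraMap E (RatFunc E) g ≠ 0 := fun h => hg ((map_eq_zero _).1 h)
  have hdets : M.det * G'.det * M.det = algebraMap E (RatFunc E) g := by
    have h1 := congrArg Matrix.det hMG
    rw [Matrix.det_mul, Matrix.det_mul, Matrix.det_transpose] at h1
    rw [h1]
    have h3 := (RingHom.map_det (algebraMap E[X] (RatFunc E)) G).symm
    rw [RingHom.mapMatrix_apply] at h3
    rw [h3, hGdet, amap_Const]
  have hMdet0 : M.det ≠ 0 := by
    intro h; rw [h, mul_zero] at hdets; exact hcg hdets.symm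
  have hG'det0 : G'.det ≠ 0 := by
    intro h; rw [h, mul_zero, zero_mul] at hdets; exact hcg hdets.symm
  have hG'dd : Dg_Const G'.det 0 := by
    rw [Matrix.det_apply']
    apply dg_sum_Const
    intro σ _
    have h1 : Dg_Const (((Equiv.Perm.sign σ : ℤ) : RatFunc E)) 0 := by
      have := dg_cst_Const (((Equiv.Perm.sign σ : ℤ) : E))
      rwa [map_intCast] at this
    have h3 := dg_mul_Const h1 (dg_prod_Const Finset.univ (fun i => G' (σ i) i)
      (fun i _ => hG'dg _ _))
    simpa using h3
  have hG'int : G'.det.intDegree = 0 := by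
    have h1 : G'.det.intDegree ≤ 0 := by
      rcases hG'dd with h | h
      · exact absurd h hG'det0
      · exact h
    have h3 : (G'.det)⁻¹.intDegree ≤ 0 := by
      rcases (hOdg _).1 hG'det with h | h
      · exact absurd h (inv_ne_zero hG'det0)
      · exact h
    rw [RatFunc.intDegree_inv] at h3
    omega
  have hMint : M.det.intDegree = 0 := by
    have h1 := congrArg RatFunc.intDegree hdets
    rw [RatFunc.intDegree_mul (mul_ne_zero hMdet0 hG'det0) hMdet0,
      RatFunc.intDegree_mul hMdet0 hG'det0, hG'int, intDegree_cst_Const] at h1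
    omega
  -- anisotropy: nonzero lattice vectors have nonnegative degree
  have hinj := RatFunc.algebraMap_injective E
  have hani : ∀ q : ι → E[X],
      (∀ k, Dg_Const (M.mulVec (fun i => algebraMap E[X] (RatFunc E) (q i)) k) (-1)) → q = 0 := by
    intro q hq
    set q' : ι → RatFunc E := fun i => algebraMap E[X] (RatFunc E) (q i) with hq'
    have h1 : qf a (B.mulVec q') = algebraMap E[X] (RatFunc E) (q ⬝ᵥ G.mulVec q) := by
      rw [← bf_self, gram_Const, hBG]
      simp only [dotProduct, Matrix.mulVec, map_sum, map_mul, Matrix.map_apply, hq']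
    have h3 : qf a (B.mulVec q') = ∑ k, M.mulVec q' k * ∑ l, G' k l * M.mulVec q' l := by
      have h4 : B.mulVec q' = B'.mulVec (M.mulVec q') := by
        rw [Matrix.mulVec_mulVec, hB'M]
      rw [h4, ← bf_self, gram_Const]
      simp only [dotProduct, ← hG'def]
      rfl
    have h5 : Dg_Const (qf a (B.mulVec q')) (-1) := by
      rw [h3]
      apply dg_sum_Const
      intro k _
      have h6 : Dg_Const (∑ l, G' k l * M.mulVec q' l) (-1) := by
        apply dg_sum_Const
        intro l _
        have := dg_mul_Const (hG'dg k l) (hq l)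
        simpa using this
      exact dg_mono_Const (dg_mul_Const (hq k) h6) (by norm_num)
    rw [h1] at h5
    have h6 := dg_poly_Const h5 (by norm_num)
    rw [h6, map_zero] at h1
    have h7 := Matrix.eq_zero_of_mulVec_eq_zero hB (hA _ h1)
    funext i
    have h8 := congrFun h7 i
    exact (map_eq_zero_iff _ hinj).1 h8
  obtain ⟨P, ⟨e, he, hPdet⟩, hPdg⟩ := reduce_Const M hMint hani
  set P' : Matrix ι ι (RatFunc E) := P.map (algebraMap E[X] (RatFunc E)) with hP'
  set N : Matrix ι ι (RatFunc E) := M * P' with hN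
  set G₁ : Matrix ι ι E[X] := P.transpose * G * P with hG₁
  have hBP : (B * P').transpose * Matrix.diagonal a * (B * P') =
      G₁.map (algebraMap E[X] (RatFunc E)) := by
    have h1 : G₁.map (algebraMap E[X] (RatFunc E)) =
        P'.transpose * G.map (algebraMap E[X] (RatFunc E)) * P' := by
      rw [hG₁, Matrix.map_mul, Matrix.map_mul, Matrix.transpose_map]
    rw [h1, ← hBG, Matrix.transpose_mul]; simp only [mul_assoc]
  have hNG : N.transpose * G' * N = G₁.map (algebraMap E[X] (RatFunc E)) := by
    rw [← hBP, ← hB'M, hN, Matrix.transpose_mul, Matrix.transpose_mul, Matrix.transpose_mul]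
    simp only [hG'def, mul_assoc]
  have hG₁c : ∀ i j, G₁ i j = C ((G₁ i j).coeff 0) := by
    intro i j
    apply dg_poly0_Const
    have h1 : algebraMap E[X] (RatFunc E) (G₁ i j) = (N.transpose * G' * N) i j := by
      rw [hNG]; rfl
    rw [h1, Matrix.mul_apply]
    apply dg_sum_Const
    intro k _
    rw [Matrix.mul_apply]
    have h3 : Dg_Const (∑ l, N.transpose i l * G' l k) 0 := by
      apply dg_sum_Const
      intro l _
      have := dg_mul_Const (hPdg l i) (hG'dg l k)
      simpa using this
    have := dg_mul_Const h3 (hPdg k j)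
    simpa using this
  set G₀ : Matrix ι ι E := Matrix.of fun i j => (G₁ i j).coeff 0 with hG₀
  have hG₁G₀ : ∀ i j, algebraMap E[X] (RatFunc E) (G₁ i j) = algebraMap E (RatFunc E) (G₀ i j) := by
    intro i j
    rw [hG₁c i j, amap_Const]; simp [hG₀]
  have hsym : ∀ i j, G₀ i j = G₀ j i := by
    intro i j
    apply (algebraMap E (RatFunc E)).injective
    rw [← hG₁G₀, ← hG₁G₀]
    have h1 := sym_Const a (B * P')
    rw [hBP] at h1
    have h3 := congrFun (congrFun h1 j) i
    exact h3
  -- diagonalisation
  haveI : Invertible (2 : E) := invertibleOfNonzero h2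
  set β : LinearMap.BilinForm E (ι → E) := Matrix.toBilin' G₀ with hβ
  have hβs : β.IsSymm := by
    constructor
    intro x y
    rw [hβ, Matrix.toBilin'_apply', Matrix.toBilin'_apply']
    simp only [dotProduct, Matrix.mulVec, Finset.mul_sum]
    rw [Finset.sum_comm]
    refine Finset.sum_congr rfl fun i _ => Finset.sum_congr rfl fun j _ => ?_
    rw [hsym i j]; ring
  obtain ⟨v, hv⟩ := LinearMap.BilinForm.exists_orthogonal_basis
    (LinearMap.BilinForm.isSymm_iff.1 hβs)
  have hcard : Fintype.card ι = Module.finrank E (ι → E) := by simp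
  let ε : ι ≃ Fin (Module.finrank E (ι → E)) := Fintype.equivFinOfCardEq hcard
  set V : ι → ι → RatFunc E := fun j =>
    (B * P').mulVec (fun i => algebraMap E (RatFunc E) (v (ε j) i)) with hV
  have hbf : ∀ i j, bf a (V i) (V j) = algebraMap E (RatFunc E) (β (v (ε i)) (v (ε j))) := by
    intro i j
    rw [hV, gram_Const, hBP, hβ, Matrix.toBilin'_apply']
    simp only [dotProduct, Matrix.mulVec, map_sum, map_mul, Matrix.map_apply, hG₁G₀]
  have hP'det : P'.det ≠ 0 := by
    have h3 := (RingHom.map_det (algebraMap E[X] (RatFunc E)) P).symm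
    rw [RingHom.mapMatrix_apply] at h3
    rw [hP', h3, hPdet]
    intro h
    exact he (C_eq_zero.1 ((map_eq_zero_iff _ hinj).1 h))
  have hBP0 : (B * P').det ≠ 0 := by rw [Matrix.det_mul]; exact mul_ne_zero hB hP'det
  refine ⟨fun j => β (v (ε j)) (v (ε j)), ?_, V, ?_, ?_⟩
  · intro j hj
    change β (v (ε j)) (v (ε j)) = 0 at hj
    have h1 : qf a (V j) = 0 := by rw [← bf_self, hbf, hj, map_zero]
    have h3 := Matrix.eq_zero_of_mulVec_eq_zero hBP0 (hA _ h1)
    apply v.ne_zero (ε j)
    funext i
    exact (map_eq_zero _).1 (congrFun h3 i)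
  · intro i j hij
    rw [hbf]
    have h1 : β (v (ε i)) (v (ε j)) = 0 := hv (fun h => hij (ε.injective h))
    rw [h1, map_zero]
  · intro j
    rw [← bf_self, hbf]; rfl

end Pool.Agent.Helper44.RED
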