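import Pool.Agent.Helper44.RED.StB

/-!
# Project RED, module DESC: descent of unimodular lattices along the Gauss extension
-/

set_option autoImplicit false

open Polynomial

namespace Pool.Agent.Helper44.RED

section desc

variable {E : Type} [Field E]

/-- description of the Gauss extension -/
private def GaussI (O : ValuationSubring E) (O' : ValuationSubring (RatFunc E)) : Prop :=
  ∀ z : RatFunc E, z ∈ O' ↔ ∃ f g : E[X], (∀ i, f.coeff i ∈ O) ∧ (∀ i, g.coeff i ∈ O) ∧
      (∃ i, IsU O (g.coeff i)) ∧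
      z = algebraMap E[X] (RatFunc E) f / algebraMap E[X] (RatFunc E) g

variable {O : ValuationSubring E} {O' : ValuationSubring (RatFunc E)}

private lemma isU_one : IsU O (1 : E) := ⟨one_mem _, by rw [inv_one]; exact one_mem _, one_ne_zero⟩

private lemma coeff_one_mem (i : ℕ) : (1 : E[X]).coeff i ∈ O := by
  rw [coeff_one]; split_ifs
  · exact one_mem _
  · exact zero_mem _

private lemma poly_mem (h : GaussI O O') {f : E[X]} (hf : ∀ i, f.coeff i ∈ O) :
    algebraMap E[X] (RatFunc E) f ∈ O' :=
  (h _).2 ⟨f, 1, hf, coeff_one_mem, ⟨0, by rw [coeff_one_zero]; exact isU_one⟩, by simp⟩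

private lemma inv_mem_desc (h : GaussI O O') {g : E[X]} (hg : ∀ i, g.coeff i ∈ O)
    (hu : ∃ i, IsU O (g.coeff i)) : (algebraMap E[X] (RatFunc E) g)⁻¹ ∈ O' :=
  (h _).2 ⟨1, g, coeff_one_mem, hg, hu, by simp⟩

private lemma am_C (z : E) : algebraMap E[X] (RatFunc E) (C z) = algebraMap E (RatFunc E) z :=
  (IsScalarTower.algebraMap_apply E E[X] (RatFunc E) z).symm

private lemma const_mem (h : GaussI O O') {z : E} (hz : z ∈ O) :
    algebraMap E (RatFunc E) z ∈ O' := by
  rw [← am_C]
  refine poly_mem h fun i => ?_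
  rw [coeff_C]; split_ifs
  · exact hz
  · exact zero_mem _

private lemma of_const_mem (h : GaussI O O') {z : E} (hz : algebraMap E (RatFunc E) z ∈ O') :
    z ∈ O := by
  obtain ⟨f, g, hf, hg, ⟨i, hi⟩, he⟩ := (h _).1 hz
  have hg0 : algebraMap E[X] (RatFunc E) g ≠ 0 := by
    intro h0
    rw [map_eq_zero_iff _ (IsFractionRing.injective E[X] (RatFunc E))] at h0
    rw [h0, coeff_zero] at hi
    exact hi.2.2 rfl
  rw [eq_div_iff hg0, ← am_C, ← map_mul] at he
  have he' := IsFractionRing.injective E[X] (RatFunc E) he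
  have h1 := congrArg (fun p => p.coeff i) he'
  simp only [coeff_C_mul] at h1
  have : z = f.coeff i * (g.coeff i)⁻¹ := by
    rw [← h1, mul_assoc, mul_inv_cancel₀ hi.2.2, mul_one]
  rw [this]
  exact mul_mem (hf i) hi.2.1

/-- the coefficients of a polynomial which is integral for the Gauss extension are integral -/
private lemma coeff_mem_desc (h : GaussI O O') {P : E[X]}
    (hP : algebraMap E[X] (RatFunc E) P ∈ O') (i : ℕ) : P.coeff i ∈ O := by
  by_cases hP0 : P = 0
  · rw [hP0, coeff_zero]; exact zero_mem _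
  have hs : P.support.Nonempty := nonempty_support_iff.2 hP0
  obtain ⟨m, hm, hmax⟩ := P.support.exists_max_image (fun j => O.valuation (P.coeff j)) hs
  have hm0 : P.coeff m ≠ 0 := mem_support_iff.1 hm
  have hle : ∀ j, P.coeff j * (P.coeff m)⁻¹ ∈ O := by
    intro j
    by_cases hj : j ∈ P.support
    · rw [← O.valuation_le_one_iff, map_mul, map_inv₀]
      exact mul_inv_le_one_of_le₀ (hmax j hj) zero_le'
    · rw [notMem_support_iff.1 hj, zero_mul]; exact zero_mem _
  have h1 : (algebraMap E[X] (RatFunc E) (C (P.coeff m)⁻¹ * P))⁻¹ ∈ O' := by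
    refine inv_mem_desc h (fun j => ?_) ⟨m, ?_⟩
    · rw [coeff_C_mul, mul_comm]; exact hle j
    · rw [coeff_C_mul, inv_mul_cancel₀ hm0]; exact isU_one
  have hP1 : algebraMap E[X] (RatFunc E) P ≠ 0 := by
    rwa [Ne, map_eq_zero_iff _ (IsFractionRing.injective E[X] (RatFunc E))]
  have h2 : algebraMap E (RatFunc E) (P.coeff m) ∈ O' := by
    have e : algebraMap E (RatFunc E) (P.coeff m) = algebraMap E[X] (RatFunc E) P *
        (algebraMap E[X] (RatFunc E) (C (P.coeff m)⁻¹ * P))⁻¹ := by
      rw [map_mul, am_C, map_inv₀, mul_inv, inv_inv]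
      field_simp
    rw [e]
    exact mul_mem hP h1
  have h3 := of_const_mem h h2
  have e : P.coeff i = P.coeff i * (P.coeff m)⁻¹ * P.coeff m := by
    rw [mul_assoc, inv_mul_cancel₀ hm0, mul_one]
  rw [e]
  exact mul_mem (hle i) h3

/-- common denominators -/
private lemma common_den (h : GaussI O O') {ι : Type} [Fintype ι] (y : ι → RatFunc E)
    (hy : ∀ i, y i ∈ O') :
    ∃ (q : E[X]) (Y : ι → E[X]), algebraMap E[X] (RatFunc E) q ∈ O' ∧
      (algebraMap E[X] (RatFunc E) q)⁻¹ ∈ O' ∧ algebraMap E[X] (RatFunc E) q ≠ 0 ∧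
      ∀ i, algebraMap E[X] (RatFunc E) (Y i) = algebraMap E[X] (RatFunc E) q * y i := by
  classical
  choose f g hf hg hu he using fun i => (h _).1 (hy i)
  have hg0 : ∀ i, algebraMap E[X] (RatFunc E) (g i) ≠ 0 := by
    intro i h0
    rw [map_eq_zero_iff _ (IsFractionRing.injective E[X] (RatFunc E))] at h0
    obtain ⟨j, hj⟩ := hu i
    rw [h0, coeff_zero] at hj
    exact hj.2.2 rfl
  refine ⟨∏ i, g i, fun i => f i * ∏ j ∈ Finset.univ.erase i, g j, ?_, ?_, ?_, fun i => ?_⟩
  · rw [map_prod]; exact prod_mem fun i _ => poly_mem h (hg i)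
  · rw [map_prod, ← Finset.prod_inv_distrib]
    exact prod_mem fun i _ => inv_mem_desc h (hg i) (hu i)
  · rw [map_prod]; exact Finset.prod_ne_zero_iff.2 fun i _ => hg0 i
  · rw [← Finset.mul_prod_erase Finset.univ g (Finset.mem_univ i), map_mul, map_mul, he i]
    have := hg0 i
    field_simp

private lemma bf_eq_dot {ι : Type} [Fintype ι] [DecidableEq ι] (c : ι → E) (B : Matrix ι ι E)
    (hB0 : B.det ≠ 0) (u w : ι → E) :
    bf c u w = (B.transpose * Matrix.diagonal c).mulVec u ⬝ᵥ (B⁻¹).mulVec w := by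
  have hw : w = B.mulVec ((B⁻¹).mulVec w) := by
    rw [Matrix.mulVec_mulVec, Matrix.mul_nonsing_inv _ (isUnit_iff_ne_zero.2 hB0),
      Matrix.one_mulVec]
  conv_lhs => rw [hw]
  rw [← Matrix.mulVec_mulVec, Matrix.mulVec_transpose, ← Matrix.dotProduct_mulVec]
  unfold bf
  refine Finset.sum_congr rfl fun i _ => ?_
  rw [Matrix.mulVec_diagonal]; ring

private lemma bf_mem {ι : Type} [Fintype ι] [DecidableEq ι] (c : ι → E) (B : Matrix ι ι E)
    (hB0 : B.det ≠ 0) (u w : ι → E)
    (hu : ∀ i, (B.transpose * Matrix.diagonal c).mulVec u i ∈ O)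
    (hw : ∀ i, (B⁻¹).mulVec w i ∈ O) : bf c u w ∈ O := by
  rw [bf_eq_dot c B hB0]
  exact sum_mem fun i _ => mul_mem (hu i) (hw i)

private lemma key_desc {ι : Type} [Fintype ι] [DecidableEq ι] (c : ι → E) (B : Matrix ι ι E)
    (hB0 : B.det ≠ 0)
    (hmax : ∀ v : ι → E, (∀ i, (B.transpose * Matrix.diagonal c).mulVec v i ∈ O) → qf c v ∈ O →
      ∀ i, (B⁻¹).mulVec v i ∈ O)
    (V : ι → E[X])
    (hV : ∀ n i, (B.transpose * Matrix.diagonal c).mulVec (fun j => (V j).coeff n) i ∈ O)
    (hQ : ∀ n, (∑ i, C (c i) * V i ^ 2).coeff n ∈ O) :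
    ∀ n i, (B⁻¹).mulVec (fun j => (V j).coeff n) i ∈ O := by
  classical
  set N : ℕ := Finset.univ.sup fun j => (V j).natDegree with hN
  have main : ∀ k n, N + 1 ≤ n + k → ∀ i, (B⁻¹).mulVec (fun j => (V j).coeff n) i ∈ O := by
    intro k
    induction k with
    | zero =>
      intro n hn i
      have hz : (fun j => (V j).coeff n) = 0 := by
        funext j
        have h1 : (V j).natDegree ≤ N := Finset.le_sup (f := fun j => (V j).natDegree)
          (Finset.mem_univ j)
        exact coeff_eq_zero_of_natDegree_lt (by omega)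
      rw [hz, Matrix.mulVec_zero]; exact zero_mem _
    | succ k ih =>
      intro n hn
      have hgt : ∀ n', n < n' → ∀ i, (B⁻¹).mulVec (fun j => (V j).coeff n') i ∈ O :=
        fun n' hn' => ih n' (by omega)
      apply hmax _ (hV n)
      have hco : (∑ i, C (c i) * V i ^ 2).coeff (2 * n) =
          ∑ p ∈ Finset.HasAntidiagonal.antidiagonal (2 * n),
            bf c (fun j => (V j).coeff p.1) (fun j => (V j).coeff p.2) := by
        rw [finsetSum_coeff]
        unfold bf
        rw [Finset.sum_comm]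
        refine Finset.sum_congr rfl fun i _ => ?_
        rw [coeff_C_mul, sq, coeff_mul, Finset.mul_sum]
      have hmem : (n, n) ∈ Finset.HasAntidiagonal.antidiagonal (2 * n) := by
        rw [Finset.HasAntidiagonal.mem_antidiagonal]; ring
      rw [← Finset.add_sum_erase _ _ hmem] at hco
      have hrest : ∑ p ∈ (Finset.HasAntidiagonal.antidiagonal (2 * n)).erase (n, n),
            bf c (fun j => (V j).coeff p.1) (fun j => (V j).coeff p.2) ∈ O := by
        refine sum_mem fun p hp => ?_
        rw [Finset.mem_erase, Finset.HasAntidiagonal.mem_antidiagonal] at hp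
        obtain ⟨hne, hsum⟩ := hp
        rcases lt_trichotomy p.2 n with h | h | h
        · rw [bf_comm]
          exact bf_mem c B hB0 _ _ (hV _) (hgt _ (by omega))
        · exfalso; apply hne; ext
          · show p.1 = n; omega
          · exact h
        · exact bf_mem c B hB0 _ _ (hV _) (hgt _ h)
      have h2 : qf c (fun j => (V j).coeff n) =
          (∑ i, C (c i) * V i ^ 2).coeff (2 * n) -
          ∑ p ∈ (Finset.HasAntidiagonal.antidiagonal (2 * n)).erase (n, n),
            bf c (fun j => (V j).coeff p.1) (fun j => (V j).coeff p.2) := by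
        rw [hco, ← bf_self]; ring
      rw [h2]
      exact sub_mem (hQ _) hrest
  intro n i
  exact main (N + 1) n (by omega) i

end desc

theorem pDesc : StUnif → StGauss → StMaxEx → StLat → StDesc := by
  intro _ hG hM hL E ι _ _ _ O hO c hc
  have hc0 : ∀ i, c i ≠ 0 := fun i => hc.ne_zero i
  obtain ⟨O', hO', -, hGI⟩ := hG E O hO
  have hGI : GaussI O O' := hGI
  refine ⟨O', hO', fun z hz => const_mem hGI hz, fun hU => ?_⟩
  obtain ⟨B, hB0, hBint, hBmax⟩ := hM E ι O hO c hc0
  set φ : E →+* RatFunc E := algebraMap E (RatFunc E) with hφ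
  set A : Matrix ι ι E := B.transpose * Matrix.diagonal c with hA
  have hA0 : A.det ≠ 0 := by
    rw [hA, Matrix.det_mul, Matrix.det_transpose, Matrix.det_diagonal]
    exact mul_ne_zero hB0 (Finset.prod_ne_zero_iff.2 fun i _ => hc0 i)
  have hAmap : (B.map φ).transpose * Matrix.diagonal (im φ c) = A.map φ := by
    rw [hA, Matrix.map_mul, Matrix.diagonal_map (map_zero φ)]
    rfl
  have hGmap : (B.map φ).transpose * Matrix.diagonal (im φ c) * B.map φ =
      (A * B).map φ := by
    rw [hAmap]
    exact (Matrix.map_mul (L := A) (M := B) (f := φ)).symm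
  have hdetmap : ∀ M : Matrix ι ι E, (M.map φ).det = φ M.det := fun M => (φ.map_det M).symm
  have hBinv : (B.map φ)⁻¹ = (B⁻¹).map φ := by
    have h1 : (B⁻¹).map φ * B.map φ = 1 := by
      rw [← Matrix.map_mul, Matrix.nonsing_inv_mul _ (isUnit_iff_ne_zero.2 hB0)]
      exact Matrix.map_one _ (map_zero φ) (map_one φ)
    exact Matrix.inv_eq_left_inv h1
  have hmax' : MaxLat O' (im φ c) (B.map φ) := by
    refine ⟨?_, fun i j => ?_, fun v hv hq i => ?_⟩
    · rw [hdetmap]; exact (map_ne_zero φ).2 hB0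
    · rw [hGmap, Matrix.map_apply]
      exact const_mem hGI (hBint i j)
    · rw [hAmap] at hv
      obtain ⟨q, Y, hq1, hq2, hq0, hY⟩ := common_den hGI _ hv
      -- the polynomial vector `V = A⁻¹ Y`
      set V : ι → E[X] := fun i => ∑ j, C (A⁻¹ i j) * Y j with hVdef
      have hVv : ∀ i, algebraMap E[X] (RatFunc E) (V i) =
          algebraMap E[X] (RatFunc E) q * v i := by
        intro i
        have hinv : (A⁻¹).map φ * A.map φ = 1 := by
          rw [← Matrix.map_mul, Matrix.nonsing_inv_mul _ (isUnit_iff_ne_zero.2 hA0)]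
          exact Matrix.map_one _ (map_zero φ) (map_one φ)
        have h2 : v i = ∑ j, φ (A⁻¹ i j) * (A.map φ).mulVec v j := by
          have h3 : v = ((A⁻¹).map φ).mulVec ((A.map φ).mulVec v) := by
            rw [Matrix.mulVec_mulVec, hinv, Matrix.one_mulVec]
          conv_lhs => rw [h3]
          rfl
        rw [h2, hVdef, map_sum, Finset.mul_sum]
        refine Finset.sum_congr rfl fun j _ => ?_
        rw [map_mul, am_C, hY j]; ring
      have hAV : ∀ n i, A.mulVec (fun j => (V j).coeff n) i = (Y i).coeff n := by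
        intro n i
        have h3 : (fun j => (V j).coeff n) = (A⁻¹).mulVec (fun j => (Y j).coeff n) := by
          funext j
          rw [hVdef]
          simp only [finsetSum_coeff, coeff_C_mul]
          rfl
        rw [h3, Matrix.mulVec_mulVec, Matrix.mul_nonsing_inv _ (isUnit_iff_ne_zero.2 hA0),
          Matrix.one_mulVec]
      have hYO : ∀ i n, (Y i).coeff n ∈ O := by
        intro i n
        refine coeff_mem_desc hGI ?_ n
        rw [hY i]; exact mul_mem hq1 (hv i)
      have hQ : ∀ n, (∑ i, C (c i) * V i ^ 2).coeff n ∈ O := by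
        intro n
        refine coeff_mem_desc hGI ?_ n
        have h4 : algebraMap E[X] (RatFunc E) (∑ i, C (c i) * V i ^ 2) =
            algebraMap E[X] (RatFunc E) q ^ 2 * qf (im φ c) v := by
          rw [map_sum]
          unfold qf
          rw [Finset.mul_sum]
          refine Finset.sum_congr rfl fun i _ => ?_
          rw [map_mul, map_pow, am_C, hVv i]
          show _ = _ * (φ (c i) * v i ^ 2)
          ring
        rw [h4]
        exact mul_mem (pow_mem hq1 2) hq
      have hfin := key_desc (O := O) c B hB0 hBmax V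
        (fun n i => by rw [← hA, hAV n i]; exact hYO i n) hQ
      -- conclusion
      have h5 : ((B.map φ)⁻¹).mulVec v i = (algebraMap E[X] (RatFunc E) q)⁻¹ *
          algebraMap E[X] (RatFunc E) (∑ j, C (B⁻¹ i j) * V j) := by
        rw [hBinv, map_sum, Finset.mul_sum]
        show ∑ j, φ (B⁻¹ i j) * v j = _
        refine Finset.sum_congr rfl fun j _ => ?_
        rw [map_mul, am_C, hVv j]
        have h8 : (algebraMap E[X] (RatFunc E) q)⁻¹ * algebraMap E[X] (RatFunc E) q = 1 :=
          inv_mul_cancel₀ hq0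
        linear_combination (-(φ (B⁻¹ i j) * v j)) * h8
      rw [h5]
      refine mul_mem hq2 (poly_mem hGI fun n => ?_)
      have h6 : (∑ j, C (B⁻¹ i j) * V j).coeff n =
          (B⁻¹).mulVec (fun j => (V j).coeff n) i := by
        simp only [finsetSum_coeff, coeff_C_mul]
        rfl
      rw [h6]; exact hfin n i
  have h7 := hL (RatFunc E) ι O' hO' (im φ c) (B.map φ)
    (fun i => (map_ne_zero φ).2 (hc0 i)) hmax' hU
  rw [hGmap, hdetmap, ← map_inv₀] at h7
  exact ⟨B, hB0, hBint, of_const_mem hGI h7⟩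

end Pool.Agent.Helper44.RED
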