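import Pool.Agent.Helper44.RED.StD
import Pool.Agent.Helper44.RED.Fld

/-!
# RED module Fin1: rationality of the variety and isotropy
-/

set_option autoImplicit false

namespace Pool.Agent.Helper44.RED

attribute [local instance] MvPolynomial.algebraMvPolynomial in
/-- `Frac A → Frac A[X_1, …, X_p]` is purely transcendental -/
private theorem ext_Fin1 (k A : Type) [Field k] [CommRing A] [IsDomain A] [Algebra k A] (p : ℕ) :
    ∃ φ : FractionRing A →+* FractionRing (MvPolynomial (Fin p) A), PureExt φ ∧
      φ.comp (algebraMap k (FractionRing A)) =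
        algebraMap k (FractionRing (MvPolynomial (Fin p) A)) := by
  let B := MvPolynomial (Fin p) A
  let F := FractionRing A
  let F' := FractionRing B
  let g : A →+* F' := (algebraMap B F').comp MvPolynomial.C
  have hg : Function.Injective g :=
    (IsFractionRing.injective B F').comp (MvPolynomial.C_injective (Fin p) A)
  let φ : F →+* F' := IsFractionRing.lift hg
  have hφ : ∀ a : A, φ (algebraMap A F a) = algebraMap B F' (MvPolynomial.C a) := fun a =>
    IsFractionRing.lift_algebraMap hg a
  let z : Fin p → F' := fun i => algebraMap B F' (MvPolynomial.X i)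
  -- the evaluation map on polynomials over `A`
  have hev : ∀ P : B, MvPolynomial.eval₂Hom φ z (MvPolynomial.map (algebraMap A F) P) =
      algebraMap B F' P := by
    intro P
    induction P using MvPolynomial.induction_on with
    | C a =>
      rw [MvPolynomial.map_C, MvPolynomial.coe_eval₂Hom, MvPolynomial.eval₂_C, hφ]
    | add P Q hP hQ => rw [map_add, map_add, map_add, hP, hQ]
    | mul_X P i hP =>
      rw [map_mul, map_mul, map_mul, hP, MvPolynomial.map_X, MvPolynomial.coe_eval₂Hom,
        MvPolynomial.eval₂_X]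
  refine ⟨φ, ⟨p, z, ?_, ?_⟩, ?_⟩
  · -- independence
    unfold Indep
    rw [injective_iff_map_eq_zero]
    intro P hP
    have hloc : IsLocalization ((nonZeroDivisors A).map (MvPolynomial.C : A →+* B))
        (MvPolynomial (Fin p) F) := MvPolynomial.isLocalization (nonZeroDivisors A) F
    obtain ⟨⟨P₀, m⟩, hm⟩ := IsLocalization.surj
      ((nonZeroDivisors A).map (MvPolynomial.C : A →+* B)) P
    have h1 : MvPolynomial.eval₂Hom φ z (MvPolynomial.map (algebraMap A F) P₀) = 0 := by
      have h2 : MvPolynomial.map (algebraMap A F) P₀ =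
          P * algebraMap B (MvPolynomial (Fin p) F) m := hm.symm
      rw [h2, map_mul, hP, zero_mul]
    rw [hev] at h1
    have h3 : P₀ = 0 := by
      apply IsFractionRing.injective B F'
      rw [h1, map_zero]
    have h4 : P * algebraMap B (MvPolynomial (Fin p) F) m = 0 := by
      rw [hm, h3, map_zero]
    have h5 : IsUnit (algebraMap B (MvPolynomial (Fin p) F) m) :=
      IsLocalization.map_units _ m
    exact (h5.mul_left_eq_zero).1 h4
  · -- generation
    have hS : ∀ P : B, algebraMap B F' P ∈ Subfield.closure (Set.range φ ∪ Set.range z) := by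
      intro P
      induction P using MvPolynomial.induction_on with
      | C a => exact Subfield.subset_closure (Or.inl ⟨_, hφ a⟩)
      | add P Q hP hQ => rw [map_add]; exact add_mem hP hQ
      | mul_X P i hP =>
        rw [map_mul]
        exact mul_mem hP (Subfield.subset_closure (Or.inr ⟨i, rfl⟩))
    unfold GenBy
    rw [eq_top_iff]
    intro x _
    obtain ⟨a, b, hb⟩ := IsFractionRing.div_surjective (A := B) x
    rw [← hb.2]
    exact div_mem (hS a) (hS b)
  · ext c
    rw [RingHom.comp_apply, IsScalarTower.algebraMap_apply k A F, hφ,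
      IsScalarTower.algebraMap_apply k B F']
    rfl

private theorem bfam_ne_Fin1 {k : Type} [Field k] {t' c : ℕ} (e : ℕ)
    (C : Fin c → MvPolynomial (Fin (t' + 1)) k) (hC : ∀ l, C l ≠ 0) (l : Fin (c + e)) :
    bfam e C l ≠ 0 := by
  unfold bfam
  refine Fin.addCases (fun j => ?_) (fun j => ?_) l
  · rw [Fin.append_left]
    intro h
    exact hC j (MvPolynomial.rename_injective _ (Fin.castAdd_injective _ _) (h.trans (map_zero _).symm))
  · rw [Fin.append_right]
    exact mul_ne_zero (MvPolynomial.X_ne_zero _) (MvPolynomial.X_ne_zero _)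

/-- `<1, C>` isotropic implies `<1, b>` isotropic -/
private theorem iso_Fin1 {k : Type} [Field k] {t' c : ℕ} (e : ℕ)
    (C : Fin c → MvPolynomial (Fin (t' + 1)) k) (hC : ∀ l, C l ≠ 0)
    (h : Aniso (one (toKT (bfam e C)))) : Aniso (one (toKT C)) := by
  let R := MvPolynomial (Fin (t' + 1)) k
  let R' := MvPolynomial (Fin (t' + 1 + e)) k
  let ρ : R →+* R' := (MvPolynomial.rename (Fin.castAdd e) : R →ₐ[k] R').toRingHom
  have hρ : Function.Injective ρ := MvPolynomial.rename_injective _ (Fin.castAdd_injective _ _)
  let g : R →+* KT k (t' + 1 + e) := (algebraMap R' (KT k (t' + 1 + e))).comp ρ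
  have hg : Function.Injective g := (IsFractionRing.injective R' (KT k (t' + 1 + e))).comp hρ
  let φ : KT k (t' + 1) →+* KT k (t' + 1 + e) := IsFractionRing.lift hg
  have hφ : ∀ a : R, φ (algebraMap R (KT k (t' + 1)) a) =
      algebraMap R' (KT k (t' + 1 + e)) (MvPolynomial.rename (Fin.castAdd e) a) := fun a =>
    IsFractionRing.lift_algebraMap hg a
  let ε : Fin (c + 1) → Fin (c + e + 1) := Fin.cases 0 (fun j => (Fin.castAdd e j).succ)
  have hε : Function.Injective ε := by
    intro a b hab
    induction a using Fin.cases with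
    | zero =>
      induction b using Fin.cases with
      | zero => rfl
      | succ b =>
        have h1 : (0 : Fin (c + e + 1)) = (Fin.castAdd e b).succ := hab
        exact absurd h1 (Fin.succ_ne_zero _).symm
    | succ a =>
      induction b using Fin.cases with
      | zero =>
        have h1 : (Fin.castAdd e a).succ = (0 : Fin (c + e + 1)) := hab
        exact absurd h1 (Fin.succ_ne_zero _)
      | succ b =>
        have h1 : (Fin.castAdd e a).succ = (Fin.castAdd e b).succ := hab
        rw [Fin.castAdd_injective _ _ (Fin.succ_injective _ h1)]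
  have hform : (fun j => one (toKT (bfam e C)) (ε j)) = im φ (one (toKT C)) := by
    funext j
    induction j using Fin.cases with
    | zero =>
      show (1 : KT k (t' + 1 + e)) = φ 1
      rw [map_one]
    | succ j =>
      show toKT (bfam e C) (Fin.castAdd e j) = φ (toKT C j)
      unfold toKT
      rw [hφ]
      unfold bfam
      rw [Fin.append_left]
  have hne : ∀ j, im φ (one (toKT C)) j ≠ 0 := by
    intro j
    unfold im
    rw [map_ne_zero]
    induction j using Fin.cases with
    | zero => exact one_ne_zero
    | succ j =>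
      show toKT C j ≠ 0
      unfold toKT
      intro h0
      exact hC j (IsFractionRing.injective R (KT k (t' + 1)) (h0.trans (map_zero _).symm))
  have hemb : Emb (im φ (one (toKT C))) (one (toKT (bfam e C))) := by
    rw [← hform]
    exact Emb.comp_inj _ ε hε
  exact Aniso.of_im (h.of_emb hne hemb)

theorem pFin1 : StXVar → StXRat → StXNot → StPureIso → StFin1 := by
  intro hXV hXR hXN hPI k _ _ _ t' c e n M hn hce hc C σ hC hCh hσ hGP hNC
  have h2 : (2 : k) ≠ 0 := two_ne_zero
  have hb0 : ∀ l, bfam e C l ≠ 0 := bfam_ne_Fin1 e C hC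
  obtain ⟨hprime, hXF⟩ := hXV k h2 (t' + 1 + e) n (c + e) M (bfam e C) σ (by omega) hce hb0 hσ
  have hM : 1 ≤ M := by
    by_contra hM
    have hM0 : M = 0 := by omega
    subst hM0
    have h1 := hNC (fun _ => 1) (fun i => i.elim0)
    have h2 := congrFun h1 ⟨0, by omega⟩
    exact one_ne_zero h2
  have := hprime
  let A := MvPolynomial (VI (t' + 1 + e) n (c + e) M) k ⧸ XI n (bfam e C) σ
  have : IsDomain A := Ideal.Quotient.isDomain _
  let F := FractionRing A
  let θ : A →ₐ[k] F := IsScalarTower.toAlgHom k A F
  have hX := hXF F θ (IsFractionRing.injective A F) (fun z => by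
    obtain ⟨a, b, hb⟩ := IsFractionRing.div_surjective (A := A) z
    exact ⟨a, b, hb.2.symm⟩)
  -- (a)
  have ha : ¬ Aniso (one (toKT C)) → PureExt (algebraMap k F) := by
    intro hA
    exact hXR k F h2 (t' + 1 + e) n (c + e) M (bfam e C) σ _ _ _ _ (by omega) hce hM hb0 hσ hX
      (fun h => hA (iso_Fin1 e C hC h))
  have hb : PureExt (algebraMap k F) → Rational k A := fun h => (hPI k F).1 h
  have hb' : Rational k A → PureExt (algebraMap k F) := fun h => (hPI k F).2 h
  have hcst : PureExt (algebraMap k F) → StRational k A := by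
    intro h
    obtain ⟨φ, hφ, hcomp⟩ := ext_Fin1 k A 0
    have h1 := h.comp hφ
    rw [hcomp] at h1
    exact ⟨0, (hPI k _).1 h1⟩
  have hd : StRational k A → ¬ Aniso (one (toKT C)) := by
    rintro ⟨p, N, hN⟩ hA
    obtain ⟨φ, hφ, hcomp⟩ := ext_Fin1 k A p
    have h1 : PureExt (algebraMap k (FractionRing (MvPolynomial (Fin p) A))) :=
      (hPI k _).2 ⟨N, hN⟩
    rw [← hcomp] at h1
    exact hXN k F _ h2 φ hφ t' c e n M hn hce hc C σ _ _ _ _ hC hCh hσ hGP hNC hX hA h1
  exact ⟨hprime, ⟨fun h => hd (hcst (hb' h)), fun h => hb (ha h)⟩,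
    ⟨hd, fun h => hcst (ha h)⟩⟩

end Pool.Agent.Helper44.RED
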