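import Pool.Agent.Helper44.RED.StB

/-!
# Project RED: global unimodular lattice over `E[X]`
-/

set_option autoImplicit false

open Polynomial

namespace Pool.Agent.Helper44.RED

section local_ring

variable {E : Type} [Field E] {p : E[X]} {O : ValuationSubring (RatFunc E)}

private lemma inj_FinLat : Function.Injective (algebraMap E[X] (RatFunc E)) :=
  IsFractionRing.injective _ _

private lemma ne_FinLat {g : E[X]} (hg : g ≠ 0) : algebraMap E[X] (RatFunc E) g ≠ 0 := by
  intro h
  exact hg (inj_FinLat (by rw [h, map_zero]))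

private lemma ne_dvd_FinLat {g : E[X]} (hg : ¬ p ∣ g) : algebraMap E[X] (RatFunc E) g ≠ 0 :=
  ne_FinLat fun h => hg (h ▸ dvd_zero p)

private lemma poly_mem_FinLat (hp : Irreducible p)
    (hO : ∀ z : RatFunc E, z ∈ O ↔ ∃ f g : E[X], ¬ p ∣ g ∧
      z = algebraMap E[X] (RatFunc E) f / algebraMap E[X] (RatFunc E) g) (f : E[X]) :
    algebraMap E[X] (RatFunc E) f ∈ O :=
  (hO _).2 ⟨f, 1, fun h => hp.not_isUnit (isUnit_of_dvd_one h), by rw [map_one, div_one]⟩

private lemma approx_FinLat (hp : Irreducible p)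
    (hO : ∀ z : RatFunc E, z ∈ O ↔ ∃ f g : E[X], ¬ p ∣ g ∧
      z = algebraMap E[X] (RatFunc E) f / algebraMap E[X] (RatFunc E) g) (x : RatFunc E)
    (hx : x ∈ O) :
    ∃ z : E[X], (x - algebraMap E[X] (RatFunc E) z) / algebraMap E[X] (RatFunc E) p ∈ O := by
  obtain ⟨f, g, hg, rfl⟩ := (hO _).1 hx
  obtain ⟨u, v, huv⟩ := (hp.coprime_iff_not_dvd).2 hg
  refine ⟨f * v, (hO _).2 ⟨f * u, g, hg, ?_⟩⟩
  have h1 := ne_dvd_FinLat hg
  have h2 : algebraMap E[X] (RatFunc E) p ≠ 0 := ne_FinLat hp.ne_zero
  have h3 : algebraMap E[X] (RatFunc E) u * algebraMap E[X] (RatFunc E) p +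
      algebraMap E[X] (RatFunc E) v * algebraMap E[X] (RatFunc E) g = 1 := by
    rw [← map_mul, ← map_mul, ← map_add, huv, map_one]
  rw [map_mul, map_mul, div_sub' h1, div_div, div_eq_div_iff (mul_ne_zero h1 h2) h1]
  linear_combination (-(algebraMap E[X] (RatFunc E) f * algebraMap E[X] (RatFunc E) g)) * h3

private lemma int_FinLat (hp : Irreducible p)
    (hO : ∀ z : RatFunc E, z ∈ O ↔ ∃ f g : E[X], ¬ p ∣ g ∧
      z = algebraMap E[X] (RatFunc E) f / algebraMap E[X] (RatFunc E) g) (x : RatFunc E)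
    (hx : x ∈ O) (k : ℕ) (y : E[X])
    (hy : x * algebraMap E[X] (RatFunc E) p ^ k = algebraMap E[X] (RatFunc E) y) :
    ∃ u : E[X], algebraMap E[X] (RatFunc E) u = x := by
  obtain ⟨f, g, hg, rfl⟩ := (hO _).1 hx
  have h1 := ne_dvd_FinLat hg
  have h2 : algebraMap E[X] (RatFunc E) p ≠ 0 := ne_FinLat hp.ne_zero
  have h3 : f * p ^ k = y * g := by
    apply inj_FinLat
    rw [map_mul, map_mul, map_pow, ← hy]
    field_simp
  have h4 : p ^ k ∣ y * g := ⟨f, by rw [← h3, mul_comm]⟩
  have h5 : IsCoprime (p ^ k) g := ((hp.coprime_iff_not_dvd).2 hg).pow_left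
  obtain ⟨u, hu⟩ := h5.dvd_of_dvd_mul_right h4
  refine ⟨u, ?_⟩
  have h6 : p ^ k ≠ 0 := pow_ne_zero _ hp.ne_zero
  have h7 : f = u * g := by
    apply mul_right_cancel₀ h6
    rw [h3, hu]; ring
  rw [h7, map_mul, mul_div_assoc, div_self h1, mul_one]

end local_ring

section step

variable {E ι : Type} [Field E] [Fintype ι] [DecidableEq ι] {p : E[X]}
  {O : ValuationSubring (RatFunc E)}

omit [DecidableEq ι] in
private lemma sum_mem_FinLat (x y : ι → RatFunc E) (hx : ∀ i, x i ∈ O) (hy : ∀ i, y i ∈ O) :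
    x ⬝ᵥ y ∈ O := by
  unfold dotProduct
  exact sum_mem fun i _ => mul_mem (hx i) (hy i)

/-- the reduction step in coordinates -/
private lemma coord_FinLat (hp : Irreducible p)
    (hO : ∀ z : RatFunc E, z ∈ O ↔ ∃ f g : E[X], ¬ p ∣ g ∧
      z = algebraMap E[X] (RatFunc E) f / algebraMap E[X] (RatFunc E) g)
    (G : Matrix ι ι E[X]) (hsym : (G.map (algebraMap E[X] (RatFunc E))).transpose =
      G.map (algebraMap E[X] (RatFunc E)))
    (f : ι → RatFunc E)
    (h1 : ∀ i, (G.map (algebraMap E[X] (RatFunc E))).mulVec f i ∈ O)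
    (h2 : f ⬝ᵥ (G.map (algebraMap E[X] (RatFunc E))).mulVec f ∈ O) (h3 : ∃ i, f i ∉ O) :
    ∃ (T : Matrix ι ι (RatFunc E)) (G' : Matrix ι ι E[X]),
      T.det * algebraMap E[X] (RatFunc E) p = 1 ∧
      T.transpose * G.map (algebraMap E[X] (RatFunc E)) * T =
        G'.map (algebraMap E[X] (RatFunc E)) := by
  set A := G.map (algebraMap E[X] (RatFunc E)) with hA
  set P := algebraMap E[X] (RatFunc E) p with hP
  have hP0 : P ≠ 0 := ne_FinLat hp.ne_zero
  have hPO : P ∈ O := poly_mem_FinLat hp hO p
  -- a power of `p` makes `f` integral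
  have hden : ∃ j : ℕ, ∀ i, P ^ j * f i ∈ O := by
    obtain ⟨b, hb⟩ := IsLocalization.exist_integer_multiples
      (nonZeroDivisors E[X]) (Finset.univ : Finset ι) f
    have hb0 : (b : E[X]) ≠ 0 := nonZeroDivisors.ne_zero b.2
    obtain ⟨j, g, hg, hbg⟩ := WfDvdMonoid.max_power_factor hb0 hp
    refine ⟨j, fun i => ?_⟩
    obtain ⟨c, hc⟩ := hb i (Finset.mem_univ i)
    refine (hO _).2 ⟨c, g, hg, ?_⟩
    rw [hc, Algebra.smul_def, hbg, map_mul, map_pow]
    have := ne_dvd_FinLat hg
    rw [eq_div_iff this]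
    ring
  classical
  have hspec := Nat.find_spec hden
  have hmin := fun m => Nat.find_min hden (m := m)
  set j := Nat.find hden with hj
  have hj0 : j ≠ 0 := by
    intro h0
    obtain ⟨i, hi⟩ := h3
    apply hi
    have := hspec i
    rw [h0, pow_zero, one_mul] at this
    exact this
  obtain ⟨m, hm⟩ := Nat.exists_eq_succ_of_ne_zero hj0
  have hnot : ∃ i, P ^ m * f i ∉ O := by
    have := hmin m (by omega)
    exact not_forall.1 this
  obtain ⟨i₀, hi₀⟩ := hnot
  -- the unit `c`
  set c := P * (P ^ m * f i₀) with hc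
  have hcO : c ∈ O := by
    have := hspec i₀
    rw [hm, pow_succ] at this
    rw [hc]
    convert this using 1
    ring
  have hcinv : c⁻¹ ∈ O ∧ c ≠ 0 := by
    obtain ⟨α, β, hβ, hαβ⟩ := (hO _).1 hcO
    have hα : ¬ p ∣ α := by
      rintro ⟨γ, hγ⟩
      apply hi₀
      refine (hO _).2 ⟨γ, β, hβ, ?_⟩
      apply mul_left_cancel₀ hP0
      rw [← hc, hαβ, hγ, map_mul]
      ring
    refine ⟨(hO _).2 ⟨β, α, hα, by rw [hαβ, inv_div]⟩, ?_⟩
    rw [hαβ]
    exact div_ne_zero (ne_dvd_FinLat hα) (ne_dvd_FinLat hβ)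
  obtain ⟨hcinv, hc0⟩ := hcinv
  -- scaled vector
  set r := c⁻¹ * P ^ m with hr
  have hrO : r ∈ O := mul_mem hcinv (pow_mem hPO m)
  set g := r • f with hg
  have hg1 : ∀ i, A.mulVec g i ∈ O := by
    intro i
    rw [hg, Matrix.mulVec_smul, Pi.smul_apply, smul_eq_mul]
    exact mul_mem hrO (h1 i)
  have hg2 : g ⬝ᵥ A.mulVec g ∈ O := by
    rw [hg, Matrix.mulVec_smul, smul_dotProduct, dotProduct_smul, smul_eq_mul, smul_eq_mul]
    exact mul_mem hrO (mul_mem hrO h2)
  have hgi : g i₀ = P⁻¹ := by
    rw [hg, Pi.smul_apply, smul_eq_mul, hr]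
    have : P ^ m * f i₀ ≠ 0 := by
      intro h; apply hc0; rw [hc, h, mul_zero]
    rw [mul_assoc, hc, mul_inv, mul_assoc, inv_mul_cancel₀ this, mul_one]
  have hgP : ∀ i, P * g i ∈ O := by
    intro i
    have := hspec i
    rw [hm, pow_succ] at this
    have h := mul_mem hcinv this
    rw [hg, Pi.smul_apply, smul_eq_mul, hr]
    convert h using 1
    ring
  choose z hz using fun i => approx_FinLat hp hO _ (hgP i)
  set w : ι → E[X] := Function.update z i₀ 1 with hw
  set f' : ι → RatFunc E := fun i => algebraMap E[X] (RatFunc E) (w i) / P with hf'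
  have hdiff : ∀ i, (f' - g) i ∈ O := by
    intro i
    rw [Pi.sub_apply, hf']
    by_cases h : i = i₀
    · subst h
      simp only [hw, Function.update_self, map_one, hgi, one_div, sub_self]
      exact zero_mem O
    · simp only [hw, Function.update_of_ne h]
      have h' := neg_mem (hz i)
      rw [← hP] at h'
      convert h' using 1
      rw [sub_div, mul_div_cancel_left₀ _ hP0]
      ring
  have hAO : ∀ x : ι → RatFunc E, (∀ i, x i ∈ O) → ∀ i, A.mulVec x i ∈ O := by
    intro x hx i
    exact sum_mem_FinLat _ _ (fun j => poly_mem_FinLat hp hO (G i j)) hx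
  have hf1 : ∀ i, A.mulVec f' i ∈ O := by
    intro i
    have : f' = g + (f' - g) := by abel
    rw [this, Matrix.mulVec_add, Pi.add_apply]
    exact add_mem (hg1 i) (hAO _ hdiff i)
  have hf2 : f' ⬝ᵥ A.mulVec f' ∈ O := by
    have h : f' = g + (f' - g) := by abel
    have hs : ∀ x y : ι → RatFunc E, x ⬝ᵥ A.mulVec y = A.mulVec x ⬝ᵥ y := by
      intro x y
      rw [Matrix.dotProduct_mulVec, ← Matrix.mulVec_transpose, hsym]
    have : f' ⬝ᵥ A.mulVec f' = g ⬝ᵥ A.mulVec g + A.mulVec g ⬝ᵥ (f' - g) +
        (f' - g) ⬝ᵥ A.mulVec f' := by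
      rw [← hs g, ← dotProduct_add, ← Matrix.mulVec_add, ← h, ← add_dotProduct, ← h]
    rw [this]
    exact add_mem (add_mem hg2 (sum_mem_FinLat _ _ hg1 hdiff))
      (sum_mem_FinLat _ _ hdiff hf1)
  -- the matrix
  set t : ι → ι → RatFunc E := fun j => if j = i₀ then f' else Pi.single j 1 with ht
  have ht0 : t i₀ = f' := by simp [ht]
  have ht1 : ∀ j, j ≠ i₀ → t j = Pi.single j 1 := fun j hj => by simp [ht, hj]
  have hs : ∀ x y : ι → RatFunc E, x ⬝ᵥ A.mulVec y = A.mulVec x ⬝ᵥ y := by
    intro x y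
    rw [Matrix.dotProduct_mulVec, ← Matrix.mulVec_transpose, hsym]
  have hM1 : ∀ j i, A.mulVec (t j) i ∈ O := by
    intro j i
    by_cases h : j = i₀
    · rw [h, ht0]; exact hf1 i
    · rw [ht1 j h]
      apply hAO
      intro l
      by_cases hl : l = j
      · subst hl; rw [Pi.single_eq_same]; exact one_mem O
      · rw [Pi.single_eq_of_ne hl]; exact zero_mem O
  have hM : ∀ i j, t i ⬝ᵥ A.mulVec (t j) ∈ O := by
    intro i j
    by_cases hi : i = i₀
    · by_cases hj' : j = i₀
      · rw [hi, hj', ht0]; exact hf2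
      · rw [hs, ht1 j hj', dotProduct_single, mul_one]
        exact hM1 i j
    · rw [ht1 i hi, single_dotProduct, one_mul]
      exact hM1 j i
  set T : Matrix ι ι (RatFunc E) := Matrix.of fun i j => t j i with hT
  have hTM : ∀ i j, (T.transpose * A * T) i j = t i ⬝ᵥ A.mulVec (t j) := by
    intro i j
    rw [Matrix.mul_assoc, Matrix.mul_apply']
    congr 1
  -- integrality of the Gram matrix
  set T₀ : Matrix ι ι E[X] := Matrix.of fun i j => if j = i₀ then w i else if i = j then p else 0
    with hT₀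
  have hPT : T₀.map (algebraMap E[X] (RatFunc E)) = P • T := by
    ext i j
    rw [Matrix.map_apply, Matrix.smul_apply, hT₀, hT, Matrix.of_apply, Matrix.of_apply,
      smul_eq_mul]
    by_cases h : j = i₀
    · rw [h, if_pos rfl, ht0, hf']
      simp only
      rw [mul_div_cancel₀ _ hP0]
    · rw [if_neg h, ht1 j h]
      by_cases hi : i = j
      · rw [if_pos hi, hi, Pi.single_eq_same, mul_one]
      · rw [if_neg hi, Pi.single_eq_of_ne hi, map_zero, mul_zero]
  have hint : ∀ i j, ∃ u : E[X], algebraMap E[X] (RatFunc E) u = (T.transpose * A * T) i j := by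
    intro i j
    refine int_FinLat hp hO _ (by rw [hTM]; exact hM i j) 2 ((T₀.transpose * G * T₀) i j) ?_
    have h : (T₀.transpose * G * T₀).map (algebraMap E[X] (RatFunc E)) =
        P ^ 2 • (T.transpose * A * T) := by
      rw [Matrix.map_mul, Matrix.map_mul, Matrix.transpose_map, hPT, Matrix.transpose_smul,
        Matrix.smul_mul, Matrix.smul_mul, Matrix.mul_smul, smul_smul, pow_two]
    have h' := congrFun (congrFun h i) j
    rw [Matrix.map_apply, Matrix.smul_apply, smul_eq_mul] at h'
    rw [h', mul_comm]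
  choose G' hG' using hint
  refine ⟨T, Matrix.of G', ?_, ?_⟩
  · have : T = (1 : Matrix ι ι (RatFunc E)).updateCol i₀ f' := by
      ext i j
      rw [hT, Matrix.of_apply]
      by_cases h : j = i₀
      · rw [h, ht0, Matrix.updateCol_self]
      · rw [ht1 j h, Matrix.updateCol_ne h, Matrix.one_apply, Pi.single_apply]
    rw [this, ← Matrix.cramer_apply, Matrix.cramer_one]
    simp only [Module.End.one_apply, hf', hw, Function.update_self, map_one, one_div]
    exact inv_mul_cancel₀ hP0
  · ext i j
    rw [Matrix.map_apply, Matrix.of_apply, hG']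

end step

theorem pFinLat : StPadic → StLat → StFinLat := by
  intro hPadic hLat E ι _ _ _ a ha hunr
  classical
  -- admissible pairs
  let Q : ℕ → Prop := fun m => ∃ (B : Matrix ι ι (RatFunc E)) (G : Matrix ι ι E[X]),
    B.det ≠ 0 ∧ B.transpose * Matrix.diagonal a * B = G.map (algebraMap E[X] (RatFunc E)) ∧
      G.det.natDegree = m
  have hdet : ∀ (B : Matrix ι ι (RatFunc E)) (G : Matrix ι ι E[X]), B.det ≠ 0 →
      B.transpose * Matrix.diagonal a * B = G.map (algebraMap E[X] (RatFunc E)) →
      (B.transpose * Matrix.diagonal a * B).det = algebraMap E[X] (RatFunc E) G.det ∧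
        G.det ≠ 0 := by
    intro B G hB hG
    have h1 : (B.transpose * Matrix.diagonal a * B).det = algebraMap E[X] (RatFunc E) G.det := by
      rw [hG, RingHom.map_det]; rfl
    refine ⟨h1, fun h => ?_⟩
    rw [h, map_zero, Matrix.det_mul, Matrix.det_mul, Matrix.det_transpose, Matrix.det_diagonal]
      at h1
    exact mul_ne_zero (mul_ne_zero hB (Finset.prod_ne_zero_iff.2 fun i _ => ha i)) hB h1
  have hex : ∃ m, Q m := by
    obtain ⟨b, hb⟩ := IsLocalization.exist_integer_multiples
      (nonZeroDivisors E[X]) (Finset.univ : Finset ι) a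
    have hb0 : (b : E[X]) ≠ 0 := nonZeroDivisors.ne_zero b.2
    choose c hc using fun i => hb i (Finset.mem_univ i)
    refine ⟨_, algebraMap E[X] (RatFunc E) b • (1 : Matrix ι ι (RatFunc E)),
      Matrix.diagonal fun i => (b : E[X]) * c i, ?_, ?_, rfl⟩
    · rw [Matrix.det_smul, Matrix.det_one, mul_one]
      exact pow_ne_zero _ (ne_FinLat hb0)
    · rw [Matrix.transpose_smul, Matrix.transpose_one, Matrix.smul_mul, Matrix.one_mul,
        Matrix.mul_smul, Matrix.mul_one, Matrix.diagonal_map (map_zero _)]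
      ext i j
      by_cases h : i = j
      · subst h
        rw [Matrix.smul_apply, Matrix.smul_apply, Matrix.diagonal_apply_eq,
          Matrix.diagonal_apply_eq, map_mul, hc, smul_eq_mul, smul_eq_mul]
        congr 1
        rw [Algebra.smul_def]
      · rw [Matrix.smul_apply, Matrix.smul_apply, Matrix.diagonal_apply_ne _ h,
          Matrix.diagonal_apply_ne _ h, smul_zero, smul_zero]
  obtain ⟨B, G, hB, hG, hm⟩ := Nat.find_spec hex
  have hmin := fun m => Nat.find_min hex (m := m)
  obtain ⟨hd, hG0⟩ := hdet B G hB hG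
  have hsym : (G.map (algebraMap E[X] (RatFunc E))).transpose =
      G.map (algebraMap E[X] (RatFunc E)) := by
    rw [← hG, Matrix.transpose_mul, Matrix.transpose_mul, Matrix.transpose_transpose,
      Matrix.diagonal_transpose, Matrix.mul_assoc]
  -- no irreducible polynomial divides the Gram determinant
  have hnd : ∀ p : E[X], Irreducible p → ¬ p ∣ G.det := by
    intro p hp hpd
    obtain ⟨O, hOd, hO⟩ := hPadic E p hp
    have hmax : MaxLat O a B := by
      refine ⟨hB, fun i j => ?_, ?_⟩
      · rw [hG, Matrix.map_apply]; exact poly_mem_FinLat hp hO _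
      · intro v hv1 hv2
        by_contra hv3
        set f := (B⁻¹).mulVec v with hf
        have hBf : B.mulVec f = v := by
          rw [hf, Matrix.mulVec_mulVec, Matrix.mul_nonsing_inv _ (isUnit_iff_ne_zero.2 hB),
            Matrix.one_mulVec]
        have e1 : (B.transpose * Matrix.diagonal a).mulVec v =
            (G.map (algebraMap E[X] (RatFunc E))).mulVec f := by
          rw [← hBf, Matrix.mulVec_mulVec, hG]
        have e2 : qf a v = f ⬝ᵥ (G.map (algebraMap E[X] (RatFunc E))).mulVec f := by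
          rw [← e1, ← Matrix.mulVec_mulVec, Matrix.dotProduct_mulVec, ← Matrix.mulVec_transpose,
            Matrix.transpose_transpose, hBf]
          unfold qf dotProduct
          refine Finset.sum_congr rfl fun i _ => ?_
          rw [Matrix.mulVec_diagonal]
          ring
        rw [e1] at hv1
        rw [e2] at hv2
        obtain ⟨T, G', hT, hG'⟩ := coord_FinLat hp hO G hsym f hv1 hv2 (not_forall.1 hv3)
        have hTdet : T.det ≠ 0 := fun h => by rw [h, zero_mul] at hT; exact zero_ne_one hT
        have hB' : (B * T).det ≠ 0 := by rw [Matrix.det_mul]; exact mul_ne_zero hB hTdet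
        have hGr : (B * T).transpose * Matrix.diagonal a * (B * T) =
            G'.map (algebraMap E[X] (RatFunc E)) := by
          rw [← hG', ← hG, Matrix.transpose_mul]
          simp only [Matrix.mul_assoc]
        have hG'0 := (hdet _ _ hB' hGr).2
        have key : G'.det * p ^ 2 = G.det := by
          apply inj_FinLat
          have h1 : algebraMap E[X] (RatFunc E) G'.det = T.det * algebraMap E[X] (RatFunc E) G.det
              * T.det := by
            have h2 := congrArg Matrix.det hG'
            rw [Matrix.det_mul, Matrix.det_mul, Matrix.det_transpose] at h2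
            have h3 : ∀ H : Matrix ι ι E[X], (H.map (algebraMap E[X] (RatFunc E))).det =
                algebraMap E[X] (RatFunc E) H.det := fun H => by rw [RingHom.map_det]; rfl
            rw [h3, h3] at h2
            exact h2.symm
          rw [map_mul, map_pow, h1]
          linear_combination (algebraMap E[X] (RatFunc E) G.det) *
            (T.det * algebraMap E[X] (RatFunc E) p + 1) * hT
        refine hmin G'.det.natDegree ?_ ⟨B * T, G', hB', hGr, rfl⟩
        rw [← hm, ← key, Polynomial.natDegree_mul hG'0 (pow_ne_zero _ hp.ne_zero),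
          Polynomial.natDegree_pow]
        have := hp.natDegree_pos
        omega
    have hu := hLat (RatFunc E) ι O hOd a B ha hmax (hunr O hOd fun c => ?_)
    · rw [hd] at hu
      obtain ⟨f, g, hg, hfg⟩ := (hO _).1 hu
      apply hg
      have h1 := ne_dvd_FinLat hg
      have h2 := ne_FinLat hG0
      rw [eq_div_iff h1] at hfg
      have h3 : g = f * G.det := by
        apply inj_FinLat
        rw [map_mul, ← hfg]
        field_simp
      rw [h3]
      exact dvd_mul_of_dvd_right hpd _
    · have : algebraMap E (RatFunc E) c = algebraMap E[X] (RatFunc E) (C c) := by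
        rw [IsScalarTower.algebraMap_apply E E[X] (RatFunc E)]; rfl
      rw [this]
      exact poly_mem_FinLat hp hO _
  have hunit : IsUnit G.det := by
    by_contra h
    obtain ⟨p, hp, hpd⟩ := WfDvdMonoid.exists_irreducible_factor h hG0
    exact hnd p hp hpd
  obtain ⟨c, hc, hcG⟩ := Polynomial.isUnit_iff.1 hunit
  exact ⟨B, G, c, hB, hc.ne_zero, hG, hcG.symm⟩

end Pool.Agent.Helper44.RED
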