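import Pool.Agent.Helper44.RED.StB
import Pool.Agent.Helper44.RED.Fld

/-!
# Project RED: module Flag (iterated Laurent series)
-/

set_option autoImplicit false

namespace Pool.Agent.Helper44.RED

lemma Aniso.comp_inj_Flag {K ι κ : Type} [Field K] [Fintype ι] [Fintype κ] {a : ι → K}
    (h : Aniso a) (f : κ → ι) (hf : Function.Injective f) : Aniso (fun j => a (f j)) :=
  h.of_emb (fun j => h.ne_zero (f j)) (Emb.comp_inj a f hf)

theorem pFlag : StLaur → StFlag := by
  intro hLaur κ _ h2 e
  induction e with
  | zero =>
    refine ⟨κ, inferInstance, RingHom.id κ, Fin.elim0, ?_, ?_, ?_⟩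
    · intro p q hpq
      obtain ⟨a, rfl⟩ := MvPolynomial.C_surjective (Fin 0) p
      obtain ⟨b, rfl⟩ := MvPolynomial.C_surjective (Fin 0) q
      simp only [MvPolynomial.coe_eval₂Hom, MvPolynomial.eval₂_C, RingHom.id_apply] at hpq
      rw [hpq]
    · intro g _
      obtain ⟨a, rfl⟩ := MvPolynomial.C_surjective (Fin 0) g
      refine ⟨1, one_ne_zero, ?_⟩
      simp
    · intro d P c₀ _ hP
      have h1 := hP.comp_inj_Flag (Sum.elim id Fin.elim0 : Fin d ⊕ Fin 0 → Fin d) (by
        rintro (i | i) (j | j) hij
        · simpa using hij
        · exact j.elim0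
        · exact i.elim0
        · exact i.elim0)
      have e : (fun j => P ((Sum.elim id Fin.elim0 : Fin d ⊕ Fin 0 → Fin d) j))
          = Sum.elim (im (RingHom.id κ) P)
            (fun l : Fin 0 => (RingHom.id κ) c₀ * (Fin.elim0 : Fin 0 → κ) l) := by
        funext i
        rcases i with i | i
        · rfl
        · exact i.elim0
      rw [e] at h1
      exact h1
  | succ e ih =>
    obtain ⟨S, _, j, s, hind, hsq, hform⟩ := ih
    have h2S : (2 : S) ≠ 0 := by
      have := (map_ne_zero j).2 h2
      rwa [map_ofNat] at this
    obtain ⟨hL1, hL2⟩ := hLaur S h2S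
    let Cc : S →+* LaurentSeries S := HahnSeries.C
    let T : LaurentSeries S := HahnSeries.single (1 : ℤ) (1 : S)
    let s' : Fin (e + 1) → LaurentSeries S := Fin.cons T (fun i => Cc (s i))
    let ofP : PowerSeries S →+* LaurentSeries S := HahnSeries.ofPowerSeries ℤ S
    have hofP : Function.Injective ofP := HahnSeries.ofPowerSeries_injective
    let fs := MvPolynomial.finSuccEquiv κ e
    have hval : MvPolynomial.eval₂Hom (Cc.comp j) s' =
        (ofP.comp (Polynomial.coeToPowerSeries.ringHom)).comp
          ((Polynomial.mapRingHom (MvPolynomial.eval₂Hom j s)).comp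
            (fs : MvPolynomial (Fin (e + 1)) κ →+* Polynomial (MvPolynomial (Fin e) κ))) := by
      apply MvPolynomial.ringHom_ext
      · intro r
        simp [fs, ofP, Cc, MvPolynomial.finSuccEquiv_apply]
      · intro i
        refine Fin.cases ?_ (fun i => ?_) i
        · simp [fs, ofP, s', T, MvPolynomial.finSuccEquiv_apply]
        · simp [fs, ofP, s', Cc, MvPolynomial.finSuccEquiv_apply]
    have hval' : ∀ g, MvPolynomial.eval₂Hom (Cc.comp j) s' g =
        ofP ((((fs g).map (MvPolynomial.eval₂Hom j s) : Polynomial S)) : PowerSeries S) := by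
      intro g
      rw [hval]
      rfl
    refine ⟨LaurentSeries S, inferInstance, Cc.comp j, s', ?_, ?_, ?_⟩
    · intro p q hpq
      rw [hval', hval'] at hpq
      have h3 := Polynomial.coe_injective S (hofP hpq)
      have h4 := Polynomial.map_injective _ hind h3
      exact fs.injective h4
    · intro g hg
      rw [hval' g]
      set G := fs g with hG
      set p : PowerSeries S :=
        ((G.map (MvPolynomial.eval₂Hom j s) : Polynomial S) : PowerSeries S) with hp
      have hc0 : MvPolynomial.constantCoeff (G.coeff 0) = MvPolynomial.constantCoeff g := by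
        rw [MvPolynomial.constantCoeff_eq, MvPolynomial.constantCoeff_eq]
        have := MvPolynomial.finSuccEquiv_coeff_coeff (0 : Fin e →₀ ℕ) g 0
        rw [hG]
        rw [this]
        congr 1
        ext i
        refine Fin.cases ?_ (fun i => ?_) i
        · simp
        · simp
      obtain ⟨h, hh0, hh⟩ := hsq (G.coeff 0) (by rw [hc0]; exact hg)
      have hpc : PowerSeries.constantCoeff p = j (MvPolynomial.constantCoeff g) * h ^ 2 := by
        rw [← hc0, ← hh, hp, ← PowerSeries.coeff_zero_eq_constantCoeff_apply,
          Polynomial.coeff_coe, Polynomial.coeff_map]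
      have hne : PowerSeries.constantCoeff p ≠ 0 := by
        rw [hpc]
        exact mul_ne_zero ((map_ne_zero j).2 hg) (pow_ne_zero 2 hh0)
      obtain ⟨h', hh1, hh2⟩ := hL2 p hne
      refine ⟨Cc h * ofP h', ?_, ?_⟩
      · refine mul_ne_zero ((map_ne_zero Cc).2 hh0) ?_
        intro h0
        have h3 : h' = 0 := hofP (by rw [h0, map_zero])
        rw [h3, map_zero] at hh1
        exact zero_ne_one hh1
      · rw [hh2, map_mul, map_pow, hpc]
        have h5 : ofP (PowerSeries.C (j (MvPolynomial.constantCoeff g) * h ^ 2))
            = Cc (j (MvPolynomial.constantCoeff g) * h ^ 2) := by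
          simp only [ofP, Cc]
          rw [HahnSeries.ofPowerSeries_C]
        rw [h5, map_mul, map_pow]
        simp only [RingHom.comp_apply]
        ring
    · intro d P c₀ hc₀ hP
      have hA := hform d P c₀ hc₀ hP
      have hB : Aniso (fun _ : Unit => j c₀) := by
        intro z hz
        unfold qf at hz
        simp only [Finset.univ_unique, Finset.sum_singleton] at hz
        rcases mul_eq_zero.1 hz with h | h
        · exact absurd ((map_eq_zero j).1 h) hc₀
        · funext u
          exact (pow_eq_zero_iff two_ne_zero).1 h
      have h3 := hL1 (Fin d ⊕ Fin e) Unit _ _ hA hB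
      let f : Fin d ⊕ Fin (e + 1) → (Fin d ⊕ Fin e) ⊕ Unit :=
        Sum.elim (fun i => Sum.inl (Sum.inl i))
          (Fin.cons (Sum.inr ()) (fun l => Sum.inl (Sum.inr l)))
      have hf : Function.Injective f := by
        have hne : ∀ (i : Fin d) (l : Fin (e + 1)), f (Sum.inl i) ≠ f (Sum.inr l) := by
          intro i l
          refine Fin.cases ?_ (fun l => ?_) l
          · simp [f]
          · simp [f]
        rintro (i | i) (l | l) hil
        · simpa [f] using hil
        · exact absurd hil (hne i l)
        · exact absurd hil.symm (hne l i)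
        · congr 1
          revert hil
          refine Fin.cases ?_ (fun i => ?_) i
          · refine Fin.cases ?_ (fun l => ?_) l
            · intro _; rfl
            · intro h; simp [f] at h
          · refine Fin.cases ?_ (fun l => ?_) l
            · intro h; simp [f] at h
            · intro h; simp [f] at h; rw [h]
      have h4 := h3.comp_inj_Flag f hf
      have e : (fun i => (Sum.elim (im (HahnSeries.C : S →+* LaurentSeries S)
          (Sum.elim (im j P) (fun l => j c₀ * s l)))
          (fun _ : Unit => (HahnSeries.single (1 : ℤ) (1 : S) : LaurentSeries S) *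
            HahnSeries.C (j c₀))) (f i))
          = Sum.elim (im (Cc.comp j) P) (fun l => (Cc.comp j) c₀ * s' l) := by
        funext i
        rcases i with i | i
        · rfl
        · refine Fin.cases ?_ (fun i => ?_) i
          · simp only [f, Sum.elim_inr, Fin.cons_zero, s', T, Cc, RingHom.comp_apply]
            ring
          · simp only [f, Sum.elim_inr, Sum.elim_inl, Fin.cons_succ, s', Cc, RingHom.comp_apply, im,
              map_mul]
      rw [e] at h4
      exact h4

end Pool.Agent.Helper44.RED
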