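import Pool.Agent.Helper44.RED.StA

set_option autoImplicit false

namespace Pool.Agent.Helper44.RED

theorem pFlip : StFlip := by
  classical
  intro K ι κ _ _ _ a b hcard hb hemb
  obtain ⟨v, h0, h1⟩ := hemb
  let e : ι ≃ κ := Fintype.equivOfCardEq hcard
  let V : Matrix ι ι K := Matrix.of fun j i => v (e j) i
  have hentry : ∀ (W : Matrix ι ι K) (c : ι → K) (i i' : ι),
      (W * Matrix.diagonal c * W.transpose) i i' = ∑ j, c j * (W i j * W i' j) := by
    intro W c i i'
    rw [Matrix.mul_apply]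
    refine Finset.sum_congr rfl fun j _ => ?_
    rw [Matrix.mul_diagonal, Matrix.transpose_apply]
    ring
  have hV : V * Matrix.diagonal a * V.transpose = Matrix.diagonal (fun j => b (e j)) := by
    ext j j'
    rw [hentry]
    by_cases hj : j = j'
    · subst hj
      rw [Matrix.diagonal_apply_eq]
      have := h1 (e j)
      rw [← bf_self] at this
      exact this
    · rw [Matrix.diagonal_apply_ne _ hj]
      exact h0 (e j) (e j') (fun h => hj (e.injective h))
  have hdet := congrArg Matrix.det hV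
  rw [Matrix.det_mul, Matrix.det_mul, Matrix.det_diagonal, Matrix.det_diagonal] at hdet
  have hne : ∏ j, b (e j) ≠ 0 := Finset.prod_ne_zero_iff.2 fun j _ => hb (e j)
  rw [← hdet] at hne
  have hVdet : V.det ≠ 0 := left_ne_zero_of_mul (left_ne_zero_of_mul hne)
  have hadet : ∏ i, a i ≠ 0 := right_ne_zero_of_mul (left_ne_zero_of_mul hne)
  have hWV : V⁻¹ * V = 1 := Matrix.nonsing_inv_mul V (isUnit_iff_ne_zero.2 hVdet)
  have hW : V⁻¹ * Matrix.diagonal (fun j => b (e j)) * (V⁻¹).transpose = Matrix.diagonal a := by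
    rw [← hV]
    have h2 : V⁻¹ * (V * Matrix.diagonal a * V.transpose) * (V⁻¹).transpose
        = (V⁻¹ * V) * Matrix.diagonal a * (V⁻¹ * V).transpose := by
      rw [Matrix.transpose_mul]
      simp only [Matrix.mul_assoc]
    rw [h2, hWV, Matrix.transpose_one, Matrix.one_mul, Matrix.mul_one]
  have hbf : ∀ i i' : ι, bf b (fun k => V⁻¹ i (e.symm k)) (fun k => V⁻¹ i' (e.symm k))
      = Matrix.diagonal a i i' := by
    intro i i'
    rw [← hW, hentry]
    unfold bf
    exact Fintype.sum_equiv e.symm _ _ fun k => by simp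
  refine ⟨⟨fun i k => V⁻¹ i (e.symm k), fun i i' hii' => ?_, fun i => ?_⟩, fun i => ?_⟩
  · rw [hbf, Matrix.diagonal_apply_ne _ hii']
  · rw [← bf_self, hbf, Matrix.diagonal_apply_eq]
  · exact Finset.prod_ne_zero_iff.1 hadet i (Finset.mem_univ i)

end Pool.Agent.Helper44.RED
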