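import Pool.Agent.Helper44.RED.StA

/-!
# Project RED: module Round (Pfister forms are round)
-/

set_option autoImplicit false

namespace Pool.Agent.Helper44.RED

/-- round forms -/
def Rnd_Round {K ι : Type} [Field K] [Fintype ι] (a : ι → K) : Prop :=
  ∀ u : ι → K, qf a u ≠ 0 → Emb (fun i => qf a u * a i) a

lemma Rnd_Round.equiv {K ι ι' : Type} [Field K] [Fintype ι] [Fintype ι'] {a : ι → K}
    (e : ι' ≃ ι) (h : Rnd_Round (fun i => a (e i))) : Rnd_Round a := by
  intro u hu
  have h1 : qf (fun i => a (e i)) (fun i => u (e i)) = qf a u := by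
    unfold qf
    exact Equiv.sum_comp e (fun i => a i * u i ^ 2)
  have h2 := h (fun i => u (e i)) (by rw [h1]; exact hu)
  rw [h1] at h2
  have h3 := h2.restrict e.symm e.symm.injective
  simp only [Equiv.apply_symm_apply] at h3
  exact h3.trans (Emb.comp_inj a e e.injective)

lemma Emb.swap_Round {K ι κ κ' : Type} [Field K] [Fintype ι] [Fintype κ] [Fintype κ'] {a : ι → K} {b : κ → K}
    {b' : κ' → K} (h : Emb (Sum.elim b b') a) : Emb (Sum.elim b' b) a := by
  have h1 := h.restrict (Sum.swap : κ' ⊕ κ → κ ⊕ κ')
    (Function.LeftInverse.injective (g := Sum.swap) Sum.swap_swap)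
  have e : (fun j : κ' ⊕ κ => (Sum.elim b b' : κ ⊕ κ' → K) (Sum.swap j)) = Sum.elim b' b := by
    funext j; rcases j with j | j <;> rfl
  rwa [e] at h1

/-- `<c, α γ c> ⊗ a ⊂ <α, γ> ⊗ a` for `c = α + γ` -/
lemma binary_Round {K ι : Type} [Field K] [Fintype ι] (a : ι → K) (α γ : K) :
    Emb (Sum.elim (fun i => (α + γ) * a i) (fun i => α * γ * (α + γ) * a i))
      (Sum.elim (fun i => α * a i) (fun i => γ * a i)) := by
  classical
  refine ⟨Sum.elim (fun i => Sum.elim (Pi.single i 1) (Pi.single i 1))
    (fun i => Sum.elim (Pi.single i γ) (Pi.single i (-α))), ?_, ?_⟩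
  · rintro (i | i) (j | j) hij
    · have hij' : i ≠ j := fun h => hij (by rw [h])
      rw [bf_sumElim]
      simp only [Sum.elim_inl, Sum.elim_comp_inl, Sum.elim_comp_inr, bf_single_single,
        if_neg hij', add_zero]
    · rw [bf_sumElim]
      simp only [Sum.elim_inl, Sum.elim_inr, Sum.elim_comp_inl, Sum.elim_comp_inr,
        bf_single_single]
      split_ifs
      · ring
      · ring
    · rw [bf_sumElim]
      simp only [Sum.elim_inl, Sum.elim_inr, Sum.elim_comp_inl, Sum.elim_comp_inr,
        bf_single_single]
      split_ifs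
      · ring
      · ring
    · have hij' : i ≠ j := fun h => hij (by rw [h])
      rw [bf_sumElim]
      simp only [Sum.elim_inr, Sum.elim_comp_inl, Sum.elim_comp_inr, bf_single_single,
        if_neg hij', add_zero]
  · rintro (i | i)
    · rw [qf_sumElim]
      simp only [Sum.elim_inl, Sum.elim_comp_inl, Sum.elim_comp_inr, qf_single]
      ring
    · rw [qf_sumElim]
      simp only [Sum.elim_inr, Sum.elim_comp_inl, Sum.elim_comp_inr, qf_single]
      ring

lemma expand_Round {K ι : Type} [Field K] [Fintype ι] {a : ι → K} {α : K} (hα : α ≠ 0)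
    (h : Emb (fun i => α * a i) a) : Emb a (fun i => α * a i) := by
  have h1 : Emb (fun i => α * (α * a i)) (fun i => α * a i) := h.smul α
  have h2 := Emb.sq (fun i => α * (α * a i)) (fun _ => α⁻¹)
  have e : (fun i => α * (α * a i) * α⁻¹ ^ 2) = a := by
    funext i; field_simp
  rw [e] at h2
  exact h2.trans h1

lemma Rnd_Round.double {K ι : Type} [Field K] [Fintype ι] {a : ι → K} {y : K}
    (h : Rnd_Round a) : Rnd_Round (Sum.elim a (fun i => - y * a i)) := by
  intro u hu
  rw [qf_sumElim] at hu ⊢
  set α := qf a (u ∘ Sum.inl) with hα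
  have hβ : qf (fun i => - y * a i) (u ∘ Sum.inr) = - y * qf a (u ∘ Sum.inr) := by
    unfold qf; rw [Finset.mul_sum]; exact Finset.sum_congr rfl fun i _ => by ring
  rw [hβ] at hu ⊢
  set β := qf a (u ∘ Sum.inr) with hβ'
  set c := α + - y * β with hc
  by_cases hβ0 : β = 0
  · -- `c = α`
    have hcα : c = α := by rw [hc, hβ0]; ring
    rw [hcα] at hu ⊢
    have h1 : Emb (fun i => α * a i) a := h _ hu
    have h2 := Emb.sum h1 (h1.smul (- y))
    have e : (fun i => α * (Sum.elim a (fun i => - y * a i) : ι ⊕ ι → K) i)
        = Sum.elim (fun i => α * a i) (fun i => - y * (α * a i)) := by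
      funext i; rcases i with i | i
      · rfl
      · simp only [Sum.elim_inr]; ring
    rw [e]; exact h2
  · have h1 : Emb (fun i => β * a i) a := h _ hβ0
    by_cases hα0 : α = 0
    · have hcβ : c = - y * β := by rw [hc, hα0]; ring
      rw [hcβ]
      have h2 := (Emb.sq (fun i => β * a i) (fun _ => y)).trans h1
      have h3 := Emb.sum h2 (h1.smul (- y))
      have h4 := h3.swap_Round
      have e : (fun i => - y * β * (Sum.elim a (fun i => - y * a i) : ι ⊕ ι → K) i)
          = Sum.elim (fun i => - y * (β * a i)) (fun i => β * a i * y ^ 2) := by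
        funext i; rcases i with i | i
        · simp only [Sum.elim_inl]; ring
        · simp only [Sum.elim_inr]; ring
      rw [e]; exact h4
    · have h2 : Emb (fun i => α * a i) a := h _ hα0
      -- `<α, γ> ⊗ a ⊂ a ⊥ -y a`
      have h3 := Emb.sum h2 (h1.smul (- y))
      have h4 := binary_Round a α (- y * β)
      have e1 : (fun i => - y * (β * a i)) = (fun i => - y * β * a i) := by
        funext i; ring
      rw [e1] at h3
      have h5 := h4.trans h3
      -- `a ⊂ α β a`
      have h6 : Emb a (fun i => α * (β * a i)) :=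
        (expand_Round hα0 h2).trans ((expand_Round hβ0 h1).smul α)
      have h7 := h6.smul (- y * c)
      have h8 : Emb (Sum.elim (fun i => c * a i) (fun i => - y * c * a i))
          (Sum.elim (fun i => c * a i) (fun i => - y * c * (α * (β * a i)))) :=
        Emb.sum (Emb.refl _) h7
      have e2 : (fun i => - y * c * (α * (β * a i)))
          = (fun i => α * (- y * β) * (α + - y * β) * a i) := by
        funext i; rw [hc]; ring
      rw [e2] at h8
      have h9 := h8.trans h5
      have e : (fun i => c * (Sum.elim a (fun i => - y * a i) : ι ⊕ ι → K) i)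
          = Sum.elim (fun i => c * a i) (fun i => - y * c * a i) := by
        funext i; rcases i with i | i
        · rfl
        · simp only [Sum.elim_inr]; ring
      rw [e]; exact h9

/-- splitting subsets of `Fin (n+1)` -/
def split_Round (n : ℕ) : Finset (Fin n) ⊕ Finset (Fin n) ≃ Finset (Fin (n + 1)) where
  toFun := Sum.elim (fun T => T.map Fin.castSuccEmb)
    (fun T => insert (Fin.last n) (T.map Fin.castSuccEmb))
  invFun S := if Fin.last n ∈ S then Sum.inr (Finset.univ.filter fun i => Fin.castSucc i ∈ S)
    else Sum.inl (Finset.univ.filter fun i => Fin.castSucc i ∈ S)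
  left_inv := by
    have hl : ∀ T : Finset (Fin n), Fin.last n ∉ T.map Fin.castSuccEmb := by
      intro T h
      rw [Finset.mem_map] at h
      obtain ⟨i, -, hi⟩ := h
      exact absurd hi (Fin.castSucc_lt_last i).ne
    have hm : ∀ (T : Finset (Fin n)) (i : Fin n),
        Fin.castSucc i ∈ T.map Fin.castSuccEmb ↔ i ∈ T := by
      intro T i
      exact Finset.mem_map' Fin.castSuccEmb
    rintro (T | T)
    · simp only [Sum.elim_inl]
      rw [if_neg (hl T)]
      congr 1
      ext i
      simp only [Finset.mem_filter, Finset.mem_univ, true_and]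
      exact hm T i
    · simp only [Sum.elim_inr]
      rw [if_pos (Finset.mem_insert_self _ _)]
      congr 1
      ext i
      simp only [Finset.mem_filter, Finset.mem_univ, true_and, Finset.mem_insert]
      rw [hm T i]
      have : Fin.castSucc i ≠ Fin.last n := (Fin.castSucc_lt_last i).ne
      simp [this]
  right_inv := by
    intro S
    by_cases h : Fin.last n ∈ S
    · simp only [if_pos h, Sum.elim_inr]
      ext j
      refine Fin.lastCases ?_ (fun i => ?_) j
      · simp [h]
      · rw [Finset.mem_insert]
        have : Fin.castSucc i ≠ Fin.last n := (Fin.castSucc_lt_last i).ne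
        simp only [this, false_or]
        rw [show Fin.castSucc i = Fin.castSuccEmb i from rfl, Finset.mem_map']
        simp
    · simp only [if_neg h, Sum.elim_inl]
      ext j
      refine Fin.lastCases ?_ (fun i => ?_) j
      · simp only [h, iff_false]
        intro hj
        rw [Finset.mem_map] at hj
        obtain ⟨i, -, hi⟩ := hj
        exact absurd hi (Fin.castSucc_lt_last i).ne
      · rw [show Fin.castSucc i = Fin.castSuccEmb i from rfl, Finset.mem_map']
        simp

lemma pf_split_Round {R : Type} [CommRing R] {n : ℕ} (x : Fin (n + 1) → R) :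
    (fun i => pf x (split_Round n i)) = Sum.elim (pf (fun j => x (Fin.castSucc j)))
      (fun i => - x (Fin.last n) * pf (fun j => x (Fin.castSucc j)) i) := by
  funext i
  rcases i with T | T
  · simp only [split_Round, Equiv.coe_fn_mk, Sum.elim_inl, pf, Finset.prod_map]
    rfl
  · simp only [split_Round, Equiv.coe_fn_mk, Sum.elim_inr, pf]
    rw [Finset.prod_insert, Finset.prod_map]
    · rfl
    · intro h
      rw [Finset.mem_map] at h
      obtain ⟨i, -, hi⟩ := h
      exact absurd hi (Fin.castSucc_lt_last i).ne

theorem rnd_pf_Round {K : Type} [Field K] : ∀ (n : ℕ) (x : Fin n → K), Rnd_Round (pf x) := by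
  intro n
  induction n with
  | zero =>
    intro x u hu
    have e : (fun S => qf (pf x) u * pf x S) = (fun S => pf x S * (u ∅) ^ 2) := by
      funext S
      have hS : S = ∅ := by ext i; exact i.elim0
      have : qf (pf x) u = pf x ∅ * (u ∅) ^ 2 := by
        unfold qf
        rw [Finset.sum_eq_single ∅]
        · intro b _ hb
          exact absurd (by ext i; exact i.elim0) hb
        · intro h; exact absurd (Finset.mem_univ _) h
      rw [this, hS, pf_empty]; ring
    rw [e]
    exact Emb.sq (pf x) (fun _ => u ∅)
  | succ n ih =>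
    intro x
    apply Rnd_Round.equiv (split_Round n)
    rw [pf_split_Round]
    exact (ih _).double

theorem pRound : StRound := by
  intro K _ _ n x _ u hu
  exact rnd_pf_Round n x u hu

end Pool.Agent.Helper44.RED
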