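import Pool.Agent.Helper44.RED.Fld
import Pool.Agent.Helper44.RED.M_Round

/-!
# Project RED: module GPf (the generic Pfister form is anisotropic)
-/

set_option autoImplicit false

namespace Pool.Agent.Helper44.RED

private lemma aniso_equiv_GPf {K ι ι' : Type} [Field K] [Fintype ι] [Fintype ι'] {a : ι → K}
    (e : ι' ≃ ι) (h : Aniso (fun i => a (e i))) : Aniso a := by
  intro u hu
  have h1 : qf (fun i => a (e i)) (fun i => u (e i)) = 0 := by
    rw [← hu]
    unfold qf
    exact Equiv.sum_comp e (fun i => a i * u i ^ 2)
  have h2 := h _ h1
  funext i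
  have := congrFun h2 (e.symm i)
  simpa using this

theorem pGPf : StOdd → StGPf := by
  intro hOdd E F _ _ φ n
  induction n generalizing F with
  | zero =>
    intro x _ _ u hu
    funext S
    have hS : S = ∅ := Finset.eq_empty_of_isEmpty S
    have h1 : qf (pf x) u = u ∅ ^ 2 := by
      unfold qf
      rw [Finset.sum_eq_single (∅ : Finset (Fin 0))]
      · rw [pf_empty, one_mul]
      · intro T _ hT
        exact absurd (Finset.eq_empty_of_isEmpty T) hT
      · intro h
        exact absurd (Finset.mem_univ _) h
    rw [h1] at hu
    rw [hS]
    exact pow_eq_zero_iff (two_ne_zero) |>.1 hu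
  | succ n ih =>
    intro x hind hgen
    obtain ⟨L, ψ, z', h1, h2, h3, h4, h5, h6⟩ := peelLast hind hgen
    have hA : Aniso (pf z') := ih L ψ z' h3 h4
    have hB : Aniso (fun S => - pf z' S) := by
      intro u hu
      apply hA
      have h7 : qf (fun S => - pf z' S) u = - qf (pf z') u := by
        unfold qf
        rw [← Finset.sum_neg_distrib]
        exact Finset.sum_congr rfl fun S _ => by ring
      rw [h7] at hu
      exact neg_eq_zero.1 hu
    have h8 := hOdd L F _ _ L.subtype (x (Fin.last n)) h5 h6 (pf z') (fun S => - pf z' S) hA hB
    apply aniso_equiv_GPf (split_Round n)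
    have h9 : im L.subtype (pf z') = pf (fun i : Fin n => x i.castSucc) := by
      rw [← pf_im]
      congr 1
      funext i
      exact h2 i
    have h10 : (fun i => pf x (split_Round n i)) = Sum.elim (im L.subtype (pf z'))
        (fun j => x (Fin.last n) * L.subtype (- pf z' j)) := by
      rw [pf_split_Round, h9]
      congr 1
      funext S
      have h11 := congrFun h9 S
      rw [map_neg]
      have h12 : L.subtype (pf z' S) = pf (fun i : Fin n => x i.castSucc) S := h11
      rw [h12]
      ring
    rw [h10]
    exact h8

end Pool.Agent.Helper44.RED
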