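import Pool.Agent.Helper44.RED.StB

/-!
# Project RED: a DVR has a uniformizer
-/

set_option autoImplicit false

namespace Pool.Agent.Helper44.RED

theorem pUnif : StUnif := by
  intro F _ O hO
  obtain ⟨p, hp⟩ := IsDiscreteValuationRing.exists_irreducible O
  have hp0 : (p : F) ≠ 0 := fun h => hp.ne_zero (Subtype.ext h)
  have hunit : ∀ u : Oˣ, IsU O ((u : O) : F) := by
    intro u
    have h1 : (((u : O) : F)) * (((u⁻¹ : Oˣ) : O) : F) = 1 := by
      exact congrArg (fun z : O => (z : F)) (Units.mul_inv u)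
    have h0 : ((u : O) : F) ≠ 0 := fun h => by simp [h] at h1
    refine ⟨(u : O).2, ?_, h0⟩
    rw [← eq_inv_of_mul_eq_one_right h1]
    exact ((u⁻¹ : Oˣ) : O).2
  refine ⟨(p : F), p.2, hp0, ?_, ?_⟩
  · intro h
    apply hp.not_isUnit
    refine IsUnit.of_mul_eq_one ⟨(p : F)⁻¹, h⟩ ?_
    apply Subtype.ext
    exact mul_inv_cancel₀ hp0
  · intro z hz
    obtain ⟨n, u, hu⟩ := IsDiscreteValuationRing.exists_units_eq_smul_zpow_of_irreducible (K := F)
      hp hz
    refine ⟨-n, ?_⟩
    have h1 : z * (p : F) ^ (-n) = ((u : O) : F) := by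
      rw [hu, Units.smul_def, Algebra.smul_def]
      have h2 : algebraMap O F p = (p : F) := rfl
      have h3 : algebraMap O F (u : O) = ((u : O) : F) := rfl
      rw [h2, h3, mul_assoc, ← zpow_add₀ hp0]
      simp
    rw [h1]
    exact hunit u

end Pool.Agent.Helper44.RED
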