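import Pool.Agent.Helper44.RED.StB
import Pool.Agent.Helper44.RED.M_Unif

/-!
# Project RED: the Gauss extension of a DVR of `E` to `E(X)`
-/

set_option autoImplicit false

open Polynomial

namespace Pool.Agent.Helper44.RED

lemma isU_iff_Gauss {F : Type} [Field F] (O : ValuationSubring F) (u : O) :
    IsU O (u : F) ↔ IsUnit u := by
  constructor
  · rintro ⟨-, h1, h2⟩
    refine IsUnit.of_mul_eq_one ⟨(u : F)⁻¹, h1⟩ ?_
    apply Subtype.ext
    exact mul_inv_cancel₀ h2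
  · rintro ⟨u, rfl⟩
    have h1 : (((u : O) : F)) * (((u⁻¹ : Oˣ) : O) : F) = 1 := by
      exact congrArg (fun z : O => (z : F)) (Units.mul_inv u)
    have h0 : ((u : O) : F) ≠ 0 := fun h => by simp [h] at h1
    refine ⟨(u : O).2, ?_, h0⟩
    rw [← eq_inv_of_mul_eq_one_right h1]
    exact ((u⁻¹ : Oˣ) : O).2

/-- every nonzero element of `O` is a unit times a power of the uniformizer -/
lemma unif_pow_Gauss {F : Type} [Field F] {O : ValuationSubring F} {ϖ : F} (h : Unif O ϖ)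
    (x : O) (hx : x ≠ 0) : ∃ n : ℕ, Associated ((⟨ϖ, h.1⟩ : O) ^ n) x := by
  obtain ⟨hm, h0, hinv, hz⟩ := h
  have hx' : (x : F) ≠ 0 := fun h => hx (Subtype.ext h)
  obtain ⟨i, hi1, hi2, hi3⟩ := hz x hx'
  rcases le_or_gt i 0 with hle | hgt
  · obtain ⟨n, rfl⟩ : ∃ n : ℕ, i = -(n : ℤ) := ⟨i.natAbs, by omega⟩
    refine ⟨n, ?_⟩
    have hu : IsUnit (⟨(x : F) * ϖ ^ (-(n : ℤ)), hi1⟩ : O) :=
      (isU_iff_Gauss O _).1 ⟨hi1, hi2, hi3⟩
    obtain ⟨u, hu'⟩ := hu
    refine ⟨u, ?_⟩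
    apply Subtype.ext
    have h1 : ((u : O) : F) = (x : F) * ϖ ^ (-(n : ℤ)) := congrArg Subtype.val hu'
    show (((⟨ϖ, hm⟩ : O) ^ n : O) : F) * ((u : O) : F) = (x : F)
    rw [h1]
    have h2 : (((⟨ϖ, hm⟩ : O) ^ n : O) : F) = ϖ ^ n := rfl
    rw [h2, zpow_neg, zpow_natCast]
    field_simp
  · exfalso
    apply hinv
    obtain ⟨n, hn⟩ : ∃ n : ℕ, i = (n : ℤ) + 1 := ⟨(i - 1).toNat, by omega⟩
    have h1 : ϖ⁻¹ = ((x : F) * ϖ ^ n) * ((x : F) * ϖ ^ i)⁻¹ := by
      rw [hn, zpow_add_one₀ h0, zpow_natCast]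
      field_simp
    rw [h1]
    exact O.mul_mem _ _ (O.mul_mem _ _ x.2 (pow_mem hm n)) hi2

lemma dvr_of_unif_Gauss {F : Type} [Field F] {O : ValuationSubring F} {ϖ : F} (h : Unif O ϖ) :
    IsDiscreteValuationRing O := by
  apply IsDiscreteValuationRing.ofHasUnitMulPowIrreducibleFactorization
  have hnu : ¬ IsUnit (⟨ϖ, h.1⟩ : O) := by
    intro hu
    exact h.2.2.1 ((isU_iff_Gauss O _).2 hu).2.1
  have h0 : (⟨ϖ, h.1⟩ : O) ≠ 0 := fun h' => h.2.1 (congrArg Subtype.val h')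
  refine ⟨⟨ϖ, h.1⟩, ⟨hnu, ?_⟩, fun {x} hx => unif_pow_Gauss h x hx⟩
  intro a b hab
  have ha : a ≠ 0 := by rintro rfl; apply h0; rw [hab, zero_mul]
  have hb : b ≠ 0 := by rintro rfl; apply h0; rw [hab, mul_zero]
  obtain ⟨m, hm⟩ := unif_pow_Gauss h a ha
  obtain ⟨n, hn⟩ := unif_pow_Gauss h b hb
  rcases Nat.eq_zero_or_pos m with rfl | hm0
  · left
    rw [pow_zero] at hm
    exact hm.isUnit isUnit_one
  · rcases Nat.eq_zero_or_pos n with rfl | hn0
    · right
      rw [pow_zero] at hn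
      exact hn.isUnit isUnit_one
    · exfalso
      apply hnu
      have hd : (⟨ϖ, h.1⟩ : O) * ⟨ϖ, h.1⟩ ∣ ⟨ϖ, h.1⟩ := by
        have h3 : Associated ((⟨ϖ, h.1⟩ : O) ^ m * (⟨ϖ, h.1⟩ : O) ^ n) (a * b) := hm.mul_mul hn
        rw [← hab] at h3
        refine dvd_trans ?_ h3.dvd
        exact mul_dvd_mul (dvd_pow_self _ hm0.ne') (dvd_pow_self _ hn0.ne')
      obtain ⟨c, hc⟩ := hd
      refine IsUnit.of_mul_eq_one c ?_
      have h4 : (⟨ϖ, h.1⟩ : O) * ((⟨ϖ, h.1⟩ : O) * c) = (⟨ϖ, h.1⟩ : O) * 1 := by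
        rw [← mul_assoc, ← hc, mul_one]
      exact mul_left_cancel₀ h0 h4

lemma res_zero_iff_Gauss {F : Type} [Field F] {O : ValuationSubring F} {ϖ : F} (h : Unif O ϖ)
    (c : O) : IsLocalRing.residue O c = 0 ↔ (⟨ϖ, h.1⟩ : O) ∣ c := by
  rw [IsLocalRing.residue_eq_zero_iff, IsLocalRing.mem_maximalIdeal, mem_nonunits_iff]
  constructor
  · intro hc
    by_cases hc0 : c = 0
    · rw [hc0]; exact dvd_zero _
    obtain ⟨n, hn⟩ := unif_pow_Gauss h c hc0
    rcases Nat.eq_zero_or_pos n with rfl | hn0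
    · exfalso; apply hc; rw [pow_zero] at hn; exact hn.isUnit isUnit_one
    · exact dvd_trans (dvd_pow_self _ hn0.ne') hn.dvd
  · rintro ⟨d, rfl⟩ hu
    exact h.2.2.1 ((isU_iff_Gauss O _).2 (isUnit_of_mul_isUnit_left hu)).2.1

section

variable {E : Type} [Field E] (O : ValuationSubring E)

/-- polynomials over `O` in `E(X)` -/
noncomputable def io_Gauss : O[X] →+* RatFunc E :=
  (algebraMap E[X] (RatFunc E)).comp (mapRingHom (algebraMap O E))

/-- reduction -/
noncomputable def re_Gauss : O[X] →+* (IsLocalRing.ResidueField O)[X] :=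
  mapRingHom (IsLocalRing.residue O)

lemma io_inj_Gauss : Function.Injective (io_Gauss O) := by
  have h1 : Function.Injective (algebraMap E[X] (RatFunc E)) := RatFunc.algebraMap_injective E
  have h2 : Function.Injective (mapRingHom (algebraMap O E)) := by
    intro a b hab
    exact map_injective _ Subtype.val_injective hab
  exact h1.comp h2

lemma io_ne_Gauss {G : O[X]} (h : re_Gauss O G ≠ 0) : io_Gauss O G ≠ 0 := by
  intro h0
  apply h
  have : G = 0 := io_inj_Gauss O (by rw [h0, map_zero])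
  rw [this, map_zero]

/-- the Gauss ring -/
noncomputable def gs_Gauss : Subring (RatFunc E) where
  carrier := {z | ∃ F G : O[X], re_Gauss O G ≠ 0 ∧ z = io_Gauss O F / io_Gauss O G}
  mul_mem' := by
    rintro _ _ ⟨F, G, hG, rfl⟩ ⟨F', G', hG', rfl⟩
    refine ⟨F * F', G * G', ?_, ?_⟩
    · rw [map_mul]; exact mul_ne_zero hG hG'
    · rw [map_mul, map_mul]; exact div_mul_div_comm _ _ _ _
  one_mem' := ⟨1, 1, by rw [map_one]; exact one_ne_zero, by simp⟩
  add_mem' := by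
    rintro _ _ ⟨F, G, hG, rfl⟩ ⟨F', G', hG', rfl⟩
    refine ⟨F * G' + G * F', G * G', ?_, ?_⟩
    · rw [map_mul]; exact mul_ne_zero hG hG'
    · rw [map_add, map_mul, map_mul, map_mul, div_add_div _ _ (io_ne_Gauss O hG)
        (io_ne_Gauss O hG')]
  zero_mem' := ⟨0, 1, by rw [map_one]; exact one_ne_zero, by simp⟩
  neg_mem' := by
    rintro _ ⟨F, G, hG, rfl⟩
    exact ⟨-F, G, hG, by rw [map_neg, neg_div]⟩

variable {O}

lemma re_zero_iff_Gauss {ϖ : E} (h : Unif O ϖ) (F : O[X]) :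
    re_Gauss O F = 0 ↔ C (⟨ϖ, h.1⟩ : O) ∣ F := by
  rw [C_dvd_iff_dvd_coeff]
  constructor
  · intro hF i
    rw [← res_zero_iff_Gauss h]
    have := congrArg (fun p => coeff p i) hF
    simpa [re_Gauss, coeff_map] using this
  · intro hF
    ext i
    have := (res_zero_iff_Gauss h (F.coeff i)).2 (hF i)
    simpa [re_Gauss, coeff_map] using this

lemma factor_Gauss [IsDiscreteValuationRing O] {ϖ : E} (h : Unif O ϖ) (F : O[X]) (hF : F ≠ 0) :
    ∃ (n : ℕ) (F₀ : O[X]), re_Gauss O F₀ ≠ 0 ∧ F = C (⟨ϖ, h.1⟩ : O) ^ n * F₀ := by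
  have hnu : ¬ IsUnit (C (⟨ϖ, h.1⟩ : O)) := by
    rw [isUnit_C]
    intro hu
    exact h.2.2.1 ((isU_iff_Gauss O _).2 hu).2.1
  obtain ⟨n, a, ha, hFa⟩ := WfDvdMonoid.max_power_factor' hF hnu
  exact ⟨n, a, fun h' => ha ((re_zero_iff_Gauss h a).1 h'), hFa⟩

lemma rep_Gauss [IsDiscreteValuationRing O] {ϖ : E} (h : Unif O ϖ) (z : RatFunc E) (hz : z ≠ 0) :
    ∃ (a b : ℕ) (F G : O[X]), re_Gauss O F ≠ 0 ∧ re_Gauss O G ≠ 0 ∧
      z = algebraMap E (RatFunc E) ϖ ^ a * io_Gauss O F /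
        (algebraMap E (RatFunc E) ϖ ^ b * io_Gauss O G) := by
  have hC : ∀ c : O, io_Gauss O (C c) = algebraMap E (RatFunc E) (c : E) := by
    intro c
    rw [IsScalarTower.algebraMap_apply E E[X] (RatFunc E)]
    simp [io_Gauss]
  have hnum : z.num ≠ 0 := RatFunc.num_ne_zero hz
  have hden : z.denom ≠ 0 := z.denom_ne_zero
  have key : ∀ p : E[X], p ≠ 0 → ∃ (c : O) (a : ℕ) (F : O[X]), c ≠ 0 ∧ re_Gauss O F ≠ 0 ∧
      algebraMap E (RatFunc E) (c : E) * algebraMap E[X] (RatFunc E) p =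
        algebraMap E (RatFunc E) ϖ ^ a * io_Gauss O F := by
    intro p hp
    obtain ⟨b, hbM, hb⟩ := IsLocalization.integerNormalization_spec (nonZeroDivisors O) p
    set N := IsLocalization.integerNormalization (nonZeroDivisors O) p with hN
    have hb0 : (b : O) ≠ 0 := nonZeroDivisors.ne_zero hbM
    have hbE : ((b : O) : E) ≠ 0 := fun h' => hb0 (Subtype.ext h')
    have h1 : io_Gauss O N = algebraMap E (RatFunc E) ((b : O) : E) *
        algebraMap E[X] (RatFunc E) p := by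
      have h2 : N.map (algebraMap O E) = C ((b : O) : E) * p := by
        rw [hb, Algebra.smul_def]
        congr 1
      show algebraMap E[X] (RatFunc E) (N.map (algebraMap O E)) = _
      rw [h2, map_mul, IsScalarTower.algebraMap_apply E E[X] (RatFunc E)]
      rfl
    have hN0 : N ≠ 0 := by
      intro h'
      rw [h', map_zero] at h1
      rcases mul_eq_zero.1 h1.symm with h3 | h3
      · exact hbE ((map_eq_zero _).1 h3)
      · exact hp (RatFunc.algebraMap_injective E (by rw [h3, map_zero]))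
    obtain ⟨a, F, hF, hNF⟩ := factor_Gauss h N hN0
    refine ⟨b, a, F, hb0, hF, ?_⟩
    rw [← h1, hNF, map_mul, map_pow, hC]
  obtain ⟨c, a, F, hc, hF, hcF⟩ := key z.num hnum
  obtain ⟨d, b, G, hd, hG, hdG⟩ := key z.denom hden
  have hcE : algebraMap E (RatFunc E) (c : E) ≠ 0 := by
    rw [Ne, map_eq_zero]; exact fun h' => hc (Subtype.ext h')
  have hdE : algebraMap E (RatFunc E) (d : E) ≠ 0 := by
    rw [Ne, map_eq_zero]; exact fun h' => hd (Subtype.ext h')
  -- absorb the constants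
  obtain ⟨m, hm⟩ := unif_pow_Gauss h c hc
  obtain ⟨n, hn⟩ := unif_pow_Gauss h d hd
  obtain ⟨u, hu⟩ := hm
  obtain ⟨v, hv⟩ := hn
  have hcu : algebraMap E (RatFunc E) (c : E) =
      algebraMap E (RatFunc E) ϖ ^ m * io_Gauss O (C (u : O)) := by
    rw [hC, ← map_pow, ← map_mul, ← hu]
    rfl
  have hdv : algebraMap E (RatFunc E) (d : E) =
      algebraMap E (RatFunc E) ϖ ^ n * io_Gauss O (C (v : O)) := by
    rw [hC, ← map_pow, ← map_mul, ← hv]
    rfl
  have hunit : ∀ w : Oˣ, re_Gauss O (C (w : O)) ≠ 0 := by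
    intro w h'
    have : IsUnit (re_Gauss O (C (w : O))) := (isUnit_C.2 w.isUnit).map _
    rw [h'] at this
    exact not_isUnit_zero this
  refine ⟨n + a, m + b, C (v : O) * F, C (u : O) * G, ?_, ?_, ?_⟩
  · rw [map_mul]; exact mul_ne_zero (hunit v) hF
  · rw [map_mul]; exact mul_ne_zero (hunit u) hG
  · have hϖ : algebraMap E (RatFunc E) ϖ ≠ 0 := by rw [Ne, map_eq_zero]; exact h.2.1
    have hden' : algebraMap E[X] (RatFunc E) z.denom ≠ 0 := by
      intro h'; exact hden (RatFunc.algebraMap_injective E (by rw [h', map_zero]))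
    have hz' : z = algebraMap E[X] (RatFunc E) z.num / algebraMap E[X] (RatFunc E) z.denom :=
      (RatFunc.num_div_denom z).symm
    have h5 : algebraMap E (RatFunc E) ϖ ^ (n + a) * io_Gauss O (C (v : O) * F) =
        algebraMap E (RatFunc E) (c : E) * algebraMap E (RatFunc E) (d : E) *
          algebraMap E[X] (RatFunc E) z.num := by
      rw [map_mul, hdv]
      calc _ = (algebraMap E (RatFunc E) ϖ ^ n * io_Gauss O (C (v : O))) *
            (algebraMap E (RatFunc E) ϖ ^ a * io_Gauss O F) := by ring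
        _ = _ := by rw [← hcF]; ring
    have h6 : algebraMap E (RatFunc E) ϖ ^ (m + b) * io_Gauss O (C (u : O) * G) =
        algebraMap E (RatFunc E) (c : E) * algebraMap E (RatFunc E) (d : E) *
          algebraMap E[X] (RatFunc E) z.denom := by
      rw [map_mul, hcu]
      calc _ = (algebraMap E (RatFunc E) ϖ ^ m * io_Gauss O (C (u : O))) *
            (algebraMap E (RatFunc E) ϖ ^ b * io_Gauss O G) := by ring
        _ = _ := by rw [← hdG]; ring
    rw [h5, h6, mul_div_mul_left _ _ (mul_ne_zero hcE hdE)]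
    exact hz'

end

theorem pGauss : StGauss := by
  intro E _ O hO
  have hC : ∀ c : O, io_Gauss O (C c) = algebraMap E (RatFunc E) (c : E) := by
    intro c
    rw [IsScalarTower.algebraMap_apply E E[X] (RatFunc E)]
    simp [io_Gauss]
  obtain ⟨ϖ, hϖ⟩ := pUnif E O hO
  have hrep : ∀ (ϖ : E) (h : Unif O ϖ) (z : RatFunc E), z ≠ 0 → ∃ i : ℤ,
      ∃ F G : O[X], re_Gauss O F ≠ 0 ∧ re_Gauss O G ≠ 0 ∧
        z * algebraMap E (RatFunc E) ϖ ^ i = io_Gauss O F / io_Gauss O G := by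
    intro ϖ h z hz
    obtain ⟨a, b, F, G, hF, hG, hzz⟩ := rep_Gauss h z hz
    have h0 : algebraMap E (RatFunc E) ϖ ≠ 0 := by rw [Ne, map_eq_zero]; exact h.2.1
    refine ⟨(b : ℤ) - a, F, G, hF, hG, ?_⟩
    rw [hzz, zpow_sub₀ h0, zpow_natCast, zpow_natCast]
    have hGi := io_ne_Gauss O hG
    field_simp
  have hmemC : ∀ (c : O), algebraMap E (RatFunc E) (c : E) ∈ gs_Gauss O := by
    intro c
    exact ⟨C c, 1, by rw [map_one]; exact one_ne_zero, by rw [hC, map_one, div_one]⟩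
  have hval : ∀ z : RatFunc E, z ∈ gs_Gauss O ∨ z⁻¹ ∈ gs_Gauss O := by
    intro z
    by_cases hz : z = 0
    · left; rw [hz]; exact (gs_Gauss O).zero_mem
    have h0 : algebraMap E (RatFunc E) ϖ ≠ 0 := by rw [Ne, map_eq_zero]; exact hϖ.2.1
    obtain ⟨i, F, G, hF, hG, hzz⟩ := hrep ϖ hϖ z hz
    have hm1 : io_Gauss O F / io_Gauss O G ∈ gs_Gauss O := ⟨F, G, hG, rfl⟩
    have hm2 : io_Gauss O G / io_Gauss O F ∈ gs_Gauss O := ⟨G, F, hF, rfl⟩
    have hmϖ : algebraMap E (RatFunc E) ϖ ∈ gs_Gauss O := hmemC ⟨ϖ, hϖ.1⟩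
    rcases le_or_gt i 0 with hi | hi
    · left
      obtain ⟨n, rfl⟩ : ∃ n : ℕ, i = -(n : ℤ) := ⟨i.natAbs, by omega⟩
      have : z = io_Gauss O F / io_Gauss O G * algebraMap E (RatFunc E) ϖ ^ n := by
        rw [← hzz, zpow_neg, zpow_natCast]; field_simp
      rw [this]
      exact (gs_Gauss O).mul_mem hm1 (pow_mem hmϖ n)
    · right
      obtain ⟨n, rfl⟩ : ∃ n : ℕ, i = (n : ℤ) := ⟨i.toNat, by omega⟩
      have : z⁻¹ = io_Gauss O G / io_Gauss O F * algebraMap E (RatFunc E) ϖ ^ n := by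
        rw [← inv_div, ← hzz, zpow_natCast, mul_inv]
        field_simp
      rw [this]
      exact (gs_Gauss O).mul_mem hm2 (pow_mem hmϖ n)
  set O' : ValuationSubring (RatFunc E) := { gs_Gauss O with mem_or_inv_mem' := hval } with hO'
  have hmem : ∀ z : RatFunc E, z ∈ O' ↔ ∃ F G : O[X], re_Gauss O G ≠ 0 ∧
      z = io_Gauss O F / io_Gauss O G := fun z => Iff.rfl
  have hunif : ∀ ϖ, Unif O ϖ → Unif O' (algebraMap E (RatFunc E) ϖ) := by
    intro ϖ h
    have h0 : algebraMap E (RatFunc E) ϖ ≠ 0 := by rw [Ne, map_eq_zero]; exact h.2.1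
    refine ⟨hmemC ⟨ϖ, h.1⟩, h0, ?_, ?_⟩
    · intro h1
      obtain ⟨F, G, hG, hFG⟩ := (hmem _).1 h1
      apply hG
      have hG' := io_ne_Gauss O hG
      have h2 : io_Gauss O G = io_Gauss O (C (⟨ϖ, h.1⟩ : O) * F) := by
        rw [map_mul, hC]
        show io_Gauss O G = algebraMap E (RatFunc E) ϖ * io_Gauss O F
        rw [eq_div_iff hG'] at hFG
        rw [← hFG]
        field_simp
      rw [re_zero_iff_Gauss h, io_inj_Gauss O h2]
      exact dvd_mul_right _ _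
    · intro z hz
      obtain ⟨i, F, G, hF, hG, hzz⟩ := hrep ϖ h z hz
      refine ⟨i, (hmem _).2 ⟨F, G, hG, hzz⟩, (hmem _).2 ⟨G, F, hF, ?_⟩, ?_⟩
      · rw [hzz, inv_div]
      · rw [hzz]
        exact div_ne_zero (io_ne_Gauss O hF) (io_ne_Gauss O hG)
  refine ⟨O', dvr_of_unif_Gauss (hunif ϖ hϖ), hunif, ?_⟩
  intro z
  rw [hmem]
  constructor
  · rintro ⟨F, G, hG, rfl⟩
    refine ⟨F.map (algebraMap O E), G.map (algebraMap O E), ?_, ?_, ?_, rfl⟩
    · intro i; rw [coeff_map]; exact (F.coeff i).2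
    · intro i; rw [coeff_map]; exact (G.coeff i).2
    · by_contra hcon
      push Not at hcon
      apply hG
      ext i
      have h1 := hcon i
      rw [coeff_map] at h1
      have h2 : ¬ IsUnit (G.coeff i) := fun h => h1 ((isU_iff_Gauss O _).2 h)
      have h3 : IsLocalRing.residue O (G.coeff i) = 0 := by
        rw [IsLocalRing.residue_eq_zero_iff, IsLocalRing.mem_maximalIdeal, mem_nonunits_iff]
        exact h2
      simpa [re_Gauss, coeff_map] using h3
  · rintro ⟨f, g, hf, hg, ⟨i, hi⟩, rfl⟩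
    have hl : ∀ p : E[X], (∀ i, p.coeff i ∈ O) → ∃ P : O[X], P.map (algebraMap O E) = p := by
      intro p hp
      exact (mem_lifts p).1 ((lifts_iff_coeff_lifts p).2 fun n => ⟨⟨p.coeff n, hp n⟩, rfl⟩)
    obtain ⟨F, rfl⟩ := hl f hf
    obtain ⟨G, rfl⟩ := hl g hg
    refine ⟨F, G, ?_, rfl⟩
    intro h0
    have h1 := congrArg (fun p => coeff p i) h0
    have h2 : IsLocalRing.residue O (G.coeff i) = 0 := by
      simpa [re_Gauss, coeff_map] using h1
    rw [IsLocalRing.residue_eq_zero_iff, IsLocalRing.mem_maximalIdeal, mem_nonunits_iff] at h2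
    apply h2
    rw [← isU_iff_Gauss]
    rw [coeff_map] at hi
    exact hi

end Pool.Agent.Helper44.RED
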