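import Pool.Agent.Helper44.RED.StC

set_option autoImplicit false

namespace Pool.Agent.Helper44.RED

private lemma range_append_GenV0 {α : Type} {m n : ℕ} (f : Fin m → α) (g : Fin n → α) :
    Set.range (Fin.append f g) = Set.range f ∪ Set.range g := by
  ext z
  constructor
  · rintro ⟨i, rfl⟩
    refine Fin.addCases (fun i => ?_) (fun i => ?_) i
    · rw [Fin.append_left]; exact Or.inl ⟨i, rfl⟩
    · rw [Fin.append_right]; exact Or.inr ⟨i, rfl⟩
  · rintro (⟨i, rfl⟩ | ⟨i, rfl⟩)
    · exact ⟨Fin.castAdd n i, Fin.append_left _ _ _⟩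
    · exact ⟨Fin.natAdd m i, Fin.append_right _ _ _⟩

private lemma genN_trans_GenV0 {k F : Type} [Field k] [Field F] [Algebra k F]
    {L L' L'' : IntermediateField k F} {N N' : ℕ} (h : GenN L L' N) (h' : GenN L' L'' N') :
    GenN L L'' (N + N') := by
  obtain ⟨g, hg⟩ := h
  obtain ⟨g', hg'⟩ := h'
  refine ⟨Fin.append g g', ?_⟩
  rw [range_append_GenV0, IntermediateField.adjoin_union, hg', hg, sup_assoc]

/-- successive application of STEPV, starting with the vector number `l₀` -/
private lemma key_GenV0 (hStep : StStepV) {k F : Type} [Field k] [Field F] [Algebra k F]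
    (h2 : (2 : k) ≠ 0) (L : IntermediateField k F) (n s : ℕ) (x : Fin n → F)
    (U : Finset (Fin n) → F) (hn : 1 ≤ n) (hs : s = 2 ^ (n - 1)) (hxL : ∀ j, x j ∈ L)
    (hx0 : ∀ j, x j ≠ 0) (hUL : ∀ S, U S ∈ L) (hU0 : U ≠ 0) (hqU : qf (pf x) U = 0)
    (b : Fin s → F) (V : Fin s → Pu n → F) (hb0 : ∀ j, b j ≠ 0) (hbL : ∀ j, b j ∈ L)
    (hiso : IsoIn L (one b)) (hV0 : ∀ i j, i ≠ j → bf (ppf x) (V i) (V j) = 0)
    (hV1 : ∀ j, qf (ppf x) (V j) = b j) (l₀ : ℕ) (hl₀ : l₀ ≤ s)
    (hVL : ∀ j : Fin s, j.1 < l₀ → ∀ T, V j T ∈ L) :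
    GenN L (L ⊔ IntermediateField.adjoin k (Set.range (fun p : Fin s × Pu n => V p.1 p.2)))
      (∑ l ∈ Finset.Ico l₀ s, (2 ^ n - 2 - l)) := by
  classical
  set S : ℕ → Set F := fun l => {z | ∃ j : Fin s, j.1 < l ∧ ∃ T, V j T = z} with hS
  have key : ∀ l : ℕ, l₀ ≤ l → l ≤ s → GenN L (L ⊔ IntermediateField.adjoin k (S l))
      (∑ l' ∈ Finset.Ico l₀ l, (2 ^ n - 2 - l')) := by
    intro l hl₀l
    induction l, hl₀l using Nat.le_induction with
    | base =>
      intro _
      rw [Finset.Ico_self, Finset.sum_empty]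
      refine ⟨Fin.elim0, ?_⟩
      have h1 : IntermediateField.adjoin k (S l₀) ≤ L := by
        rw [IntermediateField.adjoin_le_iff]
        rintro z ⟨j, hj, T, rfl⟩
        exact hVL j hj T
      have h2 : IntermediateField.adjoin k (Set.range (Fin.elim0 : Fin 0 → F)) ≤ L := by
        rw [IntermediateField.adjoin_le_iff]
        rintro z ⟨j, _⟩
        exact j.elim0
      rw [sup_eq_left.2 h1, sup_eq_left.2 h2]
    | succ l hl₀l ih =>
      intro hl
      have ih' := ih (by omega)
      rw [Finset.sum_Ico_succ_top hl₀l]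
      refine genN_trans_GenV0 ih' ?_
      have hLL : L ≤ L ⊔ IntermediateField.adjoin k (S l) := le_sup_left
      have hSeq : S (l + 1) = S l ∪ Set.range (V ⟨l, by omega⟩) := by
        ext z
        constructor
        · rintro ⟨j, hj, T, rfl⟩
          by_cases h : j.1 < l
          · exact Or.inl ⟨j, h, T, rfl⟩
          · have : j = ⟨l, by omega⟩ := Fin.ext (by simp; omega)
            exact Or.inr ⟨T, by rw [this]⟩
        · rintro (⟨j, hj, T, rfl⟩ | ⟨T, rfl⟩)
          · exact ⟨j, by omega, T, rfl⟩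
          · exact ⟨⟨l, by omega⟩, by simp, T, rfl⟩
      have hfield : L ⊔ IntermediateField.adjoin k (S (l + 1)) =
          (L ⊔ IntermediateField.adjoin k (S l)) ⊔
            IntermediateField.adjoin k (Set.range (V ⟨l, by omega⟩)) := by
        rw [hSeq, IntermediateField.adjoin_union, sup_assoc]
      rw [hfield]
      refine hStep k F h2 (L ⊔ IntermediateField.adjoin k (S l)) n s l x U hn hs
        (fun j => hLL (hxL j)) hx0 (fun T => hLL (hUL T)) hU0 hqU
        (fun j => b (Fin.castLE (by omega) j)) (fun j => V (Fin.castLE (by omega) j))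
        (b ⟨l, by omega⟩) (V ⟨l, by omega⟩) (fun j => hb0 _) (hb0 _) (fun j => hLL (hbL _))
        (hLL (hbL _)) ?_ ?_ (fun j => hV1 _) ?_ (hV1 _) ?_
      · intro j T
        refine (le_sup_right : IntermediateField.adjoin k (S l) ≤ _)
          (IntermediateField.subset_adjoin k (S l) ⟨Fin.castLE (by omega) j, ?_, T, rfl⟩)
        exact j.2
      · intro i j hij
        refine hV0 _ _ (fun h => hij ?_)
        exact Fin.castLE_injective _ h
      · intro j
        refine hV0 _ _ (fun h => ?_)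
        have := congrArg Fin.val h
        simp at this
        have := j.2
        omega
      · rcases Nat.lt_or_ge (l + 1) s with h | h
        · exact Or.inl h
        · refine Or.inr ⟨by omega, ?_⟩
          have hls : s = l + 1 := by omega
          obtain ⟨z, hzL, hz0, hqz⟩ := hiso
          refine ⟨Sum.elim (fun j => z (Fin.castLE (by omega) j)) (fun _ => z ⟨l + 1, by omega⟩),
            ?_, ?_, ?_⟩
          · rintro (i | i)
            · exact hLL (hzL _)
            · exact hLL (hzL _)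
          · intro h0
            apply hz0
            funext i
            rcases Nat.lt_or_ge i.1 (l + 1) with hi | hi
            · have := congrFun h0 (Sum.inl ⟨i.1, hi⟩)
              exact this
            · have := congrFun h0 (Sum.inr ())
              have hi' : i = ⟨l + 1, by omega⟩ := Fin.ext (by simp; omega)
              rw [hi']
              exact this
          · rw [qf_sumElim, Sum.elim_comp_inl, Sum.elim_comp_inr]
            rw [← hqz]
            subst hls
            unfold qf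
            rw [Fin.sum_univ_castSucc (n := l + 1)]
            congr 1
            · refine Finset.sum_congr rfl fun j _ => ?_
              congr 1
              refine Fin.cases ?_ (fun j => ?_) j
              · rfl
              · rfl
            · rw [Fintype.sum_unique]
              rfl
  have hfin := key s hl₀ le_rfl
  have hSs : S s = Set.range (fun p : Fin s × Pu n => V p.1 p.2) := by
    ext z
    constructor
    · rintro ⟨j, _, T, rfl⟩; exact ⟨(j, T), rfl⟩
    · rintro ⟨⟨j, T⟩, rfl⟩; exact ⟨j, j.2, T, rfl⟩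
  rw [hSs] at hfin
  exact hfin

private lemma qf_split_GenV0 {F : Type} [Field F] {n : ℕ} (x : Fin n → F)
    (U : Finset (Fin n) → F) :
    qf (pf x) U = U ∅ ^ 2 + qf (ppf x) (fun S => U S.1) := by
  classical
  unfold qf
  rw [← Fintype.sum_subtype_add_sum_subtype (fun S : Finset (Fin n) => S.Nonempty)
    (fun S => pf x S * U S ^ 2)]
  rw [add_comm]
  congr 1
  have : Unique {S : Finset (Fin n) // ¬ S.Nonempty} :=
    { default := ⟨∅, by simp⟩
      uniq := fun S => Subtype.ext (Finset.not_nonempty_iff_eq_empty.1 S.2) }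
  rw [Fintype.sum_unique]
  have h1 : ((default : {S : Finset (Fin n) // ¬ S.Nonempty}) : Finset (Fin n)) = ∅ :=
    Finset.not_nonempty_iff_eq_empty.1 (default : {S : Finset (Fin n) // ¬ S.Nonempty}).2
  rw [h1, pf_empty, one_mul]

/-- an orthogonal basis over `L` of the form `<b>` starting with a vector of norm `-1` -/
private lemma basis_GenV0 (hCompl : StCompl) {K : Type} [Field K] (h2 : (2 : K) ≠ 0) (s : ℕ)
    (b : Fin (s + 1) → K) (hb : ∀ j, b j ≠ 0) (z : Fin (s + 1) → K) (hz : qf b z = -1) :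
    ∃ (d : Fin (s + 1) → K) (W W' : Fin (s + 1) → Fin (s + 1) → K), d 0 = -1 ∧ (∀ j, d j ≠ 0) ∧
      (∀ i j, i ≠ j → bf b (W i) (W j) = 0) ∧ (∀ j, qf b (W j) = d j) ∧
      ∀ l m, ∑ j, W' l j * W j m = if l = m then 1 else 0 := by
  classical
  obtain ⟨hcard, c, hc0, w, hw0, hw1⟩ := hCompl K (Fin (s + 1)) h2 b hb 1 (fun _ => -1)
    (fun _ => by simp) ⟨fun _ => z, fun i j hij => absurd (Subsingleton.elim i j) hij, fun _ => hz⟩
  have hcs : Fintype.card (Fin (s + 1)) - 1 = s := by rw [Fintype.card_fin]; omega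
  let e : Fin (s + 1) → Fin 1 ⊕ Fin (Fintype.card (Fin (s + 1)) - 1) :=
    Fin.cases (Sum.inl 0) (fun j => Sum.inr (Fin.cast hcs.symm j))
  have he : Function.Injective e := by
    intro i j
    refine Fin.cases ?_ (fun i => ?_) i <;> refine Fin.cases ?_ (fun j => ?_) j
    · intro _; rfl
    · intro h; simp [e] at h
    · intro h; simp [e] at h
    · intro h
      simp only [e, Fin.cases_succ] at h
      have h3 := Sum.inr_injective h
      have h4 := congrArg Fin.val h3
      simp at h4
      rw [Fin.ext h4]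
  set d : Fin (s + 1) → K := fun j => Sum.elim (fun _ : Fin 1 => (-1 : K)) c (e j) with hd
  have hd0 : ∀ j, d j ≠ 0 := by
    intro j
    simp only [hd]
    rcases e j with i | i
    · simp
    · exact hc0 i
  set W : Fin (s + 1) → Fin (s + 1) → K := fun j => w (e j) with hW
  have hWo : ∀ i j, i ≠ j → bf b (W i) (W j) = 0 := fun i j hij =>
    hw0 _ _ (fun h => hij (he h))
  have hWn : ∀ j, qf b (W j) = d j := fun j => hw1 (e j)
  -- the inverse matrix
  let A : Matrix (Fin (s + 1)) (Fin (s + 1)) K := Matrix.of W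
  let B : Matrix (Fin (s + 1)) (Fin (s + 1)) K := Matrix.of fun l j => b l * W j l * (d j)⁻¹
  have hAB : A * B = 1 := by
    ext i j
    rw [Matrix.mul_apply, Matrix.one_apply]
    have h3 : ∑ l, A i l * B l j = bf b (W i) (W j) * (d j)⁻¹ := by
      unfold bf
      rw [Finset.sum_mul]
      refine Finset.sum_congr rfl fun l _ => ?_
      simp only [A, B, Matrix.of_apply]
      ring
    rw [h3]
    by_cases hij : i = j
    · subst hij
      rw [if_pos rfl, bf_self, hWn]
      exact mul_inv_cancel₀ (hd0 i)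
    · rw [if_neg hij, hWo i j hij, zero_mul]
  have hBA : B * A = 1 := mul_eq_one_comm.1 hAB
  refine ⟨d, W, fun l j => B l j, rfl, hd0, hWo, hWn, fun l m => ?_⟩
  have h4 := congrFun (congrFun hBA l) m
  rw [Matrix.mul_apply, Matrix.one_apply] at h4
  exact h4

/-- GENV0. -/
theorem pGenV0 : StIsoGen → StCompl → StStepV → StGenV0 := by
  classical
  intro hIso hCompl hStep k F _ _ _ h2 L n s x hn hs hx0 b V z hb0 hbL hzL hz hV0 hV1
  have hspos : 0 < s := by rw [hs]; positivity
  obtain ⟨s', rfl⟩ : ∃ s', s = s' + 1 := ⟨s - 1, by omega⟩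
  have h2L : (2 : L) ≠ 0 := by
    intro h
    have h3 : algebraMap k L 2 = 0 := by rw [map_ofNat]; exact h
    exact h2 ((map_eq_zero _).1 h3)
  -- descend to `L`
  let bL : Fin (s' + 1) → L := fun j => ⟨b j, hbL j⟩
  let zL : Fin (s' + 1) → L := fun j => ⟨z j, hzL j⟩
  have hcoe : ∀ (u v : Fin (s' + 1) → L), ((bf bL u v : L) : F) =
      bf b (fun j => (u j : F)) (fun j => (v j : F)) := by
    intro u v
    unfold bf
    push_cast
    rfl
  have hcoeq : ∀ (u : Fin (s' + 1) → L), ((qf bL u : L) : F) = qf b (fun j => (u j : F)) := by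
    intro u
    rw [← bf_self, hcoe, bf_self]
  have hbL0 : ∀ j, bL j ≠ 0 := fun j h => hb0 j (congrArg Subtype.val h)
  have hzq : qf bL zL = -1 := by
    apply Subtype.ext
    rw [hcoeq]
    push_cast
    exact hz
  obtain ⟨d, W, W', hd0, hdne, hWo, hWn, hWW⟩ := basis_GenV0 hCompl h2L s' bL hbL0 zL hzq
  -- the new vectors
  set V' : Fin (s' + 1) → Pu n → F := fun j => ∑ l, (W j l : F) • V l with hV'
  have hV'o : ∀ i j, i ≠ j → bf (ppf x) (V' i) (V' j) = 0 := by
    intro i j hij
    rw [hV']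
    rw [bf_orth hV0 hV1, ← hcoe, hWo i j hij]
    rfl
  have hV'n : ∀ j, qf (ppf x) (V' j) = (d j : F) := by
    intro j
    rw [hV', qf_orth hV0 hV1, ← hcoeq, hWn]
  have hV'n0 : qf (ppf x) (V' 0) = -1 := by
    rw [hV'n, hd0]
    push_cast
    rfl
  have hVV' : ∀ l, V l = ∑ j, (W' l j : F) • V' j := by
    intro l
    rw [hV']
    have h3 : ∑ j, (W' l j : F) • ∑ m, (W j m : F) • V m =
        ∑ m, (∑ j, (W' l j : F) * (W j m : F)) • V m := by
      simp_rw [Finset.smul_sum, smul_smul, Finset.sum_smul]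
      rw [Finset.sum_comm]
    rw [h3]
    have h4 : ∀ m, ∑ j, (W' l j : F) * (W j m : F) = if l = m then 1 else 0 := by
      intro m
      have h5 := congrArg (Subtype.val : L → F) (hWW l m)
      push_cast at h5
      rw [h5]
      by_cases h6 : l = m
      · rw [if_pos h6, if_pos h6]; rfl
      · rw [if_neg h6, if_neg h6]; rfl
    simp_rw [h4]
    simp
  -- the isotropic vector
  set U : Finset (Fin n) → F := fun S => if h : S.Nonempty then V' 0 ⟨S, h⟩ else 1 with hU
  have hUe : U ∅ = 1 := by simp [hU]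
  have hUP : (fun S : Pu n => U S.1) = V' 0 := by
    funext S
    simp only [hU]
    rw [dif_pos S.2]
  have hU0 : U ≠ 0 := by
    intro h
    have := congrFun h ∅
    rw [hUe] at this
    exact one_ne_zero this
  have hqU : qf (pf x) U = 0 := by
    rw [qf_split_GenV0, hUP, hUe, hV'n0]
    ring
  -- first field
  set L₁ : IntermediateField k F := L ⊔ IntermediateField.adjoin k (Set.range x ∪ Set.range U)
    with hL₁
  have hgen1 : GenN L L₁ (n - 1 + (2 ^ n - 1)) := hIso k F L n x U hUe hqU
  have hLL₁ : L ≤ L₁ := le_sup_left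
  have hadj₁ : IntermediateField.adjoin k (Set.range x ∪ Set.range U) ≤ L₁ := le_sup_right
  have hxL₁ : ∀ j, x j ∈ L₁ := fun j =>
    hadj₁ (IntermediateField.subset_adjoin _ _ (Or.inl ⟨j, rfl⟩))
  have hUL₁ : ∀ S, U S ∈ L₁ := fun S =>
    hadj₁ (IntermediateField.subset_adjoin _ _ (Or.inr ⟨S, rfl⟩))
  have hV0L₁ : ∀ j : Fin (s' + 1), j.1 < 1 → ∀ T, V' j T ∈ L₁ := by
    intro j hj T
    have hj0 : j = 0 := Fin.ext (by rw [Fin.val_zero]; omega)
    rw [hj0, ← hUP]
    exact hUL₁ _
  have hiso : IsoIn L₁ (one fun j => (d j : F)) := by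
    refine ⟨Fin.cons 1 (fun j => if j = 0 then 1 else 0), ?_, ?_, ?_⟩
    · intro i
      refine Fin.cases ?_ (fun i => ?_) i
      · rw [Fin.cons_zero]; exact one_mem _
      · rw [Fin.cons_succ]
        split_ifs
        · exact one_mem _
        · exact zero_mem _
    · intro h
      have := congrFun h 0
      rw [Fin.cons_zero] at this
      exact one_ne_zero this
    · unfold qf one
      rw [Fin.sum_univ_succ, Fin.sum_univ_succ]
      simp only [Fin.cons_zero, Fin.cons_succ, hd0]
      have h3 : ∑ i : Fin s', (d i.succ : F) *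
          (if (i.succ : Fin (s' + 1)) = 0 then (1 : F) else 0) ^ 2 = 0 :=
        Finset.sum_eq_zero fun i _ => by rw [if_neg (Fin.succ_ne_zero i)]; ring
      rw [h3]
      push_cast
      simp
  have hgen2 := key_GenV0 hStep h2 L₁ n (s' + 1) x U hn hs hxL₁ hx0 hUL₁ hU0 hqU
    (fun j => (d j : F)) V' (fun j h => hdne j (Subtype.ext h)) (fun j => hLL₁ (d j).2) hiso
    hV'o hV'n 1 (by omega) hV0L₁
  -- the total field
  set L₂ : IntermediateField k F := L ⊔ IntermediateField.adjoin k
    (Set.range x ∪ Set.range (fun p : Fin (s' + 1) × Pu n => V p.1 p.2)) with hL₂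
  have hLL₂ : L ≤ L₂ := le_sup_left
  have hadj₂ : IntermediateField.adjoin k
    (Set.range x ∪ Set.range (fun p : Fin (s' + 1) × Pu n => V p.1 p.2)) ≤ L₂ := le_sup_right
  have hxL₂ : ∀ j, x j ∈ L₂ := fun j =>
    hadj₂ (IntermediateField.subset_adjoin _ _ (Or.inl ⟨j, rfl⟩))
  have hVL₂ : ∀ j T, V j T ∈ L₂ := fun j T =>
    hadj₂ (IntermediateField.subset_adjoin _ _ (Or.inr ⟨(j, T), rfl⟩))
  have hV'L₂ : ∀ j T, V' j T ∈ L₂ := by
    intro j T
    have h3 : V' j T = ∑ l, ((W j l : F) • V l) T := by rw [hV']; exact Finset.sum_apply _ _ _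
    rw [h3]
    refine sum_mem fun l _ => ?_
    rw [Pi.smul_apply, smul_eq_mul]
    exact mul_mem (hLL₂ (W j l).2) (hVL₂ l T)
  have hUL₂ : ∀ S, U S ∈ L₂ := by
    intro S
    simp only [hU]
    split_ifs with h
    · exact hV'L₂ 0 _
    · exact one_mem _
  have hfield : L₁ ⊔ IntermediateField.adjoin k
      (Set.range (fun p : Fin (s' + 1) × Pu n => V' p.1 p.2)) = L₂ := by
    apply le_antisymm
    · refine sup_le (sup_le hLL₂ ?_) ?_
      · rw [IntermediateField.adjoin_le_iff]
        rintro _ (⟨j, rfl⟩ | ⟨S, rfl⟩)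
        · exact hxL₂ j
        · exact hUL₂ S
      · rw [IntermediateField.adjoin_le_iff]
        rintro _ ⟨⟨j, T⟩, rfl⟩
        exact hV'L₂ j T
    · refine sup_le (le_trans hLL₁ le_sup_left) ?_
      rw [IntermediateField.adjoin_le_iff]
      rintro _ (⟨j, rfl⟩ | ⟨⟨l, T⟩, rfl⟩)
      · exact (le_sup_left : L₁ ≤ _) (hxL₁ j)
      · simp only
        rw [hVV' l, Finset.sum_apply]
        refine sum_mem fun j _ => ?_
        rw [Pi.smul_apply, smul_eq_mul]
        refine mul_mem ((le_trans hLL₁ le_sup_left : L ≤ _) (W' l j).2) ?_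
        exact (le_sup_right : IntermediateField.adjoin k _ ≤ _)
          (IntermediateField.subset_adjoin _ _ ⟨(j, T), rfl⟩)
  rw [hfield] at hgen2
  have hcount : n - 1 + (2 ^ n - 1) + ∑ l ∈ Finset.Ico 1 (s' + 1), (2 ^ n - 2 - l) =
      n + ∑ l ∈ Finset.range (s' + 1), (2 ^ n - 2 - l) := by
    rw [Finset.range_eq_Ico, Finset.sum_eq_sum_Ico_succ_bot (Nat.succ_pos s')]
    have h3 : 2 ≤ 2 ^ n := by
      calc 2 = 2 ^ 1 := by norm_num
        _ ≤ 2 ^ n := Nat.pow_le_pow_right (by norm_num) hn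
    simp only [zero_add, Nat.sub_zero, Nat.succ_eq_add_one]
    omega
  refine ⟨?_, U, hUL₂, hU0, hqU⟩
  rw [← hcount]
  exact genN_trans_GenV0 hgen1 hgen2

end Pool.Agent.Helper44.RED
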