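import Pool.Agent.Helper44.RED.StC

set_option autoImplicit false

namespace Pool.Agent.Helper44.RED

private lemma range_append_GenV1 {α : Type} {m n : ℕ} (f : Fin m → α) (g : Fin n → α) :
    Set.range (Fin.append f g) = Set.range f ∪ Set.range g := by
  ext z
  constructor
  · rintro ⟨i, rfl⟩
    refine Fin.addCases (fun i => ?_) (fun i => ?_) i
    · rw [Fin.append_left]; exact Or.inl ⟨i, rfl⟩
    · rw [Fin.append_right]; exact Or.inr ⟨i, rfl⟩
  · rintro (⟨i, rfl⟩ | ⟨i, rfl⟩)
    · exact ⟨Fin.castAdd n i, Fin.append_left _ _ _⟩
    · exact ⟨Fin.natAdd m i, Fin.append_right _ _ _⟩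

private lemma genN_trans_GenV1 {k F : Type} [Field k] [Field F] [Algebra k F]
    {L L' L'' : IntermediateField k F} {N N' : ℕ} (h : GenN L L' N) (h' : GenN L' L'' N') :
    GenN L L'' (N + N') := by
  obtain ⟨g, hg⟩ := h
  obtain ⟨g', hg'⟩ := h'
  refine ⟨Fin.append g g', ?_⟩
  rw [range_append_GenV1, IntermediateField.adjoin_union, hg', hg, sup_assoc]

/-- GENV1. -/
theorem pGenV1 : StStepV → StGenV1 := by
  classical
  intro hStep k F _ _ _ h2 L n s x U hn hs hxL hx0 hUL hU0 hqU b V hb0 hbL hiso hV0 hV1
  -- the intermediate fields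
  set S : ℕ → Set F := fun l => {z | ∃ j : Fin s, j.1 < l ∧ ∃ T, V j T = z} with hS
  have key : ∀ l : ℕ, l ≤ s → GenN L (L ⊔ IntermediateField.adjoin k (S l))
      (∑ l' ∈ Finset.range l, (2 ^ n - 2 - l')) := by
    intro l
    induction l with
    | zero =>
      intro _
      refine ⟨Fin.elim0, ?_⟩
      congr 2
      ext z
      constructor
      · rintro ⟨j, hj, _⟩; omega
      · rintro ⟨j, _⟩; exact j.elim0
    | succ l ih =>
      intro hl
      have ih' := ih (by omega)
      rw [Finset.sum_range_succ]
      refine genN_trans_GenV1 ih' ?_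
      have hLL : L ≤ L ⊔ IntermediateField.adjoin k (S l) := le_sup_left
      have hSeq : S (l + 1) = S l ∪ Set.range (V ⟨l, by omega⟩) := by
        ext z
        constructor
        · rintro ⟨j, hj, T, rfl⟩
          by_cases h : j.1 < l
          · exact Or.inl ⟨j, h, T, rfl⟩
          · have : j = ⟨l, by omega⟩ := Fin.ext (by simp; omega)
            exact Or.inr ⟨T, by rw [this]⟩
        · rintro (⟨j, hj, T, rfl⟩ | ⟨T, rfl⟩)
          · exact ⟨j, by omega, T, rfl⟩
          · exact ⟨⟨l, by omega⟩, by simp, T, rfl⟩
      have hfield : L ⊔ IntermediateField.adjoin k (S (l + 1)) =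
          (L ⊔ IntermediateField.adjoin k (S l)) ⊔
            IntermediateField.adjoin k (Set.range (V ⟨l, by omega⟩)) := by
        rw [hSeq, IntermediateField.adjoin_union, sup_assoc]
      rw [hfield]
      refine hStep k F h2 (L ⊔ IntermediateField.adjoin k (S l)) n s l x U hn hs
        (fun j => hLL (hxL j)) hx0 (fun T => hLL (hUL T)) hU0 hqU
        (fun j => b (Fin.castLE (by omega) j)) (fun j => V (Fin.castLE (by omega) j))
        (b ⟨l, by omega⟩) (V ⟨l, by omega⟩) (fun j => hb0 _) (hb0 _) (fun j => hLL (hbL _))
        (hLL (hbL _)) ?_ ?_ (fun j => hV1 _) ?_ (hV1 _) ?_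
      · intro j T
        refine (le_sup_right : IntermediateField.adjoin k (S l) ≤ _)
          (IntermediateField.subset_adjoin k (S l) ⟨Fin.castLE (by omega) j, ?_, T, rfl⟩)
        exact j.2
      · intro i j hij
        refine hV0 _ _ (fun h => hij ?_)
        exact Fin.castLE_injective _ h
      · intro j
        refine hV0 _ _ (fun h => ?_)
        have := congrArg Fin.val h
        simp at this
        have := j.2
        omega
      · rcases Nat.lt_or_ge (l + 1) s with h | h
        · exact Or.inl h
        · refine Or.inr ⟨by omega, ?_⟩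
          have hls : s = l + 1 := by omega
          obtain ⟨z, hzL, hz0, hqz⟩ := hiso
          refine ⟨Sum.elim (fun j => z (Fin.castLE (by omega) j)) (fun _ => z ⟨l + 1, by omega⟩),
            ?_, ?_, ?_⟩
          · rintro (i | i)
            · exact hLL (hzL _)
            · exact hLL (hzL _)
          · intro h0
            apply hz0
            funext i
            rcases Nat.lt_or_ge i.1 (l + 1) with hi | hi
            · have := congrFun h0 (Sum.inl ⟨i.1, hi⟩)
              exact this
            · have := congrFun h0 (Sum.inr ())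
              have hi' : i = ⟨l + 1, by omega⟩ := Fin.ext (by simp; omega)
              rw [hi']
              exact this
          · rw [qf_sumElim, Sum.elim_comp_inl, Sum.elim_comp_inr]
            rw [← hqz]
            subst hls
            unfold qf
            rw [Fin.sum_univ_castSucc (n := l + 1)]
            congr 1
            · refine Finset.sum_congr rfl fun j _ => ?_
              congr 1
              refine Fin.cases ?_ (fun j => ?_) j
              · rfl
              · rfl
            · rw [Fintype.sum_unique]
              rfl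
  have hfin := key s le_rfl
  have hSs : S s = Set.range (fun p : Fin s × Pu n => V p.1 p.2) := by
    ext z
    constructor
    · rintro ⟨j, _, T, rfl⟩; exact ⟨(j, T), rfl⟩
    · rintro ⟨⟨j, T⟩, rfl⟩; exact ⟨j, j.2, T, rfl⟩
  rw [hSs] at hfin
  exact hfin

end Pool.Agent.Helper44.RED
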