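import Pool.Agent.Helper44.RED.StB

/-!
# Project RED: module GoodRed
-/

set_option autoImplicit false

namespace Pool.Agent.Helper44.RED

lemma isU_mul_GR {F : Type} [Field F] {O : ValuationSubring F} {a b : F} (ha : IsU O a)
    (hb : IsU O b) : IsU O (a * b) :=
  ⟨O.mul_mem _ _ ha.1 hb.1, by rw [mul_inv]; exact O.mul_mem _ _ ha.2.1 hb.2.1,
    mul_ne_zero ha.2.2 hb.2.2⟩

lemma isU_neg_GR {F : Type} [Field F] {O : ValuationSubring F} {a : F} (ha : IsU O a) :
    IsU O (-a) :=
  ⟨O.neg_mem _ ha.1, by rw [inv_neg]; exact O.neg_mem _ ha.2.1, neg_ne_zero.2 ha.2.2⟩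

lemma isU_one_GR {F : Type} [Field F] {O : ValuationSubring F} : IsU O (1 : F) :=
  ⟨O.one_mem, by rw [inv_one]; exact O.one_mem, one_ne_zero⟩

lemma isU_prod_GR {F κ : Type} [Field F] {O : ValuationSubring F} (s : Finset κ) (f : κ → F)
    (h : ∀ i ∈ s, IsU O (f i)) : IsU O (∏ i ∈ s, f i) := by
  classical
  induction s using Finset.induction_on with
  | empty => simpa using isU_one_GR
  | insert a s ha ih =>
    rw [Finset.prod_insert ha]
    exact isU_mul_GR (h a (Finset.mem_insert_self a s))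
      (ih fun i hi => h i (Finset.mem_insert_of_mem hi))

theorem pGoodRed0 : StUnif → StSlots → StAnisoRes → StHypRes → StUnramIso → StGoodRed := by
  intro hU hS hA hH hI F _ O hO h2 n s x u hs hx hu hE
  classical
  obtain ⟨ϖ, hϖ⟩ := hU F O hO
  obtain ⟨x', h1, h3, h4, h5⟩ := hS F O ϖ hϖ n x hx
  have hne : ∀ j, x' j ≠ 0 := by
    intro j
    refine Fin.lastCases ?_ (fun i => (h1 i).2.2) j
    rcases h3 with h | ⟨h, hh, he⟩
    · exact h.2.2
    · rw [he]; exact mul_ne_zero hϖ.2.1 hh.2.2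
  refine hI F _ _ O (pf x) (pf x') rfl (fun S => pf_ne_zero hne S) h4 ?_
  rcases h3 with h | ⟨h, hh, he⟩
  · have hu' : ∀ S, IsU O (pf x' S) := by
      intro S
      refine isU_prod_GR S _ fun j _ => isU_neg_GR ?_
      exact Fin.lastCases h (fun i => h1 i) j
    refine ⟨1, by simp, fun i j => ?_, ?_⟩
    · rw [Matrix.transpose_one, Matrix.one_mul, Matrix.mul_one, Matrix.diagonal_apply]
      split_ifs
      · exact (hu' i).1
      · exact O.zero_mem
    · rw [Matrix.transpose_one, Matrix.one_mul, Matrix.mul_one, Matrix.det_diagonal]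
      exact (isU_prod_GR Finset.univ _ fun S _ => hu' S).2.1
  · by_cases hR : ResAniso O (pf (fun j : Fin n => x' j.castSucc))
    · exact absurd (hE.trans h5) (hA F O ϖ hϖ n s x' h u hs h1 hh he hR hu)
    · exact hH F O ϖ hϖ h2 n x' h h1 hh he hR

end Pool.Agent.Helper44.RED
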