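import Pool.Agent.Helper44.RED.StD

/-!
# Project RED, module H1: one step of the elimination
-/

set_option autoImplicit false

open Polynomial

namespace Pool.Agent.Helper44.RED

private lemma qm_map_H1 {R S : Type} [CommRing R] [CommRing S] (φ : R →+* S) {N : ℕ}
    (A : Matrix (Fin N) (Fin N) R) (u : Fin N → R) :
    φ (qm A u) = qm (A.map φ) (fun i => φ (u i)) := by
  simp only [qm, dotProduct, Matrix.mulVec, map_sum, map_mul, Matrix.map_apply]

private lemma qm_smul_H1 {R : Type} [CommRing R] {N : ℕ} (A : Matrix (Fin N) (Fin N) R)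
    (c : R) (u : Fin N → R) : qm A (fun i => c * u i) = c ^ 2 * qm A u := by
  simp only [qm, dotProduct, Matrix.mulVec, Finset.mul_sum]
  refine Finset.sum_congr rfl fun i _ => Finset.sum_congr rfl fun j _ => ?_
  ring

private lemma qm_add_H1 {R : Type} [CommRing R] {N : ℕ} (A B : Matrix (Fin N) (Fin N) R)
    (x : R) (u : Fin N → R) : qm (A + x • B) u = qm A u + x * qm B u := by
  simp only [qm, Matrix.add_mulVec, Matrix.smul_mulVec, dotProduct_add, dotProduct_smul,
    smul_eq_mul]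

/-- a ring homomorphism from a valuation ring onto a field kills the non units -/
private lemma kill_H1 {R K₁ : Type} [Field R] [Field K₁] (P : ValuationSubring R) (ρ : P →+* K₁)
    (hρ : Function.Surjective ρ) (w : R) (hw : w ∈ P) (hn : ¬ IsU P w) : ρ ⟨w, hw⟩ = 0 := by
  have hmax : (RingHom.ker ρ).IsMaximal := RingHom.ker_isMaximal_of_surjective ρ hρ
  have hnu : ¬ IsUnit (⟨w, hw⟩ : P) := by
    intro hu
    apply hn
    obtain ⟨y, hy⟩ := hu.exists_right_inv
    have hy' : w * (y : R) = 1 := congrArg (fun z : P => (z : R)) hy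
    have h0 : w ≠ 0 := left_ne_zero_of_mul_eq_one hy'
    refine ⟨hw, ?_, h0⟩
    rw [← eq_inv_of_mul_eq_one_right hy']
    exact y.2
  have hm : (⟨w, hw⟩ : P) ∈ IsLocalRing.maximalIdeal P := (IsLocalRing.mem_maximalIdeal _).mpr hnu
  rw [← IsLocalRing.eq_maximalIdeal hmax] at hm
  exact (RingHom.mem_ker).mp hm

private lemma unit_H1 {R K₁ : Type} [Field R] [Field K₁] (P : ValuationSubring R) (ρ : P →+* K₁)
    (w : R) (hw : w ∈ P) (hn : IsU P w) : ρ ⟨w, hw⟩ ≠ 0 := by
  intro h
  have h1 : (⟨w, hw⟩ : P) * ⟨w⁻¹, hn.2.1⟩ = 1 := by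
    apply Subtype.ext
    exact mul_inv_cancel₀ hn.2.2
  have h2 := congrArg ρ h1
  rw [map_mul, h, zero_mul, map_one] at h2
  exact zero_ne_one h2

/-- multiples of non units are non units -/
private lemma nonunit_mul_H1 {R : Type} [Field R] (P : ValuationSubring R) (a w : R) (ha : a ∈ P)
    (hw : w ∈ P) (hn : ¬ IsU P w) : ¬ IsU P (a * w) := by
  rintro ⟨_, h2, h3⟩
  apply hn
  have hw0 : w ≠ 0 := right_ne_zero_of_mul h3
  have ha0 : a ≠ 0 := left_ne_zero_of_mul h3
  refine ⟨hw, ?_, hw0⟩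
  have e : w⁻¹ = a * (a * w)⁻¹ := by
    field_simp
  rw [e]
  exact P.mul_mem _ _ ha h2

/-- the value of a form over `K` at `c u` -/
private lemma mem_H1 {K R : Type} [Field K] [Field R] [Algebra K R] (P : ValuationSubring R)
    (hK : ∀ a : K, algebraMap K R a ∈ P) {N : ℕ} (A : Matrix (Fin N) (Fin N) K) (u : Fin N → R)
    (c : R) (hc : ∀ i, c * u i ∈ P) : c ^ 2 * qm (A.map (algebraMap K R)) u ∈ P := by
  rw [← qm_smul_H1]
  simp only [qm, dotProduct, Matrix.mulVec, Matrix.map_apply]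
  refine P.toSubring.sum_mem fun i _ => P.mul_mem _ _ (hc i) ?_
  exact P.toSubring.sum_mem fun j _ => P.mul_mem _ _ (hK _) (hc j)

/-- specialisation -/
private lemma spec_H1 {K R : Type} [Field K] [Field R] [Algebra K R] {N : ℕ}
    (S : Set (Matrix (Fin N) (Fin N) K)) (G H : Matrix (Fin N) (Fin N) K)
    (P : ValuationSubring R) (hP : OddPlace K P) (u : Fin N → R) (c : R)
    (hc : ∀ i, c * u i ∈ P) (hu : ∃ i, IsU P (c * u i))
    (hS : ∀ A ∈ S, qm (A.map (algebraMap K R)) u = 0)
    (hG : ¬ IsU P (c ^ 2 * qm (G.map (algebraMap K R)) u))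
    (hH : ¬ IsU P (c ^ 2 * qm (H.map (algebraMap K R)) u)) : OddZ K (insert G (insert H S)) := by
  obtain ⟨_, K₁, _, _, ρ, hodd, hsurj, hcomp⟩ := hP
  have hK : ∀ a : K, algebraMap K R a ∈ P := fun a => (hcomp a).choose
  let kP : K →+* P := (algebraMap K R).codRestrict P hK
  have hkP : ∀ a, ρ (kP a) = algebraMap K K₁ a := by
    intro a
    obtain ⟨h, e⟩ := hcomp a
    exact e
  let uu : Fin N → P := fun i => ⟨c * u i, hc i⟩
  have hval : ∀ A : Matrix (Fin N) (Fin N) K,
      ((qm (A.map kP) uu : P) : R) = c ^ 2 * qm (A.map (algebraMap K R)) u := by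
    intro A
    rw [← qm_smul_H1]
    have := qm_map_H1 (P.subtype) (A.map kP) uu
    exact this
  have hρ : ∀ A : Matrix (Fin N) (Fin N) K,
      ρ (qm (A.map kP) uu) = qm (A.map (algebraMap K K₁)) (fun i => ρ (uu i)) := by
    intro A
    rw [qm_map_H1]
    congr 1
    ext i j
    exact hkP _
  have hkill : ∀ A : Matrix (Fin N) (Fin N) K,
      ¬ IsU P (c ^ 2 * qm (A.map (algebraMap K R)) u) →
      qm (A.map (algebraMap K K₁)) (fun i => ρ (uu i)) = 0 := by
    intro A hA
    rw [← hρ]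
    have h1 := mem_H1 P hK A u c hc
    have h2 : qm (A.map kP) uu = ⟨_, h1⟩ := Subtype.ext (hval A)
    rw [h2]
    exact kill_H1 P ρ hsurj _ h1 hA
  refine ⟨K₁, inferInstance, inferInstance, hodd, fun i => ρ (uu i), ?_, ?_⟩
  · intro h0
    obtain ⟨i, hi⟩ := hu
    exact unit_H1 P ρ _ (hc i) hi (congrFun h0 i)
  · intro A hA
    rcases hA with rfl | rfl | hA
    · exact hkill _ hG
    · exact hkill _ hH
    · refine hkill _ ?_
      rw [hS A hA, mul_zero]
      exact fun h => h.2.2 rfl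

theorem pH1 : StPar → StNormVal → StH1 := by
  intro hPar hNV K _ _ N S G H hyp
  obtain ⟨R, _, _, hodd, u, hu0, hu⟩ := hyp
  let alg : Algebra K R := ((algebraMap (RatFunc K) R).comp (algebraMap K (RatFunc K))).toAlgebra
  have tow : IsScalarTower K (RatFunc K) R := IsScalarTower.of_algebraMap_eq fun _ => rfl
  have fd : FiniteDimensional (RatFunc K) R := Module.finite_of_finrank_pos hodd.pos
  have hcomp : ∀ A : Matrix (Fin N) (Fin N) K,
      (A.map (algebraMap K (RatFunc K))).map (algebraMap (RatFunc K) R) =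
        A.map (algebraMap K R) := by
    intro A
    ext i j
    rfl
  have hS : ∀ A ∈ S, qm (A.map (algebraMap K R)) u = 0 := by
    intro A hA
    have := hu _ (Set.mem_insert_of_mem _ ⟨A, hA, rfl⟩)
    rw [hcomp] at this
    exact this
  set x : R := algebraMap (RatFunc K) R RatFunc.X with hx
  have hGH : qm (G.map (algebraMap K R)) u + x * qm (H.map (algebraMap K R)) u = 0 := by
    have h1 := hu _ (Set.mem_insert _ _)
    have e : (G.map (algebraMap K (RatFunc K)) + (RatFunc.X : RatFunc K) •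
        H.map (algebraMap K (RatFunc K))).map (algebraMap (RatFunc K) R) =
        G.map (algebraMap K R) + x • H.map (algebraMap K R) := by
      ext i j
      simp only [Matrix.map_apply, Matrix.add_apply, Matrix.smul_apply, smul_eq_mul, map_add,
        map_mul]
      rfl
    rw [e, qm_add_H1] at h1
    exact h1
  set g := qm (G.map (algebraMap K R)) u with hg
  set η := qm (H.map (algebraMap K R)) u with hη
  have hX0 : (RatFunc.X : RatFunc K) ≠ 0 := RatFunc.X_ne_zero
  have hx0 : x ≠ 0 := by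
    rw [hx, Ne, map_eq_zero]
    exact hX0
  obtain ⟨e, he⟩ := hodd
  by_cases hη0 : η = 0
  · -- case (a)
    have hg0 : g = 0 := by
      rw [hη0, mul_zero, add_zero] at hGH
      exact hGH
    obtain ⟨O, ϖ, hO, hϖ⟩ : ∃ (O : ValuationSubring (RatFunc K)) (ϖ : RatFunc K),
        OddPlace K O ∧ Unif O ϖ := by
      rcases hPar K 1 one_ne_zero with ⟨O, ϖ, h1, h2, _⟩ | ⟨O, h1, h2, _⟩
      · exact ⟨O, ϖ, h1, h2⟩
      · exact ⟨O, _, h1, h2⟩
    have hϖ0 : ϖ ≠ 0 := hϖ.2.1
    have hz0 : algebraMap (RatFunc K) R ϖ ≠ 0 := by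
      rw [Ne, map_eq_zero]
      exact hϖ0
    obtain ⟨P, c, hP, _, _, hc, hcu, _⟩ := hNV K (RatFunc K) R O ϖ hO hϖ N u
      (algebraMap (RatFunc K) R ϖ) hu0 hz0 ⟨-(e : ℤ) - 1, by
        rw [Algebra.norm_algebraMap, he, ← zpow_natCast, ← zpow_add₀ hϖ0]
        have : (((2 * e + 1 : ℕ) : ℤ) + (2 * (-(e : ℤ) - 1) + 1)) = 0 := by
          push_cast
          ring
        rw [this, zpow_zero]
        exact ⟨O.one_mem, by rw [inv_one]; exact O.one_mem, one_ne_zero⟩⟩
    refine spec_H1 S G H P hP u c hc hcu hS ?_ ?_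
    · rw [← hg, hg0, mul_zero]
      exact fun h => h.2.2 rfl
    · rw [← hη, hη0, mul_zero]
      exact fun h => h.2.2 rfl
  · have hN0 : Algebra.norm (RatFunc K) η ≠ 0 := Algebra.norm_ne_zero_iff.mpr hη0
    rcases hPar K (Algebra.norm (RatFunc K) η) hN0 with ⟨O, ϖ, h1, h2, h3, h4⟩ | ⟨O, h1, h2, i, h4⟩
    · obtain ⟨P, c, hP, hOP, _, hc, hcu, hcz⟩ := hNV K (RatFunc K) R O ϖ h1 h2 N u η hu0 hη0 h4
      have hK : ∀ a : K, algebraMap K R a ∈ P := by
        obtain ⟨_, K₁, _, _, ρ, _, _, hh⟩ := hP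
        exact fun a => (hh a).choose
      have hxP : x ∈ P := hOP _ h3
      have hmem := mem_H1 P hK H u c hc
      refine spec_H1 S G H P hP u c hc hcu hS ?_ hcz
      have e1 : c ^ 2 * qm (G.map (algebraMap K R)) u = (-x) * (c ^ 2 * η) := by
        rw [← hg]
        linear_combination c ^ 2 * hGH
      rw [e1]
      exact nonunit_mul_H1 P _ _ (P.neg_mem _ hxP) hmem hcz
    · have hgx : g = -x * η := by linear_combination hGH
      have hg0 : g ≠ 0 := by
        rw [hgx]
        exact mul_ne_zero (neg_ne_zero.mpr hx0) hη0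
      obtain ⟨P, c, hP, hOP, _, hc, hcu, hcz⟩ := hNV K (RatFunc K) R O (RatFunc.X)⁻¹ h1 h2 N u g
        hu0 hg0 ⟨(e : ℤ) - i, by
          have e2 : Algebra.norm (RatFunc K) g = -((RatFunc.X : RatFunc K) ^ (2 * e + 1) *
              Algebra.norm (RatFunc K) η) := by
            have e3 : -x = algebraMap (RatFunc K) R (-RatFunc.X) := by rw [map_neg]
            rw [hgx, map_mul, e3, Algebra.norm_algebraMap, he, Odd.neg_pow ⟨e, rfl⟩]
            ring
          have e4 : Algebra.norm (RatFunc K) g * ((RatFunc.X : RatFunc K)⁻¹) ^ (2 * ((e : ℤ) - i) + 1)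
              = -(Algebra.norm (RatFunc K) η * (RatFunc.X : RatFunc K) ^ (2 * i)) := by
            have e5 : (RatFunc.X : RatFunc K) ^ (2 * i) = (RatFunc.X : RatFunc K) ^ (2 * e + 1) *
                ((RatFunc.X : RatFunc K)⁻¹) ^ (2 * ((e : ℤ) - i) + 1) := by
              rw [inv_zpow', ← zpow_natCast, ← zpow_add₀ hX0]
              congr 1
              push_cast
              ring
            rw [e2, e5]
            ring
          rw [e4]
          obtain ⟨a1, a2, a3⟩ := h4
          exact ⟨O.neg_mem _ a1, by rw [inv_neg]; exact O.neg_mem _ a2, neg_ne_zero.mpr a3⟩⟩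
      have hK : ∀ a : K, algebraMap K R a ∈ P := by
        obtain ⟨_, K₁, _, _, ρ, _, _, hh⟩ := hP
        exact fun a => (hh a).choose
      have hxP : x⁻¹ ∈ P := by
        have := hOP _ h2.1
        rw [map_inv₀] at this
        exact this
      have hmem := mem_H1 P hK G u c hc
      refine spec_H1 S G H P hP u c hc hcu hS hcz ?_
      have e1 : c ^ 2 * qm (H.map (algebraMap K R)) u = (-x⁻¹) * (c ^ 2 * g) := by
        rw [← hη, hgx]
        field_simp
      rw [e1]
      exact nonunit_mul_H1 P _ _ (P.neg_mem _ hxP) hmem hcz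

end Pool.Agent.Helper44.RED
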