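import Pool.Agent.Helper44.RED.StA

set_option autoImplicit false

namespace Pool.Agent.Helper44.RED

section HypCompl

variable {K : Type} [Field K]

/-- `<c,-c> ⊂ <1,-1>` -/
private lemma pair_HypCompl {ι : Type} [Fintype ι] (h2 : (2 : K) ≠ 0) (c : ι → K) :
    Emb (Sum.elim c (fun i => - c i)) (Sum.elim (fun _ : ι => (1 : K)) (fun _ : ι => -1)) := by
  classical
  set s : ι → K := fun i => (c i + 1) / 2 with hs
  set t : ι → K := fun i => (c i - 1) / 2 with ht
  have hst : ∀ i, s i ^ 2 - t i ^ 2 = c i := by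
    intro i
    simp only [hs, ht]
    field_simp
    ring
  refine ⟨Sum.elim (fun i => Sum.elim (Pi.single i (s i)) (Pi.single i (t i)))
    (fun i => Sum.elim (Pi.single i (t i)) (Pi.single i (s i))), ?_, ?_⟩
  · rintro (i | i) (j | j) hij
    · have hne : i ≠ j := fun h => hij (by rw [h])
      rw [bf_sumElim]
      simp only [Sum.elim_inl, Sum.elim_comp_inl, Sum.elim_comp_inr, bf_single_single, if_neg hne,
        add_zero]
    · rw [bf_sumElim]
      simp only [Sum.elim_inl, Sum.elim_inr, Sum.elim_comp_inl, Sum.elim_comp_inr,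
        bf_single_single]
      by_cases h : i = j
      · subst h
        simp only [if_true]
        ring
      · simp only [if_neg h, add_zero]
    · rw [bf_sumElim]
      simp only [Sum.elim_inl, Sum.elim_inr, Sum.elim_comp_inl, Sum.elim_comp_inr,
        bf_single_single]
      by_cases h : i = j
      · subst h
        simp only [if_true]
        ring
      · simp only [if_neg h, add_zero]
    · have hne : i ≠ j := fun h => hij (by rw [h])
      rw [bf_sumElim]
      simp only [Sum.elim_inr, Sum.elim_comp_inl, Sum.elim_comp_inr, bf_single_single, if_neg hne,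
        add_zero]
  · rintro (i | i)
    · rw [qf_sumElim]
      simp only [Sum.elim_inl, Sum.elim_comp_inl, Sum.elim_comp_inr, qf_single]
      have := hst i
      linear_combination this
    · rw [qf_sumElim]
      simp only [Sum.elim_inr, Sum.elim_comp_inl, Sum.elim_comp_inr, qf_single]
      have := hst i
      linear_combination -this

/-- `b ⊥ ((-b) ⊥ 1^M ⊥ (-1)^M) ⊂ 1^(l+M) ⊥ (-1)^(l+M)` -/
private lemma big_HypCompl (h2 : (2 : K) ≠ 0) (l M : ℕ) (b : Fin l → K) :
    Emb (Sum.elim b (Sum.elim (fun j => - b j)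
      (Sum.elim (fun _ : Fin M => (1 : K)) (fun _ : Fin M => -1))))
      (Sum.elim (fun _ : Fin (l + M) => (1 : K)) (fun _ : Fin (l + M) => -1)) := by
  -- first step
  have h1 := (pair_HypCompl h2 b).sum
    (Emb.refl (Sum.elim (fun _ : Fin M => (1 : K)) (fun _ : Fin M => -1)))
  -- source index
  let e : Fin l ⊕ (Fin l ⊕ (Fin M ⊕ Fin M)) → (Fin l ⊕ Fin l) ⊕ (Fin M ⊕ Fin M) :=
    Sum.elim (fun i => Sum.inl (Sum.inl i)) (Sum.elim (fun i => Sum.inl (Sum.inr i))
      (fun i => Sum.inr i))
  have he : Function.Injective e := by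
    rintro (i | (i | i)) (j | (j | j)) hij <;>
      simp only [e, Sum.elim_inl, Sum.elim_inr, Sum.inl.injEq, Sum.inr.injEq, reduceCtorEq] at hij <;>
      rw [hij]
  have h3 := Emb.restrict h1 e he
  have h4 : (fun j => Sum.elim (Sum.elim b (fun i => - b i))
      (Sum.elim (fun _ : Fin M => (1 : K)) (fun _ : Fin M => -1)) (e j)) =
      Sum.elim b (Sum.elim (fun j => - b j)
      (Sum.elim (fun _ : Fin M => (1 : K)) (fun _ : Fin M => -1))) := by
    funext j
    rcases j with j | (j | (j | j)) <;> rfl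
  rw [h4] at h3
  refine h3.trans ?_
  -- target index
  let f : (Fin l ⊕ Fin l) ⊕ (Fin M ⊕ Fin M) → Fin (l + M) ⊕ Fin (l + M) :=
    Sum.elim (Sum.elim (fun i => Sum.inl (Fin.castAdd M i)) (fun i => Sum.inr (Fin.castAdd M i)))
      (Sum.elim (fun i => Sum.inl (Fin.natAdd l i)) (fun i => Sum.inr (Fin.natAdd l i)))
  have hf : Function.Injective f := by
    rintro ((i | i) | (i | i)) ((j | j) | (j | j)) hij <;>
      simp only [f, Sum.elim_inl, Sum.elim_inr, Sum.inl.injEq, Sum.inr.injEq, reduceCtorEq] at hij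
    · rw [Fin.castAdd_injective _ _ hij]
    · exfalso
      have := congrArg Fin.val hij
      simp at this
      omega
    · rw [Fin.castAdd_injective _ _ hij]
    · exfalso
      have := congrArg Fin.val hij
      simp at this
      omega
    · exfalso
      have := congrArg Fin.val hij
      simp at this
      omega
    · rw [Fin.natAdd_injective _ _ hij]
    · exfalso
      have := congrArg Fin.val hij
      simp at this
      omega
    · rw [Fin.natAdd_injective _ _ hij]
  have h5 := Emb.comp_inj (Sum.elim (fun _ : Fin (l + M) => (1 : K)) (fun _ : Fin (l + M) => -1))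
    f hf
  convert h5 using 1
  funext j
  rcases j with (j | j) | (j | j) <;> rfl

theorem pHypCompl : StFlip → StCancel → StHypCompl := by
  intro hFlip hCancel K ι _ _ h2 a N ha hcard hhyp l hl b m q hlm hb hq hbq
  obtain ⟨M, rfl⟩ := Nat.exists_eq_add_of_le hl
  have h1 := (big_HypCompl h2 l M b).trans hhyp
  have hne : ∀ j, (Sum.elim b q) j ≠ 0 := by
    rintro (j | j)
    · exact hb j
    · exact hq j
  have h3 := (hFlip K ι (Fin l ⊕ Fin m) a (Sum.elim b q) (by
    rw [hcard, Fintype.card_sum, Fintype.card_fin, Fintype.card_fin, hlm]) hne hbq).1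
  have h4 := hCancel K (Fin l) (Fin m) (Fin l ⊕ (Fin M ⊕ Fin M)) h2 b q _ hb (h1.trans h3)
  refine ⟨?_, ?_⟩
  · exact Emb.restrict h4 Sum.inl Sum.inl_injective
  · intro hlt hA
    have hM : 0 < M := by omega
    obtain ⟨v, hv0, hv1⟩ := h4
    set x := v (Sum.inr (Sum.inl ⟨0, hM⟩)) with hx
    set y := v (Sum.inr (Sum.inr ⟨0, hM⟩)) with hy
    have hxq : qf q x = 1 := hv1 (Sum.inr (Sum.inl ⟨0, hM⟩))
    have hyq : qf q y = -1 := hv1 (Sum.inr (Sum.inr ⟨0, hM⟩))
    have hxy : bf q x y = 0 := hv0 _ _ (by simp)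
    have hz : qf q (x + y) = 0 := by
      rw [qf_add, hxq, hyq, hxy]
      ring
    have hz0 := hA _ hz
    have h5 : bf q (x + y) x = 1 := by
      rw [bf_add_left, bf_self, hxq, bf_comm, hxy, add_zero]
    rw [hz0, bf_zero_left] at h5
    exact zero_ne_one h5

end HypCompl

end Pool.Agent.Helper44.RED
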