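import Pool.Agent.Helper44.RED.StB

/-!
# Project RED, module HypRes
-/

set_option autoImplicit false

open Polynomial

namespace Pool.Agent.Helper44.RED

section HypRes

variable {F : Type} [Field F]

private lemma unram_of_gram_HypRes {ι ι' κ' : Type} [Fintype ι] [Fintype ι'] [Fintype κ']
    [DecidableEq ι] [DecidableEq κ'] (O : ValuationSubring F) (a : ι → F) (E : ι' ≃ ι)
    (e : ι ≃ κ') (v : κ' → ι' → F) (G : Matrix κ' κ' O)
    (hG : ∀ i j, bf (fun s => a (E s)) (v i) (v j) = (G i j : F)) (hd : IsUnit G.det) :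
    Unram O a := by
  set B : Matrix ι ι F := Matrix.of fun i j => v (e j) (E.symm i) with hB
  have hprod : B.transpose * Matrix.diagonal a * B = (G.map O.subtype).submatrix e e := by
    ext i j
    have h1 : (B.transpose * Matrix.diagonal a * B) i j =
        ∑ l, v (e i) (E.symm l) * a l * v (e j) (E.symm l) := by
      rw [Matrix.mul_apply]
      refine Finset.sum_congr rfl fun l _ => ?_
      rw [Matrix.mul_diagonal]
      rfl
    have h2 : ((G.map O.subtype).submatrix e e) i j = (G (e i) (e j) : F) := rfl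
    rw [h1, h2, ← hG]
    unfold bf
    rw [← Equiv.sum_comp E.symm]
    refine Finset.sum_congr rfl fun l _ => ?_
    show _ = a (E (E.symm l)) * _
    rw [E.apply_symm_apply]
    ring
  have hdet : (B.transpose * Matrix.diagonal a * B).det = (G.det : F) := by
    rw [hprod, Matrix.det_submatrix_equiv_self]
    exact (RingHom.map_det O.subtype G).symm
  have hne : (G.det : F) ≠ 0 := by
    intro h0
    have : G.det = 0 := Subtype.ext h0
    rw [this] at hd
    exact not_isUnit_zero hd
  refine ⟨B, ?_, ?_, ?_⟩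
  · intro h0
    apply hne
    rw [← hdet, Matrix.det_mul, h0, mul_zero]
  · intro i j
    rw [hprod]
    exact (G (e i) (e j)).2
  · rw [hdet]
    obtain ⟨u, hu⟩ := hd
    have h1 : ((G.det : F))⁻¹ = ((↑u⁻¹ : O) : F) := by
      apply inv_eq_of_mul_eq_one_right
      rw [← hu]
      have h3 : (u : O) * (↑u⁻¹ : O) = 1 := u.mul_inv
      exact congrArg (fun z : O => (z : F)) h3
    rw [h1]
    exact (↑u⁻¹ : O).2

private lemma div_unif_HypRes {O : ValuationSubring F} {ϖ : F} (hϖ : Unif O ϖ) {z : F}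
    (hz : z ∈ O) (hu : ¬ IsU O z) : z * ϖ⁻¹ ∈ O := by
  obtain ⟨h1, h2, h3, h4⟩ := hϖ
  by_cases hz0 : z = 0
  · rw [hz0, zero_mul]
    exact O.zero_mem
  obtain ⟨i, hi⟩ := h4 z hz0
  obtain ⟨hi1, hi2, hi3⟩ := hi
  have hpow : ∀ m : ℕ, ϖ ^ m ∈ O := fun m => pow_mem h1 m
  rcases lt_trichotomy i 0 with hlt | heq | hgt
  · obtain ⟨m, hm⟩ : ∃ m : ℕ, i = -((m : ℤ) + 1) := ⟨(-i - 1).toNat, by omega⟩
    have e : z * ϖ⁻¹ = z * ϖ ^ i * ϖ ^ m := by
      rw [mul_assoc, ← zpow_natCast, ← zpow_add₀ h2, hm]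
      have : -((m : ℤ) + 1) + m = -1 := by ring
      rw [this, zpow_neg_one]
    rw [e]
    exact O.mul_mem _ _ hi1 (hpow m)
  · exfalso
    apply hu
    rw [heq, zpow_zero, mul_one] at hi1 hi2 hi3
    exact ⟨hi1, hi2, hi3⟩
  · exfalso
    obtain ⟨m, hm⟩ : ∃ m : ℕ, i = (m : ℤ) + 1 := ⟨(i - 1).toNat, by omega⟩
    apply h3
    have e : ϖ⁻¹ = z * (z * ϖ ^ i)⁻¹ * ϖ ^ m := by
      rw [hm, zpow_add₀ h2, zpow_one, zpow_natCast]
      field_simp
    rw [e]
    exact O.mul_mem _ _ (O.mul_mem _ _ hz hi2) (hpow m)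

private lemma isU_iff_HypRes {O : ValuationSubring F} (z : O) :
    IsU O (z : F) ↔ IsLocalRing.residue O z ≠ 0 := by
  rw [IsLocalRing.residue_ne_zero_iff_isUnit]
  constructor
  · rintro ⟨h1, h2, h3⟩
    refine isUnit_iff_exists_inv.mpr ⟨⟨(z : F)⁻¹, h2⟩, ?_⟩
    apply Subtype.ext
    exact mul_inv_cancel₀ h3
  · intro h
    obtain ⟨w, hw⟩ := isUnit_iff_exists_inv.mp h
    have hw' : (z : F) * (w : F) = 1 := congrArg (fun z : O => (z : F)) hw
    have hz0 : (z : F) ≠ 0 := left_ne_zero_of_mul_eq_one hw'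
    refine ⟨z.2, ?_, hz0⟩
    have : (z : F)⁻¹ = w := by
      apply inv_eq_of_mul_eq_one_right hw'
    rw [this]
    exact w.2

/-- subsets of `Fin (n+1)` split by membership of the last element -/
private def eqv_HypRes (n : ℕ) : Finset (Fin n) ⊕ Finset (Fin n) ≃ Finset (Fin (n + 1)) where
  toFun := Sum.elim (fun S => S.map Fin.castSuccEmb)
    (fun S => insert (Fin.last n) (S.map Fin.castSuccEmb))
  invFun := fun T => if Fin.last n ∈ T then Sum.inr (Finset.univ.filter fun j => j.castSucc ∈ T)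
    else Sum.inl (Finset.univ.filter fun j => j.castSucc ∈ T)
  left_inv := by
    rintro (S | S)
    · have h1 : Fin.last n ∉ S.map Fin.castSuccEmb := by
        simp [Fin.castSucc_ne_last]
      simp only [Sum.elim_inl, if_neg h1]
      congr 1
      ext j
      simp
    · simp only [Sum.elim_inr, Finset.mem_insert_self, if_true]
      congr 1
      ext j
      simp [Fin.castSucc_ne_last]
  right_inv := by
    intro T
    by_cases h : Fin.last n ∈ T
    · simp only [if_pos h, Sum.elim_inr]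
      ext j
      refine Fin.lastCases ?_ (fun i => ?_) j
      · simp [h]
      · simp [Fin.castSucc_ne_last]
    · simp only [if_neg h, Sum.elim_inl]
      ext j
      refine Fin.lastCases ?_ (fun i => ?_) j
      · simp [h, Fin.castSucc_ne_last]
      · simp

private lemma pf_eqv_HypRes {n : ℕ} (x : Fin (n + 1) → F) :
    (fun s => pf x (eqv_HypRes n s)) =
      Sum.elim (pf fun j : Fin n => x j.castSucc)
        (fun S => (- x (Fin.last n)) * pf (fun j : Fin n => x j.castSucc) S) := by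
  funext s
  rcases s with S | S
  · show pf x (S.map Fin.castSuccEmb) = _
    unfold pf
    rw [Finset.prod_map]
    rfl
  · show pf x (insert (Fin.last n) (S.map Fin.castSuccEmb)) = _
    unfold pf
    rw [Finset.prod_insert (by simp [Fin.castSucc_ne_last]), Finset.prod_map]
    rfl

/-- the residue matrix is invertible -/
private lemma block_HypRes {K : Type} [Field K] {N : ℕ} (A : Matrix (Fin N) (Fin N) K) (c : K)
    (hc : c ≠ 0) :
    (Matrix.fromBlocks A (Matrix.scalar (Fin N) c) (Matrix.scalar (Fin N) c) 0).det ≠ 0 := by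
  intro h0
  obtain ⟨v, hv, hv0⟩ := Matrix.exists_mulVec_eq_zero_iff.mpr h0
  apply hv
  rw [Matrix.fromBlocks_mulVec] at hv0
  have h2 : (Matrix.scalar (Fin N) c).mulVec (v ∘ Sum.inl) + (0 : Matrix (Fin N) (Fin N) K).mulVec
      (v ∘ Sum.inr) = 0 := by
    have := congrArg (fun f => f ∘ Sum.inr) hv0
    simpa using this
  have h1 : A.mulVec (v ∘ Sum.inl) + (Matrix.scalar (Fin N) c).mulVec (v ∘ Sum.inr) = 0 := by
    have := congrArg (fun f => f ∘ Sum.inl) hv0
    simpa using this
  have hs : ∀ w : Fin N → K, (Matrix.scalar (Fin N) c).mulVec w = c • w := by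
    intro w
    rw [Matrix.scalar_apply]
    funext i
    rw [Matrix.mulVec_diagonal]
    rfl
  rw [Matrix.zero_mulVec, add_zero, hs] at h2
  have hl : v ∘ Sum.inl = 0 := (smul_eq_zero.mp h2).resolve_left hc
  rw [hl, Matrix.mulVec_zero, zero_add, hs] at h1
  have hr : v ∘ Sum.inr = 0 := (smul_eq_zero.mp h1).resolve_left hc
  funext i
  rcases i with i | i
  · exact congrFun hl i
  · exact congrFun hr i

/-- HYPRES. -/
theorem pHypRes (hP : StPfHyp) : StHypRes := by
  intro F _ O ϖ hϖ h2 n x h hx hh hlast hres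
  classical
  set μ : Finset (Fin n) → F := pf (fun j : Fin n => x j.castSucc) with hμ
  -- lifts to `O`
  have h2O : (2 : F) ∈ O := h2.1
  let xO : Fin n → O := fun j => ⟨x j.castSucc, (hx j).1⟩
  let hO : O := ⟨h, hh.1⟩
  let μO : Finset (Fin n) → O := pf xO
  have hμO : ∀ S, (μO S : F) = μ S := by
    intro S
    have := congrFun (pf_im O.subtype xO) S
    exact this.symm
  let res := IsLocalRing.residue O
  let xb : Fin n → IsLocalRing.ResidueField O := fun j => res (xO j)
  have hxb : ∀ j, xb j ≠ 0 := fun j => (isU_iff_HypRes (xO j)).mp (hx j)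
  have hμb : im res μO = pf xb := (pf_im res xO).symm
  have h2b : (2 : IsLocalRing.ResidueField O) ≠ 0 := by
    have h3 := (isU_iff_HypRes (⟨2, h2O⟩ : O)).mp h2
    have h4 : (⟨2, h2O⟩ : O) = (2 : O) := rfl
    rw [h4, map_ofNat] at h3
    exact h3
  have hhb : res hO ≠ 0 := (isU_iff_HypRes hO).mp hh
  -- the residue form is isotropic
  have hiso : ¬ Aniso (pf xb) := by
    intro han
    apply hres
    intro z hz hzu
    obtain ⟨i, hi⟩ := hzu
    let zO : Finset (Fin n) → O := fun i => ⟨z i, hz i⟩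
    have h3 : qf μ z = ((qf μO zO : O) : F) := by
      have h4 := qf_im O.subtype μO zO
      have h5 : im O.subtype μO = μ := funext hμO
      rw [h5] at h4
      exact h4
    have h6 : res (qf μO zO) ≠ 0 := by
      intro h7
      have h8 := qf_im res μO zO
      rw [h7, hμb] at h8
      have h9 := han _ h8
      have h10 := congrFun h9 i
      exact (isU_iff_HypRes (zO i)).mp hi h10
    show IsU O (qf μ z)
    rw [h3]
    exact (isU_iff_HypRes _).mpr h6
  -- `n` is positive
  obtain ⟨n', rfl⟩ : ∃ n', n = n' + 1 := by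
    rcases n with _ | n'
    · exfalso
      apply hiso
      intro z hz
      have e : (Finset.univ : Finset (Finset (Fin 0))) = {∅} := by
        decide
      unfold qf at hz
      rw [e, Finset.sum_singleton, pf_empty, one_mul] at hz
      funext S
      have hS : S = ∅ := Subsingleton.elim _ _
      rw [hS]
      exact pow_eq_zero_iff (two_ne_zero) |>.mp hz
    · exact ⟨n', rfl⟩
  set N := 2 ^ n' with hN
  obtain ⟨w, hw0, hw1⟩ := hP _ h2b n' xb hxb hiso
  -- hyperbolic basis over the residue field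
  set mb : Finset (Fin (n' + 1)) → IsLocalRing.ResidueField O := pf xb with hmb
  let eb : Fin N ⊕ Fin N → Finset (Fin (n' + 1)) → IsLocalRing.ResidueField O :=
    Sum.elim (fun j => w (Sum.inl j) + w (Sum.inr j)) (fun j => w (Sum.inl j) - w (Sum.inr j))
  have hwb : ∀ p q, bf mb (w p) (w q) =
      if p = q then Sum.elim (fun _ : Fin N => (1 : IsLocalRing.ResidueField O)) (fun _ => -1) p
        else 0 := by
    intro p q
    split_ifs with hpq
    · rw [← hpq, bf_self, hw1]
    · exact hw0 p q hpq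
  have hll : ∀ i j, bf mb (eb (Sum.inl i)) (eb (Sum.inl j)) = 0 := by
    intro i j
    show bf mb (w (Sum.inl i) + w (Sum.inr i)) (w (Sum.inl j) + w (Sum.inr j)) = 0
    rw [bf_add_left, bf_add_right, bf_add_right, hwb, hwb, hwb, hwb]
    by_cases hij : i = j
    · subst hij
      simp
    · simp [hij]
  have hrr : ∀ i j, bf mb (eb (Sum.inr i)) (eb (Sum.inr j)) = 0 := by
    intro i j
    show bf mb (w (Sum.inl i) - w (Sum.inr i)) (w (Sum.inl j) - w (Sum.inr j)) = 0
    rw [bf_sub_left, bf_sub_right, bf_sub_right, hwb, hwb, hwb, hwb]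
    by_cases hij : i = j
    · subst hij
      simp
    · simp [hij]
  have hlr : ∀ i j, bf mb (eb (Sum.inl i)) (eb (Sum.inr j)) = if i = j then 2 else 0 := by
    intro i j
    show bf mb (w (Sum.inl i) + w (Sum.inr i)) (w (Sum.inl j) - w (Sum.inr j)) = _
    rw [bf_add_left, bf_sub_right, bf_sub_right, hwb, hwb, hwb, hwb]
    by_cases hij : i = j
    · subst hij
      simp
      norm_num
    · simp [hij]
  -- lifts
  have hsurj : ∀ z, ∃ y : O, res y = z := IsLocalRing.residue_surjective
  choose lift hlift using hsurj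
  let W : Fin N ⊕ Fin N → Finset (Fin (n' + 1)) → O := fun p S => lift (eb p S)
  have hW : ∀ p q, res (bf μO (W p) (W q)) = bf mb (eb p) (eb q) := by
    intro p q
    rw [← bf_im, hμb]
    have e1 : ∀ p, im res (W p) = eb p := fun p => funext fun S => hlift _
    rw [e1, e1]
  -- divisible products
  have hdiv : ∀ z : O, res z = 0 → (z : F) * ϖ⁻¹ ∈ O := by
    intro z hz
    apply div_unif_HypRes hϖ z.2
    intro hu
    exact (isU_iff_HypRes z).mp hu hz
  have hll' : ∀ i j, res (bf μO (W (Sum.inl i)) (W (Sum.inl j))) = 0 := by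
    intro i j
    rw [hW, hll]
  let α : Matrix (Fin N) (Fin N) O := Matrix.of fun i j =>
    ⟨(bf μO (W (Sum.inl i)) (W (Sum.inl j)) : O) * ϖ⁻¹, hdiv _ (hll' i j)⟩
  let ϖO : O := ⟨ϖ, hϖ.1⟩
  have hϖb : res ϖO = 0 := by
    by_contra hne
    exact hϖ.2.2.1 ((isU_iff_HypRes ϖO).mpr hne).2.1
  let G2 : Matrix (Fin N ⊕ Fin N) (Fin N ⊕ Fin N) O :=
    Matrix.fromBlocks (Matrix.of fun i j => - hO * α i j)
      (Matrix.of fun i j => - hO * bf μO (W (Sum.inl i)) (W (Sum.inr j)))
      (Matrix.of fun i j => - hO * bf μO (W (Sum.inr i)) (W (Sum.inl j)))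
      (Matrix.of fun i j => - (ϖO * hO) * bf μO (W (Sum.inr i)) (W (Sum.inr j)))
  let G : Matrix (Finset (Fin (n' + 1)) ⊕ (Fin N ⊕ Fin N))
      (Finset (Fin (n' + 1)) ⊕ (Fin N ⊕ Fin N)) O :=
    Matrix.fromBlocks (Matrix.diagonal μO) 0 0 G2
  have hG2 : IsUnit G2.det := by
    rw [← IsLocalRing.residue_ne_zero_iff_isUnit, RingHom.map_det]
    have e : (IsLocalRing.residue O).mapMatrix G2 =
        Matrix.fromBlocks (Matrix.of fun i j => res (- hO * α i j))
          (Matrix.scalar (Fin N) (- res hO * 2)) (Matrix.scalar (Fin N) (- res hO * 2)) 0 := by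
      ext p q
      rcases p with i | i <;> rcases q with j | j
      · rfl
      · show res (- hO * bf μO (W (Sum.inl i)) (W (Sum.inr j))) = _
        rw [map_mul, map_neg, hW, hlr, Matrix.fromBlocks_apply₁₂, Matrix.scalar_apply,
          Matrix.diagonal_apply]
        split_ifs <;> simp
      · show res (- hO * bf μO (W (Sum.inr i)) (W (Sum.inl j))) = _
        rw [map_mul, map_neg, bf_comm, hW, hlr, Matrix.fromBlocks_apply₂₁, Matrix.scalar_apply,
          Matrix.diagonal_apply]
        by_cases hij : i = j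
        · subst hij
          simp
        · rw [if_neg hij, if_neg (fun h' => hij h'.symm), mul_zero]
      · show res (- (ϖO * hO) * bf μO (W (Sum.inr i)) (W (Sum.inr j))) = 0
        rw [map_mul, map_neg, map_mul, hϖb]
        simp
    rw [e]
    exact block_HypRes _ _ (mul_ne_zero (neg_ne_zero.mpr hhb) h2b)
  have hμu : ∀ S, IsUnit (μO S) := by
    intro S
    rw [← IsLocalRing.residue_ne_zero_iff_isUnit]
    have := congrFun hμb S
    show res (μO S) ≠ 0
    have e : res (μO S) = mb S := this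
    rw [e]
    exact pf_ne_zero hxb S
  have hGd : IsUnit G.det := by
    show IsUnit (Matrix.fromBlocks (Matrix.diagonal μO) 0 0 G2).det
    rw [Matrix.det_fromBlocks_zero₂₁, Matrix.det_diagonal]
    refine IsUnit.mul ?_ hG2
    exact IsUnit.prod_univ_iff.mpr hμu
  -- the vectors
  let v : Finset (Fin (n' + 1)) ⊕ (Fin N ⊕ Fin N) →
      Finset (Fin (n' + 1)) ⊕ Finset (Fin (n' + 1)) → F :=
    Sum.elim (fun S => Sum.elim (Pi.single S 1) 0)
      (Sum.elim (fun i => Sum.elim 0 (ϖ⁻¹ • im O.subtype (W (Sum.inl i))))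
        (fun i => Sum.elim 0 (im O.subtype (W (Sum.inr i)))))
  have hcard : Fintype.card (Finset (Fin (n' + 1 + 1))) =
      Fintype.card (Finset (Fin (n' + 1)) ⊕ (Fin N ⊕ Fin N)) := by
    simp only [Fintype.card_finset, Fintype.card_fin, Fintype.card_sum, hN]
    ring
  have hbO : ∀ y z : Finset (Fin (n' + 1)) → O,
      bf μ (im O.subtype y) (im O.subtype z) = ((bf μO y z : O) : F) := by
    intro y z
    have h4 := bf_im O.subtype μO y z
    have h5 : im O.subtype μO = μ := funext hμO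
    rw [h5] at h4
    exact h4
  have hsc : ∀ y z : Finset (Fin (n' + 1)) → F,
      bf (fun S => (- x (Fin.last (n' + 1))) * μ S) y z = - (ϖ * h) * bf μ y z := by
    intro y z
    unfold bf
    rw [Finset.mul_sum, hlast]
    exact Finset.sum_congr rfl fun S _ => by ring
  refine unram_of_gram_HypRes O (pf x) (eqv_HypRes (n' + 1)) (Fintype.equivOfCardEq hcard) v G ?_
    hGd
  intro p q
  rw [pf_eqv_HypRes, bf_sumElim]
  rcases p with S | (i | i) <;> rcases q with T | (j | j)
  · show bf μ (Pi.single S 1) (Pi.single T 1) + bf _ 0 0 = ((Matrix.diagonal μO) S T : O)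
    rw [bf_single_single, bf_zero_left, add_zero, Matrix.diagonal_apply]
    split_ifs with hST
    · rw [hμO]
      ring
    · rfl
  · show bf μ (Pi.single S 1) 0 + bf _ 0 _ = ((0 : O) : F)
    rw [bf_zero_right, bf_zero_left]
    simp
  · show bf μ (Pi.single S 1) 0 + bf _ 0 _ = ((0 : O) : F)
    rw [bf_zero_right, bf_zero_left]
    simp
  · show bf μ 0 (Pi.single T 1) + bf _ _ 0 = ((0 : O) : F)
    rw [bf_zero_right, bf_zero_left]
    simp
  · show bf μ 0 0 + bf (fun S => (- x (Fin.last (n' + 1))) * μ S)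
      (ϖ⁻¹ • im O.subtype (W (Sum.inl i))) (ϖ⁻¹ • im O.subtype (W (Sum.inl j))) =
        ((- hO * α i j : O) : F)
    rw [bf_zero_left, zero_add, hsc, bf_smul_left, bf_smul_right, hbO]
    show - (ϖ * h) * (ϖ⁻¹ * (ϖ⁻¹ * _)) = - h * (_ * ϖ⁻¹)
    have := hϖ.2.1
    field_simp
  · show bf μ 0 0 + bf (fun S => (- x (Fin.last (n' + 1))) * μ S)
      (ϖ⁻¹ • im O.subtype (W (Sum.inl i))) (im O.subtype (W (Sum.inr j))) =
        ((- hO * bf μO (W (Sum.inl i)) (W (Sum.inr j)) : O) : F)
    rw [bf_zero_left, zero_add, hsc, bf_smul_left, hbO]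
    show - (ϖ * h) * (ϖ⁻¹ * _) = - h * _
    have := hϖ.2.1
    field_simp
  · show bf μ 0 (Pi.single T 1) + bf _ _ 0 = ((0 : O) : F)
    rw [bf_zero_right, bf_zero_left]
    simp
  · show bf μ 0 0 + bf (fun S => (- x (Fin.last (n' + 1))) * μ S)
      (im O.subtype (W (Sum.inr i))) (ϖ⁻¹ • im O.subtype (W (Sum.inl j))) =
        ((- hO * bf μO (W (Sum.inr i)) (W (Sum.inl j)) : O) : F)
    rw [bf_zero_left, zero_add, hsc, bf_smul_right, hbO]
    show - (ϖ * h) * (ϖ⁻¹ * _) = - h * _
    have := hϖ.2.1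
    field_simp
  · show bf μ 0 0 + bf (fun S => (- x (Fin.last (n' + 1))) * μ S)
      (im O.subtype (W (Sum.inr i))) (im O.subtype (W (Sum.inr j))) =
        ((- (ϖO * hO) * bf μO (W (Sum.inr i)) (W (Sum.inr j)) : O) : F)
    rw [bf_zero_left, zero_add, hsc, hbO]
    rfl

end HypRes

end Pool.Agent.Helper44.RED
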