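import Pool.Agent.Helper44.RED.StB

/-!
# Project RED, module InfPlace: the place at infinity of `E(X)`
-/

set_option autoImplicit false

open Polynomial

namespace Pool.Agent.Helper44.RED

/-- the functions of degree at most zero -/
private noncomputable def inf_InfPlace (E : Type) [Field E] : ValuationSubring (RatFunc E) where
  carrier := {z | z.intDegree ≤ 0}
  mul_mem' := by
    intro x y hx hy
    simp only [Set.mem_setOf_eq] at hx hy ⊢
    by_cases h1 : x = 0
    · rw [h1, zero_mul, RatFunc.intDegree_zero]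
    by_cases h2 : y = 0
    · rw [h2, mul_zero, RatFunc.intDegree_zero]
    rw [RatFunc.intDegree_mul h1 h2]
    omega
  one_mem' := by
    simp only [Set.mem_setOf_eq, RatFunc.intDegree_one, le_refl]
  add_mem' := by
    intro x y hx hy
    simp only [Set.mem_setOf_eq] at hx hy ⊢
    by_cases h1 : x + y = 0
    · rw [h1, RatFunc.intDegree_zero]
    by_cases h2 : y = 0
    · rw [h2, add_zero]; exact hx
    exact (RatFunc.intDegree_add_le h2 h1).trans (max_le hx hy)
  zero_mem' := by
    simp only [Set.mem_setOf_eq, RatFunc.intDegree_zero, le_refl]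
  neg_mem' := by
    intro x hx
    simp only [Set.mem_setOf_eq] at hx ⊢
    rw [RatFunc.intDegree_neg]; exact hx
  mem_or_inv_mem' := by
    intro x
    show x.intDegree ≤ 0 ∨ x⁻¹.intDegree ≤ 0
    rw [RatFunc.intDegree_inv]
    omega

private lemma mem_InfPlace {E : Type} [Field E] (z : RatFunc E) :
    z ∈ inf_InfPlace E ↔ z.intDegree ≤ 0 := Iff.rfl

private lemma ratX_ne_InfPlace (E : Type) [Field E] : (RatFunc.X : RatFunc E) ≠ 0 := RatFunc.X_ne_zero

private lemma intDegree_pow_InfPlace {E : Type} [Field E] (n : ℕ) :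
    ((RatFunc.X : RatFunc E) ^ n).intDegree = n := by
  induction n with
  | zero => rw [pow_zero, RatFunc.intDegree_one]; rfl
  | succ n ih =>
    rw [pow_succ, RatFunc.intDegree_mul (pow_ne_zero n (ratX_ne_InfPlace E)) (ratX_ne_InfPlace E),
      ih, RatFunc.intDegree_X]
    push_cast
    rfl

private lemma unit_InfPlace {E : Type} [Field E] {z : inf_InfPlace E} (hz : (z : RatFunc E) ≠ 0)
    (h : (z : RatFunc E).intDegree = 0) : IsUnit z := by
  have hm : (z : RatFunc E)⁻¹ ∈ inf_InfPlace E := by
    rw [mem_InfPlace, RatFunc.intDegree_inv, h]; exact le_of_eq neg_zero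
  refine IsUnit.of_mul_eq_one ⟨(z : RatFunc E)⁻¹, hm⟩ ?_
  apply Subtype.ext
  exact mul_inv_cancel₀ hz

theorem pInfPlace : StInfPlace := by
  intro E _
  classical
  refine ⟨inf_InfPlace E, ?_, ?_⟩
  · have hX := ratX_ne_InfPlace E
    have hpm : (RatFunc.X : RatFunc E)⁻¹ ∈ inf_InfPlace E := by
      rw [mem_InfPlace, RatFunc.intDegree_inv, RatFunc.intDegree_X]; norm_num
    refine IsDiscreteValuationRing.ofHasUnitMulPowIrreducibleFactorization
      ⟨⟨(RatFunc.X : RatFunc E)⁻¹, hpm⟩, ?_, ?_⟩
    · constructor
      · intro hu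
        obtain ⟨v, hv⟩ := hu.exists_right_inv
        have h1 : (RatFunc.X : RatFunc E)⁻¹ * (v : RatFunc E) = 1 := congrArg Subtype.val hv
        have h2 : (v : RatFunc E) = RatFunc.X := by
          field_simp at h1
          exact h1
        have h3 := (mem_InfPlace _).1 v.2
        rw [h2, RatFunc.intDegree_X] at h3
        norm_num at h3
      · intro a b hab
        have h1 : (RatFunc.X : RatFunc E)⁻¹ = (a : RatFunc E) * (b : RatFunc E) :=
          congrArg Subtype.val hab
        have ha : (a : RatFunc E) ≠ 0 := by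
          intro h; rw [h, zero_mul] at h1; exact inv_ne_zero hX h1
        have hb : (b : RatFunc E) ≠ 0 := by
          intro h; rw [h, mul_zero] at h1; exact inv_ne_zero hX h1
        have h2 := congrArg RatFunc.intDegree h1
        rw [RatFunc.intDegree_mul ha hb, RatFunc.intDegree_inv, RatFunc.intDegree_X] at h2
        have h3 := (mem_InfPlace _).1 a.2
        have h4 := (mem_InfPlace _).1 b.2
        by_cases h5 : (a : RatFunc E).intDegree = 0
        · exact Or.inl (unit_InfPlace ha h5)
        · exact Or.inr (unit_InfPlace hb (by omega))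
    · intro x hx
      have hx0 : (x : RatFunc E) ≠ 0 := fun h => hx (Subtype.ext h)
      have hd := (mem_InfPlace _).1 x.2
      obtain ⟨n, hn⟩ := Int.eq_ofNat_of_zero_le (neg_nonneg.2 hd)
      refine ⟨n, ?_⟩
      have hu0 : (x : RatFunc E) * RatFunc.X ^ n ≠ 0 := mul_ne_zero hx0 (pow_ne_zero n hX)
      have hud : ((x : RatFunc E) * RatFunc.X ^ n).intDegree = 0 := by
        rw [RatFunc.intDegree_mul hx0 (pow_ne_zero n hX), intDegree_pow_InfPlace]
        omega
      have hum : (x : RatFunc E) * RatFunc.X ^ n ∈ inf_InfPlace E := by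
        rw [mem_InfPlace, hud]
      have hu : IsUnit (⟨(x : RatFunc E) * RatFunc.X ^ n, hum⟩ : inf_InfPlace E) :=
        unit_InfPlace hu0 hud
      obtain ⟨u, hu'⟩ := hu
      refine ⟨u, ?_⟩
      rw [hu']
      apply Subtype.ext
      show ((RatFunc.X : RatFunc E)⁻¹) ^ n * ((x : RatFunc E) * RatFunc.X ^ n) = (x : RatFunc E)
      rw [inv_pow, mul_comm (x : RatFunc E), ← mul_assoc, inv_mul_cancel₀ (pow_ne_zero n hX),
        one_mul]
  · intro z
    rw [mem_InfPlace]
    constructor
    · intro hz
      refine ⟨z.num, z.denom, z.denom_ne_zero, ?_, (RatFunc.num_div_denom z).symm⟩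
      by_cases h0 : z.num = 0
      · rw [h0, degree_zero]; exact bot_le
      · rw [degree_eq_natDegree h0, degree_eq_natDegree z.denom_ne_zero]
        unfold RatFunc.intDegree at hz
        exact_mod_cast (by omega : z.num.natDegree ≤ z.denom.natDegree)
    · rintro ⟨f, g, hg, hfg, rfl⟩
      by_cases h0 : f = 0
      · rw [h0, map_zero, zero_div, RatFunc.intDegree_zero]
      · have hf' : algebraMap E[X] (RatFunc E) f ≠ 0 := RatFunc.algebraMap_ne_zero h0
        have hg' : algebraMap E[X] (RatFunc E) g ≠ 0 := RatFunc.algebraMap_ne_zero hg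
        rw [RatFunc.intDegree_div hf' hg', RatFunc.intDegree_polynomial,
          RatFunc.intDegree_polynomial]
        have := natDegree_le_natDegree hfg
        omega

end Pool.Agent.Helper44.RED
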