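import Pool.Agent.Helper44.RED.StC

/-!
# Project RED: isotropic vectors with fixed first coordinate
-/

set_option autoImplicit false

open Polynomial

namespace Pool.Agent.Helper44.RED

section gen

variable {k F : Type} [Field k] [Field F] [Algebra k F]

private lemma mem_left_IsoGen {L : IntermediateField k F} {S : Set F} {z : F} (hz : z ∈ L) :
    z ∈ L ⊔ IntermediateField.adjoin k S :=
  (le_sup_left : L ≤ _) hz

private lemma mem_right_IsoGen {L : IntermediateField k F} {S : Set F} {z : F} (hz : z ∈ S) :
    z ∈ L ⊔ IntermediateField.adjoin k S :=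
  (le_sup_right : IntermediateField.adjoin k S ≤ _) (IntermediateField.subset_adjoin k S hz)

private lemma genN_IsoGen {L : IntermediateField k F} {S : Set F} {κ : Type} [Fintype κ]
    (g : κ → F) {N : ℕ} (hN : Fintype.card κ ≤ N)
    (h1 : ∀ j, g j ∈ L ⊔ IntermediateField.adjoin k S)
    (h2 : ∀ z ∈ S, z ∈ L ⊔ IntermediateField.adjoin k (Set.range g)) :
    GenN L (L ⊔ IntermediateField.adjoin k S) N := by
  classical
  have hc : Fintype.card κ ≤ Fintype.card (Fin N) := by rw [Fintype.card_fin]; exact hN
  obtain ⟨e⟩ := Function.Embedding.nonempty_of_card_le hc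
  refine ⟨Function.extend e g 0, le_antisymm ?_ ?_⟩
  · refine sup_le le_sup_left ?_
    rw [IntermediateField.adjoin_le_iff]
    intro z hz
    have hle : L ⊔ IntermediateField.adjoin k (Set.range g) ≤
        L ⊔ IntermediateField.adjoin k (Set.range (Function.extend e g 0)) := by
      refine sup_le le_sup_left ?_
      rw [IntermediateField.adjoin_le_iff]
      rintro _ ⟨j, rfl⟩
      exact mem_right_IsoGen ⟨e j, e.injective.extend_apply g 0 j⟩
    exact hle (h2 z hz)
  · refine sup_le le_sup_left ?_
    rw [IntermediateField.adjoin_le_iff]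
    rintro _ ⟨i, rfl⟩
    by_cases hi : ∃ j, e j = i
    · obtain ⟨j, rfl⟩ := hi
      rw [e.injective.extend_apply]
      exact h1 j
    · rw [Function.extend_apply' _ _ _ hi]
      exact zero_mem _

end gen

section split

variable {n : ℕ}

private def inA_IsoGen (S : Finset (Fin n)) : Finset (Fin (n + 1)) := S.map Fin.castSuccEmb

private def inB_IsoGen (S : Finset (Fin n)) : Finset (Fin (n + 1)) :=
  insert (Fin.last n) (S.map Fin.castSuccEmb)

private lemma last_notMem_IsoGen (S : Finset (Fin n)) : Fin.last n ∉ S.map Fin.castSuccEmb := by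
  intro h
  obtain ⟨i, _, hi⟩ := Finset.mem_map.1 h
  exact (Fin.castSucc_lt_last i).ne hi

private lemma bij_IsoGen : Function.Bijective
    (Sum.elim (inA_IsoGen (n := n)) (inB_IsoGen (n := n))) := by
  constructor
  · rintro (S | S) (T | T) h
    · exact congrArg Sum.inl (Finset.map_injective _ h)
    · exfalso
      have h1 : Fin.last n ∈ inB_IsoGen T := Finset.mem_insert_self _ _
      have h2 : Fin.last n ∈ inA_IsoGen S := by
        have h3 : inA_IsoGen S = inB_IsoGen T := h
        rw [h3]; exact h1
      exact last_notMem_IsoGen S h2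
    · exfalso
      have h1 : Fin.last n ∈ inB_IsoGen S := Finset.mem_insert_self _ _
      have h2 : Fin.last n ∈ inA_IsoGen T := by
        have h3 : inB_IsoGen S = inA_IsoGen T := h
        rw [← h3]; exact h1
      exact last_notMem_IsoGen T h2
    · have h3 : insert (Fin.last n) (S.map Fin.castSuccEmb) =
        insert (Fin.last n) (T.map Fin.castSuccEmb) := h
      have h4 : S.map Fin.castSuccEmb = T.map Fin.castSuccEmb := by
        rw [← Finset.erase_insert (last_notMem_IsoGen S), h3,
          Finset.erase_insert (last_notMem_IsoGen T)]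
      exact congrArg Sum.inr (Finset.map_injective _ h4)
  · intro T
    have key : ∀ i : Fin n, Fin.castSucc i ∈
        (Finset.univ.filter fun i : Fin n => Fin.castSucc i ∈ T).map Fin.castSuccEmb ↔
        Fin.castSucc i ∈ T := by
      intro i
      rw [Finset.mem_map]
      constructor
      · rintro ⟨j, hj, hji⟩
        have : j = i := Fin.castSucc_injective n hji
        rw [← this]
        exact (Finset.mem_filter.1 hj).2
      · intro hi
        exact ⟨i, Finset.mem_filter.2 ⟨Finset.mem_univ _, hi⟩, rfl⟩
    by_cases h : Fin.last n ∈ T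
    · refine ⟨Sum.inr (Finset.univ.filter fun i : Fin n => Fin.castSucc i ∈ T), ?_⟩
      show inB_IsoGen _ = T
      unfold inB_IsoGen
      ext i
      refine Fin.lastCases ?_ (fun i => ?_) i
      · exact ⟨fun _ => h, fun _ => Finset.mem_insert_self _ _⟩
      · rw [Finset.mem_insert, key]
        constructor
        · rintro (h' | h')
          · exact absurd h' (Fin.castSucc_lt_last i).ne
          · exact h'
        · exact Or.inr
    · refine ⟨Sum.inl (Finset.univ.filter fun i : Fin n => Fin.castSucc i ∈ T), ?_⟩
      show inA_IsoGen _ = T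
      unfold inA_IsoGen
      ext i
      refine Fin.lastCases ?_ (fun i => ?_) i
      · exact ⟨fun h' => absurd h' (last_notMem_IsoGen _), fun h' => absurd h' h⟩
      · exact key i

private lemma pfA_IsoGen {R : Type} [CommRing R] (x : Fin (n + 1) → R) (S : Finset (Fin n)) :
    pf x (inA_IsoGen S) = pf (fun j : Fin n => x j.castSucc) S := by
  unfold pf inA_IsoGen
  rw [Finset.prod_map]
  rfl

private lemma pfB_IsoGen {R : Type} [CommRing R] (x : Fin (n + 1) → R) (S : Finset (Fin n)) :
    pf x (inB_IsoGen S) = - x (Fin.last n) * pf (fun j : Fin n => x j.castSucc) S := by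
  unfold pf inB_IsoGen
  rw [Finset.prod_insert (last_notMem_IsoGen S), Finset.prod_map]
  rfl

private lemma qf_split_IsoGen {R : Type} [CommRing R] (x : Fin (n + 1) → R)
    (U : Finset (Fin (n + 1)) → R) :
    qf (pf x) U = qf (pf (fun j : Fin n => x j.castSucc)) (fun S => U (inA_IsoGen S)) -
      x (Fin.last n) * qf (pf (fun j : Fin n => x j.castSucc)) (fun S => U (inB_IsoGen S)) := by
  unfold qf
  rw [← (Equiv.ofBijective _ (bij_IsoGen (n := n))).sum_comp, Fintype.sum_sum_type, Finset.mul_sum,
    sub_eq_add_neg, ← Finset.sum_neg_distrib]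
  congr 1
  · refine Finset.sum_congr rfl fun S _ => ?_
    show pf x (inA_IsoGen S) * U (inA_IsoGen S) ^ 2 = _
    rw [pfA_IsoGen]
  · refine Finset.sum_congr rfl fun S _ => ?_
    show pf x (inB_IsoGen S) * U (inB_IsoGen S) ^ 2 = _
    rw [pfB_IsoGen]
    ring

end split

private lemma qf_mem_IsoGen {k F : Type} [Field k] [Field F] [Algebra k F]
    (M : IntermediateField k F) {n : ℕ} (x : Fin n → F) (U : Finset (Fin n) → F)
    (hx : ∀ j, x j ∈ M) (hU : ∀ S, U S ∈ M) : qf (pf x) U ∈ M := by
  unfold qf pf
  exact sum_mem fun S _ => mul_mem (prod_mem fun j _ => neg_mem (hx j)) (pow_mem (hU S) 2)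

theorem pIsoGen : StIsoGen := by
  intro k F _ _ _ L n
  induction n with
  | zero =>
    intro x U hU hq
    exfalso
    have : qf (pf x) U = 1 := by
      unfold qf
      rw [Fintype.sum_eq_single (∅ : Finset (Fin 0)) (fun S hS => absurd (Subsingleton.elim _ _) hS),
        pf_empty, hU]
      ring
    rw [this] at hq
    exact one_ne_zero hq
  | succ n ih =>
    intro x U hU hq
    set x' : Fin n → F := fun j => x j.castSucc with hx'
    set Ua : Finset (Fin n) → F := fun S => U (inA_IsoGen S) with hUa
    set Ub : Finset (Fin n) → F := fun S => U (inB_IsoGen S) with hUb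
    rw [qf_split_IsoGen] at hq
    have hxm : ∀ j, x j ∈ L ⊔ IntermediateField.adjoin k (Set.range x ∪ Set.range U) :=
      fun j => mem_right_IsoGen (Or.inl ⟨j, rfl⟩)
    have hUm : ∀ S, U S ∈ L ⊔ IntermediateField.adjoin k (Set.range x ∪ Set.range U) :=
      fun S => mem_right_IsoGen (Or.inr ⟨S, rfl⟩)
    by_cases hβ : qf (pf x') Ub = 0
    · -- the second half is isotropic too
      have hα : qf (pf x') Ua = 0 := by
        rw [hβ, mul_zero, sub_zero] at hq
        exact hq
      have hUa0 : Ua ∅ = 1 := by
        rw [hUa]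
        show U (inA_IsoGen ∅) = 1
        unfold inA_IsoGen
        rw [Finset.map_empty, hU]
      have hn : n ≠ 0 := by
        rintro rfl
        have : qf (pf x') Ua = 1 := by
          unfold qf
          rw [Fintype.sum_eq_single (∅ : Finset (Fin 0))
            (fun S hS => absurd (Subsingleton.elim _ _) hS), pf_empty, hUa0]
          ring
        rw [this] at hα
        exact one_ne_zero hα
      obtain ⟨g, hg⟩ := ih x' Ua hUa0 hα
      have hgL : ∀ j, g j ∈ L ⊔ IntermediateField.adjoin k (Set.range x' ∪ Set.range Ua) := by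
        intro j; rw [hg]; exact mem_right_IsoGen ⟨j, rfl⟩
      refine genN_IsoGen (κ := Fin (n - 1 + (2 ^ n - 1)) ⊕ (Unit ⊕ Finset (Fin n)))
        (Sum.elim g (Sum.elim (fun _ => x (Fin.last n)) Ub)) ?_ ?_ ?_
      · rw [Fintype.card_sum, Fintype.card_sum, Fintype.card_fin, Fintype.card_unit,
          Fintype.card_finset, Fintype.card_fin, pow_succ]
        have := Nat.one_le_two_pow (n := n)
        omega
      · rintro (j | j | S)
        · have hle : L ⊔ IntermediateField.adjoin k (Set.range x' ∪ Set.range Ua) ≤
              L ⊔ IntermediateField.adjoin k (Set.range x ∪ Set.range U) := by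
            refine sup_le le_sup_left ?_
            rw [IntermediateField.adjoin_le_iff]
            rintro _ (⟨i, rfl⟩ | ⟨S, rfl⟩)
            · exact hxm _
            · exact hUm _
          exact hle (hgL j)
        · exact hxm _
        · exact hUm _
      · have hle : L ⊔ IntermediateField.adjoin k (Set.range x' ∪ Set.range Ua) ≤
            L ⊔ IntermediateField.adjoin k (Set.range
              (Sum.elim g (Sum.elim (fun _ : Unit => x (Fin.last n)) Ub))) := by
          rw [hg]
          refine sup_le le_sup_left ?_
          rw [IntermediateField.adjoin_le_iff]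
          rintro _ ⟨i, rfl⟩
          exact mem_right_IsoGen ⟨Sum.inl i, rfl⟩
        rintro _ (⟨i, rfl⟩ | ⟨T, rfl⟩)
        · refine Fin.lastCases ?_ (fun i => ?_) i
          · exact mem_right_IsoGen ⟨Sum.inr (Sum.inl ()), rfl⟩
          · exact hle (mem_right_IsoGen (Or.inl ⟨i, rfl⟩))
        · obtain ⟨S | S, hS⟩ := (bij_IsoGen (n := n)).2 T
          · have hS' : inA_IsoGen S = T := hS
            rw [← hS']
            exact hle (mem_right_IsoGen (Or.inr ⟨S, rfl⟩))
          · have hS' : inB_IsoGen S = T := hS
            rw [← hS']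
            exact mem_right_IsoGen ⟨Sum.inr (Sum.inr S), rfl⟩
    · -- `y` is a quotient
      refine genN_IsoGen (κ := Fin n ⊕ {T : Finset (Fin (n + 1)) // T ≠ ∅})
        (Sum.elim x' (fun T => U T.1)) ?_ ?_ ?_
      · rw [Fintype.card_sum, Fintype.card_fin, Fintype.card_subtype_compl, Fintype.card_finset,
          Fintype.card_fin, Fintype.card_subtype_eq]
        omega
      · rintro (j | T)
        · exact hxm _
        · exact hUm _
      · set N := L ⊔ IntermediateField.adjoin k (Set.range
            (Sum.elim x' (fun T : {T : Finset (Fin (n + 1)) // T ≠ ∅} => U T.1))) with hN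
        have h1 : ∀ j, x' j ∈ N := fun j => mem_right_IsoGen ⟨Sum.inl j, rfl⟩
        have h2 : ∀ T, U T ∈ N := by
          intro T
          by_cases hT : T = ∅
          · rw [hT, hU]; exact one_mem _
          · exact mem_right_IsoGen ⟨Sum.inr ⟨T, hT⟩, rfl⟩
        have h3 : x (Fin.last n) = qf (pf x') Ua / qf (pf x') Ub := by
          rw [eq_div_iff hβ]
          exact (sub_eq_zero.1 hq).symm
        rintro _ (⟨i, rfl⟩ | ⟨T, rfl⟩)
        · refine Fin.lastCases ?_ (fun i => ?_) i
          · rw [h3]
            exact div_mem (qf_mem_IsoGen _ _ _ h1 fun S => h2 _)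
              (qf_mem_IsoGen _ _ _ h1 fun S => h2 _)
          · exact h1 i
        · exact h2 T

end Pool.Agent.Helper44.RED
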