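import Pool.Agent.Helper44.RED.StC

/-! # Project RED, module Kum: adjoining independent square roots to a domain (helper78) -/

set_option autoImplicit false

open MvPolynomial

namespace Pool.Agent.Helper44.RED

/-- the quadratic extension `K + K w` of a subfield, `w² ∈ K`, `w ∉ K` -/
private def quad_Kum {Ω : Type} [Field Ω] (K : Subfield Ω) (w : Ω)
    (hw2 : w ^ 2 ∈ K) (hw : w ∉ K) : Subfield Ω where
  carrier := {z | ∃ a ∈ K, ∃ b ∈ K, z = a + b * w}
  mul_mem' := by
    rintro _ _ ⟨a, ha, b, hb, rfl⟩ ⟨a', ha', b', hb', rfl⟩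
    refine ⟨a * a' + b * b' * w ^ 2, K.add_mem (K.mul_mem ha ha')
      (K.mul_mem (K.mul_mem hb hb') hw2), a * b' + b * a',
      K.add_mem (K.mul_mem ha hb') (K.mul_mem hb ha'), by ring⟩
  one_mem' := ⟨1, K.one_mem, 0, K.zero_mem, by ring⟩
  add_mem' := by
    rintro _ _ ⟨a, ha, b, hb, rfl⟩ ⟨a', ha', b', hb', rfl⟩
    exact ⟨a + a', K.add_mem ha ha', b + b', K.add_mem hb hb', by ring⟩
  zero_mem' := ⟨0, K.zero_mem, 0, K.zero_mem, by ring⟩
  neg_mem' := by
    rintro _ ⟨a, ha, b, hb, rfl⟩
    exact ⟨-a, K.neg_mem ha, -b, K.neg_mem hb, by ring⟩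
  inv_mem' := by
    rintro _ ⟨a, ha, b, hb, rfl⟩
    by_cases hb0 : b = 0
    · subst hb0
      exact ⟨a⁻¹, K.inv_mem ha, 0, K.zero_mem, by simp⟩
    have hN : a ^ 2 - b ^ 2 * w ^ 2 ≠ 0 := by
      intro h
      have h1 : (a - b * w) * (a + b * w) = 0 := by linear_combination h
      rcases mul_eq_zero.1 h1 with h3 | h3
      · apply hw
        have : w = a / b := by field_simp; linear_combination -h3
        rw [this]; exact K.div_mem ha hb
      · apply hw
        have : w = -a / b := by field_simp; linear_combination h3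
        rw [this]; exact K.div_mem (K.neg_mem ha) hb
    have hz : a + b * w ≠ 0 := by
      intro h
      apply hN
      linear_combination (a - b * w) * h
    have hNK : a ^ 2 - b ^ 2 * w ^ 2 ∈ K :=
      K.sub_mem (K.pow_mem ha 2) (K.mul_mem (K.pow_mem hb 2) hw2)
    refine ⟨a / (a ^ 2 - b ^ 2 * w ^ 2), K.div_mem ha hNK, -b / (a ^ 2 - b ^ 2 * w ^ 2),
      K.div_mem (K.neg_mem hb) hNK, ?_⟩
    field_simp
    ring

/-- linear independence of the products of independent square roots -/
private theorem linInd_Kum {Ω π : Type} [Field Ω] [DecidableEq π] (h2 : (2 : Ω) ≠ 0) (w : π → Ω)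
    (T : Finset π) : ∀ (K : Subfield Ω), (∀ p ∈ T, w p ^ 2 ∈ K) →
    (∀ S, S ⊆ T → S.Nonempty → ∀ z ∈ K, z ^ 2 ≠ ∏ p ∈ S, w p ^ 2) →
    ∀ c : Finset π → Ω, (∀ S, c S ∈ K) → ∑ S ∈ T.powerset, c S * ∏ p ∈ S, w p = 0 →
      ∀ S, S ⊆ T → c S = 0 := by
  induction T using Finset.induction_on with
  | empty =>
    intro K _ _ c _ h S hS
    rw [Finset.subset_empty] at hS
    subst hS
    simpa using h
  | insert q T hq ih =>
    intro K hK hns c hc h S hS
    have hwq2 : w q ^ 2 ∈ K := hK q (Finset.mem_insert_self q T)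
    have hwq : w q ∉ K := by
      intro hmem
      refine hns {q} (by simp) ⟨q, by simp⟩ (w q) hmem ?_
      simp
    have key : ∀ a ∈ K, ∀ b ∈ K, a + b * w q = 0 → a = 0 ∧ b = 0 := by
      intro a ha b hb hab
      by_cases hb0 : b = 0
      · subst hb0
        refine ⟨by simpa using hab, rfl⟩
      · exfalso
        apply hwq
        have : w q = -a / b := by field_simp; linear_combination hab
        rw [this]; exact K.div_mem (K.neg_mem ha) hb
    set K' := quad_Kum K (w q) hwq2 hwq with hK'
    have hKK' : ∀ z ∈ K, z ∈ K' := fun z hz => ⟨z, hz, 0, K.zero_mem, by ring⟩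
    have hsum : ∑ S ∈ T.powerset, (c S + c (insert q S) * w q) * ∏ p ∈ S, w p = 0 := by
      rw [Finset.sum_powerset_insert hq] at h
      rw [← h, ← Finset.sum_add_distrib]
      refine Finset.sum_congr rfl ?_
      intro S hS
      have hqS : q ∉ S := fun hm => hq (Finset.mem_powerset.1 hS hm)
      rw [Finset.prod_insert hqS]
      ring
    have h3 := ih K' (fun p hp => hKK' _ (hK p (Finset.mem_insert_of_mem hp))) (by
      intro S hS hne z hz hz2
      obtain ⟨a, ha, b, hb, rfl⟩ := hz
      have hprod : (∏ p ∈ S, w p ^ 2) ∈ K :=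
        K.prod_mem fun p hp => hK p (Finset.mem_insert_of_mem (hS hp))
      have h4 : (a ^ 2 + b ^ 2 * w q ^ 2 - ∏ p ∈ S, w p ^ 2) + (2 * a * b) * w q = 0 := by
        linear_combination hz2
      have h5 := key _ (K.sub_mem (K.add_mem (K.pow_mem ha 2)
        (K.mul_mem (K.pow_mem hb 2) hwq2)) hprod) _
        (K.mul_mem (K.mul_mem (by rw [← one_add_one_eq_two]; exact K.add_mem K.one_mem K.one_mem) ha) hb) h4
      obtain ⟨h6, h7⟩ := h5
      have h8 : a = 0 ∨ b = 0 := by
        rcases mul_eq_zero.1 h7 with h9 | h9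
        · rcases mul_eq_zero.1 h9 with h10 | h10
          · exact absurd h10 h2
          · exact Or.inl h10
        · exact Or.inr h9
      rcases h8 with h8 | h8
      · subst h8
        have hqS : q ∉ S := fun hm => hq (hS hm)
        refine hns (insert q S) (Finset.insert_subset_insert q hS) ⟨q, by simp⟩
          (b * w q ^ 2) (K.mul_mem hb hwq2) ?_
        rw [Finset.prod_insert hqS]
        linear_combination (w q ^ 2) * h6
      · subst h8
        refine hns S (hS.trans (Finset.subset_insert q T)) hne a ha ?_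
        linear_combination h6) (fun S => c S + c (insert q S) * w q)
      (fun S => ⟨c S, hc S, c (insert q S), hc _, rfl⟩) hsum
    by_cases hqS : q ∈ S
    · have h4 : S.erase q ⊆ T := by
        intro p hp
        rw [Finset.mem_erase] at hp
        exact (Finset.mem_insert.1 (hS hp.2)).resolve_left hp.1
      have h5 := (key _ (hc _) _ (hc _) (h3 (S.erase q) h4)).2
      rwa [Finset.insert_erase hqS] at h5
    · have h4 : S ⊆ T := by
        intro p hp
        exact (Finset.mem_insert.1 (hS hp)).resolve_left (fun h => hqS (h ▸ hp))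
      exact (key _ (hc _) _ (hc _) (h3 S h4)).1

theorem pKum : StKum := by
  intro R₀ π _ _ _ h2 f hsq
  classical
  cases nonempty_fintype π
  set L := FractionRing R₀ with hL
  set Ω := AlgebraicClosure L with hΩ
  set I : Ideal (MvPolynomial π R₀) := Ideal.span (Set.range fun p : π =>
    (MvPolynomial.X p ^ 2 - MvPolynomial.C (f p) : MvPolynomial π R₀)) with hI
  have hinj : Function.Injective (algebraMap R₀ Ω) := by
    rw [IsScalarTower.algebraMap_eq R₀ L Ω]
    exact (algebraMap L Ω).injective.comp (IsFractionRing.injective R₀ L)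
  have h2Ω : (2 : Ω) ≠ 0 := by
    intro h
    apply h2
    apply hinj
    rw [map_zero, map_ofNat]
    exact h
  have hw : ∀ p, ∃ w : Ω, w ^ 2 = algebraMap R₀ Ω (f p) := by
    intro p
    obtain ⟨z, hz⟩ := IsAlgClosed.exists_pow_nat_eq (algebraMap R₀ Ω (f p)) (n := 2) (by norm_num)
    exact ⟨z, hz⟩
  choose w hw using hw
  -- the evaluation
  let φ : MvPolynomial π R₀ →ₐ[R₀] Ω := MvPolynomial.aeval w
  have hφI : ∀ a ∈ I, φ a = 0 := by
    intro a ha
    have : I ≤ RingHom.ker φ := by
      rw [hI, Ideal.span_le]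
      rintro _ ⟨p, rfl⟩
      simp [RingHom.mem_ker, φ, hw]
    exact this ha
  let Φ : (MvPolynomial π R₀ ⧸ I) →ₐ[R₀] Ω := Ideal.Quotient.liftₐ I φ hφI
  have hΦ : ∀ P, Φ (Ideal.Quotient.mk I P) = φ P := fun P => rfl
  -- the spanning set
  let v : Finset π → (MvPolynomial π R₀ ⧸ I) := fun S => Ideal.Quotient.mk I (∏ p ∈ S, X p)
  have hX2 : ∀ q, Ideal.Quotient.mk I (X q ^ 2) = algebraMap R₀ _ (f q) := by
    intro q
    have h1 : (X q ^ 2 - C (f q) : MvPolynomial π R₀) ∈ I := Ideal.subset_span ⟨q, rfl⟩
    have h3 := Ideal.Quotient.eq.2 h1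
    rw [h3]; rfl
  have hmulX : ∀ q, ∀ z ∈ Submodule.span R₀ (Set.range v),
      z * Ideal.Quotient.mk I (X q) ∈ Submodule.span R₀ (Set.range v) := by
    intro q z hz
    induction hz using Submodule.span_induction with
    | mem z hz =>
      obtain ⟨S, rfl⟩ := hz
      by_cases hqS : q ∈ S
      · have h1 : v S * Ideal.Quotient.mk I (X q) = (f q) • v (S.erase q) := by
          have e1 : (∏ p ∈ S, X p : MvPolynomial π R₀) = X q * ∏ p ∈ S.erase q, X p :=
            (Finset.mul_prod_erase S _ hqS).symm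
          have e2 : v S * Ideal.Quotient.mk I (X q) =
              Ideal.Quotient.mk I (X q ^ 2) * v (S.erase q) := by
            show Ideal.Quotient.mk I (∏ p ∈ S, X p) * Ideal.Quotient.mk I (X q) =
              Ideal.Quotient.mk I (X q ^ 2) * Ideal.Quotient.mk I (∏ p ∈ S.erase q, X p)
            rw [e1, ← map_mul, ← map_mul]
            congr 1; ring
          rw [e2, hX2]
          exact (Algebra.smul_def _ _).symm
        rw [h1]
        exact Submodule.smul_mem _ _ (Submodule.subset_span ⟨_, rfl⟩)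
      · have h1 : v S * Ideal.Quotient.mk I (X q) = v (insert q S) := by
          show Ideal.Quotient.mk I (∏ p ∈ S, X p) * Ideal.Quotient.mk I (X q) =
            Ideal.Quotient.mk I (∏ p ∈ insert q S, X p)
          rw [Finset.prod_insert hqS, ← map_mul, mul_comm]
        rw [h1]
        exact Submodule.subset_span ⟨_, rfl⟩
    | zero => rw [zero_mul]; exact Submodule.zero_mem _
    | add a b _ _ ha hb => rw [add_mul]; exact Submodule.add_mem _ ha hb
    | smul r a _ ha => rw [smul_mul_assoc]; exact Submodule.smul_mem _ _ ha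
  have hspan : ∀ P : MvPolynomial π R₀,
      Ideal.Quotient.mk I P ∈ Submodule.span R₀ (Set.range v) := by
    intro P
    induction P using MvPolynomial.induction_on with
    | C a =>
      have h1 : Ideal.Quotient.mk I (C a) = a • v ∅ := by
        show Ideal.Quotient.mk I (C a) = a • Ideal.Quotient.mk I (∏ p ∈ (∅ : Finset π), X p)
        rw [Finset.prod_empty, map_one]
        have h3 := Algebra.smul_def a (1 : MvPolynomial π R₀ ⧸ I)
        rw [mul_one] at h3
        exact h3.symm
      rw [h1]
      exact Submodule.smul_mem _ _ (Submodule.subset_span ⟨_, rfl⟩)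
    | add p q hp hq => rw [map_add]; exact Submodule.add_mem _ hp hq
    | mul_X p q hp => rw [map_mul]; exact hmulX q _ hp
  -- linear independence
  set K : Subfield Ω := (algebraMap L Ω).fieldRange with hK
  have hRK : ∀ r : R₀, algebraMap R₀ Ω r ∈ K := by
    intro r
    rw [IsScalarTower.algebraMap_apply R₀ L Ω]
    exact ⟨_, rfl⟩
  have hΦinj : Function.Injective Φ := by
    rw [injective_iff_map_eq_zero]
    intro z hz
    obtain ⟨P, rfl⟩ := Ideal.Quotient.mk_surjective z
    obtain ⟨c, hc⟩ := (Submodule.mem_span_range_iff_exists_fun R₀).1 (hspan P)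
    rw [← hc] at hz ⊢
    have h1 : ∑ S ∈ (Finset.univ : Finset π).powerset,
        algebraMap R₀ Ω (c S) * ∏ p ∈ S, w p = 0 := by
      rw [Finset.powerset_univ, ← hz, map_sum]
      refine Finset.sum_congr rfl ?_
      intro S _
      rw [map_smul, Algebra.smul_def]
      congr 1
      show _ = φ (∏ p ∈ S, X p)
      rw [map_prod]
      refine Finset.prod_congr rfl ?_
      intro p _
      simp [φ]
    have h3 := linInd_Kum h2Ω w Finset.univ K (fun p _ => by rw [hw]; exact hRK _) (by
      intro S _ hne z hz hz2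
      obtain ⟨l, rfl⟩ := hz
      apply hsq S hne
      refine ⟨l, ?_⟩
      apply (algebraMap L Ω).injective
      rw [map_mul, ← pow_two, hz2, ← IsScalarTower.algebraMap_apply R₀ L Ω, map_prod]
      exact (Finset.prod_congr rfl fun p _ => hw p).symm) (fun S => algebraMap R₀ Ω (c S))
      (fun S => hRK _) h1
    refine Finset.sum_eq_zero ?_
    intro S _
    have h4 : c S = 0 := by
      apply hinj
      rw [map_zero]
      exact h3 S (Finset.subset_univ S)
    rw [h4, zero_smul]
  constructor
  · rw [← Ideal.Quotient.isDomain_iff_prime]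
    exact hΦinj.isDomain Φ.toRingHom
  · intro r hr
    have h1 := hφI _ hr
    apply hinj
    rw [map_zero, ← h1]
    simp [φ]

end Pool.Agent.Helper44.RED
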