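import Pool.Agent.Helper44.RED.StB

/-!
# Project RED: module Lat (a maximal lattice is unimodular if a unimodular lattice exists)
-/

set_option autoImplicit false

namespace Pool.Agent.Helper44.RED

variable {F : Type} [Field F]

/-- a finitely generated lattice over a DVR has a basis -/
lemma lattice_basis_Lat {ι : Type} [Fintype ι] [DecidableEq ι] (O : ValuationSubring F)
    (hO : IsDiscreteValuationRing O) (L : Submodule O (ι → F)) (hfg : L.FG) (B : Matrix ι ι F)
    (hB : B.det ≠ 0) (hBL : ∀ j, (fun i => B i j) ∈ L) :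
    ∃ B' : Matrix ι ι F, B'.det ≠ 0 ∧ ∀ v, v ∈ L ↔ ∀ i, (B'⁻¹.mulVec v) i ∈ O := by
  classical
  have : Module.Finite O L := Module.Finite.iff_fg.mpr hfg
  have : Module.Free O L := inferInstance
  set b := Module.Free.chooseBasis O L with hb
  set c : Module.Free.ChooseBasisIndex O L → (ι → F) := fun k => ((b k : L) : ι → F) with hc
  have hliO : LinearIndependent O c := by
    have := b.linearIndependent.map' L.subtype (Submodule.ker_subtype L)
    exact this
  have hliF : LinearIndependent F c := (LinearIndependent.iff_fractionRing O F).mp hliO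
  have hLspan : ∀ v ∈ L, v ∈ Submodule.span F (Set.range c) := by
    intro v hv
    have h1 : (⟨v, hv⟩ : L) ∈ Submodule.span O (Set.range b) := by
      rw [b.span_eq]; exact Submodule.mem_top
    have h2 : v ∈ Submodule.span O (Set.range c) := by
      have := Submodule.mem_map_of_mem (f := L.subtype) h1
      rw [Submodule.map_span, ← Set.range_comp] at this
      exact this
    exact Submodule.span_le_restrictScalars O F (Set.range c) h2
  have hspan : ⊤ ≤ Submodule.span F (Set.range c) := by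
    intro v _
    have h1 : v = ∑ j, (B⁻¹.mulVec v) j • (fun i => B i j) := by
      have h2 : v = B.mulVec (B⁻¹.mulVec v) := by
        rw [Matrix.mulVec_mulVec, Matrix.mul_nonsing_inv _ (isUnit_iff_ne_zero.mpr hB),
          Matrix.one_mulVec]
      conv_lhs => rw [h2]
      funext i
      rw [Matrix.mulVec, dotProduct, Finset.sum_apply]
      refine Finset.sum_congr rfl fun j _ => ?_
      simp only [Pi.smul_apply, smul_eq_mul]
      ring
    rw [h1]
    exact Submodule.sum_mem _ fun j _ => Submodule.smul_mem _ _ (hLspan _ (hBL j))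
  set bF := Module.Basis.mk hliF hspan with hbF
  have hcard : Fintype.card (Module.Free.ChooseBasisIndex O L) = Fintype.card ι := by
    rw [← Module.finrank_eq_card_basis bF, Module.finrank_fintype_fun_eq_card]
  set e := Fintype.equivOfCardEq hcard with he
  set B' : Matrix ι ι F := Matrix.of fun i j => c (e.symm j) i with hB'
  have hcol : B'.col = c ∘ e.symm := by
    funext j i
    rfl
  have hunit : IsUnit B' := by
    rw [← Matrix.linearIndependent_cols_iff_isUnit, hcol]
    exact hliF.comp _ e.symm.injective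
  have hdet : B'.det ≠ 0 := ((Matrix.isUnit_iff_isUnit_det _).mp hunit).ne_zero
  have hmv : ∀ w : ι → F, B'.mulVec w = ∑ k, w (e k) • c k := by
    intro w
    funext i
    rw [Matrix.mulVec, dotProduct, Finset.sum_apply, ← Equiv.sum_comp e]
    refine Finset.sum_congr rfl fun k _ => ?_
    rw [hB', Matrix.of_apply, Equiv.symm_apply_apply]
    simp only [Pi.smul_apply, smul_eq_mul]
    ring
  refine ⟨B', hdet, fun v => ⟨fun hv i => ?_, fun hv => ?_⟩⟩
  · set w : ι → F := fun i => ((b.repr ⟨v, hv⟩ (e.symm i) : O) : F) with hw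
    have h1 : v = B'.mulVec w := by
      rw [hmv]
      have h2 := b.sum_repr ⟨v, hv⟩
      have h3 := congrArg (fun z : L => (z : ι → F)) h2
      simp only at h3
      rw [← h3]
      rw [AddSubmonoidClass.coe_finsetSum]
      refine Finset.sum_congr rfl fun k _ => ?_
      rw [hw]
      simp only [Equiv.symm_apply_apply]
      rfl
    rw [h1, Matrix.mulVec_mulVec, Matrix.nonsing_inv_mul _ (isUnit_iff_ne_zero.mpr hdet),
      Matrix.one_mulVec]
    exact (b.repr ⟨v, hv⟩ (e.symm i)).2
  · have h1 : v = B'.mulVec (B'⁻¹.mulVec v) := by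
      rw [Matrix.mulVec_mulVec, Matrix.mul_nonsing_inv _ (isUnit_iff_ne_zero.mpr hdet),
        Matrix.one_mulVec]
    rw [h1, hmv]
    refine Submodule.sum_mem _ fun k _ => ?_
    exact L.smul_mem (⟨_, hv (e k)⟩ : O) (b k).2

/-- integral matrix -/
def IM_Lat {ι κ : Type} (O : ValuationSubring F) (M : Matrix ι κ F) : Prop := ∀ i j, M i j ∈ O

section integral

set_option linter.unusedSectionVars false

variable {ι κ μ : Type} [Fintype ι] [Fintype κ] [Fintype μ] {O : ValuationSubring F}

lemma dot_mem_Lat {v w : ι → F} (hv : ∀ i, v i ∈ O) (hw : ∀ i, w i ∈ O) : v ⬝ᵥ w ∈ O :=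
  sum_mem fun i _ => O.mul_mem _ _ (hv i) (hw i)

lemma IM_Lat.mul {M : Matrix ι κ F} {N : Matrix κ μ F} (hM : IM_Lat O M) (hN : IM_Lat O N) :
    IM_Lat O (M * N) := by
  intro i j
  rw [Matrix.mul_apply]
  exact sum_mem fun k _ => O.mul_mem _ _ (hM i k) (hN k j)

lemma IM_Lat.transpose {M : Matrix ι κ F} (hM : IM_Lat O M) : IM_Lat O M.transpose :=
  fun i j => hM j i

lemma IM_Lat.mulVec {M : Matrix ι κ F} {w : κ → F} (hM : IM_Lat O M) (hw : ∀ i, w i ∈ O) :
    ∀ i, (M.mulVec w) i ∈ O := fun i => dot_mem_Lat (hM i) hw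

lemma IM_Lat.lift {M : Matrix ι κ F} (hM : IM_Lat O M) :
    ∃ M' : Matrix ι κ O, M = M'.map O.subtype := ⟨Matrix.of fun i j => ⟨M i j, hM i j⟩, by
      funext i j; rfl⟩

lemma IM_Lat.det [DecidableEq ι] {M : Matrix ι ι F} (hM : IM_Lat O M) : M.det ∈ O := by
  obtain ⟨M', rfl⟩ := hM.lift
  have : (M'.map O.subtype).det = O.subtype M'.det := (RingHom.map_det O.subtype M').symm
  rw [this]
  exact M'.det.2

lemma IM_Lat.inv [DecidableEq ι] {M : Matrix ι ι F} (hM : IM_Lat O M) (hd : (M.det)⁻¹ ∈ O) :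
    IM_Lat O M⁻¹ := by
  intro i j
  rw [Matrix.inv_def, Matrix.smul_apply, smul_eq_mul, Ring.inverse_eq_inv']
  refine O.mul_mem _ _ hd ?_
  obtain ⟨M', rfl⟩ := hM.lift
  have : (M'.map O.subtype).adjugate = (M'.adjugate).map O.subtype :=
    (RingHom.map_adjugate O.subtype M').symm
  rw [this]
  exact (M'.adjugate i j).2

lemma qf_mulVec_Lat [DecidableEq ι] (a : ι → F) (C : Matrix ι ι F) (w : ι → F) :
    qf a (C.mulVec w) = w ⬝ᵥ ((C.transpose * Matrix.diagonal a * C).mulVec w) := by
  rw [← Matrix.mulVec_mulVec, Matrix.dotProduct_mulVec, ← Matrix.vecMul_vecMul,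
    Matrix.vecMul_transpose, ← Matrix.dotProduct_mulVec]
  unfold qf dotProduct
  refine Finset.sum_congr rfl fun i _ => ?_
  rw [Matrix.mulVec_diagonal]
  ring

end integral

lemma mulVec_col_Lat {ι κ μ : Type} [Fintype κ] (M : Matrix ι κ F) (N : Matrix κ μ F)
    (j : μ) (i : ι) : (M.mulVec (fun k => N k j)) i = (M * N) i j := by
  rw [Matrix.mul_apply]
  rfl

/-- LAT. -/
theorem pLat : StLat := by
  intro F ι _ _ _ O hO a B ha hmax hun
  obtain ⟨hBdet, hBint, hBmax⟩ := hmax
  obtain ⟨C, hCdet, hCint, hCinv⟩ := hun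
  have hBu : IsUnit B.det := isUnit_iff_ne_zero.mpr hBdet
  have hCu : IsUnit C.det := isUnit_iff_ne_zero.mpr hCdet
  set A : Matrix ι ι F := Matrix.diagonal a with hA
  have hAdet : A.det ≠ 0 := by
    rw [hA, Matrix.det_diagonal]
    exact Finset.prod_ne_zero_iff.mpr fun i _ => ha i
  have hAt : A.transpose = A := by rw [hA, Matrix.diagonal_transpose]
  -- the sum of the two lattices
  set L : Submodule O (ι → F) := Submodule.span O (Set.range C.col) ⊔
    Submodule.span O (Set.range B.col) with hL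
  have hLfg : L.FG := (Submodule.fg_span (Set.finite_range _)).sup
    (Submodule.fg_span (Set.finite_range _))
  have hBL : ∀ j, (fun i => B i j) ∈ L := fun j =>
    Submodule.mem_sup_right (Submodule.subset_span ⟨j, rfl⟩)
  have hCL : ∀ j, (fun i => C i j) ∈ L := fun j =>
    Submodule.mem_sup_left (Submodule.subset_span ⟨j, rfl⟩)
  obtain ⟨D, hDdet, hD⟩ := lattice_basis_Lat O hO L hLfg B hBdet hBL
  have hDu : IsUnit D.det := isUnit_iff_ne_zero.mpr hDdet
  have hspan : ∀ (M : Matrix ι ι F) (v : ι → F), v ∈ Submodule.span O (Set.range M.col) →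
      ∃ w : ι → F, (∀ i, w i ∈ O) ∧ v = M.mulVec w := by
    intro M v hv
    rw [Submodule.mem_span_range_iff_exists_fun] at hv
    obtain ⟨w, hw⟩ := hv
    refine ⟨fun i => (w i : F), fun i => (w i).2, ?_⟩
    rw [← hw]
    funext i
    rw [Matrix.mulVec, dotProduct, Finset.sum_apply]
    refine Finset.sum_congr rfl fun k _ => ?_
    show (w k : F) * M i k = _
    ring
  have hsum : ∀ v ∈ L, ∃ p q : ι → F, (∀ i, p i ∈ O) ∧ (∀ i, q i ∈ O) ∧
      v = C.mulVec p + B.mulVec q := by
    intro v hv
    obtain ⟨v1, h1, v2, h2, rfl⟩ := Submodule.mem_sup.mp hv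
    obtain ⟨p, hp, rfl⟩ := hspan C v1 h1
    obtain ⟨q, hq, rfl⟩ := hspan B v2 h2
    exact ⟨p, q, hp, hq, rfl⟩
  -- integral transition matrices
  set TB : Matrix ι ι F := D⁻¹ * B with hTB
  set TC : Matrix ι ι F := D⁻¹ * C with hTC
  have hTBi : IM_Lat O TB := by
    intro i j
    rw [hTB, ← mulVec_col_Lat]
    exact (hD _).mp (hBL j) i
  have hTCi : IM_Lat O TC := by
    intro i j
    rw [hTC, ← mulVec_col_Lat]
    exact (hD _).mp (hCL j) i
  have hBD : B = D * TB := by
    rw [hTB, Matrix.mul_nonsing_inv_cancel_left _ _ hDu]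
  have hCD : C = D * TC := by
    rw [hTC, Matrix.mul_nonsing_inv_cancel_left _ _ hDu]
  -- the dual basis of `D`
  have hDA : IsUnit (D.transpose * A).det := by
    rw [Matrix.det_mul, Matrix.det_transpose]
    exact isUnit_iff_ne_zero.mpr (mul_ne_zero hDdet hAdet)
  set E : Matrix ι ι F := (D.transpose * A)⁻¹ with hE
  have hDAE : D.transpose * A * E = 1 := Matrix.mul_nonsing_inv _ hDA
  have h1 : B.transpose * A * E = TB.transpose := by
    conv_lhs => rw [hBD]
    rw [Matrix.transpose_mul, Matrix.mul_assoc, Matrix.mul_assoc, ← Matrix.mul_assoc D.transpose,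
      hDAE, Matrix.mul_one]
  have h2 : C.transpose * A * E = TC.transpose := by
    conv_lhs => rw [hCD]
    rw [Matrix.transpose_mul, Matrix.mul_assoc, Matrix.mul_assoc, ← Matrix.mul_assoc D.transpose,
      hDAE, Matrix.mul_one]
  have hGCu : IsUnit (C.transpose * A * C).det := by
    rw [Matrix.det_mul, Matrix.det_mul, Matrix.det_transpose]
    exact isUnit_iff_ne_zero.mpr (mul_ne_zero (mul_ne_zero hCdet hAdet) hCdet)
  have hGBu : IsUnit (B.transpose * A * B).det := by
    rw [Matrix.det_mul, Matrix.det_mul, Matrix.det_transpose]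
    exact isUnit_iff_ne_zero.mpr (mul_ne_zero (mul_ne_zero hBdet hAdet) hBdet)
  have h3 : C⁻¹ * E = (C.transpose * A * C)⁻¹ * TC.transpose := by
    have : (C.transpose * A * C) * (C⁻¹ * E) = TC.transpose := by
      rw [← h2, Matrix.mul_assoc, Matrix.mul_nonsing_inv_cancel_left _ _ hCu]
    rw [← this, Matrix.nonsing_inv_mul_cancel_left _ _ hGCu]
  have h3i : IM_Lat O (C⁻¹ * E) := by
    rw [h3]
    exact (IM_Lat.inv hCint hCinv).mul hTCi.transpose
  have hR : IM_Lat O (B⁻¹ * E) := by
    intro i j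
    rw [← mulVec_col_Lat]
    apply hBmax
    · intro i
      rw [mulVec_col_Lat, h1]
      exact hTBi.transpose i j
    · have e : (fun k => E k j) = C.mulVec (fun k => (C⁻¹ * E) k j) := by
        funext i
        rw [mulVec_col_Lat, Matrix.mul_nonsing_inv_cancel_left _ _ hCu]
      rw [e, qf_mulVec_Lat]
      exact dot_mem_Lat (fun k => h3i k j) (IM_Lat.mulVec hCint fun k => h3i k j)
  have hDinv : D⁻¹ = (B⁻¹ * E).transpose * (B.transpose * A) := by
    have e1 : E = B * (B⁻¹ * E) := by rw [Matrix.mul_nonsing_inv_cancel_left _ _ hBu]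
    have e2 : E.transpose * A * D = 1 := by
      have := congrArg Matrix.transpose hDAE
      rw [Matrix.transpose_mul, Matrix.transpose_mul, Matrix.transpose_transpose, hAt,
        Matrix.transpose_one, ← Matrix.mul_assoc] at this
      exact this
    rw [Matrix.inv_eq_left_inv e2]
    conv_lhs => rw [e1]
    rw [Matrix.transpose_mul, Matrix.mul_assoc]
  -- the dual of the lattice of `B` is contained in it
  have key : ∀ y : ι → F, (∀ i, ((B.transpose * A).mulVec y) i ∈ O) →
      ∀ i, (B⁻¹.mulVec y) i ∈ O := by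
    intro y hy
    have hyL : y ∈ L := by
      rw [hD]
      rw [hDinv, ← Matrix.mulVec_mulVec]
      exact hR.transpose.mulVec hy
    obtain ⟨p, q, hp, hq, hpq⟩ := hsum y hyL
    have hlam : C.mulVec p = y - B.mulVec q := by rw [hpq]; abel
    have h5 : ∀ i, (B⁻¹.mulVec (C.mulVec p)) i ∈ O := by
      apply hBmax
      · intro i
        rw [hlam, Matrix.mulVec_sub, Matrix.mulVec_mulVec]
        exact O.sub_mem (hy i) (IM_Lat.mulVec hBint hq i)
      · rw [qf_mulVec_Lat]
        exact dot_mem_Lat hp (IM_Lat.mulVec hCint hp)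
    intro i
    rw [hpq, Matrix.mulVec_add, Matrix.mulVec_mulVec q, Matrix.nonsing_inv_mul _ hBu,
      Matrix.one_mulVec]
    exact O.add_mem _ _ (h5 i) (hq i)
  have hBA : IsUnit (B.transpose * A).det := by
    rw [Matrix.det_mul, Matrix.det_transpose]
    exact isUnit_iff_ne_zero.mpr (mul_ne_zero hBdet hAdet)
  have hfin : IM_Lat O (B⁻¹ * (B.transpose * A)⁻¹) := by
    intro i j
    rw [← mulVec_col_Lat]
    apply key
    intro i
    rw [mulVec_col_Lat, Matrix.mul_nonsing_inv _ hBA]
    rw [Matrix.one_apply]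
    split_ifs
    · exact O.one_mem
    · exact O.zero_mem
  rw [← Matrix.mul_inv_rev] at hfin
  have h6 := hfin.det
  rw [Matrix.det_nonsing_inv, Ring.inverse_eq_inv'] at h6
  exact h6

end Pool.Agent.Helper44.RED
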