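import Pool.Agent.Helper44.RED.StB

/-!
# Project RED: module Laur (Laurent series fields)
-/

set_option autoImplicit false

open Polynomial

namespace Pool.Agent.Helper44.RED

/-- coefficients of the square root -/
private noncomputable def rt_Laur {F : Type} [Field F] (g : ℕ → F) : ℕ → F
  | 0 => 1
  | (m + 1) => (g (m + 1) - ∑ i : Fin m, rt_Laur g (i.1 + 1) * rt_Laur g (m - i.1)) / 2
decreasing_by
  · have := i.2
    omega
  · have := i.2
    omega

private lemma rt_succ_Laur {F : Type} [Field F] (h2 : (2 : F) ≠ 0) (g : ℕ → F) (m : ℕ) :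
    ∑ k ∈ Finset.range (m + 2), rt_Laur g k * rt_Laur g (m + 1 - k) = g (m + 1) := by
  rw [Finset.sum_range_succ, Finset.sum_range_succ']
  have h0 : rt_Laur g 0 = 1 := by rw [rt_Laur]
  have h1 : rt_Laur g (m + 1) =
      (g (m + 1) - ∑ i : Fin m, rt_Laur g (i.1 + 1) * rt_Laur g (m - i.1)) / 2 := by
    rw [rt_Laur]
  have h3 : ∑ k ∈ Finset.range m, rt_Laur g (k + 1) * rt_Laur g (m + 1 - (k + 1)) =
      ∑ i : Fin m, rt_Laur g (i.1 + 1) * rt_Laur g (m - i.1) := by
    rw [← Fin.sum_univ_eq_sum_range (fun k => rt_Laur g (k + 1) * rt_Laur g (m + 1 - (k + 1))) m]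
    refine Finset.sum_congr rfl fun i _ => ?_
    rw [Nat.add_sub_add_right]
  rw [h3, Nat.sub_zero, Nat.sub_self, h0]
  have h4 : 2 * rt_Laur g (m + 1) =
      g (m + 1) - ∑ i : Fin m, rt_Laur g (i.1 + 1) * rt_Laur g (m - i.1) := by
    rw [h1]
    field_simp
  linear_combination h4

private lemma sqrt_Laur {F : Type} [Field F] (h2 : (2 : F) ≠ 0) (g : PowerSeries F)
    (hg : PowerSeries.constantCoeff g = 1) :
    ∃ h : PowerSeries F, PowerSeries.constantCoeff h = 1 ∧ g = h ^ 2 := by
  refine ⟨PowerSeries.mk (rt_Laur (fun n => PowerSeries.coeff n g)), ?_, ?_⟩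
  · rw [← PowerSeries.coeff_zero_eq_constantCoeff_apply, PowerSeries.coeff_mk, rt_Laur]
  · ext n
    rw [pow_two, PowerSeries.coeff_mul]
    simp only [PowerSeries.coeff_mk]
    rw [Finset.Nat.sum_antidiagonal_eq_sum_range_succ
      (fun i j => rt_Laur (fun n => PowerSeries.coeff n g) i *
        rt_Laur (fun n => PowerSeries.coeff n g) j)]
    rcases n with _ | m
    · simp only [Nat.succ_eq_add_one, zero_add, Finset.sum_range_one]
      rw [rt_Laur, PowerSeries.coeff_zero_eq_constantCoeff_apply, hg]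
      ring
    · exact (rt_succ_Laur h2 (fun n => PowerSeries.coeff n g) m).symm

private lemma coeff_mul_Laur {F : Type} [Field F] (x y : LaurentSeries F) (o n : ℤ)
    (hx : ∀ m < o, x.coeff m = 0) (hy : ∀ m < o, y.coeff m = 0) (hn : n ≤ 2 * o) :
    (x * y).coeff n = if n = 2 * o then x.coeff o * y.coeff o else 0 := by
  rw [HahnSeries.coeff_mul]
  split_ifs with h
  · by_cases hz : x.coeff o * y.coeff o = 0
    · rw [hz]
      refine Finset.sum_eq_zero fun ij hij => ?_
      rw [Finset.mem_antidiagonal] at hij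
      obtain ⟨h1, h3, h4⟩ := hij
      rw [HahnSeries.mem_support] at h1 h3
      have h5 : o ≤ ij.1 := not_lt.1 fun h => h1 (hx _ h)
      have h6 : o ≤ ij.2 := not_lt.1 fun h => h3 (hy _ h)
      have h7 : ij.1 = o := by omega
      have h8 : ij.2 = o := by omega
      rw [h7, h8, hz]
    · rw [Finset.sum_eq_single (o, o)]
      · intro ij hij hne
        rw [Finset.mem_antidiagonal] at hij
        obtain ⟨h1, h3, h4⟩ := hij
        rw [HahnSeries.mem_support] at h1 h3
        have h5 : o ≤ ij.1 := not_lt.1 fun h => h1 (hx _ h)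
        have h6 : o ≤ ij.2 := not_lt.1 fun h => h3 (hy _ h)
        exact absurd (Prod.ext (by simp; omega) (by simp; omega)) hne
      · intro hnot
        exfalso
        apply hnot
        rw [Finset.mem_antidiagonal]
        refine ⟨?_, ?_, by simp; omega⟩
        · rw [HahnSeries.mem_support]
          exact left_ne_zero_of_mul hz
        · rw [HahnSeries.mem_support]
          exact right_ne_zero_of_mul hz
  · refine Finset.sum_eq_zero fun ij hij => ?_
    rw [Finset.mem_antidiagonal] at hij
    obtain ⟨h1, h3, h4⟩ := hij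
    rw [HahnSeries.mem_support] at h1 h3
    have h5 : o ≤ ij.1 := not_lt.1 fun h => h1 (hx _ h)
    have h6 : o ≤ ij.2 := not_lt.1 fun h => h3 (hy _ h)
    omega

private lemma coeff_sum_Laur {F ι : Type} [Field F] (s : Finset ι) (f : ι → LaurentSeries F)
    (n : ℤ) : (∑ i ∈ s, f i).coeff n = ∑ i ∈ s, (f i).coeff n := by
  classical
  induction s using Finset.induction_on with
  | empty => simp
  | insert i s hi ih => rw [Finset.sum_insert hi, Finset.sum_insert hi, HahnSeries.coeff_add, ih]

/-- the lowest coefficient of a value of a form with constant coefficients -/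
private lemma low_Laur {F ι : Type} [Field F] [Fintype ι] (A : ι → F) (g : ι → LaurentSeries F)
    (o n : ℤ) (hg : ∀ i, ∀ m < o, (g i).coeff m = 0) (hn : n ≤ 2 * o) :
    (qf (im (HahnSeries.C : F →+* LaurentSeries F) A) g).coeff n =
      if n = 2 * o then qf A (fun i => (g i).coeff o) else 0 := by
  unfold qf im
  rw [coeff_sum_Laur]
  split_ifs with h
  · refine Finset.sum_congr rfl fun i _ => ?_
    rw [HahnSeries.C_mul_eq_smul, HahnSeries.coeff_smul, pow_two, pow_two,
      coeff_mul_Laur _ _ o n (hg i) (hg i) hn, if_pos h, smul_eq_mul]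
  · refine Finset.sum_eq_zero fun i _ => ?_
    rw [HahnSeries.C_mul_eq_smul, HahnSeries.coeff_smul, pow_two,
      coeff_mul_Laur _ _ o n (hg i) (hg i) hn, if_neg h, smul_zero]

/-- the smallest order in a nonzero family -/
private lemma order_Laur {F ι : Type} [Field F] [Fintype ι] (g : ι → LaurentSeries F)
    (hg : g ≠ 0) : ∃ o : ℤ, (∀ i, ∀ m < o, (g i).coeff m = 0) ∧
      (fun i => (g i).coeff o) ≠ 0 := by
  obtain ⟨i₀, hi₀⟩ : ∃ i, g i ≠ 0 := by
    by_contra hcon
    push Not at hcon
    exact hg (funext hcon)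
  obtain ⟨m₀, hm₀⟩ : ∃ m, (g i₀).coeff m ≠ 0 := by
    by_contra hcon
    push Not at hcon
    apply hi₀
    ext m
    rw [hcon]
    rfl
  obtain ⟨o, ho, ho'⟩ := Int.exists_least_of_bdd (P := fun m => ∃ i, (g i).coeff m ≠ 0)
    ⟨-(∑ i, |(g i).order|), by
      rintro z ⟨i, hi⟩
      have h1 := HahnSeries.order_le_of_coeff_ne_zero hi
      have h2 : |(g i).order| ≤ ∑ i, |(g i).order| :=
        Finset.single_le_sum (f := fun i => |(g i).order|) (fun j _ => abs_nonneg _)
          (Finset.mem_univ i)
      have h3 := neg_abs_le (g i).order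
      linarith⟩ ⟨m₀, i₀, hm₀⟩
  refine ⟨o, fun i m hm => ?_, fun h => ?_⟩
  · by_contra hcon
    exact absurd (ho' m ⟨i, hcon⟩) (not_le.2 hm)
  · obtain ⟨i, hi⟩ := ho
    exact hi (congrFun h i)

theorem pLaur : StLaur := by
  intro F _ h2
  refine ⟨fun ι κ _ _ A B hA hB => ?_, fun g hg => ?_⟩
  · intro z hz
    rw [qf_sumElim] at hz
    obtain ⟨g, hgz⟩ : ∃ g : ι → LaurentSeries F, g = z ∘ Sum.inl := ⟨_, rfl⟩
    obtain ⟨h, hhz⟩ : ∃ h : κ → LaurentSeries F, h = z ∘ Sum.inr := ⟨_, rfl⟩
    rw [← hgz, ← hhz] at hz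
    have hX : qf (fun j => (HahnSeries.single (1 : ℤ) (1 : F) : LaurentSeries F) *
        HahnSeries.C (B j)) h =
        (HahnSeries.single (1 : ℤ) (1 : F) : LaurentSeries F) *
          qf (im (HahnSeries.C : F →+* LaurentSeries F) B) h := by
      unfold qf im
      rw [Finset.mul_sum]
      exact Finset.sum_congr rfl fun j _ => mul_assoc _ _ _
    rw [hX] at hz
    have hXc : ∀ (y : LaurentSeries F) (n : ℤ),
        ((HahnSeries.single (1 : ℤ) (1 : F) : LaurentSeries F) * y).coeff (n + 1) =
          y.coeff n := by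
      intro y n
      rw [HahnSeries.coeff_single_mul_add, one_mul]
    have hc : ∀ n : ℤ, (qf (im (HahnSeries.C : F →+* LaurentSeries F) A) g).coeff (n + 1) +
        (qf (im (HahnSeries.C : F →+* LaurentSeries F) B) h).coeff n = 0 := by
      intro n
      rw [← hXc (qf (im (HahnSeries.C : F →+* LaurentSeries F) B) h), ← HahnSeries.coeff_add, hz]
      rfl
    have hg0 : g = 0 := by
      by_contra hg
      obtain ⟨o, ho, ho'⟩ := order_Laur g hg
      have hAo : qf A (fun i => (g i).coeff o) ≠ 0 := fun h0 => ho' (hA _ h0)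
      have hS : (qf (im (HahnSeries.C : F →+* LaurentSeries F) A) g).coeff (2 * o) ≠ 0 := by
        rw [low_Laur A g o (2 * o) ho le_rfl, if_pos rfl]
        exact hAo
      have hT := hc (2 * o - 1)
      rw [sub_add_cancel] at hT
      have hh : h ≠ 0 := by
        intro h0
        rw [h0, qf_zero, HahnSeries.coeff_zero, add_zero] at hT
        exact hS hT
      obtain ⟨o', ho1, ho1'⟩ := order_Laur h hh
      have hBo : qf B (fun i => (h i).coeff o') ≠ 0 := fun h0 => ho1' (hB _ h0)
      have hT1 : (qf (im (HahnSeries.C : F →+* LaurentSeries F) B) h).coeff (2 * o') ≠ 0 := by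
        rw [low_Laur B h o' (2 * o') ho1 le_rfl, if_pos rfl]
        exact hBo
      have hc' := hc (2 * o')
      rcases le_or_gt (2 * o) (2 * o') with hle | hlt
      · have h5 : (qf (im (HahnSeries.C : F →+* LaurentSeries F) B) h).coeff (2 * o - 1) = 0 := by
          rw [low_Laur B h o' (2 * o - 1) ho1 (by omega), if_neg (by omega)]
        rw [h5, add_zero] at hT
        exact hS hT
      · have h5 : (qf (im (HahnSeries.C : F →+* LaurentSeries F) A) g).coeff (2 * o' + 1) = 0 := by
          rw [low_Laur A g o (2 * o' + 1) ho (by omega), if_neg (by omega)]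
        rw [h5, zero_add] at hc'
        exact hT1 hc'
    have hh0 : h = 0 := by
      by_contra hh
      obtain ⟨o', ho1, ho1'⟩ := order_Laur h hh
      have hBo : qf B (fun i => (h i).coeff o') ≠ 0 := fun h0 => ho1' (hB _ h0)
      have hc' := hc (2 * o')
      rw [hg0, qf_zero, HahnSeries.coeff_zero, zero_add,
        low_Laur B h o' (2 * o') ho1 le_rfl, if_pos rfl] at hc'
      exact hBo hc'
    funext j
    rcases j with j | j
    · have := congrFun hg0 j
      rw [hgz] at this
      exact this
    · have := congrFun hh0 j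
      rw [hhz] at this
      exact this
  · obtain ⟨h, h1, h3⟩ := sqrt_Laur h2
      (PowerSeries.C (PowerSeries.constantCoeff g)⁻¹ * g) (by
        rw [map_mul, PowerSeries.constantCoeff_C, inv_mul_cancel₀ hg])
    refine ⟨h, h1, ?_⟩
    rw [← h3, ← mul_assoc, ← map_mul, mul_inv_cancel₀ hg, map_one, one_mul]

end Pool.Agent.Helper44.RED
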