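import Pool.Agent.Helper44.RED.StB

/-!
# Project RED, module ME (helper45)
-/

set_option autoImplicit false

open Polynomial

namespace Pool.Agent.Helper44.RED

section rat_ME

variable (K : Type) [Field K] (n : ℕ)

private abbrev RF_ME : Type := FractionRing (MvPolynomial (Fin n) K)

private noncomputable def inc_ME : K →+* RF_ME K n :=
  (algebraMap (MvPolynomial (Fin n) K) (RF_ME K n)).comp MvPolynomial.C

private noncomputable def var_ME : Fin n → RF_ME K n :=
  fun j => algebraMap (MvPolynomial (Fin n) K) (RF_ME K n) (MvPolynomial.X j)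

private lemma eval_ME : MvPolynomial.eval₂Hom (inc_ME K n) (var_ME K n) =
    algebraMap (MvPolynomial (Fin n) K) (RF_ME K n) := by
  apply MvPolynomial.ringHom_ext
  · intro r; simp [inc_ME]
  · intro i; simp [var_ME]

private lemma indep_ME : Indep (inc_ME K n) (var_ME K n) := by
  unfold Indep
  rw [eval_ME]
  exact IsFractionRing.injective (MvPolynomial (Fin n) K) (RF_ME K n)

private lemma gen_ME : GenBy (inc_ME K n) (Set.range (var_ME K n)) := by
  unfold GenBy
  rw [eq_top_iff]
  intro z _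
  have hp : ∀ p : MvPolynomial (Fin n) K, algebraMap (MvPolynomial (Fin n) K) (RF_ME K n) p ∈
      Subfield.closure (Set.range (inc_ME K n) ∪ Set.range (var_ME K n)) := by
    intro p
    induction p using MvPolynomial.induction_on with
    | C r => exact Subfield.subset_closure (Or.inl ⟨r, rfl⟩)
    | add p q hp hq => rw [map_add]; exact add_mem hp hq
    | mul_X p i hp => rw [map_mul]; exact mul_mem hp (Subfield.subset_closure (Or.inr ⟨i, rfl⟩))
  obtain ⟨p, q, _, rfl⟩ := IsFractionRing.div_surjective (A := MvPolynomial (Fin n) K) z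
  exact div_mem (hp p) (hp q)

private lemma var_ne_ME (j : Fin n) : var_ME K n j ≠ 0 := by
  unfold var_ME
  intro h
  have := IsFractionRing.injective (MvPolynomial (Fin n) K) (RF_ME K n) (h.trans (map_zero _).symm)
  exact MvPolynomial.X_ne_zero j this

private lemma pure_ME : PureExt (inc_ME K n) := ⟨n, var_ME K n, indep_ME K n, gen_ME K n⟩

/-- the map `x_j ↦ x_j ^ 2` -/
private lemma sqMap_ME {S : Type} [Field S] (ψ : K →+* S) :
    ∃ θ : RF_ME K n →+* RF_ME S n, θ.comp (inc_ME K n) = (inc_ME S n).comp ψ ∧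
      ∀ j, θ (var_ME K n j) = var_ME S n j ^ 2 := by
  let g : MvPolynomial (Fin n) K →+* RF_ME S n :=
    ((algebraMap (MvPolynomial (Fin n) S) (RF_ME S n)).comp (MvPolynomial.map ψ)).comp
      (MvPolynomial.expand 2 : MvPolynomial (Fin n) K →ₐ[K] MvPolynomial (Fin n) K).toRingHom
  have hg : Function.Injective g := by
    have h1 := IsFractionRing.injective (MvPolynomial (Fin n) S) (RF_ME S n)
    have h2 := MvPolynomial.map_injective (σ := Fin n) ψ ψ.injective
    have h3 := MvPolynomial.expand_injective (R := K) (σ := Fin n) (n := 2) (by norm_num)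
    exact (h1.comp h2).comp h3
  refine ⟨IsFractionRing.lift hg, ?_, ?_⟩
  · ext r
    simp [inc_ME, g]
  · intro j
    simp only [var_ME, IsFractionRing.lift_algebraMap]
    simp [g]

end rat_ME

private lemma one_ne_ME {K : Type} [Field K] {s : ℕ} {c : Fin s → K} (hc : ∀ l, c l ≠ 0)
    (j : Fin (s + 1)) : one c j ≠ 0 := by
  refine Fin.cases ?_ (fun i => ?_) j
  · simp [one]
  · simpa [one] using hc i

/-- states of the construction -/
private def Sta_ME {K : Type} [Field K] {s M : ℕ} (n : ℕ) (b : Fin M → Fin s → K)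
    (J I : Finset (Fin M)) : Prop :=
  ∃ (E : Type) (_ : Field E) (ψ : K →+* E) (x : Fin n → E), (∀ j, x j ≠ 0) ∧ Aniso (pf x) ∧
    Wit b ψ x J ∧ ∀ i ∈ I, Emb (im ψ (one (b i))) (pf x)

private def Stb_ME {K : Type} [Field K] {s M : ℕ} (n : ℕ) (b : Fin M → Fin s → K)
    (J I : Finset (Fin M)) (i : Fin M) (l : ℕ) (h : l ≤ s + 1) : Prop :=
  ∃ (E : Type) (_ : Field E) (ψ : K →+* E) (x : Fin n → E), (∀ j, x j ≠ 0) ∧ Aniso (pf x) ∧
    Wit b ψ x J ∧ (∀ i ∈ I, Emb (im ψ (one (b i))) (pf x)) ∧
    Emb (init (im ψ (one (b i))) l h) (pf x)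

private lemma stbStep_ME (hStep : StStep) {K : Type} [Field K] (h2 : (2 : K) ≠ 0) {n s M : ℕ}
    (b : Fin M → Fin s → K) (hn : 1 ≤ n) (hs : s = 2 ^ (n - 1)) (hb : ∀ i l, b i l ≠ 0)
    (J J' I : Finset (Fin M)) (i : Fin M) (l : ℕ) (h : l + 1 ≤ s + 1) (hl : 1 ≤ l) (hJ : J' ⊆ J)
    (hi : i ∈ J) (hlJ : l < s ∨ i ∉ J') (H : Stb_ME n b J I i l (by omega)) :
    Stb_ME n b J' I i (l + 1) h := by
  obtain ⟨E, _, ψ, x, hx, hA, hW, hI, hE⟩ := H
  have hAn : Aniso (init (im ψ (one (b i))) (l + 1) h) := by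
    obtain ⟨S, _, θ, _, hS2, _⟩ := hW i hi
    rw [← im_im] at hS2
    refine hS2.of_im.of_emb (fun j => (_root_.map_ne_zero ψ).2 (one_ne_ME (hb i) _)) ?_
    exact Emb.comp_inj (im ψ (one (b i))) (Fin.castLE h) (Fin.castLE_injective h)
  obtain ⟨F, _, φ, hF1, hF2, hF3⟩ := hStep K E h2 n s M b ψ x J' hn hs hb hx hA
    (fun j hj => hW j (hJ hj)) i l h hl hE hAn hlJ
  refine ⟨F, inferInstance, φ.comp ψ, im φ x, fun j => (_root_.map_ne_zero φ).2 (hx j), hF1, hF2,
    ?_, hF3⟩
  intro i' hi'
  rw [pf_im, ← im_im]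
  exact (hI i' hi').im

private lemma staStep_ME (hStep : StStep) {K : Type} [Field K] (h2 : (2 : K) ≠ 0) {n s M : ℕ}
    (b : Fin M → Fin s → K) (hn : 1 ≤ n) (hs : s = 2 ^ (n - 1)) (hb : ∀ i l, b i l ≠ 0)
    (J I : Finset (Fin M)) (i : Fin M) (hi : i ∈ J) (H : Sta_ME n b J I) :
    Sta_ME n b (J.erase i) (insert i I) := by
  have hspos : 1 ≤ s := by rw [hs]; exact Nat.one_le_two_pow
  have key : ∀ (l : ℕ) (hl1 : 1 ≤ l) (hls : l ≤ s), Stb_ME n b J I i l (by omega) := by
    intro l hl1
    induction l, hl1 using Nat.le_induction with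
    | base =>
      intro _
      obtain ⟨E, _, ψ, x, hx, hA, hW, hI⟩ := H
      refine ⟨E, inferInstance, ψ, x, hx, hA, hW, hI, ?_⟩
      have := Emb.comp_inj (pf x) (fun _ : Fin 1 => (∅ : Finset (Fin n)))
        (fun a b _ => Subsingleton.elim a b)
      convert this using 1
      funext j
      rw [pf_empty]
      have hj : j = 0 := Subsingleton.elim _ _
      subst hj
      simp [init, im, one]
    | succ l hl ih =>
      intro hls
      exact stbStep_ME hStep h2 b hn hs hb J J I i l (by omega) hl (Finset.Subset.refl _) hi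
        (Or.inl (by omega)) (ih (by omega))
  have hlast := stbStep_ME hStep h2 b hn hs hb J (J.erase i) I i s (by omega) hspos
    (Finset.erase_subset _ _) hi (Or.inr (Finset.notMem_erase i J)) (key s hspos le_rfl)
  obtain ⟨E, _, ψ, x, hx, hA, hW, hI, hE⟩ := hlast
  refine ⟨E, inferInstance, ψ, x, hx, hA, hW, fun i' hi' => ?_⟩
  rcases Finset.mem_insert.1 hi' with rfl | hi'
  · exact hE
  · exact hI i' hi'

theorem pME : StGPf → StPT → StStep → StCancel → StME := by
  intro hGPf hPT hStep hCancel K _ h2 n s M b hn hs hb hwit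
  have h0 : Sta_ME n b Finset.univ ∅ := by
    refine ⟨RF_ME K n, inferInstance, inc_ME K n, var_ME K n, var_ne_ME K n,
      hGPf K _ (inc_ME K n) n (var_ME K n) (indep_ME K n) (gen_ME K n), ?_, by simp⟩
    intro j _
    obtain ⟨S, _, ψ, hS1, hS2⟩ := hwit j
    obtain ⟨θ, hθ1, hθ2⟩ := sqMap_ME K n ψ
    have hPres := hPT S _ (inc_ME S n) (pure_ME S n)
    refine ⟨RF_ME S n, inferInstance, θ, ?_, ?_, ?_⟩
    · intro hA
      rw [← pf_im] at hA
      have hx' : im θ (var_ME K n) = fun j => var_ME S n j ^ 2 := funext hθ2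
      rw [hx'] at hA
      let i₀ : Fin n := ⟨0, hn⟩
      have hne : (∅ : Finset (Fin n)) ≠ {i₀} := (Finset.singleton_ne_empty i₀).symm
      have h1 := hA (Pi.single ∅ (var_ME S n i₀) + Pi.single {i₀} 1) (by
        rw [qf_add, qf_single, qf_single, bf_single_single, if_neg hne, pf_empty]
        simp [pf])
      have h3 := congrFun h1 {i₀}
      simp at h3
    · rw [hθ1, ← im_im]
      exact hPres.aniso hS1
    · intro i hi
      rw [hθ1, ← im_im]
      exact fun h => hS2 i hi h.of_im
  have h1 : ∀ I : Finset (Fin M), Sta_ME n b (Finset.univ \ I) I := by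
    intro I
    induction I using Finset.induction_on with
    | empty => simpa using h0
    | insert i I hi ih =>
      have := staStep_ME hStep h2 b hn hs hb (Finset.univ \ I) I i (by simp [hi]) ih
      have heq : (Finset.univ \ I).erase i = Finset.univ \ insert i I := by
        ext j; simp [not_or]
      rwa [heq] at this
  obtain ⟨N, _, ψ, x, hx, hA, _, hI⟩ := h1 Finset.univ
  refine ⟨N, inferInstance, ψ, x, hx, hA, fun i => ?_⟩
  have h2N : (2 : N) ≠ 0 := by
    have := (_root_.map_ne_zero ψ).2 h2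
    rwa [map_ofNat] at this
  refine hCancel N Unit (Pu n) (Fin s) h2N (fun _ => 1) (ppf x) (im ψ (b i))
    (fun _ => one_ne_zero) ?_
  have e1 : Emb (Sum.elim (fun _ : Unit => (1 : N)) (im ψ (b i))) (im ψ (one (b i))) := by
    have := Emb.comp_inj (im ψ (one (b i))) (Sum.elim (fun _ : Unit => (0 : Fin (s + 1))) Fin.succ)
      (by
        rintro (i | i) (j | j) hij
        · rfl
        · exact absurd hij (Fin.succ_ne_zero j).symm
        · exact absurd hij (Fin.succ_ne_zero i)
        · simp only [Sum.elim_inr] at hij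
          rw [Fin.succ_injective _ hij])
    convert this using 1
    funext j
    rcases j with j | j
    · simp [im, one]
    · simp [im, one]
  have e2 : Emb (pf x) (Sum.elim (fun _ : Unit => (1 : N)) (ppf x)) := by
    classical
    have := Emb.comp_inj (Sum.elim (fun _ : Unit => (1 : N)) (ppf x))
      (fun S : Finset (Fin n) => if h : S.Nonempty then (Sum.inr ⟨S, h⟩ : Unit ⊕ Pu n)
        else Sum.inl ())
      (by
        intro S T hST
        by_cases hS : S.Nonempty <;> by_cases hT : T.Nonempty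
        · simp only [hS, hT, dif_pos, Sum.inr.injEq, Subtype.mk.injEq] at hST
          exact hST
        · simp [hS, hT] at hST
        · simp [hS, hT] at hST
        · rw [Finset.not_nonempty_iff_eq_empty.1 hS, Finset.not_nonempty_iff_eq_empty.1 hT])
    convert this using 1
    funext S
    by_cases hS : S.Nonempty
    · simp [hS, ppf]
    · simp only [hS, dif_neg, not_false_eq_true, Sum.elim_inl]
      rw [Finset.not_nonempty_iff_eq_empty.1 hS, pf_empty]
  exact (e1.trans (hI i (Finset.mem_univ i))).trans e2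

end Pool.Agent.Helper44.RED
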