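import Pool.Agent.Helper44.RED.M_Lat

/-!
# Project RED: module MaxEx (existence of maximal lattices)
-/

set_option autoImplicit false

namespace Pool.Agent.Helper44.RED

private lemma gram_eq_MaxEx {F ι κ : Type} [Field F] [Fintype ι] [Fintype κ] [DecidableEq ι]
    (a : ι → F) (B : Matrix ι κ F) (i j : κ) :
    (B.transpose * Matrix.diagonal a * B) i j = bf a (fun k => B k i) (fun k => B k j) := by
  rw [Matrix.mul_apply]
  unfold bf
  refine Finset.sum_congr rfl fun k _ => ?_
  rw [Matrix.mul_diagonal, Matrix.transpose_apply]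
  ring

private lemma bf_mulVec_MaxEx {F ι κ : Type} [Field F] [Fintype ι] [Fintype κ] [DecidableEq ι]
    (a : ι → F) (B : Matrix ι κ F) (q : κ → F) (y : ι → F) :
    bf a (B.mulVec q) y = q ⬝ᵥ ((B.transpose * Matrix.diagonal a).mulVec y) := by
  rw [← Matrix.mulVec_mulVec, Matrix.dotProduct_mulVec, Matrix.vecMul_transpose]
  unfold bf dotProduct
  refine Finset.sum_congr rfl fun i _ => ?_
  rw [Matrix.mulVec_diagonal]
  ring

/-- MAXEX. -/
theorem pMaxEx_free : StMaxEx := by
  intro F ι _ _ _ O hO a ha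
  set S : Set O := {d | ∃ B : Matrix ι ι F, B.det ≠ 0 ∧
    (∀ i j, (B.transpose * Matrix.diagonal a * B) i j ∈ O) ∧
    (d : F) = (B.transpose * Matrix.diagonal a * B).det} with hS
  have hne : S.Nonempty := by
    obtain ⟨b, hb⟩ := IsLocalization.exist_integer_multiples_of_finite (nonZeroDivisors O) a
    have hb0 : ((b : O) : F) ≠ 0 := by
      intro h
      have h1 : (b : O) = 0 := Subtype.ext h
      exact nonZeroDivisors.coe_ne_zero b h1
    have hba : ∀ i, ((b : O) : F) * a i ∈ O := by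
      intro i
      obtain ⟨w, hw⟩ := hb i
      have : algebraMap O F w = ((b : O) : F) * a i := by
        rw [hw, Algebra.smul_def]
        rfl
      rw [← this]
      exact w.2
    set B : Matrix ι ι F := Matrix.diagonal (fun _ => ((b : O) : F)) with hB
    have hint : ∀ i j, (B.transpose * Matrix.diagonal a * B) i j ∈ O := by
      intro i j
      rw [hB, Matrix.diagonal_transpose, Matrix.diagonal_mul_diagonal,
        Matrix.diagonal_mul_diagonal, Matrix.diagonal_apply]
      split_ifs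
      · exact O.mul_mem _ _ (hba i) (b : O).2
      · exact O.zero_mem
    refine ⟨⟨_, IM_Lat.det hint⟩, B, ?_, hint, rfl⟩
    rw [hB, Matrix.det_diagonal]
    exact Finset.prod_ne_zero_iff.mpr fun _ _ => hb0
  obtain ⟨d, ⟨B, hBdet, hBint, hd⟩, hmin⟩ :=
    ((IsWellFounded.wf (r := (DvdNotUnit (α := O))))).has_min S hne
  have hBu : IsUnit B.det := isUnit_iff_ne_zero.mpr hBdet
  have hAdet : (Matrix.diagonal a).det ≠ 0 := by
    rw [Matrix.det_diagonal]
    exact Finset.prod_ne_zero_iff.mpr fun i _ => ha i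
  refine ⟨B, hBdet, hBint, ?_⟩
  intro v hv1 hv2
  by_contra hcon
  set L : Submodule O (ι → F) := Submodule.span O (Set.range B.col) ⊔
    Submodule.span O {v} with hL
  have hLfg : L.FG := (Submodule.fg_span (Set.finite_range _)).sup
    (Submodule.fg_span (Set.finite_singleton v))
  have hBL : ∀ j, (fun i => B i j) ∈ L := fun j =>
    Submodule.mem_sup_left (Submodule.subset_span ⟨j, rfl⟩)
  have hvL : v ∈ L := Submodule.mem_sup_right (Submodule.mem_span_singleton_self v)
  obtain ⟨B', hB'det, hB'⟩ := lattice_basis_Lat O hO L hLfg B hBdet hBL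
  have hB'u : IsUnit B'.det := isUnit_iff_ne_zero.mpr hB'det
  have hsum : ∀ x ∈ L, ∃ (q : ι → F) (c : F), (∀ i, q i ∈ O) ∧ c ∈ O ∧
      x = B.mulVec q + c • v := by
    intro x hx
    obtain ⟨v1, h1, v2, h2, rfl⟩ := Submodule.mem_sup.mp hx
    rw [Submodule.mem_span_range_iff_exists_fun] at h1
    obtain ⟨w, hw⟩ := h1
    obtain ⟨c, rfl⟩ := Submodule.mem_span_singleton.mp h2
    refine ⟨fun i => (w i : F), (c : F), fun i => (w i).2, c.2, ?_⟩
    congr 1
    rw [← hw]
    funext i
    rw [Matrix.mulVec, dotProduct, Finset.sum_apply]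
    refine Finset.sum_congr rfl fun k _ => ?_
    show (w k : F) * B i k = _
    ring
  have hbfL : ∀ x ∈ L, ∀ y ∈ L, bf a x y ∈ O := by
    intro x hx y hy
    obtain ⟨q, c, hq, hc, rfl⟩ := hsum x hx
    obtain ⟨q', c', hq', hc', rfl⟩ := hsum y hy
    rw [bf_add_left, bf_add_right, bf_add_right, bf_smul_left, bf_smul_left, bf_smul_right,
      bf_smul_right, bf_mulVec_MaxEx a B q (B.mulVec q'), bf_mulVec_MaxEx a B q v,
      bf_comm a v (B.mulVec q'), bf_mulVec_MaxEx a B q' v, Matrix.mulVec_mulVec, bf_self]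
    refine O.add_mem _ _ (O.add_mem _ _ ?_ (O.mul_mem _ _ hc' ?_)) (O.add_mem _ _
      (O.mul_mem _ _ hc ?_) (O.mul_mem _ _ hc (O.mul_mem _ _ hc' hv2)))
    · exact dot_mem_Lat hq (IM_Lat.mulVec hBint hq')
    · exact dot_mem_Lat hq hv1
    · exact dot_mem_Lat hq' hv1
  have hcolL : ∀ j, (fun i => B' i j) ∈ L := by
    intro j
    rw [hB']
    intro i
    rw [mulVec_col_Lat, Matrix.nonsing_inv_mul _ hB'u, Matrix.one_apply]
    split_ifs
    · exact O.one_mem
    · exact O.zero_mem
  have hB'int : ∀ i j, (B'.transpose * Matrix.diagonal a * B') i j ∈ O := by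
    intro i j
    rw [gram_eq_MaxEx]
    exact hbfL _ (hcolL i) _ (hcolL j)
  set T : Matrix ι ι F := B'⁻¹ * B with hT
  have hTi : IM_Lat O T := by
    intro i j
    rw [hT, ← mulVec_col_Lat]
    exact (hB' _).mp (hBL j) i
  have hBT : B = B' * T := by rw [hT, Matrix.mul_nonsing_inv_cancel_left _ _ hB'u]
  have hTdet : T.det ≠ 0 := by
    intro h
    apply hBdet
    rw [hBT, Matrix.det_mul, h, mul_zero]
  have hdet : (B.transpose * Matrix.diagonal a * B).det =
      (B'.transpose * Matrix.diagonal a * B').det * (T.det * T.det) := by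
    conv_lhs => rw [hBT]
    rw [Matrix.transpose_mul]
    simp only [Matrix.det_mul, Matrix.det_transpose]
    ring
  have hTnu : (T.det)⁻¹ ∉ O := by
    intro h
    apply hcon
    have h1 : IM_Lat O T⁻¹ := hTi.inv h
    have h2 : B⁻¹ = T⁻¹ * B'⁻¹ := by rw [hBT, Matrix.mul_inv_rev]
    intro i
    rw [h2, ← Matrix.mulVec_mulVec]
    exact h1.mulVec ((hB' v).mp hvL) i
  apply hmin ⟨_, IM_Lat.det hB'int⟩ ⟨B', hB'det, hB'int, rfl⟩
  refine ⟨?_, ⟨T.det * T.det, O.mul_mem _ _ hTi.det hTi.det⟩, ?_, ?_⟩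
  · intro h
    have h1 : (B'.transpose * Matrix.diagonal a * B').det = 0 := congrArg (fun z : O => (z : F)) h
    rw [Matrix.det_mul, Matrix.det_mul, Matrix.det_transpose] at h1
    exact (mul_ne_zero (mul_ne_zero hB'det hAdet) hB'det) h1
  · intro h
    obtain ⟨w, hw⟩ := isUnit_iff_exists_inv.mp h
    have hw' : T.det * T.det * (w : F) = 1 := congrArg (fun z : O => (z : F)) hw
    apply hTnu
    have : (T.det)⁻¹ = T.det * w := by
      apply inv_eq_of_mul_eq_one_right
      rw [← mul_assoc]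
      exact hw'
    rw [this]
    exact O.mul_mem _ _ hTi.det w.2
  · apply Subtype.ext
    rw [hd, hdet]
    rfl

/-- MAXEX. -/
theorem pMaxEx : StUnif → StMaxEx := fun _ => pMaxEx_free

end Pool.Agent.Helper44.RED
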