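import Pool.Agent.Helper44.RED.StD

/-!
# Project RED, module MINORS
-/

set_option autoImplicit false

namespace Pool.Agent.Helper44.RED

private lemma lm_self_Minors {F : Type} [CommRing F] (n : ℕ) (G : Matrix (Fin n) (Fin n) F) :
    lm G n = G.det := by
  unfold lm
  congr 1
  ext p q
  simp

private lemma lm_sub_Minors {F : Type} [CommRing F] (n : ℕ)
    (G : Matrix (Fin (n + 1)) (Fin (n + 1)) F) (l : ℕ) (hl : l ≤ n) :
    lm (G.submatrix Fin.castSucc Fin.castSucc) l = lm G l := by
  unfold lm
  congr 1
  ext p q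
  have hp : p.1 < n := lt_of_lt_of_le p.2 hl
  have hq : q.1 < n := lt_of_lt_of_le q.2 hl
  have hp' : p.1 < n + 1 := Nat.lt_succ_of_lt hp
  have hq' : q.1 < n + 1 := Nat.lt_succ_of_lt hq
  simp only [Matrix.of_apply, hp, hq, hp', hq', and_self, dite_true, Matrix.submatrix_apply]
  rfl

private lemma lm_zero_Minors {F : Type} [CommRing F] (n : ℕ) (G : Matrix (Fin n) (Fin n) F) :
    lm G 0 = 1 := by
  unfold lm
  exact Matrix.det_fin_zero

/-- Jacobi -/
private lemma jacobi_Minors {F : Type} [Field F] : ∀ (n : ℕ) (G : Matrix (Fin n) (Fin n) F),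
    G.IsSymm → (∀ l ≤ n, lm G l ≠ 0) → ∃ P : Matrix (Fin n) (Fin n) F, P.det = 1 ∧
      P.transpose * G * P = Matrix.diagonal (fun i : Fin n => lm G (i.1 + 1) / lm G i.1) := by
  intro n
  induction n with
  | zero =>
    intro G _ _
    refine ⟨1, Matrix.det_one, ?_⟩
    ext i; exact i.elim0
  | succ n ih =>
    intro G hG hm
    set G' := G.submatrix Fin.castSucc Fin.castSucc with hG'
    have hs : G'.IsSymm := by
      unfold Matrix.IsSymm
      ext i j
      simp only [hG', Matrix.transpose_apply, Matrix.submatrix_apply]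
      exact hG.apply _ _
    have hm' : ∀ l ≤ n, lm G' l ≠ 0 := fun l hl => by
      rw [hG', lm_sub_Minors n G l hl]; exact hm l (by omega)
    obtain ⟨P', hP', hD'⟩ := ih G' hs hm'
    have hdet' : G'.det ≠ 0 := by rw [← lm_self_Minors]; exact hm' n le_rfl
    have hu : IsUnit G'.det := isUnit_iff_ne_zero.2 hdet'
    let g : Fin n → F := fun i => G i.castSucc (Fin.last n)
    let y : Fin n → F := G'⁻¹.mulVec g
    have hy : G'.mulVec y = g := by
      change G'.mulVec (G'⁻¹.mulVec g) = g
      rw [Matrix.mulVec_mulVec, Matrix.mul_nonsing_inv _ hu, Matrix.one_mulVec]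
    let P : Matrix (Fin (n + 1)) (Fin (n + 1)) F := Matrix.of fun i j =>
      Fin.lastCases (motive := fun _ => F)
        (Fin.lastCases (motive := fun _ => F) 1 (fun _ => 0) j)
        (fun i' => Fin.lastCases (motive := fun _ => F) (- y i') (fun j' => P' i' j') j) i
    have p11 : ∀ i j : Fin n, P i.castSucc j.castSucc = P' i j := fun i j => by simp [P]
    have p12 : ∀ i : Fin n, P i.castSucc (Fin.last n) = - y i := fun i => by simp [P]
    have p21 : ∀ j : Fin n, P (Fin.last n) j.castSucc = 0 := fun j => by simp [P]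
    have p22 : P (Fin.last n) (Fin.last n) = 1 := by simp [P]
    have hPdet : P.det = 1 := by
      rw [Matrix.det_succ_row P (Fin.last n), Fin.sum_univ_castSucc]
      have h0 : ∑ j : Fin n, (-1 : F) ^ ((Fin.last n : Fin (n + 1)) + (j.castSucc : Fin (n+1)) : ℕ) *
          P (Fin.last n) j.castSucc *
          (P.submatrix (Fin.last n).succAbove j.castSucc.succAbove).det = 0 := by
        refine Finset.sum_eq_zero fun j _ => ?_
        rw [p21]; ring
      rw [h0, zero_add, p22]
      have h1 : P.submatrix (Fin.last n).succAbove (Fin.last n).succAbove = P' := by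
        ext i j
        simp only [Matrix.submatrix_apply, Fin.succAbove_last]
        exact p11 i j
      rw [h1, hP', Fin.val_last, ← two_mul, pow_mul]
      simp
    -- the entries of `G * P`
    have gP1 : ∀ (i : Fin (n + 1)) (j : Fin n), (G * P) i j.castSucc =
        ∑ a : Fin n, G i a.castSucc * P' a j := by
      intro i j
      rw [Matrix.mul_apply, Fin.sum_univ_castSucc, p21, mul_zero, add_zero]
      exact Finset.sum_congr rfl fun a _ => by rw [p11]
    have gP2 : ∀ (i : Fin n), (G * P) i.castSucc (Fin.last n) = 0 := by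
      intro i
      rw [Matrix.mul_apply, Fin.sum_univ_castSucc, p22, mul_one]
      have h1 : ∑ a : Fin n, G i.castSucc a.castSucc * P a.castSucc (Fin.last n) =
          - (G'.mulVec y) i := by
        rw [Matrix.mulVec, dotProduct, ← Finset.sum_neg_distrib]
        refine Finset.sum_congr rfl fun a _ => ?_
        rw [p12]
        simp only [hG', Matrix.submatrix_apply]
        ring
      rw [h1, hy]
      change - (G i.castSucc (Fin.last n)) + G i.castSucc (Fin.last n) = 0
      ring
    have e1 : P.transpose * G * P = P.transpose * (G * P) := Matrix.mul_assoc _ _ _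
    have q11 : ∀ i j : Fin n, (P.transpose * (G * P)) i.castSucc j.castSucc =
        (P'.transpose * G' * P') i j := by
      intro i j
      rw [Matrix.mul_apply, Fin.sum_univ_castSucc]
      simp only [Matrix.transpose_apply]
      rw [p21, zero_mul, add_zero, Matrix.mul_assoc, Matrix.mul_apply]
      refine Finset.sum_congr rfl fun a _ => ?_
      rw [p11, gP1, Matrix.transpose_apply, Matrix.mul_apply]
      simp only [hG', Matrix.submatrix_apply]
    have q12 : ∀ i : Fin n, (P.transpose * (G * P)) i.castSucc (Fin.last n) = 0 := by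
      intro i
      rw [Matrix.mul_apply, Fin.sum_univ_castSucc]
      simp only [Matrix.transpose_apply]
      rw [p21, zero_mul, add_zero]
      exact Finset.sum_eq_zero fun a _ => by rw [gP2, mul_zero]
    have hsym : (P.transpose * (G * P)).IsSymm := by
      unfold Matrix.IsSymm
      rw [Matrix.transpose_mul, Matrix.transpose_mul, Matrix.transpose_transpose, hG.eq,
        Matrix.mul_assoc]
    have q21 : ∀ i : Fin n, (P.transpose * (G * P)) (Fin.last n) i.castSucc = 0 := by
      intro i
      rw [← hsym.apply, q12]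
    set c := (P.transpose * (G * P)) (Fin.last n) (Fin.last n) with hc
    have hdiag : P.transpose * (G * P) = Matrix.diagonal (fun i : Fin (n + 1) =>
        Fin.lastCases (motive := fun _ => F) c (fun i' => lm G' (i'.1 + 1) / lm G' i'.1) i) := by
      ext i j
      refine Fin.lastCases ?_ (fun i' => ?_) i
      · refine Fin.lastCases ?_ (fun j' => ?_) j
        · rw [Matrix.diagonal_apply_eq]; simp [hc]
        · rw [q21, Matrix.diagonal_apply_ne]
          exact (Fin.castSucc_lt_last j').ne'
      · refine Fin.lastCases ?_ (fun j' => ?_) j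
        · rw [q12, Matrix.diagonal_apply_ne]
          exact (Fin.castSucc_lt_last i').ne
        · rw [q11, hD']
          by_cases h : i' = j'
          · subst h; rw [Matrix.diagonal_apply_eq, Matrix.diagonal_apply_eq]; simp
          · rw [Matrix.diagonal_apply_ne _ h, Matrix.diagonal_apply_ne]
            exact fun h' => h (Fin.castSucc_injective _ h')
    have hdetG : G.det = (∏ i : Fin n, lm G' (i.1 + 1) / lm G' i.1) * c := by
      have h1 := congrArg Matrix.det hdiag
      rw [Matrix.det_mul, Matrix.det_mul, Matrix.det_transpose, hPdet, Matrix.det_diagonal,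
        Fin.prod_univ_castSucc] at h1
      simpa using h1
    have hdetG' : G'.det = ∏ i : Fin n, lm G' (i.1 + 1) / lm G' i.1 := by
      have h1 := congrArg Matrix.det hD'
      rw [Matrix.det_mul, Matrix.det_mul, Matrix.det_transpose, hP', Matrix.det_diagonal] at h1
      simpa using h1
    have hcv : c = lm G (n + 1) / lm G n := by
      rw [lm_self_Minors, ← lm_sub_Minors n G n le_rfl, ← hG', lm_self_Minors, hdetG, ← hdetG']
      field_simp
    refine ⟨P, hPdet, ?_⟩
    rw [e1, hdiag]
    congr 1
    funext i
    refine Fin.lastCases ?_ (fun i' => ?_) i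
    · simp [hcv]
    · simp only [Fin.lastCases_castSucc, Fin.val_castSucc]
      rw [hG', lm_sub_Minors n G _ (by omega), lm_sub_Minors n G _ (by omega)]

theorem pMinors : StMinors := by
  intro F _ N G hG hm
  obtain ⟨P, hP, hD⟩ := jacobi_Minors (N + 1) G hG hm
  have hu : IsUnit P.det := by rw [hP]; exact isUnit_one
  set d : Fin (N + 1) → F := fun i => lm G (i.1 + 1) / lm G i.1 with hd
  have hq : ∀ z : Fin (N + 1) → F, qm G (P.mulVec z) = ∑ i, d i * z i ^ 2 := by
    intro z
    have e : dotProduct (P.mulVec z) (G.mulVec (P.mulVec z)) =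
        dotProduct z ((P.transpose * G * P).mulVec z) := by
      conv_lhs => rw [← Matrix.vecMul_transpose, ← Matrix.dotProduct_mulVec]
      rw [Matrix.vecMul_transpose, Matrix.mulVec_mulVec, Matrix.mulVec_mulVec, Matrix.mul_assoc]
    change dotProduct (P.mulVec z) (G.mulVec (P.mulVec z)) = _
    rw [e, hD]
    unfold dotProduct
    refine Finset.sum_congr rfl fun i _ => ?_
    rw [Matrix.mulVec_diagonal]
    ring
  have h1 : MIso G ↔ ∃ z : Fin (N + 1) → F, z ≠ 0 ∧ ∑ i, d i * z i ^ 2 = 0 := by
    constructor
    · rintro ⟨u, hu0, hu1⟩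
      refine ⟨P⁻¹.mulVec u, ?_, ?_⟩
      · intro h
        apply hu0
        have : P.mulVec (P⁻¹.mulVec u) = u := by
          rw [Matrix.mulVec_mulVec, Matrix.mul_nonsing_inv _ hu, Matrix.one_mulVec]
        rw [← this, h, Matrix.mulVec_zero]
      · rw [← hq, Matrix.mulVec_mulVec, Matrix.mul_nonsing_inv _ hu, Matrix.one_mulVec]
        exact hu1
    · rintro ⟨z, hz0, hz1⟩
      refine ⟨P.mulVec z, ?_, by rw [hq]; exact hz1⟩
      intro h
      apply hz0
      have : P⁻¹.mulVec (P.mulVec z) = z := by
        rw [Matrix.mulVec_mulVec, Matrix.nonsing_inv_mul _ hu, Matrix.one_mulVec]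
      rw [← this, h, Matrix.mulVec_zero]
  rw [h1]
  have hl1 : lm G 1 ≠ 0 := hm 1 (by omega)
  -- the scaling
  let sc : Fin (N + 1) → F := fun i => Fin.cases (motive := fun _ => F) (lm G 1)
    (fun l => (lm G (l.1 + 1))⁻¹) i
  have hsc : ∀ i, sc i ≠ 0 := by
    intro i
    refine Fin.cases ?_ (fun l => ?_) i
    · exact hl1
    · exact inv_ne_zero (hm _ (by omega))
  have key : ∀ z : Fin (N + 1) → F, qf (one (fun l : Fin N => lm G 1 * (lm G (l.1 + 1) *
      lm G (l.1 + 2)))) (fun i => sc i * z i) = lm G 1 * ∑ i, d i * z i ^ 2 := by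
    intro z
    unfold qf one
    rw [Fin.sum_univ_succ, Fin.sum_univ_succ, mul_add, Finset.mul_sum]
    congr 1
    · simp only [Fin.cons_zero, sc, Fin.cases_zero, hd, Fin.val_zero, lm_zero_Minors]
      ring
    · refine Finset.sum_congr rfl fun l _ => ?_
      have hl : lm G (l.1 + 1) ≠ 0 := hm _ (by omega)
      simp only [Fin.cons_succ, sc, Fin.cases_succ, hd, Fin.val_succ]
      field_simp
  constructor
  · rintro ⟨z, hz0, hz1⟩ hA
    have h2 := hA (fun i => sc i * z i) (by rw [key, hz1, mul_zero])
    apply hz0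
    funext i
    have h3 := congrFun h2 i
    exact (mul_eq_zero.1 h3).resolve_left (hsc i)
  · intro hA
    unfold Aniso at hA
    push Not at hA
    obtain ⟨x, hx0, hx1⟩ := hA
    refine ⟨fun i => (sc i)⁻¹ * x i, ?_, ?_⟩
    · intro h
      apply hx1
      funext i
      have h3 := congrFun h i
      exact (mul_eq_zero.1 h3).resolve_left (inv_ne_zero (hsc i))
    · have h4 := key (fun i => (sc i)⁻¹ * x i)
      have h5 : (fun i => sc i * ((sc i)⁻¹ * x i)) = x := by
        funext i; rw [← mul_assoc, mul_inv_cancel₀ (hsc i), one_mul]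
      rw [h5, hx0] at h4
      exact (mul_eq_zero.1 h4.symm).resolve_left hl1

end Pool.Agent.Helper44.RED
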