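import Pool.Agent.Helper44.RED.Spec

/-! # Project RED, module NSq: the radicands are independent modulo squares (helper78) -/

set_option autoImplicit false

open MvPolynomial

namespace Pool.Agent.Helper44.RED

/-- `c₁ X² + c₂` is not a square -/
private lemma quad_not_sq_NSq {L : Type} [Field L] (h2 : (2 : L) ≠ 0) (c₁ c₂ : L) (h1 : c₁ ≠ 0)
    (hc2 : c₂ ≠ 0) (H : Polynomial L)
    (h : Polynomial.C c₁ * Polynomial.X ^ 2 + Polynomial.C c₂ = H ^ 2) : False := by
  have hdeg : H.natDegree = 1 := by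
    have e : (Polynomial.C c₁ * Polynomial.X ^ 2 + Polynomial.C c₂).natDegree = 2 := by
      compute_degree!
    rw [h, Polynomial.natDegree_pow] at e
    omega
  have hc0 : H.coeff 0 ^ 2 = c₂ := by
    have := congrArg (Polynomial.eval 0) h
    simp only [Polynomial.eval_add, Polynomial.eval_mul, Polynomial.eval_C, Polynomial.eval_pow,
      Polynomial.eval_X] at this
    rw [← Polynomial.coeff_zero_eq_eval_zero] at this
    rw [← this]; ring
  have hd := congrArg (fun P => Polynomial.eval 0 (Polynomial.derivative P)) h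
  simp only [Polynomial.derivative_add, Polynomial.derivative_mul, Polynomial.derivative_C,
    Polynomial.derivative_pow, Polynomial.derivative_X, Polynomial.eval_add, Polynomial.eval_mul,
    Polynomial.eval_C, Polynomial.eval_pow, Polynomial.eval_X] at hd
  have hH1 : Polynomial.eval 0 (Polynomial.derivative H) = H.coeff 1 := by
    rw [← Polynomial.coeff_zero_eq_eval_zero, Polynomial.coeff_derivative]; simp
  rw [hH1, ← Polynomial.coeff_zero_eq_eval_zero] at hd
  have hne1 : H.coeff 1 ≠ 0 := by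
    rw [← hdeg]
    have hH0 : H ≠ 0 := by
      intro h0; rw [h0] at hdeg; simp at hdeg
    exact Polynomial.leadingCoeff_ne_zero.2 hH0
  have hne0 : H.coeff 0 ≠ 0 := by
    intro h0
    rw [h0] at hc0
    exact hc2 (by rw [← hc0]; ring)
  have : (2 : L) * H.coeff 0 * H.coeff 1 = 0 := by
    norm_num at hd
    rcases hd with (hd | hd) | hd
    · exact absurd hd h2
    · rw [← Polynomial.coeff_zero_eq_eval_zero] at hd
      exact absurd hd hne0
    · exact absurd hd hne1
  exact (mul_ne_zero (mul_ne_zero h2 hne0) hne1) this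

/-- nonzero constants -/
private def NC_NSq {L : Type} [Field L] (z : Polynomial L) : Prop := ∃ g : L, g ≠ 0 ∧ z = Polynomial.C g

private lemma NC_mul_NSq {L : Type} [Field L] {z z' : Polynomial L} (h : NC_NSq z) (h' : NC_NSq z') :
    NC_NSq (z * z') := by
  obtain ⟨g, hg, rfl⟩ := h
  obtain ⟨g', hg', rfl⟩ := h'
  exact ⟨g * g', mul_ne_zero hg hg', by rw [Polynomial.C_mul]⟩

private lemma NC_prod_NSq {L ι : Type} [Field L] (s : Finset ι) (f : ι → Polynomial L)
    (h : ∀ i ∈ s, NC_NSq (f i)) : NC_NSq (∏ i ∈ s, f i) :=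
  Finset.prod_induction f NC_NSq (fun _ _ => NC_mul_NSq) ⟨1, one_ne_zero, by simp⟩ h

/-- Gram determinants of basis vectors -/
private lemma gd_basis_NSq {L : Type} [Field L] {n s : ℕ} (a : Pu n → L) (ha : ∀ S, a S ≠ 0)
    (e : ℕ → Pu n) (m : ℕ) (he : ∀ p q, p < m → q < m → e p = e q → p = q)
    (Y : Fin s → Pu n → Polynomial L) (hm : m ≤ s)
    (hY : ∀ p : Fin s, (p : ℕ) < m → Y p = Pi.single (e p) 1) :
    NC_NSq (gd (fun S => Polynomial.C (a S)) (ext0 Y) m) := by
  classical
  have hp : ∀ p, p < m → ext0 Y p = Pi.single (e p) 1 := by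
    intro p hpm
    have hps : p < s := lt_of_lt_of_le hpm hm
    unfold ext0
    rw [dif_pos hps]
    exact hY ⟨p, hps⟩ hpm
  rw [gd_orth_Sp]
  · refine NC_prod_NSq _ _ ?_
    intro p hp'
    rw [hp p (Finset.mem_range.1 hp'), qf_single]
    exact ⟨a (e p), ha _, by simp⟩
  · intro p q hpm hqm hpq
    rw [hp p hpm, hp q hqm, bf_single_single, if_neg]
    exact fun h => hpq (he p q hpm hqm h)

theorem pNSq : StNSq := by
  intro k _ h2 t n s M b σ hn hs hb hσ L _ _ τ x Y hind hgen S hS hsq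
  classical
  have h2L : (2 : L) ≠ 0 := by
    intro h
    apply h2
    apply (algebraMap k L).injective
    rw [map_zero, map_ofNat]; exact h
  set y : Fin t ⊕ (Fin n ⊕ (Fin M × Fin s × Pu n)) → L :=
    Sum.elim τ (Sum.elim x (fun p : Fin M × Fin s × Pu n => Y p.1 p.2.1 p.2.2)) with hy
  have hinj : Function.Injective (MvPolynomial.aeval y :
      MvPolynomial (Fin t ⊕ (Fin n ⊕ (Fin M × Fin s × Pu n))) k →ₐ[k] L) :=
    Indep.aeval_inj_Sp hind
  have hxne : ∀ j, x j ≠ 0 := by
    intro j h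
    have h1 : (MvPolynomial.aeval y :
      MvPolynomial (Fin t ⊕ (Fin n ⊕ (Fin M × Fin s × Pu n))) k →ₐ[k] L) (X (Sum.inr (Sum.inl j)))
        = 0 := by
      rw [MvPolynomial.aeval_X]; exact h
    exact MvPolynomial.X_ne_zero _ (hinj (by rw [h1, map_zero]))
  have hbne : ∀ i l, bs b (σ i) τ l ≠ 0 := by
    intro i l
    refine bs_ne_zero_Sp b (σ i) (hσ i) τ ?_ l (hb l)
    have h1 : (MvPolynomial.aeval τ : MvPolynomial (Fin t) k →ₐ[k] L) =
        (MvPolynomial.aeval y).comp (MvPolynomial.rename Sum.inl) := by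
      apply MvPolynomial.algHom_ext
      intro j
      simp [hy]
    rw [h1]
    exact hinj.comp (MvPolynomial.rename_injective _ Sum.inl_injective)
  -- the polynomial
  set F : (Fin M × Fin s) → MvPolynomial (Fin t ⊕ (Fin n ⊕ (Fin M × Fin s × Pu n))) k := fun p =>
    bs b (σ p.1) (fun j => X (Sum.inl j)) p.2 *
      (gd (ppf (fun j => X (Sum.inr (Sum.inl j))))
        (ext0 (fun (m : Fin s) (T : Pu n) => X (Sum.inr (Sum.inr (p.1, m, T))))) p.2 *
       gd (ppf (fun j => X (Sum.inr (Sum.inl j))))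
        (ext0 (fun (m : Fin s) (T : Pu n) => X (Sum.inr (Sum.inr (p.1, m, T))))) (p.2 + 1)) with hF
  have hevF : ∀ p, MvPolynomial.aeval y (F p) = bs b (σ p.1) τ p.2 *
      (gd (ppf x) (ext0 (Y p.1)) p.2 * gd (ppf x) (ext0 (Y p.1)) (p.2 + 1)) := by
    intro p
    rw [hF, rad_map_Sp]
    simp only [MvPolynomial.aeval_X]
    rfl
  -- it is a square
  obtain ⟨h, hh⟩ := hsq
  obtain ⟨A, B, hB, hAB⟩ := exists_quot_Sp (y := y) hgen h
  have hev : MvPolynomial.aeval y (∏ p ∈ S, F p) = h * h := by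
    rw [map_prod, ← hh]
    exact Finset.prod_congr rfl fun p _ => hevF p
  have hBne : B ≠ 0 := by
    intro h0; rw [h0, map_zero] at hB; exact hB rfl
  have hFAB : (∏ p ∈ S, F p) * B ^ 2 = A ^ 2 := by
    apply hinj
    rw [map_mul, map_pow, map_pow, hev, hAB]
    field_simp
  have hdvd : B ∣ A := by
    rw [← UniqueFactorizationMonoid.pow_dvd_pow_iff_dvd (n := 2) two_ne_zero]
    exact ⟨∏ p ∈ S, F p, by rw [← hFAB, mul_comm]⟩
  obtain ⟨H, hH⟩ := hdvd
  have hFH : (∏ p ∈ S, F p) = H ^ 2 := by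
    have h3 : (∏ p ∈ S, F p) * B ^ 2 = H ^ 2 * B ^ 2 := by
      rw [hFAB, hH]; ring
    exact mul_right_cancel₀ (pow_ne_zero 2 hBne) h3
  -- the index
  obtain ⟨p₀, hp₀⟩ := hS
  obtain ⟨p₁, hp₁, hmax⟩ := (S.filter (fun p => p.1 = p₀.1)).exists_max_image
    (fun p => (p.2 : ℕ)) ⟨p₀, by simp [hp₀]⟩
  rw [Finset.mem_filter] at hp₁
  have hmax' : ∀ p ∈ S, p.1 = p₁.1 → (p.2 : ℕ) ≤ p₁.2 := by
    intro p hp hp1
    exact hmax p (Finset.mem_filter.2 ⟨hp, hp1.trans hp₁.2⟩)
  obtain ⟨i, l⟩ := p₁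
  have hsn : s + 1 ≤ 2 ^ n - 1 := by
    rw [hs]
    have h1 : 2 ^ n = 2 * 2 ^ (n - 1) := by
      rw [← pow_succ']; congr 1; omega
    have h3 : 2 ≤ 2 ^ (n - 1) := by
      calc 2 = 2 ^ 1 := rfl
        _ ≤ 2 ^ (n - 1) := Nat.pow_le_pow_right (by norm_num) (by omega)
    omega
  obtain ⟨e', he'⟩ := exists_emb_Sp hsn
  set e : ℕ → Pu n := fun m => if h : m < s + 1 then e' ⟨m, h⟩ else e' 0 with he
  have heinj : ∀ p q, p < s + 1 → q < s + 1 → e p = e q → p = q := by
    intro p q hp hq hpq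
    simp only [he, dif_pos hp, dif_pos hq] at hpq
    simpa using he' hpq
  -- the specialisation
  set Yθ : Fin M → Fin s → Pu n → Polynomial L := fun i' m =>
    if i' = i ∧ m = l then (Polynomial.X : Polynomial L) • Pi.single (e l) 1 + Pi.single (e s) 1
    else Pi.single (e m) 1 with hYθ
  set η : Fin t ⊕ (Fin n ⊕ (Fin M × Fin s × Pu n)) → Polynomial L :=
    Sum.elim (fun j => Polynomial.C (τ j)) (Sum.elim (fun j => Polynomial.C (x j))
      (fun p : Fin M × Fin s × Pu n => Yθ p.1 p.2.1 p.2.2)) with hη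
  have hθF : ∀ p, MvPolynomial.aeval η (F p) = Polynomial.C (bs b (σ p.1) τ p.2) *
      (gd (fun T => Polynomial.C (ppf x T)) (ext0 (Yθ p.1)) p.2 *
        gd (fun T => Polynomial.C (ppf x T)) (ext0 (Yθ p.1)) (p.2 + 1)) := by
    intro p
    rw [hF, rad_map_Sp]
    simp only [MvPolynomial.aeval_X]
    have e1 : bs b (σ p.1) (fun i => η (Sum.inl i)) p.2 = Polynomial.C (bs b (σ p.1) τ p.2) :=
      (bs_map_Sp (IsScalarTower.toAlgHom k L (Polynomial L)) b (σ p.1) τ p.2).symm
    have e2 : (ppf fun j => η (Sum.inr (Sum.inl j))) = fun T => Polynomial.C (ppf x T) := by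
      funext T
      exact (ppf_map_Sp Polynomial.C x T).symm
    rw [e1, e2]
    rfl
  have hconst : ∀ p ∈ S, p ≠ (i, l) → NC_NSq (MvPolynomial.aeval η (F p)) := by
    intro p hp hpne
    rw [hθF]
    have key : ∀ m : ℕ, m ≤ (p.2 : ℕ) + 1 →
        NC_NSq (gd (fun T => Polynomial.C (ppf x T)) (ext0 (Yθ p.1)) m) := by
      intro m hm
      refine gd_basis_NSq (ppf x) (ppf_ne_zero_Sp hxne) e m
        (fun a c ha hc => heinj a c (by omega) (by omega)) (Yθ p.1) (by omega) ?_
      intro q hq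
      simp only [hYθ]
      rw [if_neg]
      rintro ⟨h3, h4⟩
      have h5 := hmax' p hp h3
      have h6 : (q : ℕ) = l := by rw [h4]
      apply hpne
      refine Prod.ext h3 (Fin.ext ?_)
      have h7 : ((i, l) : Fin M × Fin s).2 = l := rfl
      simp only at h5 ⊢
      omega
    exact NC_mul_NSq ⟨_, hbne _ _, rfl⟩ (NC_mul_NSq (key _ (by omega)) (key _ le_rfl))
  have hmain : ∃ g : L, g ≠ 0 ∧ MvPolynomial.aeval η (F (i, l)) = Polynomial.C g *
      (Polynomial.C (ppf x (e l)) * Polynomial.X ^ 2 + Polynomial.C (ppf x (e s))) := by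
    rw [hθF]
    have h3 : NC_NSq (gd (fun T => Polynomial.C (ppf x T)) (ext0 (Yθ i)) l) := by
      refine gd_basis_NSq (ppf x) (ppf_ne_zero_Sp hxne) e l
        (fun a c ha hc => heinj a c (by omega) (by omega)) (Yθ i) (by omega) ?_
      intro q hq
      simp only [hYθ]
      rw [if_neg]
      rintro ⟨-, h4⟩
      have h6 : (q : ℕ) = l := by rw [h4]
      omega
    have hels : e l ≠ e s := by
      intro h4
      have := heinj l s (by omega) (by omega) h4
      have := l.2
      omega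
    have hext : ∀ p, p < (l : ℕ) → ext0 (Yθ i) p = Pi.single (e p) 1 := by
      intro p hp
      have hps : p < s := by omega
      unfold ext0
      rw [dif_pos hps]
      simp only [hYθ]
      rw [if_neg]
      rintro ⟨-, h4⟩
      have h6 : p = (l : ℕ) := congrArg (fun z : Fin s => (z : ℕ)) h4
      omega
    have hextl : ext0 (Yθ i) l =
        (Polynomial.X : Polynomial L) • Pi.single (e l) 1 + Pi.single (e s) 1 := by
      unfold ext0
      rw [dif_pos l.2]
      simp [hYθ]
    have h4 : gd (fun T => Polynomial.C (ppf x T)) (ext0 (Yθ i)) (l + 1) =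
        gd (fun T => Polynomial.C (ppf x T)) (ext0 (Yθ i)) l *
        (Polynomial.C (ppf x (e l)) * Polynomial.X ^ 2 + Polynomial.C (ppf x (e s))) := by
      have horth : ∀ p q, p < (l : ℕ) + 1 → q < (l : ℕ) + 1 → p ≠ q →
          bf (fun T => Polynomial.C (ppf x T)) (ext0 (Yθ i) p) (ext0 (Yθ i) q) = 0 := by
        have hpl : ∀ p, p < (l : ℕ) →
            bf (fun T => Polynomial.C (ppf x T)) (ext0 (Yθ i) p) (ext0 (Yθ i) l) = 0 := by
          intro p hp
          rw [hext p hp, hextl, bf_add_right, bf_smul_right, bf_single_single, bf_single_single,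
            if_neg, if_neg]
          · ring
          · intro h5; have := heinj p s (by omega) (by omega) h5; omega
          · intro h5; have := heinj p l (by omega) (by omega) h5; omega
        intro p q hp hq hpq
        rcases Nat.lt_succ_iff_lt_or_eq.1 hp with hp | rfl
        · rcases Nat.lt_succ_iff_lt_or_eq.1 hq with hq | rfl
          · rw [hext p hp, hext q hq, bf_single_single, if_neg]
            intro h5; exact hpq (heinj p q (by omega) (by omega) h5)
          · exact hpl p hp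
        · rcases Nat.lt_succ_iff_lt_or_eq.1 hq with hq | hq
          · rw [bf_comm]; exact hpl q hq
          · exact absurd hq.symm hpq
      rw [gd_orth_Sp _ _ _ horth, gd_orth_Sp _ _ _ (fun p q hp hq => horth p q (by omega)
        (by omega)), Finset.prod_range_succ]
      congr 1
      rw [hextl, qf_add, qf_smul, qf_single, qf_single, bf_smul_left, bf_single_single,
        if_neg hels]
      ring
    obtain ⟨g, hg, hg'⟩ := h3
    refine ⟨bs b (σ i) τ l * (g * g), mul_ne_zero (hbne _ _) (mul_ne_zero hg hg), ?_⟩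
    simp only at h4 ⊢
    rw [h4, hg', Polynomial.C_mul, Polynomial.C_mul]
    ring
  obtain ⟨g, hg, hg'⟩ := hmain
  obtain ⟨g₁, hg₁, hg₁'⟩ := NC_prod_NSq (S.erase (i, l)) (fun p => MvPolynomial.aeval η (F p))
    (fun p hp => hconst p (Finset.mem_of_mem_erase hp) (Finset.ne_of_mem_erase hp))
  have hfin : Polynomial.C (g₁ * g * ppf x (e l)) * Polynomial.X ^ 2 +
      Polynomial.C (g₁ * g * ppf x (e s)) = (MvPolynomial.aeval η H) ^ 2 := by
    rw [← map_pow, ← hFH, map_prod, ← Finset.mul_prod_erase S _ hp₁.1, hg', hg₁']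
    simp only [Polynomial.C_mul]
    ring
  exact quad_not_sq_NSq h2L _ _ (mul_ne_zero (mul_ne_zero hg₁ hg) (ppf_ne_zero_Sp hxne _))
    (mul_ne_zero (mul_ne_zero hg₁ hg) (ppf_ne_zero_Sp hxne _)) _ hfin

end Pool.Agent.Helper44.RED
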