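import Pool.Agent.Helper44.RED.StA
import Pool.Agent.Helper44.RED.Fld

/-!
# Project RED, module Odd: one more variable with odd valuation
-/

set_option autoImplicit false

open Polynomial

namespace Pool.Agent.Helper44.RED

/-- the value of an anisotropic form at polynomials has even degree -/
private lemma deg_Odd {L ι : Type} [Field L] [Fintype ι] (A : ι → L) (hA : Aniso A)
    (g : ι → L[X]) (hg : ∃ i, g i ≠ 0) :
    qf (fun i => C (A i)) g ≠ 0 ∧ ∃ D : ℕ, (qf (fun i => C (A i)) g).natDegree = 2 * D := by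
  classical
  obtain ⟨i₀, hi₀⟩ := hg
  have hne : (Finset.univ.filter fun i => g i ≠ 0).Nonempty :=
    ⟨i₀, Finset.mem_filter.2 ⟨Finset.mem_univ _, hi₀⟩⟩
  obtain ⟨k, hk, hmax⟩ := Finset.exists_max_image _ (fun i => (g i).natDegree) hne
  rw [Finset.mem_filter] at hk
  have hD : ∀ i, (g i).natDegree ≤ (g k).natDegree := by
    intro i
    by_cases hi : g i = 0
    · rw [hi, natDegree_zero]
      exact Nat.zero_le _
    · exact hmax i (Finset.mem_filter.2 ⟨Finset.mem_univ _, hi⟩)
  have hcoeff : (qf (fun i => C (A i)) g).coeff (2 * (g k).natDegree) =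
      qf A (fun i => (g i).coeff (g k).natDegree) := by
    unfold qf
    rw [finset_sum_coeff]
    refine Finset.sum_congr rfl fun i _ => ?_
    rw [coeff_C_mul, coeff_pow_of_natDegree_le (hD i)]
  have hnz : qf A (fun i => (g i).coeff (g k).natDegree) ≠ 0 := by
    intro h0
    have h1 := congrFun (hA _ h0) k
    have h2 : (g k).leadingCoeff = 0 := h1
    exact hk.2 (leadingCoeff_eq_zero.1 h2)
  have hle : (qf (fun i => C (A i)) g).natDegree ≤ 2 * (g k).natDegree := by
    unfold qf
    refine natDegree_sum_le_of_forall_le _ _ fun i _ => ?_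
    refine (natDegree_C_mul_le _ _).trans ?_
    exact natDegree_pow_le_of_le 2 (hD i)
  refine ⟨?_, (g k).natDegree, le_antisymm hle (le_natDegree_of_ne_zero ?_)⟩
  · intro h0
    rw [h0, coeff_zero] at hcoeff
    exact hnz hcoeff.symm
  · rw [hcoeff]
    exact hnz

private lemma poly_Odd {L ι κ : Type} [Field L] [Fintype ι] [Fintype κ] (A : ι → L) (B : κ → L)
    (hA : Aniso A) (hB : Aniso B) (g : ι → L[X]) (h : κ → L[X])
    (he : qf (fun i => C (A i)) g + X * qf (fun j => C (B j)) h = 0) :
    (∀ i, g i = 0) ∧ ∀ j, h j = 0 := by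
  by_cases hg : ∃ i, g i ≠ 0
  · exfalso
    obtain ⟨h1, D, h2⟩ := deg_Odd A hA g hg
    by_cases hh : ∃ j, h j ≠ 0
    · obtain ⟨h3, D', h4⟩ := deg_Odd B hB h hh
      have h5 : qf (fun i => C (A i)) g = -(X * qf (fun j => C (B j)) h) :=
        eq_neg_of_add_eq_zero_left he
      have h6 := congrArg natDegree h5
      rw [natDegree_neg, natDegree_X_mul h3, h2, h4] at h6
      omega
    · push Not at hh
      have h3 : qf (fun j => C (B j)) h = 0 := by
        unfold qf
        exact Finset.sum_eq_zero fun j _ => by rw [hh j]; ring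
      rw [h3, mul_zero, add_zero] at he
      exact h1 he
  · push Not at hg
    refine ⟨hg, ?_⟩
    have h3 : qf (fun i => C (A i)) g = 0 := by
      unfold qf
      exact Finset.sum_eq_zero fun j _ => by rw [hg j]; ring
    rw [h3, zero_add] at he
    have h4 : qf (fun j => C (B j)) h = 0 := by
      rcases mul_eq_zero.1 he with h5 | h5
      · exact absurd h5 X_ne_zero
      · exact h5
    by_contra hcon
    push Not at hcon
    exact (deg_Odd B hB h hcon).1 h4

theorem pOdd : StOdd := by
  intro L F ι κ _ _ _ _ φ z hz hgen A B hA hB x hx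
  obtain ⟨j, hj1, hj2, hj3⟩ := hz.isoRat hgen
  obtain ⟨y, hy⟩ : ∃ y : ι ⊕ κ → RatFunc L, ∀ s, j (y s) = x s :=
    ⟨fun s => j.symm (x s), fun s => j.apply_symm_apply _⟩
  obtain ⟨d, hd⟩ := IsLocalization.exist_integer_multiples_of_finite (nonZeroDivisors L[X]) y
  choose G hG using hd
  have hd0 : (algebraMap L[X] (RatFunc L) d) ≠ 0 := by
    have h1 : (d : L[X]) ≠ 0 := nonZeroDivisors.ne_zero d.2
    intro h2
    exact h1 ((map_eq_zero_iff _ (IsFractionRing.injective _ _)).1 h2)
  have hG' : ∀ s, algebraMap L[X] (RatFunc L) (G s) = algebraMap L[X] (RatFunc L) d * y s := by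
    intro s
    rw [hG s, Algebra.smul_def]
  -- the equation over `RatFunc L`
  have heq : (∑ i, algebraMap L[X] (RatFunc L) (C (A i)) * y (Sum.inl i) ^ 2) +
      algebraMap L[X] (RatFunc L) X * ∑ k, algebraMap L[X] (RatFunc L) (C (B k)) *
        y (Sum.inr k) ^ 2 = 0 := by
    apply j.injective
    rw [map_zero, ← hx, map_add, map_mul, map_sum, map_sum]
    unfold qf
    rw [Fintype.sum_sum_type, Finset.mul_sum]
    congr 1
    · refine Finset.sum_congr rfl fun i _ => ?_
      rw [map_mul, map_pow, hj3, eval₂_C, hy]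
      rfl
    · refine Finset.sum_congr rfl fun k _ => ?_
      rw [map_mul, map_pow, hj3, hj3, eval₂_C, eval₂_X, hy, Sum.elim_inr]
      ring
  have hpoly : qf (fun i => C (A i)) (fun i => G (Sum.inl i)) +
      X * qf (fun k => C (B k)) (fun k => G (Sum.inr k)) = 0 := by
    apply IsFractionRing.injective L[X] (RatFunc L)
    rw [map_zero, map_add, map_mul]
    unfold qf
    rw [map_sum, map_sum]
    have e1 : ∀ i, algebraMap L[X] (RatFunc L) (C (A i) * G (Sum.inl i) ^ 2) =
        algebraMap L[X] (RatFunc L) d ^ 2 *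
          (algebraMap L[X] (RatFunc L) (C (A i)) * y (Sum.inl i) ^ 2) := by
      intro i
      rw [map_mul, map_pow, hG']
      ring
    have e2 : ∀ k, algebraMap L[X] (RatFunc L) (C (B k) * G (Sum.inr k) ^ 2) =
        algebraMap L[X] (RatFunc L) d ^ 2 *
          (algebraMap L[X] (RatFunc L) (C (B k)) * y (Sum.inr k) ^ 2) := by
      intro k
      rw [map_mul, map_pow, hG']
      ring
    simp only [e1, e2]
    rw [← Finset.mul_sum, ← Finset.mul_sum]
    calc _ = algebraMap L[X] (RatFunc L) d ^ 2 *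
          ((∑ i, algebraMap L[X] (RatFunc L) (C (A i)) * y (Sum.inl i) ^ 2) +
      algebraMap L[X] (RatFunc L) X * ∑ k, algebraMap L[X] (RatFunc L) (C (B k)) *
        y (Sum.inr k) ^ 2) := by ring
      _ = 0 := by rw [heq, mul_zero]
  obtain ⟨h1, h2⟩ := poly_Odd A B hA hB _ _ hpoly
  have hG0 : ∀ s, G s = 0 := by
    rintro (i | k)
    · exact h1 i
    · exact h2 k
  funext s
  have h3 := hG' s
  rw [hG0 s, map_zero] at h3
  have h4 : y s = 0 := by
    rcases mul_eq_zero.1 h3.symm with h5 | h5
    · exact absurd h5 hd0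
    · exact h5
  rw [← hy s, h4, map_zero]
  rfl

end Pool.Agent.Helper44.RED
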