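import Pool.Agent.Helper44.RED.StD

set_option autoImplicit false

open Polynomial

namespace Pool.Agent.Helper44.RED

/-- a polynomial of odd degree has an irreducible factor of odd degree -/
private lemma exists_odd_factor_OddBC {F : Type} [Field F] :
    ∀ (n : ℕ) (f : F[X]), f.natDegree = n → Odd n →
      ∃ g : F[X], Irreducible g ∧ g ∣ f ∧ Odd g.natDegree := by
  intro n
  induction n using Nat.strong_induction_on with
  | _ n ih =>
    intro f hf hn
    have hn0 : 0 < n := hn.pos
    have hf0 : f ≠ 0 := by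
      rintro rfl
      simp at hf
      omega
    have hfu : ¬ IsUnit f := by
      intro h
      have := natDegree_eq_zero_of_isUnit h
      omega
    obtain ⟨g, hg, h, rfl⟩ := WfDvdMonoid.exists_irreducible_factor hfu hf0
    have hg0 : g ≠ 0 := hg.ne_zero
    have hh0 : h ≠ 0 := by
      rintro rfl
      simp at hf0
    rw [natDegree_mul hg0 hh0] at hf
    by_cases ho : Odd g.natDegree
    · exact ⟨g, hg, dvd_mul_right _ _, ho⟩
    · have hgpos : 0 < g.natDegree := hg.natDegree_pos
      rw [Nat.not_odd_iff_even] at ho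
      have hodd : Odd h.natDegree := by
        rw [← hf] at hn
        rcases ho with ⟨a, ha⟩
        rcases hn with ⟨b, hb⟩
        exact ⟨b - a, by omega⟩
      obtain ⟨k, hk, hkd, hko⟩ := ih h.natDegree (by omega) h rfl hodd
      exact ⟨k, hk, hkd.trans (dvd_mul_left _ _), hko⟩

theorem pOddBC : StOddBC := by
  intro K K' L _ _ _ _ _ _ hodd
  have hfin : FiniteDimensional K L := Module.finite_of_finrank_pos hodd.pos
  set pb := Field.powerBasisOfFiniteOfSeparable K L with hpb
  set P : K[X] := minpoly K pb.gen with hP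
  have hPdeg : P.natDegree = Module.finrank K L := by
    rw [hP, pb.natDegree_minpoly, pb.finrank]
  have hmapdeg : (P.map (algebraMap K K')).natDegree = Module.finrank K L := by
    rw [natDegree_map, hPdeg]
  obtain ⟨P₁, hirr, hdvd, hodd1⟩ :=
    exists_odd_factor_OddBC _ (P.map (algebraMap K K')) hmapdeg hodd
  haveI : Fact (Irreducible P₁) := ⟨hirr⟩
  have hne : P₁ ≠ 0 := hirr.ne_zero
  refine ⟨AdjoinRoot P₁, inferInstance, inferInstance,
    (pb.lift (AdjoinRoot.root P₁) ?_ : L →ₐ[K] AdjoinRoot P₁).toRingHom, ?_, ?_⟩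
  · rw [← hP, ← Polynomial.aeval_map_algebraMap K', AdjoinRoot.aeval_eq]
    exact AdjoinRoot.mk_eq_zero.mpr hdvd
  · rw [(AdjoinRoot.powerBasis hne).finrank, AdjoinRoot.powerBasis_dim]
    exact hodd1
  · intro c
    rw [← IsScalarTower.algebraMap_apply K K' (AdjoinRoot P₁)]
    exact AlgHom.commutes _ c

end Pool.Agent.Helper44.RED
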