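import Pool.Agent.Helper44.RED.StA
import Pool.Agent.Helper44.RED.Fld

/-!
# Project RED, module PT: purely transcendental extensions preserve anisotropy
-/

set_option autoImplicit false

namespace Pool.Agent.Helper44.RED

open Polynomial

/-- anisotropic forms stay anisotropic over the polynomial ring -/
theorem poly_PT {K ι : Type} [Field K] [Fintype ι] {b : ι → K} (hb : Aniso b) :
    ∀ (n : ℕ) (g : ι → K[X]), (∀ i, (g i).degree < n) → qf (fun i => C (b i)) g = 0 → g = 0 := by
  intro n
  induction n with
  | zero =>
    intro g hg _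
    funext i
    have h := hg i
    rw [Polynomial.degree_lt_iff_coeff_zero] at h
    ext k
    simpa using h k (Nat.zero_le k)
  | succ n ih =>
    intro g hg hq
    have hnat : ∀ i, (g i).natDegree ≤ n := by
      intro i
      rw [Polynomial.natDegree_le_iff_coeff_eq_zero]
      intro k hk
      have h := hg i
      rw [Polynomial.degree_lt_iff_coeff_zero] at h
      exact h k hk
    have hc : qf b (fun i => (g i).coeff n) = 0 := by
      have h1 := congrArg (fun p : K[X] => p.coeff (n + n)) hq
      simp only [qf, Polynomial.finset_sum_coeff, Polynomial.coeff_C_mul, Polynomial.coeff_zero]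
        at h1
      rw [← h1]
      unfold qf
      refine Finset.sum_congr rfl fun i _ => ?_
      rw [pow_two, pow_two, Polynomial.coeff_mul_add_eq_of_natDegree_le (hnat i) (hnat i)]
    have h0 := hb _ hc
    apply ih g _ hq
    intro i
    rw [Polynomial.degree_lt_iff_coeff_zero]
    intro k hk
    rcases Nat.eq_or_lt_of_le hk with h | h
    · rw [← h]
      exact congrFun h0 i
    · exact Polynomial.coeff_eq_zero_of_natDegree_lt (lt_of_le_of_lt (hnat i) h)

/-- anisotropic forms stay anisotropic over the rational function field -/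
theorem ratFunc_PT {K ι : Type} [Field K] [Fintype ι] {b : ι → K} (hb : Aniso b) :
    Aniso (im (algebraMap K (RatFunc K)) b) := by
  intro x hx
  obtain ⟨d, hd⟩ := IsLocalization.exist_integer_multiples_of_finite
    (nonZeroDivisors K[X]) x
  choose g hg using hd
  have hd0 : algebraMap K[X] (RatFunc K) (d : K[X]) ≠ 0 := by
    intro h0
    rw [map_eq_zero_iff _ (RatFunc.algebraMap_injective K)] at h0
    exact nonZeroDivisors.ne_zero d.2 h0
  have hgx : ∀ i, algebraMap K[X] (RatFunc K) (g i) =
      algebraMap K[X] (RatFunc K) (d : K[X]) * x i := by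
    intro i
    rw [hg i, Algebra.smul_def]
  have hq : qf (fun i => C (b i)) g = 0 := by
    apply RatFunc.algebraMap_injective K
    rw [map_zero]
    unfold qf at hx ⊢
    rw [map_sum]
    have h1 : ∀ i, algebraMap K[X] (RatFunc K) (C (b i) * g i ^ 2) =
        algebraMap K[X] (RatFunc K) (d : K[X]) ^ 2 *
          (im (algebraMap K (RatFunc K)) b i * x i ^ 2) := by
      intro i
      rw [map_mul, map_pow, hgx i]
      have h2 : algebraMap K[X] (RatFunc K) (C (b i)) = im (algebraMap K (RatFunc K)) b i := by
        unfold im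
        rw [IsScalarTower.algebraMap_apply K K[X] (RatFunc K), Polynomial.algebraMap_eq]
      rw [h2]
      ring
    rw [Finset.sum_congr rfl fun i _ => h1 i, ← Finset.mul_sum, hx, mul_zero]
  obtain ⟨N, hN⟩ : ∃ N : ℕ, ∀ i, (g i).degree < N := by
    refine ⟨Finset.univ.sup (fun i => (g i).natDegree) + 1, fun i => ?_⟩
    refine lt_of_le_of_lt Polynomial.degree_le_natDegree ?_
    have h1 : (g i).natDegree ≤ Finset.univ.sup (fun i => (g i).natDegree) :=
      Finset.le_sup (f := fun i => (g i).natDegree) (Finset.mem_univ i)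
    exact_mod_cast Nat.lt_succ_of_le h1
  have h0 := poly_PT hb N g hN hq
  funext i
  have h1 := hgx i
  rw [congrFun h0 i, Pi.zero_apply, map_zero] at h1
  rcases mul_eq_zero.1 h1.symm with h | h
  · exact absurd h hd0
  · exact h

/-- one variable -/
theorem one_PT {L F : Type} [Field L] [Field F] {φ : L →+* F} {z : F}
    (h : Indep φ (fun _ : Unit => z)) (hg : GenBy φ {z}) : Pres φ := by
  obtain ⟨j, hj, -, -⟩ := h.isoRat hg
  intro m b hb x hx
  have h1 : qf (im (algebraMap L (RatFunc L)) b) (fun i => j.symm (x i)) = 0 := by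
    apply j.injective
    rw [map_zero, ← hx]
    unfold qf
    rw [map_sum]
    refine Finset.sum_congr rfl fun i _ => ?_
    rw [map_mul, map_pow, RingEquiv.apply_symm_apply]
    unfold im
    rw [hj]
  have h2 := ratFunc_PT hb _ h1
  funext i
  have h3 := congrFun h2 i
  simp only [Pi.zero_apply] at h3
  rw [← j.apply_symm_apply (x i), h3, map_zero]
  rfl

theorem ind_PT : ∀ (m : ℕ) (E F : Type) [Field E] [Field F] (φ : E →+* F) (z : Fin m → F),
    Indep φ z → GenBy φ (Set.range z) → Pres φ := by
  intro m
  induction m with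
  | zero =>
    intro E F _ _ φ z _ hg
    have hs : Function.Surjective φ := range_top_of_gen hg φ (fun c => ⟨c, rfl⟩)
      (by rintro _ ⟨i, rfl⟩; exact i.elim0)
    intro k b hb x hx
    choose x' hx' using fun i => hs (x i)
    have h1 : x = im φ x' := funext fun i => (hx' i).symm
    rw [h1, qf_im] at hx
    have h2 := hb x' ((map_eq_zero φ).1 hx)
    rw [h1, h2]
    funext i
    exact map_zero φ
  | succ m ih =>
    intro E F _ _ φ z h hg
    obtain ⟨L, ψ, z', h1, _, h3, h4, h5, h6⟩ := peelLast h hg
    have e1 : Pres ψ := ih E L ψ z' h3 h4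
    have e2 : Pres L.subtype := one_PT h5 h6
    have e3 : φ = L.subtype.comp ψ := RingHom.ext fun c => (h1 c).symm
    rw [e3]
    exact e1.comp e2

theorem pPT : StPT := by
  intro E F _ _ φ h
  obtain ⟨m, z, h1, h2⟩ := h
  exact ind_PT m E F φ z h1 h2

end Pool.Agent.Helper44.RED
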