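import Pool.Agent.Helper44.RED.StB

/-!
# Project RED: module PADIC (the local ring of `E[X]` at an irreducible polynomial)
-/

set_option autoImplicit false

open Polynomial

namespace Pool.Agent.Helper44.RED

private theorem isDVR_of_loc_Padic {E : Type} [Field E] (P : Ideal E[X]) [P.IsPrime] (hP : P ≠ ⊥)
    (hS : P.primeCompl ≤ nonZeroDivisors E[X]) :
    IsDiscreteValuationRing (Localization.subalgebra.ofField (RatFunc E) P.primeCompl hS) := by
  have : IsLocalization.AtPrime (Localization.subalgebra.ofField (RatFunc E) P.primeCompl hS) P :=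
    Localization.subalgebra.isLocalization_ofField (RatFunc E) P.primeCompl hS
  exact IsLocalization.AtPrime.isDiscreteValuationRing_of_dedekind_domain E[X] hP _

theorem pPadic : StPadic := by
  intro E _ p hp
  have hprime : (Ideal.span {p}).IsPrime := (Ideal.span_singleton_prime hp.ne_zero).2 hp.prime
  have hne : Ideal.span {p} ≠ ⊥ := by
    rw [Ne, Ideal.span_singleton_eq_bot]
    exact hp.ne_zero
  have hS : (Ideal.span {p}).primeCompl ≤ nonZeroDivisors E[X] :=
    Ideal.primeCompl_le_nonZeroDivisors _
  set A := Localization.subalgebra.ofField (RatFunc E) (Ideal.span {p}).primeCompl hS with hA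
  have hmem : ∀ z : RatFunc E, z ∈ A ↔ ∃ f g : E[X], ¬ p ∣ g ∧
      z = algebraMap E[X] (RatFunc E) f / algebraMap E[X] (RatFunc E) g := by
    intro z
    constructor
    · rintro ⟨f, g, hg, rfl⟩
      refine ⟨f, g, fun hd => hg (Ideal.mem_span_singleton.2 hd), ?_⟩
      rw [div_eq_mul_inv]
    · rintro ⟨f, g, hg, rfl⟩
      refine ⟨f, g, fun hd => hg (Ideal.mem_span_singleton.1 hd), ?_⟩
      rw [div_eq_mul_inv]
  let O : ValuationSubring (RatFunc E) :=
    { A.toSubring with
      mem_or_inv_mem' := by
        intro z
        show z ∈ A ∨ z⁻¹ ∈ A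
        rw [hmem, hmem]
        by_cases hd : p ∣ z.denom
        · right
          refine ⟨z.denom, z.num, ?_, ?_⟩
          · intro hn
            have hcop := z.isCoprime_num_denom
            exact hp.not_isUnit (hcop.isUnit_of_dvd' hn hd)
          · conv_lhs => rw [← RatFunc.num_div_denom z]
            rw [inv_div]
        · left
          exact ⟨z.num, z.denom, hd, (RatFunc.num_div_denom z).symm⟩ }
  have hO : ∀ z, z ∈ O ↔ z ∈ A := fun z => Iff.rfl
  refine ⟨O, ?_, fun z => by rw [hO, hmem]⟩
  have hdvr := isDVR_of_loc_Padic (Ideal.span {p}) hne hS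
  let e : A ≃+* O :=
    { toFun := fun x => ⟨x.1, x.2⟩
      invFun := fun x => ⟨x.1, x.2⟩
      left_inv := fun x => rfl
      right_inv := fun x => rfl
      map_mul' := fun x y => rfl
      map_add' := fun x y => rfl }
  exact IsDiscreteValuationRing.RingEquivClass.isDiscreteValuationRing e

end Pool.Agent.Helper44.RED
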