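import Pool.Agent.Helper44.RED.StD

/-!
# Project RED, module Par: degree of a rational function modulo 2
-/

set_option autoImplicit false

open Polynomial

namespace Pool.Agent.Helper44.RED

/-- a polynomial of odd degree has an irreducible factor of odd degree -/
private lemma exists_odd_factor_Par {F : Type} [Field F] :
    ∀ (n : ℕ) (f : F[X]), f.natDegree = n → Odd n →
      ∃ g : F[X], Irreducible g ∧ g ∣ f ∧ Odd g.natDegree := by
  intro n
  induction n using Nat.strong_induction_on with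
  | _ n ih =>
    intro f hf hn
    have hn0 : 0 < n := hn.pos
    have hf0 : f ≠ 0 := by
      rintro rfl
      simp at hf
      omega
    have hfu : ¬ IsUnit f := by
      intro h
      have := natDegree_eq_zero_of_isUnit h
      omega
    obtain ⟨g, hg, h, rfl⟩ := WfDvdMonoid.exists_irreducible_factor hfu hf0
    have hg0 : g ≠ 0 := hg.ne_zero
    have hh0 : h ≠ 0 := by
      rintro rfl
      simp at hf0
    rw [natDegree_mul hg0 hh0] at hf
    by_cases ho : Odd g.natDegree
    · exact ⟨g, hg, dvd_mul_right _ _, ho⟩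
    · have hgpos : 0 < g.natDegree := hg.natDegree_pos
      rw [Nat.not_odd_iff_even] at ho
      have hodd : Odd h.natDegree := by
        rw [← hf] at hn
        rcases ho with ⟨a, ha⟩
        rcases hn with ⟨b, hb⟩
        exact ⟨b - a, by omega⟩
      obtain ⟨k, hk, hkd, hko⟩ := ih h.natDegree (by omega) h rfl hodd
      exact ⟨k, hk, hkd.trans (dvd_mul_left _ _), hko⟩

/-- extraction of a power -/
private lemma extract_Par {F : Type} [Field F] {p : F[X]} (hp : Irreducible p) (f : F[X])
    (hf : f ≠ 0) : ∃ (k : ℕ) (f' : F[X]), ¬ p ∣ f' ∧ f = p ^ k * f' := by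
  obtain ⟨n, c, hc, hfc⟩ := WfDvdMonoid.max_power_factor hf hp
  exact ⟨n, c, hc, hfc⟩

/-- a polynomial of odd degree has an irreducible factor of odd degree and odd multiplicity -/
private lemma exists_odd_odd_Par {F : Type} [Field F] :
    ∀ (n : ℕ) (f : F[X]), f.natDegree = n → Odd n →
      ∃ (p : F[X]) (j : ℕ) (f' : F[X]), Irreducible p ∧ Odd p.natDegree ∧ ¬ p ∣ f' ∧
        f = p ^ (2 * j + 1) * f' := by
  intro n
  induction n using Nat.strong_induction_on with
  | _ n ih =>
    intro f hf hn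
    have hf0 : f ≠ 0 := by
      rintro rfl
      simp at hf
      have := hn.pos
      omega
    obtain ⟨g, hg, hgf, hgo⟩ := exists_odd_factor_Par n f hf hn
    obtain ⟨k, f', hf', hk⟩ := extract_Par hg f hf0
    rcases Nat.even_or_odd k with he | ho
    · have hf'0 : f' ≠ 0 := by
        rintro rfl
        exact hf' (dvd_zero _)
      have hk0 : k ≠ 0 := by
        rintro rfl
        rw [pow_zero, one_mul] at hk
        exact hf' (hk ▸ hgf)
      have hd : f.natDegree = k * g.natDegree + f'.natDegree := by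
        rw [hk, natDegree_mul (pow_ne_zero _ hg.ne_zero) hf'0, natDegree_pow]
      have hgpos : 0 < g.natDegree := hg.natDegree_pos
      have hkg : 0 < k * g.natDegree := Nat.mul_pos (Nat.pos_of_ne_zero hk0) hgpos
      have hodd : Odd f'.natDegree := by
        have he' : Even (k * g.natDegree) := he.mul_right _
        rw [← hf, hd] at hn
        rcases he' with ⟨a, ha⟩
        rcases hn with ⟨b, hb⟩
        exact ⟨b - a, by omega⟩
      obtain ⟨p, j, f'', hp, hpo, hpf, hfp⟩ := ih f'.natDegree (by omega) f' rfl hodd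
      refine ⟨p, j, g ^ k * f'', hp, hpo, ?_, ?_⟩
      · intro hdv
        rcases hp.prime.dvd_or_dvd hdv with h | h
        · have h1 : p ∣ g := hp.prime.dvd_of_dvd_pow h
          have h2 : g ∣ p := (hp.associated_of_dvd hg h1).symm.dvd
          apply hf'
          rw [hfp]
          exact h2.trans (dvd_mul_of_dvd_left (dvd_pow_self p (by omega)) _)
        · exact hpf h
      · rw [hk, hfp]
        ring
    · obtain ⟨j, hj⟩ := ho
      exact ⟨g, j, f', hg, hgo, hf', by rw [hk, hj]⟩

/-- construction of a place from values of fractions -/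
private lemma build_Par {K K₁ : Type} [Field K] [Field K₁] [Algebra K K₁]
    (O : ValuationSubring (RatFunc K)) (Adm : K[X] → K[X] → Prop) (V : K[X] → K[X] → K₁)
    (hO : ∀ z : RatFunc K, z ∈ O ↔ ∃ f g : K[X], Adm f g ∧
      z = algebraMap K[X] (RatFunc K) f / algebraMap K[X] (RatFunc K) g)
    (hne : ∀ f g, Adm f g → g ≠ 0)
    (hwd : ∀ f g f' g', Adm f g → Adm f' g' → f * g' = f' * g → V f g = V f' g')
    (hmul : ∀ f g f' g', Adm f g → Adm f' g' → Adm (f * f') (g * g') ∧
      V (f * f') (g * g') = V f g * V f' g')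
    (hadd : ∀ f g f' g', Adm f g → Adm f' g' → Adm (f * g' + f' * g) (g * g') ∧
      V (f * g' + f' * g) (g * g') = V f g + V f' g')
    (hc : ∀ c : K, Adm (C c) 1 ∧ V (C c) 1 = algebraMap K K₁ c) :
    ∃ ρ : O →+* K₁, (∀ f g, Adm f g → ∀ h : algebraMap K[X] (RatFunc K) f /
        algebraMap K[X] (RatFunc K) g ∈ O, ρ ⟨_, h⟩ = V f g) ∧
      ∀ c : K, ∃ h : algebraMap K (RatFunc K) c ∈ O, ρ ⟨algebraMap K (RatFunc K) c, h⟩ =
        algebraMap K K₁ c := by
  have hinj : Function.Injective (algebraMap K[X] (RatFunc K)) := IsFractionRing.injective _ _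
  have hex : ∀ z : O, ∃ f g : K[X], Adm f g ∧
      (z : RatFunc K) = algebraMap K[X] (RatFunc K) f / algebraMap K[X] (RatFunc K) g :=
    fun z => (hO z).mp z.2
  choose F G hA hz using hex
  have hnz : ∀ f g, Adm f g → algebraMap K[X] (RatFunc K) g ≠ 0 := by
    intro f g h
    rw [Ne, map_eq_zero_iff _ hinj]
    exact hne f g h
  have key : ∀ (z : O) (f g : K[X]), Adm f g →
      (z : RatFunc K) = algebraMap K[X] (RatFunc K) f / algebraMap K[X] (RatFunc K) g →
      V (F z) (G z) = V f g := by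
    intro z f g h hzf
    refine hwd _ _ _ _ (hA z) h ?_
    have e := (hz z).symm.trans hzf
    rw [div_eq_div_iff (hnz _ _ (hA z)) (hnz _ _ h)] at e
    apply hinj
    rw [map_mul, map_mul, e]
  have h1 : algebraMap K (RatFunc K) 1 = algebraMap K[X] (RatFunc K) (C 1) /
      algebraMap K[X] (RatFunc K) 1 := by
    simp
  let ρ : O →+* K₁ :=
    { toFun := fun z => V (F z) (G z)
      map_one' := by
        rw [key 1 (C 1) 1 (hc 1).1 (by simp), (hc 1).2, map_one]
      map_zero' := by
        rw [key 0 (C 0) 1 (hc 0).1 (by simp), (hc 0).2, map_zero]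
      map_mul' := by
        intro z w
        obtain ⟨a1, a2⟩ := hmul _ _ _ _ (hA z) (hA w)
        rw [key (z * w) (F z * F w) (G z * G w) a1 ?_, a2]
        show (z : RatFunc K) * (w : RatFunc K) = _
        rw [hz z, hz w, map_mul, map_mul, div_mul_div_comm]
      map_add' := by
        intro z w
        obtain ⟨a1, a2⟩ := hadd _ _ _ _ (hA z) (hA w)
        rw [key (z + w) (F z * G w + F w * G z) (G z * G w) a1 ?_, a2]
        show (z : RatFunc K) + (w : RatFunc K) = _
        rw [hz z, hz w, map_add, map_mul, map_mul, map_mul,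
          div_add_div _ _ (hnz _ _ (hA z)) (hnz _ _ (hA w))]
        congr 1
        ring }
  refine ⟨ρ, ?_, ?_⟩
  · intro f g h hm
    exact key ⟨_, hm⟩ f g h rfl
  · intro c
    have e : algebraMap K (RatFunc K) c = algebraMap K[X] (RatFunc K) (C c) /
        algebraMap K[X] (RatFunc K) 1 := by
      rw [map_one, div_one]
      exact (IsScalarTower.algebraMap_apply K K[X] (RatFunc K) c)
    have hm : algebraMap K (RatFunc K) c ∈ O := (hO _).mpr ⟨C c, 1, (hc c).1, e⟩
    refine ⟨hm, ?_⟩
    exact (key ⟨_, hm⟩ (C c) 1 (hc c).1 e).trans (hc c).2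

/-- the place at an irreducible polynomial of odd degree -/
private lemma padic_Par {K : Type} [Field K] {p : K[X]} (hp : Irreducible p)
    (hodd : Odd p.natDegree) (O : ValuationSubring (RatFunc K)) (hD : IsDiscreteValuationRing O)
    (hO : ∀ z : RatFunc K, z ∈ O ↔ ∃ f g : K[X], ¬ p ∣ g ∧
      z = algebraMap K[X] (RatFunc K) f / algebraMap K[X] (RatFunc K) g) : OddPlace K O := by
  have : Fact (Irreducible p) := ⟨hp⟩
  have hm : ∀ g : K[X], ¬ p ∣ g → AdjoinRoot.mk p g ≠ 0 := by
    intro g hg h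
    exact hg (AdjoinRoot.mk_eq_zero.mp h)
  have hmd : ∀ g g' : K[X], ¬ p ∣ g → ¬ p ∣ g' → ¬ p ∣ g * g' := by
    intro g g' h h' hd
    rcases hp.prime.dvd_or_dvd hd with h1 | h1
    · exact h h1
    · exact h' h1
  obtain ⟨ρ, h1, h2⟩ := build_Par (K₁ := AdjoinRoot p) O (fun _ g => ¬ p ∣ g)
    (fun f g => AdjoinRoot.mk p f / AdjoinRoot.mk p g) hO
    (by
      rintro f g h rfl
      exact h (dvd_zero _))
    (by
      intro f g f' g' h h' e
      show AdjoinRoot.mk p f / AdjoinRoot.mk p g = AdjoinRoot.mk p f' / AdjoinRoot.mk p g'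
      rw [div_eq_div_iff (hm _ h) (hm _ h'), ← map_mul, ← map_mul, e])
    (by
      intro f g f' g' h h'
      refine ⟨hmd _ _ h h', ?_⟩
      show AdjoinRoot.mk p (f * f') / AdjoinRoot.mk p (g * g') = _
      rw [map_mul, map_mul, div_mul_div_comm])
    (by
      intro f g f' g' h h'
      refine ⟨hmd _ _ h h', ?_⟩
      show AdjoinRoot.mk p (f * g' + f' * g) / AdjoinRoot.mk p (g * g') =
        AdjoinRoot.mk p f / AdjoinRoot.mk p g + AdjoinRoot.mk p f' / AdjoinRoot.mk p g'
      rw [map_add, map_mul, map_mul, map_mul, div_add_div _ _ (hm _ h) (hm _ h')]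
      congr 1
      ring)
    (by
      intro c
      refine ⟨fun h => hp.not_isUnit (isUnit_of_dvd_one h), ?_⟩
      show AdjoinRoot.mk p (C c) / AdjoinRoot.mk p 1 = _
      rw [map_one, div_one, AdjoinRoot.mk_C, AdjoinRoot.algebraMap_eq])
  refine ⟨hD, AdjoinRoot p, inferInstance, inferInstance, ρ, ?_, ?_, h2⟩
  · rw [(AdjoinRoot.powerBasis hp.ne_zero).finrank, AdjoinRoot.powerBasis_dim]
    exact hodd
  · intro y
    obtain ⟨f, rfl⟩ := AdjoinRoot.mk_surjective y
    have hn : ¬ p ∣ 1 := fun h => hp.not_isUnit (isUnit_of_dvd_one h)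
    have hmem : algebraMap K[X] (RatFunc K) f / algebraMap K[X] (RatFunc K) 1 ∈ O :=
      (hO _).mpr ⟨f, 1, hn, rfl⟩
    refine ⟨⟨_, hmem⟩, ?_⟩
    rw [h1 f 1 hn hmem, map_one, div_one]

/-- the place at infinity -/
private lemma inf_Par {K : Type} [Field K] (O : ValuationSubring (RatFunc K))
    (hD : IsDiscreteValuationRing O)
    (hO : ∀ z : RatFunc K, z ∈ O ↔ ∃ f g : K[X], g ≠ 0 ∧ f.degree ≤ g.degree ∧
      z = algebraMap K[X] (RatFunc K) f / algebraMap K[X] (RatFunc K) g) : OddPlace K O := by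
  have hO' : ∀ z : RatFunc K, z ∈ O ↔ ∃ f g : K[X], (g ≠ 0 ∧ f.degree ≤ g.degree) ∧
      z = algebraMap K[X] (RatFunc K) f / algebraMap K[X] (RatFunc K) g := by
    intro z
    rw [hO z]
    constructor
    · rintro ⟨f, g, h1, h2, h3⟩
      exact ⟨f, g, ⟨h1, h2⟩, h3⟩
    · rintro ⟨f, g, ⟨h1, h2⟩, h3⟩
      exact ⟨f, g, h1, h2, h3⟩
  have hnd : ∀ f g : K[X], g ≠ 0 ∧ f.degree ≤ g.degree → f.natDegree ≤ g.natDegree :=
    fun f g h => natDegree_le_natDegree h.2
  have hlc : ∀ f g : K[X], g ≠ 0 ∧ f.degree ≤ g.degree → g.leadingCoeff ≠ 0 :=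
    fun f g h => leadingCoeff_ne_zero.mpr h.1
  have hnm : ∀ f g f' g' : K[X], g ≠ 0 ∧ f.degree ≤ g.degree → g' ≠ 0 ∧ f'.degree ≤ g'.degree →
      (f * f').coeff (g * g').natDegree = f.coeff g.natDegree * f'.coeff g'.natDegree := by
    intro f g f' g' h h'
    rw [natDegree_mul h.1 h'.1, coeff_mul_add_eq_of_natDegree_le (hnd _ _ h) (hnd _ _ h')]
  have hself : ∀ g : K[X], g ≠ 0 → g ≠ 0 ∧ g.degree ≤ g.degree := fun g h => ⟨h, le_refl _⟩
  obtain ⟨ρ, h1, h2⟩ := build_Par (K₁ := K) O (fun f g => g ≠ 0 ∧ f.degree ≤ g.degree)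
    (fun f g => f.coeff g.natDegree / g.leadingCoeff) hO'
    (fun f g h => h.1)
    (by
      intro f g f' g' h h' e
      show f.coeff g.natDegree / g.leadingCoeff = f'.coeff g'.natDegree / g'.leadingCoeff
      rw [div_eq_div_iff (hlc _ _ h) (hlc _ _ h')]
      have e1 := hnm f g g' g' h (hself _ h'.1)
      have e2 := hnm f' g' g g h' (hself _ h.1)
      rw [e, mul_comm g g', e2] at e1
      exact e1.symm)
    (by
      intro f g f' g' h h'
      refine ⟨⟨mul_ne_zero h.1 h'.1, ?_⟩, ?_⟩
      · rw [degree_mul, degree_mul]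
        exact add_le_add h.2 h'.2
      · show (f * f').coeff (g * g').natDegree / (g * g').leadingCoeff = _
        rw [hnm _ _ _ _ h h', leadingCoeff_mul, div_mul_div_comm])
    (by
      intro f g f' g' h h'
      refine ⟨⟨mul_ne_zero h.1 h'.1, ?_⟩, ?_⟩
      · refine (degree_add_le _ _).trans (max_le ?_ ?_)
        · rw [degree_mul, degree_mul]
          exact add_le_add h.2 le_rfl
        · rw [degree_mul, degree_mul, add_comm g.degree]
          exact add_le_add h'.2 le_rfl
      · show (f * g' + f' * g).coeff (g * g').natDegree / (g * g').leadingCoeff =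
          f.coeff g.natDegree / g.leadingCoeff + f'.coeff g'.natDegree / g'.leadingCoeff
        have e1 := hnm f g g' g' h (hself _ h'.1)
        have e2 := hnm f' g' g g h' (hself _ h.1)
        rw [coeff_add, e1, mul_comm g g', e2, leadingCoeff_mul,
          div_add_div _ _ (hlc _ _ h) (hlc _ _ h')]
        simp only [coeff_natDegree]
        congr 1
        · ring
        · ring)
    (by
      intro c
      refine ⟨⟨one_ne_zero, ?_⟩, ?_⟩
      · rw [degree_one]
        exact degree_C_le
      · show (C c).coeff (1 : K[X]).natDegree / (1 : K[X]).leadingCoeff = _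
        rw [natDegree_one, coeff_C_zero, leadingCoeff_one, div_one]
        rfl)
  refine ⟨hD, K, inferInstance, inferInstance, ρ, ?_, ?_, h2⟩
  · rw [Module.finrank_self]
    exact odd_one
  · intro y
    obtain ⟨h, hy⟩ := h2 y
    exact ⟨⟨_, h⟩, hy⟩

theorem pPar : StPadic → StInfPlace → StPar := by
  intro hPad hInf K _ ν hν
  have hinj : Function.Injective (algebraMap K[X] (RatFunc K)) := IsFractionRing.injective _ _
  have hmap : ∀ f : K[X], f ≠ 0 → algebraMap K[X] (RatFunc K) f ≠ 0 := by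
    intro f hf
    rw [Ne, map_eq_zero_iff _ hinj]
    exact hf
  obtain ⟨f, g, hg, hνe⟩ := IsFractionRing.div_surjective (A := K[X]) ν
  have hg0 : g ≠ 0 := nonZeroDivisors.ne_zero hg
  have hf0 : f ≠ 0 := by
    rintro rfl
    rw [map_zero, zero_div] at hνe
    exact hν hνe.symm
  have hfg : f * g ≠ 0 := mul_ne_zero hf0 hg0
  have hX : (RatFunc.X : RatFunc K) = algebraMap K[X] (RatFunc K) X := (RatFunc.algebraMap_X).symm
  have hX0 : (RatFunc.X : RatFunc K) ≠ 0 := by rw [hX]; exact hmap _ X_ne_zero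
  rcases Nat.even_or_odd (f * g).natDegree with he | ho
  · right
    obtain ⟨O, hD, hO⟩ := hInf K
    have hU : ∀ a b : K[X], a ≠ 0 → b ≠ 0 → a.natDegree = b.natDegree →
        IsU O (algebraMap K[X] (RatFunc K) a / algebraMap K[X] (RatFunc K) b) := by
      intro a b ha hb hab
      have hd : a.degree = b.degree := by
        rw [degree_eq_natDegree ha, degree_eq_natDegree hb, hab]
      refine ⟨(hO _).mpr ⟨a, b, hb, hd.le, rfl⟩, (hO _).mpr ⟨b, a, ha, hd.ge, inv_div _ _⟩,
        div_ne_zero (hmap _ ha) (hmap _ hb)⟩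
    refine ⟨O, inf_Par O hD hO, ⟨?_, inv_ne_zero hX0, ?_, ?_⟩, ?_⟩
    · refine (hO _).mpr ⟨1, X, X_ne_zero, ?_, ?_⟩
      · rw [degree_one, degree_X]
        exact zero_le_one
      · rw [map_one, one_div, hX]
    · rw [inv_inv, hO]
      rintro ⟨a, b, hb, hab, e⟩
      rw [hX, eq_div_iff (hmap _ hb), ← map_mul] at e
      have e' := hinj e
      have : a.natDegree = b.natDegree + 1 := by
        rw [← e', natDegree_X_mul hb]
      have h2 := natDegree_le_natDegree hab
      omega
    · intro z hz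
      obtain ⟨a, b, hb, hze⟩ := IsFractionRing.div_surjective (A := K[X]) z
      have hb0 : b ≠ 0 := nonZeroDivisors.ne_zero hb
      have ha0 : a ≠ 0 := by
        rintro rfl
        rw [map_zero, zero_div] at hze
        exact hz hze.symm
      refine ⟨(a.natDegree : ℤ) - b.natDegree, ?_⟩
      have h := hU (a * X ^ b.natDegree) (b * X ^ a.natDegree)
        (mul_ne_zero ha0 (pow_ne_zero _ X_ne_zero)) (mul_ne_zero hb0 (pow_ne_zero _ X_ne_zero))
        (by rw [natDegree_mul_X_pow _ ha0, natDegree_mul_X_pow _ hb0, add_comm])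
      have e : z * ((RatFunc.X : RatFunc K)⁻¹) ^ ((a.natDegree : ℤ) - b.natDegree) =
          algebraMap K[X] (RatFunc K) (a * X ^ b.natDegree) /
            algebraMap K[X] (RatFunc K) (b * X ^ a.natDegree) := by
        rw [← hze, inv_zpow', neg_sub, zpow_sub₀ hX0, zpow_natCast, zpow_natCast, map_mul,
          map_mul, map_pow, map_pow, ← hX, div_mul_div_comm]
      rw [e]
      exact h
    · obtain ⟨D, hDD⟩ := he
      refine ⟨(g.natDegree : ℤ) - D, ?_⟩
      have h := hU ((f * g) * X ^ (2 * g.natDegree)) (g ^ 2 * X ^ (2 * D))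
        (mul_ne_zero hfg (pow_ne_zero _ X_ne_zero))
        (mul_ne_zero (pow_ne_zero _ hg0) (pow_ne_zero _ X_ne_zero))
        (by
          rw [natDegree_mul_X_pow _ hfg, natDegree_mul_X_pow _ (pow_ne_zero _ hg0), natDegree_pow,
            hDD]
          ring)
      have e : ν * (RatFunc.X : RatFunc K) ^ (2 * ((g.natDegree : ℤ) - D)) =
          algebraMap K[X] (RatFunc K) ((f * g) * X ^ (2 * g.natDegree)) /
            algebraMap K[X] (RatFunc K) (g ^ 2 * X ^ (2 * D)) := by
        have e1 : (2 * ((g.natDegree : ℤ) - D)) = ((2 * g.natDegree : ℕ) : ℤ) - ((2 * D : ℕ) : ℤ) := by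
          push_cast
          ring
        rw [← hνe, e1, zpow_sub₀ hX0, zpow_natCast, zpow_natCast, map_mul, map_mul, map_mul,
          map_pow, map_pow, map_pow, ← hX]
        have := hmap g hg0
        field_simp
      rw [e]
      exact h
  · left
    obtain ⟨p, j, h', hp, hpo, hph, hh⟩ := exists_odd_odd_Par _ (f * g) rfl ho
    obtain ⟨m, g', hpg, hgm⟩ := extract_Par hp g hg0
    obtain ⟨O, hD, hO⟩ := hPad K p hp
    have hp1 : ¬ p ∣ 1 := fun h => hp.not_isUnit (isUnit_of_dvd_one h)
    have hp0 := hp.ne_zero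
    have hpm := hmap p hp0
    have hnd : ∀ a : K[X], ¬ p ∣ a → a ≠ 0 := by
      rintro a ha rfl
      exact ha (dvd_zero _)
    have hU : ∀ a b : K[X], ¬ p ∣ a → ¬ p ∣ b →
        IsU O (algebraMap K[X] (RatFunc K) a / algebraMap K[X] (RatFunc K) b) := by
      intro a b ha hb
      exact ⟨(hO _).mpr ⟨a, b, hb, rfl⟩, (hO _).mpr ⟨b, a, ha, inv_div _ _⟩,
        div_ne_zero (hmap _ (hnd _ ha)) (hmap _ (hnd _ hb))⟩
    refine ⟨O, algebraMap K[X] (RatFunc K) p, padic_Par hp hpo O hD hO, ⟨?_, hpm, ?_, ?_⟩, ?_, ?_⟩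
    · exact (hO _).mpr ⟨p, 1, hp1, by rw [map_one, div_one]⟩
    · rw [hO]
      rintro ⟨a, b, hb, e⟩
      rw [inv_eq_one_div, div_eq_div_iff hpm (hmap _ (hnd _ hb)), one_mul, ← map_mul] at e
      exact hb (Dvd.intro_left _ (hinj e).symm)
    · intro z hz
      obtain ⟨a, b, hb, hze⟩ := IsFractionRing.div_surjective (A := K[X]) z
      have hb0 : b ≠ 0 := nonZeroDivisors.ne_zero hb
      have ha0 : a ≠ 0 := by
        rintro rfl
        rw [map_zero, zero_div] at hze
        exact hz hze.symm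
      obtain ⟨k, a', ha', hak⟩ := extract_Par hp a ha0
      obtain ⟨l, b', hb', hbl⟩ := extract_Par hp b hb0
      refine ⟨(l : ℤ) - k, ?_⟩
      have e : z * (algebraMap K[X] (RatFunc K) p) ^ ((l : ℤ) - k) =
          algebraMap K[X] (RatFunc K) a' / algebraMap K[X] (RatFunc K) b' := by
        have h3 := hmap _ (hnd _ hb')
        rw [← hze, hak, hbl, zpow_sub₀ hpm, zpow_natCast, zpow_natCast, map_mul, map_mul, map_pow,
          map_pow]
        field_simp
      rw [e]
      exact hU _ _ ha' hb'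
    · exact (hO _).mpr ⟨X, 1, hp1, by rw [map_one, div_one, hX]⟩
    · refine ⟨(m : ℤ) - j - 1, ?_⟩
      have e : ν * (algebraMap K[X] (RatFunc K) p) ^ (2 * ((m : ℤ) - j - 1) + 1) =
          algebraMap K[X] (RatFunc K) h' / algebraMap K[X] (RatFunc K) (g' * g') := by
        have h3 := hmap _ (hnd _ hpg)
        have h4 := hmap _ hg0
        have e1 : (2 * ((m : ℤ) - j - 1) + 1) = ((2 * m : ℕ) : ℤ) - ((2 * j + 1 : ℕ) : ℤ) := by
          push_cast
          ring
        have e2 : ν = algebraMap K[X] (RatFunc K) (f * g) / algebraMap K[X] (RatFunc K) (g * g) := by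
          rw [← hνe, map_mul, map_mul]
          field_simp
        rw [e2, hh, e1, zpow_sub₀ hpm, zpow_natCast, zpow_natCast]
        have e3 : g * g = p ^ (2 * m) * (g' * g') := by rw [hgm]; ring
        rw [e3]
        simp only [map_mul, map_pow]
        field_simp
      rw [e]
      refine hU _ _ hph ?_
      intro hd
      rcases hp.prime.dvd_or_dvd hd with h | h
      · exact hpg h
      · exact hpg h

end Pool.Agent.Helper44.RED
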