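import Pool.Agent.Helper44.RED.StD
import Pool.Agent.Helper44.RED.Fld

/-!
# Project RED, module PENCIL
-/

set_option autoImplicit false

namespace Pool.Agent.Helper44.RED

private lemma lm_map_Pencil {R S : Type} [CommRing R] [CommRing S] {N : ℕ} (f : R →+* S)
    (G : Matrix (Fin N) (Fin N) R) (l : ℕ) : lm (G.map f) l = f (lm G l) := by
  unfold lm
  rw [RingHom.map_det]
  congr 1
  ext p q
  simp only [Matrix.of_apply, RingHom.mapMatrix_apply, Matrix.map_apply]
  split_ifs with h
  · rfl
  · rw [map_zero]

private lemma pencil_symm_Pencil {k : Type} [Field k] {m p N : ℕ}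
    (A : Fin p → Matrix (Fin N) (Fin N) (MvPolynomial (Fin m) k)) (hA : ∀ i, (A i).IsSymm) :
    (pencil A).IsSymm := by
  unfold Matrix.IsSymm pencil
  rw [Matrix.transpose_sum]
  refine Finset.sum_congr rfl fun i _ => ?_
  rw [Matrix.transpose_smul]
  congr 1
  ext a b
  simp only [Matrix.transpose_apply, Matrix.map_apply]
  rw [(hA i).apply]

private lemma miso_equiv_Pencil {R S : Type} [CommRing R] [CommRing S] {N : ℕ} (e : R ≃+* S)
    (A : Matrix (Fin N) (Fin N) R) : MIso (A.map e) ↔ MIso A := by
  have key : ∀ {R S : Type} [CommRing R] [CommRing S] (e : R ≃+* S)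
      (A : Matrix (Fin N) (Fin N) R), MIso A → MIso (A.map e) := by
    intro R S _ _ e A h
    obtain ⟨u, hu, hq⟩ := h
    refine ⟨fun i => e (u i), ?_, ?_⟩
    · intro h0
      apply hu
      funext i
      have := congrFun h0 i
      exact (map_eq_zero_iff e e.injective).1 this
    · have h1 : qm (A.map e) (fun i => e (u i)) = e (qm A u) := by
        unfold qm dotProduct Matrix.mulVec dotProduct
        simp only [map_sum, map_mul, Matrix.map_apply]
      rw [h1, hq, map_zero]
  constructor
  · intro h
    have h1 := key e.symm _ h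
    have h2 : (A.map e).map e.symm = A := by
      ext i j; simp
    rwa [h2] at h1
  · exact key e A

private lemma indep_comp_equiv_Pencil {E E' F ι : Type} [Field E] [Field E'] [Field F]
    {φ : E →+* F} {y : ι → F} (h : Indep φ y) (e : E' ≃+* E) :
    Indep (φ.comp (e : E' →+* E)) y := by
  have h1 : MvPolynomial.eval₂Hom (φ.comp (e : E' →+* E)) y =
      (MvPolynomial.eval₂Hom φ y).comp (MvPolynomial.map (e : E' →+* E)) := by
    apply MvPolynomial.ringHom_ext
    · intro a
      simp
    · intro i
      simp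
  unfold Indep
  rw [h1]
  have h2 : Function.Injective (MvPolynomial.eval₂Hom φ y) := h
  have h3 : Function.Injective (MvPolynomial.map (σ := ι) (e : E' →+* E)) :=
    MvPolynomial.map_injective (e : E' →+* E) e.injective
  intro a b hab
  rw [RingHom.comp_apply, RingHom.comp_apply] at hab
  exact h3 (h2 hab)

private lemma genBy_comp_equiv_Pencil {E E' F : Type} [Field E] [Field E'] [Field F]
    {φ : E →+* F} {S : Set F} (h : GenBy φ S) (e : E' ≃+* E) :
    GenBy (φ.comp (e : E' →+* E)) S := by
  unfold GenBy at *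
  have : Set.range (φ.comp (e : E' →+* E)) = Set.range φ := by
    ext x
    constructor
    · rintro ⟨a, rfl⟩; exact ⟨e a, rfl⟩
    · rintro ⟨a, rfl⟩; exact ⟨e.symm a, by simp⟩
  rw [this]; exact h

/-- the iterated function field -/
private lemma iso_Pencil (k : Type) [Field k] (m p : ℕ) :
    ∃ J : KT (KT k m) p ≃+* KT k (m + p),
      (∀ c : MvPolynomial (Fin m) k, J (algebraMap (KT k m) (KT (KT k m) p)
        (algebraMap (MvPolynomial (Fin m) k) (KT k m) c)) =
        algebraMap (MvPolynomial (Fin (m + p)) k) (KT k (m + p))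
          (MvPolynomial.rename (Fin.castAdd p) c)) ∧
      ∀ i, J (tv (KT k m) p i) = tv k (m + p) (Fin.natAdd m i) := by
  let z : Fin m ⊕ Fin p → KT k (m + p) := fun i => tv k (m + p) (finSumFinEquiv i)
  have hz : Indep (algebraMap k (KT k (m + p))) z :=
    Indep.equiv (E := k) (F := KT k (m + p)) (y := tv k (m + p)) indep_frac finSumFinEquiv
  have hg : GenBy (algebraMap k (KT k (m + p))) (Set.range z) :=
    GenBy.equiv (E := k) (F := KT k (m + p)) (y := tv k (m + p)) genBy_frac finSumFinEquiv
  obtain ⟨L, ψ, z', hψ, hz', hi, hgen, hi2, hg2⟩ := peelSum hz hg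
  obtain ⟨e, he1, he2, he3⟩ := hi.iso hgen
  obtain ⟨J, hJ1, hJ2, hJ3⟩ := (indep_comp_equiv_Pencil hi2 e).iso
    (genBy_comp_equiv_Pencil hg2 e)
  refine ⟨J, fun c => ?_, fun i => ?_⟩
  · refine (hJ1 _).trans ?_
    rw [RingHom.comp_apply]
    have h1 : (e : FractionRing (MvPolynomial (Fin m) k) →+* L)
        (algebraMap (MvPolynomial (Fin m) k) (KT k m) c) = MvPolynomial.eval₂Hom ψ z' c := he3 c
    rw [h1]
    have h2 : L.subtype.comp (MvPolynomial.eval₂Hom ψ z') =
        (algebraMap (MvPolynomial (Fin (m + p)) k) (KT k (m + p))).comp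
          (MvPolynomial.rename (Fin.castAdd p) : MvPolynomial (Fin m) k →ₐ[k]
            MvPolynomial (Fin (m + p)) k).toRingHom := by
      apply MvPolynomial.ringHom_ext
      · intro a
        rw [RingHom.comp_apply, MvPolynomial.eval₂Hom_C, RingHom.comp_apply]
        have e1 : (MvPolynomial.rename (Fin.castAdd p) : MvPolynomial (Fin m) k →ₐ[k]
            MvPolynomial (Fin (m + p)) k).toRingHom (MvPolynomial.C a) = MvPolynomial.C a :=
          MvPolynomial.rename_C _ _
        rw [e1]
        exact (hψ a).trans (IsScalarTower.algebraMap_apply k (MvPolynomial (Fin (m + p)) k)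
          (KT k (m + p)) a)
      · intro i
        rw [RingHom.comp_apply, MvPolynomial.eval₂Hom_X', RingHom.comp_apply]
        have e1 : (MvPolynomial.rename (Fin.castAdd p) : MvPolynomial (Fin m) k →ₐ[k]
            MvPolynomial (Fin (m + p)) k).toRingHom (MvPolynomial.X i) =
            MvPolynomial.X (Fin.castAdd p i) := MvPolynomial.rename_X _ _
        rw [e1]
        exact hz' i
    exact RingHom.congr_fun h2 c
  · exact hJ2 i

theorem pPencil : StAB → StMinors → StHomog → StPencil := by
  intro hAB hMin hHom k _ _ m p N A hA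
  have : CharZero (KT k m) :=
    charZero_of_injective_algebraMap (R := k) (algebraMap k (KT k m)).injective
  obtain ⟨J, hJ1, hJ2⟩ := iso_Pencil k m p
  let R := MvPolynomial (Fin (m + p)) k
  let α : MvPolynomial (Fin (m + p)) k →+* KT k (m + p) := algebraMap _ _
  have hα : Function.Injective α := IsFractionRing.injective (MvPolynomial (Fin (m + p)) k) _
  let G : Matrix (Fin (N + 1)) (Fin (N + 1)) (KT k (m + p)) := (pencil A).map α
  let A' : Fin p → Matrix (Fin (N + 1)) (Fin (N + 1)) (KT k m) := fun i =>
    (A i).map (algebraMap (MvPolynomial (Fin m) k) (KT k m))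
  let B := ∑ i, tv (KT k m) p i • (A' i).map (algebraMap (KT k m) (KT (KT k m) p))
  have hBG : B.map J = G := by
    ext a b
    simp only [B, G, pencil, Matrix.map_apply, Matrix.sum_apply, Matrix.smul_apply, smul_eq_mul,
      map_sum, map_mul]
    refine Finset.sum_congr rfl fun i _ => ?_
    rw [hJ2]
    have h3 : J ((algebraMap (KT k m) (KT (KT k m) p)) (A' i a b)) =
        α (MvPolynomial.rename (Fin.castAdd p) (A i a b)) := hJ1 (A i a b)
    rw [h3]
    rfl
  have hOdd : OddZero A ↔ MIso G := by
    rw [← hBG, miso_equiv_Pencil]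
    exact (hAB (KT k m) (N + 1) p A').symm
  have hlm : ∀ l, lm G l = α (lm (pencil A) l) := fun l => lm_map_Pencil α (pencil A) l
  refine ⟨fun hdet => ?_, fun hm => ?_⟩
  · rw [hOdd]
    have hd : G.det = 0 := by
      have : G.det = α (pencil A).det := by rw [RingHom.map_det]; rfl
      rw [this, hdet, map_zero]
    obtain ⟨v, hv, hv0⟩ := Matrix.exists_mulVec_eq_zero_iff.2 hd
    exact ⟨v, hv, by unfold qm; rw [hv0, dotProduct_zero]⟩
  · rw [hOdd]
    have hs : G.IsSymm := by
      unfold Matrix.IsSymm
      ext a b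
      simp only [G, Matrix.transpose_apply, Matrix.map_apply]
      rw [(pencil_symm_Pencil A hA).apply]
    have hne : ∀ l ≤ N + 1, lm G l ≠ 0 := by
      intro l hl
      rw [hlm, Ne, map_eq_zero_iff _ hα]
      exact hm l hl
    rw [hMin (KT k (m + p)) N G hs hne]
    have h2 : (2 : k) ≠ 0 := two_ne_zero
    have hH := (hHom k h2 (m + p) N (fun l : Fin N => lm (pencil A) 1 * (lm (pencil A) (l.1 + 1) *
      lm (pencil A) (l.1 + 2))) (fun l => mul_ne_zero (hm _ (by omega))
        (mul_ne_zero (hm _ (by have := l.2; omega)) (hm _ (by have := l.2; omega))))).2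
    have e1 : (fun l : Fin N => lm G 1 * (lm G (l.1 + 1) * lm G (l.1 + 2))) =
        toKT (fun l : Fin N => lm (pencil A) 1 * (lm (pencil A) (l.1 + 1) *
          lm (pencil A) (l.1 + 2))) := by
      funext l
      unfold toKT
      rw [hlm, hlm, hlm, ← map_mul, ← map_mul]
    rw [e1, ← hH]
    rfl

end Pool.Agent.Helper44.RED
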