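import Pool.Agent.Helper44.RED.StA

set_option autoImplicit false

namespace Pool.Agent.Helper44.RED

section PfHyp

variable {K : Type} [Field K]

/-- `<1,-1> ⊂ <c,-c>` -/
private lemma hyp_pair_PfHyp {ι : Type} [Fintype ι] (h2 : (2 : K) ≠ 0) (c : ι → K)
    (hc : ∀ i, c i ≠ 0) :
    Emb (Sum.elim (fun _ : ι => (1 : K)) (fun _ : ι => -1)) (Sum.elim c (fun i => - c i)) := by
  classical
  set s : ι → K := fun i => ((c i)⁻¹ + 1) / 2 with hs
  set t : ι → K := fun i => ((c i)⁻¹ - 1) / 2 with ht
  have hst : ∀ i, c i * s i ^ 2 - c i * t i ^ 2 = 1 := by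
    intro i
    have := hc i
    simp only [hs, ht]
    field_simp
    ring
  refine ⟨Sum.elim (fun i => Sum.elim (Pi.single i (s i)) (Pi.single i (t i)))
    (fun i => Sum.elim (Pi.single i (t i)) (Pi.single i (s i))), ?_, ?_⟩
  · rintro (i | i) (j | j) hij
    · have hne : i ≠ j := fun h => hij (by rw [h])
      rw [bf_sumElim]
      simp only [Sum.elim_inl, Sum.elim_comp_inl, Sum.elim_comp_inr, bf_single_single, if_neg hne,
        add_zero]
    · rw [bf_sumElim]
      simp only [Sum.elim_inl, Sum.elim_inr, Sum.elim_comp_inl, Sum.elim_comp_inr,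
        bf_single_single]
      by_cases h : i = j
      · subst h
        simp only [if_true]
        ring
      · simp only [if_neg h, add_zero]
    · rw [bf_sumElim]
      simp only [Sum.elim_inl, Sum.elim_inr, Sum.elim_comp_inl, Sum.elim_comp_inr,
        bf_single_single]
      by_cases h : i = j
      · subst h
        simp only [if_true]
        ring
      · simp only [if_neg h, add_zero]
    · have hne : i ≠ j := fun h => hij (by rw [h])
      rw [bf_sumElim]
      simp only [Sum.elim_inr, Sum.elim_comp_inl, Sum.elim_comp_inr, bf_single_single, if_neg hne,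
        add_zero]
  · rintro (i | i)
    · rw [qf_sumElim]
      simp only [Sum.elim_inl, Sum.elim_comp_inl, Sum.elim_comp_inr, qf_single]
      have := hst i
      linear_combination this
    · rw [qf_sumElim]
      simp only [Sum.elim_inr, Sum.elim_comp_inl, Sum.elim_comp_inr, qf_single]
      have := hst i
      linear_combination -this

private lemma hyp_reindex_PfHyp {ι κ μ : Type} [Fintype ι] [Fintype κ] {a : ι → K} (e : μ → κ)
    (he : Function.Injective e)
    (h : Emb (Sum.elim (fun _ : κ => (1 : K)) (fun _ : κ => -1)) a) :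
    Emb (Sum.elim (fun _ : μ => (1 : K)) (fun _ : μ => -1)) a := by
  have h1 := Emb.restrict h (Sum.map e e) (he.sumMap he)
  have h2 : (fun j => Sum.elim (fun _ : κ => (1 : K)) (fun _ : κ => -1) (Sum.map e e j)) =
      Sum.elim (fun _ : μ => (1 : K)) (fun _ : μ => -1) := by
    funext j
    rcases j with j | j <;> rfl
  rwa [h2] at h1

private lemma hyp_sum_PfHyp {ι ι' κ κ' : Type} [Fintype ι] [Fintype ι'] [Fintype κ] [Fintype κ']
    {a : ι → K} {b : ι' → K}
    (h : Emb (Sum.elim (fun _ : κ => (1 : K)) (fun _ : κ => -1)) a)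
    (h' : Emb (Sum.elim (fun _ : κ' => (1 : K)) (fun _ : κ' => -1)) b) :
    Emb (Sum.elim (fun _ : κ ⊕ κ' => (1 : K)) (fun _ : κ ⊕ κ' => -1)) (Sum.elim a b) := by
  have h0 := h.sum h'
  let e : (κ ⊕ κ') ⊕ (κ ⊕ κ') → (κ ⊕ κ) ⊕ (κ' ⊕ κ') :=
    Sum.elim (Sum.elim (fun i => Sum.inl (Sum.inl i)) (fun i => Sum.inr (Sum.inl i)))
      (Sum.elim (fun i => Sum.inl (Sum.inr i)) (fun i => Sum.inr (Sum.inr i)))
  have he : Function.Injective e := by
    rintro ((i | i) | (i | i)) ((j | j) | (j | j)) hij <;>
      simp only [e, Sum.elim_inl, Sum.elim_inr, Sum.inl.injEq, Sum.inr.injEq, reduceCtorEq] at hij <;>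
      rw [hij]
  have h1 := Emb.restrict h0 e he
  convert h1 using 1
  funext j
  rcases j with (j | j) | (j | j) <;> rfl

/-- the splitting of the subsets of `Fin (n+1)` -/
private def spl_PfHyp (n : ℕ) : Finset (Fin n) ⊕ Finset (Fin n) → Finset (Fin (n + 1)) :=
  Sum.elim (fun S => S.map Fin.castSuccEmb) (fun S => insert (Fin.last n) (S.map Fin.castSuccEmb))

private lemma last_notMem_PfHyp {n : ℕ} (S : Finset (Fin n)) :
    Fin.last n ∉ S.map Fin.castSuccEmb := by
  intro h
  rw [Finset.mem_map] at h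
  obtain ⟨i, _, hi⟩ := h
  exact (Fin.castSucc_lt_last i).ne hi

private lemma spl_inj_PfHyp (n : ℕ) : Function.Injective (spl_PfHyp n) := by
  rintro (S | S) (T | T) h
  · simp only [spl_PfHyp, Sum.elim_inl] at h
    rw [Finset.map_injective _ h]
  · exfalso
    simp only [spl_PfHyp, Sum.elim_inl, Sum.elim_inr] at h
    apply last_notMem_PfHyp S
    rw [h]
    exact Finset.mem_insert_self _ _
  · exfalso
    simp only [spl_PfHyp, Sum.elim_inl, Sum.elim_inr] at h
    apply last_notMem_PfHyp T
    rw [← h]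
    exact Finset.mem_insert_self _ _
  · simp only [spl_PfHyp, Sum.elim_inr] at h
    have h1 : S.map Fin.castSuccEmb = T.map Fin.castSuccEmb := by
      have := congrArg (fun U => Finset.erase U (Fin.last n)) h
      simpa only [Finset.erase_insert (last_notMem_PfHyp S),
        Finset.erase_insert (last_notMem_PfHyp T)] using this
    rw [Finset.map_injective _ h1]

private lemma spl_bij_PfHyp (n : ℕ) : Function.Bijective (spl_PfHyp n) := by
  rw [Fintype.bijective_iff_injective_and_card]
  refine ⟨spl_inj_PfHyp n, ?_⟩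
  rw [Fintype.card_sum, Fintype.card_finset, Fintype.card_finset, Fintype.card_fin,
    Fintype.card_fin, pow_succ]
  ring

private lemma pf_spl_inl_PfHyp {n : ℕ} (x : Fin (n + 1) → K) (S : Finset (Fin n)) :
    pf x (spl_PfHyp n (Sum.inl S)) = pf (fun j => x (Fin.castSucc j)) S := by
  unfold pf
  simp only [spl_PfHyp, Sum.elim_inl]
  rw [Finset.prod_map]
  rfl

private lemma pf_spl_inr_PfHyp {n : ℕ} (x : Fin (n + 1) → K) (S : Finset (Fin n)) :
    pf x (spl_PfHyp n (Sum.inr S)) =
      - x (Fin.last n) * pf (fun j => x (Fin.castSucc j)) S := by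
  unfold pf
  simp only [spl_PfHyp, Sum.elim_inr]
  rw [Finset.prod_insert (last_notMem_PfHyp S), Finset.prod_map]
  rfl

private lemma split_emb_PfHyp {n : ℕ} (x : Fin (n + 1) → K) :
    Emb (Sum.elim (pf (fun j => x (Fin.castSucc j)))
      (fun S => - x (Fin.last n) * pf (fun j => x (Fin.castSucc j)) S)) (pf x) := by
  have h := Emb.comp_inj (pf x) (spl_PfHyp n) (spl_inj_PfHyp n)
  convert h using 1
  funext S
  rcases S with S | S
  · rw [pf_spl_inl_PfHyp, Sum.elim_inl]
  · rw [pf_spl_inr_PfHyp, Sum.elim_inr]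

private lemma qf_split_PfHyp {n : ℕ} (x : Fin (n + 1) → K) (u : Finset (Fin (n + 1)) → K) :
    qf (pf x) u = qf (pf (fun j => x (Fin.castSucc j))) (fun S => u (spl_PfHyp n (Sum.inl S)))
      - x (Fin.last n) * qf (pf (fun j => x (Fin.castSucc j)))
        (fun S => u (spl_PfHyp n (Sum.inr S))) := by
  have h1 : qf (pf x) u = ∑ s : Finset (Fin n) ⊕ Finset (Fin n),
      pf x (spl_PfHyp n s) * u (spl_PfHyp n s) ^ 2 := by
    unfold qf
    exact ((spl_bij_PfHyp n).sum_comp (fun T => pf x T * u T ^ 2)).symm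
  rw [h1, Fintype.sum_sum_type]
  simp only [pf_spl_inl_PfHyp, pf_spl_inr_PfHyp]
  unfold qf
  rw [Finset.mul_sum, sub_eq_add_neg, ← Finset.sum_neg_distrib]
  congr 1
  exact Finset.sum_congr rfl fun S _ => by ring

private lemma step_PfHyp (hR : StRound) (h2 : (2 : K) ≠ 0) {n : ℕ} (x : Fin (n + 1) → K)
    (hx : ∀ j, x j ≠ 0) (hiso : ¬ Aniso (pf x))
    (han : Aniso (pf (fun j => x (Fin.castSucc j)))) :
    Emb (Sum.elim (fun _ : Finset (Fin n) => (1 : K)) (fun _ : Finset (Fin n) => -1)) (pf x) := by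
  set x' : Fin n → K := fun j => x (Fin.castSucc j) with hx'
  set y : K := x (Fin.last n) with hy
  have hy0 : y ≠ 0 := hx _
  have hx'0 : ∀ j, x' j ≠ 0 := fun j => hx _
  unfold Aniso at hiso
  push Not at hiso
  obtain ⟨u, hu, hu0⟩ := hiso
  rw [qf_split_PfHyp] at hu
  set u0 : Finset (Fin n) → K := fun S => u (spl_PfHyp n (Sum.inl S)) with hu0d
  set u1 : Finset (Fin n) → K := fun S => u (spl_PfHyp n (Sum.inr S)) with hu1d
  have hβ : qf (pf x') u1 ≠ 0 := by
    intro h
    apply hu0
    have h1 : u1 = 0 := han u1 h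
    have h3 : u0 = 0 := han u0 (by
      have : qf (pf x') u0 - y * qf (pf x') u1 = 0 := hu
      rw [h, mul_zero, sub_zero] at this
      exact this)
    funext T
    obtain ⟨s, rfl⟩ := (spl_bij_PfHyp n).2 T
    rcases s with S | S
    · exact congrFun h3 S
    · exact congrFun h1 S
  have hαβ : qf (pf x') u0 = y * qf (pf x') u1 := by
    have : qf (pf x') u0 - y * qf (pf x') u1 = 0 := hu
    linear_combination this
  have hα : qf (pf x') u0 ≠ 0 := by
    rw [hαβ]; exact mul_ne_zero hy0 hβ
  have hRα := hR K h2 n x' hx'0 u0 hα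
  have hRβ := hR K h2 n x' hx'0 u1 hβ
  set β : K := qf (pf x') u1 with hβd
  rw [hαβ] at hRα
  -- π' ⊂ β² π'
  have e1 : Emb (pf x') (fun S => β * (β * pf x' S)) := by
    have := Emb.sq (fun S => β * (β * pf x' S)) (fun _ => β⁻¹)
    convert this using 1
    funext S
    field_simp
  have e2 : Emb (fun S => β * (β * pf x' S)) (fun S => β * pf x' S) := hRβ.smul β
  have e3 : Emb (fun S => β * pf x' S) (fun S => y * (y * β * pf x' S)) := by
    have := Emb.sq (fun S => y * (y * β * pf x' S)) (fun _ => y⁻¹)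
    convert this using 1
    funext S
    field_simp
  have e4 : Emb (fun S => y * (y * β * pf x' S)) (fun S => y * pf x' S) := hRα.smul y
  have e5 : Emb (pf x') (fun S => y * pf x' S) := ((e1.trans e2).trans e3).trans e4
  have e6 : Emb (fun S => - pf x' S) (fun S => - y * pf x' S) := by
    have := e5.smul (-1)
    convert this using 1
    · funext S; ring
    · funext S; ring
  have e7 := (Emb.refl (pf x')).sum e6
  have e8 := hyp_pair_PfHyp h2 (pf x') (pf_ne_zero hx'0)
  exact (e8.trans e7).trans (split_emb_PfHyp x)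

private lemma toFin_PfHyp {ι : Type} [Fintype ι] {a : ι → K} {n : ℕ}
    (h : Emb (Sum.elim (fun _ : Finset (Fin n) => (1 : K)) (fun _ : Finset (Fin n) => -1)) a) :
    Emb (Sum.elim (fun _ : Fin (2 ^ n) => (1 : K)) (fun _ : Fin (2 ^ n) => -1)) a := by
  have hc : Fintype.card (Fin (2 ^ n)) = Fintype.card (Finset (Fin n)) := by
    rw [Fintype.card_finset, Fintype.card_fin, Fintype.card_fin]
  exact hyp_reindex_PfHyp (Fintype.equivOfCardEq hc) (Fintype.equivOfCardEq hc).injective h

/-- module PFHYP -/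
theorem pPfHyp : StRound → StPfHyp := by
  intro hR K _ h2 n
  induction n with
  | zero =>
    intro x hx hiso
    refine toFin_PfHyp (step_PfHyp hR h2 x hx hiso ?_)
    intro u hu
    have h1 : qf (pf (fun j : Fin 0 => x (Fin.castSucc j))) u = u ∅ ^ 2 := by
      unfold qf
      rw [Fintype.sum_eq_single ∅]
      · rw [pf_empty, one_mul]
      · intro S hS
        exact absurd (Finset.eq_empty_of_isEmpty S) hS
    rw [h1] at hu
    funext S
    rw [Finset.eq_empty_of_isEmpty S]
    exact pow_eq_zero_iff (two_ne_zero) |>.1 hu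
  | succ m ih =>
    intro x hx hiso
    by_cases han : Aniso (pf (fun j => x (Fin.castSucc j)))
    · exact toFin_PfHyp (step_PfHyp hR h2 x hx hiso han)
    · have hx'0 : ∀ j, (fun j => x (Fin.castSucc j)) j ≠ 0 := fun j => hx _
      have hy0 : - x (Fin.last (m + 1)) ≠ 0 := neg_ne_zero.2 (hx _)
      have H := ih (fun j => x (Fin.castSucc j)) hx'0 han
      have H' := H.smul (- x (Fin.last (m + 1)))
      have H2 : Emb (Sum.elim (fun _ : Fin (2 ^ m) => (1 : K)) (fun _ : Fin (2 ^ m) => -1))
          (fun S => - x (Fin.last (m + 1)) * pf (fun j => x (Fin.castSucc j)) S) := by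
        refine (hyp_pair_PfHyp h2 (fun _ : Fin (2 ^ m) => - x (Fin.last (m + 1)))
          (fun _ => hy0)).trans ?_
        convert H' using 1
        funext j
        rcases j with j | j
        · simp only [Sum.elim_inl, mul_one]
        · simp only [Sum.elim_inr]; ring
      have H3 := (hyp_sum_PfHyp H H2).trans (split_emb_PfHyp x)
      have hc : Fintype.card (Fin (2 ^ (m + 1))) = Fintype.card (Fin (2 ^ m) ⊕ Fin (2 ^ m)) := by
        rw [Fintype.card_sum, Fintype.card_fin, Fintype.card_fin, pow_succ]; ring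
      exact hyp_reindex_PfHyp (Fintype.equivOfCardEq hc) (Fintype.equivOfCardEq hc).injective H3

end PfHyp

end Pool.Agent.Helper44.RED
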