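import Pool.Agent.Helper44.RED.StD

/-!
# RED module PureIso: purely transcendental extensions and isomorphisms
-/

set_option autoImplicit false

namespace Pool.Agent.Helper44.RED

theorem pPureIso : StPureIso := by
  intro k F _ _ _
  constructor
  · rintro ⟨m, z, hi, hg⟩
    refine ⟨m, ?_⟩
    have hinj : Function.Injective (MvPolynomial.aeval z : MvPolynomial (Fin m) k →ₐ[k] F) := hi
    let f : FractionRing (MvPolynomial (Fin m) k) →ₐ[k] F :=
      IsFractionRing.liftAlgHom (g := (MvPolynomial.aeval z : MvPolynomial (Fin m) k →ₐ[k] F)) hinj
    have hf : ∀ p : MvPolynomial (Fin m) k,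
        f (algebraMap (MvPolynomial (Fin m) k) (FractionRing (MvPolynomial (Fin m) k)) p) =
          MvPolynomial.aeval z p := by
      intro p
      exact IsFractionRing.lift_algebraMap (g := (MvPolynomial.aeval z :
        MvPolynomial (Fin m) k →ₐ[k] F).toRingHom) hinj p
    have hsurj : Function.Surjective f := by
      have h1 : (f : FractionRing (MvPolynomial (Fin m) k) →+* F).fieldRange = ⊤ := by
        rw [eq_top_iff, ← hg, Subfield.closure_le]
        rintro x (⟨c, rfl⟩ | ⟨i, rfl⟩)
        · exact ⟨algebraMap k _ c, f.commutes c⟩
        · refine ⟨algebraMap (MvPolynomial (Fin m) k) _ (MvPolynomial.X i), ?_⟩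
          exact (hf _).trans (MvPolynomial.aeval_X z i)
      intro x
      have h2 : x ∈ (f : FractionRing (MvPolynomial (Fin m) k) →+* F).fieldRange := by
        rw [h1]; exact Subfield.mem_top x
      exact h2
    exact ⟨(AlgEquiv.ofBijective f ⟨f.toRingHom.injective, hsurj⟩).symm⟩
  · rintro ⟨N, ⟨e⟩⟩
    let A := MvPolynomial (Fin N) k
    let z : Fin N → F := fun i => e.symm (algebraMap A (FractionRing A) (MvPolynomial.X i))
    have hz : ∀ p : A, MvPolynomial.eval₂Hom (algebraMap k F) z p =
        e.symm (algebraMap A (FractionRing A) p) := by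
      intro p
      have h1 : (MvPolynomial.aeval z : A →ₐ[k] F) =
          (e.symm : FractionRing A →ₐ[k] F).comp (IsScalarTower.toAlgHom k A (FractionRing A)) := by
        apply MvPolynomial.algHom_ext
        intro i
        rw [MvPolynomial.aeval_X]
        rfl
      exact congrArg (fun g : A →ₐ[k] F => g p) h1
    refine ⟨N, z, ?_, ?_⟩
    · intro p q hpq
      rw [hz, hz] at hpq
      exact IsFractionRing.injective A (FractionRing A) (e.symm.injective hpq)
    · have hS : ∀ p : A, e.symm (algebraMap A (FractionRing A) p) ∈
          Subfield.closure (Set.range (algebraMap k F) ∪ Set.range z) := by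
        intro p
        rw [← hz]
        induction p using MvPolynomial.induction_on with
        | C a =>
          rw [MvPolynomial.coe_eval₂Hom, MvPolynomial.eval₂_C]
          exact Subfield.subset_closure (Or.inl ⟨a, rfl⟩)
        | add p q hp hq =>
          rw [map_add]
          exact add_mem hp hq
        | mul_X p i hp =>
          rw [map_mul]
          refine mul_mem hp ?_
          rw [MvPolynomial.coe_eval₂Hom, MvPolynomial.eval₂_X]
          exact Subfield.subset_closure (Or.inr ⟨i, rfl⟩)
      unfold GenBy
      rw [eq_top_iff]
      intro x _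
      obtain ⟨a, b, hb⟩ := IsFractionRing.div_surjective (A := A) (e x)
      have h2 : x = e.symm (algebraMap A (FractionRing A) a) /
          e.symm (algebraMap A (FractionRing A) b) := by
        rw [← map_div₀, hb.2, AlgEquiv.symm_apply_apply]
      rw [h2]
      exact div_mem (hS a) (hS b)

end Pool.Agent.Helper44.RED
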