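import Pool.Agent.Helper44.RED.StB
import Pool.Agent.Helper44.RED.Fld

/-!
# Project RED, module RATIONALNOT

Over a purely transcendental extension of an algebraically closed field every anisotropic form of
dimension at least 2 is ramified somewhere.
-/

set_option autoImplicit false

namespace Pool.Agent.Helper44.RED

/-- transport of unimodular lattices along an isomorphism of fields -/
private lemma unram_comap_RationalNot {F G ι : Type} [Field F] [Field G] [Fintype ι]
    [DecidableEq ι] (e : F ≃+* G) (O : ValuationSubring G) (a : ι → F)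
    (h : Unram (O.comap (e : F →+* G)) a) : Unram O (im (e : F →+* G) a) := by
  obtain ⟨B, hB, h1, h2⟩ := h
  have hdiag : Matrix.diagonal (im (e : F →+* G) a) =
      (Matrix.diagonal a).map (e : F →+* G) := by
    rw [Matrix.diagonal_map (map_zero _)]
    rfl
  have hgram : (B.map (e : F →+* G)).transpose * Matrix.diagonal (im (e : F →+* G) a) *
      B.map (e : F →+* G) = (B.transpose * Matrix.diagonal a * B).map (e : F →+* G) := by
    rw [hdiag, Matrix.map_mul, Matrix.map_mul, Matrix.transpose_map]
  have hdet : ∀ M : Matrix ι ι F, (M.map (e : F →+* G)).det = (e : F →+* G) M.det := by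
    intro M
    exact ((e : F →+* G).map_det M).symm
  refine ⟨B.map (e : F →+* G), ?_, ?_, ?_⟩
  · rw [hdet]
    exact (map_ne_zero _).2 hB
  · intro i j
    rw [hgram]
    exact h1 i j
  · rw [hgram, hdet, ← map_inv₀]
    exact h2

/-- a discrete valuation ring pulled back along an isomorphism of fields -/
private lemma dvr_comap_RationalNot {F G : Type} [Field F] [Field G] (e : F ≃+* G)
    (O : ValuationSubring G) (hO : IsDiscreteValuationRing O) :
    IsDiscreteValuationRing (O.comap (e : F →+* G)) := by
  let f : O ≃+* O.comap (e : F →+* G) :=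
    { toFun := fun x => ⟨e.symm x, by
        rw [ValuationSubring.mem_comap]
        simp⟩
      invFun := fun x => ⟨e x, x.2⟩
      left_inv := fun x => by simp
      right_inv := fun x => by simp
      map_mul' := fun x y => by
        apply Subtype.ext
        simp
      map_add' := fun x y => by
        apply Subtype.ext
        simp }
  exact IsDiscreteValuationRing.RingEquivClass.isDiscreteValuationRing f

private lemma aux_RationalNot (hC : StConst) (hD : StDesc) (hU : StUnramIso) (hF : StFlip) :
    ∀ (m : ℕ) (k F ι : Type) [Field k] [IsAlgClosed k] [Field F] [Fintype ι] [DecidableEq ι],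
      (2 : k) ≠ 0 → ∀ (φ : k →+* F) (z : Fin m → F), Indep φ z → GenBy φ (Set.range z) →
      ∀ (a : ι → F), 2 ≤ Fintype.card ι → Aniso a →
        ∃ O : ValuationSubring F, IsDiscreteValuationRing O ∧ (∀ c : k, φ c ∈ O) ∧
          ¬ Unram O a := by
  intro m
  induction m with
  | zero =>
    intro k F ι _ _ _ _ _ h2 φ z hz hg a hι ha
    exfalso
    have hs : Function.Surjective φ := range_top_of_gen hg φ (fun c => ⟨c, rfl⟩)
      (by rintro _ ⟨i, rfl⟩; exact i.elim0)
    obtain ⟨i, j, hij⟩ := Fintype.one_lt_card_iff.1 (show 1 < Fintype.card ι by omega)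
    obtain ⟨α, hα⟩ := hs (a i)
    obtain ⟨β, hβ⟩ := hs (a j)
    have hα0 : α ≠ 0 := by
      rintro rfl
      exact ha.ne_zero i (by rw [← hα, map_zero])
    obtain ⟨s, hs2⟩ := IsAlgClosed.exists_pow_nat_eq (-β / α) (show 0 < 2 by norm_num)
    have hq : qf a (Pi.single i (φ s) + Pi.single j (1 : F)) = 0 := by
      rw [qf_add, qf_single, qf_single, bf_single_single, if_neg hij, ← hα, ← hβ]
      have : φ α * φ s ^ 2 = - φ β := by
        rw [← map_pow, hs2, ← map_mul, ← map_neg]
        congr 1
        field_simp
      rw [this]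
      ring
    have h0 := congrFun (ha _ hq) j
    simp [Ne.symm hij] at h0
  | succ m ih =>
    intro k F ι _ _ _ _ _ h2 φ z hz hg a hι ha
    by_contra hcon
    push Not at hcon
    obtain ⟨L, ψ, z', h1, -, h3, h4, h5, h6⟩ := peelLast hz hg
    obtain ⟨j, hj1, -, -⟩ := h5.isoRat h6
    have h2L : (2 : L) ≠ 0 := by
      have h := (map_ne_zero ψ).2 h2
      rwa [map_ofNat] at h
    -- constants
    have hconst : ∀ c : k, j.symm (φ c) = algebraMap L (RatFunc L) (ψ c) := by
      intro c
      rw [RingEquiv.symm_apply_eq, hj1]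
      exact (h1 c).symm
    set a' : ι → RatFunc L := im (j.symm : F →+* RatFunc L) a with ha'def
    have haa' : im (j : RatFunc L →+* F) a' = a := by
      funext i
      simp [a', im]
    have ha' : Aniso a' := by
      apply Aniso.of_im (φ := (j : RatFunc L →+* F))
      rw [haa']
      exact ha
    have hun : ∀ O : ValuationSubring (RatFunc L), IsDiscreteValuationRing O →
        (∀ c : k, algebraMap L (RatFunc L) (ψ c) ∈ O) → Unram O a' := by
      intro O hO hc
      refine unram_comap_RationalNot j.symm O a
        (hcon (O.comap (j.symm : F →+* RatFunc L)) (dvr_comap_RationalNot j.symm O hO) ?_)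
      intro c
      rw [ValuationSubring.mem_comap]
      have := hconst c
      change j.symm (φ c) ∈ O
      rw [this]
      exact hc c
    obtain ⟨c, hc0, hemb⟩ := hC L ι h2L a' ha' (fun O hO hcO => hun O hO (fun c => hcO _))
    have hcim : ∀ i, im (algebraMap L (RatFunc L)) c i ≠ 0 := fun i => (map_ne_zero _).2 (hc0 i)
    have hcan : Aniso c := Aniso.of_im (ha'.of_emb hcim hemb)
    have hflip := hF (RatFunc L) ι ι a' (im (algebraMap L (RatFunc L)) c) rfl hcim hemb
    obtain ⟨O, hO, hcO, hnot⟩ := ih k L ι h2 ψ z' h3 h4 c hι hcan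
    obtain ⟨O', hO', hOO', hdesc⟩ := hD L ι O hO c hcan
    exact hnot (hdesc (hU (RatFunc L) ι ι O' _ a' rfl hflip.2 hflip.1
      (hun O' hO' (fun c => hOO' _ (hcO c)))))

/-- RATIONALNOT -/
theorem pRationalNot : StConst → StDesc → StUnramIso → StFlip → StRationalNot := by
  intro hC hD hU hF k F ι _ _ _ _ _ h2 φ hφ a hι ha
  obtain ⟨m, z, hz, hg⟩ := hφ
  exact aux_RationalNot hC hD hU hF m k F ι h2 φ z hz hg a hι ha

end Pool.Agent.Helper44.RED
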