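import Pool.Agent.Helper44.RED.StA

/-!
# Project RED: module Refl (vectors of the same nonzero norm are conjugate)
-/

set_option autoImplicit false

namespace Pool.Agent.Helper44.RED

/-- the reflection along a vector of nonzero norm -/
private lemma reflection_Refl {K ι : Type} [Field K] [Fintype ι] (a w : ι → K)
    (hw : qf a w ≠ 0) :
    ∃ T : (ι → K) →ₗ[K] (ι → K), (∀ z, T z = z - (2 * bf a z w / qf a w) • w) ∧
      ∀ u v, bf a (T u) (T v) = bf a u v := by
  refine ⟨{ toFun := fun z => z - (2 * bf a z w / qf a w) • w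
            map_add' := fun u v => ?_
            map_smul' := fun c u => ?_ }, fun z => rfl, fun u v => ?_⟩
  · simp only [bf_add_left]
    have h : 2 * (bf a u w + bf a v w) / qf a w =
        2 * bf a u w / qf a w + 2 * bf a v w / qf a w := by ring
    rw [h, add_smul]
    abel
  · simp only [bf_smul_left, RingHom.id_apply]
    have h : 2 * (c * bf a u w) / qf a w = c * (2 * bf a u w / qf a w) := by ring
    rw [h, smul_sub, smul_smul]
  · simp only [LinearMap.coe_mk, AddHom.coe_mk]
    rw [bf_sub_left, bf_sub_right, bf_sub_right, bf_smul_left, bf_smul_left, bf_smul_right,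
      bf_smul_right, bf_self, bf_comm a w v]
    field_simp
    ring

theorem pRefl : StRefl := by
  intro K ι _ _ h2 a x y hxy hx
  by_cases h : qf a (x - y) = 0
  · rw [qf_sub, ← hxy] at h
    have h3 : 2 * bf a x y = 2 * qf a x := by
      have : qf a x - 2 * bf a x y + qf a x = 2 * qf a x - 2 * bf a x y := by ring
      rw [this, sub_eq_zero] at h
      exact h.symm
    have h4 : qf a (x + y) = 2 * (2 * qf a x) := by
      rw [qf_add, ← hxy, h3]
      ring
    have h5 : qf a (x + y) ≠ 0 := by
      rw [h4]
      exact mul_ne_zero h2 (mul_ne_zero h2 hx)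
    obtain ⟨T, hT, hT'⟩ := reflection_Refl a (x + y) h5
    refine ⟨-T, fun u v => ?_, ?_⟩
    · rw [LinearMap.neg_apply, LinearMap.neg_apply, bf_neg_left, bf_neg_right, neg_neg, hT']
    · rw [LinearMap.neg_apply, hT]
      have h6 : 2 * bf a x (x + y) = qf a (x + y) := by
        rw [h4, bf_add_right, bf_self, mul_add, h3]
        ring
      rw [h6, div_self h5, one_smul]
      abel
  · obtain ⟨T, hT, hT'⟩ := reflection_Refl a (x - y) h
    refine ⟨T, hT', ?_⟩
    rw [hT]
    have h6 : 2 * bf a x (x - y) = qf a (x - y) := by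
      rw [qf_sub, bf_sub_right, bf_self, ← hxy]
      ring
    rw [h6, div_self h, one_smul]
    abel

end Pool.Agent.Helper44.RED
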