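import Pool.Agent.Helper44.RED.StB

/-!
# Project RED, module Sep: separation of the translates
-/

set_option autoImplicit false

namespace Pool.Agent.Helper44.RED

private lemma one_im_Sep {R S : Type} [CommRing R] [CommRing S] {s : ℕ} (φ : R →+* S)
    (c : Fin s → R) : im φ (one c) = one (im φ c) := by
  funext l
  refine Fin.cases ?_ (fun l => ?_) l
  · simp [im, one]
  · simp [im, one]

private lemma qf_one_Sep {R : Type} [CommRing R] {s : ℕ} (c : Fin s → R) (x : Fin (s + 1) → R) :
    qf (one c) x = x 0 ^ 2 + qf c (fun l => x l.succ) := by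
  unfold qf one
  rw [Fin.sum_univ_succ]
  simp

/-- successive cones make finitely many forms isotropic -/
private lemma cones_Sep (hCE : StConeEx) (hWH : StWH) {κ : Type} [Field κ] (h2 : (2 : κ) ≠ 0)
    (N d m : ℕ) (hN : 1 ≤ N) (hd : d ≤ 2 ^ (N - 1) + 1) (hm : 2 ^ N ≤ m) (P : Fin d → κ)
    (hP : Aniso P) {I : Type} (s : Finset I) (β : I → Fin m → κ) (hβ : ∀ i l, β i l ≠ 0) :
    ∃ (κ₁ : Type) (_ : Field κ₁) (φ : κ →+* κ₁), Aniso (im φ P) ∧
      ∀ i ∈ s, ¬ Aniso (im φ (one (β i))) := by
  classical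
  induction s using Finset.induction_on with
  | empty => exact ⟨κ, inferInstance, RingHom.id κ, hP, fun i hi => absurd hi (by simp)⟩
  | insert i s hi ih =>
    obtain ⟨κ₁, _, φ, hφ, hs⟩ := ih
    obtain ⟨F, _, φ', y, w, hC⟩ := hCE κ₁ (Fin m) (im φ (β i)) (-1)
    have h2' : (2 : κ₁) ≠ 0 := by
      rw [← map_ofNat φ 2]
      exact (map_ne_zero φ).2 h2
    have hq : ∀ l, im φ (β i) l ≠ 0 := fun l => (map_ne_zero φ).2 (hβ i l)
    have hF : Aniso (im φ' (im φ P)) :=
      hWH κ₁ F h2' N d m (im φ P) (im φ (β i)) (-1) φ' y w hN hd hm hq (by simp) hφ hC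
    refine ⟨F, inferInstance, φ'.comp φ, hF, fun i' hi' => ?_⟩
    rcases Finset.mem_insert.1 hi' with rfl | hi''
    · intro hA
      have hm0 : 0 < m := lt_of_lt_of_le (by positivity) hm
      have hy : y ⟨0, hm0⟩ ≠ 0 := by
        intro h0
        have h1 : MvPolynomial.eval₂Hom φ' y (MvPolynomial.X ⟨0, hm0⟩) =
            MvPolynomial.eval₂Hom φ' y 0 := by
          rw [map_zero, MvPolynomial.eval₂Hom_X', h0]
        exact MvPolynomial.X_ne_zero _ (hC.indep h1)
      have h1 : qf (im (φ'.comp φ) (one (β i'))) (Fin.cons w y) = 0 := by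
        rw [one_im_Sep, qf_one_Sep]
        have e1 : (Fin.cons w y : Fin (m + 1) → F) 0 = w := rfl
        have e2 : (fun l : Fin m => (Fin.cons w y : Fin (m + 1) → F) l.succ) = y := by
          funext l
          rw [Fin.cons_succ]
        rw [e1, e2, hC.eq, map_neg, map_one, ← im_im]
        ring
      have h3 := congrFun (hA _ h1) (Fin.succ ⟨0, hm0⟩)
      rw [Fin.cons_succ] at h3
      exact hy h3
    · intro hA
      exact hs i' hi'' (Aniso.of_im (φ := φ') hA)

private lemma lin_lin_Sep {k F : Type} [CommRing k] [CommRing F] [Algebra k F] {t : ℕ}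
    (A B : Matrix (Fin t) (Fin t) k) (τ : Fin t → F) : lin A (lin B τ) = lin (A * B) τ := by
  funext a
  unfold lin
  simp only [Matrix.mul_apply, map_sum, map_mul, Finset.mul_sum, Finset.sum_mul]
  rw [Finset.sum_comm]
  refine Finset.sum_congr rfl fun b _ => Finset.sum_congr rfl fun c _ => ?_
  ring

private lemma lin_one_Sep {k F : Type} [CommRing k] [CommRing F] [Algebra k F] {t : ℕ}
    (τ : Fin t → F) : lin (1 : Matrix (Fin t) (Fin t) k) τ = τ := by
  funext a
  unfold lin
  rw [Finset.sum_eq_single a]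
  · simp
  · intro b _ hb
    rw [Matrix.one_apply_ne (Ne.symm hb), map_zero, zero_mul]
  · intro h
    exact absurd (Finset.mem_univ _) h

private lemma lin_map_Sep {k F F' : Type} [CommRing k] [CommRing F] [CommRing F'] [Algebra k F]
    [Algebra k F'] {t : ℕ} (A : Matrix (Fin t) (Fin t) k) (f : F →ₐ[k] F') (τ : Fin t → F) :
    lin A (fun a => f (τ a)) = fun a => f (lin A τ a) := by
  funext a
  unfold lin
  rw [map_sum]
  refine Finset.sum_congr rfl fun b _ => ?_
  rw [map_mul, AlgHom.commutes]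

private lemma aeval_map_Sep {k F F' : Type} [CommRing k] [CommRing F] [CommRing F'] [Algebra k F]
    [Algebra k F'] {t : ℕ} (f : F →ₐ[k] F') (τ : Fin t → F) (p : MvPolynomial (Fin t) k) :
    MvPolynomial.aeval (fun a => f (τ a)) p = f (MvPolynomial.aeval τ p) := by
  have h : (MvPolynomial.aeval (fun a => f (τ a)) : MvPolynomial (Fin t) k →ₐ[k] F') =
      f.comp (MvPolynomial.aeval τ) := by
    apply MvPolynomial.algHom_ext
    intro a
    simp
  rw [h]
  rfl

private lemma bs_map_Sep {k F F' : Type} [CommRing k] [CommRing F] [CommRing F'] [Algebra k F]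
    [Algebra k F'] {t s : ℕ} (b : Fin s → MvPolynomial (Fin t) k) (A : Matrix (Fin t) (Fin t) k)
    (f : F →ₐ[k] F') (τ : Fin t → F) (l : Fin s) :
    bs b A (fun a => f (τ a)) l = f (bs b A τ l) := by
  unfold bs
  rw [lin_map_Sep, aeval_map_Sep]

private lemma append_map_Sep {α β : Type} (f : α → β) {m n : ℕ} (u : Fin m → α) (v : Fin n → α) :
    (Fin.append (fun a => f (u a)) (fun a => f (v a)) : Fin (m + n) → β) =
      fun a => f ((Fin.append u v : Fin (m + n) → α) a) := by
  funext a
  refine Fin.addCases (fun a => ?_) (fun a => ?_) a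
  · rw [Fin.append_left, Fin.append_left]
  · rw [Fin.append_right, Fin.append_right]

/-- the map `k[τ', s] → κ₁[s]` is injective -/
private lemma inj_Sep {k κ₁ : Type} [Field k] [Field κ₁] [Algebra k κ₁] {m e : ℕ}
    (T : Fin m → κ₁) (hT : Function.Injective (MvPolynomial.aeval T : MvPolynomial (Fin m) k →ₐ[k] κ₁)) :
    Function.Injective (MvPolynomial.aeval (Fin.append (fun a => (MvPolynomial.C (T a) :
      MvPolynomial (Fin e) κ₁)) MvPolynomial.X) :
        MvPolynomial (Fin (m + e)) k →ₐ[k] MvPolynomial (Fin e) κ₁) := by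
  let r : Fin (m + e) → Fin e ⊕ Fin m := fun a => (finSumFinEquiv.symm a).swap
  have hr : Function.Injective r := by
    intro a b hab
    have h1 : (finSumFinEquiv.symm a : Fin m ⊕ Fin e) = finSumFinEquiv.symm b := by
      have := congrArg Sum.swap hab
      simpa [r] using this
    exact finSumFinEquiv.symm.injective h1
  let A1 : MvPolynomial (Fin (m + e)) k →ₐ[k] MvPolynomial (Fin e ⊕ Fin m) k :=
    MvPolynomial.rename r
  let A2 := MvPolynomial.sumAlgEquiv k (Fin e) (Fin m)
  let A3 : MvPolynomial (Fin e) (MvPolynomial (Fin m) k) →ₐ[k] MvPolynomial (Fin e) κ₁ :=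
    MvPolynomial.mapAlgHom (MvPolynomial.aeval T : MvPolynomial (Fin m) k →ₐ[k] κ₁)
  have h3 : Function.Injective A3 := by
    intro p q hpq
    exact MvPolynomial.map_injective _ hT hpq
  have hcomp : (MvPolynomial.aeval (Fin.append (fun a => (MvPolynomial.C (T a) :
      MvPolynomial (Fin e) κ₁)) MvPolynomial.X) :
        MvPolynomial (Fin (m + e)) k →ₐ[k] MvPolynomial (Fin e) κ₁) =
      A3.comp (A2.toAlgHom.comp A1) := by
    apply MvPolynomial.algHom_ext
    intro a
    rw [MvPolynomial.aeval_X]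
    refine Fin.addCases (fun a => ?_) (fun a => ?_) a
    · rw [Fin.append_left]
      have e1 : A1 (MvPolynomial.X (Fin.castAdd e a)) = MvPolynomial.X (Sum.inr a) := by
        simp [A1, r]
      change _ = A3 (A2 (A1 (MvPolynomial.X (Fin.castAdd e a))))
      rw [e1, MvPolynomial.sumAlgEquiv_X_inr]
      simp [A3]
    · rw [Fin.append_right]
      have e1 : A1 (MvPolynomial.X (Fin.natAdd m a)) = MvPolynomial.X (Sum.inl a) := by
        simp [A1, r]
      change _ = A3 (A2 (A1 (MvPolynomial.X (Fin.natAdd m a))))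
      rw [e1, MvPolynomial.sumAlgEquiv_X_inl]
      simp [A3]
  rw [hcomp]
  intro p q hpq
  have h4 := h3 hpq
  have h5 := A2.injective h4
  exact MvPolynomial.rename_injective r hr h5

theorem pSep : StConeEx → StWH → StFlag → StSep := by
  intro hCE hWH hFlag k _ h2 t' c e n M hn hce hc C σ hdet hAn hGP j
  classical
  -- the residual field
  have h2K : (2 : KT k (t' + 1)) ≠ 0 := by
    rw [← map_ofNat (algebraMap k (KT k (t' + 1))) 2]
    exact (map_ne_zero (algebraMap k (KT k (t' + 1)))).2 h2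
  let G : Fin M → Fin (c + e) → MvPolynomial (Fin (t' + 1)) k := fun i l =>
    bs (bfam e C) (σ i * (σ j)⁻¹)
      (Fin.append (fun a : Fin (t' + 1) => (MvPolynomial.X a : MvPolynomial (Fin (t' + 1)) k))
        (fun _ : Fin e => 0)) l
  have hG : ∀ i, i ≠ j → ∀ l, G i l ≠ 0 := fun i hi l => hGP i j hi l
  have hinjK : Function.Injective (algebraMap (MvPolynomial (Fin (t' + 1)) k) (KT k (t' + 1))) :=
    IsFractionRing.injective _ _
  obtain ⟨κ₁, _, φ₁, hP1, hcone⟩ := cones_Sep hCE hWH h2K (n - 1) (c + 1) (c + e) (by omega)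
    (by
      have : n - 1 - 1 = n - 2 := by omega
      rw [this]; omega) (by rw [hce]) (one (toKT C)) hAn (I := {i : Fin M // i ≠ j})
    Finset.univ (fun i l => algebraMap _ (KT k (t' + 1)) (G i.1 l))
    (fun i l => (map_ne_zero_iff _ hinjK).2 (hG i.1 i.2 l))
  have h2κ : (2 : κ₁) ≠ 0 := by
    rw [← map_ofNat φ₁ 2]
    exact (map_ne_zero φ₁).2 h2K
  obtain ⟨S, _, j₁, s, hs, hsq, han⟩ := hFlag κ₁ h2κ e
  let algκ : Algebra k κ₁ := (φ₁.comp (algebraMap k (KT k (t' + 1)))).toAlgebra
  let algS : Algebra k S := (j₁.comp (algebraMap k κ₁)).toAlgebra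
  let φa : KT k (t' + 1) →ₐ[k] κ₁ := { φ₁ with commutes' := fun r => rfl }
  let ja : κ₁ →ₐ[k] S := { j₁ with commutes' := fun r => rfl }
  let ev : MvPolynomial (Fin e) κ₁ →ₐ[k] S :=
    { MvPolynomial.eval₂Hom j₁ s with
      commutes' := fun r => by
        have : algebraMap k (MvPolynomial (Fin e) κ₁) r = MvPolynomial.C (algebraMap k κ₁ r) := rfl
        rw [this]
        exact MvPolynomial.eval₂Hom_C _ _ _ }
  let cc : MvPolynomial (Fin e) κ₁ →ₐ[k] κ₁ :=
    { (MvPolynomial.constantCoeff : MvPolynomial (Fin e) κ₁ →+* κ₁) with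
      commutes' := fun r => by
        have : algebraMap k (MvPolynomial (Fin e) κ₁) r = MvPolynomial.C (algebraMap k κ₁ r) := rfl
        rw [this]
        exact MvPolynomial.constantCoeff_C _ _ }
  have hφa : ∀ z, φa z = φ₁ z := fun z => rfl
  have hja : ∀ z, ja z = j₁ z := fun z => rfl
  have hev : ∀ z, ev z = MvPolynomial.eval₂Hom j₁ s z := fun z => rfl
  have hcc : ∀ z, cc z = MvPolynomial.constantCoeff z := fun z => rfl
  let T : Fin (t' + 1) → κ₁ := fun a => φa (tv k (t' + 1) a)
  let μ : MvPolynomial (Fin (t' + 1)) k →ₐ[k] κ₁ :=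
    φa.comp (Algebra.ofId (MvPolynomial (Fin (t' + 1)) k) (KT k (t' + 1)) |>.restrictScalars k)
  have hμ : ∀ p, μ p = φ₁ (algebraMap _ (KT k (t' + 1)) p) := fun p => rfl
  have hμT : (MvPolynomial.aeval T : MvPolynomial (Fin (t' + 1)) k →ₐ[k] κ₁) = μ := by
    apply MvPolynomial.algHom_ext
    intro a
    rw [MvPolynomial.aeval_X]
    rfl
  have hT : Function.Injective
      (MvPolynomial.aeval T : MvPolynomial (Fin (t' + 1)) k →ₐ[k] κ₁) := by
    rw [hμT]
    exact φ₁.injective.comp hinjK
  let W₀ : Fin (t' + 1 + e) → MvPolynomial (Fin e) κ₁ :=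
    Fin.append (fun a => (MvPolynomial.C (T a) : MvPolynomial (Fin e) κ₁)) MvPolynomial.X
  let W : Fin (t' + 1 + e) → S := fun a => ev (W₀ a)
  have hW₀ : Function.Injective
      (MvPolynomial.aeval W₀ : MvPolynomial (Fin (t' + 1 + e)) k →ₐ[k] MvPolynomial (Fin e) κ₁) :=
    inj_Sep T hT
  have hW : Function.Injective
      (MvPolynomial.aeval W : MvPolynomial (Fin (t' + 1 + e)) k →ₐ[k] S) := by
    intro p q hpq
    rw [aeval_map_Sep, aeval_map_Sep] at hpq
    exact hW₀ (hs hpq)
  have hunit : (σ j)⁻¹ * σ j = 1 := Matrix.nonsing_inv_mul _ (isUnit_iff_ne_zero.2 (hdet j))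
  have hunit' : σ j * (σ j)⁻¹ = 1 := Matrix.mul_nonsing_inv _ (isUnit_iff_ne_zero.2 (hdet j))
  let W' : Fin (t' + 1 + e) → S := lin (σ j)⁻¹ W
  have hW' : Function.Injective
      (MvPolynomial.aeval W' : MvPolynomial (Fin (t' + 1 + e)) k →ₐ[k] S) := by
    let sB : MvPolynomial (Fin (t' + 1 + e)) k →ₐ[k] MvPolynomial (Fin (t' + 1 + e)) k :=
      MvPolynomial.aeval (lin (σ j)⁻¹ MvPolynomial.X)
    let sA : MvPolynomial (Fin (t' + 1 + e)) k →ₐ[k] MvPolynomial (Fin (t' + 1 + e)) k :=
      MvPolynomial.aeval (lin (σ j) MvPolynomial.X)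
    have h1 : sA.comp sB = AlgHom.id k _ := by
      apply MvPolynomial.algHom_ext
      intro a
      have e1 : sB (MvPolynomial.X a) = lin (σ j)⁻¹ MvPolynomial.X a := by
        simp only [sB, MvPolynomial.aeval_X]
      have e2 : (fun a => sA (MvPolynomial.X a)) = lin (σ j) MvPolynomial.X := by
        funext a
        simp only [sA, MvPolynomial.aeval_X]
      have e3 := congrFun (lin_map_Sep (σ j)⁻¹ sA
        (MvPolynomial.X : Fin (t' + 1 + e) → MvPolynomial (Fin (t' + 1 + e)) k)) a
      rw [e2, lin_lin_Sep, hunit, lin_one_Sep] at e3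
      rw [AlgHom.comp_apply, e1, ← e3]
      rfl
    have h2 : Function.Injective sB := by
      intro p q hpq
      have := congrArg sA hpq
      have e1 : ∀ p, sA (sB p) = p := fun p => by
        have := congrArg (fun f : MvPolynomial (Fin (t' + 1 + e)) k →ₐ[k] _ => f p) h1
        exact this
      rwa [e1, e1] at this
    have h3 : (MvPolynomial.aeval W' : MvPolynomial (Fin (t' + 1 + e)) k →ₐ[k] S) =
        (MvPolynomial.aeval W).comp sB := by
      apply MvPolynomial.algHom_ext
      intro a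
      have e1 : sB (MvPolynomial.X a) = lin (σ j)⁻¹ MvPolynomial.X a := by
        simp only [sB, MvPolynomial.aeval_X]
      rw [AlgHom.comp_apply, e1, MvPolynomial.aeval_X]
      have e3 := congrFun (lin_map_Sep (σ j)⁻¹
        (MvPolynomial.aeval W : MvPolynomial (Fin (t' + 1 + e)) k →ₐ[k] S)
        (MvPolynomial.X : Fin (t' + 1 + e) → MvPolynomial (Fin (t' + 1 + e)) k)) a
      rw [← e3]
      simp only [MvPolynomial.aeval_X]
      rfl
    rw [h3]
    exact hW.comp h2
  let ψ : KT k (t' + 1 + e) →ₐ[k] S := IsFractionRing.liftAlgHom hW'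
  have hψ : ∀ p, ψ (algebraMap _ (KT k (t' + 1 + e)) p) = MvPolynomial.aeval W' p := fun p =>
    IsFractionRing.lift_algebraMap hW' p
  have hψtv : (fun a => ψ (tv k (t' + 1 + e) a)) = W' := by
    funext a
    unfold tv
    rw [hψ, MvPolynomial.aeval_X]
  -- the forms over `S`
  have hform : ∀ i, im ψ.toRingHom (one (bs (bfam e C) (σ i) (tv k (t' + 1 + e)))) =
      one (bs (bfam e C) (σ i * (σ j)⁻¹) W) := by
    intro i
    rw [one_im_Sep]
    congr 1
    funext l
    have e1 := bs_map_Sep (bfam e C) (σ i) ψ (tv k (t' + 1 + e)) l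
    rw [hψtv] at e1
    change ψ _ = _
    rw [← e1]
    unfold bs
    rw [lin_lin_Sep]
  refine ⟨S, inferInstance, ψ.toRingHom, ?_, ?_⟩
  · -- the form number `j`
    rw [hform, hunit']
    have hb1 : bs (bfam e C) (1 : Matrix _ _ k) W = Fin.append
        (fun l => j₁ (φ₁ (toKT C l))) (fun l => j₁ (T 0) * s l) := by
      funext l
      unfold bs
      rw [lin_one_Sep]
      have hWc : ∀ a, W (Fin.castAdd e a) = j₁ (T a) := by
        intro a
        change ev (W₀ (Fin.castAdd e a)) = _
        have : W₀ (Fin.castAdd e a) = MvPolynomial.C (T a) := Fin.append_left _ _ _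
        rw [this, hev]
        exact MvPolynomial.eval₂Hom_C _ _ _
      have hWn : ∀ a, W (Fin.natAdd (t' + 1) a) = s a := by
        intro a
        change ev (W₀ (Fin.natAdd (t' + 1) a)) = _
        have : W₀ (Fin.natAdd (t' + 1) a) = MvPolynomial.X a := Fin.append_right _ _ _
        rw [this, hev]
        exact MvPolynomial.eval₂Hom_X' _ _ _
      refine Fin.addCases (fun l => ?_) (fun l => ?_) l
      · rw [Fin.append_left]
        unfold bfam
        rw [Fin.append_left, MvPolynomial.aeval_rename]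
        have : W ∘ Fin.castAdd e = fun a => ja (T a) := by
          funext a
          exact hWc a
        rw [this, aeval_map_Sep, hμT]
        rfl
      · rw [Fin.append_right]
        unfold bfam
        rw [Fin.append_right, map_mul, MvPolynomial.aeval_X, MvPolynomial.aeval_X, hWn, hWc]
    rw [hb1]
    have hT0 : T 0 ≠ 0 := by
      intro h0
      have h1 : (MvPolynomial.aeval T : MvPolynomial (Fin (t' + 1)) k →ₐ[k] κ₁)
          (MvPolynomial.X 0) = (MvPolynomial.aeval T : _ →ₐ[k] κ₁) 0 := by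
        rw [MvPolynomial.aeval_X, map_zero, h0]
      exact MvPolynomial.X_ne_zero _ (hT h1)
    have hS := han (c + 1) (im φ₁ (one (toKT C))) (T 0) hT0 hP1
    intro x hx
    let z : Fin (c + 1) ⊕ Fin e → S := Sum.elim
      (Fin.cons (x 0) (fun l : Fin c => x (Fin.castAdd e l).succ))
      (fun l : Fin e => x (Fin.natAdd c l).succ)
    have hz : qf (Sum.elim (im j₁ (im φ₁ (one (toKT C)))) (fun l => j₁ (T 0) * s l)) z = 0 := by
      rw [qf_sumElim, ← hx, qf_one_Sep, one_im_Sep, one_im_Sep, qf_one_Sep]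
      have e1 : qf (Fin.append (fun l => j₁ (φ₁ (toKT C l))) (fun l => j₁ (T 0) * s l))
          (fun l => x l.succ) = qf (im j₁ (im φ₁ (toKT C))) (fun l : Fin c => x (Fin.castAdd e l).succ)
          + qf (fun l => j₁ (T 0) * s l) (fun l : Fin e => x (Fin.natAdd c l).succ) := by
        unfold qf
        rw [Fin.sum_univ_add]
        simp only [Fin.append_left, Fin.append_right]
        rfl
      rw [e1]
      rw [add_assoc]
      rfl
    have hz0 := hS z hz
    funext l
    refine Fin.cases ?_ (fun l => ?_) l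
    · exact congrFun hz0 (Sum.inl 0)
    · refine Fin.addCases (fun l => ?_) (fun l => ?_) l
      · exact congrFun hz0 (Sum.inl l.succ)
      · exact congrFun hz0 (Sum.inr l)
  · intro i hi hA
    rw [hform] at hA
    set A := σ i * (σ j)⁻¹ with hAdef
    -- values at `s`
    have hval : ∀ l, ∃ h : S, h ≠ 0 ∧
        bs (bfam e C) A W l = j₁ (φ₁ (algebraMap _ (KT k (t' + 1)) (G i l))) * h ^ 2 := by
      intro l
      have e1 : bs (bfam e C) A W l = ev (bs (bfam e C) A W₀ l) := bs_map_Sep _ _ ev W₀ l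
      have e2 : MvPolynomial.constantCoeff (bs (bfam e C) A W₀ l) =
          φ₁ (algebraMap _ (KT k (t' + 1)) (G i l)) := by
        rw [← hcc, ← bs_map_Sep, ← hμ, ← hμT]
        have e3 : (fun a => cc (W₀ a)) = fun a => (MvPolynomial.aeval T :
            MvPolynomial (Fin (t' + 1)) k →ₐ[k] κ₁) ((Fin.append (fun a : Fin (t' + 1) =>
              (MvPolynomial.X a : MvPolynomial (Fin (t' + 1)) k)) (fun _ : Fin e => 0) :
                Fin (t' + 1 + e) → _) a) := by
          funext a
          refine Fin.addCases (fun a => ?_) (fun a => ?_) a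
          · have : W₀ (Fin.castAdd e a) = MvPolynomial.C (T a) := Fin.append_left _ _ _
            rw [this, Fin.append_left, MvPolynomial.aeval_X, hcc, MvPolynomial.constantCoeff_C]
          · have : W₀ (Fin.natAdd (t' + 1) a) = MvPolynomial.X a := Fin.append_right _ _ _
            rw [this, Fin.append_right, map_zero, hcc, MvPolynomial.constantCoeff_X]
        rw [e3, bs_map_Sep]
      have e4 : φ₁ (algebraMap _ (KT k (t' + 1)) (G i l)) ≠ 0 :=
        (map_ne_zero φ₁).2 ((map_ne_zero_iff _ hinjK).2 (hG i hi l))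
      obtain ⟨h, hh, hh2⟩ := hsq (bs (bfam e C) A W₀ l) (by rw [e2]; exact e4)
      refine ⟨h, hh, ?_⟩
      rw [e1, hev, hh2, e2]
    choose h hh hh2 using hval
    have hE : Emb (im j₁ (im φ₁ (one (fun l => algebraMap _ (KT k (t' + 1)) (G i l)))))
        (one (bs (bfam e C) A W)) := by
      have h1 := Emb.sq (one (bs (bfam e C) A W)) (Fin.cons 1 (fun l => (h l)⁻¹))
      have h2 : (fun l => one (bs (bfam e C) A W) l *
          (Fin.cons 1 (fun l => (h l)⁻¹) : Fin (c + e + 1) → S) l ^ 2) =
          im j₁ (im φ₁ (one (fun l => algebraMap _ (KT k (t' + 1)) (G i l)))) := by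
        rw [one_im_Sep, one_im_Sep]
        funext l
        refine Fin.cases ?_ (fun l => ?_) l
        · simp [one]
        · simp only [one, Fin.cons_succ, im]
          rw [hh2 l]
          have := hh l
          field_simp
      rw [h2] at h1
      exact h1
    have hne : ∀ l, im j₁ (im φ₁ (one (fun l => algebraMap _ (KT k (t' + 1)) (G i l)))) l ≠ 0 := by
      rw [one_im_Sep, one_im_Sep]
      intro l
      refine Fin.cases ?_ (fun l => ?_) l
      · simp [one]
      · simp only [one, Fin.cons_succ, im]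
        exact (map_ne_zero j₁).2 ((map_ne_zero φ₁).2 ((map_ne_zero_iff _ hinjK).2 (hG i hi l)))
    exact hcone ⟨i, hi⟩ (Finset.mem_univ _) (Aniso.of_im (Aniso.of_emb hA hne hE))

end Pool.Agent.Helper44.RED
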