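import Pool.Agent.Helper44.RED.StC

/-!
# Project RED: module Sigma (existence of the translations)
-/

set_option autoImplicit false

namespace Pool.Agent.Helper44.RED

section

variable {k : Type} [Field k] {t s : ℕ}

private lemma lin_mulVec_Sigma (A : Matrix (Fin t) (Fin t) k) (u : Fin t → k) :
    lin A u = A.mulVec u := by
  funext j; simp [lin, Matrix.mulVec, dotProduct]

private lemma lin_mul_Sigma {F : Type} [CommRing F] [Algebra k F]
    (A B : Matrix (Fin t) (Fin t) k) (τ : Fin t → F) : lin (A * B) τ = lin A (lin B τ) := by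
  funext j
  simp only [lin, Matrix.mul_apply, map_sum, map_mul, Finset.sum_mul, Finset.mul_sum]
  rw [Finset.sum_comm]
  exact Finset.sum_congr rfl fun i _ => Finset.sum_congr rfl fun i' _ => by ring

private lemma bs_map_Sigma {F F' : Type} [CommRing F] [Algebra k F] [CommRing F'] [Algebra k F']
    (f : F →ₐ[k] F') (b : Fin s → MvPolynomial (Fin t) k) (A : Matrix (Fin t) (Fin t) k)
    (τ : Fin t → F) (l : Fin s) : f (bs b A τ l) = bs b A (fun j => f (τ j)) l := by
  unfold bs
  have h1 : (fun j => f (lin A τ j)) = lin A (fun j => f (τ j)) := by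
    funext j
    simp only [lin, map_sum, map_mul, AlgHom.commutes]
  have h2 := MvPolynomial.comp_aeval_apply (lin A τ) f (b l)
  rw [h2]
  congr 1
  rw [← h1]

private lemma prod_bs_Sigma {F : Type} [CommRing F] [Algebra k F]
    (b : Fin s → MvPolynomial (Fin t) k) (A : Matrix (Fin t) (Fin t) k) (τ : Fin t → F) :
    ∏ l, bs b A τ l = MvPolynomial.aeval (lin A τ) (∏ l, b l) := by
  rw [map_prod]; rfl

/-- generic matrix -/
private noncomputable def Gn_Sigma (k : Type) [Field k] (t : ℕ) :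
    Matrix (Fin t) (Fin t) (MvPolynomial (Fin t × Fin t) k) :=
  Matrix.of fun i j => MvPolynomial.X (i, j)

private lemma map_Gn_Sigma (x : Fin t × Fin t → k) :
    (Gn_Sigma k t).map (MvPolynomial.eval x) = Matrix.of fun i j => x (i, j) := by
  ext i j; simp [Gn_Sigma]

private lemma eval_det_Sigma (x : Fin t × Fin t → k) :
    MvPolynomial.eval x (Gn_Sigma k t).det = (Matrix.of fun i j => x (i, j)).det := by
  rw [RingHom.map_det]
  congr 1
  exact map_Gn_Sigma x

private lemma eval_mulVec_Sigma (x : Fin t × Fin t → k) (P : MvPolynomial (Fin t) k)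
    (B : Matrix (Fin t) (Fin t) (MvPolynomial (Fin t × Fin t) k)) (u : Fin t → k) :
    MvPolynomial.eval x (MvPolynomial.aeval (B.mulVec (fun j => MvPolynomial.C (u j))) P) =
      MvPolynomial.aeval ((B.map (MvPolynomial.eval x)).mulVec u) P := by
  have h2 := MvPolynomial.comp_aeval_apply (B.mulVec (fun j => MvPolynomial.C (u j)))
    (MvPolynomial.aeval x : MvPolynomial (Fin t × Fin t) k →ₐ[k] k) P
  rw [MvPolynomial.aeval_eq_eval] at h2
  refine h2.trans ?_
  congr 2
  funext j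
  simp [Matrix.mulVec, dotProduct]

private lemma aeval_smul_Sigma {P : MvPolynomial (Fin t) k} {D : ℕ} (hP : P.IsHomogeneous D)
    (c : k) (u : Fin t → k) :
    MvPolynomial.aeval (c • u) P = c ^ D * (MvPolynomial.aeval u P : k) := by
  rw [MvPolynomial.aeval_def, MvPolynomial.aeval_def, MvPolynomial.eval₂_eq', MvPolynomial.eval₂_eq',
    Finset.mul_sum]
  refine Finset.sum_congr rfl fun d hd => ?_
  have h1 : ∏ i, (c • u) i ^ d i = c ^ D * ∏ i, u i ^ d i := by
    have h2 : ∑ i, d i = D := by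
      have := hP (MvPolynomial.mem_support_iff.1 hd)
      rw [← this, Finsupp.weight_apply, Finsupp.sum_fintype _ _ (by simp)]
      simp
    simp only [Pi.smul_apply, smul_eq_mul, mul_pow, Finset.prod_mul_distrib]
    rw [Finset.prod_pow_eq_pow_sum, h2]
  rw [h1]; ring

variable [Infinite k]

private lemma ex_eval_Sigma {ι : Type} {P : MvPolynomial ι k} (hP : P ≠ 0) :
    ∃ x : ι → k, MvPolynomial.eval x P ≠ 0 := by
  by_contra h
  push Not at h
  exact hP (MvPolynomial.funext fun x => by rw [h x, map_zero])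

/-- the polynomial `P(A u)` in the entries of `A` is not zero -/
private lemma phi_ne_Sigma {P : MvPolynomial (Fin t) k} (hP : P ≠ 0)
    (B : Matrix (Fin t) (Fin t) k) (hB : IsUnit B.det) {u : Fin t → k} (hu : u ≠ 0) :
    (MvPolynomial.aeval ((B.map MvPolynomial.C * Gn_Sigma k t).mulVec
      (fun j => MvPolynomial.C (u j))) P : MvPolynomial (Fin t × Fin t) k) ≠ 0 := by
  obtain ⟨z, hz⟩ := ex_eval_Sigma hP
  obtain ⟨j₀, hj₀⟩ := Function.ne_iff.1 hu
  have hj₀' : u j₀ ≠ 0 := hj₀
  intro h0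
  let z' : Fin t → k := B⁻¹.mulVec z
  let x : Fin t × Fin t → k := fun p => if p.2 = j₀ then z' p.1 / u j₀ else 0
  have h1 := eval_mulVec_Sigma x P (B.map MvPolynomial.C * Gn_Sigma k t) u
  rw [h0, map_zero] at h1
  have h2 : ((B.map MvPolynomial.C * Gn_Sigma k t).map (MvPolynomial.eval x)).mulVec u = z := by
    rw [Matrix.map_mul, map_Gn_Sigma, Matrix.map_map]
    have h3 : B.map ((MvPolynomial.eval x) ∘ MvPolynomial.C) = B := by
      ext i j; simp
    rw [h3, ← Matrix.mulVec_mulVec]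
    have h4 : (Matrix.of fun i j => x (i, j)).mulVec u = z' := by
      funext i
      simp only [Matrix.mulVec, dotProduct, Matrix.of_apply, x]
      rw [Finset.sum_eq_single j₀]
      · rw [if_pos rfl]; field_simp
      · intro j _ hj; rw [if_neg hj, zero_mul]
      · intro h; exact absurd (Finset.mem_univ _) h
    rw [h4, Matrix.mulVec_mulVec, Matrix.mul_nonsing_inv _ hB, Matrix.one_mulVec]
  rw [h2] at h1
  apply hz
  rw [← MvPolynomial.aeval_eq_eval]
  exact h1.symm

private lemma psi_ne_Sigma {P : MvPolynomial (Fin t) k} (hP : P ≠ 0) {D : ℕ}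
    (hD : P.IsHomogeneous D)
    (B : Matrix (Fin t) (Fin t) k) (hB : IsUnit B.det) {u : Fin t → k} (hu : u ≠ 0) :
    (MvPolynomial.aeval ((B.map MvPolynomial.C * (Gn_Sigma k t).adjugate).mulVec
      (fun j => MvPolynomial.C (u j))) P : MvPolynomial (Fin t × Fin t) k) ≠ 0 := by
  have hdet : (Gn_Sigma k t).det ≠ 0 := by
    intro h0
    have h1 := eval_det_Sigma (k := k) (t := t) (fun p => if p.1 = p.2 then 1 else 0)
    rw [h0, map_zero] at h1
    have h2 : (Matrix.of fun i j : Fin t => if i = j then (1 : k) else 0) = 1 := by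
      ext i j; simp [Matrix.one_apply]
    simp only at h1
    rw [h2, Matrix.det_one] at h1
    exact zero_ne_one h1
  obtain ⟨x, hx⟩ := ex_eval_Sigma (mul_ne_zero (phi_ne_Sigma hP B hB hu) hdet)
  rw [map_mul, eval_mulVec_Sigma, eval_det_Sigma, Matrix.map_mul, map_Gn_Sigma,
    Matrix.map_map] at hx
  have h3 : ∀ x : Fin t × Fin t → k, B.map ((MvPolynomial.eval x) ∘ MvPolynomial.C) = B := by
    intro x; ext i j; simp
  rw [h3] at hx
  set A : Matrix (Fin t) (Fin t) k := Matrix.of fun i j => x (i, j) with hA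
  have hAd : A.det ≠ 0 := right_ne_zero_of_mul hx
  have hAv := left_ne_zero_of_mul hx
  intro h0
  let x' : Fin t × Fin t → k := fun p => A⁻¹ p.1 p.2
  have h1 := eval_mulVec_Sigma x' P (B.map MvPolynomial.C * (Gn_Sigma k t).adjugate) u
  rw [h0, map_zero] at h1
  apply hAv
  have h4 : ((B.map MvPolynomial.C * (Gn_Sigma k t).adjugate).map (MvPolynomial.eval x')) =
      (A⁻¹).det • (B * A) := by
    rw [Matrix.map_mul, Matrix.map_map, h3]
    have h5 : (Gn_Sigma k t).adjugate.map (MvPolynomial.eval x') = (A⁻¹).adjugate := by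
      have := RingHom.map_adjugate (MvPolynomial.eval x') (Gn_Sigma k t)
      rw [RingHom.mapMatrix_apply, RingHom.mapMatrix_apply, map_Gn_Sigma] at this
      exact this
    rw [h5]
    have hu' : IsUnit A.det := isUnit_iff_ne_zero.2 hAd
    have h6 : (A⁻¹).adjugate = (A⁻¹).det • A := by
      have h7 : (A⁻¹).adjugate * A⁻¹ = (A⁻¹).det • (1 : Matrix (Fin t) (Fin t) k) :=
        Matrix.adjugate_mul _
      calc (A⁻¹).adjugate = (A⁻¹).adjugate * (A⁻¹ * A) := by
            rw [Matrix.nonsing_inv_mul _ hu', mul_one]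
        _ = (A⁻¹).det • A := by rw [← mul_assoc, h7, Matrix.smul_mul, one_mul]
    rw [h6, Matrix.mul_smul]
  rw [h4, Matrix.smul_mulVec, aeval_smul_Sigma hD] at h1
  rcases mul_eq_zero.1 h1.symm with h5 | h5
  · exfalso
    have hne : (A⁻¹).det ≠ 0 := by
      rw [Matrix.det_nonsing_inv]
      rw [Ring.inverse_eq_inv']
      exact inv_ne_zero hAd
    exact pow_ne_zero _ hne h5
  · exact h5

end

theorem pSigma : StSigma := by
  intro k _ _ t' e s b hb0 hbh
  classical
  set P : MvPolynomial (Fin (t' + 1 + e)) k := ∏ l, b l with hPdef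
  have hP : P ≠ 0 := Finset.prod_ne_zero_iff.2 fun l _ => hb0 l
  choose Dl hDl using hbh
  have hPD : P.IsHomogeneous (∑ l, Dl l) :=
    MvPolynomial.IsHomogeneous.prod Finset.univ b Dl fun l _ => hDl l
  -- the ideal of a family
  let J : (Σ M : ℕ, (Fin M → Matrix (Fin (t' + 1 + e)) (Fin (t' + 1 + e)) k)) → Ideal (MvPolynomial (Fin (t' + 1 + e)) k) :=
    fun σ => Ideal.span (Set.range fun i => ∏ l, bs b (σ.2 i)
      (MvPolynomial.X : Fin (t' + 1 + e) → MvPolynomial (Fin (t' + 1 + e)) k) l)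
  let good : Set (Σ M : ℕ, (Fin M → Matrix (Fin (t' + 1 + e)) (Fin (t' + 1 + e)) k)) :=
    {σ | 1 ≤ σ.1 ∧ (∀ i, (σ.2 i).det ≠ 0) ∧ GP b σ.2}
  have hgood1 : (⟨1, fun _ => 1⟩ : Σ M : ℕ, (Fin M → Matrix (Fin (t' + 1 + e)) (Fin (t' + 1 + e)) k)) ∈ good := by
    refine ⟨le_rfl, fun i => by simp, ?_⟩
    intro i j hij
    exact absurd (Subsingleton.elim i j) hij
  obtain ⟨J₀, ⟨⟨M, σ⟩, hσ, rfl⟩, hmax⟩ := WellFounded.has_min
    (wellFounded_gt (α := Ideal (MvPolynomial (Fin (t' + 1 + e)) k))) (J '' good)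
    ⟨_, ⟨_, hgood1, rfl⟩⟩
  obtain ⟨hM, hdet, hGP⟩ := hσ
  simp only at hM hdet hGP
  refine ⟨M, σ, hM, hdet, hGP, ?_⟩
  intro z hz
  by_contra hz0
  -- the base vector
  let v₀ : Fin (t' + 1 + e) → k := Fin.append (Pi.single 0 1 : Fin (t' + 1) → k) (0 : Fin e → k)
  have hv₀ : v₀ ≠ 0 := by
    intro h
    have := congrFun h (Fin.castAdd e 0)
    simp [v₀] at this
  have hinvne : ∀ i : Fin M, (σ i)⁻¹.mulVec v₀ ≠ 0 := by
    intro i h
    apply hv₀
    have h1 : (σ i).mulVec ((σ i)⁻¹.mulVec v₀) = v₀ := by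
      rw [Matrix.mulVec_mulVec, Matrix.mul_nonsing_inv _ (isUnit_iff_ne_zero.2 (hdet i)),
        Matrix.one_mulVec]
    rw [← h1, h, Matrix.mulVec_zero]
  let G := Gn_Sigma k (t' + 1 + e)
  let one' : Matrix (Fin (t' + 1 + e)) (Fin (t' + 1 + e)) k := 1
  let Φ : (Fin (t' + 1 + e) → k) → MvPolynomial (Fin (t' + 1 + e) × Fin (t' + 1 + e)) k := fun u =>
    MvPolynomial.aeval ((one'.map MvPolynomial.C * G).mulVec (fun j => MvPolynomial.C (u j))) P
  let Ψ : Fin M → MvPolynomial (Fin (t' + 1 + e) × Fin (t' + 1 + e)) k := fun i =>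
    MvPolynomial.aeval (((σ i).map MvPolynomial.C * G.adjugate).mulVec
      (fun j => MvPolynomial.C (v₀ j))) P
  have hdetG : G.det ≠ 0 := by
    intro h0
    have h1 := eval_det_Sigma (k := k) (t := t' + 1 + e) (fun p => if p.1 = p.2 then 1 else 0)
    have h2 : (Matrix.of fun i j : Fin (t' + 1 + e) => if i = j then (1 : k) else 0) = 1 := by
      ext i j; simp [Matrix.one_apply]
    simp only at h1
    rw [h2, Matrix.det_one] at h1
    change MvPolynomial.eval _ G.det = 1 at h1
    rw [h0, map_zero] at h1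
    exact zero_ne_one h1
  have hΦ : ∀ u, u ≠ 0 → Φ u ≠ 0 := fun u hu => phi_ne_Sigma hP one' (by simp [one']) hu
  have hΨ : ∀ i, Ψ i ≠ 0 := fun i =>
    psi_ne_Sigma hP hPD (σ i) (isUnit_iff_ne_zero.2 (hdet i)) hv₀
  have hall : G.det * Φ z * (∏ i, Φ ((σ i)⁻¹.mulVec v₀)) * (∏ i, Ψ i) ≠ 0 :=
    mul_ne_zero (mul_ne_zero (mul_ne_zero hdetG (hΦ z hz0))
      (Finset.prod_ne_zero_iff.2 fun i _ => hΦ _ (hinvne i)))
      (Finset.prod_ne_zero_iff.2 fun i _ => hΨ i)
  obtain ⟨x, hx⟩ := ex_eval_Sigma hall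
  rw [map_mul, map_mul, map_mul, map_prod, map_prod] at hx
  have hx1 := left_ne_zero_of_mul (left_ne_zero_of_mul (left_ne_zero_of_mul hx))
  have hx2 := right_ne_zero_of_mul (left_ne_zero_of_mul (left_ne_zero_of_mul hx))
  have hx3 := right_ne_zero_of_mul (left_ne_zero_of_mul hx)
  have hx4 := right_ne_zero_of_mul hx
  set A : Matrix (Fin (t' + 1 + e)) (Fin (t' + 1 + e)) k := Matrix.of fun i j => x (i, j) with hA
  have hAd : A.det ≠ 0 := by
    have := eval_det_Sigma (k := k) (t := t' + 1 + e) x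
    rw [← hA] at this
    rw [← this]; exact hx1
  have hC : ∀ B : Matrix (Fin (t' + 1 + e)) (Fin (t' + 1 + e)) k,
      B.map ((MvPolynomial.eval x) ∘ MvPolynomial.C) = B := by
    intro B; ext i j; simp
  have hΦv : ∀ u, MvPolynomial.eval x (Φ u) = MvPolynomial.aeval (A.mulVec u) P := by
    intro u
    have h1 := eval_mulVec_Sigma x P (one'.map MvPolynomial.C * G) u
    rw [Matrix.map_mul, Matrix.map_map, hC, map_Gn_Sigma, ← hA] at h1
    rw [show one' * A = A from one_mul A] at h1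
    exact h1
  have hΨv : ∀ i, MvPolynomial.eval x (Ψ i) =
      MvPolynomial.aeval (((σ i) * A.adjugate).mulVec v₀) P := by
    intro i
    have h1 := eval_mulVec_Sigma x P ((σ i).map MvPolynomial.C * G.adjugate) v₀
    have h5 : G.adjugate.map (MvPolynomial.eval x) = A.adjugate := by
      have := RingHom.map_adjugate (MvPolynomial.eval x) (Gn_Sigma k (t' + 1 + e))
      rw [RingHom.mapMatrix_apply, RingHom.mapMatrix_apply, map_Gn_Sigma] at this
      exact this
    rw [Matrix.map_mul, Matrix.map_map, hC, h5] at h1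
    exact h1
  -- the new family
  let σ' : Fin (M + 1) → Matrix (Fin (t' + 1 + e)) (Fin (t' + 1 + e)) k := Fin.snoc σ A
  have hσ'c : ∀ i : Fin M, σ' i.castSucc = σ i := fun i => by simp [σ']
  have hσ'l : σ' (Fin.last M) = A := by simp [σ']
  have hdet' : ∀ i, (σ' i).det ≠ 0 := by
    intro i
    refine Fin.lastCases ?_ (fun i => ?_) i
    · rw [hσ'l]; exact hAd
    · rw [hσ'c]; exact hdet i
  -- nonvanishing of polynomials
  have key : ∀ (B : Matrix (Fin (t' + 1 + e)) (Fin (t' + 1 + e)) k), MvPolynomial.aeval (B.mulVec v₀) P ≠ (0 : k) →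
      ∀ l, bs b B (Fin.append (fun a : Fin (t' + 1) =>
        (MvPolynomial.X a : MvPolynomial (Fin (t' + 1)) k)) (fun _ : Fin e => 0)) l ≠ 0 := by
    intro B hB l h0
    apply hB
    have h1 := bs_map_Sigma (MvPolynomial.aeval (Pi.single 0 1 : Fin (t' + 1) → k) :
      MvPolynomial (Fin (t' + 1)) k →ₐ[k] k) b B (Fin.append (fun a : Fin (t' + 1) =>
        (MvPolynomial.X a : MvPolynomial (Fin (t' + 1)) k)) (fun _ : Fin e => 0)) l
    rw [h0, map_zero] at h1
    have h2 : (fun j => (MvPolynomial.aeval (Pi.single 0 1 : Fin (t' + 1) → k) :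
      MvPolynomial (Fin (t' + 1)) k →ₐ[k] k) (Fin.append (fun a : Fin (t' + 1) =>
        (MvPolynomial.X a : MvPolynomial (Fin (t' + 1)) k)) (fun _ : Fin e => 0) j)) = v₀ := by
      funext j
      refine Fin.addCases (fun a => ?_) (fun a => ?_) j
      · simp [v₀]
      · simp [v₀]
    rw [h2] at h1
    rw [← lin_mulVec_Sigma, hPdef, ← prod_bs_Sigma]
    exact Finset.prod_eq_zero (Finset.mem_univ l) h1.symm
  have hGP' : GP b σ' := by
    intro i
    refine Fin.lastCases ?_ (fun i => ?_) i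
    · intro j
      refine Fin.lastCases ?_ (fun j => ?_) j
      · intro h; exact absurd rfl h
      · intro _
        rw [hσ'l, hσ'c]
        apply key
        rw [← Matrix.mulVec_mulVec, ← hΦv]
        exact Finset.prod_ne_zero_iff.1 hx3 j (Finset.mem_univ j)
    · intro j
      refine Fin.lastCases ?_ (fun j => ?_) j
      · intro _
        rw [hσ'l, hσ'c]
        apply key
        have h1 := Finset.prod_ne_zero_iff.1 hx4 i (Finset.mem_univ i)
        rw [hΨv] at h1
        have h2 : A.adjugate = A.det • A⁻¹ := by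
          rw [Matrix.inv_def, smul_smul, Ring.inverse_eq_inv', mul_inv_cancel₀ hAd, one_smul]
        rw [h2, Matrix.mul_smul, Matrix.smul_mulVec, aeval_smul_Sigma hPD] at h1
        exact right_ne_zero_of_mul h1
      · intro hij
        rw [hσ'c, hσ'c]
        exact hGP i j (fun h => hij (by rw [h]))
  have hgood' : (⟨M + 1, σ'⟩ : Σ M : ℕ, (Fin M → Matrix (Fin (t' + 1 + e)) (Fin (t' + 1 + e)) k)) ∈ good :=
    ⟨by simp, hdet', hGP'⟩
  refine hmax _ ⟨_, hgood', rfl⟩ ?_
  have hev : ∀ (B : Matrix (Fin (t' + 1 + e)) (Fin (t' + 1 + e)) k), MvPolynomial.eval z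
      (∏ l, bs b B (MvPolynomial.X : Fin (t' + 1 + e) → MvPolynomial (Fin (t' + 1 + e)) k) l) = ∏ l, bs b B z l := by
    intro B
    rw [map_prod]
    refine Finset.prod_congr rfl fun l _ => ?_
    have h1 := bs_map_Sigma (MvPolynomial.aeval z : MvPolynomial (Fin (t' + 1 + e)) k →ₐ[k] k) b B
      (MvPolynomial.X : Fin (t' + 1 + e) → MvPolynomial (Fin (t' + 1 + e)) k) l
    simp only [MvPolynomial.aeval_X, MvPolynomial.aeval_eq_eval] at h1
    exact h1
  refine lt_of_le_of_ne ?_ ?_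
  · refine Ideal.span_mono ?_
    rintro _ ⟨i, rfl⟩
    exact ⟨i.castSucc, by simp only [hσ'c]⟩
  · intro heq
    have hmem : (∏ l, bs b A (MvPolynomial.X : Fin (t' + 1 + e) → MvPolynomial (Fin (t' + 1 + e)) k) l) ∈
        J ⟨M + 1, σ'⟩ := by
      refine Ideal.subset_span ⟨Fin.last M, ?_⟩
      simp only [hσ'l]
    rw [← heq] at hmem
    have hle : J ⟨M, σ⟩ ≤ RingHom.ker (MvPolynomial.eval z) := by
      refine Ideal.span_le.2 ?_
      rintro _ ⟨i, rfl⟩
      show MvPolynomial.eval z _ = 0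
      rw [hev]
      exact hz i
    have h1 : MvPolynomial.eval z _ = 0 := hle hmem
    rw [hev, prod_bs_Sigma, lin_mulVec_Sigma] at h1
    apply hx2
    rw [hΦv]
    exact h1

end Pool.Agent.Helper44.RED
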