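import Pool.Agent.Helper44.RED.StB

/-!
# Project RED, module Slots
-/

set_option autoImplicit false

open Polynomial

namespace Pool.Agent.Helper44.RED

section Slots

variable {F : Type} [Field F] {n : ℕ}

private def Iso_Slots (x y : Fin n → F) : Prop := Emb (pf x) (pf y) ∧ Emb (pf y) (pf x)

private lemma Iso_refl_Slots (x : Fin n → F) : Iso_Slots x x := ⟨Emb.refl _, Emb.refl _⟩

private lemma Iso_trans_Slots {x y z : Fin n → F} (h : Iso_Slots x y) (h' : Iso_Slots y z) :
    Iso_Slots x z := ⟨h.1.trans h'.1, h'.2.trans h.2⟩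

private lemma sq1_Slots (x c : Fin n → F) : Emb (pf fun j => x j * c j ^ 2) (pf x) := by
  have e : (pf fun j => x j * c j ^ 2) = fun S => pf x S * (∏ j ∈ S, c j) ^ 2 := by
    funext S
    unfold pf
    rw [← Finset.prod_pow, ← Finset.prod_mul_distrib]
    exact Finset.prod_congr rfl fun j _ => by ring
  rw [e]
  exact Emb.sq _ _

private lemma sq_Slots (x c : Fin n → F) (hc : ∀ j, c j ≠ 0) :
    Iso_Slots (fun j => x j * c j ^ 2) x := by
  refine ⟨sq1_Slots x c, ?_⟩
  have e : x = fun j => (x j * c j ^ 2) * ((c j)⁻¹) ^ 2 := by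
    funext j
    have := hc j
    field_simp
  have h := sq1_Slots (fun j => x j * c j ^ 2) (fun j => (c j)⁻¹)
  rw [← e] at h
  exact h

private lemma perm1_Slots (x : Fin n → F) (π : Equiv.Perm (Fin n)) :
    Emb (pf fun j => x (π j)) (pf x) := by
  have e : (pf fun j => x (π j)) = fun S => pf x (S.map π.toEmbedding) := by
    funext S
    unfold pf
    rw [Finset.prod_map]
    rfl
  rw [e]
  exact Emb.comp_inj (pf x) (fun S : Finset (Fin n) => S.map π.toEmbedding)
    (Finset.map_injective _)

private lemma perm_Slots (x : Fin n → F) (π : Equiv.Perm (Fin n)) :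
    Iso_Slots (fun j => x (π j)) x := by
  refine ⟨perm1_Slots x π, ?_⟩
  have h := perm1_Slots (fun j => x (π j)) π.symm
  simp only [Equiv.apply_symm_apply] at h
  exact h

/-- the involution of the subsets -/
private def inv_Slots (i j : Fin n) (S : Finset (Fin n)) : Finset (Fin n) :=
  if j ∈ S then (if i ∈ S then S.erase i else insert i S) else S

private lemma inv_inv_Slots {i j : Fin n} (hij : i ≠ j) (S : Finset (Fin n)) :
    inv_Slots i j (inv_Slots i j S) = S := by
  unfold inv_Slots
  by_cases hj : j ∈ S
  · by_cases hi : i ∈ S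
    · have h1 : j ∈ S.erase i := Finset.mem_erase.mpr ⟨hij.symm, hj⟩
      simp only [hj, hi, if_true, h1, Finset.notMem_erase, if_false]
      exact Finset.insert_erase hi
    · have h1 : j ∈ insert i S := Finset.mem_insert_of_mem hj
      simp only [hj, hi, if_true, h1, if_false, Finset.mem_insert_self]
      exact Finset.erase_insert hi
  · simp only [hj, if_false]

private lemma repl1_Slots (x : Fin n → F) {i j : Fin n} (hij : i ≠ j) :
    Emb (pf (Function.update x j (-(x i * x j)))) (pf x) := by
  have e : pf (Function.update x j (-(x i * x j))) =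
      fun S => pf x (inv_Slots i j S) * (if j ∈ S ∧ i ∈ S then - x i else 1) ^ 2 := by
    funext S
    have h0 : ∀ T : Finset (Fin n), j ∉ T →
        ∏ l ∈ T, (- Function.update x j (-(x i * x j)) l) = ∏ l ∈ T, (- x l) := by
      intro T hT
      refine Finset.prod_congr rfl fun l hl => ?_
      have hne : l ≠ j := fun h => hT (by rw [← h]; exact hl)
      rw [Function.update_of_ne hne]
    by_cases hj : j ∈ S
    · have hT : j ∉ S.erase j := Finset.notMem_erase j S
      have h1 : pf (Function.update x j (-(x i * x j))) S = (- x i) * pf x S := by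
        unfold pf
        rw [← Finset.mul_prod_erase S _ hj, h0 _ hT, Function.update_self,
          ← Finset.mul_prod_erase S (fun l => - x l) hj]
        ring
      rw [h1]
      by_cases hi : i ∈ S
      · have h2 : pf x S = (- x i) * pf x (S.erase i) := by
          unfold pf
          rw [← Finset.mul_prod_erase S (fun l => - x l) hi]
        have h3 : inv_Slots i j S = S.erase i := by
          unfold inv_Slots
          rw [if_pos hj, if_pos hi]
        rw [h3, if_pos ⟨hj, hi⟩, h2]
        ring
      · have h3 : inv_Slots i j S = insert i S := by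
          unfold inv_Slots
          rw [if_pos hj, if_neg hi]
        have h2 : pf x (insert i S) = (- x i) * pf x S := by
          unfold pf
          rw [Finset.prod_insert hi]
        rw [h3, if_neg (fun h => hi h.2), h2]
        ring
    · have h3 : inv_Slots i j S = S := by
        unfold inv_Slots
        rw [if_neg hj]
      rw [h3, if_neg (fun h => hj h.1)]
      have h4 : pf (Function.update x j (-(x i * x j))) S = pf x S := h0 S hj
      rw [h4]
      ring
  rw [e]
  have hinj : Function.Injective (inv_Slots i j : Finset (Fin n) → Finset (Fin n)) := by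
    intro S T h
    rw [← inv_inv_Slots hij S, h, inv_inv_Slots hij T]
  exact (Emb.sq (fun S => pf x (inv_Slots i j S)) _).trans (Emb.comp_inj (pf x) _ hinj)

private lemma repl_Slots (x : Fin n → F) {i j : Fin n} (hij : i ≠ j) (hx : x i ≠ 0) :
    Iso_Slots (Function.update x j (-(x i * x j))) x := by
  refine ⟨repl1_Slots x hij, ?_⟩
  set y := Function.update x j (-(x i * x j)) with hy
  have hyi : y i = x i := by
    rw [hy, Function.update_of_ne hij]
  have hyj : y j = -(x i * x j) := by
    rw [hy, Function.update_self]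
  have h1 : Emb (pf (Function.update y j (-(y i * y j)))) (pf y) := repl1_Slots y hij
  have e : Function.update y j (-(y i * y j)) =
      fun l => x l * (if l = j then x i else 1) ^ 2 := by
    funext l
    by_cases hl : l = j
    · subst hl
      rw [Function.update_self, hyi, hyj, if_pos rfl]
      ring
    · rw [Function.update_of_ne hl, hy, Function.update_of_ne hl, if_neg hl]
      ring
  rw [e] at h1
  have h2 := (sq_Slots x (fun l => if l = j then x i else 1) (by
    intro l
    split_ifs
    · exact hx
    · exact one_ne_zero)).2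
  exact h2.trans h1

/-- replace all slots in `J` -/
private lemma replAll_Slots (x : Fin n → F) (i : Fin n) (hx : x i ≠ 0) (J : Finset (Fin n)) :
    i ∉ J → Iso_Slots (fun l => if l ∈ J then -(x i * x l) else x l) x := by
  induction J using Finset.induction_on with
  | empty =>
    intro _
    simpa using Iso_refl_Slots x
  | insert j J hj ih =>
    intro hi
    have hij : i ≠ j := fun h => hi (h ▸ Finset.mem_insert_self _ _)
    have hiJ : i ∉ J := fun h => hi (Finset.mem_insert_of_mem h)
    set y : Fin n → F := fun l => if l ∈ J then -(x i * x l) else x l with hy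
    have hyi : y i = x i := by
      rw [hy]
      exact if_neg hiJ
    have hyj : y j = x j := by
      rw [hy]
      exact if_neg hj
    have h1 := repl_Slots y hij (by rw [hyi]; exact hx)
    have e : Function.update y j (-(y i * y j)) =
        fun l => if l ∈ insert j J then -(x i * x l) else x l := by
      funext l
      by_cases hl : l = j
      · subst hl
        rw [Function.update_self, hyi, hyj, if_pos (Finset.mem_insert_self _ _)]
      · rw [Function.update_of_ne hl, hy]
        simp only [Finset.mem_insert, hl, false_or]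
    rw [e] at h1
    exact Iso_trans_Slots h1 (ih hiJ)

private lemma IsU_mul_Slots {O : ValuationSubring F} {a b : F} (ha : IsU O a) (hb : IsU O b) :
    IsU O (a * b) := by
  refine ⟨O.mul_mem _ _ ha.1 hb.1, ?_, mul_ne_zero ha.2.2 hb.2.2⟩
  rw [mul_inv]
  exact O.mul_mem _ _ ha.2.1 hb.2.1

private lemma IsU_neg_Slots {O : ValuationSubring F} {a : F} (ha : IsU O a) : IsU O (-a) := by
  refine ⟨O.neg_mem _ ha.1, ?_, neg_ne_zero.mpr ha.2.2⟩
  rw [inv_neg]
  exact O.neg_mem _ ha.2.1

/-- SLOTS. -/
theorem pSlots : StSlots := by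
  intro F _ O ϖ hϖ n x hx
  classical
  have hϖ0 : ϖ ≠ 0 := hϖ.2.1
  -- normalise every slot
  have h1 : ∀ j, ∃ c : F, c ≠ 0 ∧ (IsU O (x j * c ^ 2) ∨ ∃ h, IsU O h ∧ x j * c ^ 2 = ϖ * h) := by
    intro j
    obtain ⟨i, hi⟩ := hϖ.2.2.2 (x j) (hx j)
    rcases Int.even_or_odd' i with ⟨m, hm | hm⟩
    · refine ⟨ϖ ^ m, zpow_ne_zero _ hϖ0, Or.inl ?_⟩
      have e : x j * (ϖ ^ m) ^ 2 = x j * ϖ ^ i := by
        rw [hm, ← zpow_natCast, ← zpow_mul]
        congr 2
        push_cast
        ring
      rw [e]
      exact hi
    · refine ⟨ϖ ^ (m + 1), zpow_ne_zero _ hϖ0, Or.inr ⟨x j * ϖ ^ i, hi, ?_⟩⟩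
      have e : (ϖ ^ (m + 1)) ^ 2 = ϖ * ϖ ^ i := by
        rw [hm, ← zpow_natCast, ← zpow_mul, ← zpow_one_add₀ hϖ0]
        congr 1
        push_cast
        ring
      rw [e]
      ring
  choose c hc0 hc using h1
  set y : Fin (n + 1) → F := fun j => x j * c j ^ 2 with hy
  have hyx : Iso_Slots y x := sq_Slots x c hc0
  have hyn : ∀ j, y j ≠ 0 := fun j => mul_ne_zero (hx j) (pow_ne_zero _ (hc0 j))
  by_cases hall : ∀ j, IsU O (y j)
  · exact ⟨y, fun j => hall _, Or.inl (hall _), hyx.1, hyx.2⟩
  rw [not_forall] at hall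
  obtain ⟨i, hi⟩ := hall
  obtain ⟨α, hα, hyi⟩ : ∃ h, IsU O h ∧ y i = ϖ * h := (hc i).resolve_left hi
  -- replace all other slots which are not units
  set J : Finset (Fin (n + 1)) := Finset.univ.filter fun j => j ≠ i ∧ ¬ IsU O (y j) with hJ
  have hiJ : i ∉ J := by
    rw [hJ, Finset.mem_filter]
    rintro ⟨-, h, -⟩
    exact h rfl
  have h2 := replAll_Slots y i (hyn i) J hiJ
  set z : Fin (n + 1) → F := fun l => if l ∈ J then -(y i * y l) else y l with hz
  set d : Fin (n + 1) → F := fun l => if l ∈ J then ϖ⁻¹ else 1 with hd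
  have h3 : Iso_Slots (fun l => z l * d l ^ 2) z := sq_Slots z d (by
    intro l
    rw [hd]
    show (if l ∈ J then ϖ⁻¹ else 1) ≠ 0
    split_ifs
    · exact inv_ne_zero hϖ0
    · exact one_ne_zero)
  set w : Fin (n + 1) → F := fun l => z l * d l ^ 2 with hw
  have hwx : Iso_Slots w x := Iso_trans_Slots h3 (Iso_trans_Slots h2 hyx)
  have hwi : w i = ϖ * α := by
    show (if i ∈ J then -(y i * y i) else y i) * (if i ∈ J then ϖ⁻¹ else 1) ^ 2 = _
    rw [if_neg hiJ, if_neg hiJ, hyi]
    ring
  have hwj : ∀ j, j ≠ i → IsU O (w j) := by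
    intro j hji
    show IsU O ((if j ∈ J then -(y i * y j) else y j) * (if j ∈ J then ϖ⁻¹ else 1) ^ 2)
    by_cases hj : IsU O (y j)
    · have : j ∉ J := by
        rw [hJ, Finset.mem_filter]
        rintro ⟨-, -, h⟩
        exact h hj
      rw [if_neg this, if_neg this, one_pow, mul_one]
      exact hj
    · have : j ∈ J := by
        rw [hJ, Finset.mem_filter]
        exact ⟨Finset.mem_univ _, hji, hj⟩
      rw [if_pos this, if_pos this]
      obtain ⟨β, hβ, hyj⟩ : ∃ h, IsU O h ∧ y j = ϖ * h := (hc j).resolve_left hj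
      have e : -(y i * y j) * ϖ⁻¹ ^ 2 = -(α * β) := by
        rw [hyi, hyj]
        field_simp
      rw [e]
      exact IsU_neg_Slots (IsU_mul_Slots hα hβ)
  -- move the slot to the last place
  refine ⟨fun l => w (Equiv.swap i (Fin.last n) l), ?_, Or.inr ⟨α, hα, ?_⟩, ?_⟩
  · intro j
    apply hwj
    intro h
    have h4 : Equiv.swap i (Fin.last n) (Equiv.swap i (Fin.last n) j.castSucc) =
        Equiv.swap i (Fin.last n) i := by rw [h]
    rw [Equiv.swap_apply_self, Equiv.swap_apply_left] at h4
    exact Fin.castSucc_ne_last j h4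
  · show w (Equiv.swap i (Fin.last n) (Fin.last n)) = _
    rw [Equiv.swap_apply_right]
    exact hwi
  · have h5 := Iso_trans_Slots (perm_Slots w (Equiv.swap i (Fin.last n))) hwx
    exact ⟨h5.1, h5.2⟩

end Slots

end Pool.Agent.Helper44.RED
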