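import Pool.Agent.Helper44.RED.StD

set_option autoImplicit false

open Polynomial

namespace Pool.Agent.Helper44.RED

private lemma qm_map_Springer {R S : Type} [CommRing R] [CommRing S] {N : ℕ} (φ : R →+* S)
    (A : Matrix (Fin N) (Fin N) R) (u : Fin N → R) :
    φ (qm A u) = qm (A.map φ) (fun i => φ (u i)) := by
  unfold qm dotProduct Matrix.mulVec dotProduct
  rw [map_sum]
  refine Finset.sum_congr rfl fun i _ => ?_
  rw [map_mul, map_sum]
  simp only [map_mul, Matrix.map_apply]

private lemma qm_smul_Springer {R : Type} [CommRing R] {N : ℕ}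
    (A : Matrix (Fin N) (Fin N) R) (c : R) (u : Fin N → R) :
    qm A (fun i => c * u i) = c ^ 2 * qm A u := by
  unfold qm dotProduct Matrix.mulVec dotProduct
  rw [Finset.mul_sum]
  refine Finset.sum_congr rfl fun i _ => ?_
  rw [Finset.mul_sum, Finset.mul_sum, Finset.mul_sum]
  exact Finset.sum_congr rfl fun j _ => by ring

private lemma odd_factor_Springer {K : Type} [Field K] : ∀ (n : ℕ) (h : K[X]), h.natDegree = n →
    Odd n → ∃ P : K[X], Irreducible P ∧ P ∣ h ∧ Odd P.natDegree := by
  intro n
  induction n using Nat.strong_induction_on with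
  | _ n ih =>
    intro h hn hodd
    have hpos : 0 < n := hodd.pos
    have h0 : h ≠ 0 := by
      rintro rfl
      rw [natDegree_zero] at hn
      omega
    have hu : ¬ IsUnit h := by
      intro hu
      have := natDegree_eq_zero_of_isUnit hu
      omega
    obtain ⟨Q, hQ, h', rfl⟩ := WfDvdMonoid.exists_irreducible_factor hu h0
    by_cases hQo : Odd Q.natDegree
    · exact ⟨Q, hQ, dvd_mul_right _ _, hQo⟩
    · have hQ0 : Q ≠ 0 := left_ne_zero_of_mul h0
      have h'0 : h' ≠ 0 := right_ne_zero_of_mul h0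
      have hd : (Q * h').natDegree = Q.natDegree + h'.natDegree := natDegree_mul hQ0 h'0
      have hQpos : 0 < Q.natDegree := hQ.natDegree_pos
      have hodd' : Odd h'.natDegree := by
        rw [Nat.not_odd_iff_even] at hQo
        rw [← hn, hd] at hodd
        by_contra hc
        rw [Nat.not_odd_iff_even] at hc
        exact (Nat.not_odd_iff_even.2 (hQo.add hc)) hodd
      obtain ⟨P, hP, hPd, hPo⟩ := ih h'.natDegree (by omega) h' rfl hodd'
      exact ⟨P, hP, hPd.trans (dvd_mul_left _ _), hPo⟩

/-- reduction to vectors of polynomials of small degree without common factor -/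
private lemma primitive_Springer {K : Type} [Field K] {N : ℕ} (A : Matrix (Fin N) (Fin N) K)
    (P : K[X]) (hP : Irreducible P) : ∀ (n : ℕ) (g : Fin N → K[X]), ∑ i, (g i).natDegree = n →
    g ≠ 0 → (∀ i, (g i).natDegree < P.natDegree) → P ∣ qm (A.map C) g →
    ∃ g' : Fin N → K[X], g' ≠ 0 ∧ (∀ i, (g' i).natDegree < P.natDegree) ∧
      P ∣ qm (A.map C) g' ∧ ∀ Q : K[X], Irreducible Q → ∃ i, ¬ Q ∣ g' i := by
  intro n
  induction n using Nat.strong_induction_on with
  | _ n ih =>
    intro g hn hg hdeg hdvd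
    by_cases hc : ∀ Q : K[X], Irreducible Q → ∃ i, ¬ Q ∣ g i
    · exact ⟨g, hg, hdeg, hdvd, hc⟩
    push Not at hc
    obtain ⟨Q, hQ, hall⟩ := hc
    choose g' hg' using hall
    have hge : g = fun i => Q * g' i := funext hg'
    have hQ0 : Q ≠ 0 := hQ.ne_zero
    have hg'0 : g' ≠ 0 := by
      rintro rfl
      apply hg
      rw [hge]
      funext i
      simp
    obtain ⟨i₀, hi₀⟩ : ∃ i, g' i ≠ 0 := by
      by_contra h
      push Not at h
      exact hg'0 (funext h)
    have hle : ∀ i, (g' i).natDegree ≤ (g i).natDegree := by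
      intro i
      by_cases h0 : g' i = 0
      · rw [h0, natDegree_zero]; exact Nat.zero_le _
      · rw [hg' i, natDegree_mul hQ0 h0]; omega
    have hlt : (g' i₀).natDegree < (g i₀).natDegree := by
      rw [hg' i₀, natDegree_mul hQ0 hi₀]
      have := hQ.natDegree_pos
      omega
    have hsum : ∑ i, (g' i).natDegree < n := by
      rw [← hn]
      exact Finset.sum_lt_sum (fun i _ => hle i) ⟨i₀, Finset.mem_univ _, hlt⟩
    have hQlt : Q.natDegree < P.natDegree := by
      have h1 := hdeg i₀
      rw [hg' i₀, natDegree_mul hQ0 hi₀] at h1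
      omega
    have hPQ : ¬ P ∣ Q := by
      intro h
      have := natDegree_le_of_dvd h hQ0
      omega
    have hdvd' : P ∣ qm (A.map C) g' := by
      rw [hge, qm_smul_Springer] at hdvd
      rcases hP.prime.dvd_or_dvd hdvd with h | h
      · exact absurd (hP.prime.dvd_of_dvd_pow h) hPQ
      · exact h
    exact ih _ hsum g' rfl hg'0 (fun i => lt_of_le_of_lt (hle i) (hdeg i)) hdvd'

private lemma coeff_qm_Springer {K : Type} [Field K] {N : ℕ} (A : Matrix (Fin N) (Fin N) K)
    (g : Fin N → K[X]) (m : ℕ) (hm : ∀ i, (g i).natDegree ≤ m) :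
    (qm (A.map C) g).coeff (m + m) = qm A (fun i => (g i).coeff m) ∧
      (qm (A.map C) g).natDegree ≤ m + m := by
  have h1 : ∀ i, (∑ j, (A.map C) i j * g j).natDegree ≤ m := by
    intro i
    refine natDegree_sum_le_of_forall_le _ _ fun j _ => ?_
    rw [Matrix.map_apply]
    exact (natDegree_C_mul_le _ _).trans (hm j)
  have h2 : ∀ i, (∑ j, (A.map C) i j * g j).coeff m = ∑ j, A i j * (g j).coeff m := by
    intro i
    rw [finsetSum_coeff]
    refine Finset.sum_congr rfl fun j _ => ?_
    rw [Matrix.map_apply, coeff_C_mul]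
  unfold qm dotProduct Matrix.mulVec dotProduct
  refine ⟨?_, ?_⟩
  · rw [finsetSum_coeff]
    refine Finset.sum_congr rfl fun i _ => ?_
    rw [coeff_mul_add_eq_of_natDegree_le (hm i) (h1 i), h2 i]
  · refine natDegree_sum_le_of_forall_le _ _ fun i _ => ?_
    exact natDegree_mul_le_of_le (hm i) (h1 i)

private lemma main_Springer {K : Type} [Field K] {N : ℕ} (A : Matrix (Fin N) (Fin N) K) :
    ∀ (d : ℕ) (P : K[X]), P.natDegree = d → Odd d → Irreducible P → ∀ g : Fin N → K[X],
      (∃ i, ¬ P ∣ g i) → P ∣ qm (A.map C) g → MIso A := by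
  intro d
  induction d using Nat.strong_induction_on with
  | _ d ih =>
    intro P hPd hodd hP g hnd hdvd
    have hdpos : 0 < P.natDegree := hP.natDegree_pos
    -- reduce modulo P
    set g₁ : Fin N → K[X] := fun i => g i % P with hg₁
    have hg₁deg : ∀ i, (g₁ i).natDegree < P.natDegree := fun i =>
      natDegree_mod_lt (g i) hdpos.ne'
    have hsub : ∀ i, P ∣ g i - g₁ i := by
      intro i
      refine ⟨g i / P, ?_⟩
      simp only [hg₁, EuclideanDomain.mod_eq_sub_mul_div]
      ring
    have hg₁0 : g₁ ≠ 0 := by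
      intro h
      obtain ⟨i, hi⟩ := hnd
      apply hi
      have h1 := hsub i
      rw [h] at h1
      simpa using h1
    have hdvd₁ : P ∣ qm (A.map C) g₁ := by
      rw [← AdjoinRoot.mk_eq_zero, qm_map_Springer]
      rw [← AdjoinRoot.mk_eq_zero, qm_map_Springer] at hdvd
      rw [← hdvd]
      congr 1
      funext i
      rw [AdjoinRoot.mk_eq_mk]
      have := (hsub i).neg_right
      rwa [neg_sub] at this
    obtain ⟨g₂, hg₂0, hg₂deg, hg₂dvd, hg₂pr⟩ :=
      primitive_Springer A P hP _ g₁ rfl hg₁0 hg₁deg hdvd₁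
    -- maximal degree
    obtain ⟨i₁, hi₁⟩ : ∃ i, g₂ i ≠ 0 := by
      by_contra h
      push Not at h
      exact hg₂0 (funext h)
    have hne : (Finset.univ : Finset (Fin N)).Nonempty := ⟨i₁, Finset.mem_univ _⟩
    obtain ⟨i₀, -, hi₀⟩ := Finset.exists_max_image Finset.univ (fun i => (g₂ i).natDegree) hne
    set m : ℕ := (g₂ i₀).natDegree with hm
    have hle : ∀ i, (g₂ i).natDegree ≤ m := fun i => hi₀ i (Finset.mem_univ _)
    have hmlt : m < d := by rw [← hPd]; exact hg₂deg i₀
    obtain ⟨hco, hnd2⟩ := coeff_qm_Springer A g₂ m hle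
    set v : Fin N → K := fun i => (g₂ i).coeff m with hv
    have hv0 : v ≠ 0 := by
      intro h
      by_cases h0 : g₂ i₀ = 0
      · have hm0 : m = 0 := by rw [hm, h0, natDegree_zero]
        have h1 : (g₂ i₁).natDegree ≤ 0 := by rw [← hm0]; exact hle i₁
        have h2 := congrFun h i₁
        simp only [hv, hm0, Pi.zero_apply] at h2
        apply hi₁
        rw [eq_C_of_natDegree_le_zero h1, h2, C_0]
      · have h2 := congrFun h i₀
        simp only [hv, Pi.zero_apply] at h2
        exact h0 (leadingCoeff_eq_zero.1 h2)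
    by_cases hq : qm A v = 0
    · exact ⟨v, hv0, hq⟩
    have hdeg : (qm (A.map C) g₂).natDegree = m + m := by
      refine le_antisymm hnd2 (le_natDegree_of_ne_zero ?_)
      rw [hco]
      exact hq
    have hq0 : qm (A.map C) g₂ ≠ 0 := by
      intro h
      rw [h, coeff_zero] at hco
      exact hq hco.symm
    obtain ⟨h, hh⟩ := hg₂dvd
    have hP0 : P ≠ 0 := hP.ne_zero
    have hh0 : h ≠ 0 := by
      rintro rfl
      rw [mul_zero] at hh
      exact hq0 hh
    have hdd : m + m = d + h.natDegree := by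
      rw [← hdeg, hh, natDegree_mul hP0 hh0, hPd]
    have hoddh : Odd h.natDegree := by
      by_contra hc
      rw [Nat.not_odd_iff_even] at hc
      have h1 : Odd (d + h.natDegree) := hodd.add_even hc
      rw [← hdd] at h1
      exact (Nat.not_odd_iff_even.2 ⟨m, rfl⟩) h1
    obtain ⟨P₁, hP₁, hP₁h, hP₁o⟩ := odd_factor_Springer _ h rfl hoddh
    have hlt : P₁.natDegree < d := by
      have := natDegree_le_of_dvd hP₁h hh0
      omega
    refine ih _ hlt P₁ rfl hP₁o hP₁ g₂ (hg₂pr P₁ hP₁) ?_
    rw [hh]
    exact hP₁h.trans (dvd_mul_left _ _)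

/-- module SPRINGER -/
theorem pSpringer : StSpringer := by
  intro K L _ _ _ _ N A hodd hiso
  have : Module.Finite K L := Module.finite_of_finrank_pos hodd.pos
  obtain ⟨α, hα⟩ := Field.exists_primitive_element K L
  have hint : IsIntegral K α := Algebra.IsIntegral.isIntegral α
  have hdeg : (minpoly K α).natDegree = Module.finrank K L :=
    (Field.primitive_element_iff_minpoly_natDegree_eq K α).1 hα
  obtain ⟨u, hu0, hu⟩ := hiso
  have hrep : ∀ x : L, ∃ p : K[X], aeval α p = x := by
    intro x
    have h1 : x ∈ (IntermediateField.adjoin K {α}).toSubalgebra := by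
      rw [hα]; trivial
    rw [IntermediateField.adjoin_simple_toSubalgebra_of_isAlgebraic hint.isAlgebraic,
      Algebra.adjoin_singleton_eq_range_aeval] at h1
    exact h1
  choose g hg using fun i => hrep (u i)
  refine main_Springer A _ (minpoly K α) rfl (by rw [hdeg]; exact hodd)
    (minpoly.irreducible hint) g ?_ ?_
  · by_contra h
    push Not at h
    apply hu0
    funext i
    rw [← hg i]
    exact (minpoly.dvd_iff).1 (h i)
  · rw [minpoly.dvd_iff]
    have h1 := qm_map_Springer ((aeval α : K[X] →ₐ[K] L) : K[X] →+* L) (A.map C) g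
    have h2 : ((A.map C).map ((aeval α : K[X] →ₐ[K] L) : K[X] →+* L)) = A.map (algebraMap K L) := by
      ext i j
      simp
    rw [h2] at h1
    have h3 : (fun i => ((aeval α : K[X] →ₐ[K] L) : K[X] →+* L) (g i)) = u := funext hg
    rw [h3, hu] at h1
    exact h1

end Pool.Agent.Helper44.RED
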