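import Pool.Agent.Helper44.RED.StB

/-!
# Project RED, module Step (helper45)
-/

set_option autoImplicit false

open Polynomial

namespace Pool.Agent.Helper44.RED

private lemma one_ne_zero_Step {K : Type} [Field K] {s : ℕ} {c : Fin s → K} (hc : ∀ l, c l ≠ 0)
    (j : Fin (s + 1)) : one c j ≠ 0 := by
  refine Fin.cases ?_ (fun i => ?_) j
  · simp [one]
  · simpa [one] using hc i

/-- reindexing the first `l + 1` entries -/
private lemma emb_last_Step {K : Type} [CommRing K] {l : ℕ} (c : Fin (l + 1) → K) :
    Emb (Sum.elim (fun j : Fin l => c j.castSucc) (fun _ : Unit => c (Fin.last l))) c := by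
  have h := Emb.comp_inj c (Sum.elim (fun j : Fin l => j.castSucc) (fun _ : Unit => Fin.last l))
    (by
      rintro (i | i) (j | j) hij
      · simp only [Sum.elim_inl] at hij
        rw [Fin.castSucc_injective l hij]
      · simp only [Sum.elim_inl, Sum.elim_inr] at hij
        exact absurd hij (Fin.castSucc_lt_last i).ne
      · simp only [Sum.elim_inl, Sum.elim_inr] at hij
        exact absurd hij.symm (Fin.castSucc_lt_last j).ne
      · rfl)
  convert h using 1
  funext j
  rcases j with j | j <;> rfl

private lemma emb_last'_Step {K : Type} [CommRing K] {l : ℕ} (c : Fin (l + 1) → K) :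
    Emb c (Sum.elim (fun j : Fin l => c j.castSucc) (fun _ : Unit => c (Fin.last l))) := by
  have h := Emb.comp_inj (Sum.elim (fun j : Fin l => c j.castSucc) (fun _ : Unit => c (Fin.last l)))
    (Fin.lastCases (motive := fun _ => Fin l ⊕ Unit) (Sum.inr ()) (fun j => Sum.inl j))
    (by
      intro i j
      refine Fin.lastCases ?_ (fun i => ?_) i <;> refine Fin.lastCases ?_ (fun j => ?_) j
      · intro; rfl
      · intro h; simp at h
      · intro h; simp at h
      · intro h; simp at h; rw [h])
  convert h using 1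
  funext j
  refine Fin.lastCases ?_ (fun i => ?_) j
  · simp
  · simp

private lemma im_sumElim_Step {R S ι κ : Type} [CommRing R] [CommRing S] (φ : R →+* S) (a : ι → R)
    (b : κ → R) : im φ (Sum.elim a b) = Sum.elim (im φ a) (im φ b) := by
  funext j; rcases j with j | j <;> rfl

/-- the quadratic form does not vanish at independent elements -/
private lemma qf_indep_Step {E F ι : Type} [Field E] [Field F] [Fintype ι] {φ : E →+* F} {q : ι → E}
    {y : ι → F} (hy : Indep φ y) (i : ι) (hi : q i ≠ 0) : qf (im φ q) y ≠ 0 := by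
  classical
  have h1 : MvPolynomial.eval₂Hom φ y
      (∑ j, MvPolynomial.C (q j) * MvPolynomial.X j ^ 2) = qf (im φ q) y := by
    rw [map_sum]
    unfold qf im
    exact Finset.sum_congr rfl fun j _ => by simp
  rw [← h1]
  intro h0
  have h2 := hy (h0.trans (map_zero _).symm)
  have h3 := congrArg (MvPolynomial.eval (Pi.single i (1 : E))) h2
  rw [map_sum, map_zero, Finset.sum_eq_single i] at h3
  · simp at h3; exact hi h3
  · intro j _ hj; simp [hj]
  · intro h; exact absurd (Finset.mem_univ _) h

theorem pStep : StCompl → StConeEx → StTower → StConeMap → StPfHyp → StHypCompl → StUniv →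
    StRep → StConePure → StPT → StStep := by
  intro hCompl hConeEx hTower hConeMap hPfHyp hHypCompl hUniv hRep hConePure hPT
  intro K E _ _ h2K n s M b ψ x J hn hs hb hx hA hW i l h hl hE hAn hlJ
  have h2E : (2 : E) ≠ 0 := by
    have := (map_ne_zero ψ).2 h2K
    rwa [map_ofNat] at this
  obtain ⟨n', rfl⟩ : ∃ n', n = n' + 1 := ⟨n - 1, by omega⟩
  have hs' : s = 2 ^ n' := by simpa using hs
  set c : Fin (l + 1) → E := init (im ψ (one (b i))) (l + 1) h with hc
  set α : Fin l → E := init (im ψ (one (b i))) l (by omega) with hα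
  set a : E := c (Fin.last l) with ha
  have hcα : (fun j : Fin l => c j.castSucc) = α := by
    funext j; rfl
  have hc0 : ∀ j, c j ≠ 0 := fun j => (map_ne_zero ψ).2 (one_ne_zero_Step (hb i) _)
  have hα0 : ∀ j, α j ≠ 0 := fun j => (map_ne_zero ψ).2 (one_ne_zero_Step (hb i) _)
  have ha0 : a ≠ 0 := hc0 _
  have hcard : Fintype.card (Finset (Fin (n' + 1))) = 2 * s := by
    rw [Fintype.card_finset, Fintype.card_fin, hs', pow_succ]; ring
  obtain ⟨hle, q, hq0, hqE⟩ := hCompl E (Finset (Fin (n' + 1))) h2E (pf x)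
    (fun S => pf_ne_zero hx S) l α hα0 hE
  have hm : l + (Fintype.card (Finset (Fin (n' + 1))) - l) = 2 ^ (n' + 1) := by
    rw [hcard, hs', pow_succ]; omega
  generalize Fintype.card (Finset (Fin (n' + 1))) - l = m at q hq0 hqE hm
  have hspos : 0 < s := by rw [hs']; positivity
  have hm1 : 1 ≤ m := by
    have : 2 ^ (n' + 1) = 2 * s := by rw [hs', pow_succ]; ring
    omega
  obtain ⟨F, _, φ, y, w, hCone⟩ := hConeEx E (Fin m) q a
  have hAn' : Aniso (Sum.elim α (fun _ : Unit => a)) := by
    have := emb_last_Step c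
    rw [hcα] at this
    refine Aniso.of_emb hAn ?_ this
    rintro (j | j)
    · exact hα0 j
    · exact ha0
  have hT := hTower E F h2E (n' + 1) x hx hA l m α q a hα0 hq0 ha0 hm hm1 hqE hAn' φ y w hCone
  refine ⟨F, inferInstance, φ, ?_, ?_, ?_⟩
  · rw [pf_im]; exact hT
  · intro j hj
    obtain ⟨S, _, θ, hS1, hS2, hS3⟩ := hW j hj
    obtain ⟨F', _, φ', ψ', y', w', hC', hcomp⟩ := hConeMap E F S (Fin m) φ q a y w θ hCone
    have h2S : (2 : S) ≠ 0 := by
      have := (map_ne_zero θ).2 h2E
      rwa [map_ofNat] at this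
    have hHyp := hPfHyp S h2S n' (im θ x) (fun j => (map_ne_zero θ).2 (hx j))
      (by rw [pf_im]; exact hS1)
    have hEθ : Emb (Sum.elim (im θ α) (im θ q)) (pf (im θ x)) := by
      rw [pf_im, ← im_sumElim_Step]; exact hqE.im
    have hl2 : l ≤ 2 ^ n' := by omega
    obtain ⟨hneg, hiso⟩ := hHypCompl S (Finset (Fin (n' + 1))) h2S (pf (im θ x)) (2 ^ n')
      (fun S' => pf_ne_zero (fun j => (map_ne_zero θ).2 (hx j)) S')
      (by rw [hcard, hs']) hHyp l hl2 (im θ α) m (im θ q)
      (by rw [hm, pow_succ]; ring) (fun j => (map_ne_zero θ).2 (hα0 j))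
      (fun j => (map_ne_zero θ).2 (hq0 j)) hEθ
    have hrep : ∃ p : Fin m → S, qf (im θ q) p = θ a := by
      by_cases hls : l < s
      · exact hUniv S (Fin m) h2S (im θ q) (fun j => (map_ne_zero θ).2 (hq0 j))
          (hiso (by rw [← hs']; exact hls)) (θ a)
      · have hls' : l = s := by omega
        have hij : i ≠ j := by
          rintro rfl
          rcases hlJ with h' | h'
          · exact hls h'
          · exact h' hj
        have h3 := hS3 i hij
        have h4 : ¬ Aniso (Sum.elim (im θ α) (fun _ : Unit => θ a)) := by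
          intro h5
          apply h3
          subst hls'
          have h6 : Emb (im (θ.comp ψ) (one (b i))) (Sum.elim (im θ α) (fun _ : Unit => θ a)) :=
            emb_last'_Step (im (θ.comp ψ) (one (b i)))
          exact h5.of_emb (fun j => (_root_.map_ne_zero _).2 (one_ne_zero_Step (hb i) _)) h6
        obtain ⟨z, hz⟩ := hRep S (Fin l) h2S (im θ α) (θ a)
          (fun j => (map_ne_zero θ).2 (hα0 j)) h4
        obtain ⟨v, hv0, hv1⟩ := hneg
        refine ⟨∑ j, z j • v j, ?_⟩
        rw [qf_orth hv0 hv1]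
        have : qf (fun j => - im θ α j) z = - qf (im θ α) z := by
          unfold qf; rw [← Finset.sum_neg_distrib]
          exact Finset.sum_congr rfl fun j _ => by ring
        rw [this, hz, neg_neg]
    have hP : PureExt φ' := hConePure S F' (Fin m) h2S φ' (im θ q) (θ a) y' w'
      (fun j => (map_ne_zero θ).2 (hq0 j)) ((map_ne_zero θ).2 ha0) hrep hC'
    have hPres := hPT S F' φ' hP
    have hc1 : ∀ (ι : Type) [Fintype ι] (u : ι → E), im ψ' (im φ u) = im φ' (im θ u) := by
      intro ι _ u
      rw [im_im, im_im, hcomp]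
    have hc2 : ψ'.comp (φ.comp ψ) = φ'.comp (θ.comp ψ) := by
      rw [← RingHom.comp_assoc, hcomp, RingHom.comp_assoc]
    refine ⟨F', inferInstance, ψ', ?_, ?_, ?_⟩
    · rw [pf_im, hc1]
      exact fun h => hS1 h.of_im
    · rw [hc2, ← im_im]
      exact hPres.aniso hS2
    · intro i' hi'
      rw [hc2, ← im_im]
      exact fun h => hS3 i' hi' h.of_im
  · have hqy : qf (im φ q) y ≠ 0 := qf_indep_Step hCone.indep ⟨0, hm1⟩ (hq0 _)
    have h1 : Emb (fun _ : Unit => φ a) (im φ q) := by
      refine ⟨fun _ => (w / qf (im φ q) y) • y, fun i j hij => absurd (Subsingleton.elim i j) hij,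
        fun _ => ?_⟩
      rw [qf_smul, div_pow, hCone.eq]
      field_simp
    have h2 : Emb (Sum.elim (im φ α) (fun _ : Unit => φ a)) (pf (im φ x)) := by
      have h3 : Emb (Sum.elim (im φ α) (im φ q)) (pf (im φ x)) := by
        rw [pf_im, ← im_sumElim_Step]; exact hqE.im
      exact ((Emb.refl (im φ α)).sum h1).trans h3
    exact (emb_last'_Step (init (im (φ.comp ψ) (one (b i))) (l + 1) h)).trans h2

end Pool.Agent.Helper44.RED
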