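import Pool.Agent.Helper44.RED.StC

/-!
# Project RED, module StepV (helper45)
-/

set_option autoImplicit false

namespace Pool.Agent.Helper44.RED

/-- expansion in an orthogonal basis -/
private lemma expand_StepV {K ι κ : Type} [Field K] [Fintype ι] [Fintype κ] (a : ι → K)
    (c : κ → K) (hc : ∀ j, c j ≠ 0) (w : κ → ι → K)
    (h0 : ∀ i j, i ≠ j → bf a (w i) (w j) = 0) (h1 : ∀ j, qf a (w j) = c j)
    (hcard : Fintype.card κ = Fintype.card ι) (u : ι → K) :
    u = ∑ j, (bf a (w j) u / c j) • w j := by
  have hli : LinearIndependent K w := by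
    rw [Fintype.linearIndependent_iff]
    intro g hg i
    have h2 := bf_orth_right h0 h1 g i
    rw [hg, bf_zero_left] at h2
    rcases mul_eq_zero.1 h2.symm with h3 | h3
    · exact h3
    · exact absurd h3 (hc i)
  have hspan := hli.span_eq_top_of_card_eq_finrank' (by rw [hcard, Module.finrank_fintype_fun_eq_card])
  have hu : u ∈ Submodule.span K (Set.range w) := by rw [hspan]; trivial
  obtain ⟨g, hg⟩ := (Submodule.mem_span_range_iff_exists_fun K).1 hu
  rw [← hg]
  refine Finset.sum_congr rfl fun j _ => ?_
  rw [bf_comm, bf_orth_right h0 h1 g j, mul_div_assoc, div_self (hc j), mul_one]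

/-- orthogonal complement of given vectors -/
private lemma compl_StepV {K ι : Type} [Field K] [Fintype ι] (h2 : (2 : K) ≠ 0) (a : ι → K)
    (ha : ∀ i, a i ≠ 0) (m : ℕ) (b : Fin m → K) (hb : ∀ j, b j ≠ 0) (v : Fin m → ι → K)
    (h0 : ∀ i j, i ≠ j → bf a (v i) (v j) = 0) (h1 : ∀ j, qf a (v j) = b j) :
    m ≤ Fintype.card ι ∧ ∃ (c : Fin (Fintype.card ι - m) → K)
      (e : Fin (Fintype.card ι - m) → ι → K), (∀ j, c j ≠ 0) ∧
      (∀ i j, i ≠ j → bf a (e i) (e j) = 0) ∧ (∀ j, qf a (e j) = c j) ∧
      ∀ i j, bf a (v i) (e j) = 0 := by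
  classical
  let B : LinearMap.BilinForm K (ι → K) := LinearMap.mk₂ K (bf a) (fun x y z => bf_add_left a x y z)
    (fun c x y => by rw [bf_smul_left]; rfl) (fun x y z => bf_add_right a x y z)
    (fun c x y => by rw [bf_smul_right]; rfl)
  have hB : ∀ x y, B x y = bf a x y := fun x y => rfl
  let T : (ι → K) →ₗ[K] (Fin m → K) := LinearMap.pi fun j => B (v j)
  have hT : ∀ u j, T u j = bf a (v j) u := fun u j => rfl
  have hTsurj : Function.Surjective T := by
    intro z
    refine ⟨∑ j, (z j / b j) • v j, ?_⟩
    funext i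
    rw [hT, bf_comm, bf_orth_right h0 h1, div_mul_cancel₀ _ (hb i)]
  have hrk : m + Module.finrank K (LinearMap.ker T) = Fintype.card ι := by
    have h := LinearMap.finrank_range_add_finrank_ker T
    rw [LinearMap.range_eq_top.2 hTsurj, finrank_top, Module.finrank_fintype_fun_eq_card,
      Module.finrank_fintype_fun_eq_card, Fintype.card_fin] at h
    exact h
  have hrk' : Module.finrank K (LinearMap.ker T) = Fintype.card ι - m := by omega
  let BW : LinearMap.BilinForm K (LinearMap.ker T) := B.restrict (LinearMap.ker T)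
  have hBW : ∀ x y, BW x y = bf a x.1 y.1 := fun x y => rfl
  have : Invertible (2 : K) := invertibleOfNonzero h2
  have hsymm : BW.IsSymm := ⟨fun x y => by rw [hBW, hBW, bf_comm]⟩
  obtain ⟨β, hβ⟩ := LinearMap.BilinForm.exists_orthogonal_basis (LinearMap.BilinForm.isSymm_iff.1 hsymm)
  refine ⟨by omega, fun j => qf a (β (Fin.cast hrk'.symm j)).1,
    fun j => (β (Fin.cast hrk'.symm j)).1, ?_, ?_, fun j => rfl, ?_⟩
  · intro j hj
    set w := β (Fin.cast hrk'.symm j) with hw
    have h3 : BW w = 0 := by
      refine β.ext fun i => ?_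
      by_cases hi : i = Fin.cast hrk'.symm j
      · subst hi; rw [← hw, hBW, bf_self]; exact hj
      · exact hβ (Ne.symm hi)
    have h4 : ∀ u, bf a w.1 u = 0 := by
      intro u
      have h5 : u - ∑ j, (bf a (v j) u / b j) • v j ∈ LinearMap.ker T := by
        rw [LinearMap.mem_ker]
        funext i
        rw [hT, bf_sub_right, bf_comm a (v i) (∑ j, _), bf_orth_right h0 h1,
          div_mul_cancel₀ _ (hb i), sub_self]
        rfl
      have h6 : bf a w.1 (u - ∑ j, (bf a (v j) u / b j) • v j) = 0 := by
        have := LinearMap.congr_fun h3 ⟨_, h5⟩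
        rwa [hBW] at this
      have h7 : ∀ i, bf a w.1 (v i) = 0 := by
        intro i
        have := w.2
        rw [LinearMap.mem_ker] at this
        have := congrFun this i
        rw [hT] at this
        rw [bf_comm]; exact this
      rw [bf_sub_right, bf_sum_right] at h6
      have h8 : ∑ j, bf a (v j) u / b j * bf a w.1 (v j) = 0 :=
        Finset.sum_eq_zero fun i _ => by rw [h7, mul_zero]
      rw [h8, sub_zero] at h6
      exact h6
    have h9 : w = 0 := by
      apply Subtype.ext
      funext i
      have := h4 (Pi.single i 1)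
      rw [bf_single_right] at this
      rcases mul_eq_zero.1 this with h | h
      · exact absurd h (ha i)
      · simpa using h
    exact β.ne_zero _ h9
  · intro i j hij
    have : Fin.cast hrk'.symm i ≠ Fin.cast hrk'.symm j := by
      intro h; exact hij (Fin.cast_injective _ h)
    exact hβ this
  · intro i j
    have := (β (Fin.cast hrk'.symm j)).2
    rw [LinearMap.mem_ker] at this
    have := congrFun this i
    rw [hT] at this
    exact this


private lemma card_StepV (n : ℕ) : Fintype.card (Pu n) = 2 ^ n - 1 := by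
  classical
  rw [Fintype.card_subtype]
  have : (Finset.univ.filter fun S : Finset (Fin n) => S.Nonempty) =
      (Finset.univ : Finset (Finset (Fin n))).erase ∅ := by
    ext S; simp [Finset.nonempty_iff_ne_empty]
  rw [this, Finset.card_erase_of_mem (Finset.mem_univ _), Finset.card_univ, Fintype.card_finset,
    Fintype.card_fin]

private lemma emb_one_StepV {K κ : Type} [Field K] [Fintype κ] {n l : ℕ} (x : Fin n → K) (α : Fin l → K)
    (q : κ → K) (h : Emb (Sum.elim α q) (ppf x)) : Emb (Sum.elim (one α) q) (pf x) := by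
  have h1 : Emb (Sum.elim (fun _ : Unit => (1 : K)) (ppf x)) (pf x) := by
    have := Emb.comp_inj (pf x) (Sum.elim (fun _ : Unit => (∅ : Finset (Fin n)))
      (fun S : Pu n => S.1)) (by
        rintro (i | i) (j | j) hij
        · rfl
        · simp only [Sum.elim_inl, Sum.elim_inr] at hij
          exact absurd hij.symm j.2.ne_empty
        · simp only [Sum.elim_inl, Sum.elim_inr] at hij
          exact absurd hij i.2.ne_empty
        · simp only [Sum.elim_inr] at hij
          rw [Subtype.ext hij])
    convert this using 1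
    funext j
    rcases j with j | j
    · simp [pf_empty]
    · rfl
  have h2 := ((Emb.refl (fun _ : Unit => (1 : K))).sum h).trans h1
  have h3 := h2.restrict (κ' := Fin (l + 1) ⊕ κ)
    (Sum.elim (Fin.cases (motive := fun _ => Unit ⊕ (Fin l ⊕ κ)) (Sum.inl ())
      (fun j => Sum.inr (Sum.inl j))) (fun j => Sum.inr (Sum.inr j))) (by
      rintro (i | i) (j | j) hij
      · simp only [Sum.elim_inl] at hij
        congr 1
        revert hij
        refine Fin.cases ?_ (fun i => ?_) i <;> refine Fin.cases ?_ (fun j => ?_) j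
        · intro; rfl
        · intro h; simp at h
        · intro h; simp at h
        · intro h; simp at h; rw [h]
      · simp only [Sum.elim_inl, Sum.elim_inr] at hij
        revert hij
        refine Fin.cases ?_ (fun i => ?_) i
        · intro h; simp at h
        · intro h; simp at h
      · simp only [Sum.elim_inl, Sum.elim_inr] at hij
        revert hij
        refine Fin.cases ?_ (fun j => ?_) j
        · intro h; simp at h
        · intro h; simp at h
      · simp only [Sum.elim_inr, Sum.inr.injEq] at hij
        rw [hij])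
  convert h3 using 1
  funext j
  rcases j with j | j
  · refine Fin.cases ?_ (fun j => ?_) j
    · simp [one]
    · simp [one]
  · rfl

theorem pStepV : StCompl → StPfHyp → StHypCompl → StUniv → StRep → StStereo → StStepV := by
  intro _ hPfHyp hHypCompl hUniv hRep hStereo k F _ _ _ h2 L n s l x U hn hs hxL hx hUL hU hqU α V
    a v hα ha hαL haL hVL hV0 hV1 hv0 hv1 hls
  obtain ⟨n', rfl⟩ : ∃ n', n = n' + 1 := ⟨n - 1, by omega⟩
  have hs' : s = 2 ^ n' := by simpa using hs
  have hcard : Fintype.card (Finset (Fin (n' + 1))) = 2 * 2 ^ n' := by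
    rw [Fintype.card_finset, Fintype.card_fin, pow_succ]; ring
  let φ : L →+* F := algebraMap L F
  have hφ : Function.Injective φ := φ.injective
  have hφL : ∀ z, φ z ∈ L := fun z => z.2
  have h2L : (2 : L) ≠ 0 := by
    have := (map_ne_zero (algebraMap k L)).2 h2
    rwa [map_ofNat] at this
  have h2F : (2 : F) ≠ 0 := by
    have := (map_ne_zero (algebraMap k F)).2 h2
    rwa [map_ofNat] at this
  let x' : Fin (n' + 1) → L := fun j => ⟨x j, hxL j⟩
  let U' : Finset (Fin (n' + 1)) → L := fun S => ⟨U S, hUL S⟩
  let α' : Fin l → L := fun j => ⟨α j, hαL j⟩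
  let a' : L := ⟨a, haL⟩
  let V' : Fin l → Pu (n' + 1) → L := fun j S => ⟨V j S, hVL j S⟩
  have hx' : im φ x' = x := rfl
  have hα' : im φ α' = α := rfl
  have ha' : φ a' = a := rfl
  have hU' : im φ U' = U := rfl
  have hV' : ∀ j, im φ (V' j) = V j := fun _ => rfl
  have hx'0 : ∀ j, x' j ≠ 0 := fun j h => hx j (by rw [← hx']; unfold im; rw [h, map_zero])
  have hα'0 : ∀ j, α' j ≠ 0 := fun j h => hα j (by rw [← hα']; unfold im; rw [h, map_zero])
  have ha'0 : a' ≠ 0 := fun h => ha (by rw [← ha', h, map_zero])
  have hppf : im φ (ppf x') = ppf x := by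
    funext S
    have := congrFun (pf_im φ x') S.1
    exact this.symm
  have hA : ¬ Aniso (pf x') := by
    intro h
    apply hU
    rw [← hU', h U' (by
      apply hφ
      rw [← qf_im, ← pf_im, hx', map_zero]
      exact hqU)]
    funext S; simp [im]
  have hHyp := hPfHyp L h2L n' x' hx'0 hA
  obtain ⟨hle, q, e, hq0, he0, he1, heV⟩ := compl_StepV h2L (ppf x')
    (fun S => pf_ne_zero hx'0 S.1) l α' hα'0 V'
    (fun i j hij => hφ (by rw [← bf_im, hppf, hV', hV', map_zero]; exact hV0 i j hij))
    (fun j => hφ (by rw [← qf_im, hppf, hV', hV1]; rfl))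
  rw [card_StepV] at hle
  have hm0 : Fintype.card (Pu (n' + 1)) - l = 2 ^ (n' + 1) - 1 - l := by rw [card_StepV]
  have hcl : l + (Fintype.card (Pu (n' + 1)) - l) = Fintype.card (Pu (n' + 1)) := by
    rw [card_StepV]; omega
  generalize Fintype.card (Pu (n' + 1)) - l = m at q e hq0 he0 he1 heV hm0 hcl
  have hpow : 2 ^ (n' + 1) = 2 * 2 ^ n' := by rw [pow_succ]; ring
  have hpos : 0 < 2 ^ n' := by positivity
  have hls1 : l + 1 ≤ s := by rcases hls with h | h; exacts [h.le, h.1.le]
  have hEmb : Emb (Sum.elim α' q) (ppf x') := by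
    refine ⟨Sum.elim V' e, ?_, ?_⟩
    · rintro (i | i) (j | j) hij
      · refine hφ ?_
        rw [map_zero, ← bf_im, hppf]
        simp only [Sum.elim_inl]
        rw [hV', hV']
        exact hV0 i j fun h => hij (by rw [h])
      · exact heV i j
      · simp only [Sum.elim_inl, Sum.elim_inr]
        rw [bf_comm]; exact heV j i
      · exact he0 i j fun h => hij (by rw [h])
    · rintro (j | j)
      · refine hφ ?_
        rw [← qf_im, hppf]
        simp only [Sum.elim_inl]
        rw [hV', hV1]; rfl
      · exact he1 j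
  obtain ⟨hneg, hiso⟩ := hHypCompl L (Finset (Fin (n' + 1))) h2L (pf x') (2 ^ n')
    (fun S => pf_ne_zero hx'0 S) hcard hHyp (l + 1) (by omega) (one α') m q
    (by omega) (by
      intro j
      refine Fin.cases ?_ (fun i => ?_) j
      · simp [one]
      · simpa [one] using hα'0 i) hq0 (emb_one_StepV x' α' q hEmb)
  have hrep : ∃ p : Fin m → L, qf q p = a' := by
    rcases hls with hls | ⟨hls, hI⟩
    · exact hUniv L (Fin m) h2L q hq0 (hiso (by omega)) a'
    · have h4 : ¬ Aniso (Sum.elim (one α') (fun _ : Unit => a')) := by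
        intro h5
        obtain ⟨z, hzL, hz0, hz1⟩ := hI
        apply hz0
        let z' : Fin (l + 1) ⊕ Unit → L := fun i => ⟨z i, hzL i⟩
        have hz' : im φ z' = z := rfl
        have h6 : im φ (Sum.elim (one α') (fun _ : Unit => a')) =
            Sum.elim (one α) (fun _ : Unit => a) := by
          funext j
          rcases j with j | j
          · refine Fin.cases ?_ (fun j => ?_) j
            · simp [im, one]
            · simp only [im, one, Sum.elim_inl, Fin.cons_succ]; rfl
          · rfl
        rw [← hz', h5 z' (hφ (by rw [← qf_im, h6, map_zero]; exact hz1))]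
        funext i; simp [im]
      obtain ⟨z, hz⟩ := hRep L (Fin (l + 1)) h2L (one α') a' (by
        intro j
        refine Fin.cases ?_ (fun i => ?_) j
        · simp [one]
        · simpa [one] using hα'0 i) h4
      obtain ⟨w, hw0, hw1⟩ := hneg
      refine ⟨∑ j, z j • w j, ?_⟩
      rw [qf_orth hw0 hw1]
      have : qf (fun j => - one α' j) z = - qf (one α') z := by
        unfold qf; rw [← Finset.sum_neg_distrib]
        exact Finset.sum_congr rfl fun j _ => by ring
      rw [this, hz, neg_neg]
  obtain ⟨p, hp⟩ := hrep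
  let v' : Fin m → F := fun i => bf (ppf x) (im φ (e i)) v / φ (q i)
  have he0' : ∀ i j, i ≠ j → bf (ppf x) (im φ (e i)) (im φ (e j)) = 0 := by
    intro i j hij
    rw [← hppf, bf_im, he0 i j hij, map_zero]
  have he1' : ∀ j, qf (ppf x) (im φ (e j)) = im φ q j := by
    intro j
    rw [← hppf, qf_im, he1]; rfl
  have hq0' : ∀ j, im φ q j ≠ 0 := fun j => (map_ne_zero φ).2 (hq0 j)
  have hvexp : v = ∑ j, v' j • im φ (e j) := by
    have h := expand_StepV (ppf x) (Sum.elim α (im φ q)) (by
      rintro (j | j)
      · exact hα j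
      · exact hq0' j) (Sum.elim V fun j => im φ (e j)) (by
      rintro (i | i) (j | j) hij
      · exact hV0 i j fun h => hij (by rw [h])
      · simp only [Sum.elim_inl, Sum.elim_inr]
        rw [← hV', ← hppf, bf_im, heV, map_zero]
      · simp only [Sum.elim_inl, Sum.elim_inr]
        rw [bf_comm, ← hV', ← hppf, bf_im, heV, map_zero]
      · exact he0' i j fun h => hij (by rw [h])) (by
      rintro (j | j)
      · exact hV1 j
      · exact he1' j) (by rw [Fintype.card_sum, Fintype.card_fin, Fintype.card_fin, hcl]) v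
    rw [Fintype.sum_sum_type] at h
    simp only [Sum.elim_inl, Sum.elim_inr, hv0, zero_div, zero_smul, Finset.sum_const_zero,
      zero_add] at h
    exact h
  have hv'1 : qf (im φ q) v' = a := by
    rw [← qf_orth he0' he1' v', ← hvexp, hv1]
  have hst := hStereo k F (Fin m) h2 L (im φ q) a (im φ p) v' (fun i => hφL _) hq0' ha
    (fun i => hφL _) (by rw [qf_im, hp]; rfl) hv'1
  have hgen : L ⊔ IntermediateField.adjoin k (Set.range v') =
      L ⊔ IntermediateField.adjoin k (Set.range v) := by
    apply le_antisymm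
    · refine sup_le le_sup_left (IntermediateField.adjoin_le_iff.2 ?_)
      rintro _ ⟨i, rfl⟩
      have hL : ∀ z : L, φ z ∈ L ⊔ IntermediateField.adjoin k (Set.range v) :=
        fun z => (le_sup_left : L ≤ _) (hφL z)
      refine div_mem ?_ (hL _)
      unfold bf
      refine sum_mem fun S _ => ?_
      refine mul_mem ?_ (mul_mem (hL _) ?_)
      · rw [← hppf]; exact hL _
      · exact (le_sup_right : IntermediateField.adjoin k (Set.range v) ≤ _)
          (IntermediateField.subset_adjoin k _ ⟨S, rfl⟩)
    · refine sup_le le_sup_left (IntermediateField.adjoin_le_iff.2 ?_)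
      rintro _ ⟨S, rfl⟩
      have hL : ∀ z : L, φ z ∈ L ⊔ IntermediateField.adjoin k (Set.range v') :=
        fun z => (le_sup_left : L ≤ _) (hφL z)
      rw [hvexp, Finset.sum_apply]
      refine sum_mem fun j _ => ?_
      rw [Pi.smul_apply, smul_eq_mul]
      refine mul_mem ?_ (hL _)
      exact (le_sup_right : IntermediateField.adjoin k (Set.range v') ≤ _)
        (IntermediateField.subset_adjoin k _ ⟨j, rfl⟩)
  rw [hgen, Fintype.card_fin] at hst
  have : m - 1 = 2 ^ (n' + 1) - 2 - l := by omega
  rwa [this] at hst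

end Pool.Agent.Helper44.RED
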