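import Pool.Agent.Helper44.RED.StC

/-!
# Project RED, module Stereo
-/

set_option autoImplicit false

open Polynomial

namespace Pool.Agent.Helper44.RED

private theorem gen_of_Stereo {k F ι : Type} [Field k] [Field F] [Algebra k F] [Fintype ι]
    (L : IntermediateField k F) (v : ι → F) (j : ι) (g : ι → F)
    (h1 : ∀ i, v i ∈ L ⊔ IntermediateField.adjoin k (Set.range (fun i : {i // i ≠ j} => g i)))
    (h2 : ∀ i, g i ∈ L ⊔ IntermediateField.adjoin k (Set.range v)) :
    GenN L (L ⊔ IntermediateField.adjoin k (Set.range v)) (Fintype.card ι - 1) := by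
  classical
  have hc : Fintype.card {i // i ≠ j} = Fintype.card ι - 1 := by
    rw [Fintype.card_subtype_compl (fun i => i = j), Fintype.card_subtype_eq]
  let e := (Fintype.equivFinOfCardEq hc).symm
  refine ⟨fun m => g (e m).1, ?_⟩
  have hr : Set.range (fun m => g (e m).1) = Set.range (fun i : {i // i ≠ j} => g i) :=
    e.surjective.range_comp (fun i : {i // i ≠ j} => g i)
  rw [hr]
  apply le_antisymm
  · refine sup_le le_sup_left ?_
    rw [IntermediateField.adjoin_le_iff]
    rintro _ ⟨i, rfl⟩
    exact h1 i
  · refine sup_le le_sup_left ?_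
    rw [IntermediateField.adjoin_le_iff]
    rintro _ ⟨i, rfl⟩
    exact h2 i

theorem pStereo : StStereo := by
  classical
  intro k F ι _ _ _ _ h2 L q a p v hqL hq ha hpL hp hv
  have h2F : (2 : F) ≠ 0 := by
    intro h
    apply h2
    apply (algebraMap k F).injective
    rw [map_zero, map_ofNat]
    exact h
  set V := L ⊔ IntermediateField.adjoin k (Set.range v) with hV
  have hLV : ∀ z, z ∈ L → z ∈ V := fun z hz => (le_sup_left : L ≤ V) hz
  have hvV : ∀ i, v i ∈ V := fun i =>
    (le_sup_right : IntermediateField.adjoin k (Set.range v) ≤ V)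
      (IntermediateField.subset_adjoin k _ ⟨i, rfl⟩)
  -- a nonzero coordinate of p
  have hj0 : ∃ j, q j * p j ≠ 0 := by
    by_contra hcon
    push Not at hcon
    apply ha
    rw [← hp, qf]
    apply Finset.sum_eq_zero
    intro i _
    have := hcon i
    rw [pow_two, ← mul_assoc, this, zero_mul]
  set δ : ι → F := fun i => v i - p i with hδ
  have hδV : ∀ i, δ i ∈ V := fun i => V.sub_mem (hvV i) (hLV _ (hpL i))
  have key : 2 * bf q p δ + qf q δ = 0 := by
    have e : 2 * bf q p δ + qf q δ = qf q v - qf q p := by
      simp only [bf, qf, hδ]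
      rw [Finset.mul_sum, ← Finset.sum_add_distrib, ← Finset.sum_sub_distrib]
      apply Finset.sum_congr rfl
      intro i _
      ring
    rw [e, hv, hp, sub_self]
  by_cases hQ : qf q δ = 0
  · -- isotropic direction
    have hb : bf q p δ = 0 := by
      rw [hQ, add_zero] at key
      exact (mul_eq_zero.1 key).resolve_left h2F
    obtain ⟨j, hj⟩ := hj0
    refine gen_of_Stereo L v j δ ?_ hδV
    set M := L ⊔ IntermediateField.adjoin k (Set.range (fun i : {i // i ≠ j} => δ i)) with hM
    have hLM : ∀ z, z ∈ L → z ∈ M := fun z hz => (le_sup_left : L ≤ M) hz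
    have hgM : ∀ i, i ≠ j → δ i ∈ M := fun i hi =>
      (le_sup_right : IntermediateField.adjoin k (Set.range (fun i : {i // i ≠ j} => δ i)) ≤ M)
        (IntermediateField.subset_adjoin k _ ⟨⟨i, hi⟩, rfl⟩)
    have hdj : δ j = -(∑ i ∈ Finset.univ.erase j, q i * (p i * δ i)) / (q j * p j) := by
      have e : bf q p δ = q j * (p j * δ j) + ∑ i ∈ Finset.univ.erase j, q i * (p i * δ i) := by
        rw [bf]
        exact (Finset.add_sum_erase Finset.univ (fun i => q i * (p i * δ i))
          (Finset.mem_univ j)).symm
      rw [hb] at e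
      rw [eq_div_iff hj]
      linear_combination -e
    have hall : ∀ i, δ i ∈ M := by
      intro i
      by_cases hi : i = j
      · rw [hi, hdj]
        refine M.div_mem (M.neg_mem (M.sum_mem fun i hi => ?_))
          (M.mul_mem (hLM _ (hqL j)) (hLM _ (hpL j)))
        exact M.mul_mem (hLM _ (hqL i)) (M.mul_mem (hLM _ (hpL i)) (hgM i (Finset.ne_of_mem_erase hi)))
      · exact hgM i hi
    intro i
    have e : v i = δ i + p i := by simp only [hδ]; ring
    rw [e]
    exact M.add_mem (hall i) (hLM _ (hpL i))
  · -- anisotropic direction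
    have hj1 : ∃ j, δ j ≠ 0 := by
      by_contra hcon
      push Not at hcon
      apply hQ
      rw [qf]
      apply Finset.sum_eq_zero
      intro i _
      rw [hcon i]; ring
    obtain ⟨j, hj⟩ := hj1
    set e : ι → F := fun i => δ i / δ j with he
    have hδe : ∀ i, δ i = δ j * e i := fun i => by simp only [he]; field_simp
    refine gen_of_Stereo L v j e ?_ (fun i => V.div_mem (hδV i) (hδV j))
    set M := L ⊔ IntermediateField.adjoin k (Set.range (fun i : {i // i ≠ j} => e i)) with hM
    have hLM : ∀ z, z ∈ L → z ∈ M := fun z hz => (le_sup_left : L ≤ M) hz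
    have hgM : ∀ i, e i ∈ M := fun i => by
      by_cases hi : i = j
      · have : e i = 1 := by simp only [he]; rw [hi]; exact div_self hj
        rw [this]; exact M.one_mem
      · exact (le_sup_right :
          IntermediateField.adjoin k (Set.range (fun i : {i // i ≠ j} => e i)) ≤ M)
          (IntermediateField.subset_adjoin k _ ⟨⟨i, hi⟩, rfl⟩)
    have eq1 : qf q δ = δ j ^ 2 * qf q e := by
      simp only [qf]
      rw [Finset.mul_sum]
      apply Finset.sum_congr rfl
      intro i _
      rw [hδe i]; ring
    have eb1 : bf q p δ = δ j * bf q p e := by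
      simp only [bf]
      rw [Finset.mul_sum]
      apply Finset.sum_congr rfl
      intro i _
      rw [hδe i]; ring
    have hqe : qf q e ≠ 0 := by
      intro h
      apply hQ
      rw [eq1, h, mul_zero]
    have hdj : δ j = -(2 * bf q p e) / qf q e := by
      rw [eq_div_iff hqe]
      rw [eq1, eb1] at key
      have : δ j * (2 * bf q p e + δ j * qf q e) = 0 := by linear_combination key
      have := (mul_eq_zero.1 this).resolve_left hj
      linear_combination this
    have h2M : (2 : F) ∈ M := by
      have : (2 : F) = 1 + 1 := by norm_num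
      rw [this]; exact M.add_mem M.one_mem M.one_mem
    have hqeM : qf q e ∈ M := by
      rw [qf]
      exact M.sum_mem fun i _ => M.mul_mem (hLM _ (hqL i)) (pow_mem (hgM i) 2)
    have hbeM : bf q p e ∈ M := by
      rw [bf]
      exact M.sum_mem fun i _ => M.mul_mem (hLM _ (hqL i)) (M.mul_mem (hLM _ (hpL i)) (hgM i))
    have hdM : δ j ∈ M := by
      rw [hdj]
      exact M.div_mem (M.neg_mem (M.mul_mem h2M hbeM)) hqeM
    intro i
    have e1 : v i = δ j * e i + p i := by rw [← hδe i]; simp only [hδ]; ring
    rw [e1]
    exact M.add_mem (M.mul_mem hdM (hgM i)) (hLM _ (hpL i))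

end Pool.Agent.Helper44.RED
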