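import Pool.Agent.Helper44.RED.StA

set_option autoImplicit false

open Polynomial

namespace Pool.Agent.Helper44.RED

/-- degree bound -/
private lemma natDegree_le_one_Sub {K ι : Type} [Field K] [Fintype ι] (a : ι → K) (ha : Aniso a)
    (h : ι → K[X]) (f : K[X]) (hf : f.natDegree ≤ 2) (hh : qf (fun i => C (a i)) h = f) (i : ι) :
    (h i).natDegree ≤ 1 := by
  classical
  by_contra hcon
  push Not at hcon
  set d : ℕ := Finset.univ.sup (fun j => (h j).natDegree) with hd
  have hle : ∀ j, (h j).natDegree ≤ d := fun j =>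
    Finset.le_sup (f := fun j => (h j).natDegree) (Finset.mem_univ j)
  have hd2 : 2 ≤ d := le_trans (by omega) (hle i)
  obtain ⟨j, -, hj⟩ := Finset.exists_mem_eq_sup Finset.univ ⟨i, Finset.mem_univ i⟩
    (fun j => (h j).natDegree)
  have hj' : (h j).natDegree = d := hj.symm
  have hcoef : f.coeff (d + d) = qf a (fun j => (h j).coeff d) := by
    rw [← hh]
    unfold qf
    rw [finsetSum_coeff]
    refine Finset.sum_congr rfl fun k _ => ?_
    rw [coeff_C_mul, pow_two, pow_two, coeff_mul_add_eq_of_natDegree_le (hle k) (hle k)]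
  have h0 : f.coeff (d + d) = 0 := coeff_eq_zero_of_natDegree_lt (by omega)
  have h1 := ha _ (hcoef.symm.trans h0)
  have h2 := congrFun h1 j
  simp only [Pi.zero_apply] at h2
  rw [← hj', coeff_natDegree, leadingCoeff_eq_zero] at h2
  rw [h2, natDegree_zero] at hj'
  omega

/-- coefficients of a linear representation -/
private lemma coeffs_Sub {K ι : Type} [Field K] [Fintype ι] (h2 : (2 : K) ≠ 0) (a : ι → K)
    (ha : Aniso a) (h : ι → K[X]) (c R : K) (hh : qf (fun i => C (a i)) h = C c * X ^ 2 + C R) :
    ∃ p q : ι → K, qf a q = c ∧ bf a p q = 0 ∧ qf a p = R := by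
  classical
  have hdeg : (C c * X ^ 2 + C R : K[X]).natDegree ≤ 2 := by
    compute_degree
  have h1 := natDegree_le_one_Sub a ha h _ hdeg hh
  refine ⟨fun i => (h i).coeff 0, fun i => (h i).coeff 1, ?_, ?_, ?_⟩
  · have hcoef : (C c * X ^ 2 + C R : K[X]).coeff (1 + 1) = qf a (fun j => (h j).coeff 1) := by
      rw [← hh]
      unfold qf
      rw [finsetSum_coeff]
      refine Finset.sum_congr rfl fun k _ => ?_
      rw [coeff_C_mul, pow_two, pow_two, coeff_mul_add_eq_of_natDegree_le (h1 k) (h1 k)]
    rw [← hcoef]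
    simp
  · have hcoef : (C c * X ^ 2 + C R : K[X]).coeff 1 =
        2 * bf a (fun j => (h j).coeff 0) (fun j => (h j).coeff 1) := by
      rw [← hh]
      unfold qf bf
      rw [finsetSum_coeff, Finset.mul_sum]
      refine Finset.sum_congr rfl fun k _ => ?_
      rw [coeff_C_mul, pow_two, mul_coeff_one]
      ring
    have h3 : (C c * X ^ 2 + C R : K[X]).coeff 1 = 0 := by
      simp [coeff_X_pow]
    rw [h3] at hcoef
    rcases mul_eq_zero.1 hcoef.symm with h4 | h4
    · exact absurd h4 h2
    · exact h4
  · have hcoef : (C c * X ^ 2 + C R : K[X]).coeff 0 = qf a (fun j => (h j).coeff 0) := by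
      rw [← hh]
      unfold qf
      rw [finsetSum_coeff]
      refine Finset.sum_congr rfl fun k _ => ?_
      rw [coeff_C_mul, pow_two, pow_two, mul_coeff_zero]
    rw [← hcoef]
    simp

/-- splitting off one variable -/
private lemma split_Sub (E F : Type) [Field E] [Field F] (φ : E →+* F) (m : ℕ)
    (z : Fin (m + 1) → F) (hi : Indep φ z) (hg : GenBy φ (Set.range z)) :
    ∃ (L : Type) (_ : Field L) (φ' : E →+* L) (z' : Fin m → L) (ψ : RatFunc L →+* F),
      Indep φ' z' ∧ GenBy φ' (Set.range z') ∧ Function.Surjective ψ ∧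
      ψ (algebraMap L[X] (RatFunc L) X) = z 0 ∧
      (∀ e, ψ (algebraMap L[X] (RatFunc L) (C (φ' e))) = φ e) ∧
      ∀ j, ψ (algebraMap L[X] (RatFunc L) (C (z' j))) = z j.succ := by
  classical
  set P := MvPolynomial (Fin m) E with hPdef
  set L := FractionRing P with hLdef
  set φ' : E →+* L := (algebraMap P L).comp MvPolynomial.C with hφ'
  set z' : Fin m → L := fun j => algebraMap P L (MvPolynomial.X j) with hz'
  set θ : P →+* F := MvPolynomial.eval₂Hom φ (fun j => z j.succ) with hθdef
  have hθC : ∀ r, θ (MvPolynomial.C r) = φ r := fun r => MvPolynomial.eval₂Hom_C _ _ r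
  have hθX : ∀ j, θ (MvPolynomial.X j) = z j.succ := fun j => MvPolynomial.eval₂Hom_X' _ _ j
  have hθ : Function.Injective θ := by
    have h3 : θ = (MvPolynomial.eval₂Hom φ z).comp (MvPolynomial.rename Fin.succ).toRingHom := by
      apply MvPolynomial.ringHom_ext
      · intro r; simp [θ]
      · intro i; simp [θ]
    rw [h3]
    exact hi.comp (MvPolynomial.rename_injective _ (Fin.succ_injective m))
  set ψ₀ : L →+* F := IsFractionRing.lift hθ with hψ₀def
  have hψ₀ : ∀ x : P, ψ₀ (algebraMap P L x) = θ x := fun x => IsFractionRing.lift_algebraMap hθ x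
  set χ : L[X] →+* F := eval₂RingHom ψ₀ (z 0) with hχdef
  have hχ : Function.Injective χ := by
    rw [injective_iff_map_eq_zero]
    intro p hp
    obtain ⟨b, -, hb⟩ := IsLocalization.integerNormalization_spec (nonZeroDivisors P) p
    set q : P[X] := IsLocalization.integerNormalization (nonZeroDivisors P) p with hq
    have h4 : eval₂ θ (z 0) q = 0 := by
      have h5 : eval₂ θ (z 0) q = eval₂ ψ₀ (z 0) (q.map (algebraMap P L)) := by
        rw [eval₂_map]
        congr 1
        ext x
        · exact (hψ₀ _).symm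
        · exact (hψ₀ _).symm
      rw [h5, hb, Algebra.smul_def, eval₂_mul]
      have h6 : eval₂ ψ₀ (z 0) p = 0 := hp
      rw [h6, mul_zero]
    have h7 : MvPolynomial.eval₂Hom φ z =
        (eval₂RingHom θ (z 0)).comp (MvPolynomial.finSuccEquiv E m : _ →+* _) := by
      apply MvPolynomial.ringHom_ext
      · intro r
        simp only [RingHom.comp_apply, RingHom.coe_coe, MvPolynomial.finSuccEquiv_apply,
          MvPolynomial.eval₂Hom_C, coe_eval₂RingHom, eval₂_C]
        exact (hθC r).symm
      · intro i
        refine Fin.cases ?_ (fun i => ?_) i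
        · simp [MvPolynomial.finSuccEquiv_X_zero]
        · simp only [RingHom.comp_apply, RingHom.coe_coe, MvPolynomial.finSuccEquiv_X_succ,
            MvPolynomial.eval₂Hom_X', coe_eval₂RingHom, eval₂_C]
          exact (hθX i).symm
    have h8 : MvPolynomial.eval₂Hom φ z ((MvPolynomial.finSuccEquiv E m).symm q) = 0 := by
      rw [h7]
      simp only [RingHom.comp_apply]
      have h9 : (MvPolynomial.finSuccEquiv E m : _ →+* _)
          ((MvPolynomial.finSuccEquiv E m).symm q) = q :=
        (MvPolynomial.finSuccEquiv E m).apply_symm_apply q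
      rw [h9]
      exact h4
    have h10 : (MvPolynomial.finSuccEquiv E m).symm q = 0 := hi (by rw [h8, map_zero])
    have h11 : q = 0 := by
      rw [← (MvPolynomial.finSuccEquiv E m).apply_symm_apply q, h10, map_zero]
    exact (IsFractionRing.integerNormalization_eq_zero_iff (A := P) (K := L)).1 h11
  refine ⟨L, inferInstance, φ', z', IsFractionRing.lift hχ, ?_, ?_, ?_, ?_, ?_, ?_⟩
  · have h3 : MvPolynomial.eval₂Hom φ' z' = algebraMap P L := by
      apply MvPolynomial.ringHom_ext
      · intro r; simp [φ']
      · intro i; simp [z']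
    unfold Indep
    rw [h3]
    exact IsFractionRing.injective P L
  · unfold GenBy
    rw [eq_top_iff]
    intro x _
    obtain ⟨p, q, _, rfl⟩ := IsFractionRing.div_surjective (A := P) x
    have key : ∀ p : P, algebraMap P L p ∈
        Subfield.closure (Set.range φ' ∪ Set.range z') := by
      intro p
      induction p using MvPolynomial.induction_on with
      | C r => exact Subfield.subset_closure (Or.inl ⟨r, rfl⟩)
      | add p q hp hq => rw [map_add]; exact add_mem hp hq
      | mul_X p i hp =>
        rw [map_mul]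
        exact mul_mem hp (Subfield.subset_closure (Or.inr ⟨i, rfl⟩))
    exact div_mem (key p) (key q)
  · intro y
    have h3 : y ∈ (IsFractionRing.lift (K := RatFunc L) hχ).fieldRange := by
      have h4 : y ∈ Subfield.closure (Set.range φ ∪ Set.range z) := by
        rw [hg]; trivial
      refine Subfield.closure_le.2 ?_ h4
      rintro _ (⟨e, rfl⟩ | ⟨j, rfl⟩)
      · refine ⟨algebraMap L[X] (RatFunc L) (C (φ' e)), ?_⟩
        rw [IsFractionRing.lift_algebraMap]
        simp only [χ, coe_eval₂RingHom, eval₂_C, φ', RingHom.comp_apply, hψ₀]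
        exact hθC e
      · refine Fin.cases ?_ (fun j => ?_) j
        · refine ⟨algebraMap L[X] (RatFunc L) X, ?_⟩
          rw [IsFractionRing.lift_algebraMap]
          simp [χ]
        · refine ⟨algebraMap L[X] (RatFunc L) (C (z' j)), ?_⟩
          rw [IsFractionRing.lift_algebraMap]
          simp only [χ, coe_eval₂RingHom, eval₂_C, z', hψ₀]
          exact hθX j
    exact h3
  · rw [IsFractionRing.lift_algebraMap]
    simp [χ]
  · intro e
    rw [IsFractionRing.lift_algebraMap]
    simp only [χ, coe_eval₂RingHom, eval₂_C, φ', RingHom.comp_apply, hψ₀]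
    exact hθC e
  · intro j
    rw [IsFractionRing.lift_algebraMap]
    simp only [χ, coe_eval₂RingHom, eval₂_C, z', hψ₀]
    exact hθX j

private lemma Emb_congr_Sub {K ι κ κ' : Type} [Field K] [Fintype ι] [Fintype κ] {a : ι → K} {b : κ → K}
    {b' : κ' → K} (h : Emb b a) (e : κ' → κ) (he : Function.Injective e)
    (hb : ∀ j, b' j = b (e j)) : Emb b' a := by
  have := h.restrict e he
  rwa [← funext hb] at this

private lemma main_Sub (hCP : StCP) (hPT : StPT) (hCompl : StCompl) (hFlip : StFlip)
    (hRefl : StRefl) (m : ℕ) : ∀ (E F : Type) [Field E] [Field F] (ι : Type) [Fintype ι],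
      (2 : E) ≠ 0 → ∀ (φ : E →+* F) (a : ι → E) (c : Fin m → E) (z : Fin m → F) (g : ι → F),
      Aniso a → (∀ j, c j ≠ 0) → Indep φ z → GenBy φ (Set.range z) →
      qf (im φ a) g = qf (im φ c) z → Emb c a := by
  classical
  induction m with
  | zero =>
    intro E F _ _ ι _ _ φ a c z g _ _ _ _ _
    exact ⟨fun j => j.elim0, fun i => i.elim0, fun j => j.elim0⟩
  | succ m ih =>
    intro E F _ _ ι _ h2 φ a c z g ha hc hi hg hq
    obtain ⟨L, _, φ', z', ψ, hi', hg', hsur, hX, hφ, hz⟩ := split_Sub E F φ m z hi hg
    have hPure : PureExt φ' := ⟨m, z', hi', hg'⟩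
    have hPres : Pres φ' := hPT E L φ' hPure
    have haL : Aniso (im φ' a) := hPres.aniso ha
    have h2L : (2 : L) ≠ 0 := by
      have : φ' 2 ≠ 0 := (map_ne_zero φ').2 h2
      rwa [map_ofNat] at this
    -- the polynomial
    set R : L := qf (im φ' fun j => c j.succ) z' with hR
    choose g' hg'' using fun i => hsur (g i)
    have hrep : qf (fun i => algebraMap L (RatFunc L) (im φ' a i)) g' =
        algebraMap L[X] (RatFunc L) (C (φ' (c 0)) * X ^ 2 + C R) := by
      apply ψ.injective
      have hl : ψ (qf (fun i => algebraMap L (RatFunc L) (im φ' a i)) g') = qf (im φ a) g := by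
        unfold qf
        rw [map_sum]
        refine Finset.sum_congr rfl fun i _ => ?_
        rw [map_mul, map_pow, hg'']
        congr 1
        exact hφ (a i)
      rw [hl, hq]
      unfold qf
      rw [Fin.sum_univ_succ, map_add, map_mul, map_pow, map_add, map_mul, map_pow, hX, hφ]
      congr 1
      rw [hR]
      unfold qf
      rw [map_sum, map_sum, map_sum]
      refine Finset.sum_congr rfl fun j _ => ?_
      rw [map_mul, map_mul, map_mul, map_pow, map_pow, map_pow, hz]
      congr 1
      exact (hφ (c j.succ)).symm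
    obtain ⟨h, hh⟩ := hCP L ι h2L (im φ' a) haL _ g' hrep
    obtain ⟨p, q, hq2, hpq, hp⟩ := coeffs_Sub h2L (im φ' a) haL h (φ' (c 0)) R hh
    -- (i) the value `c 0` over `E`
    have hiso : ¬ Aniso (Sum.elim a (fun _ : Unit => - c 0)) := by
      intro hcon
      have hL := hPres.aniso hcon
      have h3 := hL (Sum.elim q (fun _ => 1)) (by
        have : im φ' (Sum.elim a (fun _ : Unit => - c 0)) =
            Sum.elim (im φ' a) (fun _ : Unit => - φ' (c 0)) := by
          funext i
          rcases i with i | i
          · rfl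
          · exact map_neg φ' (c 0)
        rw [this, qf_sumElim, Sum.elim_comp_inl, Sum.elim_comp_inr, hq2]
        unfold qf
        simp)
      have := congrFun h3 (Sum.inr ())
      simp at this
    obtain ⟨e, he⟩ : ∃ e : ι → E, qf a e = c 0 := by
      unfold Aniso at hiso
      push Not at hiso
      obtain ⟨x, hx, hx0⟩ := hiso
      rw [qf_sumElim] at hx
      have hr : qf (fun _ : Unit => - c 0) (x ∘ Sum.inr) = - c 0 * x (Sum.inr ()) ^ 2 := by
        unfold qf; simp
      rw [hr] at hx
      have ht : x (Sum.inr ()) ≠ 0 := by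
        intro ht
        rw [ht] at hx
        have h3 : qf a (x ∘ Sum.inl) = 0 := by
          rw [← hx]; ring
        have h4 := ha _ h3
        apply hx0
        funext i
        rcases i with i | i
        · exact congrFun h4 i
        · exact ht
      refine ⟨(x (Sum.inr ()))⁻¹ • (x ∘ Sum.inl), ?_⟩
      rw [qf_smul]
      have h5 : qf a (x ∘ Sum.inl) = c 0 * x (Sum.inr ()) ^ 2 := by
        linear_combination hx
      rw [h5]
      field_simp
    have hemb1 : Emb (fun _ : Fin 1 => c 0) a :=
      ⟨fun _ => e, fun i j hij => absurd (Subsingleton.elim i j) hij, fun _ => he⟩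
    -- (ii) complement
    obtain ⟨hcard, a', ha', hA⟩ := hCompl E ι h2 a ha.ne_zero 1 (fun _ => c 0) (fun _ => hc 0) hemb1
    set A : Fin 1 ⊕ Fin (Fintype.card ι - 1) → E := Sum.elim (fun _ => c 0) a' with hAdef
    have hAne : ∀ j, A j ≠ 0 := by
      rintro (j | j)
      · exact hc 0
      · exact ha' j
    have hflip : Emb a A := (hFlip E ι (Fin 1 ⊕ Fin (Fintype.card ι - 1)) a A (by
      rw [Fintype.card_sum, Fintype.card_fin, Fintype.card_fin]; omega) hAne hA).1
    obtain ⟨v, hv0, hv1⟩ := (hflip.im (φ := φ'))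
    set P : Fin 1 ⊕ Fin (Fintype.card ι - 1) → L := ∑ j, p j • v j with hP
    set Q : Fin 1 ⊕ Fin (Fintype.card ι - 1) → L := ∑ j, q j • v j with hQ
    have hQQ : qf (im φ' A) Q = φ' (c 0) := (qf_orth hv0 hv1 q).trans hq2
    have hPQ : bf (im φ' A) P Q = 0 := (bf_orth hv0 hv1 p q).trans hpq
    have hPP : qf (im φ' A) P = R := (qf_orth hv0 hv1 p).trans hp
    have hε : qf (im φ' A) (Pi.single (Sum.inl 0) 1) = φ' (c 0) := by
      rw [qf_single]
      simp [im, A]
    obtain ⟨T, hT, hTQ⟩ := hRefl L _ h2L (im φ' A) Q (Pi.single (Sum.inl 0) 1)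
      (hQQ.trans hε.symm) (by rw [hQQ]; exact (map_ne_zero φ').2 (hc 0))
    set y := T P with hy
    have hy0 : y (Sum.inl 0) = 0 := by
      have h3 : bf (im φ' A) y (Pi.single (Sum.inl 0) 1) = 0 := by
        rw [← hTQ, hy, hT, hPQ]
      rw [bf_single_right] at h3
      have h4 : im φ' A (Sum.inl 0) ≠ 0 := (map_ne_zero φ').2 (hAne _)
      rcases mul_eq_zero.1 h3 with h5 | h5
      · exact absurd h5 h4
      · simpa using h5
    have hyR : qf (im φ' a') (y ∘ Sum.inr) = R := by
      have h3 : qf (im φ' A) y = R := by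
        rw [← bf_self, hy, hT, bf_self, hPP]
      have h4 : im φ' A = Sum.elim (fun _ : Fin 1 => φ' (c 0)) (im φ' a') := by
        funext i
        rcases i with i | i <;> rfl
      rw [h4, qf_sumElim] at h3
      have h5 : qf (fun _ : Fin 1 => φ' (c 0)) (y ∘ Sum.inl) = 0 := by
        unfold qf
        simp [hy0]
      rw [h5, zero_add] at h3
      exact h3
    -- (iv) induction
    have hemb' : Emb a' a := hA.restrict Sum.inr Sum.inr_injective
    have haniso' : Aniso a' := ha.of_emb ha' hemb'
    have hrec : Emb (fun j : Fin m => c j.succ) a' :=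
      ih E L (Fin (Fintype.card ι - 1)) h2 φ' a' (fun j => c j.succ) z' (y ∘ Sum.inr) haniso'
        (fun j => hc _) hi' hg' hyR
    have hsum : Emb (Sum.elim (fun _ : Fin 1 => c 0) (fun j : Fin m => c j.succ)) a :=
      ((Emb.refl (fun _ : Fin 1 => c 0)).sum hrec).trans hA
    refine Emb_congr_Sub hsum (Fin.cases (Sum.inl 0) Sum.inr) ?_ ?_
    · intro i j
      refine Fin.cases ?_ (fun i => ?_) i <;> refine Fin.cases ?_ (fun j => ?_) j
      · intro _; rfl
      · intro h; simp at h
      · intro h; simp at h
      · intro h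
        simp only [Fin.cases_succ] at h
        rw [Sum.inr_injective h]
    · intro j
      refine Fin.cases ?_ (fun j => ?_) j
      · rfl
      · rfl

/-- SUB, subform theorem. -/
theorem pSub : StCP → StPT → StCompl → StFlip → StRefl → StSub := by
  classical
  intro hCP hPT hCompl hFlip hRefl E F ι κ _ _ _ _ h2 φ a c z g ha hc hi hg hq
  let e := Fintype.equivFin κ
  have hrange : Set.range (fun j => z (e.symm j)) = Set.range z := by
    ext x
    constructor
    · rintro ⟨j, rfl⟩; exact ⟨_, rfl⟩
    · rintro ⟨j, rfl⟩; exact ⟨e j, by simp⟩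
  have hind : Indep φ (fun j => z (e.symm j)) := by
    have h3 : (MvPolynomial.eval₂Hom φ fun j => z (e.symm j)) =
        (MvPolynomial.eval₂Hom φ z).comp (MvPolynomial.rename e.symm).toRingHom := by
      apply MvPolynomial.ringHom_ext
      · intro r; simp
      · intro i; simp
    unfold Indep
    rw [h3]
    exact hi.comp (MvPolynomial.rename_injective _ e.symm.injective)
  have hmain := main_Sub hCP hPT hCompl hFlip hRefl (Fintype.card κ) E F ι h2 φ a
    (fun j => c (e.symm j)) (fun j => z (e.symm j)) g ha (fun j => hc _) hind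
    (by rw [hrange]; exact hg) (by
      rw [hq]
      unfold qf im
      exact Fintype.sum_equiv e _ _ (fun i => by simp))
  exact Emb_congr_Sub hmain e e.injective (fun j => by simp)

end Pool.Agent.Helper44.RED
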