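import Pool.Agent.Helper44.RED.StA

/-!
# Project RED: module Tower (one more orthogonal vector keeps the Pfister form anisotropic)
-/

set_option autoImplicit false

namespace Pool.Agent.Helper44.RED

lemma Emb.swap_Tower {K ι κ κ' : Type} [Field K] [Fintype ι] [Fintype κ] [Fintype κ']
    {a : ι → K} {b : κ → K} {b' : κ' → K} (h : Emb (Sum.elim b b') a) :
    Emb (Sum.elim b' b) a := by
  have h1 := h.restrict (Sum.swap : κ' ⊕ κ → κ ⊕ κ')
    (Function.LeftInverse.injective (g := Sum.swap) Sum.swap_swap)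
  have e : (fun j : κ' ⊕ κ => (Sum.elim b b' : κ ⊕ κ' → K) (Sum.swap j)) = Sum.elim b' b := by
    funext j; rcases j with j | j <;> rfl
  rwa [e] at h1

theorem pTower : StConePf → StRound → StFlip → StCancel → StTower := by
  intro hConePf hRound hFlip hCancel
  intro E F _ _ h2 n x hx hπ l m α q a hα hq ha hlm hm hemb haniso φ y w hcone
  by_contra hiso
  have h1 : Emb (Sum.elim (fun i => - a * q i) (fun _ : Unit => a ^ 2)) (pf x) :=
    hConePf E F (Fin m) h2 n x hx hπ φ q a y w hq ha hcone hiso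
  have i₀ : Fin m := ⟨0, by omega⟩
  have hq0 := hq i₀
  -- `q_{i₀} π ⊂ π`
  have r1 : Emb (fun S => q i₀ * pf x S) (pf x) := by
    obtain ⟨v, -, hv⟩ := hemb
    have e : qf (pf x) (v (Sum.inr i₀)) = q i₀ := hv _
    have := hRound E h2 n x hx (v (Sum.inr i₀)) (by rw [e]; exact hq0)
    rwa [e] at this
  -- `(-a q_{i₀}) π ⊂ π`
  have r2 : Emb (fun S => - a * q i₀ * pf x S) (pf x) := by
    obtain ⟨v, -, hv⟩ := h1
    have e : qf (pf x) (v (Sum.inl i₀)) = - a * q i₀ := hv _
    have := hRound E h2 n x hx (v (Sum.inl i₀)) (by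
      rw [e]; exact mul_ne_zero (neg_ne_zero.2 ha) hq0)
    rwa [e] at this
  -- `-a π ⊂ π`
  have r3 : Emb (fun S => - a * pf x S) (pf x) := by
    have h3 := (r2.smul (q i₀)).trans r1
    have h4 := (Emb.sq (fun S => q i₀ * (- a * q i₀ * pf x S)) (fun _ => (q i₀)⁻¹)).trans h3
    have e : (fun S => q i₀ * (- a * q i₀ * pf x S) * (q i₀)⁻¹ ^ 2)
        = (fun S => - a * pf x S) := by
      funext S; field_simp
    rwa [e] at h4
  -- `q ⊥ <-a> ⊂ π`
  have r4 : Emb (Sum.elim q (fun _ : Unit => - a)) (pf x) := by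
    have h3 := (h1.smul (- a)).trans r3
    have h4 := (Emb.sq _ (fun _ => a⁻¹)).trans h3
    have e : (fun i => - a * (Sum.elim (fun i => - a * q i) (fun _ : Unit => a ^ 2) :
        Fin m ⊕ Unit → E) i * a⁻¹ ^ 2) = Sum.elim q (fun _ : Unit => - a) := by
      funext i
      rcases i with i | i
      · simp only [Sum.elim_inl]; field_simp
      · simp only [Sum.elim_inr]; field_simp
    rwa [e] at h4
  have r5 : Emb (pf x) (Sum.elim α q) := by
    refine (hFlip E (Finset (Fin n)) (Fin l ⊕ Fin m) (pf x) (Sum.elim α q) ?_ ?_ hemb).1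
    · simp [hlm]
    · rintro (j | j)
      · exact hα j
      · exact hq j
  have r6 : Emb (Sum.elim α q) (Sum.elim q α) := (Emb.refl (Sum.elim q α)).swap_Tower
  have r7 : Emb (Sum.elim q (fun _ : Unit => - a)) (Sum.elim q α) := (r4.trans r5).trans r6
  obtain ⟨v, -, hv⟩ := hCancel E (Fin m) (Fin l) Unit h2 q α (fun _ => - a) hq r7
  have hz : qf α (v ()) = - a := hv ()
  have h8 := haniso (Sum.elim (v ()) (fun _ => 1)) (by
    rw [qf_sumElim]
    simp only [Sum.elim_comp_inl, Sum.elim_comp_inr]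
    rw [hz]
    unfold qf
    simp)
  have := congrFun h8 (Sum.inr ())
  simp at this

end Pool.Agent.Helper44.RED
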