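import Pool.Agent.Helper44.RED.StC
import Pool.Agent.Helper44.RED.Fld
import Pool.Agent.Helper44.RED.M_ConePure

/-!
# Project RED: module Trdeg
-/

set_option autoImplicit false

namespace Pool.Agent.Helper44.RED

theorem pTrdeg0 : StTrdeg := by
  intro k F ι _ _ _ _ y hy _ hgen
  classical
  obtain ⟨g, hg⟩ := hgen
  let e : ι ≃ Fin (Fintype.card ι) := Fintype.equivFin ι
  have h1 : GenBy (algebraMap k F) (Set.range g) := by
    unfold GenBy
    rw [eq_top_iff]
    intro z _
    have hz : z ∈ (⊤ : IntermediateField k F) := trivial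
    rw [hg, bot_sup_eq] at hz
    exact hz
  have h2 : GenBy (algebraMap k F) (Set.range fun i => g (e i)) := h1.equiv e
  exact pureExt_of_fintype (indep_of_gen_ConePure hy h2) h2

end Pool.Agent.Helper44.RED
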