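import Pool.Agent.Helper44.RED.StA

set_option autoImplicit false

namespace Pool.Agent.Helper44.RED

/-- module UNIV -/
theorem pUniv : StUniv := by
  intro K ι _ _ h2 q hq hiso c
  classical
  unfold Aniso at hiso
  push Not at hiso
  obtain ⟨v, hv, hv0⟩ := hiso
  obtain ⟨i, hi⟩ : ∃ i, v i ≠ 0 := by
    by_contra h
    push Not at h
    exact hv0 (funext h)
  have hqi := hq i
  refine ⟨Pi.single i 1 + ((c - q i) / (2 * (q i * v i))) • v, ?_⟩
  rw [qf_add, qf_smul, hv, bf_smul_right, bf_comm, bf_single_right, qf_single]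
  field_simp
  ring

end Pool.Agent.Helper44.RED
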