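import Pool.Agent.Helper44.RED.StA
import Pool.Agent.Helper44.RED.Fld

set_option autoImplicit false

namespace Pool.Agent.Helper44.RED

private lemma one_zero_WH {R : Type} [CommRing R] {s : ℕ} (c : Fin s → R) : one c 0 = 1 := by
  unfold one; rw [Fin.cons_zero]

private lemma one_succ_WH {R : Type} [CommRing R] {s : ℕ} (c : Fin s → R) (j : Fin s) :
    one c j.succ = c j := by
  unfold one; rw [Fin.cons_succ]

private lemma im_one_WH {R S : Type} [CommRing R] [CommRing S] (ψ : R →+* S) {s : ℕ}
    (b : Fin s → R) : im ψ (one b) = one (im ψ b) := by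
  funext i
  refine Fin.cases ?_ (fun j => ?_) i
  · simp only [im, one_zero_WH, map_one]
  · simp only [im, one_succ_WH]

/-- generic padding -/
private lemma pad_WH (hOdd : StOdd) (κ : Type) [Field κ] {l : ℕ} (c : Fin l → κ)
    (hc : Aniso (one c)) : ∀ s : ℕ, l ≤ s →
      ∃ (κ' : Type) (_ : Field κ') (φ' : κ →+* κ') (b : Fin s → κ'),
        Aniso (one b) ∧ Emb (im φ' (one c)) (one b) := by
  intro s hs
  induction s, hs using Nat.le_induction with
  | base => exact ⟨κ, inferInstance, RingHom.id κ, c, hc, Emb.refl _⟩
  | succ s hs ih =>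
    obtain ⟨κ', _, φ', b, hb, hemb⟩ := ih
    set al : κ' →+* RatFunc κ' := algebraMap κ' (RatFunc κ') with hal
    have hO := hOdd κ' (RatFunc κ') (Fin (s + 1)) Unit al RatFunc.X indep_ratFunc genBy_ratFunc
      (one b) (fun _ => (1 : κ')) hb (by
        intro x hx
        funext u
        have : x () ^ 2 = 0 := by
          have h1 : qf (fun _ : Unit => (1 : κ')) x = x () ^ 2 := by
            unfold qf; simp
          rw [← h1, hx]
        cases u
        exact pow_eq_zero_iff (two_ne_zero) |>.1 this)
    set b' : Fin (s + 1) → RatFunc κ' := Fin.snoc (im al b) RatFunc.X with hb'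
    have hcast : ∀ i : Fin (s + 1), one b' i.castSucc = im al (one b) i := by
      intro i
      refine Fin.cases ?_ (fun j => ?_) i
      · rw [Fin.castSucc_zero, one_zero_WH]
        simp only [im, one_zero_WH, map_one]
      · rw [← Fin.succ_castSucc, one_succ_WH, hb', Fin.snoc_castSucc]
        simp only [im, one_succ_WH]
    have hlast : one b' (Fin.last (s + 1)) = RatFunc.X := by
      rw [← Fin.succ_last, one_succ_WH, hb', Fin.snoc_last]
    refine ⟨RatFunc κ', inferInstance, al.comp φ', b', ?_, ?_⟩
    · intro x hx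
      have hx' : qf (Sum.elim (im al (one b)) (fun j : Unit => RatFunc.X * al (1 : κ')))
          (Sum.elim (fun i : Fin (s + 1) => x i.castSucc) (fun _ : Unit => x (Fin.last (s + 1))))
          = 0 := by
        rw [qf_sumElim, Sum.elim_comp_inl, Sum.elim_comp_inr, ← hx]
        unfold qf
        rw [Fin.sum_univ_castSucc (n := s + 1)]
        congr 1
        · exact Finset.sum_congr rfl fun i _ => by rw [hcast]
        · rw [hlast]; simp
      have h0 := hO _ hx'
      funext i
      refine Fin.lastCases ?_ (fun j => ?_) i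
      · exact congrFun h0 (Sum.inr ())
      · exact congrFun h0 (Sum.inl j)
    · have h1 : Emb (im al (im φ' (one c))) (im al (one b)) := hemb.im
      have h2 : Emb (im al (one b)) (one b') := by
        have h3 := Emb.comp_inj (one b') (Fin.castSucc : Fin (s + 1) → Fin (s + 1 + 1))
          (Fin.castSucc_injective _)
        have h4 : (fun j : Fin (s + 1) => one b' j.castSucc) = im al (one b) := by
          funext i; exact hcast i
        rwa [h4] at h3
      exact h1.trans h2

private lemma emb_one_pf_WH {K : Type} [Field K] {n s : ℕ} (x : Fin n → K) (β : Fin s → K)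
    (h : Emb β (ppf x)) : Emb (one β) (pf x) := by
  have h1 : Emb (Sum.elim (fun _ : Unit => (1 : K)) β) (Sum.elim (fun _ : Unit => (1 : K)) (ppf x)) :=
    (Emb.refl _).sum h
  have h2 : Emb (Sum.elim (fun _ : Unit => (1 : K)) (ppf x)) (pf x) := by
    have h3 := Emb.comp_inj (pf x)
      (Sum.elim (fun _ : Unit => (∅ : Finset (Fin n))) (fun S : Pu n => S.1)) (by
        rintro (u | S) (v | T) hST
        · rfl
        · simp only [Sum.elim_inl, Sum.elim_inr] at hST
          exact absurd hST.symm T.2.ne_empty
        · simp only [Sum.elim_inl, Sum.elim_inr] at hST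
          exact absurd hST S.2.ne_empty
        · simp only [Sum.elim_inr] at hST
          rw [Subtype.ext hST])
    have h4 : (fun j => pf x (Sum.elim (fun _ : Unit => (∅ : Finset (Fin n)))
        (fun S : Pu n => S.1) j)) = Sum.elim (fun _ : Unit => (1 : K)) (ppf x) := by
      funext j
      rcases j with u | S
      · simp only [Sum.elim_inl, pf_empty]
      · rfl
    rwa [h4] at h3
  have h5 := (h1.trans h2).restrict
    (Fin.cases (Sum.inl ()) (fun j => Sum.inr j) : Fin (s + 1) → Unit ⊕ Fin s) (by
      intro i j
      refine Fin.cases ?_ (fun i' => ?_) i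
      · refine Fin.cases (fun _ => rfl) (fun j' h => ?_) j
        simp at h
      · refine Fin.cases (fun h => ?_) (fun j' h => ?_) j
        · simp at h
        · simp at h
          rw [h])
  have h6 : (fun j => Sum.elim (fun _ : Unit => (1 : K)) β
      ((Fin.cases (Sum.inl ()) (fun j => Sum.inr j) : Fin (s + 1) → Unit ⊕ Fin s) j)) = one β := by
    funext j
    refine Fin.cases ?_ (fun j' => ?_) j
    · simp [one_zero_WH]
    · simp [one_succ_WH]
  rwa [h6] at h5

theorem pWH : StOdd → StME → StConeMap → StConePf → StCompl → StWH := by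
  intro hOdd hME hConeMap hConePf hCompl κ F _ _ h2 N d m P q a φ y w hN hd hm hq ha hP hC
  cases d with
  | zero =>
    intro x _
    funext i
    exact i.elim0
  | succ l =>
    have hP0 : P 0 ≠ 0 := hP.ne_zero 0
    set c : Fin l → κ := fun j => P j.succ / P 0 with hc
    have hPc : ∀ i, P i = P 0 * one c i := by
      intro i
      refine Fin.cases ?_ (fun j => ?_) i
      · rw [one_zero_WH, mul_one]
      · rw [one_succ_WH, hc]; field_simp
    have hone : Aniso (one c) := by
      intro x hx
      apply hP x
      have : qf P x = P 0 * qf (one c) x := by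
        unfold qf
        rw [Finset.mul_sum]
        exact Finset.sum_congr rfl fun i _ => by rw [hPc i]; ring
      rw [this, hx, mul_zero]
    obtain ⟨κ', _, φ', b, hb, hemb⟩ := pad_WH hOdd κ c hone (2 ^ (N - 1)) (by omega)
    have h2' : (2 : κ') ≠ 0 := by
      have := (map_ne_zero φ').2 h2
      rwa [map_ofNat] at this
    have hb0 : ∀ l, b l ≠ 0 := by
      intro l
      have := hb.ne_zero l.succ
      rwa [one_succ_WH] at this
    obtain ⟨N', _, ψ, x, hx0, hpf, hE⟩ := hME κ' h2' N (2 ^ (N - 1)) 1 (fun _ => b) hN rfl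
      (fun _ l => hb0 l) (fun j => ⟨κ', inferInstance, RingHom.id κ', hb, fun i hi =>
        absurd (Subsingleton.elim i j) hi⟩)
    have hE1 : Emb (one (im ψ b)) (pf x) := emb_one_pf_WH x (im ψ b) (hE 0)
    set ψ₀ : κ →+* N' := ψ.comp φ' with hψ₀
    have hE2 : Emb (im ψ₀ (one c)) (pf x) := by
      have h3 : Emb (im ψ (im φ' (one c))) (im ψ (one b)) := hemb.im
      rw [im_one_WH ψ b] at h3
      exact h3.trans hE1
    obtain ⟨F', _, φ'', ψ', y', w', hC', hcomm⟩ := hConeMap κ F N' (Fin m) φ q a y w ψ₀ hC
    have h2'' : (2 : N') ≠ 0 := by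
      have := (map_ne_zero ψ).2 h2'
      rwa [map_ofNat] at this
    have ha' : ψ₀ a ≠ 0 := (map_ne_zero ψ₀).2 ha
    have hq' : ∀ i, im ψ₀ q i ≠ 0 := fun i => (map_ne_zero ψ₀).2 (hq i)
    have hAn : Aniso (im φ'' (pf x)) := by
      by_contra hcon
      have hem := hConePf N' F' (Fin m) h2'' N x hx0 hpf φ'' (im ψ₀ q) (ψ₀ a) y' w' hq' ha' hC' hcon
      have hr := hem.restrict
        (Fin.lastCases (Sum.inr ()) (fun j => Sum.inl j) : Fin (m + 1) → Fin m ⊕ Unit) (by
          intro i j
          refine Fin.lastCases ?_ (fun i' => ?_) i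
          · refine Fin.lastCases (fun _ => rfl) (fun j' h => ?_) j
            simp at h
          · refine Fin.lastCases (fun h => ?_) (fun j' h => ?_) j
            · simp at h
            · simp at h
              rw [h])
      have hle := (hCompl N' (Finset (Fin N)) h2'' (pf x) (fun S => pf_ne_zero hx0 S) (m + 1) _
        (by
          intro j
          refine Fin.lastCases ?_ (fun j' => ?_) j
          · simpa using ha'
          · have h5 := hq' j'
            simp only [Fin.lastCases_castSucc, Sum.elim_inl]
            exact mul_ne_zero (neg_ne_zero.2 ha') h5) hr).1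
      rw [Fintype.card_finset, Fintype.card_fin] at hle
      omega
    have hE3 : Emb (im φ'' (im ψ₀ (one c))) (im φ'' (pf x)) := hE2.im
    have hA3 : Aniso (im φ'' (im ψ₀ (one c))) := hAn.of_emb (fun j =>
      (map_ne_zero φ'').2 ((map_ne_zero ψ₀).2 (hone.ne_zero j))) hE3
    have hA4 : Aniso (im ψ' (im φ (one c))) := by
      have h5 : im φ'' (im ψ₀ (one c)) = im ψ' (im φ (one c)) := by
        rw [im_im, im_im, hcomm]
      rwa [h5] at hA3
    have hA5 : Aniso (im φ (one c)) := hA4.of_im
    intro z hz
    apply hA5 z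
    have h6 : qf (im φ P) z = φ (P 0) * qf (im φ (one c)) z := by
      unfold qf
      rw [Finset.mul_sum]
      refine Finset.sum_congr rfl fun i _ => ?_
      have : im φ P i = φ (P 0) * im φ (one c) i := by
        unfold im; rw [hPc i, map_mul]
      rw [this]; ring
    rw [h6] at hz
    exact (mul_eq_zero.1 hz).resolve_left ((map_ne_zero φ).2 hP0)

end Pool.Agent.Helper44.RED
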