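import Pool.Agent.Helper44.RED.Spec

/-! # Project RED, module XAlg (helper78) -/

set_option autoImplicit false

open MvPolynomial

namespace Pool.Agent.Helper44.RED

theorem pXAlg : StXAlg := by
  intro k F _ _ _ t n s M b σ τ x Y w hX
  classical
  set y : Fin t ⊕ (Fin n ⊕ (Fin M × Fin s × Pu n)) → F :=
    Sum.elim τ (Sum.elim x (fun p : Fin M × Fin s × Pu n => Y p.1 p.2.1 p.2.2)) with hy
  set K : IntermediateField k F := IntermediateField.adjoin k (Set.range y) with hK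
  have hyK : ∀ v, y v ∈ K := fun v => IntermediateField.subset_adjoin k _ ⟨v, rfl⟩
  have hw2 : ∀ i l, w i l ^ 2 ∈ K := by
    intro i l
    rw [hX.eq i l]
    have h := rad_map_Sp K.val b (σ i) (fun j => (⟨y (Sum.inl j), hyK _⟩ : K))
      (fun j => (⟨y (Sum.inr (Sum.inl j)), hyK _⟩ : K))
      (fun m S => (⟨y (Sum.inr (Sum.inr (i, m, S))), hyK _⟩ : K)) l
    have e : bs b (σ i) τ l *
        (gd (ppf x) (ext0 (Y i)) l * gd (ppf x) (ext0 (Y i)) (l + 1)) = K.val (bs b (σ i)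
        (fun j => (⟨y (Sum.inl j), hyK _⟩ : K)) l *
        (gd (ppf (fun j => (⟨y (Sum.inr (Sum.inl j)), hyK _⟩ : K)))
          (ext0 (fun m S => (⟨y (Sum.inr (Sum.inr (i, m, S))), hyK _⟩ : K))) l *
         gd (ppf (fun j => (⟨y (Sum.inr (Sum.inl j)), hyK _⟩ : K)))
          (ext0 (fun m S => (⟨y (Sum.inr (Sum.inr (i, m, S))), hyK _⟩ : K))) (l + 1))) := by
      rw [h]
      rfl
    obtain ⟨z, hz⟩ : ∃ z : K, bs b (σ i) τ l *
        (gd (ppf x) (ext0 (Y i)) l * gd (ppf x) (ext0 (Y i)) (l + 1)) = K.val z := ⟨_, e⟩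
    rw [hz]
    exact z.2
  have hle : Subfield.closure (Set.range (algebraMap k F) ∪ (Set.range τ ∪ Set.range x ∪
      Set.range (fun p : Fin M × Fin s × Pu n => Y p.1 p.2.1 p.2.2) ∪
      Set.range (fun p : Fin M × Fin s => w p.1 p.2))) ≤ (algebraicClosure K F).toSubfield := by
    rw [Subfield.closure_le]
    have hKmem : ∀ z ∈ K, z ∈ (algebraicClosure K F).toSubfield := by
      intro z hz
      exact (algebraicClosure K F).algebraMap_mem ⟨z, hz⟩
    rintro z (⟨c, rfl⟩ | (((⟨j, rfl⟩ | ⟨j, rfl⟩) | ⟨p, rfl⟩) | ⟨p, rfl⟩))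
    · exact hKmem _ (K.algebraMap_mem c)
    · exact hKmem _ (hyK (Sum.inl j))
    · exact hKmem _ (hyK (Sum.inr (Sum.inl j)))
    · exact hKmem _ (hyK (Sum.inr (Sum.inr p)))
    · have h1 : IsAlgebraic K (w p.1 p.2 ^ 2) := isAlgebraic_algebraMap (⟨_, hw2 p.1 p.2⟩ : K)
      have h2 : IsAlgebraic K (w p.1 p.2) := IsAlgebraic.of_pow (by norm_num) h1
      exact (mem_algebraicClosure_iff).2 h2
  have hgen := hX.gen
  unfold GenBy at hgen
  rw [hgen] at hle
  refine ⟨fun z => ?_⟩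
  exact (mem_algebraicClosure_iff).1 (hle (Subfield.mem_top z))

end Pool.Agent.Helper44.RED
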