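import Pool.Agent.Helper44.RED.StC

/-!
# Project RED, module XEMB (helper49)
-/

set_option autoImplicit false

namespace Pool.Agent.Helper44.RED

theorem pXEmb : StXNZ → StGS → StXEmb := by
  intro hNZ hGS k F _ _ _ t n s M b σ τ x Y w hn hs hb hσ hX i
  obtain ⟨hx0, hb0, hgd⟩ := hNZ k F t n s M b σ τ x Y w hn hs hb hσ hX
  obtain ⟨V, T, h0, h1, -⟩ := hGS k F (Pu n) ⊤ (ppf x) s (Y i) (bs b (σ i) τ) (w i)
    (fun _ => IntermediateField.mem_top) (fun _ => IntermediateField.mem_top) (hb0 i)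
    (hgd i) (fun l => hX.eq i l)
  exact ⟨V, h0, h1⟩

end Pool.Agent.Helper44.RED
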