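import Pool.Agent.Helper44.RED.Spec

/-! # Project RED, module XNZ: nonvanishing in the function field (helper78) -/

set_option autoImplicit false

open MvPolynomial

namespace Pool.Agent.Helper44.RED

theorem pXNZ : StXNZ := by
  intro k F _ _ _ t n s M b σ τ x Y w hn hs hb hσ hX
  classical
  set y : Fin t ⊕ (Fin n ⊕ (Fin M × Fin s × Pu n)) → F :=
    Sum.elim τ (Sum.elim x (fun p : Fin M × Fin s × Pu n => Y p.1 p.2.1 p.2.2)) with hy
  have hinj : Function.Injective (MvPolynomial.aeval y :
      MvPolynomial (Fin t ⊕ (Fin n ⊕ (Fin M × Fin s × Pu n))) k →ₐ[k] F) :=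
    Indep.aeval_inj_Sp hX.indep
  have hsn : s ≤ 2 ^ n - 1 := by
    rw [hs]
    have h1 : 2 ^ n = 2 * 2 ^ (n - 1) := by
      rw [← pow_succ']; congr 1; omega
    have h2 : 1 ≤ 2 ^ (n - 1) := Nat.one_le_two_pow
    omega
  refine ⟨?_, ?_, ?_⟩
  · intro j h
    have h1 : (MvPolynomial.aeval y :
      MvPolynomial (Fin t ⊕ (Fin n ⊕ (Fin M × Fin s × Pu n))) k →ₐ[k] F) (X (Sum.inr (Sum.inl j)))
        = 0 := by
      rw [MvPolynomial.aeval_X]; exact h
    exact MvPolynomial.X_ne_zero _ (hinj (by rw [h1, map_zero]))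
  · intro i l
    refine bs_ne_zero_Sp b (σ i) (hσ i) τ ?_ l (hb l)
    have h1 : (MvPolynomial.aeval τ : MvPolynomial (Fin t) k →ₐ[k] F) =
        (MvPolynomial.aeval y).comp (MvPolynomial.rename Sum.inl) := by
      apply MvPolynomial.algHom_ext
      intro j
      simp [hy]
    rw [h1]
    exact hinj.comp (MvPolynomial.rename_injective _ Sum.inl_injective)
  · intro i l hl h
    obtain ⟨e, he⟩ := exists_emb_Sp hsn
    set P : MvPolynomial (Fin t ⊕ (Fin n ⊕ (Fin M × Fin s × Pu n))) k :=
      gd (ppf (fun j => X (Sum.inr (Sum.inl j))))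
        (ext0 (fun (m : Fin s) (S : Pu n) => X (Sum.inr (Sum.inr (i, m, S))))) l with hP
    have h1 : MvPolynomial.aeval y P = gd (ppf x) (ext0 (Y i)) l := by
      have h2 := gd_map_Sp (MvPolynomial.aeval y :
        MvPolynomial (Fin t ⊕ (Fin n ⊕ (Fin M × Fin s × Pu n))) k →ₐ[k] F).toRingHom
        (ppf (fun j => X (Sum.inr (Sum.inl j))))
        (ext0 (fun (m : Fin s) (S : Pu n) => X (Sum.inr (Sum.inr (i, m, S))))) l
      have h3 : MvPolynomial.aeval y P = (MvPolynomial.aeval y :
        MvPolynomial (Fin t ⊕ (Fin n ⊕ (Fin M × Fin s × Pu n))) k →ₐ[k] F).toRingHom P := rfl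
      rw [h3, hP, h2]
      simp only [ppf_map_Sp, ext0_map_Sp]
      congr 1
      · congr 1
        funext j
        simp [hy]
      · funext p S
        congr 2
        funext m S
        simp [hy]
    have hP0 : P = 0 := hinj (by rw [h1, h, map_zero])
    -- specialise
    set η : Fin t ⊕ (Fin n ⊕ (Fin M × Fin s × Pu n)) → k :=
      Sum.elim (fun _ => 0) (Sum.elim (fun _ => 1)
        (fun p : Fin M × Fin s × Pu n => (Pi.single (e p.2.1) 1 : Pu n → k) p.2.2)) with hη
    have h4 : MvPolynomial.aeval η P = 0 := by rw [hP0, map_zero]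
    have h5 : MvPolynomial.aeval η P = gd (ppf (fun _ : Fin n => (1 : k)))
        (ext0 (fun m : Fin s => (Pi.single (e m) 1 : Pu n → k))) l := by
      have h2 := gd_map_Sp (MvPolynomial.aeval η :
        MvPolynomial (Fin t ⊕ (Fin n ⊕ (Fin M × Fin s × Pu n))) k →ₐ[k] k).toRingHom
        (ppf (fun j => X (Sum.inr (Sum.inl j))))
        (ext0 (fun (m : Fin s) (S : Pu n) => X (Sum.inr (Sum.inr (i, m, S))))) l
      have h3 : MvPolynomial.aeval η P = (MvPolynomial.aeval η :
        MvPolynomial (Fin t ⊕ (Fin n ⊕ (Fin M × Fin s × Pu n))) k →ₐ[k] k).toRingHom P := rfl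
      rw [h3, hP, h2]
      simp only [ppf_map_Sp, ext0_map_Sp]
      congr 1
      · congr 1
        funext j
        simp [hη]
      · funext p S
        congr 2
        funext m S
        simp [hη]
    rw [h5, gd_orth_Sp] at h4
    · rw [Finset.prod_eq_zero_iff] at h4
      obtain ⟨p, hp, h6⟩ := h4
      have hps : p < s := lt_of_lt_of_le (Finset.mem_range.1 hp) hl
      have h7 : ext0 (fun m : Fin s => (Pi.single (e m) 1 : Pu n → k)) p =
          Pi.single (e ⟨p, hps⟩) 1 := by
        unfold ext0; rw [dif_pos hps]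
      rw [h7, qf_single] at h6
      have h8 : ppf (fun _ : Fin n => (1 : k)) (e ⟨p, hps⟩) ≠ 0 :=
        ppf_ne_zero_Sp (fun _ => one_ne_zero) _
      apply h8
      simpa using h6
    · intro p q hp hq hpq
      have hps : p < s := lt_of_lt_of_le hp hl
      have hqs : q < s := lt_of_lt_of_le hq hl
      have h7 : ext0 (fun m : Fin s => (Pi.single (e m) 1 : Pu n → k)) p =
          Pi.single (e ⟨p, hps⟩) 1 := by
        unfold ext0; rw [dif_pos hps]
      have h8 : ext0 (fun m : Fin s => (Pi.single (e m) 1 : Pu n → k)) q =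
          Pi.single (e ⟨q, hqs⟩) 1 := by
        unfold ext0; rw [dif_pos hqs]
      rw [h7, h8, bf_single_single, if_neg]
      intro h9
      exact hpq (by simpa using he h9)

end Pool.Agent.Helper44.RED
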