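import Pool.Agent.Helper44.RED.M_XPoint

/-!
# Project RED, module XNOT (helper49)
-/

set_option autoImplicit false
set_option linter.unusedVariables false

open MvPolynomial

namespace Pool.Agent.Helper44.RED

lemma bfam_ne_XNot {k : Type} [Field k] {t' c : ℕ} (e : ℕ)
    (C : Fin c → MvPolynomial (Fin (t' + 1)) k) (hC : ∀ l, C l ≠ 0) (l : Fin (c + e)) :
    bfam e C l ≠ 0 := by
  unfold bfam
  refine Fin.addCases (fun j => ?_) (fun j => ?_) l
  · rw [Fin.append_left]
    intro h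
    exact hC j (rename_injective _ (Fin.castAdd_injective _ _) (h.trans (map_zero _).symm))
  · rw [Fin.append_right]
    exact mul_ne_zero (X_ne_zero _) (X_ne_zero _)

lemma bfam_hom_XNot {k : Type} [Field k] {t' c : ℕ} (e : ℕ)
    (C : Fin c → MvPolynomial (Fin (t' + 1)) k) (hC : ∀ l, ∃ D, (C l).IsHomogeneous (2 * D))
    (l : Fin (c + e)) : ∃ D, (bfam e C l).IsHomogeneous (2 * D) := by
  unfold bfam
  refine Fin.addCases (fun j => ?_) (fun j => ?_) l
  · rw [Fin.append_left]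
    obtain ⟨D, hD⟩ := hC j
    exact ⟨D, hD.rename_isHomogeneous⟩
  · rw [Fin.append_right]
    exact ⟨1, (isHomogeneous_X _ _).mul (isHomogeneous_X _ _)⟩

lemma tv_indep_XNot (k : Type) [Field k] (t : ℕ) : Indep (algebraMap k (KT k t)) (tv k t) := by
  have e1 : MvPolynomial.eval₂Hom (algebraMap k (KT k t)) (tv k t) =
      algebraMap (MvPolynomial (Fin t) k) (KT k t) := by
    apply MvPolynomial.ringHom_ext
    · intro r
      rw [eval₂Hom_C, IsScalarTower.algebraMap_apply k (MvPolynomial (Fin t) k) (KT k t)]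
      rfl
    · intro i
      rw [eval₂Hom_X']
      rfl
  unfold Indep
  rw [e1]
  exact IsFractionRing.injective _ _

theorem pXNot : StSep → StME → StXPoint → StPT → StXEmb → StRationalNot → StAllUnram → StXNZ →
    StXNot := by
  intro hSep hME hXP hPT hXE hRN hAU hNZ k F F' _ _ _ _ _ h2 φ hφ t' c e n M hn hce hc C σ τ x Y w
    hC hCh hσ hGP hNC hX hA hpure
  set b := bfam e C with hb
  have hb0 : ∀ l, b l ≠ 0 := bfam_ne_XNot e C hC
  have hbh : ∀ l, ∃ D, (b l).IsHomogeneous (2 * D) := bfam_hom_XNot e C hCh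
  have h2K : (2 : KT k (t' + 1 + e)) ≠ 0 := by
    intro h
    apply h2
    apply (algebraMap k (KT k (t' + 1 + e))).injective
    rw [map_zero, map_ofNat]
    exact h
  have hn1 : 1 ≤ n := by omega
  have hKb : ∀ i l, bs b (σ i) (tv k (t' + 1 + e)) l ≠ 0 := fun i l =>
    bs_ne_XPoint b (σ i) (hσ i) _ (tv_indep_XNot k _) l (hb0 l)
  obtain ⟨N, _, ψ, x₀, hx₀, hpf₀, hE⟩ := hME (KT k (t' + 1 + e)) h2K n (c + e) M
    (fun i => bs b (σ i) (tv k (t' + 1 + e))) hn1 hce hKb
    (hSep k h2 t' c e n M hn hce hc C σ hσ hA hGP)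
  have hF : Aniso (pf x) := hXP k F h2 _ n (c + e) M b σ τ x Y w hb0 hσ hX N ψ x₀ hx₀ hpf₀ hE
  have hF' : Aniso (pf (im φ x)) := by
    rw [pf_im]
    exact (hPT F F' φ hφ).aniso hF
  obtain ⟨O, hO, hkO, hU⟩ := hRN k F' (Finset (Fin n)) h2 (φ.comp (algebraMap k F)) hpure
    (pf (im φ x)) (by
      rw [Fintype.card_finset, Fintype.card_fin]
      calc 2 = 2 ^ 1 := rfl
        _ ≤ 2 ^ n := Nat.pow_le_pow_right (by norm_num) hn1) hF'
  apply hU
  obtain ⟨hx0, hbF, -⟩ := hNZ k F _ n (c + e) M b σ τ x Y w hn1 hce hb0 hσ hX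
  have hEF := hXE k F _ n (c + e) M b σ τ x Y w hn1 hce hb0 hσ hX
  let _ : Algebra k F' := (φ.comp (algebraMap k F)).toAlgebra
  have hbs : ∀ i l, bs b (σ i) (im φ τ) l = φ (bs b (σ i) τ l) := by
    intro i l
    exact (bs_hom_XPoint b (σ i) τ (im φ τ) φ (RingHom.id F') (fun c => rfl) (fun j => rfl) l).symm
  refine hAU k F' h2 (t' + 1 + e) n (c + e) M b σ (im φ τ) (im φ x) hn1 hce hbh hNC ?_ ?_ ?_ ?_
    O hO hkO
  · intro h
    have h0 : τ (Fin.castAdd e 0) = 0 := (map_eq_zero φ).mp (congrFun h (Fin.castAdd e 0))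
    have h3 : (X (Sum.inl (Fin.castAdd e 0)) : MvPolynomial (Fin (t' + 1 + e) ⊕ (Fin n ⊕
        (Fin M × Fin (c + e) × Pu n))) k) = 0 := by
      apply hX.indep
      rw [eval₂Hom_X', map_zero]
      exact h0
    exact X_ne_zero _ h3
  · intro j
    exact (map_ne_zero φ).mpr (hx0 j)
  · intro i l
    rw [hbs]
    exact (map_ne_zero φ).mpr (hbF i l)
  · intro i
    have h := (hEF i).im (φ := φ)
    rw [ppf_im_XPoint] at h
    have e1 : bs b (σ i) (im φ τ) = im φ (bs b (σ i) τ) := funext fun l => hbs i l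
    rw [e1]
    exact h

end Pool.Agent.Helper44.RED
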