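import Pool.Agent.Helper44.RED.StC

/-!
# Project RED, module XPOINT (helper49)

A point of the variety over a field where the Pfister form is anisotropic; instead of Laurent series
over `N(ε)` the iterated Laurent series field of FLAG is used.
-/

set_option autoImplicit false
set_option linter.unusedVariables false

open MvPolynomial

namespace Pool.Agent.Helper44.RED

lemma gd_map_XPoint {R S ι : Type} [CommRing R] [CommRing S] [Fintype ι] (φ : R →+* S) (a : ι → R)
    (y : ℕ → ι → R) (l : ℕ) : φ (gd a y l) = gd (im φ a) (fun p => im φ (y p)) l := by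
  unfold gd
  rw [RingHom.map_det]
  congr 1
  ext p q
  simp only [RingHom.mapMatrix_apply, Matrix.map_apply, Matrix.of_apply]
  rw [bf_im]

lemma ext0_im_XPoint {R S ι : Type} [CommRing R] [CommRing S] {s : ℕ} (φ : R →+* S)
    (Y : Fin s → ι → R) : (fun p => im φ (ext0 Y p)) = ext0 (fun l => im φ (Y l)) := by
  funext p i
  unfold ext0 im
  split_ifs
  · rfl
  · simp

lemma ppf_im_XPoint {R S : Type} [CommRing R] [CommRing S] {n : ℕ} (φ : R →+* S) (x : Fin n → R) :
    im φ (ppf x) = ppf (im φ x) := by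
  funext T
  show φ (pf x T.1) = pf (im φ x) T.1
  rw [pf_im]
  rfl

/-- the radicand -/
def rad_XPoint {R : Type} [CommRing R] {n s : ℕ} (β : R) (x : Fin n → R) (Y : Fin s → Pu n → R)
    (l : ℕ) : R := β * (gd (ppf x) (ext0 Y) l * gd (ppf x) (ext0 Y) (l + 1))

lemma rad_map_XPoint {R S : Type} [CommRing R] [CommRing S] {n s : ℕ} (φ : R →+* S) (β : R)
    (x : Fin n → R) (Y : Fin s → Pu n → R) (l : ℕ) :
    φ (rad_XPoint β x Y l) = rad_XPoint (φ β) (im φ x) (fun m => im φ (Y m)) l := by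
  unfold rad_XPoint
  rw [map_mul, map_mul, gd_map_XPoint, gd_map_XPoint, ext0_im_XPoint, ppf_im_XPoint]

lemma gd_orth_XPoint {R ι : Type} [CommRing R] [Fintype ι] {s : ℕ} (a : ι → R) (V : Fin s → ι → R)
    (β : Fin s → R) (h0 : ∀ i j, i ≠ j → bf a (V i) (V j) = 0) (h1 : ∀ j, qf a (V j) = β j)
    (l : ℕ) (hl : l ≤ s) : gd a (ext0 V) l = ∏ p : Fin l, β (Fin.castLE hl p) := by
  have hV : ∀ p : Fin l, ext0 V p = V (Fin.castLE hl p) := by
    intro p
    unfold ext0
    rw [dif_pos (lt_of_lt_of_le p.2 hl)]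
    rfl
  unfold gd
  rw [← Matrix.det_diagonal]
  congr 1
  ext p q
  rw [Matrix.of_apply, hV, hV, Matrix.diagonal_apply]
  split_ifs with h
  · rw [h, bf_self, h1]
  · exact h0 _ _ (fun h' => h (Fin.castLE_injective hl h'))

lemma rad_orth_XPoint {R : Type} [CommRing R] {n s : ℕ} (x : Fin n → R) (V : Fin s → Pu n → R)
    (β : Fin s → R) (h0 : ∀ i j, i ≠ j → bf (ppf x) (V i) (V j) = 0)
    (h1 : ∀ j, qf (ppf x) (V j) = β j) (l : Fin s) :
    rad_XPoint (β l) x V l = (β l * ∏ p : Fin l.1, β (Fin.castLE l.2.le p)) ^ 2 := by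
  unfold rad_XPoint
  rw [gd_orth_XPoint (ppf x) V β h0 h1 l.1 l.2.le, gd_orth_XPoint (ppf x) V β h0 h1 (l.1 + 1) l.2,
    Fin.prod_univ_castSucc]
  have e1 : Fin.castLE (Nat.succ_le_of_lt l.2) (Fin.last l.1) = l := by
    ext; rfl
  have e2 : ∀ p : Fin l.1, Fin.castLE (Nat.succ_le_of_lt l.2) p.castSucc =
      Fin.castLE l.2.le p := fun p => rfl
  have e3 : β (Fin.castLE (show l.1 + 1 ≤ s from l.2) (Fin.last l.1)) = β l := congrArg β e1
  rw [e3]
  have e4 : ∏ i : Fin l.1, β (Fin.castLE (show l.1 + 1 ≤ s from l.2) i.castSucc) =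
      ∏ p : Fin l.1, β (Fin.castLE l.2.le p) := rfl
  rw [e4]
  ring

/-- the field of FLAG with an arbitrary finite index set -/
lemma flag_XPoint (hF : StFlag) (κ : Type) [Field κ] (h2 : (2 : κ) ≠ 0) (I : Type) [Fintype I] :
    ∃ (S : Type) (_ : Field S) (j : κ →+* S) (s : I → S), Indep j s ∧
      (∀ g : MvPolynomial I κ, MvPolynomial.constantCoeff g ≠ 0 →
        ∃ h : S, h ≠ 0 ∧ MvPolynomial.eval₂Hom j s g = j (MvPolynomial.constantCoeff g) * h ^ 2) ∧
      Pres j := by
  obtain ⟨S, _, j, s, h1, h2', h3⟩ := hF κ h2 (Fintype.card I)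
  let e := Fintype.equivFin I
  have key : ∀ g : MvPolynomial I κ,
      MvPolynomial.eval₂Hom j (fun i => s (e i)) g = MvPolynomial.eval₂Hom j s (rename e g) := by
    intro g
    rw [MvPolynomial.eval₂Hom_rename]
    rfl
  refine ⟨S, inferInstance, j, fun i => s (e i), ?_, ?_, ?_⟩
  · intro p q hpq
    rw [key, key] at hpq
    exact rename_injective _ e.injective (h1 hpq)
  · intro g hg
    obtain ⟨h, hh, hh'⟩ := h2' (rename e g) (by rwa [constantCoeff_rename])
    refine ⟨h, hh, ?_⟩
    rw [key, hh', constantCoeff_rename]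
  · intro m b hb x hx
    have h4 := h3 m b 1 one_ne_zero hb
    have h5 := h4 (Sum.elim x 0) (by
      rw [qf_sumElim]
      simp only [Sum.elim_comp_inl, Sum.elim_comp_inr, qf_zero, add_zero]
      exact hx)
    funext i
    exact congrFun h5 (Sum.inl i)

/-- affine change of independent elements -/
lemma affine_XPoint {κ S I : Type} [Field κ] [Field S] (j : κ →+* S) (s : I → S) (hs : Indep j s)
    (a c : I → κ) (hc : ∀ i, c i ≠ 0) : Indep j (fun i => j (a i) + j (c i) * s i) := by
  have h1 : MvPolynomial.eval₂Hom j (fun i => j (a i) + j (c i) * s i) =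
      (MvPolynomial.eval₂Hom j s).comp
        (MvPolynomial.eval₂Hom (C : κ →+* MvPolynomial I κ)
          (fun i => C (a i) + C (c i) * X i)) := by
    apply MvPolynomial.ringHom_ext
    · intro r; simp
    · intro i; simp
  have h2 : (MvPolynomial.eval₂Hom (C : κ →+* MvPolynomial I κ)
        (fun i => C (c i)⁻¹ * (X i - C (a i)))).comp
      (MvPolynomial.eval₂Hom (C : κ →+* MvPolynomial I κ)
          (fun i => C (a i) + C (c i) * X i)) = RingHom.id _ := by
    apply MvPolynomial.ringHom_ext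
    · intro r; simp
    · intro i
      simp only [RingHom.comp_apply, eval₂Hom_X', map_add, map_mul, eval₂Hom_C, RingHom.id_apply]
      rw [← mul_assoc, ← C_mul, mul_inv_cancel₀ (hc i), C_1, one_mul]
      ring
  have h3 : Function.Injective (MvPolynomial.eval₂Hom (C : κ →+* MvPolynomial I κ)
          (fun i => C (a i) + C (c i) * X i)) := by
    intro p q hpq
    have := congrArg (MvPolynomial.eval₂Hom (C : κ →+* MvPolynomial I κ)
        (fun i => C (c i)⁻¹ * (X i - C (a i)))) hpq
    rw [← RingHom.comp_apply, ← RingHom.comp_apply, h2] at this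
    exact this
  unfold Indep
  rw [h1]
  intro p q hpq
  exact h3 (hs hpq)

/-- independence in towers -/
lemma tower_XPoint {k κ S J I : Type} [Field k] [Field κ] [Field S] (φ : k →+* κ) (j : κ →+* S)
    (τ : J → κ) (hτ : Indep φ τ) (θ : I → S) (hθ : Indep j θ) :
    Indep (j.comp φ) (Sum.elim (fun i => j (τ i)) θ) := by
  have h1 : MvPolynomial.eval₂Hom (j.comp φ) (Sum.elim (fun i => j (τ i)) θ) =
      ((MvPolynomial.eval₂Hom j θ).comp (MvPolynomial.map (MvPolynomial.eval₂Hom φ τ))).comp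
        (((sumAlgEquiv k I J).toRingEquiv.toRingHom).comp
          (rename Sum.swap : MvPolynomial (J ⊕ I) k →ₐ[k] MvPolynomial (I ⊕ J) k).toRingHom) := by
    apply MvPolynomial.ringHom_ext
    · intro r
      simp [sumAlgEquiv_C_inl]
    · rintro (i | i)
      · simp [sumAlgEquiv_X_inr]
      · simp [sumAlgEquiv_X_inl]
  unfold Indep
  rw [h1]
  intro p q hpq
  have h2 := hθ hpq
  have h3 := MvPolynomial.map_injective _ hτ h2
  have h4 := (sumAlgEquiv k I J).injective h3
  exact rename_injective _ (Sum.swap_leftInverse.injective) h4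

lemma bs_ne_XPoint {k F : Type} [Field k] [Field F] [Algebra k F] {t s : ℕ}
    (b : Fin s → MvPolynomial (Fin t) k) (A : Matrix (Fin t) (Fin t) k) (hA : A.det ≠ 0)
    (τ : Fin t → F) (hτ : Indep (algebraMap k F) τ) (l : Fin s) (hb : b l ≠ 0) :
    bs b A τ l ≠ 0 := by
  have h1 : ∀ p : MvPolynomial (Fin t) k, aeval (lin A τ) p =
      MvPolynomial.eval₂Hom (algebraMap k F) τ
        (aeval (lin A (X : Fin t → MvPolynomial (Fin t) k)) p) := by
    intro p
    rw [map_aeval]
    show MvPolynomial.eval₂Hom (algebraMap k F) (lin A τ) p = _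
    refine congrFun (congrArg DFunLike.coe ?_) p
    apply MvPolynomial.ringHom_ext
    · intro r; simp
    · intro i
      simp [lin, MvPolynomial.algebraMap_eq]
  have h2 : ∀ p : MvPolynomial (Fin t) k,
      aeval (lin A⁻¹ (X : Fin t → MvPolynomial (Fin t) k))
        (aeval (lin A (X : Fin t → MvPolynomial (Fin t) k)) p) = p := by
    intro p
    have : (aeval (lin A⁻¹ (X : Fin t → MvPolynomial (Fin t) k))).comp
        (aeval (lin A (X : Fin t → MvPolynomial (Fin t) k))) = AlgHom.id k _ := by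
      apply MvPolynomial.algHom_ext
      intro i
      simp only [AlgHom.comp_apply, aeval_X, AlgHom.id_apply]
      unfold lin
      rw [map_sum]
      simp only [map_mul, aeval_X, AlgHom.commutes]
      simp only [Finset.mul_sum]
      rw [Finset.sum_comm]
      have e1 : ∀ y : Fin t, ∑ x : Fin t, (algebraMap k (MvPolynomial (Fin t) k)) (A i x) *
          ((algebraMap k (MvPolynomial (Fin t) k)) (A⁻¹ x y) * X y) =
          (algebraMap k (MvPolynomial (Fin t) k)) ((A * A⁻¹) i y) * X y := by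
        intro y
        rw [Matrix.mul_apply, map_sum, Finset.sum_mul]
        refine Finset.sum_congr rfl fun x _ => ?_
        rw [map_mul]; ring
      rw [Finset.sum_congr rfl (fun y _ => e1 y), Matrix.mul_nonsing_inv A (isUnit_iff_ne_zero.mpr hA)]
      rw [Finset.sum_eq_single i]
      · simp
      · intro y _ hy
        rw [Matrix.one_apply_ne (Ne.symm hy)]
        simp
      · intro h; exact absurd (Finset.mem_univ _) h
    exact congrFun (congrArg DFunLike.coe this) p
  intro h
  unfold bs at h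
  rw [h1] at h
  have h3 : aeval (lin A (X : Fin t → MvPolynomial (Fin t) k)) (b l) = 0 :=
    hτ (h.trans (map_zero _).symm)
  apply hb
  rw [← h2 (b l), h3, map_zero]

lemma bs_hom_XPoint {k F G Ω : Type} [Field k] [Field F] [Field G] [Field Ω] [Algebra k F]
    [Algebra k G] {t s : ℕ} (b : Fin s → MvPolynomial (Fin t) k) (A : Matrix (Fin t) (Fin t) k)
    (τ : Fin t → F) (τ' : Fin t → G) (φ : F →+* Ω) (φ' : G →+* Ω)
    (h0 : ∀ c, φ (algebraMap k F c) = φ' (algebraMap k G c)) (h1 : ∀ i, φ (τ i) = φ' (τ' i))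
    (l : Fin s) : φ (bs b A τ l) = φ' (bs b A τ' l) := by
  unfold bs
  rw [map_aeval, map_aeval]
  refine congrFun (congrArg DFunLike.coe ?_) (b l)
  apply MvPolynomial.ringHom_ext
  · intro r; simp [h0]
  · intro i
    simp [lin, h0, h1]

theorem pXPoint : StXAlg → StFlag → StXPoint := by
  intro hAlg hFlag k F _ _ _ h2 t n s M b σ τ x Y w hb hσ hX N _ ψ x₀ hx₀ hpf₀ hE
  classical
  have h2N : (2 : N) ≠ 0 := by
    intro h
    apply h2
    apply (ψ.comp (algebraMap k (KT k t))).injective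
    rw [map_zero, map_ofNat]
    exact h
  choose V hV0 hV1 using hE
  obtain ⟨S, _, j, sv, hs1, hs2, hs3⟩ :=
    flag_XPoint hFlag N h2N (Fin n ⊕ (Fin M × Fin s × Pu n))
  -- the point
  set a : (Fin n ⊕ (Fin M × Fin s × Pu n)) → N :=
    Sum.elim x₀ (fun p => V p.1 p.2.1 p.2.2) with ha
  set c : (Fin n ⊕ (Fin M × Fin s × Pu n)) → N := Sum.elim x₀ (fun _ => 1) with hc
  have hc0 : ∀ i, c i ≠ 0 := by
    rintro (i | i)
    · exact hx₀ i
    · exact one_ne_zero
  set θ : (Fin n ⊕ (Fin M × Fin s × Pu n)) → S := fun i => j (a i) + j (c i) * sv i with hθdef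
  have hθ : Indep j θ := affine_XPoint j sv hs1 a c hc0
  set φN : k →+* N := ψ.comp (algebraMap k (KT k t)) with hφN
  have hKT : Indep (algebraMap k (KT k t)) (tv k t) := by
    have e1 : MvPolynomial.eval₂Hom (algebraMap k (KT k t)) (tv k t) =
        algebraMap (MvPolynomial (Fin t) k) (KT k t) := by
      apply MvPolynomial.ringHom_ext
      · intro r
        rw [eval₂Hom_C, IsScalarTower.algebraMap_apply k (MvPolynomial (Fin t) k) (KT k t)]
        rfl
      · intro i
        rw [eval₂Hom_X']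
        rfl
    unfold Indep
    rw [e1]
    exact IsFractionRing.injective _ _
  have hτN : Indep φN (fun i => ψ (tv k t i)) := by
    have e1 : MvPolynomial.eval₂Hom φN (fun i => ψ (tv k t i)) =
        ψ.comp (MvPolynomial.eval₂Hom (algebraMap k (KT k t)) (tv k t)) := by
      rw [comp_eval₂Hom]
    unfold Indep
    rw [e1]
    exact ψ.injective.comp hKT
  set Θ : (Fin t ⊕ (Fin n ⊕ (Fin M × Fin s × Pu n))) → S :=
    Sum.elim (fun i => j (ψ (tv k t i))) θ with hΘdef
  have hΘ : Function.Injective (MvPolynomial.eval₂Hom (j.comp φN) Θ) :=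
    tower_XPoint φN j _ hτN θ hθ
  set y : (Fin t ⊕ (Fin n ⊕ (Fin M × Fin s × Pu n))) → F :=
    Sum.elim τ (Sum.elim x (fun p : Fin M × Fin s × Pu n => Y p.1 p.2.1 p.2.2)) with hy
  have hAI : AlgebraicIndependent k y := hX.indep
  have hAlgF : Algebra.IsAlgebraic (IntermediateField.adjoin k (Set.range y)) F :=
    hAlg k F t n s M b σ τ x Y w hX
  -- embedding of the rational function field
  let g₀ : FractionRing (MvPolynomial (Fin t ⊕ (Fin n ⊕ (Fin M × Fin s × Pu n))) k) →+* S :=
    IsFractionRing.lift hΘ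
  let g : (IntermediateField.adjoin k (Set.range y)) →+* S :=
    g₀.comp (hAI.aevalEquivField.symm.toRingEquiv.toRingHom)
  have hg : ∀ (p : MvPolynomial (Fin t ⊕ (Fin n ⊕ (Fin M × Fin s × Pu n))) k)
      (hp : aeval y p ∈ IntermediateField.adjoin k (Set.range y)),
      g ⟨aeval y p, hp⟩ = MvPolynomial.eval₂Hom (j.comp φN) Θ p := by
    intro p hp
    have e1 : (⟨aeval y p, hp⟩ : IntermediateField.adjoin k (Set.range y)) =
        hAI.aevalEquivField (algebraMap _ _ p) := by
      apply Subtype.ext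
      rw [hAI.aevalEquivField_algebraMap_apply_coe]
    show g₀ (hAI.aevalEquivField.symm ⟨aeval y p, hp⟩) = _
    rw [e1, AlgEquiv.symm_apply_apply]
    exact IsFractionRing.lift_algebraMap hΘ p
  let Ω : Type := AlgebraicClosure S
  let algΩ : Algebra (IntermediateField.adjoin k (Set.range y)) Ω :=
    ((algebraMap S Ω).comp g).toAlgebra
  have : Module.IsTorsionFree (IntermediateField.adjoin k (Set.range y)) Ω := inferInstance
  let Φ : F →ₐ[IntermediateField.adjoin k (Set.range y)] Ω := IsAlgClosed.lift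
  have hΦ : ∀ z : IntermediateField.adjoin k (Set.range y), Φ (z : F) = algebraMap S Ω (g z) := by
    intro z
    exact Φ.commutes z
  have hmem : ∀ p : MvPolynomial (Fin t ⊕ (Fin n ⊕ (Fin M × Fin s × Pu n))) k,
      aeval y p ∈ IntermediateField.adjoin k (Set.range y) := by
    intro p
    have h := (hAI.aevalEquivField (algebraMap _ _ p)).2
    rwa [hAI.aevalEquivField_algebraMap_apply_coe] at h
  have hΦp : ∀ p, Φ (aeval y p) = algebraMap S Ω (MvPolynomial.eval₂Hom (j.comp φN) Θ p) := by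
    intro p
    rw [← hg p (hmem p), ← hΦ]
  have hΦk : ∀ c : k, Φ (algebraMap k F c) = algebraMap S Ω (j (φN c)) := by
    intro c
    have h := hΦp (C c)
    rw [MvPolynomial.aeval_C, eval₂Hom_C] at h
    exact h
  have hΦy : ∀ i, Φ (y i) = algebraMap S Ω (Θ i) := by
    intro i
    have h := hΦp (X i)
    rw [aeval_X, eval₂Hom_X'] at h
    exact h
  have hinjΩ : Function.Injective (algebraMap S Ω) := (algebraMap S Ω).injective
  -- the radicands are squares
  have hsq : ∀ (i : Fin M) (l : Fin s), ∃ r : S, Φ (w i l) = algebraMap S Ω r := by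
    intro i l
    set β : Fin s → N := im ψ (bs b (σ i) (tv k t)) with hβ
    have hβ0 : ∀ m, β m ≠ 0 := by
      intro m
      show ψ _ ≠ 0
      exact (map_ne_zero ψ).mpr (bs_ne_XPoint b (σ i) (hσ i) (tv k t) hKT m (hb m))
    -- polynomial with the radicand as value
    set G : MvPolynomial (Fin n ⊕ (Fin M × Fin s × Pu n)) N :=
      rad_XPoint (C (β l)) (fun jx => C (x₀ jx) + C (x₀ jx) * X (Sum.inl jx))
        (fun m T => C (V i m T) + C 1 * X (Sum.inr (i, m, T))) l.1 with hG
    have hGc : MvPolynomial.constantCoeff G =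
        (β l * ∏ p : Fin l.1, β (Fin.castLE l.2.le p)) ^ 2 := by
      rw [hG, rad_map_XPoint, ← rad_orth_XPoint x₀ (V i) β (hV0 i) (hV1 i) l]
      congr 1
      · simp
      · funext jx; simp [im]
      · funext m T; simp [im]
    have hGc0 : MvPolynomial.constantCoeff G ≠ 0 := by
      rw [hGc]
      exact pow_ne_zero 2 (mul_ne_zero (hβ0 l) (Finset.prod_ne_zero_iff.mpr fun p _ => hβ0 _))
    obtain ⟨h, hh0, hh⟩ := hs2 G hGc0
    have hGs : MvPolynomial.eval₂Hom j sv G =
        rad_XPoint (j (β l)) (fun jx => θ (Sum.inl jx)) (fun m T => θ (Sum.inr (i, m, T))) l.1 := by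
      rw [hG, rad_map_XPoint]
      congr 1
      · simp
      · funext jx
        simp [im, hθdef, ha, hc]
      · funext m T
        simp [im, hθdef, ha, hc]
    have hwsq : Φ (w i l) ^ 2 = algebraMap S Ω
        (rad_XPoint (j (β l)) (fun jx => θ (Sum.inl jx)) (fun m T => θ (Sum.inr (i, m, T))) l.1) := by
      have e0 : w i l ^ 2 = rad_XPoint (bs b (σ i) τ l) x (Y i) l.1 := hX.eq i l
      rw [← map_pow, e0]
      have e1 := rad_map_XPoint (Φ : F →+* Ω) (bs b (σ i) τ l) x (Y i) l.1
      have e2 := rad_map_XPoint (algebraMap S Ω) (j (β l)) (fun jx => θ (Sum.inl jx))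
        (fun m T => θ (Sum.inr (i, m, T))) l.1
      rw [e2]
      refine Eq.trans e1 ?_
      congr 1
      · refine bs_hom_XPoint b (σ i) τ (tv k t) (Φ : F →+* Ω)
          ((algebraMap S Ω).comp (j.comp ψ)) ?_ ?_ l
        · intro c; exact hΦk c
        · intro i'; exact hΦy (Sum.inl i')
      · funext jx
        exact hΦy (Sum.inr (Sum.inl jx))
      · funext m T
        exact hΦy (Sum.inr (Sum.inr (i, m, T)))
    rw [← hGs, hh, hGc] at hwsq
    have e3 : Φ (w i l) ^ 2 = (algebraMap S Ω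
        (j (β l * ∏ p : Fin l.1, β (Fin.castLE l.2.le p)) * h)) ^ 2 := by
      rw [hwsq, map_pow j, ← mul_pow, map_pow (algebraMap S Ω)]
    rcases sq_eq_sq_iff_eq_or_eq_neg.mp e3 with e4 | e4
    · exact ⟨_, e4⟩
    · exact ⟨-(j (β l * ∏ p : Fin l.1, β (Fin.castLE l.2.le p)) * h), by rw [e4, map_neg]⟩
  -- all of `F` is mapped to `S`
  have hall : ∀ z : F, ∃ r : S, Φ z = algebraMap S Ω r := by
    have h1 : ((algebraMap S Ω).fieldRange.comap (Φ : F →+* Ω)) = ⊤ := by
      rw [eq_top_iff, ← hX.gen, Subfield.closure_le]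
      rintro z (⟨c, rfl⟩ | (((⟨i, rfl⟩ | ⟨i, rfl⟩) | ⟨p, rfl⟩) | ⟨p, rfl⟩))
      · exact ⟨_, (hΦk c).symm⟩
      · exact ⟨_, (hΦy (Sum.inl i)).symm⟩
      · exact ⟨_, (hΦy (Sum.inr (Sum.inl i))).symm⟩
      · exact ⟨_, (hΦy (Sum.inr (Sum.inr p))).symm⟩
      · obtain ⟨r, hr⟩ := hsq p.1 p.2
        exact ⟨r, hr.symm⟩
    intro z
    have h2 : z ∈ ((algebraMap S Ω).fieldRange.comap (Φ : F →+* Ω)) := by rw [h1]; trivial
    obtain ⟨r, hr⟩ := h2
    exact ⟨r, hr.symm⟩
  -- the Pfister form over `S`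
  have hxS : Aniso (pf (fun jx => θ (Sum.inl jx))) := by
    have h1 : ∀ jx : Fin n, ∃ h : S, h ≠ 0 ∧ θ (Sum.inl jx) = j (x₀ jx) * h ^ 2 := by
      intro jx
      obtain ⟨h, hh0, hh⟩ := hs2 (C (x₀ jx) + C (x₀ jx) * X (Sum.inl jx)) (by
        simp [hx₀ jx])
      refine ⟨h, hh0, ?_⟩
      have e1 : MvPolynomial.eval₂Hom j sv (C (x₀ jx) + C (x₀ jx) * X (Sum.inl jx)) =
          θ (Sum.inl jx) := by simp [hθdef, ha, hc]
      rw [← e1, hh]
      simp
    choose h hh0 hh using h1
    have h2 : pf (fun jx => θ (Sum.inl jx)) =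
        fun T => im j (pf x₀) T * (∏ jx ∈ T, h jx) ^ 2 := by
      funext T
      unfold pf im
      rw [map_prod, ← Finset.prod_pow, ← Finset.prod_mul_distrib]
      refine Finset.prod_congr rfl fun jx _ => ?_
      show -θ (Sum.inl jx) = _
      rw [hh jx, map_neg]; ring
    have h3 : Aniso (im j (pf x₀)) := hs3.aniso hpf₀
    rw [h2]
    refine h3.of_emb (fun T => ?_) (Emb.sq _ _)
    refine mul_ne_zero (h3.ne_zero T) (pow_ne_zero 2 ?_)
    exact Finset.prod_ne_zero_iff.mpr fun jx _ => hh0 jx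
  intro U hU
  choose r hr using fun T => hall (U T)
  have h1 : qf (pf (fun jx => θ (Sum.inl jx))) r = 0 := by
    apply hinjΩ
    rw [map_zero]
    have e1 : algebraMap S Ω (qf (pf (fun jx => θ (Sum.inl jx))) r) =
        qf (im (algebraMap S Ω) (pf (fun jx => θ (Sum.inl jx)))) (im (algebraMap S Ω) r) :=
      (qf_im _ _ _).symm
    have e2 : (Φ : F →+* Ω) (qf (pf x) U) =
        qf (im (Φ : F →+* Ω) (pf x)) (im (Φ : F →+* Ω) U) := (qf_im _ _ _).symm
    have e3 : im (Φ : F →+* Ω) U = im (algebraMap S Ω) r := by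
      funext T; exact hr T
    have e4 : im (Φ : F →+* Ω) (pf x) = im (algebraMap S Ω) (pf (fun jx => θ (Sum.inl jx))) := by
      rw [← pf_im, ← pf_im]
      congr 1
      funext jx
      exact hΦy (Sum.inr (Sum.inl jx))
    rw [e1, ← e3, ← e4, ← e2, hU, map_zero]
  have h2 := hxS r h1
  funext T
  have h3 := hr T
  rw [h2] at h3
  simp only [Pi.zero_apply, map_zero] at h3
  exact (map_eq_zero (Φ : F →+* Ω)).mp h3

end Pool.Agent.Helper44.RED
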