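import Pool.Agent.Helper44.RED.M_XPoint

/-!
# Project RED, module XRAT (helper49): if `<1, b(τ)>` is isotropic the variety is rational
-/

set_option autoImplicit false
set_option linter.unusedVariables false

open MvPolynomial

namespace Pool.Agent.Helper44.RED

section gen

variable {k F : Type} [Field k] [Field F] [Algebra k F]

lemma GenN.refl_XRat (L : IntermediateField k F) : GenN L L 0 := by
  refine ⟨fun i => i.elim0, ?_⟩
  rw [Set.range_eq_empty, IntermediateField.adjoin_empty, sup_bot_eq]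

lemma GenN.trans_XRat {L L' L'' : IntermediateField k F} {N N' : ℕ} (h : GenN L L' N)
    (h' : GenN L' L'' N') : GenN L L'' (N + N') := by
  obtain ⟨g, hg⟩ := h
  obtain ⟨g', hg'⟩ := h'
  refine ⟨Fin.append g g', ?_⟩
  have e1 : Set.range (Fin.append g g') = Set.range g ∪ Set.range g' := by
    ext z
    constructor
    · rintro ⟨i, rfl⟩
      refine Fin.addCases (fun j => ?_) (fun j => ?_) i
      · left; exact ⟨j, by rw [Fin.append_left]⟩
      · right; exact ⟨j, by rw [Fin.append_right]⟩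
    · rintro (⟨j, rfl⟩ | ⟨j, rfl⟩)
      · exact ⟨Fin.castAdd _ j, by rw [Fin.append_left]⟩
      · exact ⟨Fin.natAdd _ j, by rw [Fin.append_right]⟩
  rw [hg', hg, e1, IntermediateField.adjoin_union, sup_assoc]

lemma GenN.fam_XRat (L : IntermediateField k F) {κ : Type} [Fintype κ] (g : κ → F) :
    GenN L (L ⊔ IntermediateField.adjoin k (Set.range g)) (Fintype.card κ) := by
  refine ⟨fun i => g ((Fintype.equivFin κ).symm i), ?_⟩
  congr 2
  ext z
  constructor
  · rintro ⟨i, rfl⟩
    exact ⟨Fintype.equivFin κ i, by simp⟩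
  · rintro ⟨i, rfl⟩
    exact ⟨_, rfl⟩

end gen

/-- the homomorphism `k(τ) → F`, `τ ↦ A τ` -/
lemma subst_XRat {k F : Type} [Field k] [Field F] [Algebra k F] {t s : ℕ}
    (b : Fin s → MvPolynomial (Fin t) k) (A : Matrix (Fin t) (Fin t) k) (hA : A.det ≠ 0)
    (τ : Fin t → F) (hτ : Indep (algebraMap k F) τ) (hiso : ¬ Aniso (one (toKT b))) :
    IsoIn (IntermediateField.adjoin k (Set.range τ)) (one (bs b A τ)) := by
  have hinj : Function.Injective
      ((aeval (lin A τ) : MvPolynomial (Fin t) k →ₐ[k] F) : MvPolynomial (Fin t) k →+* F) := by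
    rw [injective_iff_map_eq_zero]
    intro p hp
    by_contra hp0
    exact bs_ne_XPoint (fun _ : Fin 1 => p) A hA τ hτ 0 hp0 hp
  let ρ : KT k t →+* F := IsFractionRing.lift hinj
  have hρ : ∀ p : MvPolynomial (Fin t) k,
      ρ (algebraMap (MvPolynomial (Fin t) k) (KT k t) p) = aeval (lin A τ) p := by
    intro p
    exact IsFractionRing.lift_algebraMap hinj p
  have hmem : ∀ p : MvPolynomial (Fin t) k,
      aeval (lin A τ) p ∈ IntermediateField.adjoin k (Set.range τ) := by
    intro p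
    have h1 : ∀ j, lin A τ j ∈ IntermediateField.adjoin k (Set.range τ) := by
      intro j
      unfold lin
      refine sum_mem fun j' _ => mul_mem ?_ ?_
      · exact IntermediateField.algebraMap_mem _ _
      · exact IntermediateField.subset_adjoin _ _ ⟨j', rfl⟩
    have h2 : aeval (lin A τ) p = ((aeval (fun j => (⟨lin A τ j, h1 j⟩ :
        IntermediateField.adjoin k (Set.range τ))) p : IntermediateField.adjoin k (Set.range τ)) :
        F) := by
      have h3 := map_aeval (fun j => (⟨lin A τ j, h1 j⟩ :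
        IntermediateField.adjoin k (Set.range τ)))
        (algebraMap (IntermediateField.adjoin k (Set.range τ)) F) p
      refine Eq.trans ?_ h3.symm
      rfl
    rw [h2]
    exact SetLike.coe_mem _
  have hmem2 : ∀ z : KT k t, ρ z ∈ IntermediateField.adjoin k (Set.range τ) := by
    intro z
    obtain ⟨p, q, hq, rfl⟩ := IsFractionRing.div_surjective (A := MvPolynomial (Fin t) k) z
    rw [map_div₀, hρ, hρ]
    exact div_mem (hmem p) (hmem q)
  unfold Aniso at hiso
  push Not at hiso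
  obtain ⟨z, hz, hz0⟩ := hiso
  refine ⟨im ρ z, fun i => hmem2 _, ?_, ?_⟩
  · intro h
    apply hz0
    funext i
    exact (map_eq_zero ρ).mp (congrFun h i)
  · have e1 : one (bs b A τ) = im ρ (one (toKT b)) := by
      funext i
      refine Fin.cases ?_ (fun j => ?_) i
      · simp [one, im]
      · simp only [one, im, Fin.cons_succ]
        exact (hρ (b j)).symm
    rw [e1, qf_im, hz, map_zero]

/-- a vector of norm `-1` -/
lemma neg_one_XRat (hU : StUniv) {k F : Type} [Field k] [Field F] [Algebra k F] (h2 : (2 : k) ≠ 0)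
    (L : IntermediateField k F) {s : ℕ} (β : Fin s → F) (hβ : ∀ l, β l ∈ L) (hβ0 : ∀ l, β l ≠ 0)
    (h : IsoIn L (one β)) : ∃ z : Fin s → F, (∀ i, z i ∈ L) ∧ qf β z = -1 := by
  obtain ⟨z, hzL, hz0, hz⟩ := h
  have e1 : qf (one β) z = z 0 ^ 2 + qf β (fun i => z i.succ) := by
    unfold qf one
    rw [Fin.sum_univ_succ]
    simp
  rw [e1] at hz
  by_cases h0 : z 0 = 0
  · -- `β` is isotropic over `L`
    let βL : Fin s → L := fun l => ⟨β l, hβ l⟩
    have h2L : (2 : L) ≠ 0 := by
      intro h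
      apply h2
      apply (algebraMap k L).injective
      rw [map_zero, map_ofNat]
      exact h
    have hcoe : ∀ v : Fin s → L, qf β (fun i => (v i : F)) = ((qf βL v : L) : F) := by
      intro v
      exact qf_im (algebraMap L F) βL v
    have hiso : ¬ Aniso βL := by
      intro hA
      have h3 := hA (fun i => ⟨z i.succ, hzL _⟩) (by
        apply Subtype.ext
        rw [← hcoe]
        rw [h0] at hz
        simpa using hz)
      apply hz0
      funext i
      refine Fin.cases h0 (fun j => ?_) i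
      have h4 := congrFun h3 j
      exact congrArg Subtype.val h4
    obtain ⟨v, hv⟩ := hU L (Fin s) h2L βL (fun l => by
      intro h
      exact hβ0 l (congrArg Subtype.val h)) hiso (-1)
    refine ⟨fun i => v i, fun i => (v i).2, ?_⟩
    rw [hcoe, hv]
    rfl
  · refine ⟨fun i => z i.succ / z 0, fun i => div_mem (hzL _) (hzL _), ?_⟩
    have e2 : (fun i : Fin s => z i.succ / z 0) = (z 0)⁻¹ • (fun i : Fin s => z i.succ) := by
      funext i
      simp only [Pi.smul_apply, smul_eq_mul]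
      rw [div_eq_mul_inv, mul_comm]
    rw [e2, qf_smul]
    have e3 : qf β (fun i => z i.succ) = - z 0 ^ 2 := by linear_combination hz
    rw [e3]
    field_simp

/-- the count of generators -/
lemma count_XRat (n s : ℕ) (hn : 1 ≤ n) (hs : s = 2 ^ (n - 1)) :
    ∑ l ∈ Finset.range s, (2 ^ n - 2 - l) + ∑ l : Fin s, (l.1 + 1) = s * (2 ^ n - 1) := by
  have h1 : 2 ^ n = 2 * s := by
    rw [hs, ← pow_succ']
    congr 1
    omega
  have hs1 : 1 ≤ s := by rw [hs]; exact Nat.one_le_two_pow
  rw [h1, Fin.sum_univ_eq_sum_range (fun l => l + 1), ← Finset.sum_add_distrib]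
  rw [Finset.sum_congr rfl (g := fun _ => 2 * s - 1)]
  · simp
  · intro l hl
    rw [Finset.mem_range] at hl
    omega

theorem pXRat : StUniv → StXNZ → StGS → StGenV0 → StGenV1 → StXAlg → StTrdeg → StXRat := by
  intro hUn hNZ hGS hG0 hG1 hAlg hTr k F _ _ _ h2 t n s M b σ τ x Y w hn hs hM hb hσ hX hiso
  obtain ⟨hx0, hb0, hgd⟩ := hNZ k F t n s M b σ τ x Y w hn hs hb hσ hX
  have hτ : Indep (algebraMap k F) τ := by
    have e1 : ∀ p : MvPolynomial (Fin t) k, eval₂Hom (algebraMap k F) τ p =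
        eval₂Hom (algebraMap k F) (Sum.elim τ (Sum.elim x
          (fun p : Fin M × Fin s × Pu n => Y p.1 p.2.1 p.2.2))) (rename Sum.inl p) := by
      intro p
      rw [eval₂Hom_rename]
      rfl
    intro p q hpq
    rw [e1, e1] at hpq
    exact rename_injective _ Sum.inl_injective (hX.indep hpq)
  set K₀ : IntermediateField k F := IntermediateField.adjoin k (Set.range τ) with hK₀
  have hisoK : ∀ i, IsoIn K₀ (one (bs b (σ i) τ)) := fun i => subst_XRat b (σ i) (hσ i) τ hτ hiso
  have hbK : ∀ i l, bs b (σ i) τ l ∈ K₀ := by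
    intro i l
    obtain ⟨z, -, -, -⟩ := hisoK i
    have h1 : ∀ j, lin (σ i) τ j ∈ K₀ := by
      intro j
      unfold lin
      refine sum_mem fun j' _ => mul_mem ?_ ?_
      · exact IntermediateField.algebraMap_mem _ _
      · exact IntermediateField.subset_adjoin _ _ ⟨j', rfl⟩
    have h3 := map_aeval (fun j => (⟨lin (σ i) τ j, h1 j⟩ : K₀)) (algebraMap K₀ F) (b l)
    have h4 : bs b (σ i) τ l = algebraMap K₀ F (aeval (fun j => (⟨lin (σ i) τ j, h1 j⟩ : K₀)) (b l)) := by
      rw [h3]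
      rfl
    rw [h4]
    exact SetLike.coe_mem _
  -- Gram-Schmidt
  set Kx : IntermediateField k F := IntermediateField.adjoin k (Set.range τ ∪ Set.range x) with hKx
  have hK₀x : K₀ ≤ Kx := IntermediateField.adjoin.mono _ _ _ Set.subset_union_left
  have hxK : ∀ j, x j ∈ Kx := fun j => IntermediateField.subset_adjoin _ _ (Or.inr ⟨j, rfl⟩)
  have hppf : ∀ (L : IntermediateField k F), (∀ j, x j ∈ L) → ∀ S, ppf x S ∈ L := by
    intro L hL S
    show pf x S.1 ∈ L
    unfold pf
    exact prod_mem fun j _ => neg_mem (hL j)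
  choose V T hV0 hV1 hVT using fun i => hGS k F (Pu n) Kx (ppf x) s (Y i) (bs b (σ i) τ) (w i)
    (hppf Kx hxK) (fun l => hK₀x (hbK i l)) (hb0 i) (hgd i) (fun l => hX.eq i l)
  -- the chain of fields
  let L : ℕ → IntermediateField k F := fun m => IntermediateField.adjoin k
    ((Set.range τ ∪ Set.range x) ∪ {z | ∃ i : Fin M, i.1 < m ∧ ∃ l S, V i l S = z})
  have hKxL : ∀ m, Kx ≤ L m := fun m => IntermediateField.adjoin.mono _ _ _ Set.subset_union_left
  have hmono : ∀ m m', m ≤ m' → L m ≤ L m' := by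
    intro m m' hmm
    refine IntermediateField.adjoin.mono _ _ _ (Set.union_subset_union_right _ ?_)
    rintro z ⟨i, hi, h⟩
    exact ⟨i, lt_of_lt_of_le hi hmm, h⟩
  have hsucc : ∀ (m : ℕ) (hm : m < M), L (m + 1) = L m ⊔ IntermediateField.adjoin k
      (Set.range (fun p : Fin s × Pu n => V ⟨m, hm⟩ p.1 p.2)) := by
    intro m hm
    show IntermediateField.adjoin k _ = IntermediateField.adjoin k _ ⊔ _
    rw [← IntermediateField.adjoin_union]
    congr 1
    ext z
    constructor
    · rintro (h | ⟨i, hi, l, S, h⟩)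
      · exact Or.inl (Or.inl h)
      · by_cases him : i.1 < m
        · exact Or.inl (Or.inr ⟨i, him, l, S, h⟩)
        · right
          have : i = ⟨m, hm⟩ := Fin.ext (show i.1 = m by omega)
          subst this
          exact ⟨(l, S), h⟩
    · rintro ((h | ⟨i, hi, l, S, h⟩) | ⟨p, h⟩)
      · exact Or.inl h
      · exact Or.inr ⟨i, by omega, l, S, h⟩
      · exact Or.inr ⟨⟨m, hm⟩, by show m < m + 1; omega, p.1, p.2, h⟩
  set Sg : ℕ := ∑ l ∈ Finset.range s, (2 ^ n - 2 - l) with hSg
  -- the first step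
  obtain ⟨z, hzK, hz⟩ := neg_one_XRat hUn h2 K₀ (bs b (σ ⟨0, hM⟩) τ) (hbK _) (hb0 _) (hisoK _)
  obtain ⟨hgen0, U, hUL, hU0, hU⟩ := hG0 k F h2 K₀ n s x hn hs hx0 (bs b (σ ⟨0, hM⟩) τ)
    (V ⟨0, hM⟩) z (hb0 _) (hbK _) hzK hz (hV0 _) (hV1 _)
  have hL1 : K₀ ⊔ IntermediateField.adjoin k
      (Set.range x ∪ Set.range (fun p : Fin s × Pu n => V ⟨0, hM⟩ p.1 p.2)) = L 1 := by
    show IntermediateField.adjoin k _ ⊔ _ = IntermediateField.adjoin k _
    rw [← IntermediateField.adjoin_union]
    congr 1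
    ext z
    constructor
    · rintro (h | h | ⟨p, h⟩)
      · exact Or.inl (Or.inl h)
      · exact Or.inl (Or.inr h)
      · exact Or.inr ⟨⟨0, hM⟩, by norm_num, p.1, p.2, h⟩
    · rintro ((h | h) | ⟨i, hi, l, S, h⟩)
      · exact Or.inl h
      · exact Or.inr (Or.inl h)
      · right; right
        have : i = ⟨0, hM⟩ := Fin.ext (show i.1 = 0 by omega)
        subst this
        exact ⟨(l, S), h⟩
  rw [hL1] at hgen0 hUL
  have hK₀gen : GenN ⊥ K₀ t := by
    have h := GenN.fam_XRat (⊥ : IntermediateField k F) τ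
    rw [bot_sup_eq, Fintype.card_fin] at h
    exact h
  have hchain : ∀ m, m + 1 ≤ M → GenN ⊥ (L (m + 1)) (t + (n + Sg) + m * Sg) := by
    intro m
    induction m with
    | zero =>
      intro _
      rw [Nat.zero_mul, Nat.add_zero]
      exact hK₀gen.trans_XRat hgen0
    | succ m ih =>
      intro hm
      have h1 := ih (by omega)
      have h3 := hG1 k F h2 (L (m + 1)) n s x U hn hs (fun j => hKxL _ (hxK j)) hx0
        (fun S => hmono 1 (m + 1) (by omega) (hUL S)) hU0 hU (bs b (σ ⟨m + 1, hm⟩) τ)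
        (V ⟨m + 1, hm⟩) (hb0 _) (fun l => hKxL _ (hK₀x (hbK _ l)))
        (by
          obtain ⟨z, hz1, hz2, hz3⟩ := hisoK ⟨m + 1, hm⟩
          exact ⟨z, fun i => hKxL _ (hK₀x (hz1 i)), hz2, hz3⟩)
        (hV0 _) (hV1 _)
      rw [← hsucc (m + 1) hm] at h3
      have h4 := h1.trans_XRat h3
      have e1 : t + (n + Sg) + (m + 1) * Sg = t + (n + Sg) + m * Sg + Sg := by ring
      rw [e1]
      exact h4
  obtain ⟨m₀, rfl⟩ : ∃ m₀, M = m₀ + 1 := ⟨M - 1, by omega⟩
  have hLM := hchain m₀ le_rfl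
  -- the coefficients of Gram-Schmidt
  let g : (Fin (m₀ + 1) × (Σ l : Fin s, Fin (l.1 + 1))) → F :=
    fun p => T p.1 p.2.1 ⟨p.2.2.1, lt_of_lt_of_le p.2.2.2 p.2.1.2⟩
  have hfull : L (m₀ + 1) ⊔ IntermediateField.adjoin k (Set.range g) = ⊤ := by
    set E := L (m₀ + 1) ⊔ IntermediateField.adjoin k (Set.range g) with hE
    have hKE : Kx ≤ E := (hKxL _).trans le_sup_left
    have hVTE : ∀ i, Kx ⊔ IntermediateField.adjoin k
        (Set.range (fun p : Fin s × Pu n => V i p.1 p.2) ∪ {z | ∃ l m, m ≤ l ∧ T i l m = z}) ≤ E := by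
      intro i
      refine sup_le hKE ?_
      rw [IntermediateField.adjoin_le_iff]
      rintro z (⟨p, rfl⟩ | ⟨l, m, hml, rfl⟩)
      · exact (le_sup_left : L (m₀ + 1) ≤ E) (IntermediateField.subset_adjoin _ _
          (Or.inr ⟨i, i.2, p.1, p.2, rfl⟩))
      · exact (le_sup_right : IntermediateField.adjoin k (Set.range g) ≤ E)
          (IntermediateField.subset_adjoin _ _ ⟨(i, ⟨l, ⟨m.1, Nat.lt_succ_of_le hml⟩⟩), rfl⟩)
    have hYw : ∀ i z, z ∈ (Set.range (fun p : Fin s × Pu n => Y i p.1 p.2) ∪ Set.range (w i)) →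
        z ∈ E := by
      intro i z hz
      apply hVTE i
      rw [← hVT i]
      exact (le_sup_right : _ ≤ Kx ⊔ _) (IntermediateField.subset_adjoin _ _ hz)
    have h1 : E.toSubfield = ⊤ := by
      rw [eq_top_iff, ← hX.gen, Subfield.closure_le]
      rintro z (⟨c, rfl⟩ | (((⟨i, rfl⟩ | ⟨i, rfl⟩) | ⟨p, rfl⟩) | ⟨p, rfl⟩))
      · exact E.algebraMap_mem c
      · exact hKE (IntermediateField.subset_adjoin _ _ (Or.inl ⟨i, rfl⟩))
      · exact hKE (hxK i)
      · exact hYw p.1 _ (Or.inl ⟨(p.2.1, p.2.2), rfl⟩)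
      · exact hYw p.1 _ (Or.inr ⟨p.2, rfl⟩)
    rw [eq_top_iff]
    intro z _
    have : z ∈ E.toSubfield := by rw [h1]; trivial
    exact this
  have htot := hLM.trans_XRat (GenN.fam_XRat (L (m₀ + 1)) g)
  rw [hfull] at htot
  have hcard : t + (n + Sg) + m₀ * Sg +
      Fintype.card (Fin (m₀ + 1) × (Σ l : Fin s, Fin (l.1 + 1))) =
      Fintype.card (Fin t ⊕ (Fin n ⊕ (Fin (m₀ + 1) × Fin s × Pu n))) := by
    have hPu : Fintype.card (Pu n) = 2 ^ n - 1 := by
      rw [Fintype.card_subtype]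
      have e1 : (Finset.univ.filter fun S : Finset (Fin n) => S.Nonempty) =
          (Finset.univ : Finset (Finset (Fin n))).erase ∅ := by
        ext S
        simp [Finset.nonempty_iff_ne_empty]
      rw [e1, Finset.card_erase_of_mem (Finset.mem_univ _), Finset.card_univ, Fintype.card_finset,
        Fintype.card_fin]
    have hc := count_XRat n s hn hs
    rw [← hSg] at hc
    simp only [Fintype.card_prod, Fintype.card_sigma, Fintype.card_fin, Fintype.card_sum, hPu]
    calc t + (n + Sg) + m₀ * Sg + (m₀ + 1) * ∑ l : Fin s, (l.1 + 1)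
        = t + (n + (m₀ + 1) * (Sg + ∑ l : Fin s, (l.1 + 1))) := by ring
      _ = _ := by rw [hc]
  rw [hcard] at htot
  exact hTr k F _ _ hX.indep (hAlg k F t n s (m₀ + 1) b σ τ x Y w hX) htot

end Pool.Agent.Helper44.RED
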