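import Pool.Agent.Helper44.RED.Spec

/-! # Project RED, module XVar: the variety is integral, its function field (helper78) -/

set_option autoImplicit false

open MvPolynomial

namespace Pool.Agent.Helper44.RED

/-- regrouping of the variables -/
private def ev_XVar (t n s M : ℕ) :
    VI t n s M ≃ (Fin M × Fin s) ⊕ (Fin t ⊕ (Fin n ⊕ (Fin M × Fin s × Pu n))) where
  toFun := Sum.elim (fun j => Sum.inr (Sum.inl j)) (Sum.elim (fun j => Sum.inr (Sum.inr (Sum.inl j)))
    (Sum.elim (fun p => Sum.inr (Sum.inr (Sum.inr p))) (fun p => Sum.inl p)))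
  invFun := Sum.elim (fun p => Sum.inr (Sum.inr (Sum.inr p))) (Sum.elim (fun j => Sum.inl j)
    (Sum.elim (fun j => Sum.inr (Sum.inl j)) (fun p => Sum.inr (Sum.inr (Sum.inl p)))))
  left_inv := by rintro (j | j | p | p) <;> rfl
  right_inv := by rintro (p | j | j | p) <;> rfl

theorem pXVar : StKum → StNSq → StXVar := by
  intro hKum hNSq k _ h2 t n s M b σ hn hs hb hσ
  classical
  -- the base ring
  set R₀ := MvPolynomial (Fin t ⊕ (Fin n ⊕ (Fin M × Fin s × Pu n))) k with hR₀
  set f : Fin M × Fin s → R₀ := fun p =>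
    bs b (σ p.1) (fun j => (X (Sum.inl j) : R₀)) p.2 *
      (gd (ppf (fun j => (X (Sum.inr (Sum.inl j)) : R₀)))
        (ext0 (fun (m : Fin s) (T : Pu n) => (X (Sum.inr (Sum.inr (p.1, m, T))) : R₀))) p.2 *
       gd (ppf (fun j => (X (Sum.inr (Sum.inl j)) : R₀)))
        (ext0 (fun (m : Fin s) (T : Pu n) => (X (Sum.inr (Sum.inr (p.1, m, T))) : R₀)))
          (p.2 + 1)) with hf
  have h2R : (2 : R₀) ≠ 0 := by
    intro h
    apply h2
    apply MvPolynomial.C_injective (Fin t ⊕ (Fin n ⊕ (Fin M × Fin s × Pu n))) k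
    rw [map_zero, map_ofNat]; exact h
  -- the radicands are independent modulo squares
  have hsq : ∀ S : Finset (Fin M × Fin s), S.Nonempty →
      ¬ IsSquare (algebraMap R₀ (FractionRing R₀) (∏ p ∈ S, f p)) := by
    intro S hS
    have hev : ∀ P : R₀, (MvPolynomial.aeval (fun v => algebraMap R₀ (FractionRing R₀) (X v)) :
        R₀ →ₐ[k] FractionRing R₀) P = algebraMap R₀ (FractionRing R₀) P := by
      intro P
      have h := MvPolynomial.comp_aeval_apply (f := fun v => (X v : R₀))
        (IsScalarTower.toAlgHom k R₀ (FractionRing R₀)) P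
      rw [MvPolynomial.aeval_X_left_apply] at h
      exact h.symm
    have h := hNSq k h2 t n s M b σ hn hs hb hσ (FractionRing R₀)
      (fun j => algebraMap R₀ (FractionRing R₀) (X (Sum.inl j)))
      (fun j => algebraMap R₀ (FractionRing R₀) (X (Sum.inr (Sum.inl j))))
      (fun i m T => algebraMap R₀ (FractionRing R₀) (X (Sum.inr (Sum.inr (i, m, T)))))
      (by
        have e : (Sum.elim (fun j => algebraMap R₀ (FractionRing R₀) (X (Sum.inl j)))
            (Sum.elim (fun j => algebraMap R₀ (FractionRing R₀) (X (Sum.inr (Sum.inl j))))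
            (fun p : Fin M × Fin s × Pu n =>
              algebraMap R₀ (FractionRing R₀) (X (Sum.inr (Sum.inr (p.1, p.2.1, p.2.2))))))) =
            fun v => algebraMap R₀ (FractionRing R₀) (X v) := by
          funext v
          rcases v with j | j | p <;> rfl
        rw [e]
        intro P Q hPQ
        apply IsFractionRing.injective R₀ (FractionRing R₀)
        rw [← hev P, ← hev Q]
        exact hPQ)
      (by
        have e : (Sum.elim (fun j => algebraMap R₀ (FractionRing R₀) (X (Sum.inl j)))
            (Sum.elim (fun j => algebraMap R₀ (FractionRing R₀) (X (Sum.inr (Sum.inl j))))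
            (fun p : Fin M × Fin s × Pu n =>
              algebraMap R₀ (FractionRing R₀) (X (Sum.inr (Sum.inr (p.1, p.2.1, p.2.2))))))) =
            fun v => algebraMap R₀ (FractionRing R₀) (X v) := by
          funext v
          rcases v with j | j | p <;> rfl
        rw [e]
        unfold GenBy
        rw [eq_top_iff]
        intro z _
        obtain ⟨a, c, hc, rfl⟩ := IsFractionRing.div_surjective (A := R₀) z
        have hmem : ∀ P : R₀, algebraMap R₀ (FractionRing R₀) P ∈
            Subfield.closure (Set.range (algebraMap k (FractionRing R₀)) ∪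
              Set.range (fun v => algebraMap R₀ (FractionRing R₀) (X v))) := by
          intro P
          induction P using MvPolynomial.induction_on with
          | C a => exact Subfield.subset_closure (Or.inl ⟨a, by
              rw [IsScalarTower.algebraMap_apply k R₀ (FractionRing R₀)]; rfl⟩)
          | add p q hp hq => rw [map_add]; exact Subfield.add_mem _ hp hq
          | mul_X p v hp =>
            rw [map_mul]
            exact Subfield.mul_mem _ hp (Subfield.subset_closure (Or.inr ⟨v, rfl⟩))
        exact Subfield.div_mem _ (hmem a) (hmem c))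
      S hS
    intro hsq'
    apply h
    rw [map_prod] at hsq'
    have e2 : ∀ p, algebraMap R₀ (FractionRing R₀) (f p) =
        bs b (σ p.1) (fun j => algebraMap R₀ (FractionRing R₀) (X (Sum.inl j))) p.2 *
        (gd (ppf (fun j => algebraMap R₀ (FractionRing R₀) (X (Sum.inr (Sum.inl j)))))
          (ext0 (fun m T => algebraMap R₀ (FractionRing R₀) (X (Sum.inr (Sum.inr (p.1, m, T))))))
            p.2 *
         gd (ppf (fun j => algebraMap R₀ (FractionRing R₀) (X (Sum.inr (Sum.inl j)))))
          (ext0 (fun m T => algebraMap R₀ (FractionRing R₀) (X (Sum.inr (Sum.inr (p.1, m, T))))))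
            (p.2 + 1)) := by
      intro p
      exact rad_map_Sp (IsScalarTower.toAlgHom k R₀ (FractionRing R₀)) b (σ p.1) _ _ _ p.2
    rw [Finset.prod_congr rfl fun p _ => e2 p] at hsq'
    exact hsq'
  obtain ⟨hprime, hC⟩ := hKum R₀ (Fin M × Fin s) h2R f hsq
  set I' : Ideal (MvPolynomial (Fin M × Fin s) R₀) := Ideal.span (Set.range fun p =>
    (MvPolynomial.X p ^ 2 - MvPolynomial.C (f p) : MvPolynomial (Fin M × Fin s) R₀)) with hI'
  -- the isomorphism
  let E : MvPolynomial (VI t n s M) k ≃ₐ[k] MvPolynomial (Fin M × Fin s) R₀ :=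
    (MvPolynomial.renameEquiv k (ev_XVar t n s M)).trans
      (MvPolynomial.sumAlgEquiv k (Fin M × Fin s) (Fin t ⊕ (Fin n ⊕ (Fin M × Fin s × Pu n))))
  have hE1 : ∀ j, E (X (Sum.inl j)) = C (X (Sum.inl j)) := by
    intro j
    show MvPolynomial.sumAlgEquiv k _ _ (MvPolynomial.rename (ev_XVar t n s M) _) = _
    rw [MvPolynomial.rename_X]
    exact MvPolynomial.sumRingEquiv_X_inr k (Fin M × Fin s) _ _
  have hE2 : ∀ j, E (X (Sum.inr (Sum.inl j))) = C (X (Sum.inr (Sum.inl j))) := by
    intro j
    show MvPolynomial.sumAlgEquiv k _ _ (MvPolynomial.rename (ev_XVar t n s M) _) = _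
    rw [MvPolynomial.rename_X]
    exact MvPolynomial.sumRingEquiv_X_inr k (Fin M × Fin s) _ _
  have hE3 : ∀ p, E (X (Sum.inr (Sum.inr (Sum.inl p)))) = C (X (Sum.inr (Sum.inr p))) := by
    intro j
    show MvPolynomial.sumAlgEquiv k _ _ (MvPolynomial.rename (ev_XVar t n s M) _) = _
    rw [MvPolynomial.rename_X]
    exact MvPolynomial.sumRingEquiv_X_inr k (Fin M × Fin s) _ _
  have hE4 : ∀ p, E (X (Sum.inr (Sum.inr (Sum.inr p)))) = X p := by
    intro j
    show MvPolynomial.sumAlgEquiv k _ _ (MvPolynomial.rename (ev_XVar t n s M) _) = _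
    rw [MvPolynomial.rename_X]
    exact MvPolynomial.sumRingEquiv_X_inl k (Fin M × Fin s) _ _
  have hEeq : ∀ p, E (eqn b σ p) = X p ^ 2 - C (f p) := by
    intro p
    unfold eqn
    rw [map_sub, map_pow, hE4]
    congr 1
    have h3 := rad_map_Sp (E : MvPolynomial (VI t n s M) k →ₐ[k] MvPolynomial (Fin M × Fin s) R₀)
      b (σ p.1) (fun j => X (Sum.inl j)) (fun j => X (Sum.inr (Sum.inl j)))
      (fun m T => X (Sum.inr (Sum.inr (Sum.inl (p.1, m, T))))) p.2
    have h4 := rad_map_Sp (IsScalarTower.toAlgHom k R₀ (MvPolynomial (Fin M × Fin s) R₀))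
      b (σ p.1) (fun j => X (Sum.inl j)) (fun j => X (Sum.inr (Sum.inl j)))
      (fun m T => X (Sum.inr (Sum.inr (p.1, m, T)))) p.2
    refine h3.trans (Eq.trans ?_ h4.symm)
    simp only [AlgEquiv.coe_toAlgHom, hE1, hE2, hE3]
    rfl
  have hIE : XI n b σ = I'.comap (E : MvPolynomial (VI t n s M) k →+* MvPolynomial (Fin M × Fin s) R₀) := by
    have h3 : (XI n b σ).map (E : MvPolynomial (VI t n s M) k →+* MvPolynomial (Fin M × Fin s) R₀) =
        I' := by
      unfold XI
      rw [Ideal.map_span, hI', ← Set.range_comp]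
      congr 1
      apply congrArg
      funext p
      exact hEeq p
    rw [← h3]
    exact (Ideal.comap_map_of_bijective (E : MvPolynomial (VI t n s M) k →+*
      MvPolynomial (Fin M × Fin s) R₀) E.bijective).symm
  constructor
  · rw [hIE]
    exact Ideal.IsPrime.comap _
  · intro F _ _ θ hθ hgen
    -- the evaluation
    set g : MvPolynomial (VI t n s M) k →ₐ[k] F :=
      θ.comp (Ideal.Quotient.mkₐ k (XI n b σ)) with hg
    refine ⟨?_, ?_, ?_⟩
    · -- independence
      set y : Fin t ⊕ (Fin n ⊕ (Fin M × Fin s × Pu n)) → F := fun v =>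
        g (E.symm (C (X v))) with hy
      have hyeq : (Sum.elim (fun j => θ (Ideal.Quotient.mk _ (MvPolynomial.X (Sum.inl j))))
        (Sum.elim (fun j => θ (Ideal.Quotient.mk _ (MvPolynomial.X (Sum.inr (Sum.inl j)))))
        (fun p : Fin M × Fin s × Pu n =>
          θ (Ideal.Quotient.mk _ (MvPolynomial.X (Sum.inr (Sum.inr (Sum.inl (p.1, p.2.1, p.2.2)))))))))
          = y := by
        funext v
        rcases v with j | j | p
        · simp only [Sum.elim_inl, hy, ← hE1, AlgEquiv.symm_apply_apply]; rfl
        · simp only [Sum.elim_inl, Sum.elim_inr, hy, ← hE2, AlgEquiv.symm_apply_apply]; rfl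
        · simp only [Sum.elim_inr, hy, ← hE3, AlgEquiv.symm_apply_apply]; rfl
      rw [hyeq]
      have h3 : ∀ P : R₀, MvPolynomial.aeval y P = g (E.symm (C P)) := by
        intro P
        have h4 := MvPolynomial.comp_aeval_apply (f := fun v => (X v : R₀))
          ((g.comp (E.symm : MvPolynomial (Fin M × Fin s) R₀ →ₐ[k] MvPolynomial (VI t n s M) k)).comp
            (IsScalarTower.toAlgHom k R₀ (MvPolynomial (Fin M × Fin s) R₀))) P
        rw [MvPolynomial.aeval_X_left_apply] at h4
        exact h4.symm
      have h5 : Function.Injective (MvPolynomial.aeval y : R₀ →ₐ[k] F) := by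
        rw [injective_iff_map_eq_zero]
        intro P hP
        rw [h3] at hP
        have h6 : Ideal.Quotient.mk (XI n b σ) (E.symm (C P)) = 0 :=
          hθ (by rw [map_zero]; exact hP)
        have h7 : E.symm (C P) ∈ XI n b σ := Ideal.Quotient.eq_zero_iff_mem.1 h6
        rw [hIE] at h7
        have h8 : E (E.symm (C P)) ∈ I' := h7
        rw [AlgEquiv.apply_symm_apply] at h8
        exact hC P h8
      intro P Q hPQ
      exact h5 hPQ
    · -- generation
      unfold GenBy
      rw [eq_top_iff]
      intro z _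
      obtain ⟨a, c, rfl⟩ := hgen z
      have hmem : ∀ P : MvPolynomial (VI t n s M) k, θ (Ideal.Quotient.mk _ P) ∈
          Subfield.closure (Set.range (algebraMap k F) ∪
          (Set.range (fun j => θ (Ideal.Quotient.mk _ (MvPolynomial.X (Sum.inl j)))) ∪
          Set.range (fun j => θ (Ideal.Quotient.mk _ (MvPolynomial.X (Sum.inr (Sum.inl j))))) ∪
          Set.range (fun p : Fin M × Fin s × Pu n =>
            θ (Ideal.Quotient.mk _ (MvPolynomial.X (Sum.inr (Sum.inr (Sum.inl (p.1, p.2.1, p.2.2)))))))
          ∪ Set.range (fun p : Fin M × Fin s =>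
            θ (Ideal.Quotient.mk _ (MvPolynomial.X (Sum.inr (Sum.inr (Sum.inr (p.1, p.2))))))))) := by
        intro P
        induction P using MvPolynomial.induction_on with
        | C a =>
          refine Subfield.subset_closure (Or.inl ⟨a, ?_⟩)
          exact (AlgHom.commutes g a).symm
        | add p q hp hq => rw [map_add, map_add]; exact Subfield.add_mem _ hp hq
        | mul_X p v hp =>
          rw [map_mul, map_mul]
          refine Subfield.mul_mem _ hp (Subfield.subset_closure (Or.inr ?_))
          rcases v with j | j | q | q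
          · exact Or.inl (Or.inl (Or.inl ⟨j, rfl⟩))
          · exact Or.inl (Or.inl (Or.inr ⟨j, rfl⟩))
          · exact Or.inl (Or.inr ⟨q, rfl⟩)
          · exact Or.inr ⟨q, rfl⟩
      obtain ⟨a, rfl⟩ := Ideal.Quotient.mk_surjective a
      obtain ⟨c, rfl⟩ := Ideal.Quotient.mk_surjective c
      exact Subfield.div_mem _ (hmem a) (hmem c)
    · intro i l
      have h3 : g (eqn b σ (i, l)) = 0 := by
        have h4 : eqn b σ (i, l) ∈ XI n b σ := Ideal.subset_span ⟨(i, l), rfl⟩
        have h5 : Ideal.Quotient.mk (XI n b σ) (eqn b σ (i, l)) = 0 :=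
          Ideal.Quotient.eq_zero_iff_mem.2 h4
        show θ (Ideal.Quotient.mk (XI n b σ) (eqn b σ (i, l))) = 0
        rw [h5, map_zero]
      unfold eqn at h3
      rw [map_sub, map_pow, sub_eq_zero] at h3
      have h6 := rad_map_Sp g b (σ i) (fun j => X (Sum.inl j)) (fun j => X (Sum.inr (Sum.inl j)))
        (fun m T => X (Sum.inr (Sum.inr (Sum.inl (i, m, T))))) l
      exact h3.trans h6

end Pool.Agent.Helper44.RED
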