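import Pool.Agent.Helper44.RED.M_CP
import Pool.Agent.Helper44.RED.M_Cancel
import Pool.Agent.Helper44.RED.M_Compl
import Pool.Agent.Helper44.RED.M_ConeEx
import Pool.Agent.Helper44.RED.M_ConeMap
import Pool.Agent.Helper44.RED.M_ConePf
import Pool.Agent.Helper44.RED.M_ConePure
import Pool.Agent.Helper44.RED.M_Const
import Pool.Agent.Helper44.RED.M_Desc
import Pool.Agent.Helper44.RED.M_FinLat
import Pool.Agent.Helper44.RED.M_Flag
import Pool.Agent.Helper44.RED.M_Flip
import Pool.Agent.Helper44.RED.M_GPf
import Pool.Agent.Helper44.RED.M_GS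
import Pool.Agent.Helper44.RED.M_Gauss
import Pool.Agent.Helper44.RED.M_GenV0
import Pool.Agent.Helper44.RED.M_GenV1
import Pool.Agent.Helper44.RED.M_GoodRed0
import Pool.Agent.Helper44.RED.M_H1
import Pool.Agent.Helper44.RED.M_Homog
import Pool.Agent.Helper44.RED.M_HypCompl
import Pool.Agent.Helper44.RED.M_HypRes
import Pool.Agent.Helper44.RED.M_InfPlace
import Pool.Agent.Helper44.RED.M_IsoGen
import Pool.Agent.Helper44.RED.M_Kum
import Pool.Agent.Helper44.RED.M_Lat
import Pool.Agent.Helper44.RED.M_Laur
import Pool.Agent.Helper44.RED.M_Lead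
import Pool.Agent.Helper44.RED.M_ME
import Pool.Agent.Helper44.RED.M_MaxEx
import Pool.Agent.Helper44.RED.M_Minors
import Pool.Agent.Helper44.RED.M_NSq
import Pool.Agent.Helper44.RED.M_Odd
import Pool.Agent.Helper44.RED.M_OddBC
import Pool.Agent.Helper44.RED.M_PT
import Pool.Agent.Helper44.RED.M_Padic
import Pool.Agent.Helper44.RED.M_Par
import Pool.Agent.Helper44.RED.M_PfHyp
import Pool.Agent.Helper44.RED.M_PureIso
import Pool.Agent.Helper44.RED.M_RationalNot
import Pool.Agent.Helper44.RED.M_Refl
import Pool.Agent.Helper44.RED.M_Rep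
import Pool.Agent.Helper44.RED.M_Round
import Pool.Agent.Helper44.RED.M_Sep
import Pool.Agent.Helper44.RED.M_Sigma
import Pool.Agent.Helper44.RED.M_Slots
import Pool.Agent.Helper44.RED.M_Springer
import Pool.Agent.Helper44.RED.M_Step
import Pool.Agent.Helper44.RED.M_StepV
import Pool.Agent.Helper44.RED.M_Stereo
import Pool.Agent.Helper44.RED.M_Sub
import Pool.Agent.Helper44.RED.M_Tower
import Pool.Agent.Helper44.RED.M_Trdeg0
import Pool.Agent.Helper44.RED.M_Unif
import Pool.Agent.Helper44.RED.M_Univ
import Pool.Agent.Helper44.RED.M_UnramIso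
import Pool.Agent.Helper44.RED.M_WH
import Pool.Agent.Helper44.RED.M_XAlg
import Pool.Agent.Helper44.RED.M_XEmb
import Pool.Agent.Helper44.RED.M_XNZ
import Pool.Agent.Helper44.RED.M_XNot
import Pool.Agent.Helper44.RED.M_XPoint
import Pool.Agent.Helper44.RED.M_XRat
import Pool.Agent.Helper44.RED.M_XVar
import Pool.Agent.Helper44.RED.M_AB
import Pool.Agent.Helper44.RED.M_AllUnram
import Pool.Agent.Helper44.RED.M_AnisoRes
import Pool.Agent.Helper44.RED.M_Pencil
import Pool.Agent.Helper44.RED.M_Fin1
import Pool.Agent.Helper44.RED.M_Fin2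
import Pool.Agent.Helper77.RED.M_NormVal

/-!
# Project RED: assembly of all modules
-/

set_option autoImplicit false

namespace Pool.Agent.Helper44.RED

theorem aRound : StRound := pRound
theorem aRefl : StRefl := pRefl
theorem aCancel : StCancel := pCancel aRefl
theorem aCompl : StCompl := pCompl
theorem aFlip : StFlip := pFlip
theorem aPT : StPT := pPT
theorem aOdd : StOdd := pOdd
theorem aCP : StCP := pCP
theorem aSub : StSub := pSub aCP aPT aCompl aFlip aRefl
theorem aPfHyp : StPfHyp := pPfHyp aRound
theorem aHypCompl : StHypCompl := pHypCompl aFlip aCancel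
theorem aUniv : StUniv := pUniv
theorem aRep : StRep := pRep aUniv
theorem aGPf : StGPf := pGPf aOdd
theorem aConeEx : StConeEx := pConeEx
theorem aConePure : StConePure := pConePure
theorem aConePf : StConePf := pConePf aPT aRound aSub
theorem aConeMap : StConeMap := pConeMap
theorem aTower : StTower := pTower aConePf aRound aFlip aCancel
theorem aStep : StStep := pStep aCompl aConeEx aTower aConeMap aPfHyp aHypCompl aUniv aRep
  aConePure aPT
theorem aME : StME := pME aGPf aPT aStep aCancel
theorem aWH : StWH := pWH aOdd aME aConeMap aConePf aCompl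
theorem aLaur : StLaur := pLaur
theorem aFlag : StFlag := pFlag aLaur
theorem aSep : StSep := pSep aConeEx aWH aFlag
theorem aUnif : StUnif := pUnif
theorem aSlots : StSlots := pSlots
theorem aAnisoRes : StAnisoRes := pAnisoRes
theorem aHypRes : StHypRes := pHypRes aPfHyp
theorem aUnramIso : StUnramIso := pUnramIso
theorem aGoodRed : StGoodRed := pGoodRed0 aUnif aSlots aAnisoRes aHypRes aUnramIso
theorem aLat : StLat := pLat
theorem aMaxEx : StMaxEx := pMaxEx aUnif
theorem aPadic : StPadic := pPadic
theorem aInfPlace : StInfPlace := pInfPlace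
theorem aFinLat : StFinLat := pFinLat aPadic aLat
theorem aConst : StConst := pConst aFinLat aInfPlace
theorem aGauss : StGauss := pGauss
theorem aDesc : StDesc := pDesc aUnif aGauss aMaxEx aLat
theorem aRationalNot : StRationalNot := pRationalNot aConst aDesc aUnramIso aFlip
theorem aAllUnram : StAllUnram := pAllUnram aGoodRed
theorem aStereo : StStereo := pStereo
theorem aStepV : StStepV := pStepV aCompl aPfHyp aHypCompl aUniv aRep aStereo
theorem aGenV1 : StGenV1 := pGenV1 aStepV
theorem aIsoGen : StIsoGen := pIsoGen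
theorem aGenV0 : StGenV0 := pGenV0 aIsoGen aCompl aStepV
theorem aGS : StGS := pGS
theorem aTrdeg : StTrdeg := pTrdeg0
theorem aXNZ : StXNZ := pXNZ
theorem aXAlg : StXAlg := pXAlg
theorem aXRat : StXRat := pXRat aUniv aXNZ aGS aGenV0 aGenV1 aXAlg aTrdeg
theorem aXPoint : StXPoint := pXPoint aXAlg aFlag
theorem aXEmb : StXEmb := pXEmb aXNZ aGS
theorem aXNot : StXNot := pXNot aSep aME aXPoint aPT aXEmb aRationalNot aAllUnram aXNZ
theorem aKum : StKum := pKum
theorem aNSq : StNSq := pNSq
theorem aXVar : StXVar := pXVar aKum aNSq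
theorem aSigma : StSigma := pSigma
theorem aSpringer : StSpringer := pSpringer
theorem aOddBC : StOddBC := pOddBC
theorem aNormVal : StNormVal := Pool.Agent.Helper77.RED.hNormVal
theorem aPar : StPar := pPar aPadic aInfPlace
theorem aH1 : StH1 := pH1 aPar aNormVal
theorem aAB : StAB := pAB aOddBC aSpringer aH1
theorem aMinors : StMinors := pMinors
theorem aHomog : StHomog := pHomog aPT
theorem aPencil : StPencil := pPencil aAB aMinors aHomog
theorem aLead : StLead := pLead
theorem aPureIso : StPureIso := pPureIso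
theorem aFin1 : StFin1 := pFin1 aXVar aXRat aXNot aPureIso
theorem aFin2 : StFin2 := pFin2 aPencil aLead aHomog aSigma aFin1

end Pool.Agent.Helper44.RED
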