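import Pool.Agent.Helper44.RED.StF

/-!
# Project RED: `pdet` computes the determinant
-/

set_option autoImplicit false

namespace Pool.Agent.Helper44.RED

lemma lprod_CDet (f : ℕ → ℤ) (n : ℕ) :
    ((List.range n).map f).prod = ∏ i ∈ Finset.range n, f i := by
  induction n with
  | zero => simp
  | succ n ih => rw [List.range_succ, List.map_append, List.prod_append, ih,
      Finset.prod_range_succ]; simp

lemma range_Iio_CDet {n : ℕ} (i : Fin n) (f : ℕ → ℤ) :
    ∏ j ∈ Finset.range i, f j = ∏ j ∈ Finset.Iio i, f j := by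
  have h : Finset.range (i : ℕ) = (Finset.Iio i).map Fin.valEmbedding := by
    ext a
    simp only [Finset.mem_range, Finset.mem_map, Finset.mem_Iio, Fin.valEmbedding_apply]
    constructor
    · intro h
      exact ⟨⟨a, lt_trans h i.2⟩, h, rfl⟩
    · rintro ⟨b, hb, rfl⟩
      exact hb
  rw [h, Finset.prod_map]
  rfl

lemma sgw_CDet (n q : ℕ) (g : Fin n → Fin n) (hg : ∀ i : Fin n, (g i : ℕ) = dig n q i) :
    sgw n q = ∏ i : Fin n, ∏ j ∈ Finset.Iio i, (((g i : ℕ) : ℤ) - ((g j : ℕ) : ℤ)).sign := by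
  unfold sgw
  rw [lprod_CDet, Finset.prod_range]
  refine Finset.prod_congr rfl fun i _ => ?_
  rw [lprod_CDet, range_Iio_CDet]
  refine Finset.prod_congr rfl fun j _ => ?_
  rw [hg i, hg j]

lemma sgw_perm_CDet {n : ℕ} (σ : Equiv.Perm (Fin n)) :
    (∏ i : Fin n, ∏ j ∈ Finset.Iio i, (((σ i : ℕ) : ℤ) - ((σ j : ℕ) : ℤ)).sign) =
      ((Equiv.Perm.sign σ : ℤˣ) : ℤ) := by
  rw [Equiv.Perm.sign_eq_prod_prod_Iio, Units.coe_prod]
  refine Finset.prod_congr rfl fun i _ => ?_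
  rw [Units.coe_prod]
  refine Finset.prod_congr rfl fun j hj => ?_
  rw [Finset.mem_Iio] at hj
  have hne : σ j ≠ σ i := fun h => (ne_of_lt hj) (σ.injective h)
  by_cases h : σ j < σ i
  · rw [if_pos h]
    have h' : ((σ j : ℕ) : ℤ) < ((σ i : ℕ) : ℤ) := by exact_mod_cast h
    rw [Int.sign_eq_one_of_pos (by linarith)]
    rfl
  · rw [if_neg h]
    have h1 : σ i < σ j := lt_of_le_of_ne (not_lt.1 h) (Ne.symm hne)
    have h' : ((σ i : ℕ) : ℤ) < ((σ j : ℕ) : ℤ) := by exact_mod_cast h1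
    rw [Int.sign_eq_neg_one_of_neg (by linarith)]
    rfl

lemma sgw_zero_CDet {n : ℕ} (g : Fin n → Fin n) (hg : ¬ Function.Injective g) :
    (∏ i : Fin n, ∏ j ∈ Finset.Iio i, (((g i : ℕ) : ℤ) - ((g j : ℕ) : ℤ)).sign) = 0 := by
  unfold Function.Injective at hg
  push Not at hg
  obtain ⟨a, b, hab, hne⟩ := hg
  have key : ∀ a b : Fin n, g a = g b → a < b →
      (∏ i : Fin n, ∏ j ∈ Finset.Iio i, (((g i : ℕ) : ℤ) - ((g j : ℕ) : ℤ)).sign) = 0 := by
    intro a b hab hlt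
    refine Finset.prod_eq_zero (Finset.mem_univ b) ?_
    refine Finset.prod_eq_zero (Finset.mem_Iio.2 hlt) ?_
    rw [hab, sub_self, Int.sign_zero]
  rcases lt_or_gt_of_ne hne with h | h
  · exact key a b hab h
  · exact key b a hab.symm h

theorem pCDet : StCDet := by
  intro R _ n f x
  unfold pdet
  rw [ev_psum, Finset.sum_range, Matrix.det_apply']
  set F : (Fin n → Fin n) → R := fun g =>
    ((∏ i : Fin n, ∏ j ∈ Finset.Iio i, (((g i : ℕ) : ℤ) - ((g j : ℕ) : ℤ)).sign : ℤ) : R) *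
      ∏ i : Fin n, ev (f (g i) i) x with hF
  have h1 : ∀ q : Fin (n ^ n), ev (pmul (pint (sgw n q)) (pprod n fun i => f (dig n q i) i)) x =
      F (finFunctionFinEquiv.symm q) := by
    intro q
    have hd : ∀ i : Fin n, ((finFunctionFinEquiv.symm q i : Fin n) : ℕ) = dig n q i :=
      fun i => rfl
    rw [ev_pmul, ev_pint, ev_pprod, Finset.prod_range, hF, sgw_CDet n q _ hd]
    congr 1
  rw [Finset.sum_congr rfl fun q _ => h1 q, Equiv.sum_comp finFunctionFinEquiv.symm F]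
  have h2 : ∑ g, F g = ∑ g ∈ Finset.univ.filter (fun g : Fin n → Fin n => Function.Bijective g),
      F g := by
    refine (Finset.sum_filter_of_ne fun g _ hg => ?_).symm
    by_contra hb
    apply hg
    have hni : ¬ Function.Injective g := fun hi => hb (Finite.injective_iff_bijective.1 hi)
    rw [hF]
    show ((∏ i : Fin n, ∏ j ∈ Finset.Iio i, (((g i : ℕ) : ℤ) - ((g j : ℕ) : ℤ)).sign : ℤ) : R) *
      ∏ i : Fin n, ev (f (g i) i) x = 0
    rw [sgw_zero_CDet g hni, Int.cast_zero, zero_mul]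
  rw [h2]
  symm
  refine Finset.sum_bij (fun (σ : Equiv.Perm (Fin n)) _ => (σ : Fin n → Fin n)) ?_ ?_ ?_ ?_
  · intro σ _
    exact Finset.mem_filter.2 ⟨Finset.mem_univ _, σ.bijective⟩
  · intro σ _ τ _ h
    exact DFunLike.coe_injective h
  · intro g hg
    exact ⟨Equiv.ofBijective g (Finset.mem_filter.1 hg).2, Finset.mem_univ _, rfl⟩
  · intro σ _
    rw [hF]
    show _ = ((∏ i : Fin n, ∏ j ∈ Finset.Iio i, (((σ i : ℕ) : ℤ) - ((σ j : ℕ) : ℤ)).sign : ℤ) : R) *
      ∏ i : Fin n, ev (f (σ i) i) x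
    rw [sgw_perm_CDet]
    rfl

end Pool.Agent.Helper44.RED
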