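import Pool.Agent.Helper44.RED.StF

set_option autoImplicit false

namespace Pool.Agent.Helper44.RED

private lemma foldl_max_CHom : ∀ (l : List ℕ) (c : ℕ), l.foldl max c = max c (l.foldl max 0) := by
  intro l
  induction l with
  | nil => intro c; simp
  | cons a l ih =>
    intro c
    rw [List.foldl_cons, List.foldl_cons, ih (max c a), ih (max 0 a)]
    omega

private lemma pdeg_cons_CHom (a : ℤ × List ℕ) (P : PC) :
    pdeg (a :: P) = max a.2.sum (pdeg P) := by
  unfold pdeg
  rw [List.map_cons, List.foldl_cons, foldl_max_CHom]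
  omega

private lemma sum_getD_CHom : ∀ l : List ℕ, ∑ i ∈ Finset.range l.length, l.getD i 0 = l.sum := by
  intro l
  induction l with
  | nil => simp
  | cons a l ih =>
    rw [List.length_cons, Finset.sum_range_succ', List.sum_cons, ← ih]
    simp [add_comm]

private lemma xvn_hom_CHom (k : Type) [Field k] (T i : ℕ) : (xvn k T i).IsHomogeneous 1 := by
  unfold xvn
  split_ifs
  · exact MvPolynomial.isHomogeneous_X _ _
  · exact MvPolynomial.isHomogeneous_zero _ _ _

private lemma mono_hom_CHom (k : Type) [Field k] (T : ℕ) (a : ℤ × List ℕ) :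
    (((a.1 : ℤ) : MvPolynomial (Fin T) k) *
      ∏ i ∈ Finset.range a.2.length, xvn k T i ^ a.2.getD i 0).IsHomogeneous a.2.sum := by
  have h1 : ((a.1 : ℤ) : MvPolynomial (Fin T) k) = MvPolynomial.C ((a.1 : ℤ) : k) :=
    (map_intCast (MvPolynomial.C : k →+* MvPolynomial (Fin T) k) a.1).symm
  have h2 : (∏ i ∈ Finset.range a.2.length, xvn k T i ^ a.2.getD i 0).IsHomogeneous
      (∑ i ∈ Finset.range a.2.length, a.2.getD i 0) := by
    refine MvPolynomial.IsHomogeneous.prod _ _ _ fun i _ => ?_
    have := (xvn_hom_CHom k T i).pow (a.2.getD i 0)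
    rwa [one_mul] at this
  rw [sum_getD_CHom] at h2
  have h3 := (MvPolynomial.isHomogeneous_C (Fin T) ((a.1 : ℤ) : k)).mul h2
  rw [zero_add] at h3
  rw [h1]
  exact h3

private lemma hzD_add_CHom {k : Type} [Field k] {m : ℕ} (D : ℕ) (c c' : MvPolynomial (Fin m) k) :
    hzD D (c + c') = hzD D c + hzD D c' := by
  unfold hzD
  rw [← Finset.sum_add_distrib]
  refine Finset.sum_congr rfl fun d _ => ?_
  rw [map_add, map_add, mul_add]

private lemma hzD_hom_CHom {k : Type} [Field k] {m : ℕ} (D s : ℕ) (hs : s ≤ D)
    (c : MvPolynomial (Fin m) k) (hc : c.IsHomogeneous s) :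
    hzD D c = MvPolynomial.X 0 ^ (2 * D - s) * MvPolynomial.rename Fin.succ c := by
  unfold hzD
  rw [Finset.sum_eq_single s]
  · rw [MvPolynomial.homogeneousComponent_of_mem
      ((MvPolynomial.mem_homogeneousSubmodule _ _).2 hc), if_pos rfl]
  · intro d _ hd
    rw [MvPolynomial.homogeneousComponent_of_mem
      ((MvPolynomial.mem_homogeneousSubmodule _ _).2 hc), if_neg hd, map_zero, mul_zero]
  · intro h
    exact absurd (Finset.mem_range.2 (by omega)) h

private lemma rename_xvn_CHom (k : Type) [Field k] (T i : ℕ) :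
    MvPolynomial.rename Fin.succ (xvn k T i) = xvn k (T + 1) (i + 1) := by
  unfold xvn
  by_cases h : i < T
  · rw [dif_pos h, dif_pos (by omega), MvPolynomial.rename_X]
    rfl
  · rw [dif_neg h, dif_neg (by omega), map_zero]

/-- module CHOM -/
theorem pCHom : StCHom := by
  intro k _ T D P
  constructor
  · induction P with
    | nil => simp [pdeg]
    | cons a P ih =>
      rw [ev_cons, pdeg_cons_CHom]
      refine (MvPolynomial.totalDegree_add _ _).trans (max_le_max ?_ ih)
      exact (mono_hom_CHom k T a).totalDegree_le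
  · intro hD
    induction P with
    | nil => simp [phom, hzD]
    | cons a P ih =>
      rw [pdeg_cons_CHom] at hD
      have h1 : phom D (a :: P) = (a.1, (2 * D - a.2.sum) :: a.2) :: phom D P := rfl
      rw [h1, ev_cons, ev_cons, hzD_add_CHom, ih (le_trans (le_max_right _ _) hD),
        hzD_hom_CHom D a.2.sum (le_trans (le_max_left _ _) hD) _ (mono_hom_CHom k T a)]
      congr 1
      rw [map_mul, map_prod, map_intCast]
      simp only [List.length_cons]
      rw [Finset.prod_range_succ']
      simp only [List.getD_cons_succ, List.getD_cons_zero, map_pow, rename_xvn_CHom]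
      have h2 : xvn k (T + 1) 0 = MvPolynomial.X 0 := by
        unfold xvn
        rw [dif_pos (by omega)]
        rfl
      rw [h2]
      ring

end Pool.Agent.Helper44.RED
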