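import Pool.Agent.Helper44.RED.StF

set_option autoImplicit false

namespace Pool.Agent.Helper44.RED

private lemma sum_eq_zero_CPtr : ∀ l : List ℕ, l.sum = 0 ↔ ∀ i, l.getD i 0 = 0 := by
  intro l
  induction l with
  | nil => simp
  | cons a l ih =>
    rw [List.sum_cons, Nat.add_eq_zero_iff, ih]
    constructor
    · rintro ⟨h1, h2⟩ i
      cases i with
      | zero => simpa using h1
      | succ i => simpa using h2 i
    · intro h
      exact ⟨by simpa using h 0, fun i => by simpa using h (i + 1)⟩

/-- module CPTR -/
theorem pCPtr : StCPtr := by
  intro R _ m P x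
  induction P with
  | nil => rfl
  | cons a P ih =>
    rw [ev_cons, ← ih]
    by_cases h : (a.2.drop m).sum = 0
    · have h1 : ptr m (a :: P) = a :: ptr m P := by
        unfold ptr
        rw [List.filter_cons_of_pos]
        exact beq_iff_eq.2 h
      rw [h1, ev_cons]
      congr 2
      refine Finset.prod_congr rfl fun i _ => ?_
      by_cases hi : i < m
      · rw [if_pos hi]
      · rw [if_neg hi]
        have h2 := (sum_eq_zero_CPtr _).1 h (i - m)
        rw [List.getD_eq_getElem?_getD, List.getElem?_drop, show m + (i - m) = i by omega,
          ← List.getD_eq_getElem?_getD] at h2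
        rw [h2, pow_zero, pow_zero]
    · have h1 : ptr m (a :: P) = ptr m P := by
        unfold ptr
        rw [List.filter_cons_of_neg]
        intro h'
        exact h (beq_iff_eq.1 h')
      rw [h1]
      have h2 : ∃ i, (a.2.drop m).getD i 0 ≠ 0 := by
        by_contra hc
        push Not at hc
        exact h ((sum_eq_zero_CPtr _).2 hc)
      obtain ⟨i, hi⟩ := h2
      rw [List.getD_eq_getElem?_getD, List.getElem?_drop, ← List.getD_eq_getElem?_getD] at hi
      have hlt : m + i < a.2.length := by
        by_contra hc
        rw [not_lt] at hc
        exact hi (List.getD_eq_default _ _ hc)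
      have h3 : ∏ j ∈ Finset.range a.2.length, (if j < m then x j else 0) ^ a.2.getD j 0 = 0 := by
        refine Finset.prod_eq_zero (Finset.mem_range.2 hlt) ?_
        rw [if_neg (by omega), zero_pow hi]
      rw [h3, mul_zero, zero_add]

end Pool.Agent.Helper44.RED
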