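import Pool.Agent.Helper44.RED.StF

set_option autoImplicit false

namespace Pool.Agent.Helper44.RED

/-- exponent vector of a list -/
private noncomputable def expo_CZero (e : List ℕ) : ℕ →₀ ℕ :=
  Finsupp.onFinset (Finset.range e.length) (fun i => e.getD i 0) (by
    intro i hi
    by_contra h
    rw [Finset.mem_range, not_lt] at h
    exact hi (List.getD_eq_default _ _ h))

private lemma expo_apply_CZero (e : List ℕ) (i : ℕ) : expo_CZero e i = e.getD i 0 := rfl

private lemma sameE_CZero (e f : List ℕ) : sameE e f = true ↔ expo_CZero e = expo_CZero f := by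
  unfold sameE
  rw [List.all_eq_true]
  constructor
  · intro h
    ext i
    rw [expo_apply_CZero, expo_apply_CZero]
    by_cases hi : i < max e.length f.length
    · have := h i (List.mem_range.2 hi)
      exact eq_of_beq this
    · rw [not_lt] at hi
      rw [List.getD_eq_default _ _ (le_trans (le_max_left _ _) hi),
        List.getD_eq_default _ _ (le_trans (le_max_right _ _) hi)]
  · intro h i _
    have := DFunLike.congr_fun h i
    rw [expo_apply_CZero, expo_apply_CZero] at this
    exact beq_iff_eq.2 this

private lemma prod_X_CZero {k : Type} [Field k] (e : List ℕ) :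
    ∏ i ∈ Finset.range e.length, (MvPolynomial.X i : MvPolynomial ℕ k) ^ e.getD i 0 =
      MvPolynomial.monomial (expo_CZero e) 1 := by
  rw [MvPolynomial.monomial_eq, map_one, one_mul, Finsupp.prod]
  refine (Finset.prod_subset (Finsupp.support_onFinset_subset) fun i _ hi => ?_).symm
  rw [Finsupp.notMem_support_iff] at hi
  have hi' : e.getD i 0 = 0 := hi
  rw [hi', pow_zero]

private lemma coeff_ev_CZero {k : Type} [Field k] (P : PC) (m : ℕ →₀ ℕ) :
    MvPolynomial.coeff m (ev P (fun i => (MvPolynomial.X i : MvPolynomial ℕ k))) =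
      (((P.map fun b => if expo_CZero b.2 = m then b.1 else 0).sum : ℤ) : k) := by
  classical
  induction P with
  | nil => simp
  | cons a P ih =>
    rw [ev_cons, MvPolynomial.coeff_add, ih, prod_X_CZero]
    have h1 : ((a.1 : ℤ) : MvPolynomial ℕ k) = MvPolynomial.C ((a.1 : ℤ) : k) :=
      (map_intCast (MvPolynomial.C : k →+* MvPolynomial ℕ k) a.1).symm
    rw [h1, MvPolynomial.coeff_C_mul, MvPolynomial.coeff_monomial, List.map_cons, List.sum_cons]
    push_cast
    congr 1
    split_ifs <;> simp

/-- module CZERO -/
theorem pCZero : StCZero := by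
  intro k _ _ P
  classical
  unfold pzero
  rw [List.all_eq_true]
  have hcongr : ∀ a : ℤ × List ℕ, (P.map fun b => if sameE a.2 b.2 then b.1 else 0) =
      (P.map fun b => if expo_CZero b.2 = expo_CZero a.2 then b.1 else 0) := by
    intro a
    refine List.map_congr_left fun b _ => ?_
    by_cases h : expo_CZero b.2 = expo_CZero a.2
    · rw [if_pos ((sameE_CZero _ _).2 h.symm), if_pos h]
    · rw [if_neg (fun h' => h ((sameE_CZero _ _).1 h').symm), if_neg h]
  constructor
  · intro h
    ext m
    rw [coeff_ev_CZero, MvPolynomial.coeff_zero]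
    by_cases hm : ∃ a ∈ P, expo_CZero a.2 = m
    · obtain ⟨a, ha, rfl⟩ := hm
      have h1 := eq_of_beq (h a ha)
      rw [hcongr] at h1
      rw [h1, Int.cast_zero]
    · push Not at hm
      have h1 : (P.map fun b => if expo_CZero b.2 = m then b.1 else 0).sum = 0 := by
        refine List.sum_eq_zero fun x hx => ?_
        rw [List.mem_map] at hx
        obtain ⟨b, hb, rfl⟩ := hx
        rw [if_neg (hm b hb)]
      rw [h1, Int.cast_zero]
  · intro h a ha
    rw [beq_iff_eq, hcongr]
    have h1 := coeff_ev_CZero (k := k) P (expo_CZero a.2)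
    rw [h, MvPolynomial.coeff_zero] at h1
    exact_mod_cast h1.symm

end Pool.Agent.Helper44.RED
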