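import Pool.Agent.Helper44.RED.StF

/-!
# Project RED: codes without variables of number `≥ T`
-/

set_option autoImplicit false

namespace Pool.Agent.Helper44.RED

/-- no variable with number `≥ T` occurs in `P` -/
def bdd (T : ℕ) (P : PC) : Prop := ∀ a ∈ P, ∀ i, T ≤ i → a.2.getD i 0 = 0

lemma bdd_nil (T : ℕ) : bdd T [] := by intro a ha; simp at ha

lemma bdd_append {T : ℕ} {P Q : PC} (hP : bdd T P) (hQ : bdd T Q) : bdd T (P ++ Q) := by
  intro a ha
  rcases List.mem_append.1 ha with h | h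
  · exact hP a h
  · exact hQ a h

lemma bdd_pmul {T : ℕ} {P Q : PC} (hP : bdd T P) (hQ : bdd T Q) : bdd T (pmul P Q) := by
  intro a ha i hi
  simp only [pmul, List.mem_flatMap, List.mem_map] at ha
  obtain ⟨b, hb, c, hc, rfl⟩ := ha
  simp only [getD_monE]
  rw [hP b hb i hi, hQ c hc i hi]

lemma bdd_pneg {T : ℕ} {P : PC} (hP : bdd T P) : bdd T (pneg P) := by
  intro a ha i hi
  simp only [pneg, List.mem_map] at ha
  obtain ⟨b, hb, rfl⟩ := ha
  exact hP b hb i hi

lemma bdd_pint (T : ℕ) (z : ℤ) : bdd T (pint z) := by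
  intro a ha i hi
  simp only [pint, List.mem_singleton] at ha
  subst ha
  simp

lemma bdd_pvar {T j : ℕ} (hj : j < T) : bdd T (pvar j) := by
  intro a ha i hi
  simp only [pvar, List.mem_singleton] at ha
  subst ha
  simp only
  rw [List.getD_eq_default _ _ (by simp; omega)]

lemma bdd_psum {T n : ℕ} {f : ℕ → PC} (h : ∀ i < n, bdd T (f i)) : bdd T (psum n f) := by
  intro a ha
  simp only [psum, List.mem_flatMap, List.mem_range] at ha
  obtain ⟨i, hi, h'⟩ := ha
  exact h i hi a h'

lemma bdd_pprod {T n : ℕ} {f : ℕ → PC} (h : ∀ i < n, bdd T (f i)) : bdd T (pprod n f) := by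
  induction n with
  | zero => simpa [pprod] using bdd_pint T 1
  | succ n ih =>
    have : pprod (n + 1) f = pmul (pprod n f) (f n) := by simp [pprod, List.range_succ]
    rw [this]
    exact bdd_pmul (ih fun i hi => h i (by omega)) (h n (by omega))

lemma bdd_pdet {T n : ℕ} {f : ℕ → ℕ → PC} (h : ∀ i < n, ∀ j < n, bdd T (f i j)) :
    bdd T (pdet n f) := by
  unfold pdet
  refine bdd_psum fun q _ => bdd_pmul (bdd_pint _ _) (bdd_pprod fun i hi => h _ ?_ _ hi)
  exact Nat.mod_lt _ (by omega)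

lemma bdd_pif {T : ℕ} {c : Bool} {P : PC} (h : bdd T P) : bdd T (pif c P) := by
  unfold pif; split_ifs
  · exact h
  · exact bdd_nil T

lemma bdd_ptr {T m : ℕ} (hm : m ≤ T) (P : PC) : bdd T (ptr m P) := by
  intro a ha i hi
  simp only [ptr, List.mem_filter, beq_iff_eq] at ha
  obtain ⟨-, h⟩ := ha
  by_cases hl : i < a.2.length
  · rw [List.getD_eq_getElem _ _ hl]
    have h1 : a.2[i] ∈ a.2.drop m := by
      rw [List.mem_iff_getElem]
      refine ⟨i - m, by simp; omega, ?_⟩
      rw [List.getElem_drop]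
      congr 1
      omega
    exact List.sum_eq_zero_iff.1 h _ h1
  · rw [List.getD_eq_default _ _ (by omega)]

lemma bdd_phom {T D : ℕ} {P : PC} (h : bdd T P) : bdd (T + 1) (phom D P) := by
  intro a ha i hi
  simp only [phom, List.mem_map] at ha
  obtain ⟨b, hb, rfl⟩ := ha
  obtain ⟨i, rfl⟩ : ∃ j, i = j + 1 := ⟨i - 1, by omega⟩
  simp only [List.getD_cons_succ]
  exact h b hb i (by omega)

lemma bdd_mono {T T' : ℕ} {P : PC} (h : bdd T P) (hT : T ≤ T') : bdd T' P :=
  fun a ha i hi => h a ha i (hT.trans hi)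

/-- a code without variables of number `≥ T` has equal values at assignments agreeing below `T` -/
lemma ev_congr {R : Type} [CommRing R] {T : ℕ} {P : PC} (h : bdd T P) {x y : ℕ → R}
    (hxy : ∀ i < T, x i = y i) : ev P x = ev P y := by
  induction P with
  | nil => rfl
  | cons a P ih =>
    rw [ev_cons, ev_cons, ih fun b hb => h b (List.mem_cons_of_mem _ hb)]
    congr 2
    refine Finset.prod_congr rfl fun i _ => ?_
    by_cases hi : i < T
    · rw [hxy i hi]
    · rw [h a List.mem_cons_self i (by omega), pow_zero, pow_zero]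

lemma bdd_qe (A : Sys) (q r c : ℕ) : bdd A.1 (qe A q r c) := by
  unfold qe
  split_ifs
  · exact bdd_append (bdd_pif (bdd_pint _ _)) (bdd_pif (bdd_pint _ _))
  · exact bdd_append (bdd_pif (bdd_pint _ _)) (bdd_pif (bdd_pint _ _))
  · exact bdd_pif (bdd_ptr le_rfl _)

lemma bdd_Gg (A : Sys) {r c : ℕ} (hr : r < nS A) (hc : c < nS A) : bdd (nT A) (Gg A r c) := by
  unfold Gg
  have key : ∀ a < nS A, ∀ b < nS A, A.1 + nP A + a * nS A + b < nT A := by
    intro a ha b hb
    have h : a * nS A + nS A ≤ nS A * nS A := by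
      calc a * nS A + nS A = (a + 1) * nS A := by ring
        _ ≤ nS A * nS A := Nat.mul_le_mul_right _ (by omega)
    unfold nT
    omega
  refine bdd_psum fun a ha => bdd_psum fun d hd => bdd_pmul (bdd_pmul (bdd_pvar ?_)
    (bdd_pvar ?_)) (bdd_psum fun q hq => bdd_pmul (bdd_pvar ?_) ?_)
  · exact key a ha r hr
  · exact key d hd c hc
  · unfold nT; omega
  · refine bdd_mono (bdd_append (bdd_qe A q a d) (bdd_qe A q d a)) ?_
    unfold nT; omega

lemma bdd_dd (A : Sys) {l : ℕ} (hl : l ≤ nS A) : bdd (nT A) (dd A l) :=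
  bdd_pdet fun i hi j hj => bdd_Gg A (by omega) (by omega)

lemma nS_pos (A : Sys) : 1 ≤ nS A := Nat.one_le_pow _ _ (by omega)

lemma bdd_cc (A : Sys) {l : ℕ} (hl : l < nS A - 1) : bdd (nT A) (cc A l) :=
  bdd_pmul (bdd_dd A (nS_pos A)) (bdd_pmul (bdd_dd A (by omega)) (bdd_dd A (by omega)))

end Pool.Agent.Helper44.RED
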