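import Pool.Agent.Helper44.RED.StF
import Pool.Agent.Helper44.RED.Bdd

/-!
# Project RED: module FinC (correctness of the reduction)
-/

set_option autoImplicit false

namespace Pool.Agent.Helper44.RED

lemma map_xvn_tvn (k : Type) [Field k] (m : ℕ) (j : ℕ) :
    algebraMap (MvPolynomial (Fin m) k) (KT k m) (xvn k m j) = tvn k m j := by
  unfold xvn tvn tv
  split_ifs <;> simp

/-- the quadratic forms of the system, over `k[t]` -/
noncomputable def QF (k : Type) [Field k] (A : Sys) (S : ℕ) (q : ℕ) :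
    Matrix (Fin S) (Fin S) (MvPolynomial (Fin A.1) k) :=
  Matrix.of fun r c => ev (qe A q r c ++ qe A q c r) (xvn k A.1)

lemma QF_symm (k : Type) [Field k] (A : Sys) (S q : ℕ) : (QF k A S q).IsSymm := by
  unfold Matrix.IsSymm
  ext r c
  simp only [QF, Matrix.transpose_apply, Matrix.of_apply, ev_append]
  rw [add_comm]

lemma cast_FinC {K : Type} [Field K] (p S S' : ℕ) (h : S = S') (f : ℕ → ℕ → ℕ → K) :
    OddZ K (Set.range fun q : Fin p => (Matrix.of fun r c : Fin S => f q r c)) ↔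
      OddZ K (Set.range fun q : Fin p => (Matrix.of fun r c : Fin S' => f q r c)) := by
  subst h; exact Iff.rfl

lemma oddZero_QF (hV : StVerC) (hP : StCPtr) (k : Type) [Field k] [CharZero k] (A : Sys) (N : ℕ)
    (hN : nS A = N + 1) :
    OddZero (fun q : Fin (nP A) => QF k A (N + 1) q.1) ↔ OddPt k A := by
  rw [← hV hP k A]
  unfold OddZero
  refine Iff.trans ?_ (cast_FinC (nP A) (nS A) (N + 1) hN
    (fun a b d : ℕ => ev (qe A a b d ++ qe A a d b) (tvn k A.1))).symm
  have h2 : (Set.range fun i : Fin (nP A) => (QF k A (N + 1) i.1).map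
      (algebraMap (MvPolynomial (Fin A.1) k) (KT k A.1))) =
      Set.range fun q : Fin (nP A) => (Matrix.of fun r c : Fin (N + 1) =>
        (fun a b d : ℕ => ev (qe A a b d ++ qe A a d b) (tvn k A.1)) q r c) := by
    congr 1
    funext q
    ext r c
    simp only [QF, Matrix.map_apply, Matrix.of_apply]
    rw [map_ev]
    congr 1
    funext j
    exact map_xvn_tvn k A.1 j
  rw [h2]

/-- a ring homomorphism maps values of codes at variables to values at variables -/
lemma rename_xvn (k : Type) [Field k] {m m' : ℕ} (e : Fin m → Fin m') (x : ℕ → ℕ)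
    (he : ∀ i : Fin m, (e i).1 = x i.1) {P : PC} (hP : bdd m P) :
    MvPolynomial.rename e (ev P (xvn k m)) = ev P (fun j => xvn k m' (x j)) := by
  have h0 : (MvPolynomial.rename e (ev P (xvn k m)) : MvPolynomial (Fin m') k) =
      (MvPolynomial.rename e : MvPolynomial (Fin m) k →ₐ[k] MvPolynomial (Fin m') k).toRingHom
        (ev P (xvn k m)) := rfl
  rw [h0, map_ev]
  refine ev_congr hP fun i hi => ?_
  have h1 : (x i) < m' := by rw [← he ⟨i, hi⟩]; exact (e ⟨i, hi⟩).2
  simp only [xvn, hi, h1, dite_true]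
  change MvPolynomial.rename e (MvPolynomial.X ⟨i, hi⟩) = _
  rw [MvPolynomial.rename_X]
  congr 1
  exact Fin.ext (he ⟨i, hi⟩)

lemma ev_Gg (k : Type) [Field k] (A : Sys) (N : ℕ) (hN : nS A = N + 1) (r c : Fin (N + 1)) :
    ev (Gg A r c) (xvn k (A.1 + nP A + (N + 1) * (N + 1))) =
      gpm (fun q : Fin (nP A) => QF k A (N + 1) q.1) r c := by
  have hpi : ∀ a b : Fin (N + 1), (MvPolynomial.X (Fin.natAdd (A.1 + nP A) (finProdFinEquiv (a, b))) :
      MvPolynomial (Fin (A.1 + nP A + (N + 1) * (N + 1))) k) =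
      xvn k (A.1 + nP A + (N + 1) * (N + 1)) (A.1 + nP A + a * (N + 1) + b) := by
    intro a b
    have h1 : ((Fin.natAdd (A.1 + nP A) (finProdFinEquiv (a, b)) :
        Fin (A.1 + nP A + (N + 1) * (N + 1))) : ℕ) = A.1 + nP A + a * (N + 1) + b := by
      simp only [Fin.natAdd, finProdFinEquiv]
      change A.1 + nP A + (b.1 + (N + 1) * a.1) = _
      ring
    have h2 : A.1 + nP A + a * (N + 1) + b < A.1 + nP A + (N + 1) * (N + 1) := by
      rw [← h1]; exact Fin.is_lt _
    simp only [xvn, h2, dite_true]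
    congr 1
    exact Fin.ext h1
  have hpen : ∀ a d : Fin (N + 1), MvPolynomial.rename (Fin.castAdd ((N + 1) * (N + 1)))
      (pencil (fun q : Fin (nP A) => QF k A (N + 1) q.1) a d) =
      ∑ q ∈ Finset.range (nP A), xvn k (A.1 + nP A + (N + 1) * (N + 1)) (A.1 + q) *
        ev (qe A q a d ++ qe A q d a) (xvn k (A.1 + nP A + (N + 1) * (N + 1))) := by
    intro a d
    unfold pencil
    rw [Matrix.sum_apply, map_sum, Finset.sum_range]
    refine Finset.sum_congr rfl fun q _ => ?_
    rw [Matrix.smul_apply, smul_eq_mul, map_mul, MvPolynomial.rename_X, Matrix.map_apply]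
    congr 1
    · have h2 : A.1 + q.1 < A.1 + nP A + (N + 1) * (N + 1) := by have := q.2; omega
      simp only [xvn, h2, dite_true]
      congr 1
    · simp only [QF, Matrix.of_apply]
      have hb : bdd A.1 (qe A q a d ++ qe A q d a) := bdd_append (bdd_qe _ _ _ _) (bdd_qe _ _ _ _)
      rw [rename_xvn k (Fin.castAdd (nP A)) id (fun i => rfl) hb,
        show (fun j => xvn k (A.1 + nP A) (id j)) = xvn k (A.1 + nP A) from rfl,
        rename_xvn k (Fin.castAdd ((N + 1) * (N + 1))) id (fun i => rfl)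
          (bdd_mono hb (by omega))]
      rfl
  unfold Gg gpm
  rw [ev_psum, hN, Finset.sum_range, Matrix.mul_apply]
  simp only [Matrix.mul_apply, Finset.sum_mul]
  rw [Finset.sum_comm]
  refine Finset.sum_congr rfl fun a _ => ?_
  rw [ev_psum, Finset.sum_range]
  refine Finset.sum_congr rfl fun d _ => ?_
  rw [Matrix.transpose_apply, Matrix.of_apply, Matrix.of_apply, Matrix.map_apply, hpi, hpi, hpen]
  simp only [ev_pmul, ev_pvar, ev_psum, ev_append]
  ring

lemma ev_dd (hD : StCDet) (k : Type) [Field k] (A : Sys) (N : ℕ) (hN : nS A = N + 1) {l : ℕ}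
    (hl : l ≤ N + 1) :
    ev (dd A l) (xvn k (A.1 + nP A + (N + 1) * (N + 1))) =
      lm (gpm (fun q : Fin (nP A) => QF k A (N + 1) q.1)) l := by
  unfold dd lm
  rw [hD]
  congr 1
  ext i j
  have h : i.1 < N + 1 ∧ j.1 < N + 1 := ⟨by have := i.2; omega, by have := j.2; omega⟩
  simp only [Matrix.of_apply, h, and_self, dite_true]
  exact congrArg _ (ev_Gg k A N hN ⟨i.1, h.1⟩ ⟨j.1, h.2⟩)

lemma lm_full {R : Type} [CommRing R] {N : ℕ} (G : Matrix (Fin N) (Fin N) R) : lm G N = G.det := by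
  unfold lm
  congr 1
  ext i j
  simp

lemma pzero_dd (hD : StCDet) (hZ : StCZero) (k : Type) [Field k] [CharZero k] (A : Sys) (N : ℕ)
    (hN : nS A = N + 1) :
    pzero (dd A (nS A)) = true ↔ (gpm (fun q : Fin (nP A) => QF k A (N + 1) q.1)).det = 0 := by
  rw [hZ k, ← lm_full, ← ev_dd hD k A N hN le_rfl, hN]
  have hT : nT A = A.1 + nP A + (N + 1) * (N + 1) := by unfold nT; rw [hN]
  have hb : bdd (A.1 + nP A + (N + 1) * (N + 1)) (dd A (N + 1)) := by
    rw [← hT]; exact bdd_dd A (by omega)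
  have h1 : (MvPolynomial.rename (fun i : Fin (A.1 + nP A + (N + 1) * (N + 1)) => (i : ℕ))
      (ev (dd A (N + 1)) (xvn k (A.1 + nP A + (N + 1) * (N + 1)))) : MvPolynomial ℕ k) =
      ev (dd A (N + 1)) (fun i => (MvPolynomial.X i : MvPolynomial ℕ k)) := by
    have h0 : ∀ z : MvPolynomial (Fin (A.1 + nP A + (N + 1) * (N + 1))) k,
        (MvPolynomial.rename (fun i : Fin (A.1 + nP A + (N + 1) * (N + 1)) => (i : ℕ)) z :
          MvPolynomial ℕ k) = (MvPolynomial.rename
            (fun i : Fin (A.1 + nP A + (N + 1) * (N + 1)) => (i : ℕ)) :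
            MvPolynomial (Fin (A.1 + nP A + (N + 1) * (N + 1))) k →ₐ[k] MvPolynomial ℕ k).toRingHom
            z := fun _ => rfl
    rw [h0, map_ev]
    refine ev_congr hb fun i hi => ?_
    simp only [xvn, hi, dite_true]
    change MvPolynomial.rename _ (MvPolynomial.X _) = _
    rw [MvPolynomial.rename_X]
  rw [← h1]
  exact map_eq_zero_iff _ (MvPolynomial.rename_injective _ Fin.val_injective)

lemma stRat_of_rat_FinC {k A : Type} [Field k] [CommRing A] [Algebra k A] (h : Rational k A) :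
    StRational k A := by
  obtain ⟨n, ⟨f⟩⟩ := h
  let e0 : A ≃ₐ[k] MvPolynomial (Fin 0) A :=
    AlgEquiv.ofBijective (IsScalarTower.toAlgHom k A (MvPolynomial (Fin 0) A))
      ⟨MvPolynomial.C_injective (Fin 0) A, MvPolynomial.C_surjective (Fin 0)⟩
  exact ⟨0, n, ⟨(IsFractionRing.algEquivOfAlgEquiv e0.symm).trans f⟩⟩

lemma line_FinC (k : Type) [Field k] :
    (PI k ((1, []) : Prs)).IsPrime ∧
    Rational k (MvPolynomial (Fin 1) k ⧸ PI k ((1, []) : Prs)) ∧
    StRational k (MvPolynomial (Fin 1) k ⧸ PI k ((1, []) : Prs)) := by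
  have h0 : PI k ((1, []) : Prs) = ⊥ := by
    unfold PI
    simp
  have e1 : (MvPolynomial (Fin 1) k ⧸ PI k ((1, []) : Prs)) ≃ₐ[k] MvPolynomial (Fin 1) k := by
    rw [h0]
    exact AlgEquiv.quotientBot k _
  have hR : Rational k (MvPolynomial (Fin 1) k ⧸ PI k ((1, []) : Prs)) :=
    ⟨1, ⟨IsFractionRing.algEquivOfAlgEquiv e1⟩⟩
  refine ⟨?_, hR, stRat_of_rat_FinC hR⟩
  rw [h0]; exact Ideal.isPrime_bot

lemma listsum_FinC (f : ℕ → ℕ) (n : ℕ) :
    ((List.range n).map f).sum = ∑ i ∈ Finset.range n, f i := by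
  induction n with
  | zero => simp
  | succ n ih => rw [List.range_succ, List.map_append, List.sum_append, ih,
      Finset.sum_range_succ]; simp

lemma ndeg_FinC (A : Sys) (N : ℕ) (hN : nS A = N + 1) :
    (∑ l : Fin N, 2 * pdeg (cc A l)) + 2 * ne A = ndeg A := by
  unfold ndeg
  rw [hN, Nat.add_sub_cancel, listsum_FinC, Finset.sum_range]

/-- the ideal of a list of equations -/
lemma PI_FinC (k : Type) [Field k] {t n s M : ℕ} (hs : 0 < s) (b : Fin s → MvPolynomial (Fin t) k)
    (σ : Fin M → Matrix (Fin t) (Fin t) k) (bc : ℕ → PC) (sg : ℕ → ℕ → ℕ → ℕ)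
    (e : VI t n s M ≃ Fin (nvg t n s M))
    (he : ∀ p : Fin M × Fin s, MvPolynomial.rename e (eqn b σ p) =
      ev (eqg t n s M bc sg p.1 p.2) (xvn k (nvg t n s M))) :
    PI k ((nvg t n s M, (List.range (M * s)).map fun q => eqg t n s M bc sg (q / s) (q % s)) : Prs) =
      (XI n b σ).map (MvPolynomial.renameEquiv k e : MvPolynomial (VI t n s M) k →+*
        MvPolynomial (Fin (nvg t n s M)) k) := by
  unfold PI XI
  rw [Ideal.map_span]
  congr 1
  ext g
  constructor
  · rintro ⟨P, hP, rfl⟩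
    simp only [List.mem_map, List.mem_range] at hP
    obtain ⟨q, hq, rfl⟩ := hP
    have h1 : q / s < M := by rwa [Nat.div_lt_iff_lt_mul hs]
    have h2 : q % s < s := Nat.mod_lt _ hs
    refine ⟨eqn b σ (⟨q / s, h1⟩, ⟨q % s, h2⟩), ⟨_, rfl⟩, ?_⟩
    exact he (⟨q / s, h1⟩, ⟨q % s, h2⟩)
  · rintro ⟨_, ⟨p, rfl⟩, rfl⟩
    refine ⟨eqg t n s M bc sg p.1 p.2, ?_, he p⟩
    simp only [List.mem_map, List.mem_range]
    refine ⟨p.1.1 * s + p.2.1, ?_, ?_⟩
    · calc p.1.1 * s + p.2.1 < p.1.1 * s + s := by have := p.2.2; omega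
        _ = (p.1.1 + 1) * s := by ring
        _ ≤ M * s := Nat.mul_le_mul_right _ p.1.2
    · have h3 : (p.1.1 * s + p.2.1) / s = p.1.1 := by
        rw [mul_comm, Nat.mul_add_div hs, Nat.div_eq_of_lt p.2.2, add_zero]
      have h4 : (p.1.1 * s + p.2.1) % s = p.2.1 := by
        rw [mul_comm, Nat.mul_add_mod, Nat.mod_eq_of_lt p.2.2]
      rw [h3, h4]

/-- goal for a presentation -/
def Goal_FinC (k : Type) [Field k] (X : Prs) (H : Prop) : Prop :=
  (PI k X).IsPrime ∧
  (Rational k (MvPolynomial (Fin X.1) k ⧸ PI k X) ↔ H) ∧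
  (StRational k (MvPolynomial (Fin X.1) k ⧸ PI k X) ↔ H)

theorem pFinC : StCPtr → StCDet → StCZero → StCHom → StHomD → StVerC → StGen → StSigX → StIso →
    StTrans → StFin1 → StAB → StPencil → StLead → StMinors → StPT → StFinC := by
  intro hPtr hDet hZero hCHom hHomD hVerC hGen hSigX hIso hTrans hFin1 hAB hPencil hLead hMinors hPT
  intro k _ _ _ A
  change Goal_FinC k (redu A) (OddPt k A)
  obtain ⟨N, hN⟩ : ∃ N, nS A = N + 1 := ⟨nS A - 1, by have := nS_pos A; omega⟩
  have h2 : (2 : k) ≠ 0 := two_ne_zero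
  have hO := oddZero_QF hVerC hPtr k A N hN
  have hG := hGen hAB hPencil hLead hMinors hPT k A.1 (nP A) N
    (fun q : Fin (nP A) => QF k A (N + 1) q.1) (fun q => QF_symm k A _ _)
  have hz := pzero_dd hDet hZero k A N hN
  by_cases hp : pzero (dd A (nS A)) = true
  · have h3 : OddPt k A := hO.1 (hG.1 (hz.1 hp))
    have h4 : redu A = (1, []) := by unfold redu; rw [if_pos hp]
    rw [h4]
    obtain ⟨h5, h6, h7⟩ := line_FinC k
    exact ⟨h5, ⟨fun _ => h3, fun _ => h6⟩, ⟨fun _ => h3, fun _ => h7⟩⟩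
  · obtain ⟨hl, hiso⟩ := hG.2 (fun h => hp (hz.2 h))
    set T := A.1 + nP A + (N + 1) * (N + 1) with hTdef
    have hT : nT A = T := by unfold nT; rw [hN]
    set Q := fun q : Fin (nP A) => QF k A (N + 1) q.1 with hQ
    -- the coefficients
    have hcc : ∀ l : Fin N, ev (cc A l) (xvn k T) = lm (gpm Q) 1 *
        (lm (gpm Q) (l.1 + 1) * lm (gpm Q) (l.1 + 2)) := by
      intro l
      unfold cc
      rw [ev_pmul, ev_pmul, ev_dd hDet k A N hN (by omega), ev_dd hDet k A N hN (by omega),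
        ev_dd hDet k A N hN (by omega)]
    have hcc0 : ∀ l : Fin N, ev (cc A l) (xvn k T) ≠ 0 := fun l => by
      rw [hcc]
      exact mul_ne_zero (hl 1 (by omega)) (mul_ne_zero (hl _ (by omega)) (hl _ (by omega)))
    have hH := hHomD k h2 T N (fun l : Fin N => ev (cc A l) (xvn k T)) (fun l => pdeg (cc A l))
      hcc0 (fun l => (hCHom k T (pdeg (cc A l)) (cc A l)).1)
    set C : Fin N → MvPolynomial (Fin (T + 1)) k :=
      fun l => hzD (pdeg (cc A l)) (ev (cc A l) (xvn k T)) with hC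
    have hCev : ∀ l : Fin N, ev (phom (pdeg (cc A l)) (cc A l)) (xvn k (T + 1)) = C l := fun l =>
      (hCHom k T (pdeg (cc A l)) (cc A l)).2 le_rfl
    have hfin : OddPt k A ↔ ¬ Aniso (one (toKT C)) := by
      rw [← hO, hiso, hH.2]
      have : (fun l : Fin N => ev (cc A l) (xvn k T)) = fun l : Fin N => lm (gpm Q) 1 *
        (lm (gpm Q) (l.1 + 1) * lm (gpm Q) (l.1 + 2)) := funext hcc
      rw [this]
    -- numbers
    have hpow : N + 1 < 2 ^ (N + 1) := Nat.lt_two_pow_self
    have hns : ns A = 2 ^ (N + 1) * 4 := by unfold ns; rw [hN, pow_add]; norm_num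
    have hne : ne A = ns A - N := by unfold ne; rw [hN, Nat.add_sub_cancel]
    have hNe : N + ne A = ns A := by rw [hne, hns]; omega
    have he1 : 1 ≤ ne A := by rw [hne, hns]; omega
    have hnt : nt A = T + 1 + ne A := by unfold nt; rw [hT]
    have hnn : nn A = N + 4 := by unfold nn; rw [hN]
    have hB : (∑ l : Fin N, 2 * pdeg (cc A l)) + 2 * ne A < ndeg A + 1 := by
      rw [ndeg_FinC A N hN]; omega
    have hM : ((∑ l : Fin N, 2 * pdeg (cc A l)) + 2 * ne A) * (T + 1 + ne A) *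
        (ndeg A + 1) ^ (T + 1 + ne A) < nM A := by
      rw [ndeg_FinC A N hN]; unfold nM; rw [hnt]; omega
    obtain ⟨s1, s2, s3⟩ := hSigX k T N (ne A) (ndeg A + 1) (nM A) C (fun l => pdeg (cc A l)) he1
      (fun l => (hH.1 l).1) (fun l => (hH.1 l).2) hB hM
    have hn1 : nn A - 1 = N + 1 + 2 := by rw [hnn]; omega
    have hn2 : nn A - 2 = N + 1 + 1 := by rw [hnn]; omega
    obtain ⟨f1, f2, f3⟩ := hFin1 k T N (ne A) (nn A) (nM A) (by rw [hnn]; omega)
      (by rw [hNe, hn1, hns, pow_add 2 (N + 1) 2]; norm_num) (by rw [hn2, pow_succ]; omega) C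
      (sgx k (T + 1 + ne A) (ndeg A + 1) (nM A)) (fun l => (hH.1 l).1)
      (fun l => ⟨_, (hH.1 l).2⟩) s1 s2 s3
    -- the equations
    have hbdd : ∀ l : Fin (N + ne A), bdd (T + 1 + ne A) (bb A l) := by
      intro l
      unfold bb
      rw [hN, Nat.add_sub_cancel]
      split_ifs with hlt
      · refine bdd_mono (bdd_phom (bdd_cc A (by rw [hN]; omega))) ?_
        rw [hT]; omega
      · refine bdd_pmul (bdd_pvar (by omega)) (bdd_pvar ?_)
        rw [hT]; have := l.2; omega
    have hbev : ∀ l : Fin (N + ne A), ev (bb A l) (xvn k (T + 1 + ne A)) = bfam (ne A) C l := by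
      intro l
      unfold bfam
      refine Fin.addCases (fun j => ?_) (fun j => ?_) l
      · rw [Fin.append_left]
        have h5 : bb A (Fin.castAdd (ne A) j) = phom (pdeg (cc A j)) (cc A j) := by
          unfold bb
          rw [hN, Nat.add_sub_cancel, if_pos (by simp)]
          rfl
        rw [h5, ← hCev j]
        have hb : bdd (T + 1) (phom (pdeg (cc A j)) (cc A j)) := by
          rw [← hT]; exact bdd_phom (bdd_cc A (by rw [hN]; have := j.2; omega))
        rw [rename_xvn k (Fin.castAdd (ne A)) id (fun i => rfl) hb]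
        rfl
      · rw [Fin.append_right]
        have h5 : bb A (Fin.natAdd N j : Fin (N + ne A)) =
            pmul (pvar 0) (pvar (T + 1 + j.1)) := by
          unfold bb
          rw [hN, Nat.add_sub_cancel, if_neg (by simp), hT]
          simp
        rw [h5, ev_pmul, ev_pvar, ev_pvar]
        have h6 : 0 < T + 1 + ne A := by omega
        have h7 : T + 1 + j.1 < T + 1 + ne A := by have := j.2; omega
        simp only [xvn, h6, h7, dite_true]
        congr 1
    obtain ⟨e, he⟩ := hIso hDet k (T + 1 + ne A) (nn A) (N + ne A) (nM A) (bfam (ne A) C)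
      (sgx k (T + 1 + ne A) (ndeg A + 1) (nM A)) (bb A) (sgm A) hbev
      (fun l R _ x y hxy => ev_congr (hbdd l) hxy) (fun q i j => by
        simp only [sgx, Matrix.of_apply, sgm])
    have hred : redu A = (nvg (T + 1 + ne A) (nn A) (N + ne A) (nM A),
        (List.range (nM A * (N + ne A))).map fun q =>
          eqg (T + 1 + ne A) (nn A) (N + ne A) (nM A) (bb A) (sgm A) (q / (N + ne A))
            (q % (N + ne A))) := by
      unfold redu
      rw [if_neg hp, hnt, hNe]
    have hPI := PI_FinC k (by omega : 0 < N + ne A) (bfam (ne A) C)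
      (sgx k (T + 1 + ne A) (ndeg A + 1) (nM A)) (bb A) (sgm A) e he
    rw [hred]
    have hq : (MvPolynomial (VI (T + 1 + ne A) (nn A) (N + ne A) (nM A)) k ⧸
        XI (nn A) (bfam (ne A) C) (sgx k (T + 1 + ne A) (ndeg A + 1) (nM A))) ≃ₐ[k]
        (MvPolynomial (Fin (nvg (T + 1 + ne A) (nn A) (N + ne A) (nM A))) k ⧸
          PI k ((nvg (T + 1 + ne A) (nn A) (N + ne A) (nM A),
        (List.range (nM A * (N + ne A))).map fun q =>
          eqg (T + 1 + ne A) (nn A) (N + ne A) (nM A) (bb A) (sgm A) (q / (N + ne A))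
            (q % (N + ne A))) : Prs)) :=
      Ideal.quotientEquivAlg _ _ (MvPolynomial.renameEquiv k e) hPI
    obtain ⟨t1, t2⟩ := hTrans k _ _ hq
    refine ⟨?_, ?_, ?_⟩
    · have : (XI (nn A) (bfam (ne A) C) (sgx k (T + 1 + ne A) (ndeg A + 1) (nM A))).IsPrime := f1
      rw [hPI]
      exact Ideal.map_isPrime_of_equiv (MvPolynomial.renameEquiv k e)
    · exact t1.symm.trans (f2.trans hfin.symm)
    · exact t2.symm.trans (f3.trans hfin.symm)

end Pool.Agent.Helper44.RED
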