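import Pool.Agent.Helper44.RED.StF
import Pool.Agent.Helper44.RED.Fld

/-!
# Project RED, module GEN: generic coordinate change
-/

set_option autoImplicit false

namespace Pool.Agent.Helper44.RED

private lemma lm_map_Gen {R S : Type} [CommRing R] [CommRing S] {N : ℕ} (f : R →+* S)
    (G : Matrix (Fin N) (Fin N) R) (l : ℕ) : lm (G.map f) l = f (lm G l) := by
  unfold lm
  rw [RingHom.map_det]
  congr 1
  ext p q
  simp only [Matrix.of_apply, RingHom.mapMatrix_apply, Matrix.map_apply]
  split_ifs with h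
  · rfl
  · rw [map_zero]

private lemma pencil_symm_Gen {k : Type} [Field k] {m p N : ℕ}
    (A : Fin p → Matrix (Fin N) (Fin N) (MvPolynomial (Fin m) k)) (hA : ∀ i, (A i).IsSymm) :
    (pencil A).IsSymm := by
  unfold Matrix.IsSymm pencil
  rw [Matrix.transpose_sum]
  refine Finset.sum_congr rfl fun i _ => ?_
  rw [Matrix.transpose_smul]
  congr 1
  ext a b
  simp only [Matrix.transpose_apply, Matrix.map_apply]
  rw [(hA i).apply]

private lemma miso_equiv_Gen {R S : Type} [CommRing R] [CommRing S] {N : ℕ} (e : R ≃+* S)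
    (A : Matrix (Fin N) (Fin N) R) : MIso (A.map e) ↔ MIso A := by
  have key : ∀ {R S : Type} [CommRing R] [CommRing S] (e : R ≃+* S)
      (A : Matrix (Fin N) (Fin N) R), MIso A → MIso (A.map e) := by
    intro R S _ _ e A h
    obtain ⟨u, hu, hq⟩ := h
    refine ⟨fun i => e (u i), ?_, ?_⟩
    · intro h0
      apply hu
      funext i
      have := congrFun h0 i
      exact (map_eq_zero_iff e e.injective).1 this
    · have h1 : qm (A.map e) (fun i => e (u i)) = e (qm A u) := by
        unfold qm dotProduct Matrix.mulVec dotProduct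
        simp only [map_sum, map_mul, Matrix.map_apply]
      rw [h1, hq, map_zero]
  constructor
  · intro h
    have h1 := key e.symm _ h
    have h2 : (A.map e).map e.symm = A := by
      ext i j; simp
    rwa [h2] at h1
  · exact key e A

private lemma indep_comp_equiv_Gen {E E' F ι : Type} [Field E] [Field E'] [Field F]
    {φ : E →+* F} {y : ι → F} (h : Indep φ y) (e : E' ≃+* E) :
    Indep (φ.comp (e : E' →+* E)) y := by
  have h1 : MvPolynomial.eval₂Hom (φ.comp (e : E' →+* E)) y =
      (MvPolynomial.eval₂Hom φ y).comp (MvPolynomial.map (e : E' →+* E)) := by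
    apply MvPolynomial.ringHom_ext
    · intro a
      simp
    · intro i
      simp
  unfold Indep
  rw [h1]
  have h2 : Function.Injective (MvPolynomial.eval₂Hom φ y) := h
  have h3 : Function.Injective (MvPolynomial.map (σ := ι) (e : E' →+* E)) :=
    MvPolynomial.map_injective (e : E' →+* E) e.injective
  intro a b hab
  rw [RingHom.comp_apply, RingHom.comp_apply] at hab
  exact h3 (h2 hab)

private lemma genBy_comp_equiv_Gen {E E' F : Type} [Field E] [Field E'] [Field F]
    {φ : E →+* F} {S : Set F} (h : GenBy φ S) (e : E' ≃+* E) :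
    GenBy (φ.comp (e : E' →+* E)) S := by
  unfold GenBy at *
  have : Set.range (φ.comp (e : E' →+* E)) = Set.range φ := by
    ext x
    constructor
    · rintro ⟨a, rfl⟩; exact ⟨e a, rfl⟩
    · rintro ⟨a, rfl⟩; exact ⟨e.symm a, by simp⟩
  rw [this]; exact h

/-- the iterated function field -/
private lemma iso_Gen (k : Type) [Field k] (m p : ℕ) :
    ∃ J : KT (KT k m) p ≃+* KT k (m + p),
      (∀ c : MvPolynomial (Fin m) k, J (algebraMap (KT k m) (KT (KT k m) p)
        (algebraMap (MvPolynomial (Fin m) k) (KT k m) c)) =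
        algebraMap (MvPolynomial (Fin (m + p)) k) (KT k (m + p))
          (MvPolynomial.rename (Fin.castAdd p) c)) ∧
      ∀ i, J (tv (KT k m) p i) = tv k (m + p) (Fin.natAdd m i) := by
  let z : Fin m ⊕ Fin p → KT k (m + p) := fun i => tv k (m + p) (finSumFinEquiv i)
  have hz : Indep (algebraMap k (KT k (m + p))) z :=
    Indep.equiv (E := k) (F := KT k (m + p)) (y := tv k (m + p)) indep_frac finSumFinEquiv
  have hg : GenBy (algebraMap k (KT k (m + p))) (Set.range z) :=
    GenBy.equiv (E := k) (F := KT k (m + p)) (y := tv k (m + p)) genBy_frac finSumFinEquiv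
  obtain ⟨L, ψ, z', hψ, hz', hi, hgen, hi2, hg2⟩ := peelSum hz hg
  obtain ⟨e, he1, he2, he3⟩ := hi.iso hgen
  obtain ⟨J, hJ1, hJ2, hJ3⟩ := (indep_comp_equiv_Gen hi2 e).iso
    (genBy_comp_equiv_Gen hg2 e)
  refine ⟨J, fun c => ?_, fun i => ?_⟩
  · refine (hJ1 _).trans ?_
    rw [RingHom.comp_apply]
    have h1 : (e : FractionRing (MvPolynomial (Fin m) k) →+* L)
        (algebraMap (MvPolynomial (Fin m) k) (KT k m) c) = MvPolynomial.eval₂Hom ψ z' c := he3 c
    rw [h1]
    have h2 : L.subtype.comp (MvPolynomial.eval₂Hom ψ z') =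
        (algebraMap (MvPolynomial (Fin (m + p)) k) (KT k (m + p))).comp
          (MvPolynomial.rename (Fin.castAdd p) : MvPolynomial (Fin m) k →ₐ[k]
            MvPolynomial (Fin (m + p)) k).toRingHom := by
      apply MvPolynomial.ringHom_ext
      · intro a
        rw [RingHom.comp_apply, MvPolynomial.eval₂Hom_C, RingHom.comp_apply]
        have e1 : (MvPolynomial.rename (Fin.castAdd p) : MvPolynomial (Fin m) k →ₐ[k]
            MvPolynomial (Fin (m + p)) k).toRingHom (MvPolynomial.C a) = MvPolynomial.C a :=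
          MvPolynomial.rename_C _ _
        rw [e1]
        exact (hψ a).trans (IsScalarTower.algebraMap_apply k (MvPolynomial (Fin (m + p)) k)
          (KT k (m + p)) a)
      · intro i
        rw [RingHom.comp_apply, MvPolynomial.eval₂Hom_X', RingHom.comp_apply]
        have e1 : (MvPolynomial.rename (Fin.castAdd p) : MvPolynomial (Fin m) k →ₐ[k]
            MvPolynomial (Fin (m + p)) k).toRingHom (MvPolynomial.X i) =
            MvPolynomial.X (Fin.castAdd p i) := MvPolynomial.rename_X _ _
        rw [e1]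
        exact hz' i
    exact RingHom.congr_fun h2 c
  · exact hJ2 i

private lemma pencil_cg_Gen {k : Type} [Field k] {m p N : ℕ}
    (A : Fin p → Matrix (Fin N) (Fin N) (MvPolynomial (Fin m) k)) (P : Matrix (Fin N) (Fin N) k) :
    pencil (cg P A) = (P.map MvPolynomial.C).transpose * pencil A * P.map MvPolynomial.C := by
  unfold pencil cg
  rw [Finset.mul_sum, Finset.sum_mul]
  refine Finset.sum_congr rfl fun i _ => ?_
  have h1 : ((P.map MvPolynomial.C).transpose * A i * P.map MvPolynomial.C).map
      (MvPolynomial.rename (Fin.castAdd p) : MvPolynomial (Fin m) k →ₐ[k] _) =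
      (P.map MvPolynomial.C).transpose * (A i).map (MvPolynomial.rename (Fin.castAdd p)) *
        P.map MvPolynomial.C := by
    have e := fun X Y : Matrix (Fin N) (Fin N) (MvPolynomial (Fin m) k) =>
      Matrix.map_mul (L := X) (M := Y)
        (f := (MvPolynomial.rename (Fin.castAdd p) : MvPolynomial (Fin m) k →ₐ[k]
          MvPolynomial (Fin (m + p)) k))
    have e2 : (P.map (MvPolynomial.C : k →+* MvPolynomial (Fin m) k)).map
        (MvPolynomial.rename (Fin.castAdd p) : MvPolynomial (Fin m) k →ₐ[k]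
          MvPolynomial (Fin (m + p)) k) = P.map MvPolynomial.C := by
      ext1 a b
      simp only [Matrix.map_apply]
      exact MvPolynomial.rename_C _ _
    rw [e, e, Matrix.transpose_map, e2]
  rw [h1, Matrix.mul_smul, Matrix.smul_mul]


private lemma qm_conj_Gen {L : Type} [CommRing L] {N : ℕ} (A P : Matrix (Fin N) (Fin N) L)
    (u : Fin N → L) : qm (P.transpose * A * P) u = qm A (P.mulVec u) := by
  unfold qm
  conv_rhs => rw [← Matrix.vecMul_transpose, ← Matrix.dotProduct_mulVec]
  rw [Matrix.vecMul_transpose, Matrix.mulVec_mulVec, Matrix.mulVec_mulVec, Matrix.mul_assoc]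

/-- an invertible coordinate change does not change isotropy -/
private lemma miso_conj_Gen {F : Type} [Field F] {N : ℕ} (A P : Matrix (Fin N) (Fin N) F)
    (hP : P.det ≠ 0) : MIso (P.transpose * A * P) ↔ MIso A := by
  have hU : IsUnit P.det := isUnit_iff_ne_zero.2 hP
  constructor
  · rintro ⟨u, hu, hq⟩
    refine ⟨P.mulVec u, ?_, by rw [← qm_conj_Gen]; exact hq⟩
    intro h0
    apply hu
    have := congrArg (P⁻¹).mulVec h0
    rwa [Matrix.mulVec_mulVec, Matrix.nonsing_inv_mul P hU, Matrix.one_mulVec,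
      Matrix.mulVec_zero] at this
  · rintro ⟨u, hu, hq⟩
    have h1 : P.mulVec (P⁻¹.mulVec u) = u := by
      rw [Matrix.mulVec_mulVec, Matrix.mul_nonsing_inv P hU, Matrix.one_mulVec]
    refine ⟨P⁻¹.mulVec u, ?_, ?_⟩
    · intro h0
      apply hu
      rw [← h1, h0, Matrix.mulVec_zero]
    · rw [qm_conj_Gen, h1]
      exact hq

/-- adjoining further variables -/
private lemma ext_Gen (k : Type) [Field k] (m p : ℕ) :
    ∃ φ : KT k m →+* KT k (m + p), PureExt φ ∧
      ∀ c : MvPolynomial (Fin m) k, φ (algebraMap (MvPolynomial (Fin m) k) (KT k m) c) =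
        algebraMap (MvPolynomial (Fin (m + p)) k) (KT k (m + p))
          (MvPolynomial.rename (Fin.castAdd p) c) := by
  let z : Fin m ⊕ Fin p → KT k (m + p) := fun i => tv k (m + p) (finSumFinEquiv i)
  have hz : Indep (algebraMap k (KT k (m + p))) z :=
    Indep.equiv (E := k) (F := KT k (m + p)) (y := tv k (m + p)) indep_frac finSumFinEquiv
  have hg : GenBy (algebraMap k (KT k (m + p))) (Set.range z) :=
    GenBy.equiv (E := k) (F := KT k (m + p)) (y := tv k (m + p)) genBy_frac finSumFinEquiv
  obtain ⟨L, ψ, z', hψ, hz', hi, hgen, hi2, hg2⟩ := peelSum hz hg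
  obtain ⟨e, he1, he2, he3⟩ := hi.iso hgen
  refine ⟨L.subtype.comp (e : FractionRing (MvPolynomial (Fin m) k) →+* L),
    pureExt_of_fintype (indep_comp_equiv_Gen hi2 e) (genBy_comp_equiv_Gen hg2 e), fun c => ?_⟩
  rw [RingHom.comp_apply]
  have h1 : (e : FractionRing (MvPolynomial (Fin m) k) →+* L)
      (algebraMap (MvPolynomial (Fin m) k) (KT k m) c) = MvPolynomial.eval₂Hom ψ z' c := he3 c
  rw [h1]
  have h2 : L.subtype.comp (MvPolynomial.eval₂Hom ψ z') =
      (algebraMap (MvPolynomial (Fin (m + p)) k) (KT k (m + p))).comp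
        (MvPolynomial.rename (Fin.castAdd p) : MvPolynomial (Fin m) k →ₐ[k]
          MvPolynomial (Fin (m + p)) k).toRingHom := by
    apply MvPolynomial.ringHom_ext
    · intro a
      rw [RingHom.comp_apply, MvPolynomial.eval₂Hom_C, RingHom.comp_apply]
      have e1 : (MvPolynomial.rename (Fin.castAdd p) : MvPolynomial (Fin m) k →ₐ[k]
          MvPolynomial (Fin (m + p)) k).toRingHom (MvPolynomial.C a) = MvPolynomial.C a :=
        MvPolynomial.rename_C _ _
      rw [e1]
      exact (hψ a).trans (IsScalarTower.algebraMap_apply k (MvPolynomial (Fin (m + p)) k)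
        (KT k (m + p)) a)
    · intro i
      rw [RingHom.comp_apply, MvPolynomial.eval₂Hom_X', RingHom.comp_apply]
      have e1 : (MvPolynomial.rename (Fin.castAdd p) : MvPolynomial (Fin m) k →ₐ[k]
          MvPolynomial (Fin (m + p)) k).toRingHom (MvPolynomial.X i) =
          MvPolynomial.X (Fin.castAdd p i) := MvPolynomial.rename_X _ _
      rw [e1]
      exact hz' i
  exact RingHom.congr_fun h2 c

/-- the generic matrix -/
private noncomputable def gm_Gen (k : Type) [Field k] (t S : ℕ) :
    Matrix (Fin S) (Fin S) (MvPolynomial (Fin (t + S * S)) k) :=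
  Matrix.of fun a b : Fin S => (MvPolynomial.X (Fin.natAdd t (finProdFinEquiv (a, b))) :
    MvPolynomial (Fin (t + S * S)) k)

/-- specialisation of the generic matrix -/
private noncomputable def sp_Gen {k : Type} [Field k] (t : ℕ) {S : ℕ}
    (P : Matrix (Fin S) (Fin S) k) :
    MvPolynomial (Fin (t + S * S)) k →ₐ[k] MvPolynomial (Fin t) k :=
  MvPolynomial.aeval (Fin.addCases (fun j => (MvPolynomial.X j : MvPolynomial (Fin t) k))
    (fun q => MvPolynomial.C (P (finProdFinEquiv.symm q).1 (finProdFinEquiv.symm q).2)))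

private lemma sp_rename_Gen {k : Type} [Field k] (t : ℕ) {S : ℕ}
    (P : Matrix (Fin S) (Fin S) k) (c : MvPolynomial (Fin t) k) :
    sp_Gen t P (MvPolynomial.rename (Fin.castAdd (S * S)) c) = c := by
  unfold sp_Gen
  rw [MvPolynomial.aeval_rename]
  have : (Fin.addCases (fun j => (MvPolynomial.X j : MvPolynomial (Fin t) k))
      (fun q => MvPolynomial.C (P (finProdFinEquiv.symm q).1 (finProdFinEquiv.symm q).2))) ∘
      Fin.castAdd (S * S) = (MvPolynomial.X : Fin t → MvPolynomial (Fin t) k) := by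
    funext j
    simp
  rw [this, MvPolynomial.aeval_X_left]
  rfl

private lemma sp_gm_Gen {k : Type} [Field k] (t : ℕ) {S : ℕ} (P : Matrix (Fin S) (Fin S) k) :
    (gm_Gen k t S).map (sp_Gen t P) = P.map MvPolynomial.C := by
  ext1 a b
  rw [Matrix.map_apply, Matrix.map_apply]
  unfold gm_Gen sp_Gen
  rw [Matrix.of_apply, MvPolynomial.aeval_X, Fin.addCases_right, Equiv.symm_apply_apply]

private lemma gm_det_Gen (k : Type) [Field k] (t S : ℕ) : (gm_Gen k t S).det ≠ 0 := by
  intro h
  have h1 : sp_Gen t (1 : Matrix (Fin S) (Fin S) k) (gm_Gen k t S).det = 1 := by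
    have h2 : sp_Gen t (1 : Matrix (Fin S) (Fin S) k) (gm_Gen k t S).det =
        ((gm_Gen k t S).map (sp_Gen t (1 : Matrix (Fin S) (Fin S) k))).det :=
      RingHom.map_det (sp_Gen t (1 : Matrix (Fin S) (Fin S) k)).toRingHom _
    rw [h2, sp_gm_Gen]
    have h3 : (1 : Matrix (Fin S) (Fin S) k).map
        (MvPolynomial.C : k →+* MvPolynomial (Fin t) k) = 1 :=
      Matrix.map_one _ (map_zero _) (map_one _)
    rw [h3, Matrix.det_one]
  rw [h, map_zero] at h1
  exact zero_ne_one h1

private lemma gpm_eq_Gen {k : Type} [Field k] {m p S : ℕ}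
    (A : Fin p → Matrix (Fin S) (Fin S) (MvPolynomial (Fin m) k)) :
    gpm A = (gm_Gen k (m + p) S).transpose *
      (pencil A).map (MvPolynomial.rename (Fin.castAdd (S * S))) * gm_Gen k (m + p) S := rfl

private lemma im_one_Gen {R S : Type} [CommRing R] [CommRing S] (φ : R →+* S) {s : ℕ}
    (c : Fin s → R) : im φ (one c) = one (fun l => φ (c l)) := by
  funext i
  refine Fin.cases ?_ (fun j => ?_) i
  · unfold im one
    rw [Fin.cons_zero, Fin.cons_zero, map_one]
  · unfold im one
    rw [Fin.cons_succ, Fin.cons_succ]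

theorem pGen : StGen := by
  intro hAB hPencil hLead hMin hPT k _ _ m p N A hA
  have hinj : Function.Injective
      (MvPolynomial.rename (R := k) (Fin.castAdd ((N + 1) * (N + 1)) :
        Fin (m + p) → Fin (m + p + (N + 1) * (N + 1)))) :=
    MvPolynomial.rename_injective _ (Fin.castAdd_injective _ _)
  have hdet : (gpm A).det = (gm_Gen k (m + p) (N + 1)).det ^ 2 *
      MvPolynomial.rename (Fin.castAdd ((N + 1) * (N + 1))) (pencil A).det := by
    rw [gpm_eq_Gen, Matrix.det_mul, Matrix.det_mul, Matrix.det_transpose]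
    have h1 : ((pencil A).map (MvPolynomial.rename (R := k)
        (Fin.castAdd ((N + 1) * (N + 1))))).det =
        MvPolynomial.rename (Fin.castAdd ((N + 1) * (N + 1))) (pencil A).det :=
      (RingHom.map_det (MvPolynomial.rename (R := k)
        (Fin.castAdd ((N + 1) * (N + 1)))).toRingHom _).symm
    rw [h1]
    ring
  refine ⟨fun h => ?_, fun h => ?_⟩
  · refine (hPencil k m p N A hA).1 ?_
    rw [hdet] at h
    rcases mul_eq_zero.1 h with h1 | h1
    · exact absurd h1 (pow_ne_zero 2 (gm_det_Gen _ _ _))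
    · exact (map_eq_zero_iff _ hinj).1 h1
  have hpd : (pencil A).det ≠ 0 := by
    intro h0
    rw [hdet, h0, map_zero, mul_zero] at h
    exact h rfl
  obtain ⟨P, hP, hPl⟩ := (hLead k m p (N + 1) A hA).1 hpd
  obtain ⟨hcs, hcO⟩ := (hLead k m p (N + 1) A hA).2 P hP
  -- the specialisation
  have hsp : (gpm A).map (sp_Gen (m + p) P) = pencil (cg P A) := by
    rw [gpm_eq_Gen, pencil_cg_Gen]
    have e := fun X Y : Matrix (Fin (N + 1)) (Fin (N + 1))
        (MvPolynomial (Fin (m + p + (N + 1) * (N + 1))) k) =>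
      Matrix.map_mul (L := X) (M := Y) (f := sp_Gen (m + p) P)
    rw [e, e, Matrix.transpose_map, sp_gm_Gen]
    congr 2
    ext1 a b
    rw [Matrix.map_apply, Matrix.map_apply, sp_rename_Gen]
  have hlm : ∀ l ≤ N + 1, lm (gpm A) l ≠ 0 := by
    intro l hl h0
    apply hPl l hl
    rw [← hsp]
    have h1 := lm_map_Gen (sp_Gen (m + p) P).toRingHom (gpm A) l
    have h2 : (gpm A).map (sp_Gen (m + p) P).toRingHom = (gpm A).map (sp_Gen (m + p) P) := rfl
    rw [h2] at h1
    rw [h1, h0, map_zero]
  refine ⟨hlm, ?_⟩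
  -- the fields
  obtain ⟨φ, hφ, hφc⟩ := ext_Gen k (m + p) ((N + 1) * (N + 1))
  obtain ⟨J, hJ1, hJ2⟩ := iso_Gen k m p
  have hK : CharZero (KT k m) :=
    charZero_of_injective_algebraMap (R := k) (algebraMap k (KT k m)).injective
  let αE : MvPolynomial (Fin (m + p)) k →+* KT k (m + p) := algebraMap _ _
  let αF : MvPolynomial (Fin (m + p + (N + 1) * (N + 1))) k →+*
    KT k (m + p + (N + 1) * (N + 1)) := algebraMap _ _
  let ιR : MvPolynomial (Fin (m + p)) k →+* MvPolynomial (Fin (m + p + (N + 1) * (N + 1))) k :=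
    (MvPolynomial.rename (R := k) (Fin.castAdd ((N + 1) * (N + 1)))).toRingHom
  have hαE : Function.Injective αE := IsFractionRing.injective (MvPolynomial (Fin (m + p)) k) _
  have hαF : Function.Injective αF :=
    IsFractionRing.injective (MvPolynomial (Fin (m + p + (N + 1) * (N + 1))) k) _
  have hιR : Function.Injective ιR := hinj
  have hφα : ∀ c, φ (αE c) = αF (ιR c) := hφc
  -- the pencil of the transformed system
  let B := cg P A
  let GE : Matrix (Fin (N + 1)) (Fin (N + 1)) (KT k (m + p)) := (pencil B).map αE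
  let GF' : Matrix (Fin (N + 1)) (Fin (N + 1)) (KT k (m + p + (N + 1) * (N + 1))) := GE.map φ
  let GF : Matrix (Fin (N + 1)) (Fin (N + 1)) (KT k (m + p + (N + 1) * (N + 1))) :=
    (gpm A).map αF
  let QF : Matrix (Fin (N + 1)) (Fin (N + 1)) (KT k (m + p + (N + 1) * (N + 1))) :=
    ((pencil A).map ιR).map αF
  -- step 1
  have hOdd : OddZero B ↔ MIso GE := by
    let A' : Fin p → Matrix (Fin (N + 1)) (Fin (N + 1)) (KT k m) := fun i =>
      (B i).map (algebraMap (MvPolynomial (Fin m) k) (KT k m))
    let BB := ∑ i, tv (KT k m) p i • (A' i).map (algebraMap (KT k m) (KT (KT k m) p))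
    have hBG : BB.map J = GE := by
      ext a b
      simp only [BB, GE, pencil, Matrix.map_apply, Matrix.sum_apply, Matrix.smul_apply,
        smul_eq_mul, map_sum, map_mul]
      refine Finset.sum_congr rfl fun i _ => ?_
      rw [hJ2]
      have h3 : J ((algebraMap (KT k m) (KT (KT k m) p)) (A' i a b)) =
          αE (MvPolynomial.rename (Fin.castAdd p) (B i a b)) := hJ1 (B i a b)
      rw [h3]
      rfl
    rw [← hBG, miso_equiv_Gen]
    exact (hAB (KT k m) (N + 1) p A').symm
  -- symmetry
  have hBs : (pencil B).IsSymm := pencil_symm_Gen B hcs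
  have hGEs : GE.IsSymm := by
    unfold Matrix.IsSymm
    ext a b
    simp only [GE, Matrix.transpose_apply, Matrix.map_apply]
    rw [hBs.apply]
  have hGFs' : GF'.IsSymm := by
    unfold Matrix.IsSymm
    ext a b
    simp only [GF', Matrix.transpose_apply, Matrix.map_apply]
    rw [hGEs.apply]
  have hgs : (gpm A).IsSymm := by
    rw [gpm_eq_Gen]
    unfold Matrix.IsSymm
    rw [Matrix.transpose_mul, Matrix.transpose_mul, Matrix.transpose_transpose, Matrix.mul_assoc]
    congr 2
    ext1 a b
    simp only [Matrix.transpose_apply, Matrix.map_apply]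
    rw [(pencil_symm_Gen A hA).apply]
  have hGFs : GF.IsSymm := by
    unfold Matrix.IsSymm
    ext a b
    simp only [GF, Matrix.transpose_apply, Matrix.map_apply]
    rw [hgs.apply]
  -- leading minors
  have hlE : ∀ l, lm GE l = αE (lm (pencil B) l) := fun l => lm_map_Gen αE (pencil B) l
  have hlF' : ∀ l, lm GF' l = φ (lm GE l) := fun l => lm_map_Gen φ GE l
  have hlF : ∀ l, lm GF l = αF (lm (gpm A) l) := fun l => lm_map_Gen αF (gpm A) l
  have hneE : ∀ l ≤ N + 1, lm GE l ≠ 0 := by
    intro l hl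
    rw [hlE, Ne, map_eq_zero_iff _ hαE]
    exact hPl l hl
  have hneF' : ∀ l ≤ N + 1, lm GF' l ≠ 0 := by
    intro l hl
    rw [hlF', Ne, map_eq_zero]
    exact hneE l hl
  have hneF : ∀ l ≤ N + 1, lm GF l ≠ 0 := by
    intro l hl
    rw [hlF, Ne, map_eq_zero_iff _ hαF]
    exact hlm l hl
  -- step 2: from E to F
  have hEF : MIso GE ↔ MIso GF' := by
    rw [hMin _ N GE hGEs hneE, hMin _ N GF' hGFs' hneF']
    have e1 : one (fun l : Fin N => lm GF' 1 * (lm GF' (l.1 + 1) * lm GF' (l.1 + 2))) =
        im φ (one (fun l : Fin N => lm GE 1 * (lm GE (l.1 + 1) * lm GE (l.1 + 2)))) := by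
      rw [im_one_Gen]
      congr 1
      funext l
      rw [hlF', hlF', hlF', map_mul, map_mul]
    rw [e1, not_iff_not]
    exact ⟨fun h1 => hPT _ _ φ hφ _ _ h1, fun h1 => h1.of_im⟩
  -- step 3: coordinate changes over F
  have hGF' : MIso GF' ↔ MIso QF := by
    have e1 : GF' = ((P.map MvPolynomial.C).map ιR |>.map αF).transpose * QF *
        ((P.map MvPolynomial.C).map ιR |>.map αF) := by
      have e2 : GF' = ((pencil B).map ιR).map αF := by
        ext1 a b
        simp only [GF', GE, Matrix.map_apply]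
        exact hφα _
      rw [e2]
      have e3 : pencil B = (P.map MvPolynomial.C).transpose * pencil A * P.map MvPolynomial.C :=
        pencil_cg_Gen A P
      rw [e3]
      simp only [QF, Matrix.map_mul, Matrix.transpose_map]
    rw [e1]
    refine miso_conj_Gen _ _ ?_
    have e4 : ((P.map (MvPolynomial.C : k →+* MvPolynomial (Fin (m + p)) k)).map ιR |>.map αF).det =
        αF (ιR (MvPolynomial.C P.det)) := by
      rw [RingHom.map_det, RingHom.map_det, RingHom.map_det]
      rfl
    rw [e4, Ne, map_eq_zero_iff _ hαF, map_eq_zero_iff _ hιR]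
    exact fun h0 => hP ((map_eq_zero_iff _ (MvPolynomial.C_injective _ _)).1 h0)
  have hGF : MIso GF ↔ MIso QF := by
    have e1 : GF = ((gm_Gen k (m + p) (N + 1)).map αF).transpose * QF *
        (gm_Gen k (m + p) (N + 1)).map αF := by
      show (gpm A).map αF = _
      rw [gpm_eq_Gen]
      simp only [QF, Matrix.map_mul, Matrix.transpose_map]
      rfl
    rw [e1]
    refine miso_conj_Gen _ _ ?_
    have e4 : ((gm_Gen k (m + p) (N + 1)).map αF).det = αF (gm_Gen k (m + p) (N + 1)).det := by
      rw [RingHom.map_det]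
      rfl
    rw [e4, Ne, map_eq_zero_iff _ hαF]
    exact gm_det_Gen _ _ _
  rw [← hcO, hOdd, hEF, hGF', ← hGF, hMin _ N GF hGFs hneF, not_iff_not]
  have e1 : (fun l : Fin N => lm GF 1 * (lm GF (l.1 + 1) * lm GF (l.1 + 2))) =
      toKT (fun l : Fin N => lm (gpm A) 1 * (lm (gpm A) (l.1 + 1) * lm (gpm A) (l.1 + 2))) := by
    funext l
    unfold toKT
    rw [hlF, hlF, hlF, ← map_mul, ← map_mul]
  rw [e1]

end Pool.Agent.Helper44.RED
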