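import Pool.Agent.Helper44.RED.StF
import Pool.Agent.Helper44.RED.Spec

/-!
# Project RED: the equations of the variety as codes
-/

set_option autoImplicit false

namespace Pool.Agent.Helper44.RED

/-- the subset of `Fin n` coded by `u` -/
def deS_Iso (n u : ℕ) : Finset (Fin n) := Finset.univ.filter fun j => u / 2 ^ (j : ℕ) % 2 = 1

lemma deS_inj_Iso {n u v : ℕ} (hu : u < 2 ^ n) (hv : v < 2 ^ n) (h : deS_Iso n u = deS_Iso n v) :
    u = v := by
  apply Nat.eq_of_testBit_eq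
  intro i
  by_cases hi : i < n
  · have h1 : (⟨i, hi⟩ : Fin n) ∈ deS_Iso n u ↔ (⟨i, hi⟩ : Fin n) ∈ deS_Iso n v := by rw [h]
    simp only [deS_Iso, Finset.mem_filter, Finset.mem_univ, true_and] at h1
    rw [Nat.testBit_eq_decide_div_mod_eq, Nat.testBit_eq_decide_div_mod_eq]
    exact decide_eq_decide.2 h1
  · have h2 : 2 ^ n ≤ 2 ^ i := Nat.pow_le_pow_right (by norm_num) (by omega)
    rw [Nat.testBit_eq_false_of_lt (lt_of_lt_of_le hu h2),
      Nat.testBit_eq_false_of_lt (lt_of_lt_of_le hv h2)]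

lemma deS_ne_Iso {n u : ℕ} (hu : u < 2 ^ n - 1) : (deS_Iso n (u + 1)).Nonempty := by
  rw [Finset.nonempty_iff_ne_empty]
  intro h
  have h0 : deS_Iso n 0 = ∅ := by
    unfold deS_Iso
    rw [Finset.filter_eq_empty_iff]
    intro j _
    simp
  have := deS_inj_Iso (n := n) (u := u + 1) (v := 0) (by omega) (by omega) (by rw [h, h0])
  omega

lemma card_Pu_Iso (n : ℕ) : Fintype.card (Pu n) = 2 ^ n - 1 := by
  classical
  rw [Fintype.card_subtype]
  have : (Finset.univ.filter fun S : Finset (Fin n) => S.Nonempty) = Finset.univ.erase ∅ := by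
    ext S
    simp [Finset.nonempty_iff_ne_empty]
  rw [this, Finset.card_erase_of_mem (Finset.mem_univ _), Finset.card_univ, Fintype.card_finset,
    Fintype.card_fin]

/-- numbering of the nonempty subsets -/
noncomputable def puE_Iso (n : ℕ) : Fin (2 ^ n - 1) ≃ Pu n :=
  Equiv.ofBijective (fun u => ⟨deS_Iso n (u + 1), deS_ne_Iso u.2⟩) (by
    rw [Fintype.bijective_iff_injective_and_card]
    refine ⟨fun u v h => ?_, by rw [card_Pu_Iso, Fintype.card_fin]⟩
    have h1 := deS_inj_Iso (by omega) (by omega) (congrArg Subtype.val h)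
    exact Fin.ext (by omega))

/-- numbering of the variables -/
noncomputable def e_Iso (t n s M : ℕ) : VI t n s M ≃ Fin (nvg t n s M) :=
  ((Equiv.sumAssoc (Fin t) (Fin n) ((Fin M × Fin s × Pu n) ⊕ (Fin M × Fin s))).symm.trans
    (Equiv.sumAssoc (Fin t ⊕ Fin n) (Fin M × Fin s × Pu n) (Fin M × Fin s)).symm).trans
  ((Equiv.sumCongr ((Equiv.sumCongr finSumFinEquiv
      ((Equiv.prodAssoc (Fin M) (Fin s) (Pu n)).symm.trans
        ((Equiv.prodCongr finProdFinEquiv (puE_Iso n).symm).trans finProdFinEquiv))).trans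
      finSumFinEquiv) finProdFinEquiv).trans finSumFinEquiv)

section

variable (t n s M : ℕ)

lemma e_t_Iso (j : Fin t) : (e_Iso t n s M (Sum.inl j) : ℕ) = j := rfl

lemma e_x_Iso (j : Fin n) : (e_Iso t n s M (Sum.inr (Sum.inl j)) : ℕ) = t + j := rfl

lemma e_y_Iso (k : Fin M) (l : Fin s) (u : Fin (2 ^ n - 1)) :
    (e_Iso t n s M (Sum.inr (Sum.inr (Sum.inl (k, l, puE_Iso n u)))) : ℕ) =
      t + n + (k * s + l) * (2 ^ n - 1) + u := by
  have h : (e_Iso t n s M (Sum.inr (Sum.inr (Sum.inl (k, l, puE_Iso n u)))) : ℕ) =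
      t + n + (((puE_Iso n).symm (puE_Iso n u) : ℕ) + (2 ^ n - 1) * (l + s * k)) := rfl
  rw [h, Equiv.symm_apply_apply]
  ring

lemma e_w_Iso (k : Fin M) (l : Fin s) :
    (e_Iso t n s M (Sum.inr (Sum.inr (Sum.inr (k, l)))) : ℕ) =
      t + n + M * s * (2 ^ n - 1) + k * s + l := by
  have h : (e_Iso t n s M (Sum.inr (Sum.inr (Sum.inr (k, l)))) : ℕ) =
      t + n + M * s * (2 ^ n - 1) + (l + s * k) := rfl
  rw [h]; ring

end

lemma xvn_Iso (k : Type) [Field k] (v : ℕ) (a : Fin v) (j : ℕ) (h : (a : ℕ) = j) :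
    xvn k v j = MvPolynomial.X a := by
  subst h
  unfold xvn
  rw [dif_pos a.2]

lemma ev_pfg_Iso {R : Type} [CommRing R] (t n : ℕ) (x : ℕ → R) (u : Fin (2 ^ n - 1)) :
    ev (pfg t n (u + 1)) x = ppf (fun j : Fin n => x (t + j)) (puE_Iso n u) := by
  unfold pfg
  rw [ev_pprod]
  have h : ppf (fun j : Fin n => x (t + j)) (puE_Iso n u) =
      ∏ j ∈ deS_Iso n (u + 1), (- x (t + (j : ℕ))) := rfl
  rw [h, deS_Iso, Finset.prod_filter, Finset.prod_range]
  refine Finset.prod_congr rfl fun j _ => ?_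
  split_ifs <;> simp

lemma ev_gdg_Iso (hdet : StCDet) (k : Type) [Field k] (t n s M : ℕ) (q : Fin M) (l : ℕ)
    (hl : l ≤ s) :
    ev (gdg t n s q l) (xvn k (nvg t n s M)) =
      gd (ppf (fun j : Fin n => xvn k (nvg t n s M) (t + j)))
        (ext0 (fun (l : Fin s) S => (MvPolynomial.X (e_Iso t n s M
          (Sum.inr (Sum.inr (Sum.inl (q, l, S))))) : MvPolynomial (Fin (nvg t n s M)) k))) l := by
  unfold gdg gd
  rw [hdet]
  refine congrArg Matrix.det (Matrix.ext fun i j => ?_)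
  rw [Matrix.of_apply, Matrix.of_apply]
  unfold grg bf
  rw [ev_psum, Finset.sum_range]
  refine Eq.trans ?_ (Equiv.sum_comp (puE_Iso n) _)
  refine Finset.sum_congr rfl fun u _ => ?_
  have hi : (i : ℕ) < s := lt_of_lt_of_le i.2 hl
  have hj : (j : ℕ) < s := lt_of_lt_of_le j.2 hl
  rw [ev_pmul, ev_pmul, ev_pfg_Iso]
  have hy : ∀ (p : ℕ) (hp : p < s), ev (yg t n s q p u) (xvn k (nvg t n s M)) =
      ext0 (fun (l : Fin s) S => (MvPolynomial.X (e_Iso t n s M
        (Sum.inr (Sum.inr (Sum.inl (q, l, S))))) : MvPolynomial (Fin (nvg t n s M)) k)) p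
          (puE_Iso n u) := by
    intro p hp
    unfold yg ext0
    rw [ev_pvar, dif_pos hp]
    exact xvn_Iso k _ _ _ (e_y_Iso t n s M q ⟨p, hp⟩ u)
  rw [hy i hi, hy j hj]

/-- ISO with the hypothesis that the codes `bc l` contain no variables with number `≥ t`. -/
theorem pIso2 (hdet : StCDet) (k : Type) [Field k] (t n s M : ℕ)
    (b : Fin s → MvPolynomial (Fin t) k)
    (σ : Fin M → Matrix (Fin t) (Fin t) k) (bc : ℕ → PC) (sg : ℕ → ℕ → ℕ → ℕ)
    (hb : ∀ l : Fin s, ev (bc l) (xvn k t) = b l)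
    (hloc : ∀ (l : Fin s) (R : Type) [CommRing R] (x y : ℕ → R), (∀ i < t, x i = y i) →
      ev (bc l) x = ev (bc l) y)
    (hsg : ∀ (q : Fin M) (i j : Fin t), σ q i j = ((sg q i j : ℕ) : k)) :
    ∃ e : VI t n s M ≃ Fin (nvg t n s M), ∀ p : Fin M × Fin s,
      MvPolynomial.rename e (eqn b σ p) = ev (eqg t n s M bc sg p.1 p.2) (xvn k (nvg t n s M)) := by
  refine ⟨e_Iso t n s M, ?_⟩
  rintro ⟨q, l⟩
  have hx : ∀ j : Fin n, (MvPolynomial.X (e_Iso t n s M (Sum.inr (Sum.inl j))) :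
      MvPolynomial (Fin (nvg t n s M)) k) = xvn k (nvg t n s M) (t + j) := fun j =>
    (xvn_Iso k _ _ _ (e_x_Iso t n s M j)).symm
  have hg : ∀ r : ℕ, r ≤ s → MvPolynomial.rename (e_Iso t n s M)
      (gd (ppf (fun j : Fin n => (MvPolynomial.X (Sum.inr (Sum.inl j)) :
          MvPolynomial (VI t n s M) k)))
        (ext0 (fun (l : Fin s) S => MvPolynomial.X (Sum.inr (Sum.inr (Sum.inl (q, l, S)))))) r) =
      ev (gdg t n s q r) (xvn k (nvg t n s M)) := by
    intro r hr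
    rw [ev_gdg_Iso hdet k t n s M q r hr]
    have h1 := gd_map_Sp (MvPolynomial.rename (e_Iso t n s M) :
      MvPolynomial (VI t n s M) k →ₐ[k] MvPolynomial (Fin (nvg t n s M)) k).toRingHom
      (ppf (fun j : Fin n => (MvPolynomial.X (Sum.inr (Sum.inl j)) :
          MvPolynomial (VI t n s M) k)))
        (ext0 (fun (l : Fin s) S => MvPolynomial.X (Sum.inr (Sum.inr (Sum.inl (q, l, S)))))) r
    refine Eq.trans h1 ?_
    congr 1
    · funext S
      rw [ppf_map_Sp]
      congr 1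
      funext j
      rw [← hx j]
      exact MvPolynomial.rename_X _ _
    · funext p S
      rw [ext0_map_Sp]
      congr 1
      funext l S
      exact MvPolynomial.rename_X _ _
  have hw : ev (wg t n s M q l) (xvn k (nvg t n s M)) =
      MvPolynomial.X (e_Iso t n s M (Sum.inr (Sum.inr (Sum.inr (q, l))))) := by
    unfold wg
    rw [ev_pvar]
    exact xvn_Iso k _ _ _ (e_w_Iso t n s M q l)
  have hbs : ev (bsg t bc sg q l) (xvn k (nvg t n s M)) =
      bs b (σ q) (fun j => (MvPolynomial.X (e_Iso t n s M (Sum.inl j)) :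
        MvPolynomial (Fin (nvg t n s M)) k)) l := by
    unfold bsg bs
    rw [ev_psubst, ← hb l]
    have h2 := map_ev (MvPolynomial.aeval (lin (σ q) (fun j =>
      (MvPolynomial.X (e_Iso t n s M (Sum.inl j)) :
        MvPolynomial (Fin (nvg t n s M)) k))) :
        MvPolynomial (Fin t) k →ₐ[k] MvPolynomial (Fin (nvg t n s M)) k).toRingHom
      (bc l) (xvn k t)
    refine Eq.trans ?_ h2.symm
    refine hloc l _ _ _ fun i hi => ?_
    have h3 : xvn k t i = MvPolynomial.X (⟨i, hi⟩ : Fin t) := xvn_Iso k t ⟨i, hi⟩ i rfl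
    rw [h3]
    have h4 : (MvPolynomial.aeval (lin (σ q) (fun j =>
      (MvPolynomial.X (e_Iso t n s M (Sum.inl j)) :
        MvPolynomial (Fin (nvg t n s M)) k))) :
        MvPolynomial (Fin t) k →ₐ[k] MvPolynomial (Fin (nvg t n s M)) k).toRingHom
          (MvPolynomial.X (⟨i, hi⟩ : Fin t)) = lin (σ q) (fun j =>
      (MvPolynomial.X (e_Iso t n s M (Sum.inl j)) :
        MvPolynomial (Fin (nvg t n s M)) k)) ⟨i, hi⟩ := MvPolynomial.aeval_X _ _
    rw [h4, ev_psum, Finset.sum_range]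
    unfold lin
    refine Finset.sum_congr rfl fun j _ => ?_
    rw [ev_pmul, ev_pint, ev_pvar, hsg, map_natCast, Int.cast_natCast]
    rw [xvn_Iso k _ _ _ (e_t_Iso t n s M j)]
  unfold eqn eqg
  rw [map_sub, map_pow, map_mul, map_mul, MvPolynomial.rename_X, hg _ l.2.le, hg _ l.2,
    bs_map_Sp, ev_append, ev_pneg, ev_pmul, ev_pmul, ev_pmul, hw, hbs]
  simp only [MvPolynomial.rename_X]
  ring

theorem pIso : StIso := fun hdet k _ t n s M b σ bc sg hb hloc hsg =>
  pIso2 hdet k t n s M b σ bc sg hb hloc hsg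

end Pool.Agent.Helper44.RED
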