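import Pool.Agent.Helper44.RED.StF
import Pool.Agent.Helper4.IL.IntPrim

/-!
# Project RED, module PG: the coefficients and the numbers are primitive recursive
-/

set_option autoImplicit false

namespace Pool.Agent.Helper44.RED

open Primrec

section rules

variable {α : Type} [Primcodable α]

private lemma append_PG {f g : α → PC} (hf : Primrec f)
    (hg : Primrec g) : Primrec fun a => f a ++ g a := Primrec.list_append.comp hf hg

private lemma sum_PG : Primrec (List.sum : List ℕ → ℕ) := by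
  refine (Primrec.list_foldl (f := fun l : List ℕ => l) (g := fun _ => 0)
    (h := fun _ p => p.1 + p.2) Primrec.id (Primrec.const 0)
    (Primrec.nat_add.comp (Primrec.fst.comp Primrec.snd) (Primrec.snd.comp Primrec.snd)).to₂).of_eq
    fun l => ?_
  rw [List.sum_eq_foldl]

private lemma add_PG {f g : α → ℕ} (hf : Primrec f) (hg : Primrec g) :
    Primrec fun a => f a + g a := Primrec.nat_add.comp hf hg

private lemma mul_PG {f g : α → ℕ} (hf : Primrec f) (hg : Primrec g) :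
    Primrec fun a => f a * g a := Primrec.nat_mul.comp hf hg

private lemma sub_PG {f g : α → ℕ} (hf : Primrec f) (hg : Primrec g) :
    Primrec fun a => f a - g a := Primrec.nat_sub.comp hf hg

private lemma comp2_PG {β γ δ : Type} [Primcodable β] [Primcodable γ] [Primcodable δ]
    (F : β → γ → δ) (hF : Primrec fun x : β × γ => F x.1 x.2) {f : α → β} {g : α → γ}
    (hf : Primrec f) (hg : Primrec g) : Primrec fun a => F (f a) (g a) :=
  Primrec.comp (f := fun x : β × γ => F x.1 x.2) (g := fun a => (f a, g a)) hF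
    (Primrec.pair hf hg)

private lemma comp4_PG {β γ δ ε ζ : Type} [Primcodable β] [Primcodable γ] [Primcodable δ]
    [Primcodable ε] [Primcodable ζ] (F : β → γ → δ → ε → ζ)
    (hF : Primrec fun x : β × γ × δ × ε => F x.1 x.2.1 x.2.2.1 x.2.2.2) {f : α → β} {g : α → γ}
    {h : α → δ} {i : α → ε} (hf : Primrec f) (hg : Primrec g) (hh : Primrec h) (hi : Primrec i) :
    Primrec fun a => F (f a) (g a) (h a) (i a) :=
  Primrec.comp (f := fun x : β × γ × δ × ε => F x.1 x.2.1 x.2.2.1 x.2.2.2)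
    (g := fun a => (f a, g a, h a, i a)) hF
    (Primrec.pair hf (Primrec.pair hg (Primrec.pair hh hi)))

private lemma pmul_PG (h1 : StPL1) {f g : α → PC} (hf : Primrec f) (hg : Primrec g) :
    Primrec fun a => pmul (f a) (g a) := (h1 α).1 f g hf hg

private lemma pvar_PG (h1 : StPL1) {f : α → ℕ} (hf : Primrec f) :
    Primrec fun a => pvar (f a) := (h1 α).2.2.2.1 f hf

private lemma psum_PG (h1 : StPL1) {n : α → ℕ} {f : α → ℕ → PC} (hn : Primrec n)
    (hf : Primrec fun p : α × ℕ => f p.1 p.2) : Primrec fun a => psum (n a) (f a) :=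
  (h1 α).2.2.2.2.1 n f hn hf.to₂

private lemma pow_PG (h1 : StPL1) {f g : α → ℕ} (hf : Primrec f) (hg : Primrec g) :
    Primrec fun a => f a ^ g a := (h1 α).2.2.2.2.2.2.2.2 f g hf hg

private lemma pdet_PG (h1 : StPL1) (h2 : StPL2) {n : α → ℕ} {f : α → ℕ → ℕ → PC}
    (hn : Primrec n) (hf : Primrec (fun x : α × ℕ × ℕ => f x.1 x.2.1 x.2.2)) :
    Primrec fun a => pdet (n a) (f a) := (h2 h1 α).1 n f hn hf

private lemma pdeg_PG (h1 : StPL1) (h2 : StPL2) {f : α → PC} (hf : Primrec f) :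
    Primrec fun a => pdeg (f a) := (h2 h1 α).2.1 f hf

private lemma phom_PG (h1 : StPL1) (h2 : StPL2) {n : α → ℕ} {f : α → PC} (hn : Primrec n)
    (hf : Primrec f) : Primrec fun a => phom (n a) (f a) := (h2 h1 α).2.2.2.1 n f hn hf

end rules

/-- the entries of the generic matrix -/
private lemma G_PG (h1 : StPL1) {α : Type} [Primcodable α] {m S P : α → ℕ}
    {Q : α → ℕ → ℕ → ℕ → PC} {r c : α → ℕ} (hm : Primrec m) (hS : Primrec S) (hP : Primrec P)
    (hQ : Primrec fun x : α × ℕ × ℕ × ℕ => Q x.1 x.2.1 x.2.2.1 x.2.2.2) (hr : Primrec r)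
    (hc : Primrec c) : Primrec fun x : α =>
      psum (S x) fun a => psum (S x) fun d =>
        pmul (pmul (pvar (m x + P x + a * S x + r x)) (pvar (m x + P x + d * S x + c x)))
          (psum (P x) fun q => pmul (pvar (m x + q)) (Q x q a d ++ Q x q d a)) := by
  have a0 : Primrec (fun z : (α × ℕ) × ℕ => z.1.1) := Primrec.fst.comp Primrec.fst
  have aa : Primrec (fun z : (α × ℕ) × ℕ => z.1.2) := Primrec.snd.comp Primrec.fst
  have ad : Primrec (fun z : (α × ℕ) × ℕ => z.2) := Primrec.snd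
  have v1 : Primrec (fun z : (α × ℕ) × ℕ =>
      pvar (m z.1.1 + P z.1.1 + z.1.2 * S z.1.1 + r z.1.1)) :=
    pvar_PG h1 (add_PG (add_PG (add_PG (hm.comp a0) (hP.comp a0)) (mul_PG aa (hS.comp a0)))
      (hr.comp a0))
  have v2 : Primrec (fun z : (α × ℕ) × ℕ =>
      pvar (m z.1.1 + P z.1.1 + z.2 * S z.1.1 + c z.1.1)) :=
    pvar_PG h1 (add_PG (add_PG (add_PG (hm.comp a0) (hP.comp a0)) (mul_PG ad (hS.comp a0)))
      (hc.comp a0))
  have b0 : Primrec (fun w : ((α × ℕ) × ℕ) × ℕ => w.1.1.1) := a0.comp Primrec.fst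
  have ba : Primrec (fun w : ((α × ℕ) × ℕ) × ℕ => w.1.1.2) := aa.comp Primrec.fst
  have bd : Primrec (fun w : ((α × ℕ) × ℕ) × ℕ => w.1.2) := ad.comp Primrec.fst
  have bq : Primrec (fun w : ((α × ℕ) × ℕ) × ℕ => w.2) := Primrec.snd
  have q1 : Primrec (fun w : ((α × ℕ) × ℕ) × ℕ => Q w.1.1.1 w.2 w.1.1.2 w.1.2) :=
    hQ.comp (Primrec.pair b0 (Primrec.pair bq (Primrec.pair ba bd)))
  have q2 : Primrec (fun w : ((α × ℕ) × ℕ) × ℕ => Q w.1.1.1 w.2 w.1.2 w.1.1.2) :=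
    hQ.comp (Primrec.pair b0 (Primrec.pair bq (Primrec.pair bd ba)))
  have v3 : Primrec (fun w : ((α × ℕ) × ℕ) × ℕ =>
      pmul (pvar (m w.1.1.1 + w.2))
        (Q w.1.1.1 w.2 w.1.1.2 w.1.2 ++ Q w.1.1.1 w.2 w.1.2 w.1.1.2)) :=
    pmul_PG h1 (pvar_PG h1 (add_PG (hm.comp b0) bq)) (append_PG q1 q2)
  have v4 : Primrec (fun z : (α × ℕ) × ℕ =>
      psum (P z.1.1) fun q => pmul (pvar (m z.1.1 + q))
        (Q z.1.1 q z.1.2 z.2 ++ Q z.1.1 q z.2 z.1.2)) := psum_PG h1 (hP.comp a0) v3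
  have v5 := pmul_PG h1 (pmul_PG h1 v1 v2) v4
  have v6 : Primrec (fun y : α × ℕ => psum (S y.1) fun d =>
      pmul (pmul (pvar (m y.1 + P y.1 + y.2 * S y.1 + r y.1))
      (pvar (m y.1 + P y.1 + d * S y.1 + c y.1)))
      (psum (P y.1) fun q => pmul (pvar (m y.1 + q))
        (Q y.1 q y.2 d ++ Q y.1 q d y.2))) := psum_PG h1 (hS.comp Primrec.fst) v5
  exact psum_PG h1 hS v6

private lemma Gg_PG (h1 : StPL1) (hS : Primrec nS) (hP : Primrec nP)
    (hqe : Primrec (fun x : Sys × ℕ × ℕ × ℕ => qe x.1 x.2.1 x.2.2.1 x.2.2.2)) :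
    Primrec (fun z : (Sys × ℕ) × ℕ × ℕ => Gg z.1.1 z.2.1 z.2.2) := by
  have a0 : Primrec (fun z : (Sys × ℕ) × ℕ × ℕ => z.1.1) := Primrec.fst.comp Primrec.fst
  have b0 : Primrec (fun x : ((Sys × ℕ) × ℕ × ℕ) × ℕ × ℕ × ℕ => x.1.1.1) := a0.comp Primrec.fst
  have b1 : Primrec (fun x : ((Sys × ℕ) × ℕ × ℕ) × ℕ × ℕ × ℕ => x.2.1) :=
    Primrec.fst.comp Primrec.snd
  have b2 : Primrec (fun x : ((Sys × ℕ) × ℕ × ℕ) × ℕ × ℕ × ℕ => x.2.2.1) :=
    Primrec.fst.comp (Primrec.snd.comp Primrec.snd)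
  have b3 : Primrec (fun x : ((Sys × ℕ) × ℕ × ℕ) × ℕ × ℕ × ℕ => x.2.2.2) :=
    Primrec.snd.comp (Primrec.snd.comp Primrec.snd)
  have q1 : Primrec fun x : ((Sys × ℕ) × ℕ × ℕ) × ℕ × ℕ × ℕ =>
      qe x.1.1.1 x.2.1 x.2.2.1 x.2.2.2 := comp4_PG qe hqe b0 b1 b2 b3
  unfold Gg
  exact G_PG h1 (α := (Sys × ℕ) × ℕ × ℕ) (m := fun z => z.1.1.1) (S := fun z => nS z.1.1)
      (P := fun z => nP z.1.1) (Q := fun z => qe z.1.1) (r := fun z => z.2.1)
      (c := fun z => z.2.2) (Primrec.fst.comp a0) (hS.comp a0) (hP.comp a0) q1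
      (Primrec.fst.comp Primrec.snd) (Primrec.snd.comp Primrec.snd)

private lemma dd_PG (h1 : StPL1) (h2 : StPL2)
    (hG : Primrec (fun z : (Sys × ℕ) × ℕ × ℕ => Gg z.1.1 z.2.1 z.2.2)) :
    Primrec (fun x : Sys × ℕ => dd x.1 x.2) := by
  unfold dd
  exact pdet_PG h1 h2 (α := Sys × ℕ) (n := fun x => x.2) (f := fun x => Gg x.1) Primrec.snd hG

private lemma cc_PG (h1 : StPL1)
    (hdd : Primrec (fun x : Sys × ℕ => dd x.1 x.2)) :
    Primrec (fun x : Sys × ℕ => cc x.1 x.2) := by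
  have v1 : Primrec (fun x : Sys × ℕ => dd x.1 1) :=
    comp2_PG dd hdd Primrec.fst (Primrec.const 1)
  have v2 : Primrec (fun x : Sys × ℕ => dd x.1 (x.2 + 1)) :=
    comp2_PG dd hdd Primrec.fst (add_PG Primrec.snd (Primrec.const 1))
  have v3 : Primrec (fun x : Sys × ℕ => dd x.1 (x.2 + 2)) :=
    comp2_PG dd hdd Primrec.fst (add_PG Primrec.snd (Primrec.const 2))
  unfold cc
  exact pmul_PG h1 v1 (pmul_PG h1 v2 v3)

private lemma nT_PG (hS : Primrec nS) (hP : Primrec nP) : Primrec nT :=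
  add_PG (add_PG Primrec.fst hP) (mul_PG hS hS)

private lemma nn_PG (hS : Primrec nS) : Primrec nn := add_PG hS (Primrec.const 3)

private lemma ns_PG (h1 : StPL1) (hS : Primrec nS) : Primrec ns :=
  pow_PG h1 (Primrec.const 2) (add_PG hS (Primrec.const 2))

private lemma ne_PG (hS : Primrec nS) (hns : Primrec ns) : Primrec ne :=
  sub_PG hns (sub_PG hS (Primrec.const 1))

private lemma nt_PG (hnT : Primrec nT) (hne : Primrec ne) : Primrec nt :=
  add_PG (add_PG hnT (Primrec.const 1)) hne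

private lemma bb_PG (h1 : StPL1) (h2 : StPL2) (hS : Primrec nS) (hnT : Primrec nT)
    (hcc : Primrec (fun x : Sys × ℕ => cc x.1 x.2)) :
    Primrec (fun x : Sys × ℕ => bb x.1 x.2) := by
  have s1 : Primrec (fun x : Sys × ℕ => nS x.1 - 1) :=
    sub_PG (hS.comp Primrec.fst) (Primrec.const 1)
  have v1 : Primrec (fun x : Sys × ℕ => phom (pdeg (cc x.1 x.2)) (cc x.1 x.2)) :=
    phom_PG h1 h2 (pdeg_PG h1 h2 hcc) hcc
  have v2 : Primrec (fun x : Sys × ℕ =>
      pmul (pvar 0) (pvar (nT x.1 + 1 + (x.2 - (nS x.1 - 1))))) :=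
    pmul_PG h1 (Primrec.const _) (pvar_PG h1 (add_PG (add_PG (hnT.comp Primrec.fst)
      (Primrec.const 1)) (sub_PG Primrec.snd s1)))
  exact Primrec.ite (Primrec.nat_lt.comp Primrec.snd s1) v1 v2

private lemma ndeg_PG (h1 : StPL1) (h2 : StPL2) (hS : Primrec nS) (hne : Primrec ne)
    (hcc : Primrec (fun x : Sys × ℕ => cc x.1 x.2)) : Primrec ndeg := by
  have v1 : Primrec (fun x : Sys × ℕ => 2 * pdeg (cc x.1 x.2)) :=
    mul_PG (Primrec.const 2) (pdeg_PG h1 h2 hcc)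
  have v2 : Primrec (fun A : Sys => (List.range (nS A - 1)).map fun l => 2 * pdeg (cc A l)) :=
    Primrec.list_map (Primrec.list_range.comp (sub_PG hS (Primrec.const 1))) v1.to₂
  exact add_PG (sum_PG.comp v2) (mul_PG (Primrec.const 2) hne)

private lemma nM_PG (h1 : StPL1) (hndeg : Primrec ndeg) (hnt : Primrec nt) : Primrec nM :=
  add_PG (mul_PG (mul_PG hndeg hnt) (pow_PG h1 (add_PG hndeg (Primrec.const 1)) hnt))
    (Primrec.const 1)

private lemma sgm_PG (h1 : StPL1) (hndeg : Primrec ndeg) (hnM : Primrec nM) :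
    Primrec (fun x : Sys × ℕ × ℕ × ℕ => sgm x.1 x.2.1 x.2.2.1 x.2.2.2) := by
  have a1 : Primrec (fun x : Sys × ℕ × ℕ × ℕ => x.2.1) := Primrec.fst.comp Primrec.snd
  have a2 : Primrec (fun x : Sys × ℕ × ℕ × ℕ => x.2.2.1) :=
    Primrec.fst.comp (Primrec.snd.comp Primrec.snd)
  have a3 : Primrec (fun x : Sys × ℕ × ℕ × ℕ => x.2.2.2) :=
    Primrec.snd.comp (Primrec.snd.comp Primrec.snd)
  have v1 : Primrec (fun x : Sys × ℕ × ℕ × ℕ => nM x.1 + 2 + x.2.1) :=
    add_PG (add_PG (hnM.comp Primrec.fst) (Primrec.const 2)) a1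
  have v2 : Primrec (fun x : Sys × ℕ × ℕ × ℕ => (ndeg x.1 + 1) ^ x.2.2.1 * (x.2.2.2 + 1)) :=
    mul_PG (pow_PG h1 (add_PG (hndeg.comp Primrec.fst) (Primrec.const 1)) a2)
      (add_PG a3 (Primrec.const 1))
  exact pow_PG h1 v1 v2

theorem pPG : StPG := by
  intro h1 h2 hq
  obtain ⟨hS, _, _, hP, hqe⟩ := hq h1 h2
  have hdd := dd_PG h1 h2 (Gg_PG h1 hS hP hqe)
  have hcc := cc_PG h1 hdd
  have hnT := nT_PG hS hP
  have hns := ns_PG h1 hS
  have hne := ne_PG hS hns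
  have hnt := nt_PG hnT hne
  have hndeg := ndeg_PG h1 h2 hS hne hcc
  have hnM := nM_PG h1 hndeg hnt
  exact ⟨hdd, bb_PG h1 h2 hS hnT hcc, nn_PG hS, hns, hnt, hndeg, hnM, sgm_PG h1 hndeg hnM⟩

end Pool.Agent.Helper44.RED
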