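import Pool.Agent.Helper44.RED.StF
import Pool.Agent.Helper4.IL.IntPrim

/-!
# Project RED, module PL1: basic operations on codes are primitive recursive
-/

set_option autoImplicit false

namespace Pool.Agent.Helper44.RED

open Primrec

private lemma pow_PL1 : Primrec₂ ((· ^ ·) : ℕ → ℕ → ℕ) :=
  (Primrec.nat_rec' (f := fun p : ℕ × ℕ => p.2) (g := fun _ => 1)
    (h := fun p q => q.2 * p.1) Primrec.snd (Primrec.const 1)
    (Primrec.nat_mul.comp (Primrec.snd.comp Primrec.snd) (Primrec.fst.comp Primrec.fst)).to₂).of_eq
    fun p => by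
      obtain ⟨a, n⟩ := p
      induction n with
      | zero => rfl
      | succ n ih =>
        simp only at ih ⊢
        rw [pow_succ, ← ih]

private lemma monE_PL1 : Primrec₂ monE := by
  unfold monE
  exact Primrec.list_map (f := fun p : List ℕ × List ℕ => List.range (max p.1.length p.2.length))
    (g := fun p i => p.1.getD i 0 + p.2.getD i 0)
    (Primrec.list_range.comp (Primrec.nat_max.comp (Primrec.list_length.comp Primrec.fst)
      (Primrec.list_length.comp Primrec.snd)))
    (Primrec.nat_add.comp
      ((Primrec.list_getD 0).comp (Primrec.fst.comp Primrec.fst) Primrec.snd)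
      ((Primrec.list_getD 0).comp (Primrec.snd.comp Primrec.fst) Primrec.snd)).to₂

private lemma pmul_PL1 : Primrec₂ pmul := by
  unfold pmul
  refine Primrec.list_flatMap (f := fun p : PC × PC => p.1)
    (g := fun p a => p.2.map fun b => (a.1 * b.1, monE a.2 b.2)) Primrec.fst ?_
  refine Primrec.list_map (f := fun q : (PC × PC) × (ℤ × List ℕ) => q.1.2)
    (g := fun q b => (q.2.1 * b.1, monE q.2.2 b.2)) (Primrec.snd.comp Primrec.fst) ?_
  exact Primrec.pair
    (Pool.Agent.Helper4.IL.primrec_int_mul.comp
      (Primrec.fst.comp (Primrec.snd.comp Primrec.fst)) (Primrec.fst.comp Primrec.snd))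
    (monE_PL1.comp (Primrec.snd.comp (Primrec.snd.comp Primrec.fst))
      (Primrec.snd.comp Primrec.snd))

private lemma pint_PL1 : Primrec pint :=
  Primrec.list_cons.comp (Primrec.pair Primrec.id (Primrec.const [])) (Primrec.const [])

private lemma pvar_PL1 : Primrec pvar := by
  refine (Primrec.list_cons.comp (Primrec.pair (Primrec.const (1 : ℤ))
    (Primrec.list_append.comp (Primrec.list_map (f := fun i : ℕ => List.range i)
      (g := fun _ _ => 0) Primrec.list_range (Primrec.const 0).to₂) (Primrec.const [1])))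
      (Primrec.const [])).of_eq fun i => ?_
  unfold pvar
  simp [List.map_const']

private lemma pprod_PL1 {α : Type} [Primcodable α] (n : α → ℕ) (f : α → ℕ → PC)
    (hn : Primrec n) (hf : Primrec₂ f) : Primrec fun a => pprod (n a) (f a) := by
  unfold pprod
  exact Primrec.list_foldl (f := fun a => List.range (n a)) (g := fun _ => pint 1)
    (h := fun a p => pmul p.1 (f a p.2)) (Primrec.list_range.comp hn) (Primrec.const _)
    (pmul_PL1.comp (Primrec.fst.comp Primrec.snd)
      (hf.comp Primrec.fst (Primrec.snd.comp Primrec.snd))).to₂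

theorem pPL1 : StPL1 := by
  intro α _
  refine ⟨fun f g hf hg => pmul_PL1.comp hf hg, fun f hf => ?_, fun f hf => pint_PL1.comp hf,
    fun f hf => pvar_PL1.comp hf, fun n f hn hf => ?_, pprod_PL1, fun f y hf hy => ?_,
    fun b q i hb hq hi => ?_, fun f g hf hg => pow_PL1.comp hf hg⟩
  · unfold pneg
    exact Primrec.list_map (g := fun _ b => (-b.1, b.2)) hf
      (Primrec.pair (Pool.Agent.Helper4.IL.primrec_int_neg.comp (Primrec.fst.comp Primrec.snd))
        (Primrec.snd.comp Primrec.snd)).to₂
  · unfold psum
    exact Primrec.list_flatMap (Primrec.list_range.comp hn) hf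
  · unfold psubst
    refine Primrec.list_flatMap (g := fun a b => pmul (pint b.1)
      (pprod b.2.length fun i => ppow (y a i) (b.2.getD i 0))) hf ?_
    refine pmul_PL1.comp (pint_PL1.comp (Primrec.fst.comp Primrec.snd)) ?_
    refine pprod_PL1 (α := α × (ℤ × List ℕ)) (fun q => q.2.2.length)
      (fun q i => ppow (y q.1 i) (q.2.2.getD i 0))
      (Primrec.list_length.comp (Primrec.snd.comp Primrec.snd)) ?_
    unfold ppow
    refine pprod_PL1 (α := (α × (ℤ × List ℕ)) × ℕ) (fun r => r.1.2.2.getD r.2 0)
      (fun r _ => y r.1.1 r.2)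
      ((Primrec.list_getD 0).comp (Primrec.snd.comp (Primrec.snd.comp Primrec.fst)) Primrec.snd) ?_
    exact (hy.comp (Primrec.fst.comp (Primrec.fst.comp Primrec.fst))
      (Primrec.snd.comp Primrec.fst)).to₂
  · unfold dig
    exact Primrec.nat_mod.comp (Primrec.nat_div.comp hq (pow_PL1.comp hb hi)) hb

end Pool.Agent.Helper44.RED
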