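import Pool.Agent.Helper44.RED.StF

/-!
# Project RED, module PQ: the coefficients of the quadratic equations are primitive recursive
-/

set_option autoImplicit false

namespace Pool.Agent.Helper44.RED

theorem pPQ : StPQ := by
  intro h1 h2
  have hpow : ∀ (γ : Type) [Primcodable γ] (f g : γ → ℕ), Primrec f → Primrec g →
      Primrec fun a => f a ^ g a := fun γ _ => (h1 γ).2.2.2.2.2.2.2.2
  have hdig : ∀ (γ : Type) [Primcodable γ] (b q i : γ → ℕ), Primrec b → Primrec q → Primrec i →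
      Primrec fun a => dig (b a) (q a) (i a) := fun γ _ => (h1 γ).2.2.2.2.2.2.2.1
  have hpint : ∀ (γ : Type) [Primcodable γ] (f : γ → ℤ), Primrec f → Primrec fun a => pint (f a) :=
    fun γ _ => (h1 γ).2.2.1
  have hptr : ∀ (γ : Type) [Primcodable γ] (n : γ → ℕ) (f : γ → PC), Primrec n → Primrec f →
      Primrec fun a => ptr (n a) (f a) := fun γ _ => (h2 h1 γ).2.2.2.2.1
  have hpif : ∀ (γ : Type) [Primcodable γ] (c : γ → Bool) (f : γ → PC), Primrec c → Primrec f →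
      Primrec fun a => pif (c a) (f a) := fun γ _ => (h2 h1 γ).2.2.2.2.2.1
  have hupd : ∀ (γ : Type) [Primcodable γ] (b q i d : γ → ℕ), Primrec b → Primrec q → Primrec i →
      Primrec d → Primrec fun a => upd (b a) (q a) (i a) (d a) :=
    fun γ _ => (h2 h1 γ).2.2.2.2.2.2.1
  have hswp : ∀ (γ : Type) [Primcodable γ] (b q i j : γ → ℕ), Primrec b → Primrec q → Primrec i →
      Primrec j → Primrec fun a => swp (b a) (q a) (i a) (j a) :=
    fun γ _ => (h2 h1 γ).2.2.2.2.2.2.2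
  have hbeq : ∀ (γ : Type) [Primcodable γ] (f g : γ → ℕ), Primrec f → Primrec g →
      Primrec fun a => (f a == g a) := by
    intro γ _ f g hf hg
    refine (Primrec.ite (Primrec.eq.comp hf hg) (Primrec.const true) (Primrec.const false)).of_eq
      fun a => ?_
    by_cases h : f a = g a
    · rw [if_pos h, h]; simp
    · rw [if_neg h]; simp [h]
  have hN : Primrec fun A : Sys => A.2.1 := Primrec.fst.comp Primrec.snd
  have hD : Primrec fun A : Sys => A.2.2.1 := Primrec.fst.comp (Primrec.snd.comp Primrec.snd)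
  have hF : Primrec fun A : Sys => A.2.2.2 := Primrec.snd.comp (Primrec.snd.comp Primrec.snd)
  have hnS : Primrec nS := hpow Sys _ _ (Primrec.succ.comp hN) (Primrec.succ.comp hD)
  have hnP1 : Primrec nP1 :=
    Primrec.nat_mul.comp (Primrec.nat_mul.comp hnS hnS) (Primrec.succ.comp hD)
  have hnP2 : Primrec nP2 :=
    Primrec.nat_mul.comp (Primrec.nat_mul.comp (Primrec.nat_mul.comp hnS hnS)
      (Primrec.succ.comp hD)) (Primrec.succ.comp hD)
  have hnP : Primrec nP :=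
    Primrec.nat_add.comp (Primrec.nat_add.comp hnP1 hnP2)
      (Primrec.nat_mul.comp (Primrec.list_length.comp hF) hnS)
  refine ⟨hnS, hnP1, hnP2, hnP, ?_⟩
  -- projections
  have pA : Primrec fun x : Sys × ℕ × ℕ × ℕ => x.1 := Primrec.fst
  have pq : Primrec fun x : Sys × ℕ × ℕ × ℕ => x.2.1 := Primrec.fst.comp Primrec.snd
  have pr : Primrec fun x : Sys × ℕ × ℕ × ℕ => x.2.2.1 :=
    Primrec.fst.comp (Primrec.snd.comp Primrec.snd)
  have pc : Primrec fun x : Sys × ℕ × ℕ × ℕ => x.2.2.2 :=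
    Primrec.snd.comp (Primrec.snd.comp Primrec.snd)
  have pS : Primrec fun x : Sys × ℕ × ℕ × ℕ => nS x.1 := hnS.comp pA
  have pb : Primrec fun x : Sys × ℕ × ℕ × ℕ => x.1.2.1 + 1 := Primrec.succ.comp (hN.comp pA)
  have pD : Primrec fun x : Sys × ℕ × ℕ × ℕ => x.1.2.2.1 + 1 := Primrec.succ.comp (hD.comp pA)
  have p1 : Primrec fun x : Sys × ℕ × ℕ × ℕ => nP1 x.1 := hnP1.comp pA
  have p2 : Primrec fun x : Sys × ℕ × ℕ × ℕ => nP2 x.1 := hnP2.comp pA
  have pF : Primrec fun x : Sys × ℕ × ℕ × ℕ => x.1.2.2.2 := hF.comp pA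
  have qS : Primrec fun x : Sys × ℕ × ℕ × ℕ => x.2.1 % nS x.1 := Primrec.nat_mod.comp pq pS
  have qd : Primrec fun x : Sys × ℕ × ℕ × ℕ => x.2.1 / nS x.1 := Primrec.nat_div.comp pq pS
  have qdS : Primrec fun x : Sys × ℕ × ℕ × ℕ => x.2.1 / nS x.1 % nS x.1 :=
    Primrec.nat_mod.comp qd pS
  have qdd : Primrec fun x : Sys × ℕ × ℕ × ℕ => x.2.1 / nS x.1 / nS x.1 :=
    Primrec.nat_div.comp qd pS
  have pu : Primrec fun x : Sys × ℕ × ℕ × ℕ => x.2.1 - nP1 x.1 := Primrec.nat_sub.comp pq p1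
  have uS : Primrec fun x : Sys × ℕ × ℕ × ℕ => (x.2.1 - nP1 x.1) % nS x.1 :=
    Primrec.nat_mod.comp pu pS
  have ud : Primrec fun x : Sys × ℕ × ℕ × ℕ => (x.2.1 - nP1 x.1) / nS x.1 :=
    Primrec.nat_div.comp pu pS
  have udS : Primrec fun x : Sys × ℕ × ℕ × ℕ => (x.2.1 - nP1 x.1) / nS x.1 % nS x.1 :=
    Primrec.nat_mod.comp ud pS
  have udd : Primrec fun x : Sys × ℕ × ℕ × ℕ => (x.2.1 - nP1 x.1) / nS x.1 / nS x.1 :=
    Primrec.nat_div.comp ud pS
  have pv : Primrec fun x : Sys × ℕ × ℕ × ℕ => x.2.1 - nP1 x.1 - nP2 x.1 :=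
    Primrec.nat_sub.comp pu p2
  have vS : Primrec fun x : Sys × ℕ × ℕ × ℕ => (x.2.1 - nP1 x.1 - nP2 x.1) % nS x.1 :=
    Primrec.nat_mod.comp pv pS
  have vd : Primrec fun x : Sys × ℕ × ℕ × ℕ => (x.2.1 - nP1 x.1 - nP2 x.1) / nS x.1 :=
    Primrec.nat_div.comp pv pS
  have e1 : Primrec fun _ : Sys × ℕ × ℕ × ℕ => pint 1 := Primrec.const _
  have e2 : Primrec fun _ : Sys × ℕ × ℕ × ℕ => pint (-1) := Primrec.const _
  refine Primrec.ite (Primrec.nat_lt.comp pq p1) ?_ (Primrec.ite (Primrec.nat_lt.comp pq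
    (Primrec.nat_add.comp p1 p2)) ?_ ?_)
  · refine Primrec.list_append.comp (hpif _ _ _ ?_ e1) (hpif _ _ _ ?_ e2)
    · exact Primrec.and.comp (hbeq _ _ _ pr qS) (hbeq _ _ _ pc qdS)
    · exact Primrec.and.comp (hbeq _ _ _ pr (hupd _ _ _ _ _ pb qS qdd (hdig _ _ _ _ pb qdS qdd)))
        (hbeq _ _ _ pc (hupd _ _ _ _ _ pb qdS qdd (hdig _ _ _ _ pb qS qdd)))
  · refine Primrec.list_append.comp (hpif _ _ _ ?_ e1) (hpif _ _ _ ?_ e2)
    · exact Primrec.and.comp (hbeq _ _ _ pr uS) (hbeq _ _ _ pc udS)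
    · exact Primrec.and.comp (hbeq _ _ _ pr uS) (hbeq _ _ _ pc
        (hswp _ _ _ _ _ pb udS (Primrec.nat_mod.comp udd pD) (Primrec.nat_div.comp udd pD)))
  · refine hpif _ _ _ (hbeq _ _ _ pr vS) (hptr _ _ _ (Primrec.fst.comp pA) ?_)
    exact (Primrec.list_getD ([] : PC)).comp ((Primrec.list_getD ([] : List PC)).comp pF vd) pc

end Pool.Agent.Helper44.RED
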