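import Pool.Agent.Helper44.RED.StF
import Pool.Agent.Helper4.IL.IntPrim

/-!
# Project RED, module PR: the reduction is primitive recursive
-/

set_option autoImplicit false

namespace Pool.Agent.Helper44.RED

open Pool.Agent.Helper4.IL

section

variable {γ : Type} [Primcodable γ]

private lemma pow2_PR (h1 : StPL1) {n : γ → ℕ} (hn : Primrec n) :
    Primrec fun a => 2 ^ n a - 1 :=
  Primrec.nat_sub.comp ((h1 γ).2.2.2.2.2.2.2.2 (fun _ => 2) n (Primrec.const 2) hn)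
    (Primrec.const 1)

private lemma bsg_PR (h1 : StPL1) {t k l : γ → ℕ} {b : γ → ℕ → PC} {sg : γ → ℕ → ℕ → ℕ → ℕ}
    (ht : Primrec t) (hk : Primrec k) (hl : Primrec l)
    (hb : Primrec fun x : γ × ℕ => b x.1 x.2)
    (hs : Primrec fun x : γ × ℕ × ℕ × ℕ => sg x.1 x.2.1 x.2.2.1 x.2.2.2) :
    Primrec fun a => bsg (t a) (b a) (sg a) (k a) (l a) := by
  unfold bsg
  refine (h1 γ).2.2.2.2.2.2.1 (fun a => b a (l a))
    (fun a i => psum (t a) fun j => pmul (pint (sg a (k a) i j)) (pvar j))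
    (hb.comp (Primrec.pair Primrec.id hl)) ?_
  show Primrec fun x : γ × ℕ => psum (t x.1) fun j => pmul (pint (sg x.1 (k x.1) x.2 j)) (pvar j)
  refine (h1 (γ × ℕ)).2.2.2.2.1 (fun x => t x.1)
    (fun x j => pmul (pint (sg x.1 (k x.1) x.2 j)) (pvar j)) (ht.comp Primrec.fst) ?_
  show Primrec fun y : (γ × ℕ) × ℕ => pmul (pint (sg y.1.1 (k y.1.1) y.1.2 y.2)) (pvar y.2)
  refine (h1 ((γ × ℕ) × ℕ)).1 _ _ ((h1 _).2.2.1 _ (primrec_int_ofNat.comp ?_))
    ((h1 _).2.2.2.1 _ Primrec.snd)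
  exact hs.comp (Primrec.pair (Primrec.fst.comp Primrec.fst)
    (Primrec.pair (hk.comp (Primrec.fst.comp Primrec.fst))
      (Primrec.pair (Primrec.snd.comp Primrec.fst) Primrec.snd)))

private lemma pfg_PR (h1 : StPL1) {t n u : γ → ℕ} (ht : Primrec t) (hn : Primrec n)
    (hu : Primrec u) : Primrec fun a => pfg (t a) (n a) (u a) := by
  unfold pfg
  refine (h1 γ).2.2.2.2.2.1 n
    (fun a j => if u a / 2 ^ j % 2 = 1 then pneg (pvar (t a + j)) else pint 1) hn ?_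
  show Primrec fun x : γ × ℕ =>
    if u x.1 / 2 ^ x.2 % 2 = 1 then pneg (pvar (t x.1 + x.2)) else pint 1
  refine Primrec.ite (Primrec.eq.comp (Primrec.nat_mod.comp (Primrec.nat_div.comp
    (hu.comp Primrec.fst) ((h1 (γ × ℕ)).2.2.2.2.2.2.2.2 (fun _ => 2) (fun x => x.2)
      (Primrec.const 2) Primrec.snd)) (Primrec.const 2)) (Primrec.const 1)) ?_ (Primrec.const _)
  exact (h1 (γ × ℕ)).2.1 _ ((h1 (γ × ℕ)).2.2.2.1 _
    (Primrec.nat_add.comp (ht.comp Primrec.fst) Primrec.snd))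

private lemma yg_PR (h1 : StPL1) {t n s k l u : γ → ℕ} (ht : Primrec t) (hn : Primrec n)
    (hs : Primrec s) (hk : Primrec k) (hl : Primrec l) (hu : Primrec u) :
    Primrec fun a => yg (t a) (n a) (s a) (k a) (l a) (u a) := by
  unfold yg
  refine (h1 γ).2.2.2.1 _ (Primrec.nat_add.comp (Primrec.nat_add.comp (Primrec.nat_add.comp ht hn)
    (Primrec.nat_mul.comp (Primrec.nat_add.comp (Primrec.nat_mul.comp hk hs) hl)
      (pow2_PR h1 hn))) hu)

private lemma gdg_PR (h1 : StPL1) (h2 : StPL2) {t n s k l : γ → ℕ} (ht : Primrec t)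
    (hn : Primrec n) (hs : Primrec s) (hk : Primrec k) (hl : Primrec l) :
    Primrec fun a => gdg (t a) (n a) (s a) (k a) (l a) := by
  unfold gdg
  refine (h2 h1 γ).1 l (fun a => grg (t a) (n a) (s a) (k a)) hl ?_
  unfold grg
  refine (h1 (γ × ℕ × ℕ)).2.2.2.2.1 (fun x => 2 ^ n x.1 - 1)
    (fun x u => pmul (pfg (t x.1) (n x.1) (u + 1))
      (pmul (yg (t x.1) (n x.1) (s x.1) (k x.1) x.2.1 u)
        (yg (t x.1) (n x.1) (s x.1) (k x.1) x.2.2 u))) (pow2_PR h1 (hn.comp Primrec.fst)) ?_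
  have pa : Primrec fun y : (γ × ℕ × ℕ) × ℕ => y.1.1 := Primrec.fst.comp Primrec.fst
  have pp : Primrec fun y : (γ × ℕ × ℕ) × ℕ => y.1.2.1 :=
    Primrec.fst.comp (Primrec.snd.comp Primrec.fst)
  have pq : Primrec fun y : (γ × ℕ × ℕ) × ℕ => y.1.2.2 :=
    Primrec.snd.comp (Primrec.snd.comp Primrec.fst)
  have pu : Primrec fun y : (γ × ℕ × ℕ) × ℕ => y.2 := Primrec.snd
  show Primrec fun y : (γ × ℕ × ℕ) × ℕ => pmul (pfg (t y.1.1) (n y.1.1) (y.2 + 1))
      (pmul (yg (t y.1.1) (n y.1.1) (s y.1.1) (k y.1.1) y.1.2.1 y.2)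
        (yg (t y.1.1) (n y.1.1) (s y.1.1) (k y.1.1) y.1.2.2 y.2))
  exact (h1 _).1 _ _ (pfg_PR h1 (ht.comp pa) (hn.comp pa) (Primrec.succ.comp pu))
    ((h1 _).1 _ _
      (yg_PR h1 (ht.comp pa) (hn.comp pa) (hs.comp pa) (hk.comp pa) pp pu)
      (yg_PR h1 (ht.comp pa) (hn.comp pa) (hs.comp pa) (hk.comp pa) pq pu))

private lemma wg_PR (h1 : StPL1) {t n s M k l : γ → ℕ} (ht : Primrec t) (hn : Primrec n)
    (hs : Primrec s) (hM : Primrec M) (hk : Primrec k) (hl : Primrec l) :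
    Primrec fun a => wg (t a) (n a) (s a) (M a) (k a) (l a) := by
  unfold wg
  exact (h1 γ).2.2.2.1 _ (Primrec.nat_add.comp (Primrec.nat_add.comp (Primrec.nat_add.comp
    (Primrec.nat_add.comp ht hn) (Primrec.nat_mul.comp (Primrec.nat_mul.comp hM hs)
      (pow2_PR h1 hn))) (Primrec.nat_mul.comp hk hs)) hl)

private lemma eqg_PR (h1 : StPL1) (h2 : StPL2) {t n s M k l : γ → ℕ} {b : γ → ℕ → PC}
    {sg : γ → ℕ → ℕ → ℕ → ℕ} (ht : Primrec t) (hn : Primrec n) (hs : Primrec s) (hM : Primrec M)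
    (hk : Primrec k) (hl : Primrec l) (hb : Primrec fun x : γ × ℕ => b x.1 x.2)
    (hsg : Primrec fun x : γ × ℕ × ℕ × ℕ => sg x.1 x.2.1 x.2.2.1 x.2.2.2) :
    Primrec fun a => eqg (t a) (n a) (s a) (M a) (b a) (sg a) (k a) (l a) := by
  unfold eqg
  have hw := wg_PR h1 ht hn hs hM hk hl
  refine Primrec.list_append.comp ((h1 γ).1 _ _ hw hw) ((h1 γ).2.1 _ ((h1 γ).1 _ _
    (bsg_PR h1 ht hk hl hb hsg) ((h1 γ).1 _ _ (gdg_PR h1 h2 ht hn hs hk hl)
      (gdg_PR h1 h2 ht hn hs hk (Primrec.succ.comp hl)))))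

end

theorem pPR : StPR := by
  intro h1 h2 h3 h4
  obtain ⟨hnS, -, -, -, -⟩ := h3 h1 h2
  obtain ⟨hdd, hbb, hnn, hns, hnt, -, hnM, hsgm⟩ := h4 h1 h2 h3
  have hp : Primrec fun A : Sys => (A, nS A) := Primrec.pair Primrec.id hnS
  have hd : Primrec fun A : Sys => dd A (nS A) :=
    Primrec.comp (f := fun x : Sys × ℕ => dd x.1 x.2) (g := fun A => (A, nS A)) hdd hp
  have hz : Primrec fun A : Sys => pzero (dd A (nS A)) :=
    (h2 h1 Sys).2.2.1 (fun A => dd A (nS A)) hd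
  refine Primrec.ite (Primrec.eq.comp hz (Primrec.const true)) (Primrec.const _)
    (Primrec.pair ?_ ?_)
  · unfold nvg
    exact Primrec.nat_add.comp (Primrec.nat_add.comp (Primrec.nat_add.comp hnt hnn)
      (Primrec.nat_mul.comp (Primrec.nat_mul.comp hnM hns) (pow2_PR h1 hnn)))
      (Primrec.nat_mul.comp hnM hns)
  · refine Primrec.list_map (Primrec.list_range.comp (Primrec.nat_mul.comp hnM hns)) ?_
    have pA : Primrec fun x : Sys × ℕ => x.1 := Primrec.fst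
    have pq : Primrec fun x : Sys × ℕ => x.2 := Primrec.snd
    have hp2 : Primrec fun y : (Sys × ℕ) × ℕ => (y.1.1, y.2) :=
      Primrec.pair (Primrec.fst.comp Primrec.fst) Primrec.snd
    have hp3 : Primrec fun y : (Sys × ℕ) × ℕ × ℕ × ℕ => (y.1.1, y.2) :=
      Primrec.pair (Primrec.fst.comp Primrec.fst) Primrec.snd
    have hb' : Primrec fun y : (Sys × ℕ) × ℕ => bb y.1.1 y.2 :=
      Primrec.comp (f := fun x : Sys × ℕ => bb x.1 x.2)
        (g := fun y : (Sys × ℕ) × ℕ => (y.1.1, y.2)) hbb hp2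
    have hs' : Primrec fun y : (Sys × ℕ) × ℕ × ℕ × ℕ => sgm y.1.1 y.2.1 y.2.2.1 y.2.2.2 :=
      Primrec.comp (f := fun x : Sys × ℕ × ℕ × ℕ => sgm x.1 x.2.1 x.2.2.1 x.2.2.2)
        (g := fun y : (Sys × ℕ) × ℕ × ℕ × ℕ => (y.1.1, y.2)) hsgm hp3
    have hnt' : Primrec fun x : Sys × ℕ => nt x.1 := Primrec.comp (f := nt) hnt pA
    have hnn' : Primrec fun x : Sys × ℕ => nn x.1 := Primrec.comp (f := nn) hnn pA
    have hns' : Primrec fun x : Sys × ℕ => ns x.1 := Primrec.comp (f := ns) hns pA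
    have hnM' : Primrec fun x : Sys × ℕ => nM x.1 := Primrec.comp (f := nM) hnM pA
    have hd' : Primrec fun x : Sys × ℕ => x.2 / ns x.1 := Primrec.nat_div.comp pq hns'
    have hm' : Primrec fun x : Sys × ℕ => x.2 % ns x.1 := Primrec.nat_mod.comp pq hns'
    exact eqg_PR h1 h2 (t := fun x : Sys × ℕ => nt x.1) (n := fun x => nn x.1)
      (s := fun x => ns x.1) (M := fun x => nM x.1) (k := fun x => x.2 / ns x.1)
      (l := fun x => x.2 % ns x.1) (b := fun x => bb x.1) (sg := fun x => sgm x.1)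
      hnt' hnn' hns' hnM' hd' hm' hb' hs'

end Pool.Agent.Helper44.RED
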