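import Pool.Agent.Helper44.RED.StE

/-!
# Project RED (MP_1dc56d), module Ver: systems of forms and systems of quadratic forms
-/

set_option autoImplicit false
set_option linter.unusedSectionVars false

namespace Pool.Agent.Helper44.RED

section values

variable {R L : Type} [CommRing R] [Field L] {W : Type} [Fintype W] [DecidableEq W]

/-- value of the quadratic form with matrix `M` after the ring homomorphism `ψ` -/
def vl_Ver (ψ : R →+* L) (M : Matrix W W R) (y : W → L) : L :=
  dotProduct y ((M.map ψ).mulVec y)

lemma vl_sub_Ver (ψ : R →+* L) (M M' : Matrix W W R) (y : W → L) :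
    vl_Ver ψ (M - M') y = vl_Ver ψ M y - vl_Ver ψ M' y := by
  unfold vl_Ver
  rw [Matrix.map_sub _ (fun a b => map_sub ψ a b), Matrix.sub_mulVec, dotProduct_sub]

lemma vl_sum_Ver {ι : Type} (ψ : R →+* L) (s : Finset ι) (M : ι → Matrix W W R) (y : W → L) :
    vl_Ver ψ (∑ i ∈ s, M i) y = ∑ i ∈ s, vl_Ver ψ (M i) y := by
  classical
  induction s using Finset.induction_on with
  | empty =>
    simp [vl_Ver]
  | insert a s ha ih =>
    rw [Finset.sum_insert ha, Finset.sum_insert ha, ← ih]
    unfold vl_Ver
    rw [Matrix.map_add _ (fun a b => map_add ψ a b), Matrix.add_mulVec, dotProduct_add]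

lemma vl_smul_Ver (ψ : R →+* L) (c : R) (M : Matrix W W R) (y : W → L) :
    vl_Ver ψ (c • M) y = ψ c * vl_Ver ψ M y := by
  unfold vl_Ver
  have h : (c • M).map ψ = ψ c • M.map ψ := by
    ext i j
    simp
  rw [h, Matrix.smul_mulVec, dotProduct_smul, smul_eq_mul]

lemma vl_sy_Ver (ψ : R →+* L) (a b : W) (y : W → L) :
    vl_Ver ψ (sy a b) y = 2 * (y a * y b) := by
  unfold vl_Ver sy
  rw [Matrix.map_add _ (fun a b => map_add ψ a b), Matrix.add_mulVec, dotProduct_add]
  have h : ∀ a b : W, dotProduct y (((Matrix.single a b (1 : R)).map ψ).mulVec y)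
      = y a * y b := by
    intro a b
    simp only [dotProduct, Matrix.mulVec, Matrix.map_apply, Matrix.single_apply]
    rw [Finset.sum_eq_single a]
    · rw [Finset.sum_eq_single b]
      · simp
      · intro j _ hj
        rw [if_neg (fun hh => hj hh.2.symm), map_zero, zero_mul]
      · intro hb
        exact absurd (Finset.mem_univ b) hb
    · intro i _ hi
      rw [Finset.sum_eq_zero, mul_zero]
      intro j _
      rw [if_neg (fun hh => hi hh.1.symm), map_zero, zero_mul]
    · intro ha
      exact absurd (Finset.mem_univ a) ha
  rw [h, h]
  ring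

end values

/-- the Veronese correspondence over a fixed field -/
lemma veronese_Ver {L : Type} [Field L] {r N D : ℕ} (hD : 1 ≤ D)
    (c : Fin r → (Fin D → Fin N) → L) :
    (∃ y : (Fin D → Fin N) → L, y ≠ 0 ∧
      (∀ w w' i, y w * y w' = y (Function.update w i (w' i)) * y (Function.update w' i (w i))) ∧
      (∀ v w i j, y v * y w = y v * y (w ∘ Equiv.swap i j)) ∧
      (∀ j v, y v * ∑ w, c j w * y w = 0)) ↔
    ∃ x : Fin N → L, x ≠ 0 ∧ ∀ j, fm (c j) x = 0 := by
  constructor
  · rintro ⟨y, hy, h1, h2, h3⟩
    obtain ⟨u, hu⟩ := Function.ne_iff.1 hy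
    have hu0 : y u ≠ 0 := hu
    set p : Fin D → Fin N → L := fun i a => y (Function.update u i a) / y u with hp
    have hpu : ∀ i, p i (u i) = 1 := by
      intro i
      simp only [hp, Function.update_eq_self]
      exact div_self hu0
    have hprod : ∀ (w : Fin D → Fin N) (S : Finset (Fin D)),
        y (S.piecewise w u) = y u * ∏ i ∈ S, p i (w i) := by
      intro w S
      induction S using Finset.induction_on with
      | empty => simp
      | insert i S hi ih =>
        have e := h1 ((insert i S).piecewise w u) u i
        rw [Finset.piecewise_insert, Function.update_idem, Function.update_self] at e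
        have e2 : Function.update (S.piecewise w u) i (u i) = S.piecewise w u := by
          apply Function.update_eq_self_iff.2
          rw [Finset.piecewise_eq_of_notMem _ _ _ hi]
        rw [e2] at e
        rw [Finset.piecewise_insert, Finset.prod_insert hi]
        have e3 : y (Function.update u i (w i)) = p i (w i) * y u := by
          simp only [hp]
          field_simp
        rw [e3, ih] at e
        have e4 : y (Function.update (S.piecewise w u) i (w i)) * y u
            = (y u * (p i (w i) * ∏ i ∈ S, p i (w i))) * y u := by
          rw [e]; ring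
        exact mul_right_cancel₀ hu0 e4
    have hyw : ∀ w, y w = y u * ∏ i, p i (w i) := by
      intro w
      have := hprod w Finset.univ
      rwa [Finset.piecewise_univ] at this
    have hsw : ∀ w i j, y w = y (w ∘ Equiv.swap i j) := fun w i j =>
      mul_left_cancel₀ hu0 (h2 u w i j)
    set i₀ : Fin D := ⟨0, by omega⟩ with hi₀
    have hrel : ∀ i, ∀ a, p i a = p i (u i₀) * p i₀ a := by
      intro i a
      by_cases hi : i = i₀
      · subst hi
        rw [hpu, one_mul]
      · have key : ∀ b b' : Fin N,
            y (Function.update (Function.update u i₀ b) i b') = y u * (p i₀ b * p i b') := by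
          intro b b'
          rw [hyw]
          congr 1
          rw [Finset.prod_eq_mul i₀ i (Ne.symm hi)]
          · rw [Function.update_of_ne (Ne.symm hi), Function.update_self, Function.update_self]
          · intro l _ hl
            rw [Function.update_of_ne hl.2, Function.update_of_ne hl.1]
            exact hpu l
          · intro h
            exact absurd (Finset.mem_univ _) h
          · intro h
            exact absurd (Finset.mem_univ _) h
        have e1 := hsw (Function.update (Function.update u i₀ a) i (u i₀)) i₀ i
        have e2 : (Function.update (Function.update u i₀ a) i (u i₀)) ∘ Equiv.swap i₀ i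
            = Function.update (Function.update u i₀ (u i₀)) i a := by
          ext l
          simp only [Function.comp_apply]
          by_cases hl : l = i₀
          · subst hl
            rw [Equiv.swap_apply_left, Function.update_self, Function.update_of_ne (Ne.symm hi),
              Function.update_self]
          · by_cases hl2 : l = i
            · subst hl2
              rw [Equiv.swap_apply_right, Function.update_of_ne (Ne.symm hi), Function.update_self,
                Function.update_self]
            · rw [Equiv.swap_apply_of_ne_of_ne hl hl2, Function.update_of_ne hl2,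
                Function.update_of_ne hl, Function.update_of_ne hl2, Function.update_of_ne hl]
        rw [e2, key, key, hpu] at e1
        have e3 := mul_left_cancel₀ hu0 e1
        linear_combination -e3
    have hmu : ∀ i, p i (u i₀) ≠ 0 := by
      intro i h0
      have := hrel i (u i)
      rw [hpu, h0, zero_mul] at this
      exact one_ne_zero this
    refine ⟨p i₀, ?_, ?_⟩
    · intro h0
      have := hpu i₀
      rw [h0] at this
      exact zero_ne_one this
    · intro j
      have e1 := (mul_eq_zero.1 (h3 j u)).resolve_left hu0
      set lam : L := y u * ∏ i, p i (u i₀) with hlam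
      have hlam0 : lam ≠ 0 := mul_ne_zero hu0 (Finset.prod_ne_zero_iff.2 fun i _ => hmu i)
      have e2 : ∀ w, y w = lam * ∏ i, p i₀ (w i) := by
        intro w
        rw [hyw, hlam, mul_assoc, ← Finset.prod_mul_distrib]
        congr 1
        exact Finset.prod_congr rfl fun i _ => hrel i (w i)
      have e3 : ∑ w, c j w * y w = lam * fm (c j) (p i₀) := by
        unfold fm
        rw [Finset.mul_sum]
        refine Finset.sum_congr rfl fun w _ => ?_
        rw [e2]
        ring
      rw [e3] at e1
      exact (mul_eq_zero.1 e1).resolve_left hlam0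
  · rintro ⟨x, hx, hF⟩
    obtain ⟨a, ha⟩ := Function.ne_iff.1 hx
    have ha0 : x a ≠ 0 := ha
    refine ⟨fun w => ∏ i, x (w i), ?_, ?_, ?_, ?_⟩
    · intro h0
      have := congrFun h0 (fun _ => a)
      simp only [Finset.prod_const, Pi.zero_apply] at this
      exact pow_ne_zero _ ha0 this
    · intro w w' i
      simp only []
      rw [← Finset.prod_mul_distrib, ← Finset.prod_mul_distrib]
      refine Finset.prod_congr rfl fun l _ => ?_
      by_cases hl : l = i
      · subst hl
        rw [Function.update_self, Function.update_self]
        ring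
      · rw [Function.update_of_ne hl, Function.update_of_ne hl]
    · intro v w i j
      simp only []
      congr 1
      exact (Equiv.prod_comp (Equiv.swap i j) (fun l => x (w l))).symm
    · intro j v
      have := hF j
      unfold fm at this
      simp only []
      rw [this, mul_zero]

theorem pVer : StVer := by
  intro k _ _ m r N D N' h hD c
  set E : Fin (N' + 1) ≃ (Fin D → Fin N) := (finFunctionFinEquiv.trans (finCongr h)).symm with hE
  have hsy : ∀ a b : Fin D → Fin N,
      (sy a b : Matrix _ _ (MvPolynomial (Fin m) k)).IsSymm := by
    intro a b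
    unfold sy Matrix.IsSymm
    rw [Matrix.transpose_add, Matrix.transpose_single, Matrix.transpose_single, add_comm]
  constructor
  · intro q
    have hv : ∀ j, (vq c j).IsSymm := by
      intro j
      rcases j with ⟨w, w', i⟩ | ⟨v, w, i, j⟩ | ⟨j, v⟩
      · exact (hsy _ _).sub (hsy _ _)
      · exact (hsy _ _).sub (hsy _ _)
      · unfold vq Matrix.IsSymm
        rw [Matrix.transpose_sum]
        refine Finset.sum_congr rfl fun w _ => ?_
        rw [Matrix.transpose_smul, hsy]
    exact (hv _).submatrix _
  · have main : ∀ (L : Type) [Field L] [Algebra (KT k m) L],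
        (∃ u : Fin (N' + 1) → L, u ≠ 0 ∧ ∀ A ∈ Set.range (fun i => (ver N' h c i).map
          (algebraMap (MvPolynomial (Fin m) k) (KT k m))), qm (A.map (algebraMap (KT k m) L)) u = 0)
        ↔ ∃ x : Fin N → L, x ≠ 0 ∧ ∀ j, fm (fun w => algebraMap (KT k m) L
          (algebraMap (MvPolynomial (Fin m) k) (KT k m) (c j w))) x = 0 := by
      intro L _ _
      rw [← veronese_Ver hD]
      set ψ : MvPolynomial (Fin m) k →+* L :=
        (algebraMap (KT k m) L).comp (algebraMap (MvPolynomial (Fin m) k) (KT k m)) with hψ
      have h2 : (2 : L) ≠ 0 := by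
        have h3 : ψ.comp MvPolynomial.C (2 : k) ≠ 0 :=
          (map_ne_zero (ψ.comp (MvPolynomial.C (R := k) (σ := Fin m)))).2 two_ne_zero
        rwa [map_ofNat] at h3
      have hqm : ∀ (j : VJ r N D) (u : Fin (N' + 1) → L),
          qm (((ver N' h c (Fintype.equivFin (VJ r N D) j)).map
            (algebraMap (MvPolynomial (Fin m) k) (KT k m))).map (algebraMap (KT k m) L)) u
          = vl_Ver ψ (vq c j) (u ∘ E.symm) := by
        intro j u
        unfold qm vl_Ver ver
        rw [Equiv.symm_apply_apply]
        simp only [dotProduct, Matrix.mulVec, Matrix.map_apply, Matrix.submatrix_apply,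
          Function.comp_apply]
        rw [← Equiv.sum_comp E (fun w => u (E.symm w) *
          ∑ w', ψ (vq c j w w') * u (E.symm w'))]
        refine Finset.sum_congr rfl fun a _ => ?_
        rw [Equiv.symm_apply_apply]
        congr 1
        rw [← Equiv.sum_comp E (fun w' => ψ (vq c j (E a) w') * u (E.symm w'))]
        refine Finset.sum_congr rfl fun b _ => ?_
        rw [Equiv.symm_apply_apply]
        rfl
      have hv1 : ∀ (y : (Fin D → Fin N) → L) w w' i, vl_Ver ψ (vq c (Sum.inl (w, w', i))) y
          = 2 * (y w * y w' - y (Function.update w i (w' i)) * y (Function.update w' i (w i))) := by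
        intro y w w' i
        show vl_Ver ψ (sy w w' - sy (Function.update w i (w' i)) (Function.update w' i (w i))) y = _
        rw [vl_sub_Ver, vl_sy_Ver, vl_sy_Ver]
        ring
      have hv2 : ∀ (y : (Fin D → Fin N) → L) v w i j,
          vl_Ver ψ (vq c (Sum.inr (Sum.inl (v, w, i, j)))) y
          = 2 * (y v * y w - y v * y (w ∘ Equiv.swap i j)) := by
        intro y v w i j
        show vl_Ver ψ (sy v w - sy v (w ∘ Equiv.swap i j)) y = _
        rw [vl_sub_Ver, vl_sy_Ver, vl_sy_Ver]
        ring
      have hv3 : ∀ (y : (Fin D → Fin N) → L) j v,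
          vl_Ver ψ (vq c (Sum.inr (Sum.inr (j, v)))) y
          = 2 * (y v * ∑ w, ψ (c j w) * y w) := by
        intro y j v
        show vl_Ver ψ (∑ w, c j w • sy v w) y = _
        rw [vl_sum_Ver, Finset.mul_sum, Finset.mul_sum]
        refine Finset.sum_congr rfl fun w _ => ?_
        rw [vl_smul_Ver, vl_sy_Ver]
        ring
      constructor
      · rintro ⟨u, hu, hA⟩
        have hA' : ∀ j, vl_Ver ψ (vq c j) (u ∘ E.symm) = 0 := by
          intro j
          rw [← hqm]
          exact hA _ ⟨_, rfl⟩
        refine ⟨u ∘ E.symm, ?_, ?_, ?_, ?_⟩
        · intro h0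
          apply hu
          ext a
          have := congrFun h0 (E a)
          simpa using this
        · intro w w' i
          have := hA' (Sum.inl (w, w', i))
          rw [hv1] at this
          exact sub_eq_zero.1 ((mul_eq_zero.1 this).resolve_left h2)
        · intro v w i j
          have := hA' (Sum.inr (Sum.inl (v, w, i, j)))
          rw [hv2] at this
          exact sub_eq_zero.1 ((mul_eq_zero.1 this).resolve_left h2)
        · intro j v
          have := hA' (Sum.inr (Sum.inr (j, v)))
          rw [hv3] at this
          exact (mul_eq_zero.1 this).resolve_left h2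
      · rintro ⟨y, hy, h1, h2', h3⟩
        refine ⟨y ∘ E, ?_, ?_⟩
        · intro h0
          apply hy
          ext w
          have := congrFun h0 (E.symm w)
          simpa using this
        · rintro A ⟨q, rfl⟩
          obtain ⟨j, rfl⟩ := (Fintype.equivFin (VJ r N D)).surjective q
          show qm (((ver N' h c (Fintype.equivFin (VJ r N D) j)).map
            (algebraMap (MvPolynomial (Fin m) k) (KT k m))).map (algebraMap (KT k m) L)) (y ∘ E) = 0
          rw [hqm]
          have hyE : (y ∘ E) ∘ E.symm = y := by
            ext w
            simp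
          rw [hyE]
          rcases j with ⟨w, w', i⟩ | ⟨v, w, i, j⟩ | ⟨j, v⟩
          · rw [hv1, h1 w w' i, sub_self, mul_zero]
          · rw [hv2, h2' v w i j, sub_self, mul_zero]
          · rw [hv3]
            have := h3 j v
            have e : ∑ w, ψ (c j w) * y w = ∑ w, algebraMap (KT k m) L
              (algebraMap (MvPolynomial (Fin m) k) (KT k m) (c j w)) * y w := rfl
            rw [e, this, mul_zero]
    constructor
    · rintro ⟨L, iF, iA, hodd, hu⟩
      exact ⟨L, iF, iA, hodd, (main L).1 hu⟩
    · rintro ⟨L, iF, iA, hodd, hu⟩
      exact ⟨L, iF, iA, hodd, (main L).2 hu⟩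

end Pool.Agent.Helper44.RED
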