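import Pool.Agent.Helper44.RED.StF
import Pool.Agent.Helper44.RED.M_Ver

/-!
# Project RED: Veronese embedding on the level of codes
-/

set_option autoImplicit false

namespace Pool.Agent.Helper44.RED

section digits

variable {N D : ℕ}

private lemma dig_VerC (w : Fin D → Fin N) (i : Fin D) :
    dig N ((finFunctionFinEquiv w : Fin (N ^ D)) : ℕ) i = w i := by
  have h := congrFun (finFunctionFinEquiv.symm_apply_apply w) i
  have h2 := congrArg Fin.val h
  rw [← h2]
  rfl

private lemma upd_VerC (w : Fin D → Fin N) (i : Fin D) (d : Fin N) :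
    upd N ((finFunctionFinEquiv w : Fin (N ^ D)) : ℕ) i d =
      ((finFunctionFinEquiv (Function.update w i d) : Fin (N ^ D)) : ℕ) := by
  unfold upd
  rw [dig_VerC, finFunctionFinEquiv_apply, finFunctionFinEquiv_apply]
  have h1 : ∀ v : Fin D → Fin N, ∑ l, (v l : ℕ) * N ^ (l : ℕ) =
      (v i : ℕ) * N ^ (i : ℕ) + ∑ l ∈ Finset.univ.erase i, (v l : ℕ) * N ^ (l : ℕ) := by
    intro v
    exact (Finset.add_sum_erase _ _ (Finset.mem_univ i)).symm
  rw [h1 w, h1 (Function.update w i d), Function.update_self]
  have h2 : ∑ l ∈ Finset.univ.erase i, (Function.update w i d l : ℕ) * N ^ (l : ℕ) =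
      ∑ l ∈ Finset.univ.erase i, (w l : ℕ) * N ^ (l : ℕ) := by
    refine Finset.sum_congr rfl fun l hl => ?_
    rw [Function.update_of_ne (Finset.ne_of_mem_erase hl)]
  rw [h2, Nat.add_sub_cancel_left, add_comm]

private lemma swp_VerC (w : Fin D → Fin N) (i j : Fin D) :
    swp N ((finFunctionFinEquiv w : Fin (N ^ D)) : ℕ) i j =
      ((finFunctionFinEquiv (w ∘ Equiv.swap i j) : Fin (N ^ D)) : ℕ) := by
  unfold swp
  rw [dig_VerC, dig_VerC, upd_VerC, upd_VerC, Equiv.swap_comm, Equiv.comp_swap_eq_update]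

end digits

section sums

variable {L : Type} [Field L] {S : ℕ}

private lemma sum_if_VerC (u : Fin S → L) (a d : ℕ) (ha : a < S) (hd : d < S) (κ : L) :
    ∑ r : Fin S, ∑ c : Fin S, (if (r.1 == a && c.1 == d) = true then κ else 0) * (u r * u c) =
      κ * (u ⟨a, ha⟩ * u ⟨d, hd⟩) := by
  rw [Finset.sum_eq_single ⟨a, ha⟩]
  · rw [Finset.sum_eq_single ⟨d, hd⟩]
    · simp
    · intro c _ hc
      have : ¬ (c.1 = d) := fun h => hc (Fin.ext h)
      simp [this]
    · intro h; exact absurd (Finset.mem_univ _) h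
  · intro r _ hr
    have : ¬ (r.1 = a) := fun h => hr (Fin.ext h)
    refine Finset.sum_eq_zero fun c _ => ?_
    simp [this]
  · intro h; exact absurd (Finset.mem_univ _) h

private lemma sum_if1_VerC (u : Fin S → L) (a : ℕ) (ha : a < S) (κ : ℕ → L) :
    ∑ r : Fin S, ∑ c : Fin S, (if (r.1 == a) = true then κ c.1 else 0) * (u r * u c) =
      u ⟨a, ha⟩ * ∑ c : Fin S, κ c.1 * u c := by
  rw [Finset.sum_eq_single ⟨a, ha⟩]
  · rw [Finset.mul_sum]
    refine Finset.sum_congr rfl fun c _ => ?_
    simp only [beq_self_eq_true, if_true]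
    ring
  · intro r _ hr
    have : ¬ (r.1 = a) := fun h => hr (Fin.ext h)
    refine Finset.sum_eq_zero fun c _ => ?_
    simp [this]
  · intro h; exact absurd (Finset.mem_univ _) h

end sums

section val

variable {L : Type} [Field L]

/-- half of the value of the quadratic form number `q` -/
private def vv_VerC (A : Sys) (x : ℕ → L) (q : ℕ) (u : Fin (nS A) → L) : L :=
  ∑ r : Fin (nS A), ∑ c : Fin (nS A), ev (qe A q r c) x * (u r * u c)

private lemma qm_VerC (A : Sys) (x : ℕ → L) (q : ℕ) (u : Fin (nS A) → L) :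
    qm (qmat A x q) u = 2 * vv_VerC A x q u := by
  unfold qm qmat vv_VerC
  have h1 : ∀ r : Fin (nS A), u r * ∑ c : Fin (nS A), ev (qe A q r c ++ qe A q c r) x * u c =
      ∑ c : Fin (nS A), (ev (qe A q r c) x * (u r * u c) + ev (qe A q c r) x * (u c * u r)) := by
    intro r
    rw [Finset.mul_sum]
    refine Finset.sum_congr rfl fun c _ => ?_
    rw [ev_append]
    ring
  have h2 : ∑ r : Fin (nS A), ∑ c : Fin (nS A), ev (qe A q c r) x * (u c * u r) =
      ∑ r : Fin (nS A), ∑ c : Fin (nS A), ev (qe A q r c) x * (u r * u c) := Finset.sum_comm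
  show ∑ r : Fin (nS A), u r * ∑ c : Fin (nS A), ev (qe A q r c ++ qe A q c r) x * u c = _
  rw [Finset.sum_congr rfl fun r _ => h1 r]
  simp only [Finset.sum_add_distrib]
  rw [h2]
  ring

private lemma v1_VerC (A : Sys) (x : ℕ → L) (q : ℕ) (u : Fin (nS A) → L) (hq : q < nP1 A)
    (a d a' d' : Fin (nS A)) (ha : q % nS A = a.1) (hd : q / nS A % nS A = d.1)
    (ha' : upd (A.2.1 + 1) (q % nS A) (q / nS A / nS A)
      (dig (A.2.1 + 1) (q / nS A % nS A) (q / nS A / nS A)) = a'.1)
    (hd' : upd (A.2.1 + 1) (q / nS A % nS A) (q / nS A / nS A)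
      (dig (A.2.1 + 1) (q % nS A) (q / nS A / nS A)) = d'.1) :
    vv_VerC A x q u = u a * u d - u a' * u d' := by
  have h : ∀ r c : Fin (nS A), ev (qe A q r c) x * (u r * u c) =
      (if (r.1 == a.1 && c.1 == d.1) = true then (1 : L) else 0) * (u r * u c) +
      (if (r.1 == a'.1 && c.1 == d'.1) = true then (-1 : L) else 0) * (u r * u c) := by
    intro r c
    unfold qe
    rw [if_pos hq, ev_append, ev_pif, ev_pif, ev_pint, ev_pint, ha', hd', ha, hd]
    push_cast
    ring
  unfold vv_VerC
  simp only [h, Finset.sum_add_distrib]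
  rw [sum_if_VerC u a.1 d.1 a.2 d.2, sum_if_VerC u a'.1 d'.1 a'.2 d'.2]
  ring

private lemma v2_VerC (A : Sys) (x : ℕ → L) (q : ℕ) (u : Fin (nS A) → L) (hq : q < nP2 A)
    (v w w' : Fin (nS A)) (hv : q % nS A = v.1) (hw : q / nS A % nS A = w.1)
    (hw' : swp (A.2.1 + 1) (q / nS A % nS A)
        (q / nS A / nS A % (A.2.2.1 + 1)) (q / nS A / nS A / (A.2.2.1 + 1)) = w'.1) :
    vv_VerC A x (nP1 A + q) u = u v * u w - u v * u w' := by
  have h : ∀ r c : Fin (nS A), ev (qe A (nP1 A + q) r c) x * (u r * u c) =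
      (if (r.1 == v.1 && c.1 == w.1) = true then (1 : L) else 0) * (u r * u c) +
      (if (r.1 == v.1 && c.1 == w'.1) = true then (-1 : L) else 0) * (u r * u c) := by
    intro r c
    unfold qe
    rw [if_neg (by omega), if_pos (by omega), ev_append, ev_pif, ev_pif, ev_pint, ev_pint,
      Nat.add_sub_cancel_left, hw', hv, hw]
    push_cast
    ring
  unfold vv_VerC
  simp only [h, Finset.sum_add_distrib]
  rw [sum_if_VerC u v.1 w.1 v.2 w.2, sum_if_VerC u v.1 w'.1 v.2 w'.2]
  ring

private lemma v3_VerC (A : Sys) (x : ℕ → L) (q : ℕ) (u : Fin (nS A) → L)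
    (v : Fin (nS A)) (hv : q % nS A = v.1) :
    vv_VerC A x (nP1 A + nP2 A + q) u =
      u v * ∑ c : Fin (nS A), ev (ptr A.1 ((A.2.2.2.getD (q / nS A) []).getD c [])) x * u c := by
  have h : ∀ r c : Fin (nS A), ev (qe A (nP1 A + nP2 A + q) r c) x * (u r * u c) =
      (if (r.1 == v.1) = true then
        ev (ptr A.1 ((A.2.2.2.getD (q / nS A) []).getD c.1 [])) x else 0) * (u r * u c) := by
    intro r c
    unfold qe
    have e : nP1 A + nP2 A + q - nP1 A - nP2 A = q := by omega
    rw [if_neg (by omega), if_neg (by omega), ev_pif, e, hv]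
  unfold vv_VerC
  simp only [h]
  rw [sum_if1_VerC u v.1 v.2
    (fun c => ev (ptr A.1 ((A.2.2.2.getD (q / nS A) []).getD c [])) x)]

end val

theorem pVerC : StVerC := by
  intro hPtr k _ _ A
  have hSpos : 0 < nS A := by unfold nS; positivity
  let E : (Fin (A.2.2.1 + 1) → Fin (A.2.1 + 1)) ≃ Fin (nS A) := finFunctionFinEquiv
  have hdig : ∀ (w : Fin (A.2.2.1 + 1) → Fin (A.2.1 + 1)) i, dig (A.2.1 + 1) (E w).1 i.1 = w i :=
    fun w i => dig_VerC w i
  have hupd : ∀ (w : Fin (A.2.2.1 + 1) → Fin (A.2.1 + 1)) i d,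
      upd (A.2.1 + 1) (E w).1 i.1 d.1 = (E (Function.update w i d)).1 := fun w i d => upd_VerC w i d
  have hswp : ∀ (w : Fin (A.2.2.1 + 1) → Fin (A.2.1 + 1)) (i j : Fin (A.2.2.1 + 1)),
      swp (A.2.1 + 1) (E w).1 i.1 j.1 = (E (w ∘ Equiv.swap i j)).1 := fun w i j => swp_VerC w i j
  have main : ∀ (L : Type) [Field L] [Algebra (KT k A.1) L],
      (∃ u : Fin (nS A) → L, u ≠ 0 ∧ ∀ M ∈ Set.range (fun q : Fin (nP A) =>
        qmat A (tvn k A.1) q.1), qm (M.map (algebraMap (KT k A.1) L)) u = 0)
      ↔ ∃ x : ℕ → L, (∃ i ≤ A.2.1, x i ≠ 0) ∧ ∀ f ∈ A.2.2.2,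
      ∑ q ∈ Finset.range ((A.2.1 + 1) ^ (A.2.2.1 + 1)),
        algebraMap (KT k A.1) L (ev (f.getD q []) (tvn k A.1)) *
          ∏ i ∈ Finset.range (A.2.2.1 + 1), x (dig (A.2.1 + 1) q i) = 0 := by
    intro L _ _
    have h2 : (2 : L) ≠ 0 := by
      have h3 : (algebraMap (KT k A.1) L) ((algebraMap (MvPolynomial (Fin A.1) k) (KT k A.1))
          (MvPolynomial.C 2)) ≠ 0 := by
        rw [Ne, map_eq_zero, map_eq_zero_iff _ (IsFractionRing.injective _ _), map_eq_zero_iff _
          (MvPolynomial.C_injective _ _)]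
        exact two_ne_zero
      rwa [map_ofNat, map_ofNat, map_ofNat] at h3
    set ψ := algebraMap (KT k A.1) L with hψ
    set X : ℕ → L := fun j => ψ (tvn k A.1 j) with hX
    have hmap : ∀ q : ℕ, (qmat A (tvn k A.1) q).map ψ = qmat A X q := by
      intro q
      ext r c
      show ψ (ev _ _) = ev _ _
      rw [map_ev]
    have htr : ∀ P : PC, ev (ptr A.1 P) X = ψ (ev P (tvn k A.1)) := by
      intro P
      rw [hPtr, map_ev]
      congr 1
      funext j
      by_cases hj : j < A.1
      · rw [if_pos hj]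
      · rw [if_neg hj]
        simp only [tvn, dif_neg hj, map_zero]
    set cf : Fin A.2.2.2.length → (Fin (A.2.2.1 + 1) → Fin (A.2.1 + 1)) → L :=
      fun j w => ψ (ev ((A.2.2.2.get j).getD (E w).1 []) (tvn k A.1)) with hcf
    have hver := veronese_Ver (L := L) (r := A.2.2.2.length) (N := A.2.1 + 1)
      (D := A.2.2.1 + 1) (by omega) cf
    have hleft : (∃ u : Fin (nS A) → L, u ≠ 0 ∧ ∀ M ∈ Set.range (fun q : Fin (nP A) =>
        qmat A (tvn k A.1) q.1), qm (M.map ψ) u = 0) ↔
        ∃ y : (Fin (A.2.2.1 + 1) → Fin (A.2.1 + 1)) → L, y ≠ 0 ∧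
      (∀ w w' i, y w * y w' = y (Function.update w i (w' i)) * y (Function.update w' i (w i))) ∧
      (∀ v w i j, y v * y w = y v * y (w ∘ Equiv.swap i j)) ∧
      (∀ j v, y v * ∑ w, cf j w * y w = 0) := by
      constructor
      · rintro ⟨u, hu, hA⟩
        have hA' : ∀ q < nP A, vv_VerC A X q u = 0 := by
          intro q hq
          have h := hA _ ⟨⟨q, hq⟩, rfl⟩
          rw [hmap, qm_VerC] at h
          exact (mul_eq_zero.1 h).resolve_left h2
        refine ⟨fun w => u (E w), ?_, ?_, ?_, ?_⟩
        · intro h0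
          apply hu
          funext a
          have := congrFun h0 (E.symm a)
          simpa using this
        · intro w w' i
          set q := (E w).1 + nS A * ((E w').1 + nS A * i.1) with hq
          have e1 : q % nS A = (E w).1 := by
            rw [hq, Nat.add_mul_mod_self_left, Nat.mod_eq_of_lt (E w).2]
          have e2 : q / nS A = (E w').1 + nS A * i.1 := by
            rw [hq, Nat.add_mul_div_left _ _ hSpos, Nat.div_eq_of_lt (E w).2, zero_add]
          have e3 : q / nS A % nS A = (E w').1 := by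
            rw [e2, Nat.add_mul_mod_self_left, Nat.mod_eq_of_lt (E w').2]
          have e4 : q / nS A / nS A = i.1 := by
            rw [e2, Nat.add_mul_div_left _ _ hSpos, Nat.div_eq_of_lt (E w').2, zero_add]
          have hqlt : q < nP1 A := by
            unfold nP1
            have h1 := (E w).2
            have h2 := (E w').2
            have h3 := i.2
            calc q < nS A + nS A * ((E w').1 + nS A * i.1) := by rw [hq]; omega
              _ = nS A * ((E w').1 + 1 + nS A * i.1) := by ring
              _ ≤ nS A * (nS A + nS A * i.1) := Nat.mul_le_mul_left _ (by omega)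
              _ = nS A * nS A * (i.1 + 1) := by ring
              _ ≤ nS A * nS A * (A.2.2.1 + 1) := Nat.mul_le_mul_left _ (by omega)
          have h := hA' q (by unfold nP; omega)
          rw [v1_VerC A X q u hqlt (E w) (E w') (E (Function.update w i (w' i)))
            (E (Function.update w' i (w i))) e1 e3
            (by rw [e1, e3, e4, hdig, hupd]) (by rw [e1, e3, e4, hdig, hupd])] at h
          exact sub_eq_zero.1 h
        · intro v w i j
          set q := (E v).1 + nS A * ((E w).1 + nS A * (i.1 + (A.2.2.1 + 1) * j.1)) with hq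
          have e1 : q % nS A = (E v).1 := by
            rw [hq, Nat.add_mul_mod_self_left, Nat.mod_eq_of_lt (E v).2]
          have e2 : q / nS A = (E w).1 + nS A * (i.1 + (A.2.2.1 + 1) * j.1) := by
            rw [hq, Nat.add_mul_div_left _ _ hSpos, Nat.div_eq_of_lt (E v).2, zero_add]
          have e3 : q / nS A % nS A = (E w).1 := by
            rw [e2, Nat.add_mul_mod_self_left, Nat.mod_eq_of_lt (E w).2]
          have e4 : q / nS A / nS A = i.1 + (A.2.2.1 + 1) * j.1 := by
            rw [e2, Nat.add_mul_div_left _ _ hSpos, Nat.div_eq_of_lt (E w).2, zero_add]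
          have e5 : q / nS A / nS A % (A.2.2.1 + 1) = i.1 := by
            rw [e4, Nat.add_mul_mod_self_left, Nat.mod_eq_of_lt i.2]
          have e6 : q / nS A / nS A / (A.2.2.1 + 1) = j.1 := by
            rw [e4, Nat.add_mul_div_left _ _ (by omega), Nat.div_eq_of_lt i.2, zero_add]
          have hqlt : q < nP2 A := by
            unfold nP2
            have h1 := (E v).2
            have h2 := (E w).2
            have h3 := i.2
            have h4 := j.2
            calc q < nS A + nS A * ((E w).1 + nS A * (i.1 + (A.2.2.1 + 1) * j.1)) := by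
                  rw [hq]; omega
              _ = nS A * ((E w).1 + 1 + nS A * (i.1 + (A.2.2.1 + 1) * j.1)) := by ring
              _ ≤ nS A * (nS A + nS A * (i.1 + (A.2.2.1 + 1) * j.1)) :=
                  Nat.mul_le_mul_left _ (by omega)
              _ = nS A * nS A * (i.1 + 1 + (A.2.2.1 + 1) * j.1) := by ring
              _ ≤ nS A * nS A * (A.2.2.1 + 1 + (A.2.2.1 + 1) * j.1) :=
                  Nat.mul_le_mul_left _ (by omega)
              _ = nS A * nS A * (A.2.2.1 + 1) * (j.1 + 1) := by ring
              _ ≤ nS A * nS A * (A.2.2.1 + 1) * (A.2.2.1 + 1) := Nat.mul_le_mul_left _ (by omega)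
          have h := hA' (nP1 A + q) (by unfold nP; omega)
          rw [v2_VerC A X q u hqlt (E v) (E w) (E (w ∘ Equiv.swap i j)) e1 e3
            (by rw [e3, e5, e6, hswp])] at h
          exact sub_eq_zero.1 h
        · intro j v
          set q := (E v).1 + nS A * j.1 with hq
          have e1 : q % nS A = (E v).1 := by
            rw [hq, Nat.add_mul_mod_self_left, Nat.mod_eq_of_lt (E v).2]
          have e2 : q / nS A = j.1 := by
            rw [hq, Nat.add_mul_div_left _ _ hSpos, Nat.div_eq_of_lt (E v).2, zero_add]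
          have hqlt : q < A.2.2.2.length * nS A := by
            have h1 := (E v).2
            have h2 := j.2
            calc q < nS A + nS A * j.1 := by rw [hq]; omega
              _ = (j.1 + 1) * nS A := by ring
              _ ≤ A.2.2.2.length * nS A := Nat.mul_le_mul_right _ (by omega)
          have h := hA' (nP1 A + nP2 A + q) (by unfold nP; omega)
          rw [v3_VerC A X q u (E v) e1, e2] at h
          have e3 : ∑ c : Fin (nS A), ev (ptr A.1 ((A.2.2.2.getD j.1 []).getD c [])) X * u c =
              ∑ w, cf j w * u (E w) := by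
            rw [← Equiv.sum_comp E]
            refine Finset.sum_congr rfl fun w _ => ?_
            rw [htr, List.getD_eq_getElem _ _ j.2]
            rfl
          rw [e3] at h
          exact h
      · rintro ⟨y, hy, h1, h2', h3⟩
        refine ⟨fun a => y (E.symm a), ?_, ?_⟩
        · intro h0
          apply hy
          funext w
          have := congrFun h0 (E w)
          simpa using this
        · rintro M ⟨⟨q, hq⟩, rfl⟩
          show qm ((qmat A (tvn k A.1) q).map ψ) _ = 0
          rw [hmap, qm_VerC]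
          suffices hs : vv_VerC A X q (fun a => y (E.symm a)) = 0 by rw [hs, mul_zero]
          have hEq : ∀ (a : Fin (nS A)), ∃ w, E w = a := fun a => ⟨E.symm a, E.apply_symm_apply a⟩
          by_cases hq1 : q < nP1 A
          · obtain ⟨w, hw⟩ := hEq ⟨q % nS A, Nat.mod_lt _ hSpos⟩
            obtain ⟨w', hw'⟩ := hEq ⟨q / nS A % nS A, Nat.mod_lt _ hSpos⟩
            have hi : q / nS A / nS A < A.2.2.1 + 1 := by
              rw [Nat.div_div_eq_div_mul]
              exact Nat.div_lt_of_lt_mul hq1
            have e1 : q % nS A = (E w).1 := by rw [hw]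
            have e3 : q / nS A % nS A = (E w').1 := by rw [hw']
            set i : Fin (A.2.2.1 + 1) := ⟨q / nS A / nS A, hi⟩ with hidef
            have e4 : q / nS A / nS A = i.1 := rfl
            rw [v1_VerC A X q _ hq1 (E w) (E w') (E (Function.update w i (w' i)))
              (E (Function.update w' i (w i))) e1 e3
              (by rw [e1, e3, e4, hdig, hupd]) (by rw [e1, e3, e4, hdig, hupd])]
            simp only [Equiv.symm_apply_apply]
            rw [h1 w w' i, sub_self]
          · by_cases hq2 : q < nP1 A + nP2 A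
            · obtain ⟨q', rfl⟩ : ∃ q', q = nP1 A + q' := ⟨q - nP1 A, by omega⟩
              have hq2' : q' < nP2 A := by omega
              obtain ⟨v, hv⟩ := hEq ⟨q' % nS A, Nat.mod_lt _ hSpos⟩
              obtain ⟨w, hw⟩ := hEq ⟨q' / nS A % nS A, Nat.mod_lt _ hSpos⟩
              have hj : q' / nS A / nS A / (A.2.2.1 + 1) < A.2.2.1 + 1 := by
                have e0 : nP2 A = nS A * nS A * (A.2.2.1 + 1) * (A.2.2.1 + 1) := rfl
                rw [e0] at hq2'
                rw [Nat.div_div_eq_div_mul, Nat.div_div_eq_div_mul, ← mul_assoc]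
                exact Nat.div_lt_of_lt_mul hq2'
              have hi : q' / nS A / nS A % (A.2.2.1 + 1) < A.2.2.1 + 1 := Nat.mod_lt _ (by omega)
              have e1 : q' % nS A = (E v).1 := by rw [hv]
              have e3 : q' / nS A % nS A = (E w).1 := by rw [hw]
              set i : Fin (A.2.2.1 + 1) := ⟨_, hi⟩ with hidef
              set j : Fin (A.2.2.1 + 1) := ⟨_, hj⟩ with hjdef
              have e5 : q' / nS A / nS A % (A.2.2.1 + 1) = i.1 := rfl
              have e6 : q' / nS A / nS A / (A.2.2.1 + 1) = j.1 := rfl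
              rw [v2_VerC A X q' _ hq2' (E v) (E w) (E (w ∘ Equiv.swap i j)) e1 e3
                (by rw [e3, e5, e6, hswp])]
              simp only [Equiv.symm_apply_apply]
              rw [h2' v w i j, sub_self]
            · obtain ⟨q', rfl⟩ : ∃ q', q = nP1 A + nP2 A + q' := ⟨q - nP1 A - nP2 A, by omega⟩
              have hq3 : q' < A.2.2.2.length * nS A := by unfold nP at hq; omega
              obtain ⟨v, hv⟩ := hEq ⟨q' % nS A, Nat.mod_lt _ hSpos⟩
              have e1 : q' % nS A = (E v).1 := by rw [hv]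
              have hj : q' / nS A < A.2.2.2.length := Nat.div_lt_of_lt_mul (by
                rw [mul_comm]; exact hq3)
              rw [v3_VerC A X q' _ (E v) e1]
              have e3 : ∑ c : Fin (nS A), ev (ptr A.1 ((A.2.2.2.getD (q' / nS A) []).getD c [])) X *
                  y (E.symm c) = ∑ w, cf ⟨q' / nS A, hj⟩ w * y w := by
                rw [← Equiv.sum_comp E]
                refine Finset.sum_congr rfl fun w _ => ?_
                rw [htr, List.getD_eq_getElem _ _ hj, Equiv.symm_apply_apply]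
                rfl
              rw [e3, Equiv.symm_apply_apply]
              exact h3 _ v
    rw [hleft, hver]
    -- points
    have hsum : ∀ (x : ℕ → L) (j : Fin A.2.2.2.length),
        ∑ q ∈ Finset.range ((A.2.1 + 1) ^ (A.2.2.1 + 1)),
          ψ (ev ((A.2.2.2.get j).getD q []) (tvn k A.1)) *
          ∏ i ∈ Finset.range (A.2.2.1 + 1), x (dig (A.2.1 + 1) q i) =
        fm (cf j) (fun a => x a.1) := by
      intro x j
      unfold fm
      rw [Finset.sum_range]
      refine (Equiv.sum_comp E (fun a : Fin (nS A) =>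
        ψ (ev ((A.2.2.2.get j).getD a.1 []) (tvn k A.1)) *
          ∏ i ∈ Finset.range (A.2.2.1 + 1), x (dig (A.2.1 + 1) a.1 i))).symm.trans ?_
      refine Finset.sum_congr rfl fun w _ => ?_
      rw [Finset.prod_range]
      congr 1
      refine Finset.prod_congr rfl fun i _ => ?_
      rw [hdig]
    constructor
    · rintro ⟨x, hx, hF⟩
      obtain ⟨a, ha⟩ := Function.ne_iff.1 hx
      have hxx : (fun a : Fin (A.2.1 + 1) =>
          (fun i : ℕ => if h : i < A.2.1 + 1 then x ⟨i, h⟩ else 0) a.1) = x := by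
        funext a
        simp only [a.2, dif_pos]
      refine ⟨fun i => if h : i < A.2.1 + 1 then x ⟨i, h⟩ else 0, ⟨a.1, by omega, ?_⟩, ?_⟩
      · exact fun h => ha ((congrFun hxx a).symm.trans h)
      · intro f hf
        obtain ⟨j, hj⟩ := List.mem_iff_get.1 hf
        rw [← hj]
        refine (hsum (fun i => if h : i < A.2.1 + 1 then x ⟨i, h⟩ else 0) j).trans ?_
        rw [hxx]
        exact hF j
    · rintro ⟨x, ⟨i, hi, hxi⟩, hF⟩
      refine ⟨fun a => x a.1, ?_, ?_⟩
      · intro h0
        apply hxi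
        have := congrFun h0 ⟨i, by omega⟩
        exact this
      · intro j
        exact (hsum x j).symm.trans (hF _ (List.get_mem _ j))
  constructor
  · rintro ⟨L, iF, iA, hodd, hu⟩
    exact ⟨L, iF, iA, hodd, (main L).1 hu⟩
  · rintro ⟨L, iF, iA, hodd, hu⟩
    exact ⟨L, iF, iA, hodd, (main L).2 hu⟩

end Pool.Agent.Helper44.RED
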