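import Pool.Agent.Helper44.RED.All
import Pool.Agent.Helper44.RED.M_CPtr
import Pool.Agent.Helper44.RED.M_CDet
import Pool.Agent.Helper44.RED.M_CZero
import Pool.Agent.Helper44.RED.M_CHom
import Pool.Agent.Helper44.RED.M_HomD
import Pool.Agent.Helper44.RED.M_VerC
import Pool.Agent.Helper44.RED.M_Gen
import Pool.Agent.Helper44.RED.M_SigX
import Pool.Agent.Helper44.RED.M_Iso
import Pool.Agent.Helper44.RED.M_Trans
import Pool.Agent.Helper44.RED.M_FinC
import Pool.Agent.Helper44.RED.M_PL1
import Pool.Agent.Helper44.RED.M_PL2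
import Pool.Agent.Helper44.RED.M_PQ
import Pool.Agent.Helper44.RED.M_PG
import Pool.Agent.Helper44.RED.M_PR

/-!
# Project RED: assembly of part 2
-/

set_option autoImplicit false

namespace Pool.Agent.Helper44.RED

theorem aFinC : StFinC := pFinC pCPtr pCDet pCZero pCHom (pHomD aPT) pVerC pGen pSigX pIso pTrans
  aFin1 aAB aPencil aLead aMinors aPT

theorem primrec_redu : Primrec redu := pPR pPL1 pPL2 pPQ pPG

end Pool.Agent.Helper44.RED
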