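import Pool.Agent.Helper44.RED.StD

/-!
# Project RED, computability part: codes of polynomials and the reduction as an executable function
-/

set_option autoImplicit false

namespace Pool.Agent.Helper44.RED

/-- code of a polynomial with integer coefficients in the variables `X_0, X_1, …`: a list of pairs
(coefficient, list of exponents) -/
abbrev PC : Type := List (ℤ × List ℕ)

/-- value of the polynomial with code `P` at `x` -/
def ev {R : Type} [CommRing R] (P : PC) (x : ℕ → R) : R :=
  (P.map fun a => (a.1 : R) * ∏ i ∈ Finset.range a.2.length, x i ^ a.2.getD i 0).sum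

/-- sum of exponent lists -/
def monE (e f : List ℕ) : List ℕ :=
  (List.range (max e.length f.length)).map fun i => e.getD i 0 + f.getD i 0

/-- product -/
def pmul (P Q : PC) : PC := P.flatMap fun a => Q.map fun b => (a.1 * b.1, monE a.2 b.2)

/-- negative -/
def pneg (P : PC) : PC := P.map fun a => (-a.1, a.2)

/-- integer constant -/
def pint (z : ℤ) : PC := [(z, [])]

/-- variable -/
def pvar (i : ℕ) : PC := [(1, List.replicate i 0 ++ [1])]

/-- sum of `f 0, …, f (n-1)` -/
def psum (n : ℕ) (f : ℕ → PC) : PC := (List.range n).flatMap f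

/-- product of `f 0, …, f (n-1)` -/
def pprod (n : ℕ) (f : ℕ → PC) : PC := (List.range n).foldl (fun acc i => pmul acc (f i)) (pint 1)

/-- power -/
def ppow (P : PC) (n : ℕ) : PC := pprod n fun _ => P

/-- substitution -/
def psubst (P : PC) (x : ℕ → PC) : PC :=
  P.flatMap fun a => pmul (pint a.1) (pprod a.2.length fun i => ppow (x i) (a.2.getD i 0))

/-- degree bound -/
def pdeg (P : PC) : ℕ := (P.map fun a => a.2.sum).foldl max 0

/-- same exponents -/
def sameE (e f : List ℕ) : Bool :=
  (List.range (max e.length f.length)).all fun i => e.getD i 0 == f.getD i 0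

/-- test for the zero polynomial -/
def pzero (P : PC) : Bool :=
  P.all fun a => ((P.map fun b => if sameE a.2 b.2 then b.1 else 0).sum == 0)

/-- digit number `i` of `q` in base `b` -/
def dig (b q i : ℕ) : ℕ := q / b ^ i % b

/-- sign of the function `i ↦ dig n q i` (`0` if it is not injective) -/
def sgw (n q : ℕ) : ℤ :=
  ((List.range n).map fun i => ((List.range i).map fun j =>
    ((dig n q i : ℤ) - (dig n q j : ℤ)).sign).prod).prod

/-- determinant of the `n × n` matrix `f` -/
def pdet (n : ℕ) (f : ℕ → ℕ → PC) : PC :=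
  psum (n ^ n) fun q => pmul (pint (sgw n q)) (pprod n fun i => f (dig n q i) i)

/-- homogenisation in degree `2 D`, new variable in front -/
def phom (D : ℕ) (P : PC) : PC := P.map fun a => (a.1, (2 * D - a.2.sum) :: a.2)

/-- set the variables with number `≥ m` to zero -/
def ptr (m : ℕ) (P : PC) : PC := P.filter fun a => (a.2.drop m).sum == 0

/-! ## inputs: systems of forms -/

/-- a system of homogeneous forms of degree `D + 1` in `N + 1` variables over `ℤ[t_0, …, t_{m-1}]`:
`(m, N, D, F)`, `F` a list of forms; a form is the list of its coefficients, the coefficient number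
`q < (N+1)^(D+1)` belongs to the product of the `x_{dig (N+1) q i}`, `i ≤ D` -/
abbrev Sys : Type := ℕ × ℕ × ℕ × List (List PC)

/-- replace digit `i` of `q` by `d` -/
def upd (b q i d : ℕ) : ℕ := q - dig b q i * b ^ i + d * b ^ i

/-- exchange digits `i` and `j` of `q` -/
def swp (b q i j : ℕ) : ℕ := upd b (upd b q i (dig b q j)) j (dig b q i)

/-- number of coordinates `y_w` -/
def nS (A : Sys) : ℕ := (A.2.1 + 1) ^ (A.2.2.1 + 1)

/-- number of quadratic equations of the first two kinds -/
def nP1 (A : Sys) : ℕ := nS A * nS A * (A.2.2.1 + 1)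

/-- number of quadratic equations of the second kind -/
def nP2 (A : Sys) : ℕ := nS A * nS A * (A.2.2.1 + 1) * (A.2.2.1 + 1)

/-- number of quadratic equations -/
def nP (A : Sys) : ℕ := nP1 A + nP2 A + A.2.2.2.length * nS A

/-- `P` if `c`, else zero -/
def pif (c : Bool) (P : PC) : PC := if c then P else []

/-- coefficient of `y_r y_c` in the quadratic equation number `q` -/
def qe (A : Sys) (q r c : ℕ) : PC :=
  if q < nP1 A then
    pif (r == q % nS A && c == q / nS A % nS A) (pint 1) ++
    pif (r == upd (A.2.1 + 1) (q % nS A) (q / nS A / nS A)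
          (dig (A.2.1 + 1) (q / nS A % nS A) (q / nS A / nS A)) &&
        c == upd (A.2.1 + 1) (q / nS A % nS A) (q / nS A / nS A)
          (dig (A.2.1 + 1) (q % nS A) (q / nS A / nS A))) (pint (-1))
  else if q < nP1 A + nP2 A then
    pif (r == (q - nP1 A) % nS A && c == (q - nP1 A) / nS A % nS A) (pint 1) ++
    pif (r == (q - nP1 A) % nS A && c == swp (A.2.1 + 1) ((q - nP1 A) / nS A % nS A)
        ((q - nP1 A) / nS A / nS A % (A.2.2.1 + 1)) ((q - nP1 A) / nS A / nS A / (A.2.2.1 + 1)))
      (pint (-1))
  else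
    pif (r == (q - nP1 A - nP2 A) % nS A)
      (ptr A.1 ((A.2.2.2.getD ((q - nP1 A - nP2 A) / nS A) []).getD c []))

/-! ## the generic quadratic form -/

/-- entry of the matrix `πᵀ (Σ λ_q A_q) π`; variables `t_j` (number `j < m`), `λ_q` (number `m + q`),
`π_{ij}` (number `m + p + i S + j`) -/
def Gg (A : Sys) (r c : ℕ) : PC :=
  psum (nS A) fun a => psum (nS A) fun d =>
    pmul (pmul (pvar (A.1 + nP A + a * nS A + r)) (pvar (A.1 + nP A + d * nS A + c)))
      (psum (nP A) fun q => pmul (pvar (A.1 + q)) (qe A q a d ++ qe A q d a))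

/-- leading principal minor -/
def dd (A : Sys) (l : ℕ) : PC := pdet l (Gg A)

/-- coefficients of the diagonal form -/
def cc (A : Sys) (l : ℕ) : PC := pmul (dd A 1) (pmul (dd A (l + 1)) (dd A (l + 2)))

/-- number of variables of the coefficients `cc` -/
def nT (A : Sys) : ℕ := A.1 + nP A + nS A * nS A

/-- number of slots -/
def nn (A : Sys) : ℕ := nS A + 3

/-- length of the padded form -/
def ns (A : Sys) : ℕ := 2 ^ (nS A + 2)

/-- number of the additional variables -/
def ne (A : Sys) : ℕ := ns A - (nS A - 1)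

/-- number of the variables `τ` -/
def nt (A : Sys) : ℕ := nT A + 1 + ne A

/-- padded coefficients `b_l` -/
def bb (A : Sys) (l : ℕ) : PC :=
  if l < nS A - 1 then phom (pdeg (cc A l)) (cc A l)
  else pmul (pvar 0) (pvar (nT A + 1 + (l - (nS A - 1))))

/-- sum of the degrees of the `b_l` -/
def ndeg (A : Sys) : ℕ :=
  ((List.range (nS A - 1)).map fun l => 2 * pdeg (cc A l)).sum + 2 * ne A

/-- number of translates -/
def nM (A : Sys) : ℕ := ndeg A * nt A * (ndeg A + 1) ^ nt A + 1

/-- entry `(i, j)` of `σ_k` -/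
def sgm (A : Sys) (k i j : ℕ) : ℕ := (nM A + 2 + k) ^ ((ndeg A + 1) ^ i * (j + 1))

/-! ## the equations of the variety (with explicit parameters) -/

/-- `b_l (σ_k τ)` -/
def bsg (t : ℕ) (b : ℕ → PC) (sg : ℕ → ℕ → ℕ → ℕ) (k l : ℕ) : PC :=
  psubst (b l) fun i => psum t fun j => pmul (pint (sg k i j)) (pvar j)

/-- coefficient number `u` of the Pfister form (`u` codes a subset of the slots) -/
def pfg (t n u : ℕ) : PC :=
  pprod n fun j => if u / 2 ^ j % 2 = 1 then pneg (pvar (t + j)) else pint 1

/-- coordinate `u` of the vector `Y_{k,l}` -/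
def yg (t n s k l u : ℕ) : PC := pvar (t + n + (k * s + l) * (2 ^ n - 1) + u)

/-- product of `Y_{k,p}` and `Y_{k,q}` for the pure Pfister form -/
def grg (t n s k p q : ℕ) : PC :=
  psum (2 ^ n - 1) fun u => pmul (pfg t n (u + 1)) (pmul (yg t n s k p u) (yg t n s k q u))

/-- Gram determinant -/
def gdg (t n s k l : ℕ) : PC := pdet l (grg t n s k)

/-- the variable `w_{k,l}` -/
def wg (t n s M k l : ℕ) : PC := pvar (t + n + M * s * (2 ^ n - 1) + k * s + l)

/-- the equation `w_{k,l}² = b_l(σ_k τ) Δ_l(x, Y_k) Δ_{l+1}(x, Y_k)` -/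
def eqg (t n s M : ℕ) (b : ℕ → PC) (sg : ℕ → ℕ → ℕ → ℕ) (k l : ℕ) : PC :=
  pmul (wg t n s M k l) (wg t n s M k l) ++
    pneg (pmul (bsg t b sg k l) (pmul (gdg t n s k l) (gdg t n s k (l + 1))))

/-- number of variables of the variety -/
def nvg (t n s M : ℕ) : ℕ := t + n + M * s * (2 ^ n - 1) + M * s

/-- a presentation of an affine scheme over `ℤ`: number of variables and list of equations -/
abbrev Prs : Type := ℕ × List PC

/-- THE REDUCTION -/
def redu (A : Sys) : Prs :=
  if pzero (dd A (nS A)) then (1, [])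
  else (nvg (nt A) (nn A) (ns A) (nM A), (List.range (nM A * ns A)).map fun q =>
    eqg (nt A) (nn A) (ns A) (nM A) (bb A) (sgm A) (q / ns A) (q % ns A))

/-! ## semantics -/

section sem

variable {R R' : Type} [CommRing R] [CommRing R']

@[simp] lemma ev_nil (x : ℕ → R) : ev [] x = 0 := rfl

lemma ev_cons (a : ℤ × List ℕ) (P : PC) (x : ℕ → R) : ev (a :: P) x =
    (a.1 : R) * ∏ i ∈ Finset.range a.2.length, x i ^ a.2.getD i 0 + ev P x := by
  unfold ev; rw [List.map_cons, List.sum_cons]

@[simp] lemma ev_append (P Q : PC) (x : ℕ → R) : ev (P ++ Q) x = ev P x + ev Q x := by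
  unfold ev; rw [List.map_append, List.sum_append]

lemma prod_ext_range (e : List ℕ) (x : ℕ → R) (n : ℕ) (h : e.length ≤ n) :
    ∏ i ∈ Finset.range n, x i ^ e.getD i 0 = ∏ i ∈ Finset.range e.length, x i ^ e.getD i 0 := by
  refine (Finset.prod_subset (Finset.range_mono h) fun i _ hi => ?_).symm
  rw [Finset.mem_range, not_lt] at hi
  rw [List.getD_eq_default _ _ hi, pow_zero]

lemma getD_monE (e f : List ℕ) (i : ℕ) : (monE e f).getD i 0 = e.getD i 0 + f.getD i 0 := by
  unfold monE
  by_cases hi : i < max e.length f.length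
  · rw [List.getD_eq_getElem _ _ (by simpa using hi)]
    simp
  · rw [List.getD_eq_default _ _ (by simpa using hi)]
    rw [not_lt] at hi
    rw [List.getD_eq_default _ _ (le_trans (le_max_left _ _) hi),
      List.getD_eq_default _ _ (le_trans (le_max_right _ _) hi)]

lemma prod_monE (e f : List ℕ) (x : ℕ → R) :
    ∏ i ∈ Finset.range (monE e f).length, x i ^ (monE e f).getD i 0 =
      (∏ i ∈ Finset.range e.length, x i ^ e.getD i 0) *
        ∏ i ∈ Finset.range f.length, x i ^ f.getD i 0 := by
  have hl : (monE e f).length = max e.length f.length := by simp [monE]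
  rw [hl, ← prod_ext_range e x (max e.length f.length) (le_max_left _ _),
    ← prod_ext_range f x (max e.length f.length) (le_max_right _ _), ← Finset.prod_mul_distrib]
  exact Finset.prod_congr rfl fun i _ => by rw [getD_monE, pow_add]

@[simp] lemma ev_pmul (P Q : PC) (x : ℕ → R) : ev (pmul P Q) x = ev P x * ev Q x := by
  induction P with
  | nil => simp [pmul]
  | cons a P ih =>
    have h1 : pmul (a :: P) Q = (Q.map fun b => (a.1 * b.1, monE a.2 b.2)) ++ pmul P Q := by
      simp [pmul]
    have h2 : ∀ Q : PC, ev (Q.map fun b => (a.1 * b.1, monE a.2 b.2)) x =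
        ((a.1 : R) * ∏ i ∈ Finset.range a.2.length, x i ^ a.2.getD i 0) * ev Q x := by
      intro Q
      induction Q with
      | nil => simp
      | cons b Q ih =>
        rw [List.map_cons, ev_cons, ih, ev_cons, prod_monE]
        push_cast; ring
    rw [h1, ev_append, h2, ih, ev_cons]; ring

@[simp] lemma ev_pneg (P : PC) (x : ℕ → R) : ev (pneg P) x = - ev P x := by
  induction P with
  | nil => simp [pneg]
  | cons a P ih =>
    have : pneg (a :: P) = (-a.1, a.2) :: pneg P := rfl
    rw [this, ev_cons, ih, ev_cons]; push_cast; ring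

@[simp] lemma ev_pint (z : ℤ) (x : ℕ → R) : ev (pint z) x = z := by
  simp [pint, ev]

@[simp] lemma ev_pvar (j : ℕ) (x : ℕ → R) : ev (pvar j) x = x j := by
  unfold pvar
  rw [ev_cons, ev_nil, add_zero]
  have hl : (List.replicate j 0 ++ [1]).length = j + 1 := by simp
  simp only [hl]
  rw [Finset.prod_range_succ]
  have h1 : ∏ i ∈ Finset.range j, x i ^ (List.replicate j 0 ++ [1]).getD i 0 = 1 := by
    refine Finset.prod_eq_one fun i hi => ?_
    rw [Finset.mem_range] at hi
    rw [List.getD_append _ _ _ _ (by simpa using hi)]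
    rw [List.getD_eq_getElem _ _ (by simpa using hi)]
    simp
  rw [h1, List.getD_append_right _ _ _ _ (by simp)]
  simp

@[simp] lemma ev_psum (n : ℕ) (f : ℕ → PC) (x : ℕ → R) :
    ev (psum n f) x = ∑ i ∈ Finset.range n, ev (f i) x := by
  induction n with
  | zero => simp [psum]
  | succ n ih =>
    have : psum (n + 1) f = psum n f ++ f n := by simp [psum, List.range_succ]
    rw [this, ev_append, ih, Finset.sum_range_succ]

@[simp] lemma ev_pprod (n : ℕ) (f : ℕ → PC) (x : ℕ → R) :
    ev (pprod n f) x = ∏ i ∈ Finset.range n, ev (f i) x := by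
  induction n with
  | zero => simp [pprod]
  | succ n ih =>
    have : pprod (n + 1) f = pmul (pprod n f) (f n) := by simp [pprod, List.range_succ]
    rw [this, ev_pmul, ih, Finset.prod_range_succ]

@[simp] lemma ev_ppow (P : PC) (n : ℕ) (x : ℕ → R) : ev (ppow P n) x = ev P x ^ n := by
  simp [ppow]

@[simp] lemma ev_psubst (P : PC) (y : ℕ → PC) (x : ℕ → R) :
    ev (psubst P y) x = ev P (fun i => ev (y i) x) := by
  induction P with
  | nil => simp [psubst]
  | cons a P ih =>
    have : psubst (a :: P) y = pmul (pint a.1)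
        (pprod a.2.length fun i => ppow (y i) (a.2.getD i 0)) ++ psubst P y := by
      simp [psubst]
    rw [this, ev_append, ih, ev_cons]
    simp

lemma map_ev (φ : R →+* R') (P : PC) (x : ℕ → R) : φ (ev P x) = ev P (fun i => φ (x i)) := by
  induction P with
  | nil => simp
  | cons a P ih => rw [ev_cons, ev_cons, map_add, ih]; simp

@[simp] lemma ev_pif (c : Bool) (P : PC) (x : ℕ → R) :
    ev (pif c P) x = if c then ev P x else 0 := by
  unfold pif; split_ifs <;> rfl

end sem

end Pool.Agent.Helper44.RED
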