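import Mathlib

/-!
# Project RED (MP_1dc56d): definitions

Diagonal quadratic forms are functions `a : ι → R`, `ι` finite.
-/

set_option autoImplicit false

namespace Pool.Agent.Helper44.RED

/-- value at `x` of the diagonal quadratic form with coefficients `a` -/
def qf {R ι : Type} [CommRing R] [Fintype ι] (a x : ι → R) : R := ∑ i, a i * x i ^ 2

/-- its bilinear form, `bf a x x = qf a x` -/
def bf {R ι : Type} [CommRing R] [Fintype ι] (a x y : ι → R) : R := ∑ i, a i * (x i * y i)

/-- the form `<a>` is anisotropic -/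
def Aniso {R ι : Type} [CommRing R] [Fintype ι] (a : ι → R) : Prop :=
  ∀ x : ι → R, qf a x = 0 → x = 0

/-- `<b>` is a subform of `<a>`: there are pairwise orthogonal vectors `v j` with `a(v j) = b j` -/
def Emb {R ι κ : Type} [CommRing R] [Fintype ι] (b : κ → R) (a : ι → R) : Prop :=
  ∃ v : κ → ι → R, (∀ i j, i ≠ j → bf a (v i) (v j) = 0) ∧ ∀ j, qf a (v j) = b j

/-- coefficients of the Pfister form `<<x₁, …, xₙ>> = <1, -x₁> ⊗ … ⊗ <1, -xₙ>`, indexed by the
subsets of `Fin n` -/
def pf {R : Type} [CommRing R] {n : ℕ} (x : Fin n → R) : Finset (Fin n) → R :=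
  fun S => ∏ j ∈ S, (- x j)

/-- index set of the pure part of a Pfister form -/
abbrev Pu (n : ℕ) : Type := {S : Finset (Fin n) // S.Nonempty}

/-- coefficients of the pure part (all coefficients of `pf x` except the first one, `1`) -/
def ppf {R : Type} [CommRing R] {n : ℕ} (x : Fin n → R) : Pu n → R := fun S => pf x S.1

/-- image of a form under a ring homomorphism -/
def im {R S ι : Type} [CommRing R] [CommRing S] (φ : R →+* S) (a : ι → R) : ι → S :=
  fun i => φ (a i)

/-- the extension `φ` preserves anisotropy of all forms -/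
def Pres {E F : Type} [Field E] [Field F] (φ : E →+* F) : Prop :=
  ∀ (m : ℕ) (b : Fin m → E), Aniso b → Aniso (im φ b)

/-- the elements `y i` are algebraically independent over `φ` -/
def Indep {E F ι : Type} [CommRing E] [CommRing F] (φ : E →+* F) (y : ι → F) : Prop :=
  Function.Injective (MvPolynomial.eval₂Hom φ y)

/-- `F` is generated as a field by the image of `φ` and the set `S` -/
def GenBy {E F : Type} [Field E] [Field F] (φ : E →+* F) (S : Set F) : Prop :=
  Subfield.closure (Set.range φ ∪ S) = ⊤

/-- finitely generated purely transcendental extension -/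
def PureExt {E F : Type} [Field E] [Field F] (φ : E →+* F) : Prop :=
  ∃ (m : ℕ) (z : Fin m → F), Indep φ z ∧ GenBy φ (Set.range z)

/-- `F = E(y)(w)`, `y` independent, `w² = a q(y)`: function field of the affine cone over the
quadric `q ⊥ <-a>` -/
structure Cone {E F ι : Type} [Field E] [Field F] [Fintype ι] (φ : E →+* F) (q : ι → E) (a : E)
    (y : ι → F) (w : F) : Prop where
  indep : Indep φ y
  gen : GenBy φ (Set.range y ∪ {w})
  eq : w ^ 2 = φ a * qf (im φ q) y

/-- `O` is a discrete valuation ring of `F` and `<a>` has a unimodular lattice over `O` -/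
def Unram {F ι : Type} [Field F] [Fintype ι] [DecidableEq ι] (O : ValuationSubring F)
    (a : ι → F) : Prop :=
  ∃ B : Matrix ι ι F, B.det ≠ 0 ∧ (∀ i j, (B.transpose * Matrix.diagonal a * B) i j ∈ O) ∧
    ((B.transpose * Matrix.diagonal a * B).det)⁻¹ ∈ O

/-- leading principal Gram determinant of the vectors `y 0, y 1, …` for the form `<a>` -/
def gd {R ι : Type} [CommRing R] [Fintype ι] (a : ι → R) (y : ℕ → ι → R) (l : ℕ) : R :=
  Matrix.det (Matrix.of fun p q : Fin l => bf a (y p) (y q))

/-- extend a finite family of vectors by zero -/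
def ext0 {R ι : Type} [CommRing R] {s : ℕ} (Y : Fin s → ι → R) : ℕ → ι → R :=
  fun p => if h : p < s then Y ⟨p, h⟩ else 0

/-- linear substitution -/
def lin {k F : Type} [CommRing k] [CommRing F] [Algebra k F] {t : ℕ} (A : Matrix (Fin t) (Fin t) k)
    (τ : Fin t → F) : Fin t → F := fun j => ∑ j', algebraMap k F (A j j') * τ j'

/-- `b l (σ τ)` -/
noncomputable def bs {k F : Type} [CommRing k] [CommRing F] [Algebra k F] {t s : ℕ}
    (b : Fin s → MvPolynomial (Fin t) k) (A : Matrix (Fin t) (Fin t) k) (τ : Fin t → F) : Fin s → F :=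
  fun l => MvPolynomial.aeval (lin A τ) (b l)

/-- the form `<1, c₀, …, c_{s-1}>` -/
def one {R : Type} [CommRing R] {s : ℕ} (c : Fin s → R) : Fin (s + 1) → R := Fin.cons 1 c

end Pool.Agent.Helper44.RED
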