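import Pool.Agent.Helper44.RED.Defs

/-!
# Project RED: elementary lemmas on diagonal forms
-/

set_option autoImplicit false

namespace Pool.Agent.Helper44.RED

section basic

variable {R ι κ μ : Type} [CommRing R] [Fintype ι] [Fintype κ] [Fintype μ]

lemma bf_self (a x : ι → R) : bf a x x = qf a x := by
  unfold bf qf; exact Finset.sum_congr rfl fun i _ => by ring

lemma bf_comm (a x y : ι → R) : bf a x y = bf a y x := by
  unfold bf; exact Finset.sum_congr rfl fun i _ => by ring

lemma bf_add_left (a x y z : ι → R) : bf a (x + y) z = bf a x z + bf a y z := by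
  unfold bf; rw [← Finset.sum_add_distrib]; exact Finset.sum_congr rfl fun i _ => by
    simp only [Pi.add_apply]; ring

lemma bf_add_right (a x y z : ι → R) : bf a x (y + z) = bf a x y + bf a x z := by
  unfold bf; rw [← Finset.sum_add_distrib]; exact Finset.sum_congr rfl fun i _ => by
    simp only [Pi.add_apply]; ring

lemma bf_smul_left (a : ι → R) (c : R) (x y : ι → R) : bf a (c • x) y = c * bf a x y := by
  unfold bf; rw [Finset.mul_sum]; exact Finset.sum_congr rfl fun i _ => by
    simp only [Pi.smul_apply, smul_eq_mul]; ring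

lemma bf_smul_right (a : ι → R) (c : R) (x y : ι → R) : bf a x (c • y) = c * bf a x y := by
  unfold bf; rw [Finset.mul_sum]; exact Finset.sum_congr rfl fun i _ => by
    simp only [Pi.smul_apply, smul_eq_mul]; ring

lemma bf_neg_left (a x y : ι → R) : bf a (-x) y = - bf a x y := by
  unfold bf; rw [← Finset.sum_neg_distrib]; exact Finset.sum_congr rfl fun i _ => by
    simp only [Pi.neg_apply]; ring

lemma bf_neg_right (a x y : ι → R) : bf a x (-y) = - bf a x y := by
  unfold bf; rw [← Finset.sum_neg_distrib]; exact Finset.sum_congr rfl fun i _ => by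
    simp only [Pi.neg_apply]; ring

lemma bf_sub_left (a x y z : ι → R) : bf a (x - y) z = bf a x z - bf a y z := by
  rw [sub_eq_add_neg, bf_add_left, bf_neg_left, sub_eq_add_neg]

lemma bf_sub_right (a x y z : ι → R) : bf a x (y - z) = bf a x y - bf a x z := by
  rw [sub_eq_add_neg, bf_add_right, bf_neg_right, sub_eq_add_neg]

lemma bf_zero_left (a x : ι → R) : bf a 0 x = 0 := by
  unfold bf; exact Finset.sum_eq_zero fun i _ => by simp

lemma bf_zero_right (a x : ι → R) : bf a x 0 = 0 := by
  unfold bf; exact Finset.sum_eq_zero fun i _ => by simp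

lemma qf_zero (a : ι → R) : qf a 0 = 0 := by rw [← bf_self, bf_zero_left]

lemma qf_add (a x y : ι → R) : qf a (x + y) = qf a x + 2 * bf a x y + qf a y := by
  rw [← bf_self, ← bf_self a x, ← bf_self a y, bf_add_left, bf_add_right, bf_add_right,
    bf_comm a y x]; ring

lemma qf_sub (a x y : ι → R) : qf a (x - y) = qf a x - 2 * bf a x y + qf a y := by
  rw [← bf_self, ← bf_self a x, ← bf_self a y, bf_sub_left, bf_sub_right, bf_sub_right,
    bf_comm a y x]; ring

lemma qf_smul (a : ι → R) (c : R) (x : ι → R) : qf a (c • x) = c ^ 2 * qf a x := by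
  rw [← bf_self, ← bf_self a x, bf_smul_left, bf_smul_right]; ring

lemma qf_neg (a x : ι → R) : qf a (-x) = qf a x := by
  rw [← bf_self, ← bf_self a x, bf_neg_left, bf_neg_right, neg_neg]

lemma bf_sum_left (a : ι → R) (c : κ → R) (v : κ → ι → R) (y : ι → R) :
    bf a (∑ j, c j • v j) y = ∑ j, c j * bf a (v j) y := by
  classical
  have : ∀ s : Finset κ, bf a (∑ j ∈ s, c j • v j) y = ∑ j ∈ s, c j * bf a (v j) y := by
    intro s
    induction s using Finset.induction_on with
    | empty => simp [bf_zero_left]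
    | insert j s hj ih => rw [Finset.sum_insert hj, Finset.sum_insert hj, bf_add_left, ih,
        bf_smul_left]
  exact this Finset.univ

lemma bf_sum_right (a : ι → R) (c : κ → R) (v : κ → ι → R) (y : ι → R) :
    bf a y (∑ j, c j • v j) = ∑ j, c j * bf a y (v j) := by
  rw [bf_comm, bf_sum_left]; exact Finset.sum_congr rfl fun j _ => by rw [bf_comm]

/-- orthogonal vectors: the bilinear form of linear combinations -/
lemma bf_orth {a : ι → R} {b : κ → R} {v : κ → ι → R}
    (h0 : ∀ i j, i ≠ j → bf a (v i) (v j) = 0) (h1 : ∀ j, qf a (v j) = b j) (z z' : κ → R) :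
    bf a (∑ j, z j • v j) (∑ j, z' j • v j) = bf b z z' := by
  classical
  rw [bf_sum_left]
  unfold bf
  refine Finset.sum_congr rfl fun j _ => ?_
  have := bf_sum_right a z' v (v j)
  unfold bf at this
  rw [this]
  rw [Finset.sum_eq_single j]
  · have h := h1 j
    rw [← bf_self] at h
    unfold bf at h
    rw [h]; ring
  · intro i _ hij
    have h := h0 j i (Ne.symm hij)
    unfold bf at h
    rw [h]; ring
  · intro h; exact absurd (Finset.mem_univ _) h

lemma qf_orth {a : ι → R} {b : κ → R} {v : κ → ι → R}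
    (h0 : ∀ i j, i ≠ j → bf a (v i) (v j) = 0) (h1 : ∀ j, qf a (v j) = b j) (z : κ → R) :
    qf a (∑ j, z j • v j) = qf b z := by
  rw [← bf_self, bf_orth h0 h1, bf_self]

lemma bf_orth_right {a : ι → R} {b : κ → R} {v : κ → ι → R}
    (h0 : ∀ i j, i ≠ j → bf a (v i) (v j) = 0) (h1 : ∀ j, qf a (v j) = b j) (z : κ → R) (i : κ) :
    bf a (∑ j, z j • v j) (v i) = z i * b i := by
  classical
  rw [bf_sum_left, Finset.sum_eq_single i]
  · rw [bf_self, h1]
  · intro j _ hji; rw [h0 j i hji, mul_zero]
  · intro h; exact absurd (Finset.mem_univ _) h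

lemma bf_single_single [DecidableEq ι] (a : ι → R) (i j : ι) (c d : R) :
    bf a (Pi.single i c) (Pi.single j d) = if i = j then a i * (c * d) else 0 := by
  unfold bf
  rw [Finset.sum_eq_single i]
  · by_cases h : i = j
    · subst h; simp
    · simp [h, Pi.single_apply]
  · intro l _ hl; simp [Pi.single_apply, hl]
  · intro h; exact absurd (Finset.mem_univ _) h

lemma qf_single [DecidableEq ι] (a : ι → R) (i : ι) (c : R) :
    qf a (Pi.single i c) = a i * c ^ 2 := by
  rw [← bf_self, bf_single_single, if_pos rfl]; ring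

lemma bf_single_right [DecidableEq ι] (a : ι → R) (x : ι → R) (i : ι) (c : R) :
    bf a x (Pi.single i c) = a i * (x i * c) := by
  unfold bf
  rw [Finset.sum_eq_single i]
  · simp
  · intro l _ hl; simp [Pi.single_apply, hl]
  · intro h; exact absurd (Finset.mem_univ _) h

lemma Emb.refl (a : ι → R) : Emb a a := by
  classical
  refine ⟨fun i => Pi.single i 1, fun i j hij => ?_, fun j => ?_⟩
  · rw [bf_single_single, if_neg hij]
  · rw [qf_single]; ring

lemma Emb.trans {a : ι → R} {b : κ → R} {c : μ → R} (h : Emb c b) (h' : Emb b a) : Emb c a := by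
  obtain ⟨u, hu0, hu1⟩ := h
  obtain ⟨v, hv0, hv1⟩ := h'
  refine ⟨fun i => ∑ j, u i j • v j, fun i j hij => ?_, fun j => ?_⟩
  · rw [bf_orth hv0 hv1, hu0 i j hij]
  · rw [qf_orth hv0 hv1, hu1]

/-- entrywise multiplication by squares -/
lemma Emb.sq (a c : ι → R) : Emb (fun i => a i * c i ^ 2) a := by
  classical
  refine ⟨fun i => Pi.single i (c i), fun i j hij => ?_, fun j => ?_⟩
  · rw [bf_single_single, if_neg hij]
  · rw [qf_single]

lemma Emb.smul {a : ι → R} {b : κ → R} (c : R) (h : Emb b a) :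
    Emb (fun j => c * b j) (fun i => c * a i) := by
  obtain ⟨v, h0, h1⟩ := h
  have key : ∀ x y, bf (fun i => c * a i) x y = c * bf a x y := by
    intro x y; unfold bf; rw [Finset.mul_sum]; exact Finset.sum_congr rfl fun i _ => by ring
  refine ⟨v, fun i j hij => ?_, fun j => ?_⟩
  · rw [key, h0 i j hij, mul_zero]
  · rw [← bf_self, key, bf_self, h1]

/-- subforms along an injection of index sets -/
lemma Emb.comp_inj {ι' : Type} (a : ι → R) (e : ι' → ι) (he : Function.Injective e) :
    Emb (fun j => a (e j)) a := by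
  classical
  refine ⟨fun i => Pi.single (e i) 1, fun i j hij => ?_, fun j => ?_⟩
  · rw [bf_single_single, if_neg (fun h => hij (he h))]
  · rw [qf_single]; ring

lemma Emb.restrict {κ' : Type} {a : ι → R} {b : κ → R} (h : Emb b a) (e : κ' → κ)
    (he : Function.Injective e) : Emb (fun j => b (e j)) a := by
  obtain ⟨v, h0, h1⟩ := h
  exact ⟨fun j => v (e j), fun i j hij => h0 _ _ (fun h => hij (he h)), fun j => h1 _⟩

lemma bf_sumElim (a : ι → R) (b : κ → R) (x y : ι ⊕ κ → R) :
    bf (Sum.elim a b) x y = bf a (x ∘ Sum.inl) (y ∘ Sum.inl) + bf b (x ∘ Sum.inr) (y ∘ Sum.inr) := by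
  unfold bf; rw [Fintype.sum_sum_type]; rfl

lemma qf_sumElim (a : ι → R) (b : κ → R) (x : ι ⊕ κ → R) :
    qf (Sum.elim a b) x = qf a (x ∘ Sum.inl) + qf b (x ∘ Sum.inr) := by
  unfold qf; rw [Fintype.sum_sum_type]; rfl

lemma Emb.sum {ι' κ' : Type} [Fintype ι'] {a : ι → R} {b : κ → R} {a' : ι' → R} {b' : κ' → R}
    (h : Emb b a) (h' : Emb b' a') : Emb (Sum.elim b b') (Sum.elim a a') := by
  obtain ⟨v, h0, h1⟩ := h
  obtain ⟨v', h0', h1'⟩ := h'
  refine ⟨Sum.elim (fun j => Sum.elim (v j) 0) (fun j => Sum.elim 0 (v' j)), ?_, ?_⟩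
  · rintro (i | i) (j | j) hij
    · rw [bf_sumElim]
      have : bf a' (Sum.elim (v i) 0 ∘ Sum.inr) (Sum.elim (v j) (0 : ι' → R) ∘ Sum.inr) = 0 := by
        rw [Sum.elim_comp_inr]; exact bf_zero_left _ _
      simp only [Sum.elim_inl, this, add_zero, Sum.elim_comp_inl]
      exact h0 i j (fun h => hij (by rw [h]))
    · rw [bf_sumElim]
      simp only [Sum.elim_inl, Sum.elim_inr, Sum.elim_comp_inl, Sum.elim_comp_inr, bf_zero_right,
        bf_zero_left, add_zero]
    · rw [bf_sumElim]
      simp only [Sum.elim_inl, Sum.elim_inr, Sum.elim_comp_inl, Sum.elim_comp_inr, bf_zero_right,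
        bf_zero_left, add_zero]
    · rw [bf_sumElim]
      simp only [Sum.elim_inr, Sum.elim_comp_inl, Sum.elim_comp_inr, bf_zero_left, zero_add]
      exact h0' i j (fun h => hij (by rw [h]))
  · rintro (j | j)
    · rw [qf_sumElim]
      simp only [Sum.elim_inl, Sum.elim_comp_inl, Sum.elim_comp_inr, qf_zero, add_zero]
      exact h1 j
    · rw [qf_sumElim]
      simp only [Sum.elim_inr, Sum.elim_comp_inl, Sum.elim_comp_inr, qf_zero, zero_add]
      exact h1' j

end basic

section hom

variable {R S ι κ : Type} [CommRing R] [CommRing S] [Fintype ι]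

lemma bf_im (φ : R →+* S) (a x y : ι → R) : bf (im φ a) (im φ x) (im φ y) = φ (bf a x y) := by
  unfold bf im; rw [map_sum]; exact Finset.sum_congr rfl fun i _ => by rw [map_mul, map_mul]

lemma qf_im (φ : R →+* S) (a x : ι → R) : qf (im φ a) (im φ x) = φ (qf a x) := by
  unfold qf im; rw [map_sum]; exact Finset.sum_congr rfl fun i _ => by rw [map_mul, map_pow]

lemma Emb.im {φ : R →+* S} {a : ι → R} {b : κ → R} (h : Emb b a) :
    Emb (RED.im φ b) (RED.im φ a) := by
  obtain ⟨v, h0, h1⟩ := h
  refine ⟨fun j => RED.im φ (v j), fun i j hij => ?_, fun j => ?_⟩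
  · rw [bf_im, h0 i j hij, map_zero]
  · rw [qf_im, h1]; rfl

lemma im_im {T : Type} [CommRing T] (φ : R →+* S) (ψ : S →+* T) (a : ι → R) :
    im ψ (im φ a) = im (ψ.comp φ) a := rfl

lemma pf_im {n : ℕ} (φ : R →+* S) (x : Fin n → R) : pf (im φ x) = im φ (pf x) := by
  funext S; unfold pf im; rw [map_prod]; exact Finset.prod_congr rfl fun j _ => by rw [map_neg]

end hom

section field

variable {K ι κ : Type} [Field K] [Fintype ι] [Fintype κ]

lemma Aniso.of_im {F : Type} [Field F] {φ : K →+* F} {a : ι → K} (h : Aniso (im φ a)) :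
    Aniso a := by
  intro x hx
  have h' := h (im φ x) (by rw [qf_im, hx, map_zero])
  funext i
  have := congrFun h' i
  exact (map_eq_zero φ).1 this

lemma Aniso.of_emb {a : ι → K} {b : κ → K} (h : Aniso a) (hb : ∀ j, b j ≠ 0) (he : Emb b a) :
    Aniso b := by
  obtain ⟨v, h0, h1⟩ := he
  intro z hz
  have h2 := h _ ((qf_orth h0 h1 z).trans hz)
  funext j
  have h3 := bf_orth_right h0 h1 z j
  rw [h2, bf_zero_left] at h3
  rcases mul_eq_zero.1 h3.symm with h4 | h4
  · exact h4
  · exact absurd h4 (hb j)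

lemma Aniso.ne_zero {a : ι → K} (h : Aniso a) (i : ι) : a i ≠ 0 := by
  classical
  intro hi
  have := h (Pi.single i 1) (by rw [qf_single, hi, zero_mul])
  have := congrFun this i
  simp at this

lemma Pres.aniso {E F : Type} [Field E] [Field F] {φ : E →+* F} (h : Pres φ) {a : ι → E}
    (ha : Aniso a) : Aniso (im φ a) := by
  classical
  let e := Fintype.equivFin ι
  have h1 : Aniso (fun j : Fin (Fintype.card ι) => a (e.symm j)) := by
    intro x hx
    have : qf a (fun i => x (e i)) = 0 := by
      rw [← hx]; unfold qf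
      exact Fintype.sum_equiv e _ _ (fun i => by simp)
    have h2 := ha _ this
    funext j
    have := congrFun h2 (e.symm j)
    simpa using this
  have h2 := h _ _ h1
  intro x hx
  have h3 : qf (im φ fun j : Fin (Fintype.card ι) => a (e.symm j)) (fun j => x (e.symm j)) = 0 := by
    rw [← hx]; unfold qf im
    exact Fintype.sum_equiv e.symm _ _ (fun i => by simp)
  have h4 := h2 _ h3
  funext i
  have := congrFun h4 (e i)
  simpa using this

lemma Pres.comp {E F G : Type} [Field E] [Field F] [Field G] {φ : E →+* F} {ψ : F →+* G}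
    (h : Pres φ) (h' : Pres ψ) : Pres (ψ.comp φ) := fun m b hb => by
  have := h' m _ (h m b hb)
  exact this

lemma Pres.id {E : Type} [Field E] : Pres (RingHom.id E) := fun m b hb => hb

lemma pf_empty {R : Type} [CommRing R] {n : ℕ} (x : Fin n → R) : pf x ∅ = 1 := by
  unfold pf; simp

lemma pf_ne_zero {n : ℕ} {x : Fin n → K} (hx : ∀ j, x j ≠ 0) (S : Finset (Fin n)) :
    pf x S ≠ 0 := by
  unfold pf; exact Finset.prod_ne_zero_iff.2 fun j _ => neg_ne_zero.2 (hx j)

end field

end Pool.Agent.Helper44.RED
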