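import Pool.Agent.Helper44.RED.StA

/-!
# Project RED, module CP: the theorem of Cassels and Pfister
-/

set_option autoImplicit false

open Polynomial

namespace Pool.Agent.Helper44.RED

/-- anisotropy over `K` gives anisotropy over `K[X]` (leading coefficients) -/
private lemma anisoPoly_CP {K ι : Type} [Field K] [Fintype ι] {a : ι → K} (ha : Aniso a)
    (r : ι → K[X]) (hr : qf (fun i => C (a i)) r = 0) : ∀ i, r i = 0 := by
  classical
  by_contra hcon
  push Not at hcon
  obtain ⟨i1, hi1⟩ := hcon
  obtain ⟨i0, hi0, hmax⟩ := Finset.exists_max_image (Finset.univ.filter fun i => r i ≠ 0)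
    (fun i => (r i).natDegree) ⟨i1, by simp [hi1]⟩
  simp only [Finset.mem_filter, Finset.mem_univ, true_and] at hi0 hmax
  have hle : ∀ i, (r i).natDegree ≤ (r i0).natDegree := by
    intro i
    by_cases h : r i = 0
    · rw [h, natDegree_zero]; exact Nat.zero_le _
    · exact hmax i h
  have hco : qf a (fun i => (r i).coeff (r i0).natDegree) = 0 := by
    have h := congrArg (fun p : K[X] => p.coeff (2 * (r i0).natDegree)) hr
    simp only [qf, finsetSum_coeff, coeff_C_mul, coeff_zero] at h
    unfold qf
    rw [← h]
    refine Finset.sum_congr rfl fun i _ => ?_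
    rw [coeff_pow_of_natDegree_le (hle i)]
  have h0 := congrFun (ha _ hco) i0
  simp only [Pi.zero_apply] at h0
  exact hi0 (leadingCoeff_eq_zero.1 h0)

private lemma step_CP {K ι : Type} [Field K] [Fintype ι] {a : ι → K} (ha : Aniso a) (f : K[X]) :
    ∀ (N : ℕ) (d : K[X]) (G : ι → K[X]), d.natDegree = N → d ≠ 0 →
      qf (fun i => C (a i)) G = f * d ^ 2 → ∃ h : ι → K[X], qf (fun i => C (a i)) h = f := by
  classical
  intro N
  induction N using Nat.strong_induction_on with
  | _ N ih =>
    intro d G hN hd hG
    set c : ι → K[X] := fun i => C (a i) with hc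
    set w : ι → K[X] := fun i => G i / d with hw
    set r : ι → K[X] := fun i => G i % d with hr
    have hGr : G = d • w + r := by
      funext i
      simp only [Pi.add_apply, Pi.smul_apply, smul_eq_mul, hw, hr]
      exact (EuclideanDomain.div_add_mod (G i) d).symm
    by_cases hr0 : ∀ i, r i = 0
    · refine ⟨w, ?_⟩
      have hr0' : r = 0 := funext hr0
      rw [hr0', add_zero] at hGr
      rw [hGr, qf_smul] at hG
      have hd2 : d ^ 2 ≠ 0 := pow_ne_zero 2 hd
      have : d ^ 2 * qf c w = d ^ 2 * f := by rw [hG]; ring
      exact mul_left_cancel₀ hd2 this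
    · have hqr : qf c r ≠ 0 := fun h => hr0 (anisoPoly_CP ha r h)
      set A : K[X] := qf c w - f with hA
      set B : K[X] := 2 * (f * d - bf c G w) with hB
      have h1 : qf c (A • G + B • w) = f * (A * d + B) ^ 2 := by
        rw [qf_add, qf_smul, qf_smul, bf_smul_left, bf_smul_right, hG]
        have hqw : qf c w = A + f := by rw [hA]; ring
        rw [hqw]
        have hbb : 2 * bf c G w = 2 * f * d - B := by rw [hB]; ring
        linear_combination (A * B) * hbb
      have h2 : d * (A * d + B) = qf c r := by
        have hrr : r = G - d • w := by rw [hGr]; abel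
        rw [hrr, qf_sub, qf_smul, bf_smul_right, hG, hA, hB]
        ring
      have hd' : A * d + B ≠ 0 := by
        intro h
        rw [h, mul_zero] at h2
        exact hqr h2.symm
      push Not at hr0
      obtain ⟨i1, hi1⟩ := hr0
      have hdpos : 0 < d.natDegree := by
        by_contra hcon
        have h0 : d.natDegree = 0 := by omega
        have hlt : (r i1).degree < d.degree := degree_mod_lt (G i1) hd
        have h3 : d.degree = 0 := by rw [degree_eq_natDegree hd, h0]; rfl
        rw [h3] at hlt
        exact absurd (zero_le_degree_iff.2 hi1) (not_le.2 hlt)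
      have hri : ∀ i, (r i).natDegree ≤ d.natDegree - 1 := by
        intro i
        have := natDegree_mod_lt (G i) (by omega : d.natDegree ≠ 0)
        have h4 : (r i).natDegree < d.natDegree := this
        omega
      have hqd : (qf c r).natDegree ≤ 2 * (d.natDegree - 1) := by
        unfold qf
        refine natDegree_sum_le_of_forall_le _ _ fun i _ => ?_
        refine (natDegree_C_mul_le _ _).trans ?_
        refine natDegree_pow_le.trans ?_
        exact Nat.mul_le_mul_left 2 (hri i)
      rw [← h2, natDegree_mul hd hd'] at hqd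
      exact ih (A * d + B).natDegree (by omega) (A * d + B) (A • G + B • w) rfl hd' h1

theorem pCP : StCP := by
  intro K ι _ _ _ a ha f g hg
  classical
  obtain ⟨b, hb⟩ := IsLocalization.exist_integer_multiples_of_finite (nonZeroDivisors K[X]) g
  choose G hG using hb
  have hb0 : (b : K[X]) ≠ 0 := nonZeroDivisors.ne_zero b.2
  refine step_CP ha f (b : K[X]).natDegree (b : K[X]) G rfl hb0 ?_
  have hinj : Function.Injective (algebraMap K[X] (RatFunc K)) :=
    IsFractionRing.injective K[X] (RatFunc K)
  apply hinj
  rw [map_mul, map_pow, ← hg]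
  unfold qf
  rw [map_sum, Finset.sum_mul]
  refine Finset.sum_congr rfl fun i _ => ?_
  rw [map_mul, map_pow, hG i, Algebra.smul_def]
  have hC : algebraMap K[X] (RatFunc K) (C (a i)) = algebraMap K (RatFunc K) (a i) := by
    rw [IsScalarTower.algebraMap_apply K K[X] (RatFunc K)]
    rfl
  rw [hC]
  ring

end Pool.Agent.Helper44.RED
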