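import Pool.Agent.Helper44.RED.StD
import Pool.Agent.Helper44.RED.M_XNot

/-!
# Project RED: module Fin2 (the general statement)
-/

set_option autoImplicit false

namespace Pool.Agent.Helper44.RED

theorem pFin2 : StPencil → StLead → StHomog → StSigma → StFin1 → StFin2 := by
  intro hPencil hLead hHomog hSigma hFin1 k _ _ _ m p N A hA
  have h2 : (2 : k) ≠ 0 := two_ne_zero
  refine ⟨(hPencil k m p N A hA).1, (hLead k m p (N + 1) A hA).1, ?_⟩
  intro P hP hl n e hn hs hc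
  obtain ⟨hsym, hodd⟩ := (hLead k m p (N + 1) A hA).2 P hP
  have h3 := (hPencil k m p N (cg P A) hsym).2 hl
  have hC0 : ∀ l : Fin N, lm (pencil (cg P A)) 1 *
      (lm (pencil (cg P A)) (l.1 + 1) * lm (pencil (cg P A)) (l.1 + 2)) ≠ 0 := fun l =>
    mul_ne_zero (hl 1 (by omega)) (mul_ne_zero (hl _ (by omega)) (hl _ (by omega)))
  have h4 := (hHomog k h2 (m + p) N _ hC0).1
  have hC1 : ∀ l, CC (cg P A) l ≠ 0 := fun l => (h4 l).1
  have hC2 : ∀ l, ∃ D, (CC (cg P A) l).IsHomogeneous (2 * D) := fun l => ⟨_, (h4 l).2⟩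
  refine ⟨?_, ?_⟩
  · obtain ⟨M, σ, -, h5, h6, h7⟩ := hSigma k (m + p) e (N + e) (bfam e (CC (cg P A)))
      (bfam_ne_XNot e _ hC1) (fun l => by
        obtain ⟨D, hD⟩ := bfam_hom_XNot e _ hC2 l
        exact ⟨2 * D, hD⟩)
    exact ⟨M, σ, h5, h6, h7⟩
  · intro M σ h5 h6 h7
    obtain ⟨h8, h9, h10⟩ := hFin1 k (m + p) N e n M hn hs hc (CC (cg P A)) σ hC1 hC2 h5 h6 h7
    exact ⟨h8, h9.trans (h3.symm.trans hodd), h10.trans (h3.symm.trans hodd)⟩

end Pool.Agent.Helper44.RED
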