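import Pool.Agent.Helper44.RED.StC

/-!
# Project RED: module GS (Gram–Schmidt with square roots)
-/

set_option autoImplicit false

namespace Pool.Agent.Helper44.RED

section

variable {F κ : Type} [Field F] [Fintype κ]

/-- the Gram–Schmidt vectors -/
private noncomputable def gs_GS (a : κ → F) (y : ℕ → κ → F) : ℕ → κ → F
  | l => y l - ∑ m : Fin l, (bf a (y l) (gs_GS a y m.1) / qf a (gs_GS a y m.1)) • gs_GS a y m.1
termination_by l => l
decreasing_by all_goals exact m.2

private lemma gs_eq_GS (a : κ → F) (y : ℕ → κ → F) (l : ℕ) :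
    gs_GS a y l = y l - ∑ m : Fin l,
      (bf a (y l) (gs_GS a y m.1) / qf a (gs_GS a y m.1)) • gs_GS a y m.1 := by
  rw [gs_GS]

private lemma y_eq_GS (a : κ → F) (y : ℕ → κ → F) (l : ℕ) :
    y l = gs_GS a y l + ∑ m : Fin l,
      (bf a (y l) (gs_GS a y m.1) / qf a (gs_GS a y m.1)) • gs_GS a y m.1 := by
  rw [gs_eq_GS a y l]; abel

/-- orthogonality -/
private lemma orth_GS (a : κ → F) (y : ℕ → κ → F) (N : ℕ)
    (h : ∀ m < N, qf a (gs_GS a y m) ≠ 0) :
    ∀ l ≤ N, ∀ m < l, bf a (gs_GS a y l) (gs_GS a y m) = 0 := by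
  intro l
  induction l using Nat.strong_induction_on with
  | _ l ih =>
    intro hl m hm
    have hort : ∀ i j : Fin l, i ≠ j → bf a (gs_GS a y i.1) (gs_GS a y j.1) = 0 := by
      intro i j hij
      rcases lt_trichotomy i.1 j.1 with h1 | h1 | h1
      · rw [bf_comm]; exact ih j.1 j.2 (by omega) i.1 h1
      · exact absurd (Fin.ext h1) hij
      · exact ih i.1 i.2 (by omega) j.1 h1
    conv_lhs => rw [gs_eq_GS a y l]
    rw [bf_sub_left, bf_sum_left, Finset.sum_eq_single (⟨m, hm⟩ : Fin l)]
    · rw [bf_self]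
      have : qf a (gs_GS a y m) ≠ 0 := h m (by omega)
      field_simp
      ring
    · intro i _ hi
      rw [hort i ⟨m, hm⟩ hi, mul_zero]
    · intro h'; exact absurd (Finset.mem_univ _) h'

/-- the Gram determinants -/
private lemma gd_GS (a : κ → F) (y : ℕ → κ → F) (l : ℕ)
    (hort : ∀ i < l, ∀ j < l, i ≠ j → bf a (gs_GS a y i) (gs_GS a y j) = 0) :
    gd a y l = ∏ m : Fin l, qf a (gs_GS a y m.1) := by
  classical
  let T : Matrix (Fin l) (Fin l) F := Matrix.of fun p m =>
    if m = p then 1 else if m < p then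
      bf a (y p.1) (gs_GS a y m.1) / qf a (gs_GS a y m.1) else 0
  have hy : ∀ p : Fin l, y p.1 = ∑ m : Fin l, T p m • gs_GS a y m.1 := by
    intro p
    rw [← Finset.add_sum_erase Finset.univ _ (Finset.mem_univ p)]
    conv_lhs => rw [y_eq_GS a y p.1]
    congr 1
    · simp [T]
    · have h1 : ∀ m ∈ Finset.univ.erase p, T p m • gs_GS a y m.1 =
          if m < p then (bf a (y p.1) (gs_GS a y m.1) / qf a (gs_GS a y m.1)) • gs_GS a y m.1
            else 0 := by
        intro m hm
        have hmp : m ≠ p := (Finset.mem_erase.1 hm).1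
        simp only [T, Matrix.of_apply, if_neg hmp]
        split_ifs <;> simp
      rw [Finset.sum_congr rfl h1, ← Finset.sum_filter]
      refine (Finset.sum_bij (fun (m : Fin p.1) _ => (⟨m.1, m.2.trans p.2⟩ : Fin l)) ?_ ?_ ?_ ?_)
      · intro m _
        simp only [Finset.mem_filter, Finset.mem_erase, Finset.mem_univ, and_true]
        exact ⟨fun h => absurd (congrArg Fin.val h) (ne_of_lt m.2), m.2⟩
      · intro m _ m' _ h
        exact Fin.ext (by simpa using h)
      · intro m hm
        simp only [Finset.mem_filter, Finset.mem_erase, Finset.mem_univ, and_true] at hm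
        exact ⟨⟨m.1, hm.2⟩, Finset.mem_univ _, rfl⟩
      · intro m _; rfl
  have hG : (Matrix.of fun p q : Fin l => bf a (y p) (y q)) =
      T * Matrix.diagonal (fun m : Fin l => qf a (gs_GS a y m.1)) * T.transpose := by
    ext p q
    have h2 := bf_orth (a := a) (b := fun m : Fin l => qf a (gs_GS a y m.1))
      (v := fun m : Fin l => gs_GS a y m.1)
      (fun i j hij => hort i.1 i.2 j.1 j.2 (fun h => hij (Fin.ext h))) (fun j => rfl)
      (T p) (T q)
    rw [← hy p, ← hy q] at h2
    rw [Matrix.of_apply, h2]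
    rw [Matrix.mul_apply]
    simp only [Matrix.mul_diagonal, Matrix.transpose_apply, bf]
    exact Finset.sum_congr rfl fun i _ => by ring
  have hT : T.det = 1 := by
    rw [Matrix.det_of_isLowerTriangular T]
    · exact Finset.prod_eq_one fun i _ => by simp [T]
    · intro i j hij
      have hij' : i < j := hij
      simp only [T, Matrix.of_apply]
      rw [if_neg (ne_of_gt hij'), if_neg (not_lt.2 hij'.le)]
  unfold gd
  rw [hG, Matrix.det_mul, Matrix.det_mul, Matrix.det_transpose, hT, Matrix.det_diagonal]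
  ring

private lemma main_GS (a : κ → F) (y : ℕ → κ → F) (s : ℕ) (hg : ∀ l ≤ s, gd a y l ≠ 0) :
    (∀ m < s, qf a (gs_GS a y m) ≠ 0) := by
  intro m
  induction m using Nat.strong_induction_on with
  | _ m ih =>
    intro hm
    have h1 : ∀ i < m, qf a (gs_GS a y i) ≠ 0 := fun i hi => ih i hi (by omega)
    have h2 := orth_GS a y m h1
    have h3 : gd a y (m + 1) = ∏ i : Fin (m + 1), qf a (gs_GS a y i.1) := by
      apply gd_GS
      intro i hi j hj hij
      rcases lt_trichotomy i j with h | h | h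
      · rw [bf_comm]; exact h2 j (by omega) i h
      · exact absurd h hij
      · exact h2 i (by omega) j h
    intro h0
    apply hg (m + 1) (by omega)
    rw [h3]
    exact Finset.prod_eq_zero (Finset.mem_univ (⟨m, by omega⟩ : Fin (m + 1))) h0

end

section

variable {k F κ : Type} [Field k] [Field F] [Algebra k F] [Fintype κ]

private lemma bf_mem_GS (M : IntermediateField k F) {a x y : κ → F} (ha : ∀ i, a i ∈ M)
    (hx : ∀ i, x i ∈ M) (hy : ∀ i, y i ∈ M) : bf a x y ∈ M := by
  unfold bf
  exact sum_mem fun i _ => mul_mem (ha i) (mul_mem (hx i) (hy i))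

private lemma det_mem_GS (M : IntermediateField k F) {l : ℕ} (A : Matrix (Fin l) (Fin l) F)
    (hA : ∀ i j, A i j ∈ M) : A.det ∈ M := by
  rw [Matrix.det_apply]
  refine sum_mem fun σ _ => ?_
  rw [Units.smul_def]
  exact zsmul_mem (prod_mem fun i _ => hA _ _) _

private lemma gd_mem_GS (M : IntermediateField k F) {a : κ → F} (ha : ∀ i, a i ∈ M)
    {y : ℕ → κ → F} (l : ℕ) (hy : ∀ p < l, ∀ i, y p i ∈ M) : gd a y l ∈ M := by
  unfold gd
  exact det_mem_GS M _ fun i j => bf_mem_GS M ha (hy i.1 i.2) (hy j.1 j.2)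

private lemma gs_mem_GS (M : IntermediateField k F) {a : κ → F} (ha : ∀ i, a i ∈ M)
    {y : ℕ → κ → F} (s : ℕ) (hy : ∀ p < s, ∀ i, y p i ∈ M) :
    ∀ l < s, ∀ i, gs_GS a y l i ∈ M := by
  intro l
  induction l using Nat.strong_induction_on with
  | _ l ih =>
    intro hl i
    rw [gs_eq_GS a y l, Pi.sub_apply, Finset.sum_apply]
    refine sub_mem (hy l hl i) (sum_mem fun m _ => ?_)
    have hm := ih m.1 m.2 (by have := m.2; omega)
    rw [Pi.smul_apply, smul_eq_mul]
    refine mul_mem (div_mem (bf_mem_GS M ha (hy l hl) hm) ?_) (hm i)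
    rw [← bf_self]
    exact bf_mem_GS M ha hm hm

end

theorem pGS : StGS := by
  intro k F κ _ _ _ _ L a s y β w haL hβL hβ0 hg hw
  classical
  set Y : ℕ → κ → F := ext0 y with hYdef
  have hYy : ∀ l : Fin s, Y l.1 = y l := by
    intro l; simp [hYdef, ext0, l.2]
  have hq := main_GS a Y s hg
  have hort0 := orth_GS a Y s hq
  have hort : ∀ i < s, ∀ j < s, i ≠ j → bf a (gs_GS a Y i) (gs_GS a Y j) = 0 := by
    intro i hi j hj hij
    rcases lt_trichotomy i j with h | h | h
    · rw [bf_comm]; exact hort0 j (by omega) i h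
    · exact absurd h hij
    · exact hort0 i (by omega) j h
  have hgd : ∀ l ≤ s, gd a Y l = ∏ m : Fin l, qf a (gs_GS a Y m.1) := by
    intro l hl
    exact gd_GS a Y l fun i hi j hj hij => hort i (by omega) j (by omega) hij
  have hstep : ∀ l < s, gd a Y (l + 1) = gd a Y l * qf a (gs_GS a Y l) := by
    intro l hl
    rw [hgd (l + 1) (by omega), hgd l (by omega), Fin.prod_univ_castSucc]
    rfl
  have hw0 : ∀ l, w l ≠ 0 := by
    intro l h0
    have h1 := hw l
    rw [h0] at h1
    have h2 : β l * (gd a Y l * gd a Y (l + 1)) ≠ 0 :=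
      mul_ne_zero (hβ0 l) (mul_ne_zero (hg _ (by omega)) (hg _ (by omega)))
    exact h2 (by rw [← h1]; ring)
  let V : Fin s → κ → F := fun l => (w l / gd a Y (l + 1)) • gs_GS a Y l.1
  let T : Fin s → Fin s → F := fun l m => bf a (Y l.1) (V m) / β m
  have hVq : ∀ l, qf a (V l) = β l := by
    intro l
    have h1 : gd a Y l.1 ≠ 0 := hg _ (by omega)
    have h2 : gd a Y (l.1 + 1) ≠ 0 := hg _ (by omega)
    have h3 := hstep l.1 l.2
    have h4 := hw l
    have h5 : qf a (gs_GS a Y l.1) = gd a Y (l.1 + 1) / gd a Y l.1 := by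
      rw [h3]; field_simp
    simp only [V]
    rw [qf_smul, div_pow, h4, h5]
    field_simp
  have hTV : ∀ l m, T l m • V m =
      (bf a (Y l.1) (gs_GS a Y m.1) / qf a (gs_GS a Y m.1)) • gs_GS a Y m.1 := by
    intro l m
    have h1 : gd a Y m.1 ≠ 0 := hg _ (by omega)
    have h2 : gd a Y (m.1 + 1) ≠ 0 := hg _ (by omega)
    have h3 := hstep m.1 m.2
    have h4 := hw m
    have h5 : qf a (gs_GS a Y m.1) = gd a Y (m.1 + 1) / gd a Y m.1 := by
      rw [h3]; field_simp
    simp only [T, V]
    rw [bf_smul_right, smul_smul]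
    congr 1
    rw [h5]
    have h6 : w m / gd a Y (m.1 + 1) * bf a (Y l.1) (gs_GS a Y m.1) / β m *
        (w m / gd a Y (m.1 + 1)) = w m ^ 2 * bf a (Y l.1) (gs_GS a Y m.1) /
          (β m * gd a Y (m.1 + 1) ^ 2) := by
      field_simp
    rw [h6, h4]
    have := hβ0 m
    field_simp
  have hyT : ∀ l : Fin s, Y l.1 = ∑ m ∈ Finset.univ.filter (fun m : Fin s => m ≤ l), T l m • V m := by
    intro l
    have h1 : (∑ m ∈ Finset.univ.filter (fun m : Fin s => m ≤ l), T l m • V m) =
        T l l • V l + ∑ m ∈ Finset.univ.filter (fun m : Fin s => m < l), T l m • V m := by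
      have : Finset.univ.filter (fun m : Fin s => m ≤ l) =
          insert l (Finset.univ.filter (fun m : Fin s => m < l)) := by
        ext m; simp [le_iff_eq_or_lt]
      rw [this, Finset.sum_insert (by simp)]
    rw [h1]
    conv_lhs => rw [y_eq_GS a Y l.1]
    congr 1
    · rw [hTV]
      have h2 : bf a (Y l.1) (gs_GS a Y l.1) = qf a (gs_GS a Y l.1) := by
        rw [y_eq_GS a Y l.1, bf_add_left, bf_self, bf_sum_left, Finset.sum_eq_zero, add_zero]
        intro m _
        rw [hort m.1 (by omega) l.1 l.2 (by omega), mul_zero]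
      rw [h2, div_self (hq l.1 l.2), one_smul]
    · simp only [hTV]
      refine (Finset.sum_bij (fun (m : Fin l.1) _ => (⟨m.1, m.2.trans l.2⟩ : Fin s)) ?_ ?_ ?_ ?_)
      · intro m _
        simp only [Finset.mem_filter, Finset.mem_univ, true_and]
        exact m.2
      · intro m _ m' _ h
        exact Fin.ext (by simpa using h)
      · intro m hm
        simp only [Finset.mem_filter, Finset.mem_univ, true_and] at hm
        exact ⟨⟨m.1, hm⟩, Finset.mem_univ _, rfl⟩
      · intro m _; rfl
  have hwT : ∀ l, w l = T l l * β l * gd a Y l := by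
    intro l
    have h1 : gd a Y l.1 ≠ 0 := hg _ (by omega)
    have h2 : gd a Y (l.1 + 1) ≠ 0 := hg _ (by omega)
    have h3 := hstep l.1 l.2
    have h5 : bf a (Y l.1) (gs_GS a Y l.1) = qf a (gs_GS a Y l.1) := by
      rw [y_eq_GS a Y l.1, bf_add_left, bf_self, bf_sum_left, Finset.sum_eq_zero, add_zero]
      intro m _
      rw [hort m.1 (by omega) l.1 l.2 (by omega), mul_zero]
    have := hβ0 l
    simp only [T, V]
    rw [bf_smul_right, h5, h3]
    have h6 := hq l.1 l.2
    field_simp
  refine ⟨V, T, ?_, hVq, ?_⟩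
  · intro i j hij
    simp only [V]
    rw [bf_smul_left, bf_smul_right, hort i.1 i.2 j.1 j.2 (fun h => hij (Fin.ext h)), mul_zero,
      mul_zero]
  · apply le_antisymm
    · refine sup_le le_sup_left (IntermediateField.adjoin_le_iff.2 ?_)
      set M := L ⊔ IntermediateField.adjoin k (Set.range (fun p : Fin s × κ => V p.1 p.2) ∪
        {z | ∃ l m, m ≤ l ∧ T l m = z}) with hM
      have hLM : L ≤ M := le_sup_left
      have hsub : (Set.range (fun p : Fin s × κ => V p.1 p.2) ∪
        {z | ∃ l m, m ≤ l ∧ T l m = z}) ⊆ (M : Set F) := by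
        intro z hz
        exact (le_sup_right : IntermediateField.adjoin k _ ≤ M)
          (IntermediateField.subset_adjoin k _ hz)
      have hVM : ∀ l i, V l i ∈ M := fun l i => hsub (Or.inl ⟨(l, i), rfl⟩)
      have hTM : ∀ l m, m ≤ l → T l m ∈ M := fun l m h => hsub (Or.inr ⟨l, m, h, rfl⟩)
      have hYM : ∀ p < s, ∀ i, Y p i ∈ M := by
        intro p hp i
        have h1 := hyT ⟨p, hp⟩
        rw [show Y p = _ from h1, Finset.sum_apply]
        refine sum_mem fun m hm => ?_
        rw [Pi.smul_apply, smul_eq_mul]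
        exact mul_mem (hTM _ _ (by simpa using hm)) (hVM _ _)
      rintro z (⟨⟨l, i⟩, rfl⟩ | ⟨l, rfl⟩)
      · have := hYM l.1 l.2 i
        rw [hYy] at this
        exact this
      · show w l ∈ M
        rw [hwT l]
        exact mul_mem (mul_mem (hTM l l le_rfl) (hLM (hβL l)))
          (gd_mem_GS M (fun i => hLM (haL i)) l.1 fun p hp => hYM p (by omega))
    · refine sup_le le_sup_left (IntermediateField.adjoin_le_iff.2 ?_)
      set M := L ⊔ IntermediateField.adjoin k (Set.range (fun p : Fin s × κ => y p.1 p.2) ∪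
        Set.range w) with hM
      have hLM : L ≤ M := le_sup_left
      have hsub : (Set.range (fun p : Fin s × κ => y p.1 p.2) ∪ Set.range w) ⊆ (M : Set F) := by
        intro z hz
        exact (le_sup_right : IntermediateField.adjoin k _ ≤ M)
          (IntermediateField.subset_adjoin k _ hz)
      have hYM : ∀ p < s, ∀ i, Y p i ∈ M := by
        intro p hp i
        have h1 := hYy ⟨p, hp⟩
        rw [show Y p = _ from h1]
        exact hsub (Or.inl ⟨(⟨p, hp⟩, i), rfl⟩)
      have hwM : ∀ l, w l ∈ M := fun l => hsub (Or.inr ⟨l, rfl⟩)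
      have haM : ∀ i, a i ∈ M := fun i => hLM (haL i)
      have hVM : ∀ l i, V l i ∈ M := by
        intro l i
        simp only [V, Pi.smul_apply, smul_eq_mul]
        exact mul_mem (div_mem (hwM l) (gd_mem_GS M haM _ fun p hp => hYM p (by omega)))
          (gs_mem_GS M haM s hYM l.1 l.2 i)
      rintro z (⟨⟨l, i⟩, rfl⟩ | ⟨l, m, hml, rfl⟩)
      · exact hVM l i
      · exact div_mem (bf_mem_GS M haM (hYM l.1 l.2) (hVM m)) (hLM (hβL m))

end Pool.Agent.Helper44.RED
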