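import Pool.Agent.Helper44.RED.StD

/-!
# Project RED, module LEAD
-/

set_option autoImplicit false

namespace Pool.Agent.Helper44.RED

private lemma lm_map_Lead {R S : Type} [CommRing R] [CommRing S] {N : ℕ} (f : R →+* S)
    (G : Matrix (Fin N) (Fin N) R) (l : ℕ) : lm (G.map f) l = f (lm G l) := by
  unfold lm
  rw [RingHom.map_det]
  congr 1
  ext p q
  simp only [Matrix.of_apply, RingHom.mapMatrix_apply, Matrix.map_apply]
  split_ifs with h
  · rfl
  · rw [map_zero]

private lemma lm_top_Lead {R : Type} [CommRing R] {N : ℕ} (G : Matrix (Fin N) (Fin N) R) :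
    lm G N = G.det := by
  unfold lm
  congr 1
  ext p q
  simp

private lemma lm_diag_Lead {R : Type} [CommRing R] {N : ℕ} (w : Fin N → R) (l : ℕ) (hl : l ≤ N) :
    lm (Matrix.diagonal w) l = ∏ p : Fin l, w ⟨p.1, lt_of_lt_of_le p.2 hl⟩ := by
  unfold lm
  rw [← Matrix.det_diagonal]
  congr 1
  ext p q
  have hp : p.1 < N := lt_of_lt_of_le p.2 hl
  have hq : q.1 < N := lt_of_lt_of_le q.2 hl
  simp only [Matrix.of_apply, hp, hq, and_self, dite_true, Matrix.diagonal_apply]
  by_cases h : p = q
  · subst h; simp
  · rw [if_neg h, if_neg]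
    intro h'
    apply h
    ext
    exact Fin.mk.inj_iff.1 h'

/-- diagonalisation over a field of characteristic not two -/
private lemma diag_Lead {F : Type} [Field F] (h2 : (2 : F) ≠ 0) {N : ℕ}
    (G : Matrix (Fin N) (Fin N) F) (hG : G.IsSymm) :
    ∃ (P : Matrix (Fin N) (Fin N) F) (w : Fin N → F), P.det ≠ 0 ∧
      P.transpose * G * P = Matrix.diagonal w := by
  have : Invertible (2 : F) := invertibleOfNonzero h2
  have hB : (Matrix.toBilin' G).IsSymm := Matrix.isSymm_toBilin'_iff_isSymm.2 hG
  obtain ⟨v, hv⟩ := LinearMap.BilinForm.exists_orthogonal_basis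
    (LinearMap.BilinForm.isSymm_iff.1 hB)
  have hN : Module.finrank F (Fin N → F) = N := Module.finrank_fin_fun F
  let e : Fin N ≃ Fin (Module.finrank F (Fin N → F)) := finCongr hN.symm
  let v' : Module.Basis (Fin N) F (Fin N → F) := v.reindex e.symm
  let P : Matrix (Fin N) (Fin N) F := Matrix.of fun i j => v' j i
  refine ⟨P, fun i => Matrix.toBilin' G (v' i) (v' i), ?_, ?_⟩
  · have h1 : LinearIndependent F P.col := by
      have : P.col = v' := by
        funext j; rfl
      rw [this]; exact v'.linearIndependent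
    have h3 := Matrix.linearIndependent_cols_iff_isUnit.1 h1
    exact ((Matrix.isUnit_iff_isUnit_det _).1 h3).ne_zero
  · ext i j
    have h1 : (P.transpose * G * P) i j = Matrix.toBilin' G (v' i) (v' j) := by
      rw [Matrix.toBilin'_apply', Matrix.mul_assoc, Matrix.mul_apply]
      unfold dotProduct
      refine Finset.sum_congr rfl fun a _ => ?_
      rw [Matrix.transpose_apply, Matrix.mul_apply]
      rfl
    rw [h1]
    by_cases h : i = j
    · subst h; rw [Matrix.diagonal_apply_eq]
    · rw [Matrix.diagonal_apply_ne _ h]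
      have h4 : e i ≠ e j := fun h' => h (e.injective h')
      have h5 := hv h4
      simpa [v'] using h5

private lemma pencil_cg_Lead {k : Type} [Field k] {m p N : ℕ}
    (A : Fin p → Matrix (Fin N) (Fin N) (MvPolynomial (Fin m) k)) (P : Matrix (Fin N) (Fin N) k) :
    pencil (cg P A) = (P.map MvPolynomial.C).transpose * pencil A * P.map MvPolynomial.C := by
  unfold pencil cg
  rw [Finset.mul_sum, Finset.sum_mul]
  refine Finset.sum_congr rfl fun i _ => ?_
  have h1 : ((P.map MvPolynomial.C).transpose * A i * P.map MvPolynomial.C).map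
      (MvPolynomial.rename (Fin.castAdd p) : MvPolynomial (Fin m) k →ₐ[k] _) =
      (P.map MvPolynomial.C).transpose * (A i).map (MvPolynomial.rename (Fin.castAdd p)) *
        P.map MvPolynomial.C := by
    have e := fun X Y : Matrix (Fin N) (Fin N) (MvPolynomial (Fin m) k) =>
      Matrix.map_mul (L := X) (M := Y)
        (f := (MvPolynomial.rename (Fin.castAdd p) : MvPolynomial (Fin m) k →ₐ[k]
          MvPolynomial (Fin (m + p)) k))
    have e2 : (P.map (MvPolynomial.C : k →+* MvPolynomial (Fin m) k)).map
        (MvPolynomial.rename (Fin.castAdd p) : MvPolynomial (Fin m) k →ₐ[k]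
          MvPolynomial (Fin (m + p)) k) = P.map MvPolynomial.C := by
      ext1 a b
      simp only [Matrix.map_apply]
      exact MvPolynomial.rename_C _ _
    rw [e, e, Matrix.transpose_map, e2]
  rw [h1, Matrix.mul_smul, Matrix.smul_mul]

private lemma pencil_symm_Lead {k : Type} [Field k] {m p N : ℕ}
    (A : Fin p → Matrix (Fin N) (Fin N) (MvPolynomial (Fin m) k)) (hA : ∀ i, (A i).IsSymm) :
    (pencil A).IsSymm := by
  unfold Matrix.IsSymm pencil
  rw [Matrix.transpose_sum]
  refine Finset.sum_congr rfl fun i _ => ?_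
  rw [Matrix.transpose_smul]
  congr 1
  ext a b
  simp only [Matrix.transpose_apply, Matrix.map_apply]
  rw [(hA i).apply]

/-- generic coordinate change -/
private lemma generic_Lead {k F : Type} [Field k] [CharZero k] [Field F] [CharZero F] (φ : k →+* F)
    {N : ℕ} (G : Matrix (Fin N) (Fin N) F) (hG : G.IsSymm) (hdet : G.det ≠ 0) :
    ∃ P : Matrix (Fin N) (Fin N) k, ∀ l ≤ N, lm ((P.map φ).transpose * G * P.map φ) l ≠ 0 := by
  classical
  obtain ⟨P₀, w, hP₀, hw⟩ := diag_Lead (two_ne_zero) G hG
  have hprod : ∏ i, w i ≠ 0 := by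
    rw [← Matrix.det_diagonal, ← hw, Matrix.det_mul, Matrix.det_mul, Matrix.det_transpose]
    exact mul_ne_zero (mul_ne_zero hP₀ hdet) hP₀
  have hwi : ∀ i, w i ≠ 0 := fun i => Finset.prod_ne_zero_iff.1 hprod i (Finset.mem_univ i)
  let X : Matrix (Fin N) (Fin N) (MvPolynomial (Fin N × Fin N) F) :=
    Matrix.of fun i j => MvPolynomial.X (i, j)
  let Q := X.transpose * G.map MvPolynomial.C * X
  have hev : ∀ (P : Matrix (Fin N) (Fin N) F) (l : ℕ),
      MvPolynomial.eval (fun ij : Fin N × Fin N => P ij.1 ij.2) (lm Q l) =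
        lm (P.transpose * G * P) l := by
    intro P l
    rw [← lm_map_Lead]
    congr 1
    have e := fun X Y : Matrix (Fin N) (Fin N) (MvPolynomial (Fin N × Fin N) F) =>
      Matrix.map_mul (L := X) (M := Y)
        (f := (MvPolynomial.eval (fun ij : Fin N × Fin N => P ij.1 ij.2)))
    simp only [Q]
    rw [e, e]
    congr 2
    · ext a b; simp [X]
    · ext a b; simp
    · ext a b; simp [X]
  have hne : ∀ l ≤ N, lm Q l ≠ 0 := by
    intro l hl h
    have h1 := hev P₀ l
    rw [h, map_zero, hw, lm_diag_Lead w l hl] at h1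
    exact Finset.prod_ne_zero_iff.2 (fun p _ => hwi _) h1.symm
  have hprodne : ∏ l ∈ Finset.range (N + 1), lm Q l ≠ 0 :=
    Finset.prod_ne_zero_iff.2 fun l hl => hne l (Nat.lt_succ_iff.1 (Finset.mem_range.1 hl))
  have hex : ∃ x ∈ Set.pi Set.univ (fun _ : Fin N × Fin N => Set.range φ),
      MvPolynomial.eval x (∏ l ∈ Finset.range (N + 1), lm Q l) ≠ 0 := by
    by_contra hcon
    push Not at hcon
    apply hprodne
    refine MvPolynomial.funext_set (fun _ : Fin N × Fin N => Set.range φ)
      (fun _ => Set.infinite_range_of_injective φ.injective) ?_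
    intro x hx
    rw [hcon x hx, map_zero]
  obtain ⟨x, hx, hx0⟩ := hex
  choose y hy using fun ij : Fin N × Fin N => hx ij (Set.mem_univ _)
  refine ⟨Matrix.of fun i j => y (i, j), ?_⟩
  intro l hl h
  apply hx0
  rw [map_prod]
  refine Finset.prod_eq_zero (Finset.mem_range.2 (Nat.lt_succ_of_le hl)) ?_
  have h1 : x = fun ij : Fin N × Fin N => ((Matrix.of fun i j => y (i, j)).map φ) ij.1 ij.2 := by
    funext ij
    simp only [Matrix.map_apply, Matrix.of_apply]
    exact (hy ij).symm
  rw [h1, hev]
  exact h

private lemma qm_conj_Lead {L : Type} [CommRing L] {N : ℕ} (A P : Matrix (Fin N) (Fin N) L)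
    (u : Fin N → L) : qm (P.transpose * A * P) u = qm A (P.mulVec u) := by
  unfold qm
  conv_rhs => rw [← Matrix.vecMul_transpose, ← Matrix.dotProduct_mulVec]
  rw [Matrix.vecMul_transpose, Matrix.mulVec_mulVec, Matrix.mulVec_mulVec, Matrix.mul_assoc]

private lemma oddZero_cg_Lead {k : Type} [Field k] {m p N : ℕ}
    (A : Fin p → Matrix (Fin N) (Fin N) (MvPolynomial (Fin m) k)) (P : Matrix (Fin N) (Fin N) k)
    (hP : P.det ≠ 0) (h : OddZero (cg P A)) : OddZero A := by
  obtain ⟨L, iF, iA, hodd, u, hu, hz⟩ := h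
  letI := iF
  letI := iA
  let g : MvPolynomial (Fin m) k →+* L :=
    (algebraMap (KT k m) L).comp (algebraMap (MvPolynomial (Fin m) k) (KT k m))
  let PL : Matrix (Fin N) (Fin N) L := P.map (g.comp MvPolynomial.C)
  have hPL : PL.det ≠ 0 := by
    have : PL.det = (g.comp MvPolynomial.C) P.det := by
      rw [RingHom.map_det]; rfl
    rw [this, Ne, map_eq_zero]
    exact hP
  refine ⟨L, iF, iA, hodd, PL.mulVec u, ?_, ?_⟩
  · intro h0
    apply hu
    have hu1 : IsUnit PL.det := isUnit_iff_ne_zero.2 hPL
    have : PL⁻¹.mulVec (PL.mulVec u) = u := by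
      rw [Matrix.mulVec_mulVec, Matrix.nonsing_inv_mul _ hu1, Matrix.one_mulVec]
    rw [← this, h0, Matrix.mulVec_zero]
  · rintro _ ⟨i, rfl⟩
    have h1 := hz _ ⟨i, rfl⟩
    have h2 : ((cg P A i).map (algebraMap (MvPolynomial (Fin m) k) (KT k m))).map
        (algebraMap (KT k m) L) = PL.transpose * (A i).map g * PL := by
      have e0 : ((cg P A i).map (algebraMap (MvPolynomial (Fin m) k) (KT k m))).map
        (algebraMap (KT k m) L) = (cg P A i).map g := by
        ext a b; rfl
      rw [e0]
      unfold cg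
      have e := fun X Y : Matrix (Fin N) (Fin N) (MvPolynomial (Fin m) k) =>
        Matrix.map_mul (L := X) (M := Y) (f := g)
      rw [e, e, Matrix.transpose_map]
      rfl
    have e3 : ((A i).map (algebraMap (MvPolynomial (Fin m) k) (KT k m))).map
        (algebraMap (KT k m) L) = (A i).map g := by
      ext a b; rfl
    rw [e3, ← qm_conj_Lead, ← h2]
    exact h1

private lemma cg_symm_Lead {k : Type} [Field k] {m p N : ℕ}
    (A : Fin p → Matrix (Fin N) (Fin N) (MvPolynomial (Fin m) k)) (hA : ∀ i, (A i).IsSymm)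
    (P : Matrix (Fin N) (Fin N) k) (i : Fin p) : (cg P A i).IsSymm := by
  unfold Matrix.IsSymm cg
  rw [Matrix.transpose_mul, Matrix.transpose_mul, Matrix.transpose_transpose, (hA i).eq,
    Matrix.mul_assoc]

theorem pLead : StLead := by
  intro k _ _ m p N A hA
  refine ⟨fun hdet => ?_, fun P hP => ⟨fun i => cg_symm_Lead A hA P i, ?_, ?_⟩⟩
  · let R := MvPolynomial (Fin (m + p)) k
    haveI : CharZero (KT k (m + p)) :=
      charZero_of_injective_algebraMap (R := k) (algebraMap k (KT k (m + p))).injective
    have hinj := IsFractionRing.injective (MvPolynomial (Fin (m + p)) k) (KT k (m + p))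
    have hs : ((pencil A).map (algebraMap (MvPolynomial (Fin (m + p)) k) (KT k (m + p)))).IsSymm := by
      unfold Matrix.IsSymm
      ext a b
      simp only [Matrix.transpose_apply, Matrix.map_apply]
      rw [(pencil_symm_Lead A hA).apply]
    have hd : ((pencil A).map (algebraMap (MvPolynomial (Fin (m + p)) k) (KT k (m + p)))).det ≠ 0 := by
      have : ((pencil A).map (algebraMap (MvPolynomial (Fin (m + p)) k) (KT k (m + p)))).det =
          algebraMap (MvPolynomial (Fin (m + p)) k) (KT k (m + p)) (pencil A).det := by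
        rw [RingHom.map_det]; rfl
      rw [this, Ne, map_eq_zero_iff _ hinj]
      exact hdet
    obtain ⟨P, hP⟩ := generic_Lead (algebraMap k (KT k (m + p))) _ hs hd
    have hkey : ∀ l ≤ N, lm (pencil (cg P A)) l ≠ 0 := by
      intro l hl h
      apply hP l hl
      have e1 : (P.map (algebraMap k (KT k (m + p)))).transpose *
          (pencil A).map (algebraMap (MvPolynomial (Fin (m + p)) k) (KT k (m + p))) *
          P.map (algebraMap k (KT k (m + p))) =
          (pencil (cg P A)).map (algebraMap (MvPolynomial (Fin (m + p)) k) (KT k (m + p))) := by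
        rw [pencil_cg_Lead]
        have e := fun X Y : Matrix (Fin N) (Fin N) (MvPolynomial (Fin (m + p)) k) =>
          Matrix.map_mul (L := X) (M := Y)
            (f := algebraMap (MvPolynomial (Fin (m + p)) k) (KT k (m + p)))
        rw [e, e]
        have e2 : (P.map (MvPolynomial.C : k →+* MvPolynomial (Fin (m + p)) k)).map
            (algebraMap (MvPolynomial (Fin (m + p)) k) (KT k (m + p))) =
            P.map (algebraMap k (KT k (m + p))) := by
          ext a b
          simp only [Matrix.map_apply]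
          exact (IsScalarTower.algebraMap_apply k (MvPolynomial (Fin (m + p)) k)
            (KT k (m + p)) (P a b)).symm
        rw [Matrix.transpose_map, e2]
      rw [e1, lm_map_Lead, h, map_zero]
    refine ⟨P, ?_, hkey⟩
    intro h0
    apply hkey N le_rfl
    rw [lm_top_Lead, pencil_cg_Lead, Matrix.det_mul]
    have : (P.map (MvPolynomial.C : k →+* MvPolynomial (Fin (m + p)) k)).det =
        MvPolynomial.C P.det := by
      rw [RingHom.map_det]; rfl
    rw [this, h0, map_zero, mul_zero]
  · exact oddZero_cg_Lead A P hP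
  · intro h
    have hu : IsUnit P.det := isUnit_iff_ne_zero.2 hP
    have h1 : A = cg P⁻¹ (cg P A) := by
      funext i
      unfold cg
      have e1 : P.map (MvPolynomial.C : k →+* MvPolynomial (Fin m) k) *
          P⁻¹.map (MvPolynomial.C : k →+* MvPolynomial (Fin m) k) = 1 := by
        rw [← Matrix.map_mul, Matrix.mul_nonsing_inv _ hu]
        exact Matrix.map_one _ (map_zero _) (map_one _)
      have e2 : (P⁻¹.map (MvPolynomial.C : k →+* MvPolynomial (Fin m) k)).transpose *
          (P.map (MvPolynomial.C : k →+* MvPolynomial (Fin m) k)).transpose = 1 := by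
        rw [← Matrix.transpose_mul, e1, Matrix.transpose_one]
      symm
      calc (P⁻¹.map (MvPolynomial.C : k →+* MvPolynomial (Fin m) k)).transpose *
            ((P.map (MvPolynomial.C : k →+* MvPolynomial (Fin m) k)).transpose * A i *
              P.map (MvPolynomial.C : k →+* MvPolynomial (Fin m) k)) *
            P⁻¹.map (MvPolynomial.C : k →+* MvPolynomial (Fin m) k)
          = ((P⁻¹.map (MvPolynomial.C : k →+* MvPolynomial (Fin m) k)).transpose *
            (P.map (MvPolynomial.C : k →+* MvPolynomial (Fin m) k)).transpose) * A i *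
              (P.map (MvPolynomial.C : k →+* MvPolynomial (Fin m) k) *
            P⁻¹.map (MvPolynomial.C : k →+* MvPolynomial (Fin m) k)) := by
            simp only [Matrix.mul_assoc]
        _ = A i := by rw [e1, e2, Matrix.one_mul, Matrix.mul_one]
    rw [h1] at h
    have hP' : P⁻¹.det ≠ 0 := by
      rw [Matrix.det_nonsing_inv]
      simpa using hP
    exact oddZero_cg_Lead (cg P A) P⁻¹ hP' h

end Pool.Agent.Helper44.RED
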