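import Pool.Agent.Helper44.RED.StF
import Pool.Agent.Helper4.IL.IntPrim

/-!
# Project RED, module PL2: further operations on codes are primitive recursive
-/

set_option autoImplicit false

namespace Pool.Agent.Helper44.RED

open Pool.Agent.Helper4.IL

section

variable {α β : Type} [Primcodable α] [Primcodable β]

private lemma natSum_PL2 {f : α → List ℕ} (hf : Primrec f) : Primrec fun a => (f a).sum := by
  have hh : Primrec₂ (fun (_ : α) (q : ℕ × ℕ) => q.1 + q.2) :=
    Primrec.nat_add.comp (Primrec.fst.comp Primrec.snd) (Primrec.snd.comp Primrec.snd)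
  exact Primrec.list_foldr (g := fun _ => 0) hf (Primrec.const 0) hh

private lemma intSum_PL2 {f : α → List ℤ} (hf : Primrec f) : Primrec fun a => (f a).sum := by
  have hh : Primrec₂ (fun (_ : α) (q : ℤ × ℤ) => q.1 + q.2) :=
    primrec_int_add.comp (Primrec.fst.comp Primrec.snd) (Primrec.snd.comp Primrec.snd)
  exact Primrec.list_foldr (g := fun _ => 0) hf (Primrec.const 0) hh

private lemma intProd_PL2 {f : α → List ℤ} (hf : Primrec f) : Primrec fun a => (f a).prod := by
  have hh : Primrec₂ (fun (_ : α) (q : ℤ × ℤ) => q.1 * q.2) :=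
    primrec_int_mul.comp (Primrec.fst.comp Primrec.snd) (Primrec.snd.comp Primrec.snd)
  exact Primrec.list_foldr (g := fun _ => 1) hf (Primrec.const 1) hh

private lemma all_eq_PL2 {γ : Type} (l : List γ) (p : γ → Bool) :
    l.all p = l.foldr (fun a b => p a && b) true := by
  induction l with
  | nil => rfl
  | cons a l ih => rw [List.all_cons, List.foldr_cons, ih]

private lemma filter_eq_PL2 {γ : Type} (l : List γ) (p : γ → Bool) :
    l.filter p = l.flatMap (fun a => if p a = true then [a] else []) := by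
  induction l with
  | nil => rfl
  | cons a l ih =>
    rw [List.flatMap_cons, List.filter_cons, ih]
    split_ifs <;> simp

private lemma all_PL2 {f : α → List β} {p : α → β → Bool} (hf : Primrec f) (hp : Primrec₂ p) :
    Primrec fun a => (f a).all (p a) := by
  have hh : Primrec₂ (fun (a : α) (q : β × Bool) => p a q.1 && q.2) :=
    Primrec.and.comp (hp.comp Primrec.fst (Primrec.fst.comp Primrec.snd))
      (Primrec.snd.comp Primrec.snd)
  refine (Primrec.list_foldr (g := fun _ => true) hf (Primrec.const true) hh).of_eq fun a => ?_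
  exact (all_eq_PL2 _ _).symm

private lemma filter_PL2 {f : α → List β} {p : α → β → Bool} (hf : Primrec f) (hp : Primrec₂ p) :
    Primrec fun a => (f a).filter (p a) := by
  have hh : Primrec₂ (fun (a : α) (b : β) => if p a b = true then [b] else []) :=
    Primrec.ite (Primrec.eq.comp hp (Primrec.const true))
      (Primrec.list_cons.comp Primrec.snd (Primrec.const [])) (Primrec.const [])
  refine (Primrec.list_flatMap hf hh).of_eq fun a => ?_
  exact (filter_eq_PL2 _ _).symm

private lemma beqNat_PL2 {f g : α → ℕ} (hf : Primrec f) (hg : Primrec g) :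
    Primrec fun a => (f a == g a) := by
  refine (Primrec.ite (Primrec.eq.comp hf hg) (Primrec.const true) (Primrec.const false)).of_eq
    fun a => ?_
  by_cases h : f a = g a
  · rw [if_pos h, h]; simp
  · rw [if_neg h]; simp [h]

private lemma sameE_PL2 {f g : α → List ℕ} (hf : Primrec f) (hg : Primrec g) :
    Primrec fun a => sameE (f a) (g a) := by
  unfold sameE
  refine all_PL2 (f := fun a => List.range (max (f a).length (g a).length))
    (p := fun a i => (f a).getD i 0 == (g a).getD i 0) ?_ ?_
  · exact Primrec.list_range.comp (Primrec.nat_max.comp (Primrec.list_length.comp hf)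
      (Primrec.list_length.comp hg))
  · exact beqNat_PL2 ((Primrec.list_getD 0).comp (hf.comp Primrec.fst) Primrec.snd)
      ((Primrec.list_getD 0).comp (hg.comp Primrec.fst) Primrec.snd)

private lemma intSign_PL2 : Primrec Int.sign := by
  have h : Primrec (fun z : ℤ => if 0 < z.toNat then (1 : ℤ) else if 0 < (-z).toNat then -1 else 0) :=
    Primrec.ite (Primrec.nat_lt.comp (Primrec.const 0) primrec_int_toNat) (Primrec.const 1)
      (Primrec.ite (Primrec.nat_lt.comp (Primrec.const 0) primrec_int_neg_toNat)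
        (Primrec.const (-1)) (Primrec.const 0))
  refine h.of_eq fun z => ?_
  rcases lt_trichotomy z 0 with hz | hz | hz
  · rw [if_neg (by omega), if_pos (by omega), Int.sign_eq_neg_one_of_neg hz]
  · subst hz; simp
  · rw [if_pos (by omega), Int.sign_eq_one_of_pos hz]

private lemma int_beq_PL2 {f g : α → ℤ} (hf : Primrec f) (hg : Primrec g) :
    Primrec fun a => (f a == g a) := by
  refine (Primrec.ite (Primrec.eq.comp hf hg) (Primrec.const true) (Primrec.const false)).of_eq
    fun a => ?_
  by_cases h : f a = g a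
  · rw [if_pos h, h]; simp
  · rw [if_neg h]; simp [h]

private lemma sgw_PL2
    (hd : ∀ (γ : Type) [Primcodable γ] (b q i : γ → ℕ), Primrec b → Primrec q → Primrec i →
      Primrec fun a => dig (b a) (q a) (i a))
    {n q : α → ℕ} (hn : Primrec n) (hq : Primrec q) :
    Primrec fun a => sgw (n a) (q a) := by
  unfold sgw
  refine intProd_PL2 ?_
  refine Primrec.list_map (Primrec.list_range.comp hn) ?_
  show Primrec fun x : α × ℕ => ((List.range x.2).map fun j =>
    ((dig (n x.1) (q x.1) x.2 : ℤ) - (dig (n x.1) (q x.1) j : ℤ)).sign).prod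
  refine intProd_PL2 ?_
  refine Primrec.list_map (Primrec.list_range.comp Primrec.snd) ?_
  show Primrec fun y : (α × ℕ) × ℕ =>
    ((dig (n y.1.1) (q y.1.1) y.1.2 : ℤ) - (dig (n y.1.1) (q y.1.1) y.2 : ℤ)).sign
  refine intSign_PL2.comp (primrec_int_sub.comp (primrec_int_ofNat.comp ?_)
    (primrec_int_ofNat.comp ?_))
  · exact hd _ _ _ _ (hn.comp (Primrec.fst.comp Primrec.fst))
      (hq.comp (Primrec.fst.comp Primrec.fst)) (Primrec.snd.comp Primrec.fst)
  · exact hd _ _ _ _ (hn.comp (Primrec.fst.comp Primrec.fst))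
      (hq.comp (Primrec.fst.comp Primrec.fst)) Primrec.snd

end

theorem pPL2 : StPL2 := by
  intro h1 α _
  have hdig : ∀ (γ : Type) [Primcodable γ] (b q i : γ → ℕ), Primrec b → Primrec q → Primrec i →
      Primrec fun a => dig (b a) (q a) (i a) := fun γ _ => (h1 γ).2.2.2.2.2.2.2.1
  have hpow : ∀ (γ : Type) [Primcodable γ] (f g : γ → ℕ), Primrec f → Primrec g →
      Primrec fun a => f a ^ g a := fun γ _ => (h1 γ).2.2.2.2.2.2.2.2
  have hupd : ∀ (b q i d : α → ℕ), Primrec b → Primrec q → Primrec i → Primrec d →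
    Primrec fun a => upd (b a) (q a) (i a) (d a) := by
    intro b q i d hb hq hi hd
    have hp := hpow α b i hb hi
    exact Primrec.nat_add.comp (Primrec.nat_sub.comp hq
      (Primrec.nat_mul.comp (hdig α b q i hb hq hi) hp)) (Primrec.nat_mul.comp hd hp)
  refine ⟨?_, ?_, ?_, ?_, ?_, ?_, hupd, ?_⟩
  · intro n f hn hf
    unfold pdet
    refine (h1 α).2.2.2.2.1 (fun a => n a ^ n a)
      (fun a q => pmul (pint (sgw (n a) q)) (pprod (n a) fun i => f a (dig (n a) q i) i))
      (hpow α n n hn hn) ?_
    show Primrec fun x : α × ℕ =>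
      pmul (pint (sgw (n x.1) x.2)) (pprod (n x.1) fun i => f x.1 (dig (n x.1) x.2 i) i)
    refine (h1 (α × ℕ)).1 _ _ ?_ ?_
    · exact (h1 (α × ℕ)).2.2.1 _ (sgw_PL2 hdig (hn.comp Primrec.fst) Primrec.snd)
    · refine (h1 (α × ℕ)).2.2.2.2.2.1 (fun x => n x.1)
        (fun x i => f x.1 (dig (n x.1) x.2 i) i) (hn.comp Primrec.fst) ?_
      show Primrec fun y : (α × ℕ) × ℕ => f y.1.1 (dig (n y.1.1) y.1.2 y.2) y.2
      exact hf.comp (Primrec.pair (Primrec.fst.comp Primrec.fst)
        (Primrec.pair (hdig _ _ _ _ (hn.comp (Primrec.fst.comp Primrec.fst))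
          (Primrec.snd.comp Primrec.fst) Primrec.snd) Primrec.snd))
  · intro f hf
    unfold pdeg
    have hm : Primrec fun a => (f a).map fun b : ℤ × List ℕ => b.2.sum := by
      refine Primrec.list_map hf ?_
      show Primrec fun x : α × (ℤ × List ℕ) => x.2.2.sum
      exact natSum_PL2 (Primrec.snd.comp Primrec.snd)
    have hh : Primrec₂ (fun (_ : α) (q : ℕ × ℕ) => max q.1 q.2) :=
      Primrec.nat_max.comp (Primrec.fst.comp Primrec.snd) (Primrec.snd.comp Primrec.snd)
    exact Primrec.list_foldl (g := fun _ => 0) hm (Primrec.const 0) hh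
  · intro f hf
    unfold pzero
    refine all_PL2 (f := f) (p := fun a (b : ℤ × List ℕ) =>
      (((f a).map fun c => if sameE b.2 c.2 then c.1 else 0).sum == 0)) hf ?_
    show Primrec fun x : α × (ℤ × List ℕ) =>
      (((f x.1).map fun c => if sameE x.2.2 c.2 then c.1 else 0).sum == 0)
    refine int_beq_PL2 (intSum_PL2 ?_) (Primrec.const 0)
    refine Primrec.list_map (hf.comp Primrec.fst) ?_
    show Primrec fun y : (α × (ℤ × List ℕ)) × (ℤ × List ℕ) =>
      if sameE y.1.2.2 y.2.2 then y.2.1 else (0 : ℤ)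
    refine Primrec.ite ?_ (Primrec.fst.comp Primrec.snd) (Primrec.const 0)
    exact Primrec.eq.comp (sameE_PL2 (Primrec.snd.comp (Primrec.snd.comp Primrec.fst))
      (Primrec.snd.comp Primrec.snd)) (Primrec.const true)
  · intro n f hn hf
    unfold phom
    refine Primrec.list_map hf ?_
    show Primrec fun x : α × (ℤ × List ℕ) => (x.2.1, (2 * n x.1 - x.2.2.sum) :: x.2.2)
    refine Primrec.pair (Primrec.fst.comp Primrec.snd) (Primrec.list_cons.comp ?_
      (Primrec.snd.comp Primrec.snd))
    exact Primrec.nat_sub.comp (Primrec.nat_mul.comp (Primrec.const 2) (hn.comp Primrec.fst))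
      (natSum_PL2 (Primrec.snd.comp Primrec.snd))
  · intro n f hn hf
    unfold ptr
    refine filter_PL2 (f := f) (p := fun a (b : ℤ × List ℕ) => ((b.2.drop (n a)).sum == 0)) hf ?_
    show Primrec fun x : α × (ℤ × List ℕ) => ((x.2.2.drop (n x.1)).sum == 0)
    refine beqNat_PL2 (natSum_PL2 ?_) (Primrec.const 0)
    exact Primrec.list_drop.comp (hn.comp Primrec.fst) (Primrec.snd.comp Primrec.snd)
  · intro c f hc hf
    unfold pif
    exact Primrec.ite (Primrec.eq.comp hc (Primrec.const true)) hf (Primrec.const [])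
  · intro b q i j hb hq hi hj
    unfold swp
    have hu1 := hupd b q i (fun a => dig (b a) (q a) (j a)) hb hq hi (hdig α b q j hb hq hj)
    have hpj := hpow α b j hb hj
    have h2 : Primrec fun a => dig (b a) (upd (b a) (q a) (i a) (dig (b a) (q a) (j a))) (j a) :=
      hdig α b _ j hb hu1 hj
    unfold upd at *
    exact Primrec.nat_add.comp (Primrec.nat_sub.comp hu1 (Primrec.nat_mul.comp h2 hpj))
      (Primrec.nat_mul.comp (hdig α b q i hb hq hi) hpj)

end Pool.Agent.Helper44.RED
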