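import Pool.Agent.Helper44.RED.StA

set_option autoImplicit false

namespace Pool.Agent.Helper44.RED

/-- module REP -/
theorem pRep : StUniv → StRep := by
  intro hU K ι _ _ h2 α a hα hiso
  unfold Aniso at hiso
  push Not at hiso
  obtain ⟨v, hv, hv0⟩ := hiso
  rw [qf_sumElim] at hv
  have h1 : qf (fun _ : Unit => a) (v ∘ Sum.inr) = a * v (Sum.inr ()) ^ 2 := by
    unfold qf
    simp
  rw [h1] at hv
  by_cases ht : v (Sum.inr ()) = 0
  · rw [ht] at hv
    refine hU K ι h2 α hα ?_ (-a)
    intro han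
    apply hv0
    have h3 : v ∘ Sum.inl = 0 := han _ (by linear_combination hv)
    funext j
    rcases j with j | j
    · exact congrFun h3 j
    · exact ht
  · refine ⟨(v (Sum.inr ()))⁻¹ • (v ∘ Sum.inl), ?_⟩
    rw [qf_smul]
    have h4 : qf α (v ∘ Sum.inl) = - (a * v (Sum.inr ()) ^ 2) := by linear_combination hv
    rw [h4]
    field_simp

end Pool.Agent.Helper44.RED
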