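import Pool.Agent.Helper44.RED.StC
import Pool.Agent.Helper44.RED.Fld

/-!
# Project RED: module TRDEG
-/

set_option autoImplicit false

open Polynomial

namespace Pool.Agent.Helper44.RED

open scoped IntermediateField.algebraAdjoinAdjoin in
private lemma alg_adjoin_Trdeg {k F : Type} [Field k] [Field F] [Algebra k F] (S : Set F)
    (h : Algebra.IsAlgebraic (IntermediateField.adjoin k S) F) :
    Algebra.IsAlgebraic (Algebra.adjoin k S) F :=
  (IsFractionRing.comap_isAlgebraic_iff (A := Algebra.adjoin k S)
    (K := IntermediateField.adjoin k S) (C := F)).2 h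

theorem pTrdeg : StTrdeg := by
  classical
  intro k F ι _ _ _ _ y hy hAlg ⟨g, hg⟩
  rw [bot_sup_eq] at hg
  have hy' : AlgebraicIndependent k y := hy
  have hyb : IsTranscendenceBasis k y :=
    isTranscendenceBasis_iff_algebraicIndependent_isAlgebraic.2
      ⟨hy', alg_adjoin_Trdeg _ hAlg⟩
  have hgA : Algebra.IsAlgebraic (Algebra.adjoin k (Set.range g)) F := by
    apply alg_adjoin_Trdeg
    rw [← hg]
    constructor
    intro x
    exact isAlgebraic_algebraMap (⟨x, trivial⟩ : (⊤ : IntermediateField k F))
  obtain ⟨t, hts, ht⟩ := exists_isTranscendenceBasis_subset (R := k) (Set.range g)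
  have hcard := hyb.cardinalMk_eq ht
  have hfin : (Set.range g).Finite := Set.finite_range g
  have hft : Finite t := (hfin.subset hts)
  rw [← Nat.cast_card, ← Nat.cast_card, Nat.cast_inj] at hcard
  have hr : (Set.range g).ncard ≤ Fintype.card ι := by
    rw [← Set.image_univ]
    refine (Set.ncard_image_le Set.finite_univ).trans ?_
    rw [Set.ncard_univ, Nat.card_eq_fintype_card, Fintype.card_fin]
  have hle : t.ncard ≤ (Set.range g).ncard := Set.ncard_le_ncard hts hfin
  have hc : t.ncard = Fintype.card ι := by
    rw [← Nat.card_eq_fintype_card, hcard, Nat.card_coe_set_eq]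
  have ht' : t = Set.range g := Set.eq_of_subset_of_ncard_le hts (by omega) hfin
  have hinj : Function.Injective g := by
    have h3 : (Set.range g).ncard = Fintype.card ι := by rw [← ht', hc]
    have h4 : Function.Bijective (Set.rangeFactorization g) := by
      have : Fintype (Set.range g) := hfin.fintype
      rw [Fintype.bijective_iff_surjective_and_card]
      refine ⟨Set.rangeFactorization_surjective, ?_⟩
      rw [Fintype.card_fin]
      have h5 : Fintype.card (Set.range g) = (Set.range g).ncard := by
        rw [← Nat.card_eq_fintype_card (α := Set.range g), Nat.card_coe_set_eq]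
      exact h3.symm.trans h5.symm
    intro a b hab
    exact h4.1 (Subtype.ext hab)
  refine ⟨Fintype.card ι, g, ?_, ?_⟩
  · show AlgebraicIndependent k g
    subst ht'
    exact (algebraicIndependent_subtype_range hinj).1 ht.1
  · show Subfield.closure (Set.range (algebraMap k F) ∪ Set.range g) = ⊤
    rw [← IntermediateField.adjoin_toSubfield, ← hg]
    rfl

end Pool.Agent.Helper44.RED
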