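import Pool.Agent.Helper44.RED.StB

set_option autoImplicit false

namespace Pool.Agent.Helper44.RED

theorem pUnramIso : StUnramIso := by
  intro F ι κ _ _ _ _ _ O a b hcard hb hemb hun
  obtain ⟨v, h0, h1⟩ := hemb
  obtain ⟨B, hB0, hB1, hB2⟩ := hun
  let e : ι ≃ κ := Fintype.equivOfCardEq hcard
  let V : Matrix ι κ F := Matrix.of fun i j => v j i
  have hV : V.transpose * Matrix.diagonal a * V = Matrix.diagonal b := by
    ext j j'
    rw [Matrix.mul_apply]
    have hs : ∀ i, (V.transpose * Matrix.diagonal a) j i * V i j' = a i * (v j i * v j' i) := by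
      intro i
      rw [Matrix.mul_diagonal, Matrix.transpose_apply]
      change v j i * a i * v j' i = _
      ring
    simp_rw [hs]
    by_cases hj : j = j'
    · subst hj
      rw [Matrix.diagonal_apply_eq]
      have := h1 j
      rw [← bf_self] at this
      exact this
    · rw [Matrix.diagonal_apply_ne _ hj]
      exact h0 j j' hj
  have hVB : (V * B).transpose * Matrix.diagonal a * (V * B)
      = B.transpose * Matrix.diagonal b * B := by
    rw [← hV, Matrix.transpose_mul]
    simp only [Matrix.mul_assoc]
  have hM : ((V * B).submatrix id e).transpose * Matrix.diagonal a * (V * B).submatrix id e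
      = (B.transpose * Matrix.diagonal b * B).submatrix e e := by
    rw [← hVB, Matrix.submatrix_mul _ _ e id e Function.bijective_id,
      Matrix.submatrix_mul _ _ e id id Function.bijective_id, Matrix.submatrix_id_id,
      Matrix.transpose_submatrix]
  have hdet : (((V * B).submatrix id e).transpose * Matrix.diagonal a
      * (V * B).submatrix id e).det = (B.transpose * Matrix.diagonal b * B).det := by
    rw [hM, Matrix.det_submatrix_equiv_self]
  refine ⟨(V * B).submatrix id e, ?_, fun i j => ?_, ?_⟩
  · intro h
    have h2 : (B.transpose * Matrix.diagonal b * B).det = 0 := by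
      rw [← hdet, Matrix.det_mul, h, mul_zero]
    rw [Matrix.det_mul, Matrix.det_mul, Matrix.det_transpose, Matrix.det_diagonal] at h2
    have h3 : ∏ j, b j ≠ 0 := Finset.prod_ne_zero_iff.2 fun j _ => hb j
    exact mul_ne_zero (mul_ne_zero hB0 h3) hB0 h2
  · rw [hM]
    exact hB1 (e i) (e j)
  · rw [hdet]
    exact hB2

end Pool.Agent.Helper44.RED
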