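import Pool.Agent.Helper44.RED.Lib

/-!
# Project RED, block A: quadratic forms over fields (all statements with complete proofs)

Every statement is a `def St… : Prop`; a module proves one of them from the others (as hypotheses).
Notation in the proofs: `π = pf x`, `D(a)` = nonzero values of the form `<a>`, `b ⊂ a` means `Emb b a`,
`a ≅ b` means `Emb a b` and `Emb b a` with index sets of the same size, `⊥` is `Sum.elim`.
-/

set_option autoImplicit false

open Polynomial

namespace Pool.Agent.Helper44.RED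

/-- ROUND. Pfister forms are round: `c = π(u) ≠ 0` implies `c π ⊂ π`.
PROOF. Induction on `n` (`n = 0`: `π = <1>`, `c = u²`, `Emb.sq`). Splitting subsets of `Fin (n+1)`
according to whether they contain the last element, `π = π' ⊥ -y π'` with `π' = pf (x ∘ castSucc)`,
`y = x (last)` (an equivalence `Finset (Fin (n+1)) ≃ Finset (Fin n) ⊕ Finset (Fin n)`), and
`c = α - y β`, `α = π'(u₀)`, `β = π'(u₁)`. (i) `β = 0`: `c = α`, `c π' ⊂ π'`, so
`c π = c π' ⊥ -y c π' ⊂ π' ⊥ -y π'`. (ii) `α = 0`: `c = -yβ`, `c π = -y (β π') ⊥ y² (β π') ⊂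
-y π' ⊥ π'` (squares: `Emb.sq`). (iii) both nonzero: `c π = c π' ⊥ -y c π'`; since `α π' ≅ π'`,
`β π' ≅ π'` (here `c π' ⊂ π'` implies `π' ⊂ c π'`: scale by `c` and use `c² π' ≅ π'`), one has
`-y c π' ≅ -y c α β π'` and `c π' ⊥ (-α y β c) π' = π' ⊗ <c, α (-yβ) c> ≅ π' ⊗ <α, -y β>
≅ π' ⊥ -y π'`, by the binary isometry `<c, α γ c> ≅ <α, γ>` for `c = α + γ ≠ 0` (the vectors
`(1,1)` and `(γ, -α)` of `<α, γ>` have norms `α + γ` and `α γ (α + γ)` and are orthogonal). -/
def StRound : Prop := ∀ (K : Type) [Field K], (2 : K) ≠ 0 → ∀ (n : ℕ) (x : Fin n → K),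
  (∀ j, x j ≠ 0) → ∀ u : Finset (Fin n) → K, qf (pf x) u ≠ 0 →
    Emb (fun S => qf (pf x) u * pf x S) (pf x)

/-- REFL. Vectors of the same nonzero norm are conjugate.
PROOF. If `q(x - y) ≠ 0` take `T z = z - 2 b(z, x-y)/q(x-y) • (x-y)` (reflection; `q(x) = q(y)` gives
`2 b(x, x-y) = q(x-y)`, so `T x = y`). Otherwise `q(x+y) = 2q(x) + 2q(y) - q(x-y) = 4 q(x) ≠ 0`, and
minus the reflection in `x + y` maps `x` to `y`. -/
def StRefl : Prop := ∀ (K ι : Type) [Field K] [Fintype ι], (2 : K) ≠ 0 → ∀ (a x y : ι → K),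
  qf a x = qf a y → qf a x ≠ 0 →
    ∃ T : (ι → K) →ₗ[K] (ι → K), (∀ u v, bf a (T u) (T v) = bf a u v) ∧ T x = y

/-- CANCEL. Witt cancellation.
PROOF. Induction on the size of `ι` (transport along `ι ≃ Fin m`, or `Fintype.induction_empty_option`):
suffices `ι` a point, `q = <c>`, `c ≠ 0`, with `ρ` replaced by `q' ⊥ ρ`, `β` by `q' ⊥ β`. Let `v₀, v_j`
be the vectors of `<c> ⊥ β` in `<c> ⊥ ρ`, `e₀` the first basis vector. By REFL there is an isometry `T`
with `T v₀ = e₀`; `T v_j` is orthogonal to `e₀`, so its first coordinate vanishes, and the other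
coordinates of the `T v_j` give `β ⊂ ρ`. -/
def StCancel : Prop := ∀ (K ι κ κ' : Type) [Field K] [Fintype ι] [Fintype κ], (2 : K) ≠ 0 →
  ∀ (q : ι → K) (ρ : κ → K) (β : κ' → K), (∀ i, q i ≠ 0) →
    Emb (Sum.elim q β) (Sum.elim q ρ) → Emb β ρ

/-- COMPL. Orthogonal complements.
PROOF. The vectors `v_j` (`j < m`) are linearly independent (pair a relation with `v_i`), so
`m ≤ card ι`. The form `b(·,·)` is nondegenerate on `ι → K`; `W` = orthogonal complement of the span has
dimension `card ι - m`, and `b` restricted to `W` is nondegenerate (the span is nondegenerate as all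
`b_j ≠ 0`). `W` has an orthogonal basis (`LinearMap.BilinForm.exists_orthogonal_basis`, 2 invertible),
its vectors have nonzero norm by nondegeneracy. -/
def StCompl : Prop := ∀ (K ι : Type) [Field K] [Fintype ι], (2 : K) ≠ 0 → ∀ (a : ι → K),
  (∀ i, a i ≠ 0) → ∀ (m : ℕ) (b : Fin m → K), (∀ j, b j ≠ 0) → Emb b a →
    m ≤ Fintype.card ι ∧ ∃ c : Fin (Fintype.card ι - m) → K, (∀ j, c j ≠ 0) ∧
      Emb (Sum.elim b c) a

/-- FLIP. An embedding between forms of the same dimension is an isometry.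
PROOF. Let `V` be the square matrix of the vectors (transport indices by an equivalence `ι ≃ κ`):
`Vᵀ diag(a) V = diag(b)` is invertible, so `V` and `diag(a)` are invertible and
`diag(a) = (V⁻¹)ᵀ diag(b) V⁻¹`; the columns of `V⁻¹` give `a ⊂ b`. -/
def StFlip : Prop := ∀ (K ι κ : Type) [Field K] [Fintype ι] [Fintype κ] (a : ι → K) (b : κ → K),
  Fintype.card ι = Fintype.card κ → (∀ j, b j ≠ 0) → Emb b a → Emb a b ∧ ∀ i, a i ≠ 0

/-- PT. Purely transcendental extensions preserve anisotropy.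
PROOF. Let `φ : E → F`, `F = E(z₁,…,z_m)`. Suppose `Σ φ(b_i) x_i² = 0`, `x ≠ 0`. Every element of `F` is a
quotient of values at `z` of polynomials over `E` (these quotients form a subfield containing `φ(E)` and
the `z_i`); clearing denominators we may assume `x_i = g_i(z)`, `g_i ∈ E[Z]`, not all zero, and by
independence `Σ b_i g_i² = 0` in `E[Z]`. Let `d` be the largest (for the lexicographic order, or by
induction on `m` through one variable polynomials and degrees) exponent occurring in some `g_i`,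
`c_i` its coefficient in `g_i`: the coefficient of `Z^{2d}` in the sum is `Σ b_i c_i² ≠ 0` by anisotropy. -/
def StPT : Prop := ∀ (E F : Type) [Field E] [Field F] (φ : E →+* F), PureExt φ → Pres φ

/-- ODD. One more variable with odd valuation.
PROOF. Clear denominators: suppose `A(g) + z B(h) = 0` for polynomials `g_i, h_j ∈ L[z]`, not all zero. If
`g ≠ 0`, `A(g)` has degree exactly `2 max deg g_i` (leading coefficient `A(lead) ≠ 0`), and `z B(h)` has
odd degree `1 + 2 max deg h_j` if `h ≠ 0`, so they cannot cancel, and neither vanishes. -/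
def StOdd : Prop := ∀ (L F ι κ : Type) [Field L] [Field F] [Fintype ι] [Fintype κ] (φ : L →+* F)
  (z : F), Indep φ (fun _ : Unit => z) → GenBy φ {z} → ∀ (A : ι → L) (B : κ → L), Aniso A → Aniso B →
    Aniso (Sum.elim (im φ A) (fun j => z * φ (B j)))

/-- CP. Theorem of Cassels–Pfister.
PROOF. Write `g_i = G_i / d` with polynomials, `d ≠ 0` of minimal degree among all representations
`<a>(G) = f d²`. If `deg d = 0` we are done. Otherwise divide: `G_i = d w_i + r_i`, `deg r_i < deg d`. If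
`r = 0`, `w` is a polynomial representation. If `r ≠ 0` put `A = <a>(w) - f`, `B = 2 (f d - b(G, w))`,
`d' = A d + B`, `G' = A G + B w`. Then `<a>(G') = f d'²` (expand, using `<a>(G) = f d²`) and
`d d' = <a>(d w - G) = <a>(r) ≠ 0` (anisotropy over `K` gives anisotropy over `K[X]` by leading
coefficients), so `deg d' = deg <a>(r) - deg d ≤ 2 (deg d - 1) - deg d < deg d`, contradiction. -/
def StCP : Prop := ∀ (K ι : Type) [Field K] [Fintype ι], (2 : K) ≠ 0 → ∀ (a : ι → K), Aniso a →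
  ∀ (f : K[X]) (g : ι → RatFunc K),
    qf (fun i => algebraMap K (RatFunc K) (a i)) g = algebraMap K[X] (RatFunc K) f →
      ∃ h : ι → K[X], qf (fun i => C (a i)) h = f

/-- SUB. Subform theorem: if the anisotropic form `a` represents `<c>(z)`, `z` generic, over `E(z)`, then
`c ⊂ a`.
PROOF. WLOG `κ = Fin m`; induction on `m` (for all `a`), `m = 0` trivial. Let `L ⊂ F` be the subfield
generated by `φ(E)` and `z₁, …, z_m` (all variables but `z₀`), so `F = L(z₀) ≅ RatFunc L` (`z₀` is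
transcendental over `L`) and `E → L` is purely transcendental: `a` is anisotropic over `L` by PT. With
`R = Σ_{j ≥ 1} c_j z_j² ∈ L`, the polynomial `c₀ X² + R ∈ L[X]` is represented by `a` over `L(X)`, so by CP
over `L[X]`: `<a>(h) = c₀ X² + R`, and `deg h_i ≤ 1` by leading coefficients. So `h = h₀ + h₁ X` with
`<a>(h₁) = c₀`, `b(h₀, h₁) = 0`, `<a>(h₀) = R`. (i) `a ⊥ <-c₀>` is isotropic over `L` (vector `(h₁, 1)`),
hence over `E` by PT: `<a>(u) = c₀ t²`, `t ≠ 0` as `a` is anisotropic, `e = u / t ∈ E^ι` has `<a>(e) = c₀`.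
(ii) COMPL for `e`: `<c₀> ⊥ a' ⊂ a`, and `a ⊂ <c₀> ⊥ a'` by FLIP. (iii) over `L`, REFL gives an isometry
`T` of `a` with `T h₁ = e`; `T h₀` is orthogonal to `e` with `<a>(T h₀) = R`, so (coordinates in the
orthogonal basis `e, e'_j`) `a'` represents `R = Σ_{j ≥ 1} c_j z_j²` over `L`. (iv) `a'` is anisotropic
(`Aniso.of_emb`); by induction `(c_j)_{j ≥ 1} ⊂ a'`, so `c ⊂ <c₀> ⊥ a' ⊂ a`. -/
def StSub : Prop := ∀ (E F ι κ : Type) [Field E] [Field F] [Fintype ι] [Fintype κ], (2 : E) ≠ 0 →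
  ∀ (φ : E →+* F) (a : ι → E) (c : κ → E) (z : κ → F) (g : ι → F), Aniso a → (∀ j, c j ≠ 0) →
    Indep φ z → GenBy φ (Set.range z) → qf (im φ a) g = qf (im φ c) z → Emb c a

/-- PFHYP. Isotropic Pfister forms are hyperbolic.
PROOF. Induction on `n`; `π = π' ⊥ -y π'` as in ROUND, `y` the last slot. First remark:
`<1,-1> ≅ <c,-c>` for `c ≠ 0` (vectors `((c+1)/2, (c-1)/2)`, `((c-1)/2, (c+1)/2)` of `<1,-1>` have norms
`c`, `-c` and are orthogonal). (i) `π'` isotropic: then `n ≥ 1` (`<1>` is anisotropic), by induction `π'`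
is hyperbolic and so is `-y π'` by the remark. (ii) `π'` anisotropic: an isotropic vector gives
`π'(u) = y π'(v)`, both sides nonzero (if `π'(v) = 0` then `v = 0` and `u = 0`). With `c = π'(u)`,
`c' = π'(v)`: ROUND gives `π' ≅ c' π'` and `c π' ≅ π'` so `-y π' ≅ -y c' π' = -c π' ≅ -π'`; so
`π ≅ π' ⊥ -π'`, and `<c_S, -c_S> ≅ <1,-1>` for each coefficient. -/
def StPfHyp : Prop := ∀ (K : Type) [Field K], (2 : K) ≠ 0 → ∀ (n : ℕ) (x : Fin (n + 1) → K),
  (∀ j, x j ≠ 0) → ¬ Aniso (pf x) →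
    Emb (Sum.elim (fun _ : Fin (2 ^ n) => (1 : K)) (fun _ : Fin (2 ^ n) => -1)) (pf x)

/-- HYPCOMPL. Complements in hyperbolic spaces.
PROOF. `<1,-1> ≅ <b_j,-b_j>` (see PFHYP) gives `b ⊥ ((-b) ⊥ 1^{N-l} ⊥ (-1)^{N-l}) ≅ 1^N ⊥ (-1)^N ⊂ a`,
and `a ⊂ b ⊥ q` by FLIP (equal dimensions). CANCEL: `(-b) ⊥ 1^{N-l} ⊥ (-1)^{N-l} ⊂ q`. If `l < N`, the
vectors `v, w` of norms `1, -1` in `q` give the isotropic vector `v + w ≠ 0` (`b(v + w, v) = 1`). -/
def StHypCompl : Prop := ∀ (K ι : Type) [Field K] [Fintype ι], (2 : K) ≠ 0 → ∀ (a : ι → K) (N : ℕ),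
  (∀ i, a i ≠ 0) → Fintype.card ι = 2 * N →
  Emb (Sum.elim (fun _ : Fin N => (1 : K)) (fun _ : Fin N => -1)) a →
  ∀ (l : ℕ), l ≤ N → ∀ (b : Fin l → K) (m : ℕ) (q : Fin m → K), l + m = 2 * N → (∀ j, b j ≠ 0) →
    (∀ j, q j ≠ 0) → Emb (Sum.elim b q) a → Emb (fun j => - b j) q ∧ (l < N → ¬ Aniso q)

/-- UNIV. Isotropic nondegenerate forms are universal.
PROOF. `q(v) = 0`, `v_i ≠ 0`: `b(v, e_i) = q_i v_i ≠ 0`; `q(e_i + t v) = q_i + 2 t q_i v_i` takes every
value. -/
def StUniv : Prop := ∀ (K ι : Type) [Field K] [Fintype ι], (2 : K) ≠ 0 → ∀ (q : ι → K),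
  (∀ i, q i ≠ 0) → ¬ Aniso q → ∀ c : K, ∃ z : ι → K, qf q z = c

/-- REP. If `α ⊥ <a>` is isotropic then `-α` represents `a`.
PROOF. `<α>(z) + a t² = 0`, `(z,t) ≠ 0`. If `t ≠ 0`: `-<α>(z/t) = a`. If `t = 0`: `α` is isotropic, use
UNIV for `-a`. -/
def StRep : Prop := ∀ (K ι : Type) [Field K] [Fintype ι], (2 : K) ≠ 0 → ∀ (α : ι → K) (a : K),
  (∀ i, α i ≠ 0) → ¬ Aniso (Sum.elim α (fun _ : Unit => a)) → ∃ z : ι → K, qf α z = - a

/-- GPF. The generic Pfister form is anisotropic.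
PROOF. Induction on `n`: `pf x = π' ⊥ -y π'` (see ROUND), `π'` anisotropic over the subfield `L`
generated by `E` and the first `n` variables, `y` transcendental over `L`, generating `F` over `L`: ODD
(with `B = -π'`). -/
def StGPf : Prop := ∀ (E F : Type) [Field E] [Field F] (φ : E →+* F) (n : ℕ) (x : Fin n → F),
  Indep φ x → GenBy φ (Set.range x) → Aniso (pf x)

/-! ## Block B: cones over quadrics -/

/-- CONEEX. Existence of the function field of the cone.
PROOF. `E(y) = FractionRing (MvPolynomial ι E)`, `w` a root of `X² - a q(y)` in an algebraic closure `Ω` of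
`E(y)`, `F` = subfield generated by the image of `E`, the `y_i` and `w` (type `↥(Subfield.closure …)`). -/
def StConeEx : Prop := ∀ (E ι : Type) [Field E] [Fintype ι] (q : ι → E) (a : E),
  ∃ (F : Type) (_ : Field F) (φ : E →+* F) (y : ι → F) (w : F), Cone φ q a y w

/-- CONEPURE. The cone over an isotropic quadric is rational.
PROOF. `w ≠ 0` since `w² = a q(y) ≠ 0` by independence of `y` (`ι` is nonempty as `a ≠ 0`). Replacing `p` by
`-p` we may assume `w ≠ b(p,y)` (both `w = b(p,y)` and `w = -b(p,y)` would give `w = 0`). Put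
`z = y - (w/a) p`. Then `b(p,z) = b(p,y) - w ≠ 0` (`b(p,p) = a`) and
`q(z) = q(y) - 2 (w/a) b(p,y) + w²/a = (2w/a)(w - b(p,y)) = -(2w/a) b(p,z)` (`q(y) = w²/a`). So
`w = -a q(z) / (2 b(p,z))` and `y = z + (w/a) p` lie in `E(z)`: `F = E(z)`. Since `F` has transcendence
degree `card ι` over `E` (`y` independent, `w` algebraic over `E(y)`) and is generated by `card ι`
elements `z_i`, these are independent. -/
def StConePure : Prop := ∀ (E F ι : Type) [Field E] [Field F] [Fintype ι], (2 : E) ≠ 0 →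
  ∀ (φ : E →+* F) (q : ι → E) (a : E) (y : ι → F) (w : F), (∀ i, q i ≠ 0) → a ≠ 0 →
    (∃ p : ι → E, qf q p = a) → Cone φ q a y w → PureExt φ

/-- CONEPF. If an anisotropic Pfister form becomes isotropic over the cone of `q ⊥ <-a>`, it contains
`-a (q ⊥ <-a>)`.
PROOF. `L` = subfield generated by `φ(E)` and `y`; `E → L` is purely transcendental, so `π` is anisotropic
over `L` (PT), and `F = L + L w`, `w² = δ = a q(y) ∈ L`, `δ ≠ 0`. `w ∉ L` (otherwise `F = L`). Let
`x₀ + x₁ w` be an isotropic vector, `x₀, x₁ ∈ L`: `π(x₀) + δ π(x₁) = 0`, `b(x₀, x₁) = 0`; `x₁ ≠ 0`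
(otherwise `π(x₀) = 0`), so `c = π(x₁) ≠ 0`. Let `L(T)` be the rational function field, and identify
`T = a X`: over `L(X)`, `π(a X x₁ + x₀) = c ((aX)² - δ)`. By ROUND (over `L`, then `Emb.im`) `c π ⊂ π`, so
`c · c((aX)² - δ)` is a value of `π`, and so is `(aX)² - a q(y)` (divide the vector by `c`). This is the
value of `<-a q> ⊥ <a²>` at the independent elements `(y, X)` generating `L(X)` over `E`. SUB. -/
def StConePf : Prop := ∀ (E F ι : Type) [Field E] [Field F] [Fintype ι], (2 : E) ≠ 0 →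
  ∀ (n : ℕ) (x : Fin n → E), (∀ j, x j ≠ 0) → Aniso (pf x) →
  ∀ (φ : E →+* F) (q : ι → E) (a : E) (y : ι → F) (w : F), (∀ i, q i ≠ 0) → a ≠ 0 →
    Cone φ q a y w → ¬ Aniso (im φ (pf x)) →
      Emb (Sum.elim (fun i => - a * q i) (fun _ : Unit => a ^ 2)) (pf x)

/-- CONEMAP. Functoriality of the cone.
PROOF. Let `E'(y')` be the rational function field in variables `y'_i`, `Ω` its algebraic closure. The
subfield `E(y) ⊂ F` maps to `E'(y')` (`y_i ↦ y'_i`, `E` by `ψ`; independence of `y` makes `E(y)` the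
fraction field of the polynomial ring). `F` is algebraic over `E(y)`, so this extends to `ψ' : F → Ω`
(`IsAlgClosed.lift`). `w' = ψ' w`, `F'` = subfield of `Ω` generated by `E'`, `y'`, `w'`; `ψ'` has image in
`F'`. -/
def StConeMap : Prop := ∀ (E F E' ι : Type) [Field E] [Field F] [Field E'] [Fintype ι]
  (φ : E →+* F) (q : ι → E) (a : E) (y : ι → F) (w : F) (ψ : E →+* E'), Cone φ q a y w →
    ∃ (F' : Type) (_ : Field F') (φ' : E' →+* F') (ψ' : F →+* F') (y' : ι → F') (w' : F'),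
      Cone φ' (im ψ q) (ψ a) y' w' ∧ ψ'.comp φ = φ'.comp ψ

/-- TOWER. The key step: adjoining one more orthogonal vector keeps the Pfister form anisotropic.
PROOF. Suppose `π` is isotropic over `F`. CONEPF: `(-a q) ⊥ <a²> ⊂ π` (1). Let `i₀` be an index of `q`
(`m ≥ 1`). `-a q_{i₀} ∈ D(π)` by (1) and `q_{i₀} ∈ D(π)`, so `-a π ⊂ π`: indeed ROUND gives
`q_{i₀} π ⊂ π` and `(-a q_{i₀}) π ⊂ π`, so `(-a q_{i₀}²) π ⊂ π`, and `q_{i₀}²` can be removed (`Emb.sq`).
Multiply (1) by `-a`: `(a² q) ⊥ <-a³> ⊂ -a π ⊂ π`, and by `Emb.sq` `q ⊥ <-a> ⊂ π`. By FLIP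
`π ⊂ α ⊥ q` (dimension `l + m = 2^n`, entries nonzero), so `q ⊥ <-a> ⊂ q ⊥ α` (reorder), CANCEL:
`<-a> ⊂ α`, i.e. `<α>(z) = -a`, and `(z, 1)` is isotropic for `α ⊥ <a>`. Contradiction. -/
def StTower : Prop := ∀ (E F : Type) [Field E] [Field F], (2 : E) ≠ 0 →
  ∀ (n : ℕ) (x : Fin n → E), (∀ j, x j ≠ 0) → Aniso (pf x) →
  ∀ (l m : ℕ) (α : Fin l → E) (q : Fin m → E) (a : E), (∀ j, α j ≠ 0) → (∀ j, q j ≠ 0) → a ≠ 0 →
    l + m = 2 ^ n → 1 ≤ m → Emb (Sum.elim α q) (pf x) →
    Aniso (Sum.elim α (fun _ : Unit => a)) →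
  ∀ (φ : E →+* F) (y : Fin m → F) (w : F), Cone φ q a y w → Aniso (im φ (pf x))

/-- the first `l` entries of a form -/
def init {K : Type} {s : ℕ} (c : Fin s → K) (l : ℕ) (h : l ≤ s) : Fin l → K :=
  fun j => c (Fin.castLE h j)

/-- witnesses for the forms `<1, b_j>`, `j ∈ J`, in the tower: an extension `S` of `E` over which `pf x`
is isotropic, `<1, b_j>` is anisotropic and all other `<1, b_i>` are isotropic -/
def Wit {K E : Type} [Field K] [Field E] {n s M : ℕ} (b : Fin M → Fin s → K) (ψ : K →+* E)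
    (x : Fin n → E) (J : Finset (Fin M)) : Prop :=
  ∀ j ∈ J, ∃ (S : Type) (_ : Field S) (θ : E →+* S), ¬ Aniso (im θ (pf x)) ∧
    Aniso (im (θ.comp ψ) (one (b j))) ∧ ∀ i, i ≠ j → ¬ Aniso (im (θ.comp ψ) (one (b i)))

/-- STEP. One step of the tower with witnesses.
PROOF. `α` = first `l` entries of `<1, b_i>` over `E`, `a` the next one; all nonzero. Complement `q` of `α` in
`pf x` (COMPL), of dimension `2^n - l ≥ 1`. `F` = a cone for `(q, a)` (CONEEX). `pf x` stays anisotropic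
over `F` by TOWER. In `F`: `q(y) ≠ 0`, the combination `v = (w / q(y)) Σ y_k e_k` of the orthogonal vectors
`e_k` of norms `q_k` has norm `w² / q(y) = a` and is orthogonal to the vectors of `α`: so the first
`l + 1` entries embed. Witnesses: let `j ∈ J` with `S, θ`. CONEMAP gives `S'` = cone of `(θ q, θ a)` over
`S`, with `θ' : F → S'`. Over `S` the form `pf x` is hyperbolic (PFHYP), `2^n = 2 s`, so by HYPCOMPL
(`l ≤ s`) `-α ⊂ q`, and `q` is isotropic if `l < s`, hence represents `a` (UNIV). If `l = s` then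
`i ∉ J`, so `i ≠ j`, `<1, b_i> = α ⊥ <a>` is isotropic over `S` and REP gives `a = -<α>(z)`, a value of
`-α ⊂ q`. So CONEPURE applies: `S → S'` is purely transcendental, PT: it preserves anisotropy. Hence `S'`
with `θ'` is a witness for `j` (isotropic forms stay isotropic). -/
def StStep : Prop := ∀ (K E : Type) [Field K] [Field E], (2 : K) ≠ 0 →
  ∀ (n s M : ℕ) (b : Fin M → Fin s → K) (ψ : K →+* E) (x : Fin n → E) (J : Finset (Fin M)),
  1 ≤ n → s = 2 ^ (n - 1) → (∀ i l, b i l ≠ 0) → (∀ j, x j ≠ 0) → Aniso (pf x) → Wit b ψ x J →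
  ∀ (i : Fin M) (l : ℕ) (h : l + 1 ≤ s + 1), 1 ≤ l →
    Emb (init (im ψ (one (b i))) l (by omega)) (pf x) →
    Aniso (init (im ψ (one (b i))) (l + 1) h) → (l < s ∨ i ∉ J) →
    ∃ (F : Type) (_ : Field F) (φ : E →+* F), Aniso (pf (im φ x)) ∧ Wit b (φ.comp ψ) (im φ x) J ∧
      Emb (init (im (φ.comp ψ) (one (b i))) (l + 1) h) (pf (im φ x))

/-- ME. Main embedding: several forms `<1, b_i>` of dimension `2^{n-1} + 1` in one anisotropic n-fold
Pfister form.
PROOF. Start: `E₀ = K(x₁,…,x_n)` (fraction field of the polynomial ring), `pf x` anisotropic (GPF).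
Witnesses for all `j`: given `S_j` put `S = S_j(x'₁,…,x'_n)`, `θ : x₁ ↦ x'₁², x_i ↦ x'_i` (`i ≥ 2`;
well defined since `x'₁², x'₂, …` are independent), `S_j → S` preserves anisotropy (PT), and `pf` is
isotropic over `S` since `1 - x'₁² · (1/x'₁)² = 0` (coefficients at `∅` and `{first}`). Induction over the
forms `i = 0, …, M-1`: state = (field `E`, `ψ`, `x`, `Aniso (pf x)`, `Wit` for `J = {i, …, M-1}`,
`<1, b_{i'}> ⊂ pf x` for `i' < i`). To embed `<1, b_i>`: start with `l = 1` (`<1> ⊂ pf x`, coefficient at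
`∅`), apply STEP for `l = 1, …, s - 1` with `J`, where the first `l + 1` entries of `<1, b_i>` are
anisotropic over `E` because `<1, b_i>` is anisotropic over the witness field of `i ∈ J` (`Aniso.of_im`,
subform), then drop `i` from `J` and apply STEP with `l = s` (the whole form `<1, b_i>` is anisotropic over
`E` by the old witness of `i`). Embeddings of earlier forms persist (`Emb.im`, `pf_im`). At the end
`<1, b_i> ⊂ pf x = <1> ⊥ ppf x` for all `i`; CANCEL gives `b_i ⊂ ppf x`. -/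
def StME : Prop := ∀ (K : Type) [Field K], (2 : K) ≠ 0 → ∀ (n s M : ℕ) (b : Fin M → Fin s → K),
  1 ≤ n → s = 2 ^ (n - 1) → (∀ i l, b i l ≠ 0) →
  (∀ j : Fin M, ∃ (S : Type) (_ : Field S) (ψ : K →+* S), Aniso (im ψ (one (b j))) ∧
    ∀ i, i ≠ j → ¬ Aniso (im ψ (one (b i)))) →
  ∃ (N : Type) (_ : Field N) (ψ : K →+* N) (x : Fin n → N), (∀ j, x j ≠ 0) ∧ Aniso (pf x) ∧
    ∀ i, Emb (im ψ (b i)) (ppf x)

/-- WH. Weak form of Hoffmann's theorem: a form of dimension `≤ 2^{N-1} + 1` stays anisotropic over the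
cone of a form of dimension `> 2^N`.
PROOF. `d = 0` is trivial. Let `c₀ = P 0`; `P = c₀ <1, c'>` with `c'_j = P_{j+1}/c₀`. Let `e` with
`d + e = 2^{N-1} + 1`, `κ' = κ(z₁,…,z_e)`; the form `<1, c', z₁, …, z_e>` of dimension `s + 1`,
`s = 2^{N-1}`, is anisotropic over `κ'` (ODD `e` times, starting from `<1, c'>`, which is anisotropic as
`P` is; in each step `B = <1>`). ME with `M = 1` (witness `S = κ'` itself): a field `N ⊃ κ'`, and
`<1, c', z> ⊂ pf x`, `pf x` anisotropic over `N`. CONEMAP for `κ → N`: `F → N'`, `N'` a cone of `(q, a)`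
over `N`. If `P` is isotropic over `F`, then `<1, c'>` is isotropic over `N'` and so is `pf x`
(`Aniso.of_emb`). CONEPF over `N`: a form of dimension `m + 1 > 2^N` with nonzero entries embeds in
`pf x` of dimension `2^N`, against COMPL. -/
def StWH : Prop := ∀ (κ F : Type) [Field κ] [Field F], (2 : κ) ≠ 0 → ∀ (N d m : ℕ) (P : Fin d → κ)
  (q : Fin m → κ) (a : κ) (φ : κ →+* F) (y : Fin m → F) (w : F), 1 ≤ N → d ≤ 2 ^ (N - 1) + 1 →
    2 ^ N ≤ m → (∀ j, q j ≠ 0) → a ≠ 0 → Aniso P → Cone φ q a y w → Aniso (im φ P)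

end Pool.Agent.Helper44.RED
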