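import Pool.Agent.Helper44.RED.StA

/-!
# Project RED, block B: Laurent series, separation of the translates, unramified forms
-/

set_option autoImplicit false

open Polynomial

namespace Pool.Agent.Helper44.RED

/-- LAUR. Laurent series fields.
PROOF. (1) Let `A(g) + X B(h) = 0` with Laurent series, not all zero; multiplying by a power of `X` all are
power series. If `g ≠ 0` with smallest order `o` among the `g_i`, the order of `A(g)` is exactly `2 o` (its
coefficient at `2o` is `A` of the coefficient vector at `o`, nonzero by anisotropy), similarly `X B(h)` has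
odd order. (2) `g = c (1 + …)`; a power series with constant coefficient `1` has a square root with
constant coefficient `1` when `2` is invertible (recursive construction of the coefficients
`h_m = (g_m - Σ_{0<i<m} h_i h_{m-i}) / 2`, or Hensel / the binomial series). -/
def StLaur : Prop := ∀ (F : Type) [Field F], (2 : F) ≠ 0 →
  (∀ (ι κ : Type) [Fintype ι] [Fintype κ] (A : ι → F) (B : κ → F), Aniso A → Aniso B →
    Aniso (Sum.elim (im (HahnSeries.C : F →+* LaurentSeries F) A)
      (fun j => (HahnSeries.single (1 : ℤ) (1 : F) : LaurentSeries F) * HahnSeries.C (B j)))) ∧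
  ∀ g : PowerSeries F, PowerSeries.constantCoeff g ≠ 0 →
    ∃ h : PowerSeries F, PowerSeries.constantCoeff h = 1 ∧
      g = PowerSeries.C (PowerSeries.constantCoeff g) * h ^ 2

/-- FLAG. Iterated Laurent series.
PROOF. Induction on `e`; `e = 0`: `S = κ` (a polynomial in no variables is its constant coefficient).
`e + 1`: `S' = LaurentSeries S`, `j' = HahnSeries.C ∘ j`, `s'` = old ones (constants) and last one `X`. A
polynomial `g` in `e + 1` variables is a polynomial in the last variable with coefficients `g_i` in the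
other ones (`MvPolynomial.finSuccEquiv` or its `Fin.last` variant; renumber freely), and its value is the
power series `Σ g_i(s) X^i`. It is zero only if all `g_i(s) = 0`, hence `g = 0`: independence. If
`constantCoeff g ≠ 0`, then `g₀(s) = j(c) h²` by induction (`c = constantCoeff g₀ = constantCoeff g`) is a
nonzero constant coefficient, and LAUR (2) gives `g(s') = g₀(s) h'²`. The forms: LAUR (1) with
`A = P ⊥ c₀ <s_l>` over `S`, `B = <c₀>`. -/
def StFlag : Prop := ∀ (κ : Type) [Field κ], (2 : κ) ≠ 0 → ∀ e : ℕ,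
  ∃ (S : Type) (_ : Field S) (j : κ →+* S) (s : Fin e → S), Indep j s ∧
    (∀ g : MvPolynomial (Fin e) κ, MvPolynomial.constantCoeff g ≠ 0 →
      ∃ h : S, h ≠ 0 ∧ MvPolynomial.eval₂Hom j s g = j (MvPolynomial.constantCoeff g) * h ^ 2) ∧
    ∀ (d : ℕ) (P : Fin d → κ) (c₀ : κ), c₀ ≠ 0 → Aniso P →
      Aniso (Sum.elim (im j P) (fun l => j c₀ * s l))

/-- the coefficients `C_1, …, C_c` (polynomials in `τ' = (τ₀, …, τ_{t'})`) and `τ₀ s_1, …, τ₀ s_e` -/
noncomputable def bfam {k : Type} [CommRing k] {t' c : ℕ} (e : ℕ)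
    (C : Fin c → MvPolynomial (Fin (t' + 1)) k) :
    Fin (c + e) → MvPolynomial (Fin (t' + 1 + e)) k :=
  Fin.append (fun j => MvPolynomial.rename (Fin.castAdd e) (C j))
    (fun j => MvPolynomial.X (Fin.castAdd e 0) * MvPolynomial.X (Fin.natAdd (t' + 1) j))

/-- general position: for `i ≠ j` no `b_l ∘ σ_i σ_j⁻¹` vanishes identically on `s = 0` -/
def GP {k : Type} [Field k] {t' e s M : ℕ} (b : Fin s → MvPolynomial (Fin (t' + 1 + e)) k)
    (σ : Fin M → Matrix (Fin (t' + 1 + e)) (Fin (t' + 1 + e)) k) : Prop :=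
  ∀ i j, i ≠ j → ∀ l, bs b (σ i * (σ j)⁻¹)
    (Fin.append (fun a : Fin (t' + 1) => (MvPolynomial.X a : MvPolynomial (Fin (t' + 1)) k))
      (fun _ : Fin e => 0)) l ≠ 0

/-- no common zero: the products `Π_l b_l ∘ σ_i` vanish simultaneously only at `0` -/
def NC {k : Type} [Field k] {t s M : ℕ} (b : Fin s → MvPolynomial (Fin t) k)
    (σ : Fin M → Matrix (Fin t) (Fin t) k) : Prop :=
  ∀ z : Fin t → k, (∀ i, ∏ l, bs b (σ i) z l = 0) → z = 0

/-- the field `k(τ₁, …, τ_t)` -/
abbrev KT (k : Type) [Field k] (t : ℕ) : Type := FractionRing (MvPolynomial (Fin t) k)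

/-- the variables in `k(τ)` -/
noncomputable def tv (k : Type) [Field k] (t : ℕ) : Fin t → KT k t :=
  fun j => algebraMap (MvPolynomial (Fin t) k) (KT k t) (MvPolynomial.X j)

/-- image of polynomials in `k(τ)` -/
noncomputable def toKT {k : Type} [Field k] {t c : ℕ} (C : Fin c → MvPolynomial (Fin t) k) :
    Fin c → KT k t := fun j => algebraMap (MvPolynomial (Fin t) k) (KT k t) (C j)

/-- SEP. The translates `Q_i = <1, b(σ_i τ)>` can be separated: for each `j` there is an extension of
`k(τ)` over which `Q_j` is anisotropic and all others are isotropic.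
PROOF. Fix `j`. The ring homomorphism `ρ : k(τ) → k(τ)`, `τ ↦ σ_j⁻¹ τ` (it exists: the images are
independent as `σ_j` is invertible) maps `b_l(σ_i τ)` to `b_l(σ_i σ_j⁻¹ τ)`; so it suffices to find
`ψ₀ : k(τ) → S` with `<1, b(τ)>` anisotropic and `<1, b(σ_i σ_j⁻¹ τ)>` isotropic over `S` for `i ≠ j`, and
take `ψ = ψ₀ ∘ ρ`. Let `κ = KT k (t'+1)` (variables `τ'`) and
`β_{i,l} = b_l(σ_i σ_j⁻¹ (τ', 0)) ∈ κ`, nonzero by GP. Adjoin successively for all `i ≠ j` a cone
(CONEEX) of `(q, a) = (β_i, -1)`: it contains `(w, y)` with `w² + β_i(y) = 0`, `y ≠ 0`, so `<1, β_i>` is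
isotropic; `P = <1, C>` has dimension `c + 1 ≤ 2^{n-2} + 1` and `β_i` has dimension `2^{n-1}`, so `P` stays
anisotropic by WH with `N = n - 1` (for each new cone over the field reached so far). The result is
`κ → κ₁`. FLAG for `κ₁` and `e`: `S`, `j₁ : κ₁ → S`, `s`. Define `ψ₀` on `k(τ)` by `τ' ↦ j₁(τ')`,
`s`-variables `↦ s` (independent over `k`, since `τ'` is independent over `k` in `κ₁` and `s` over `κ₁`).
Then `<1, b(τ)> ↦ <1, C> ⊥ τ₀ <s_1, …, s_e>`, anisotropic by FLAG with `c₀ = τ₀` (up to the order of the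
entries). For `i ≠ j`, `b_l(σ_i σ_j⁻¹ τ)` is the value at `s` of a polynomial over `κ₁` with constant
coefficient `β_{i,l} ≠ 0`, hence `= j₁(β_{i,l}) h_l²`, `h_l ≠ 0`, and `<1, β_i>` is isotropic over `κ₁`: so
`<1, b(σ_i σ_j⁻¹ τ)>` is isotropic over `S` (divide the coordinates by `h_l`). -/
def StSep : Prop := ∀ (k : Type) [Field k], (2 : k) ≠ 0 → ∀ (t' c e n M : ℕ), 3 ≤ n →
  c + e = 2 ^ (n - 1) → c ≤ 2 ^ (n - 2) →
  ∀ (C : Fin c → MvPolynomial (Fin (t' + 1)) k)
    (σ : Fin M → Matrix (Fin (t' + 1 + e)) (Fin (t' + 1 + e)) k), (∀ i, (σ i).det ≠ 0) →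
    Aniso (one (toKT C)) → GP (bfam e C) σ →
    ∀ j, ∃ (S : Type) (_ : Field S) (ψ : KT k (t' + 1 + e) →+* S),
      Aniso (im ψ (one (bs (bfam e C) (σ j) (tv k (t' + 1 + e))))) ∧
        ∀ i, i ≠ j → ¬ Aniso (im ψ (one (bs (bfam e C) (σ i) (tv k (t' + 1 + e)))))

/-! ## discrete valuation rings -/

/-- `z` is a unit of `O` -/
def IsU {F : Type} [Field F] (O : ValuationSubring F) (z : F) : Prop := z ∈ O ∧ z⁻¹ ∈ O ∧ z ≠ 0

/-- `ϖ` is a uniformizer of `O` -/
def Unif {F : Type} [Field F] (O : ValuationSubring F) (ϖ : F) : Prop :=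
  ϖ ∈ O ∧ ϖ ≠ 0 ∧ ϖ⁻¹ ∉ O ∧ ∀ z : F, z ≠ 0 → ∃ i : ℤ, IsU O (z * ϖ ^ i)

/-- UNIF. A DVR has a uniformizer.
PROOF. `IsDiscreteValuationRing.exists_irreducible`, `eq_unit_mul_pow_irreducible`, and `F` is the
fraction field of `O`. -/
def StUnif : Prop := ∀ (F : Type) [Field F] (O : ValuationSubring F), IsDiscreteValuationRing O →
  ∃ ϖ, Unif O ϖ

/-- the reduction of the form `<a>` (unit coefficients) is anisotropic: primitive vectors have unit
values -/
def ResAniso {F ι : Type} [Field F] [Fintype ι] (O : ValuationSubring F) (a : ι → F) : Prop :=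
  ∀ z : ι → F, (∀ i, z i ∈ O) → (∃ i, IsU O (z i)) → IsU O (qf a z)

/-- SLOTS. Slots of a Pfister form over a DVR.
PROOF. Every `x_j` is `ϖ^i` times a unit; multiplying slots by nonzero squares changes `pf x` only by
squares of coefficients (`Emb.sq`), so all slots are units or `ϖ` times units. If two slots
`ϖα, ϖβ` are of the second kind use `<<u, v>> ≅ <<u, -uv>>` (`<1,-u,-v,uv> ≅ <1,-u,uv,-u²v>`) and
`-ϖ²αβ ~ -αβ`, a unit; slots may be permuted (`pf (x ∘ π)` is `pf x` up to reindexing). Finally at most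
one slot is not a unit and it is moved to the last place. (Formally: induction on the number of non unit
slots; replacing the slot `j` by `-x_i x_j`, `i ≠ j`, gives an isometric form: the coefficient of a subset
`S` containing `j` is multiplied by `-x_i`, up to sign this is the coefficient of `S` with `i` added or,
if `i ∈ S`, of `S` without `i` times `x_i²`.) -/
def StSlots : Prop := ∀ (F : Type) [Field F] (O : ValuationSubring F) (ϖ : F), Unif O ϖ →
  ∀ (n : ℕ) (x : Fin (n + 1) → F), (∀ j, x j ≠ 0) →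
    ∃ x' : Fin (n + 1) → F, (∀ j : Fin n, IsU O (x' j.castSucc)) ∧
      (IsU O (x' (Fin.last n)) ∨ ∃ h, IsU O h ∧ x' (Fin.last n) = ϖ * h) ∧
      Emb (pf x') (pf x) ∧ Emb (pf x) (pf x')

/-- ANISORES. A ramified Pfister form with anisotropic residue contains no unimodular form of dimension
more than half.
PROOF. `pf x = μ ⊥ -ϖh μ`, `μ = pf (x ∘ castSucc)`, split by membership of the last element. Let
`e_0, …, e_s` be the vectors of `<1, u>` in `pf x`, `e_j = (X_j, Y_j)`. For a vector `(X, Y)` with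
`pf(X,Y) ∈ O` one has `X, Y ∈ O`: if `i` is the smallest exponent with `ϖ^i X` integral primitive etc.:
`μ(X)` has even valuation `2 min v(X)` (`ResAniso` applied to the primitive vector `ϖ^i X`),
`ϖhμ(Y)` odd valuation `1 + 2 min v(Y)`, so the valuation of the difference is the minimum of both. Apply
this to the combinations `Σ c_j e_j`, `c_j ∈ O` (value `Σ c_j² u_j ∈ O`, `u_0 = 1`): all `X_j, Y_j`
are integral. The matrix `(X_j mod ϖ)` maps `κ^{s+1}` to `κ^{2^n} = κ^s`, so there is a primitive `c ∈ O^{s+1}`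
with `Σ c_j X_j ∈ ϖO`. Then for every `j`: `c_j u_j = b(Σ c_i e_i, e_j) = b_μ(Σ c_i X_i, X_j) - ϖ h(…) ∈ ϖ O`,
so all `c_j ∈ ϖO`, contradiction. -/
def StAnisoRes : Prop := ∀ (F : Type) [Field F] (O : ValuationSubring F) (ϖ : F), Unif O ϖ →
  ∀ (n s : ℕ) (x : Fin (n + 1) → F) (h : F) (u : Fin s → F), s = 2 ^ n →
    (∀ j : Fin n, IsU O (x j.castSucc)) → IsU O h → x (Fin.last n) = ϖ * h →
    ResAniso O (pf (fun j : Fin n => x j.castSucc)) → (∀ j, IsU O (u j)) →
    ¬ Emb (one u) (pf x)

/-- HYPRES. If the residue form is isotropic, the Pfister form has a unimodular lattice.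
PROOF. Let `κ` be the residue field of `O` (`2 ≠ 0` in `κ`), `μ = pf (x ∘ castSucc)`, unit coefficients.
Not `ResAniso`: a primitive `z` with `μ(z) ∈ ϖO`, so the Pfister form `μ̄` (slots `x̄_j`) over `κ` is
isotropic, `n ≥ 1`, hence hyperbolic (PFHYP) and so is `ω̄ = -h̄ μ̄` (`<c,-c> ≅ <1,-1>`): there is
`C̄ ∈ GL_{2^n}(κ)` with `C̄ᵀ diag(ω̄) C̄ = [[0, 1],[1, 0]]` (blocks of size `2^{n-1}`; from `<1,-1>` take the
isotropic vectors `(1,1)/…`). Lift `C̄` entrywise to `C` over `O`, `det C` a unit. Then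
`Cᵀ diag(ω) C = [[ϖ α, 1 + ϖβ],[1 + ϖβᵀ, δ]]` and with `C' = C · diag(ϖ⁻¹ 1, 1)`,
`C'ᵀ diag(ϖω) C' = [[α, 1 + ϖβ],[1 + ϖβᵀ, ϖδ]]`, integral with determinant `≡ ± 1` modulo `ϖ`. So the
form `ϖω = -ϖhμ` has a unimodular lattice; `μ` has the standard one, and `pf x = μ ⊥ ϖω`. -/
def StHypRes : Prop := ∀ (F : Type) [Field F] (O : ValuationSubring F) (ϖ : F), Unif O ϖ →
  IsU O (2 : F) → ∀ (n : ℕ) (x : Fin (n + 1) → F) (h : F),
    (∀ j : Fin n, IsU O (x j.castSucc)) → IsU O h → x (Fin.last n) = ϖ * h →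
    ¬ ResAniso O (pf (fun j : Fin n => x j.castSucc)) → Unram O (pf x)

/-- UNRAMISO. Isometric forms.
PROOF. `V` = matrix of the vectors (after an equivalence of the index sets), `Vᵀ diag(a) V = diag(b)`,
`det V ≠ 0`; take `B_a = V B_b` (reindexed). -/
def StUnramIso : Prop := ∀ (F ι κ : Type) [Field F] [Fintype ι] [Fintype κ] [DecidableEq ι]
  [DecidableEq κ] (O : ValuationSubring F) (a : ι → F) (b : κ → F),
    Fintype.card ι = Fintype.card κ → (∀ j, b j ≠ 0) → Emb b a → Unram O b → Unram O a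

/-- GOODRED. An n-fold Pfister form containing `<1, u_1, …, u_s>` with units `u_j`, `s = 2^{n-1}`, has a
unimodular lattice.
PROOF. SLOTS gives `x'` with `pf x ≅ pf x'` (UNRAMISO transports the lattice). If the last slot is a unit,
the standard lattice `B = 1` is unimodular. Otherwise ANISORES excludes `ResAniso` (`<1,u> ⊂ pf x ⊂ pf x'`),
and HYPRES applies. -/
def StGoodRed : Prop := ∀ (F : Type) [Field F] (O : ValuationSubring F), IsDiscreteValuationRing O →
  IsU O (2 : F) → ∀ (n s : ℕ) (x : Fin (n + 1) → F) (u : Fin s → F), s = 2 ^ n → (∀ j, x j ≠ 0) →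
    (∀ j, IsU O (u j)) → Emb (one u) (pf x) → Unram O (pf x)

/-- a lattice basis `B` over `O` with integral Gram matrix which is maximal: a vector with integral
products with the lattice and integral norm lies in the lattice -/
def MaxLat {F ι : Type} [Field F] [Fintype ι] [DecidableEq ι] (O : ValuationSubring F)
    (a : ι → F) (B : Matrix ι ι F) : Prop :=
  B.det ≠ 0 ∧ (∀ i j, (B.transpose * Matrix.diagonal a * B) i j ∈ O) ∧
  ∀ v : ι → F, (∀ i, (B.transpose * Matrix.diagonal a).mulVec v i ∈ O) → qf a v ∈ O →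
    ∀ i, (B⁻¹).mulVec v i ∈ O

/-- LAT. A maximal integral lattice is unimodular if some unimodular lattice exists.
PROOF. Lattice = `O`-submodule of `ι → F` spanned by a basis; `N` = columns of `B`, `Λ` = the unimodular
one, `N^# = {v | b(v, N) ⊂ O}`. `Λ^# = Λ`, `N ⊂ N^#`. If `x ∈ Λ ∩ N^#` then `<a>(x) ∈ O` (`x ∈ Λ`) so
`x ∈ N` by maximality: `Λ ∩ N^# ⊂ N`. Dualise: `N^# ⊂ (Λ ∩ N^#)^# = Λ + N` (for lattices
`X^{##} = X`, so `(X ∩ Y)^# = (X^{##} ∩ Y^{##})^# = ((X^# + Y^#)^#)^# = X^# + Y^#`; `O` is a PID, so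
finitely generated submodules spanning `ι → F` have bases, and Mathlib has
`LinearMap.BilinForm.dualSubmodule_dualSubmodule_of_basis`). If `y ∈ N^#`, `y = λ + ν`, then
`λ = y - ν ∈ N^# ∩ Λ ⊂ N`, so `y ∈ N`. Hence `N^# = N`, i.e. the inverse Gram matrix is integral. -/
def StLat : Prop := ∀ (F ι : Type) [Field F] [Fintype ι] [DecidableEq ι] (O : ValuationSubring F),
  IsDiscreteValuationRing O → ∀ (a : ι → F) (B : Matrix ι ι F), (∀ i, a i ≠ 0) → MaxLat O a B →
    Unram O a → ((B.transpose * Matrix.diagonal a * B).det)⁻¹ ∈ O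

/-- MAXEX. Existence of maximal lattices over a DVR.
PROOF. Multiplying the standard basis by a power of `ϖ` gives an integral Gram matrix. Among all `B` with
integral Gram matrix choose one with the smallest valuation of the Gram determinant (a natural number).
If `v` violates maximality, `N' = N + O v` (`N` = span of the columns) is finitely generated torsion free,
free of rank `card ι`, with integral Gram matrix and strictly larger than `N`; `B = B' T` with `T` an
integral non invertible matrix, so the Gram determinant of `B'` has smaller valuation. -/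
def StMaxEx : Prop := ∀ (F ι : Type) [Field F] [Fintype ι] [DecidableEq ι] (O : ValuationSubring F),
  IsDiscreteValuationRing O → ∀ (a : ι → F), (∀ i, a i ≠ 0) → ∃ B, MaxLat O a B

/-- PADIC. The local ring of `E[X]` at an irreducible polynomial. -/
def StPadic : Prop := ∀ (E : Type) [Field E] (p : E[X]), Irreducible p →
  ∃ O : ValuationSubring (RatFunc E), IsDiscreteValuationRing O ∧
    ∀ z : RatFunc E, z ∈ O ↔ ∃ f g : E[X], ¬ p ∣ g ∧
      z = algebraMap E[X] (RatFunc E) f / algebraMap E[X] (RatFunc E) g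

/-- INFPLACE. The place at infinity of `E(X)`. -/
def StInfPlace : Prop := ∀ (E : Type) [Field E],
  ∃ O : ValuationSubring (RatFunc E), IsDiscreteValuationRing O ∧
    ∀ z : RatFunc E, z ∈ O ↔ ∃ f g : E[X], g ≠ 0 ∧ f.degree ≤ g.degree ∧
      z = algebraMap E[X] (RatFunc E) f / algebraMap E[X] (RatFunc E) g

/-- FINLAT. Global unimodular lattice over `E[X]`.
PROOF. Scaling the standard basis by a polynomial gives a basis with Gram matrix over `E[X]`. Choose `B`
(basis of `RatFunc E ^ ι`) with Gram matrix `G` over `E[X]` and `deg det G` minimal. Claim: for every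
irreducible `p`, `B` is a maximal lattice over `O_p` (PADIC). Suppose `v` violates this at `p`; write
`v = B f`, `f ∉ O_p^ι`; some `p^j f ∈ O_p^ι`, and replacing `v` by `p^{j-1} v` with `j ≥ 1` minimal we may
assume `p f ∈ O_p^ι`, `f ∉ O_p^ι` (products with the lattice and the norm stay integral). Choose
polynomials `z_i ≡ p f_i` modulo `p O_p` and put `v' = B (z/p)`: `v' - v ∈ O_p`-lattice, so `v'` still has
products with the lattice and norm in `O_p`; at all other primes `z/p` is integral. So the products of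
`v'` with the columns of `B` and `<a>(v')` are polynomials, `L' = L + E[X] v'` is a strictly larger
`E[X]`-lattice with polynomial Gram matrix, free (`E[X]` is a PID), and its Gram determinant divides
`det G` properly (by a non unit square): contradiction. By LAT `det G` is a unit at every `p`, so it is a
nonzero constant. -/
def StFinLat : Prop := ∀ (E ι : Type) [Field E] [Fintype ι] [DecidableEq ι] (a : ι → RatFunc E),
  (∀ i, a i ≠ 0) →
  (∀ O : ValuationSubring (RatFunc E), IsDiscreteValuationRing O →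
    (∀ c : E, algebraMap E (RatFunc E) c ∈ O) → Unram O a) →
  ∃ (B : Matrix ι ι (RatFunc E)) (G : Matrix ι ι E[X]) (c : E), B.det ≠ 0 ∧ c ≠ 0 ∧
    B.transpose * Matrix.diagonal a * B = G.map (algebraMap E[X] (RatFunc E)) ∧ G.det = C c

/-- CONST. An anisotropic form over `E(X)` which is unramified everywhere is defined over `E`.
PROOF. FINLAT gives a unimodular `E[X]`-lattice `L` with basis `b_i`. Let `B_∞` be a unimodular basis at
infinity (INFPLACE, hypothesis), `L_∞ = B_∞ O_∞^ι`; for `v ≠ 0` let `‖v‖ = min {m ∈ ℤ | v ∈ X^m L_∞}` (the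
coordinates of `v` in `B_∞` have degree at most `m`). For `0 ≠ v ∈ L`: `‖v‖ ≥ 0`, since
`v ∈ X^{-1} L_∞` gives `<a>(v) ∈ X^{-2} O_∞ ∩ E[X] = 0`, contradicting anisotropy. Choose the basis `b_i`
of `L` with `Σ ‖b_i‖` minimal. Then the leading vectors `λ_i ∈ E^ι` of `b_i` (coefficients of
`X^{‖b_i‖}` in the coordinates with respect to `B_∞`, modulo lower degree) are linearly independent over
`E`: if `Σ c_i λ_i = 0`, take `i₀` with `c_{i₀} ≠ 0` and `‖b_{i₀}‖` maximal and replace `b_{i₀}` by
`Σ c_i X^{‖b_{i₀}‖ - ‖b_i‖} b_i`, again a basis of `L`, with smaller norm. Hence the matrix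
`B_∞⁻¹ (b_i)_i` has determinant of degree exactly `Σ ‖b_i‖` (its leading coefficient is `det (λ_i)`). But
`det` squared of this matrix is (Gram determinant of `b`)/(Gram determinant of `B_∞`), a nonzero constant
over a unit of `O_∞`, of degree `0`. So all `‖b_i‖ = 0`, `b_i ∈ L_∞`, and the products `b(b_i, b_j)` lie in
`O_∞ ∩ E[X] = E`: the Gram matrix `G₀` is a symmetric invertible matrix over `E`. Diagonalise it over `E`
(orthogonal basis, `LinearMap.BilinForm.exists_orthogonal_basis`, `2 ≠ 0`). -/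
def StConst : Prop := ∀ (E ι : Type) [Field E] [Fintype ι] [DecidableEq ι], (2 : E) ≠ 0 →
  ∀ (a : ι → RatFunc E), Aniso a →
  (∀ O : ValuationSubring (RatFunc E), IsDiscreteValuationRing O →
    (∀ c : E, algebraMap E (RatFunc E) c ∈ O) → Unram O a) →
  ∃ c : ι → E, (∀ i, c i ≠ 0) ∧ Emb (im (algebraMap E (RatFunc E)) c) a

/-- GAUSS. The Gauss extension of a DVR of `E` to `E(X)`.
PROOF. `O' = {f/g | f, g ∈ O[X], some coefficient of g a unit}`; valuation of a polynomial = minimum of the
valuations of its coefficients (multiplicative by Gauss' lemma). -/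
def StGauss : Prop := ∀ (E : Type) [Field E] (O : ValuationSubring E), IsDiscreteValuationRing O →
  ∃ O' : ValuationSubring (RatFunc E), IsDiscreteValuationRing O' ∧
    (∀ ϖ, Unif O ϖ → Unif O' (algebraMap E (RatFunc E) ϖ)) ∧
    ∀ z : RatFunc E, z ∈ O' ↔ ∃ f g : E[X], (∀ i, f.coeff i ∈ O) ∧ (∀ i, g.coeff i ∈ O) ∧
      (∃ i, IsU O (g.coeff i)) ∧
      z = algebraMap E[X] (RatFunc E) f / algebraMap E[X] (RatFunc E) g

/-- DESC. Descent of unimodular lattices along the Gauss extension.
PROOF. Let `B` be a maximal lattice of `<c>` over `O` (MAXEX), `N` its lattice, `N^#` the dual. (1)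
`ϖ N^# ⊂ N`: for `x ∈ N^#` let `j` be minimal with `ϖ^j x ∈ N`; if `j ≥ 2` then `x' = ϖ^{j-1} x ∈ N^#` has
`<c>(x') = ϖ^{j-2} (ϖ^j <c>(x))` and `ϖ^j <c>(x) = b(x, ϖ^j x) ∈ O`, so `x' ∈ N` by maximality. (2) There is
a basis `n_j` of `N^#` with `ϖ^{ε_j} n_j` a basis of `N`, `ε_j ∈ {0,1}` (Smith normal form, or lift a basis
of the kernel of `N^#/ϖN^# → N^#/N` ...). If `ε_i = 0` or `ε_j = 0`, `b(n_i, n_j) ∈ O`; always
`ϖ b(n_i,n_j) ∈ O`; for `0 ≠ (c_j)_{ε_j = 1}` primitive in `O`, `x = Σ c_j n_j ∈ N^# \ N`, so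
`<c>(x) ∉ O` and `ϖ <c>(x)` is a unit. (3) `B` (image) is maximal over `O'`: let `v = Σ f_j n_j` have
integral products with `N`, i.e. `f_j ∈ O'`, and `<c>(v) ∈ O'`; must show `f_j ∈ ϖ O'` for `ε_j = 1`. Else
multiply `v` by a unit of `O'` such that the `f_j` with `ε_j = 1` are in `O[X]`, not all in `ϖ O[X]`. Let
`D` be the largest exponent with some coefficient of `X^D` in some `f_j` (`ε_j = 1`) a unit. Modulo
`ϖ`, `ϖ <c>(v) ≡ Σ_{ε_i = ε_j = 1} f_i f_j ϖ b(n_i, n_j)`, and the coefficient of `X^{2D}` of this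
polynomial is `≡ ϖ <c>(Σ c_j n_j)` with `c_j` = coefficient of `X^D` in `f_j`, a unit by (2): so
`ϖ <c>(v) ∉ ϖ O'`, contradiction. (4) LAT over `O'`: the inverse of the Gram determinant of `B` lies in
`O'`, hence in `O` (`O' ∩ E = O`). -/
def StDesc : Prop := ∀ (E ι : Type) [Field E] [Fintype ι] [DecidableEq ι] (O : ValuationSubring E),
  IsDiscreteValuationRing O → ∀ (c : ι → E), Aniso c →
    ∃ O' : ValuationSubring (RatFunc E), IsDiscreteValuationRing O' ∧
      (∀ z ∈ O, algebraMap E (RatFunc E) z ∈ O') ∧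
      (Unram O' (im (algebraMap E (RatFunc E)) c) → Unram O c)

/-- RATIONALNOT. Over a purely transcendental extension of an algebraically closed field every
anisotropic form of dimension at least 2 is ramified somewhere.
PROOF. Induction on the number `N` of variables; WLOG (transport by the isomorphism) for `N + 1`:
`F = RatFunc E`, `E` purely transcendental over `k` in `N` variables, `φ` = `k → E → F` (formulate an
auxiliary statement invariant under isomorphism of `F` over `k`; `O` is transported with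
`ValuationSubring.comap`). `N = 0`: `F = k` (φ is bijective) is algebraically closed and a form with two
nonzero coefficients `a_i, a_j` is isotropic (`z² = -a_i/a_j`). Step: suppose `Unram O a` for all DVRs
`O ⊃ k` of `F`. CONST: `a ≅ im c`, `c : ι → E`, anisotropic over `E`. For every DVR `O ⊃ k` of `E`, DESC
gives `O' ⊃ k` with `Unram O' (im c)` (UNRAMISO: `Emb (im c) a` and FLIP) `→ Unram O c`; so `c` is
unramified everywhere over `E`, against the induction hypothesis. -/
def StRationalNot : Prop := ∀ (k F ι : Type) [Field k] [IsAlgClosed k] [Field F] [Fintype ι]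
  [DecidableEq ι], (2 : k) ≠ 0 → ∀ (φ : k →+* F), PureExt φ → ∀ (a : ι → F), 2 ≤ Fintype.card ι →
    Aniso a → ∃ O : ValuationSubring F, IsDiscreteValuationRing O ∧ (∀ c : k, φ c ∈ O) ∧ ¬ Unram O a

/-- ALLUNRAM. If `pf x` contains all `<1, b(σ_i τ)>`, it is unramified over `k`.
PROOF. `n = n' + 1`. `O ⊃ k` a DVR with valuation `v`; let `τ_ℓ` have the smallest valuation among the
nonzero `τ_j` (some `τ_j ≠ 0`), `t_j = τ_j/τ_ℓ ∈ O`, `t_ℓ = 1`. Since `b_l` is homogeneous of even degree
`2 D`: `b_l(σ_i τ) = (τ_ℓ^D)² b_l(σ_i t)` and `b_l(σ_i t) ∈ O`. Claim: for some `i` all `b_l(σ_i t)`, `l`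
arbitrary, are units of `O`. Otherwise all polynomials `P_i = Π_l b_l ∘ σ_i ∈ k[τ]` take values in the
maximal ideal at `t`. By NC and the Nullstellensatz (`MvPolynomial.vanishingIdeal_zeroLocus_eq_radical`,
`k` algebraically closed) some power of the variable `X_ℓ` lies in the ideal generated by the `P_i`;
evaluating at `t` gives `1 = t_ℓ^R ∈ 𝔪_O`, contradiction. For this `i`, `u_l = b_l(σ_i t)`:
`<u> ⊂ <b(σ_i τ)> ⊂ ppf x` by `Emb.sq`, so `<1, u> ⊂ pf x` (`1` at `∅`), and GOODRED applies (`2 ∈ k` is a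
unit of `O`). -/
def StAllUnram : Prop := ∀ (k F : Type) [Field k] [IsAlgClosed k] [Field F] [Algebra k F],
  (2 : k) ≠ 0 → ∀ (t n s M : ℕ) (b : Fin s → MvPolynomial (Fin t) k)
    (σ : Fin M → Matrix (Fin t) (Fin t) k) (τ : Fin t → F) (x : Fin n → F), 1 ≤ n →
    s = 2 ^ (n - 1) → (∀ l, ∃ D, (b l).IsHomogeneous (2 * D)) → NC b σ → τ ≠ 0 → (∀ j, x j ≠ 0) →
    (∀ i l, bs b (σ i) τ l ≠ 0) → (∀ i, Emb (bs b (σ i) τ) (ppf x)) →
    ∀ O : ValuationSubring F, IsDiscreteValuationRing O → (∀ c : k, algebraMap k F c ∈ O) →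
      Unram O (pf x)

end Pool.Agent.Helper44.RED
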