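import Pool.Agent.Helper44.RED.StB

/-!
# Project RED, block C: the variety, rationality by counting generators, points, translations
-/

set_option autoImplicit false

open Polynomial

namespace Pool.Agent.Helper44.RED

/-- `L'` is generated over `L` by `N` elements -/
def GenN {k F : Type} [Field k] [Field F] [Algebra k F] (L L' : IntermediateField k F) (N : ℕ) :
    Prop := ∃ g : Fin N → F, L' = L ⊔ IntermediateField.adjoin k (Set.range g)

/-- isotropic over the intermediate field `L` -/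
def IsoIn {k F ι : Type} [Field k] [Field F] [Algebra k F] [Fintype ι] (L : IntermediateField k F)
    (a : ι → F) : Prop := ∃ z : ι → F, (∀ i, z i ∈ L) ∧ z ≠ 0 ∧ qf a z = 0

/-- STEREO. A point on an affine quadric with a rational point needs one parameter less.
PROOF. Let `δ = v - p`; `L(v) = L(δ)`. `δ = 0`: trivial (pad with zeros; `ι` is nonempty as `a ≠ 0`). From
`q(v) = q(p)`: `2 b(p,δ) + q(δ) = 0` (*). If `q(δ) ≠ 0`: choose `j` with `δ_j ≠ 0`, `e = δ/δ_j`; `q(e) ≠ 0`
and (*) gives `δ_j = -2 b(p,e)/q(e) ∈ L(e)`, so `L(δ) = L(e)`, and `e_j = 1`: the `card ι - 1` other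
coordinates of `e` generate. If `q(δ) = 0`, then `b(p,δ) = 0`: choose `j` with `q_j p_j ≠ 0` (`p ≠ 0` as
`a ≠ 0`), so `δ_j` is an `L`-linear combination of the other `δ_i`, which generate. -/
def StStereo : Prop := ∀ (k F ι : Type) [Field k] [Field F] [Algebra k F] [Fintype ι], (2 : k) ≠ 0 →
  ∀ (L : IntermediateField k F) (q : ι → F) (a : F) (p v : ι → F), (∀ i, q i ∈ L) → (∀ i, q i ≠ 0) →
    a ≠ 0 → (∀ i, p i ∈ L) → qf q p = a → qf q v = a →
    GenN L (L ⊔ IntermediateField.adjoin k (Set.range v)) (Fintype.card ι - 1)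

/-- STEPV. One more orthogonal vector over a field where the Pfister form is isotropic.
PROOF. Work over the field `L`. `<1, α> ⊂ pf x = <1> ⊥ ppf x` with complement `q`
(COMPL inside `ppf x`: `α ⊥ q ≅ ppf x`, `q` of dimension `2^n - 1 - l`, orthogonal vectors `e_i` with
entries in `L`). `pf x` is hyperbolic over `L` (PFHYP, as `U ≠ 0` is isotropic), `2^n = 2 s`, so HYPCOMPL for
`<1, α>` (`l + 1 ≤ s` entries): `-<1,α> ⊂ q`, and `q` is isotropic if `l + 1 < s`. Hence `q` represents `a`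
over `L`: by UNIV if `l + 1 < s`; if `l + 1 = s`, `<1, α> ⊥ <a>` is isotropic over `L`, REP gives
`a ∈ D(-<1,α>) ⊂ D(q)`. Say `q(p) = a`, `p` over `L`. The vector `v` is orthogonal to the `V_j`, so
`v = Σ v'_i e_i`, `v'_i = b(v, e_i)/q_i`, `L(v) = L(v')`, `q(v') = a`. STEREO. -/
def StStepV : Prop := ∀ (k F : Type) [Field k] [Field F] [Algebra k F], (2 : k) ≠ 0 →
  ∀ (L : IntermediateField k F) (n s l : ℕ) (x : Fin n → F) (U : Finset (Fin n) → F), 1 ≤ n →
    s = 2 ^ (n - 1) → (∀ j, x j ∈ L) → (∀ j, x j ≠ 0) → (∀ S, U S ∈ L) → U ≠ 0 →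
    qf (pf x) U = 0 →
    ∀ (α : Fin l → F) (V : Fin l → Pu n → F) (a : F) (v : Pu n → F), (∀ j, α j ≠ 0) → a ≠ 0 →
      (∀ j, α j ∈ L) → a ∈ L → (∀ j S, V j S ∈ L) →
      (∀ i j, i ≠ j → bf (ppf x) (V i) (V j) = 0) → (∀ j, qf (ppf x) (V j) = α j) →
      (∀ j, bf (ppf x) (V j) v = 0) → qf (ppf x) v = a →
      (l + 1 < s ∨ (l + 1 = s ∧ IsoIn L (Sum.elim (one α) (fun _ : Unit => a)))) →
      GenN L (L ⊔ IntermediateField.adjoin k (Set.range v)) (2 ^ n - 2 - l)

/-- GENV1. Generators for an embedding when the Pfister form is already isotropic.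
PROOF. Apply STEPV successively for `l = 0, …, s - 1` over the fields `L_l = L(V_0, …, V_{l-1})` (for
`l = s - 1` the isotropy of `<1, b>` over `L ⊂ L_l`), and add up. -/
def StGenV1 : Prop := ∀ (k F : Type) [Field k] [Field F] [Algebra k F], (2 : k) ≠ 0 →
  ∀ (L : IntermediateField k F) (n s : ℕ) (x : Fin n → F) (U : Finset (Fin n) → F), 1 ≤ n →
    s = 2 ^ (n - 1) → (∀ j, x j ∈ L) → (∀ j, x j ≠ 0) → (∀ S, U S ∈ L) → U ≠ 0 →
    qf (pf x) U = 0 →
    ∀ (b : Fin s → F) (V : Fin s → Pu n → F), (∀ j, b j ≠ 0) → (∀ j, b j ∈ L) → IsoIn L (one b) →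
      (∀ i j, i ≠ j → bf (ppf x) (V i) (V j) = 0) → (∀ j, qf (ppf x) (V j) = b j) →
      GenN L (L ⊔ IntermediateField.adjoin k (Set.range (fun p : Fin s × Pu n => V p.1 p.2)))
        (∑ l ∈ Finset.range s, (2 ^ n - 2 - l))

/-- ISOGEN. Isotropic vectors with fixed first coordinate.
PROOF. Induction on `n`. `n = 0`: `qf (pf x) U = U ∅ ^ 2 = 1 ≠ 0`, impossible. `n + 1`: split
`U = (U_a, U_b)` by membership of the last element, `x = (x', y)`: `π'(U_a) = y π'(U_b)`, `U_a ∅ = 1`. If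
`π'(U_b) ≠ 0`, `y = π'(U_a)/π'(U_b)`, so `L(x, U)` is generated by the `n` entries of `x'` and the
`2^{n+1} - 1` entries of `U` other than `U ∅ = 1`. If `π'(U_b) = 0` then `π'(U_a) = 0` and by induction
`L(x', U_a)` is generated by `n - 1 + 2^n - 1` elements; add `y` and the `2^n` entries of `U_b`: total
`n + 2^{n+1} - 1`. (In this case `n ≥ 1`.) -/
def StIsoGen : Prop := ∀ (k F : Type) [Field k] [Field F] [Algebra k F]
  (L : IntermediateField k F) (n : ℕ) (x : Fin n → F) (U : Finset (Fin n) → F), U ∅ = 1 →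
    qf (pf x) U = 0 →
    GenN L (L ⊔ IntermediateField.adjoin k (Set.range x ∪ Set.range U)) (n - 1 + (2 ^ n - 1))

/-- GENV0. Generators for the first embedding together with the slots `x`.
PROOF. `z ∈ L^s` with `<b>(z) = -1`. `u = Σ z_l V_l` has `ppf(u) = -1`, so `U = (1 at ∅, u on Pu n)` is
isotropic for `pf x`. ISOGEN: `L₁ = L(x, U) = L(x, u)` is generated by `n - 1 + 2^n - 1` elements. COMPL for
`z` in `<b>` over `L`: vectors `z_2, …, z_s ∈ L^s`, orthogonal to `z` and each other, norms `b'_l ≠ 0`,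
so `v'_l = Σ (z_l)_j V_j` satisfy: `(u, v'_2, …, v'_s)` orthogonal with norms `(-1, b'_2, …, b'_s)`, and
`L(V) = L(u, v'_2, …, v'_s)` (`z, z_2, …, z_s` is a basis of `L^s`). Apply STEPV over
`L₁(v'_2, …, v'_{l})` for the vectors `v'_{l+1}`, `l = 1, …, s - 1` (earlier vectors `u, v'_2, …`; in the last
step `<1, -1, …>` is isotropic, vector `(1, 1, 0, …)`); if `s = 1` there is nothing to do. Total:
`n - 1 + 2^n - 1 + Σ_{l=1}^{s-1} (2^n - 2 - l) = n + Σ_{l=0}^{s-1} (2^n - 2 - l)`. -/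
def StGenV0 : Prop := ∀ (k F : Type) [Field k] [Field F] [Algebra k F], (2 : k) ≠ 0 →
  ∀ (L : IntermediateField k F) (n s : ℕ) (x : Fin n → F), 1 ≤ n → s = 2 ^ (n - 1) →
    (∀ j, x j ≠ 0) →
    ∀ (b : Fin s → F) (V : Fin s → Pu n → F) (z : Fin s → F), (∀ j, b j ≠ 0) → (∀ j, b j ∈ L) →
      (∀ j, z j ∈ L) → qf b z = -1 →
      (∀ i j, i ≠ j → bf (ppf x) (V i) (V j) = 0) → (∀ j, qf (ppf x) (V j) = b j) →
      GenN L (L ⊔ IntermediateField.adjoin k
          (Set.range x ∪ Set.range (fun p : Fin s × Pu n => V p.1 p.2)))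
        (n + ∑ l ∈ Finset.range s, (2 ^ n - 2 - l)) ∧
      ∃ U : Finset (Fin n) → F, (∀ S, U S ∈ L ⊔ IntermediateField.adjoin k
          (Set.range x ∪ Set.range (fun p : Fin s × Pu n => V p.1 p.2))) ∧ U ≠ 0 ∧
        qf (pf x) U = 0

/-- GS. Gram–Schmidt with square roots: `Y, w` and `V, T` generate the same field.
PROOF. Since all leading Gram determinants `g_l = gd_l` (`l ≤ s`, `g_0 = 1`) are nonzero, Gram–Schmidt gives
`y'_l = y_l - Σ_{m<l} (b(y_l, y'_m)/q(y'_m)) y'_m`, pairwise orthogonal, `q(y'_l) = g_{l+1}/g_l` (the change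
of basis is unitriangular, so `g_{l+1} = Π_{m ≤ l} q(y'_m)`). Put `V_l = (w_l/g_{l+1}) y'_l`: norm
`w_l² / (g_{l+1} g_l) = β_l`. `T_{l m} = b(y_l, V_m)/β_m`: then `y_l = Σ_{m ≤ l} T_{lm} V_m`, and
`T_{ll} = g_{l+1}/w_l` (as `b(y_l, y'_l) = q(y'_l)`): `V_l, T_{lm} ∈ L(Y, w)`; conversely `Y ∈ L(V, T)` and
`w_l = g_{l+1}/T_{ll} ∈ L(V,T)` (`a ∈ L`). -/
def StGS : Prop := ∀ (k F κ : Type) [Field k] [Field F] [Algebra k F] [Fintype κ]
  (L : IntermediateField k F) (a : κ → F) (s : ℕ) (y : Fin s → κ → F) (β w : Fin s → F),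
  (∀ i, a i ∈ L) → (∀ l, β l ∈ L) → (∀ l, β l ≠ 0) → (∀ l ≤ s, gd a (ext0 y) l ≠ 0) →
  (∀ l : Fin s, w l ^ 2 = β l * (gd a (ext0 y) l * gd a (ext0 y) (l + 1))) →
  ∃ (V : Fin s → κ → F) (T : Fin s → Fin s → F),
    (∀ i j, i ≠ j → bf a (V i) (V j) = 0) ∧ (∀ l, qf a (V l) = β l) ∧
    L ⊔ IntermediateField.adjoin k (Set.range (fun p : Fin s × κ => y p.1 p.2) ∪ Set.range w) =
      L ⊔ IntermediateField.adjoin k (Set.range (fun p : Fin s × κ => V p.1 p.2) ∪
        {z | ∃ l m, m ≤ l ∧ T l m = z})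

/-- TRDEG. A field of transcendence degree `N` generated by `N` elements is rational.
PROOF. The finite set of generators contains a transcendence basis of `F/k`; it has `N = card ι` elements
(`y` is also a transcendence basis since `F` is algebraic over `k(y)`), so it is the whole family, which is
injective and algebraically independent. -/
def StTrdeg : Prop := ∀ (k F ι : Type) [Field k] [Field F] [Algebra k F] [Fintype ι] (y : ι → F),
  Indep (algebraMap k F) y → Algebra.IsAlgebraic (IntermediateField.adjoin k (Set.range y)) F →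
  GenN (⊥ : IntermediateField k F) ⊤ (Fintype.card ι) → PureExt (algebraMap k F)

/-- the function field of the variety attached to `b`, `σ`: generic `τ, x, Y_i` and square roots
`w_{i,l}² = b_l(σ_i τ) Δ_l(x, Y_i) Δ_{l+1}(x, Y_i)`, `Δ_l` = `l`-th Gram determinant of the vectors `Y_i`
for the pure Pfister form -/
structure XF (k F : Type) [Field k] [Field F] [Algebra k F] {t n s M : ℕ}
    (b : Fin s → MvPolynomial (Fin t) k) (σ : Fin M → Matrix (Fin t) (Fin t) k)
    (τ : Fin t → F) (x : Fin n → F) (Y : Fin M → Fin s → Pu n → F) (w : Fin M → Fin s → F) :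
    Prop where
  indep : Indep (algebraMap k F)
    (Sum.elim τ (Sum.elim x (fun p : Fin M × Fin s × Pu n => Y p.1 p.2.1 p.2.2)))
  gen : GenBy (algebraMap k F) (Set.range τ ∪ Set.range x ∪
    Set.range (fun p : Fin M × Fin s × Pu n => Y p.1 p.2.1 p.2.2) ∪
    Set.range (fun p : Fin M × Fin s => w p.1 p.2))
  eq : ∀ i l, w i l ^ 2 = bs b (σ i) τ l *
    (gd (ppf x) (ext0 (Y i)) l * gd (ppf x) (ext0 (Y i)) (l + 1))

/-- XNZ. Nonvanishing in the function field.
PROOF. `b_l ∘ σ_i ≠ 0` as a polynomial (`σ_i` invertible) and `τ` is independent. The Gram determinant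
`gd (ppf x) (Y_i) l`, `l ≤ s = 2^{n-1} ≤ 2^n - 1 = card (Pu n)` (or `s = 1`), is a polynomial in `x, Y_i`
which is not zero: specialise `Y_i` to distinct standard basis vectors, the value is a product of
coefficients of `ppf x`, up to sign a monomial in `x`. -/
def StXNZ : Prop := ∀ (k F : Type) [Field k] [Field F] [Algebra k F] (t n s M : ℕ)
  (b : Fin s → MvPolynomial (Fin t) k) (σ : Fin M → Matrix (Fin t) (Fin t) k)
  (τ : Fin t → F) (x : Fin n → F) (Y : Fin M → Fin s → Pu n → F) (w : Fin M → Fin s → F),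
  1 ≤ n → s = 2 ^ (n - 1) → (∀ l, b l ≠ 0) → (∀ i, (σ i).det ≠ 0) → XF k F b σ τ x Y w →
    (∀ j, x j ≠ 0) ∧ (∀ i l, bs b (σ i) τ l ≠ 0) ∧
    ∀ i, ∀ l ≤ s, gd (ppf x) (ext0 (Y i)) l ≠ 0

/-- XALG. `F` is algebraic over the rational function field `k(τ, x, Y)`: it is generated over it by the
square roots `w_{i,l}`. -/
def StXAlg : Prop := ∀ (k F : Type) [Field k] [Field F] [Algebra k F] (t n s M : ℕ)
  (b : Fin s → MvPolynomial (Fin t) k) (σ : Fin M → Matrix (Fin t) (Fin t) k)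
  (τ : Fin t → F) (x : Fin n → F) (Y : Fin M → Fin s → Pu n → F) (w : Fin M → Fin s → F),
  XF k F b σ τ x Y w →
    Algebra.IsAlgebraic (IntermediateField.adjoin k
      (Set.range (Sum.elim τ (Sum.elim x (fun p : Fin M × Fin s × Pu n => Y p.1 p.2.1 p.2.2))))) F

/-- XRAT. If `<1, b(τ)>` is isotropic over `k(τ)` the variety is rational.
PROOF. Let `K̂ = k(τ) ⊂ F` (generated by `τ`, `t` elements). For every `i`, `<1, b(σ_i τ)>` is isotropic over
`K̂` (substitute `τ ↦ σ_i τ`: the automorphism of `k(τ)`). XNZ, GS (with `L ∋ x, K̂`) for each `i`: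
`V_i, T_i`. Order: `L₀ = K̂`; from an isotropic vector `(z_0, z)` of `<1, b(σ_0 τ)>` get `z' ∈ K̂^s` with
`<b>(z') = -1` (`z/z_0`, or `<b>` isotropic hence universal, UNIV); GENV0 for `i = 0`: `L₁ = K̂(x, V_0)`
generated by `n + Σ` elements, `Σ = Σ_{l<s} (2^n - 2 - l)`, containing an isotropic vector of `pf x`. GENV1 for
`i = 1, …, M - 1` successively: `Σ` elements each. Then adjoin the `M s(s+1)/2` elements `T_i` (`m ≤ l`).
The total field is `F` (GS equalities), so `F` is generated over `k` by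
`t + n + M Σ + M s(s+1)/2 = t + n + M s (2^n - 1)` elements, because
`Σ_{l<s} (2^n - 2 - l) + s(s+1)/2 = s (2^n - 1)` (all terms are natural numbers: `l < s ≤ 2^n - 2`, or
`n = 1`, `s = 1`). `card (Pu n) = 2^n - 1`. TRDEG with XALG. -/
def StXRat : Prop := ∀ (k F : Type) [Field k] [Field F] [Algebra k F], (2 : k) ≠ 0 →
  ∀ (t n s M : ℕ)
  (b : Fin s → MvPolynomial (Fin t) k) (σ : Fin M → Matrix (Fin t) (Fin t) k)
  (τ : Fin t → F) (x : Fin n → F) (Y : Fin M → Fin s → Pu n → F) (w : Fin M → Fin s → F),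
  1 ≤ n → s = 2 ^ (n - 1) → 1 ≤ M → (∀ l, b l ≠ 0) → (∀ i, (σ i).det ≠ 0) →
  XF k F b σ τ x Y w → ¬ Aniso (one (toKT b)) → PureExt (algebraMap k F)

/-- XPOINT. A point of the variety over a field `N` where the Pfister form is anisotropic.
PROOF. Let `N' = N(ε)`, fraction field of the polynomials in variables `ε_j` (`j : Fin n`) and
`ε_{i,l,S}`; `Λ = LaurentSeries N'`, variable `T`. In `Λ` put `x_j = x°_j (1 + T ε_j)`,
`Y_{i,l,S} = V°_{i,l,S} + T ε_{i,l,S}`, `τ = ψ(τ)`. These elements `(τ, x, Y)` are independent over `k`: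
`τ` is independent over `k` in `N` (`ψ` is injective on `k(τ)`), and the elements `T ε` are independent over
`N(T) ⊂ Λ` (the `ε` are independent over `N`, `T` is transcendental over `N'`; e.g. a polynomial relation over
`N` evaluated as power series in `T`: after the affine substitution its lowest homogeneous part in `ε` would
vanish). `V°` are orthogonal vectors with norms `β_{i,l} = ψ(b_l(σ_i τ)) ≠ 0`, so the Gram determinants of
`(x°, V°_i)` are `Π_{m<l} β_{i,m} ≠ 0` and `f°_{i,l} = β_{i,l} Δ_l Δ_{l+1} = (Π_{m ≤ l} β_{i,m})²` is a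
nonzero square. The radicand `f_{i,l}` of `(τ, x, Y)` is a polynomial in `T` over `N'` with constant term
`f°_{i,l}`, so by LAUR (2) it is a square in `Λ`. The field `k(τ,x,Y) ⊂ F` embeds in `Λ`, and `F` is algebraic
over it (XALG), so there is an extension `F → Ω` to an algebraic closure `Ω` of `Λ`; the image of `w_{i,l}` is
a square root of `f_{i,l}`, so it lies in `Λ`, and the image of `F` is in `Λ`: `ι : F → Λ`. Over `Λ`:
`ι(x_j) = x°_j (1 + Tε_j) = x°_j h_j²` (LAUR (2)), so the coefficients of `pf (ι x)` are those of `pf x°`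
times nonzero squares. `pf x°` is anisotropic over `N'` (PT) and over `Λ` (LAUR (1)), so `pf (ι x)` is
anisotropic and so is `pf x` over `F` (`Aniso.of_im`, `pf_im`). -/
def StXPoint : Prop := ∀ (k F : Type) [Field k] [Field F] [Algebra k F], (2 : k) ≠ 0 →
  ∀ (t n s M : ℕ)
  (b : Fin s → MvPolynomial (Fin t) k) (σ : Fin M → Matrix (Fin t) (Fin t) k)
  (τ : Fin t → F) (x : Fin n → F) (Y : Fin M → Fin s → Pu n → F) (w : Fin M → Fin s → F),
  (∀ l, b l ≠ 0) → (∀ i, (σ i).det ≠ 0) → XF k F b σ τ x Y w →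
  ∀ (N : Type) [Field N] (ψ : KT k t →+* N) (x₀ : Fin n → N), (∀ j, x₀ j ≠ 0) → Aniso (pf x₀) →
    (∀ i, Emb (im ψ (bs b (σ i) (tv k t))) (ppf x₀)) → Aniso (pf x)

/-- XEMB. Over the function field, `pf x` contains all `<1, b(σ_i τ)>`.
PROOF. XNZ and GS: the vectors `V_i` have norms `b_l(σ_i τ)` for `ppf x`. -/
def StXEmb : Prop := ∀ (k F : Type) [Field k] [Field F] [Algebra k F] (t n s M : ℕ)
  (b : Fin s → MvPolynomial (Fin t) k) (σ : Fin M → Matrix (Fin t) (Fin t) k)
  (τ : Fin t → F) (x : Fin n → F) (Y : Fin M → Fin s → Pu n → F) (w : Fin M → Fin s → F),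
  1 ≤ n → s = 2 ^ (n - 1) → (∀ l, b l ≠ 0) → (∀ i, (σ i).det ≠ 0) → XF k F b σ τ x Y w →
    ∀ i, Emb (bs b (σ i) τ) (ppf x)

/-- XNOT. If `<1, C>` is anisotropic, the function field is not contained in a purely transcendental
extension of itself which is purely transcendental over `k`, i.e. the variety is not stably rational.
PROOF. SEP for the translates of `b = bfam e C` gives the witnesses needed in ME (over `K = k(τ)`, forms
`b_i = b(σ_i τ)`, nonzero entries); ME gives `N, ψ, x°`; XPOINT: `pf x` is anisotropic over `F`, hence over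
`F'` (PT). Over `F'` all `b(σ_i τ) ⊂ ppf x` (XEMB and `Emb.im`). Suppose `k → F'` is purely transcendental.
RATIONALNOT: some DVR `O ⊃ k` of `F'` with `¬ Unram O (pf x)` (`card = 2^n ≥ 2`), ALLUNRAM: contradiction
(`τ ≠ 0` as the `τ_j` are independent, `t ≥ 1`). -/
def StXNot : Prop := ∀ (k F F' : Type) [Field k] [IsAlgClosed k] [Field F] [Algebra k F] [Field F'],
  (2 : k) ≠ 0 → ∀ (φ : F →+* F'), PureExt φ →
  ∀ (t' c e n M : ℕ), 3 ≤ n → c + e = 2 ^ (n - 1) → c ≤ 2 ^ (n - 2) →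
  ∀ (C : Fin c → MvPolynomial (Fin (t' + 1)) k)
    (σ : Fin M → Matrix (Fin (t' + 1 + e)) (Fin (t' + 1 + e)) k)
    (τ : Fin (t' + 1 + e) → F) (x : Fin n → F) (Y : Fin M → Fin (c + e) → Pu n → F)
    (w : Fin M → Fin (c + e) → F),
    (∀ l, C l ≠ 0) → (∀ l, ∃ D, (C l).IsHomogeneous (2 * D)) → (∀ i, (σ i).det ≠ 0) →
    GP (bfam e C) σ → NC (bfam e C) σ → XF k F (bfam e C) σ τ x Y w →
    Aniso (one (toKT C)) → ¬ PureExt (φ.comp (algebraMap k F))

/-! ## equations of the variety -/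

/-- the variables: `τ`, `x`, `Y`, `w` -/
abbrev VI (t n s M : ℕ) : Type := Fin t ⊕ Fin n ⊕ (Fin M × Fin s × Pu n) ⊕ (Fin M × Fin s)

/-- the polynomial `w_{i,l}² - b_l(σ_i τ) Δ_l(x, Y_i) Δ_{l+1}(x, Y_i)` -/
noncomputable def eqn {k : Type} [Field k] {t n s M : ℕ} (b : Fin s → MvPolynomial (Fin t) k)
    (σ : Fin M → Matrix (Fin t) (Fin t) k) (p : Fin M × Fin s) : MvPolynomial (VI t n s M) k :=
  MvPolynomial.X (Sum.inr (Sum.inr (Sum.inr p))) ^ 2 -
    bs b (σ p.1) (fun j => (MvPolynomial.X (Sum.inl j) : MvPolynomial (VI t n s M) k)) p.2 *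
    (gd (ppf (fun j : Fin n => (MvPolynomial.X (Sum.inr (Sum.inl j)) : MvPolynomial (VI t n s M) k)))
        (ext0 (fun l S => MvPolynomial.X (Sum.inr (Sum.inr (Sum.inl (p.1, l, S)))))) p.2 *
     gd (ppf (fun j : Fin n => (MvPolynomial.X (Sum.inr (Sum.inl j)) : MvPolynomial (VI t n s M) k)))
        (ext0 (fun l S => MvPolynomial.X (Sum.inr (Sum.inr (Sum.inl (p.1, l, S)))))) (p.2 + 1))

/-- the ideal of the variety -/
noncomputable def XI {k : Type} [Field k] (n : ℕ) {t s M : ℕ} (b : Fin s → MvPolynomial (Fin t) k)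
    (σ : Fin M → Matrix (Fin t) (Fin t) k) : Ideal (MvPolynomial (VI t n s M) k) :=
  Ideal.span (Set.range (eqn b σ))

/-- KUM. Adjoining independent square roots to a domain.
PROOF. `L = FractionRing R₀`. By induction on the number of roots, the algebra
`L[w]/(w_p² - f_p)` is a field when no product `Π_{p ∈ S} f_p`, `S ≠ ∅`, is a square in `L`: standard (if
`√f_q` were in `L(√f_p : p ≠ q)`, characteristic not 2, then `f_q · Π_{p ∈ S} f_p` would be a square in `L`
for some `S ∌ q`). `R₀[w]/(w_p² - f_p)` is a free `R₀`-module with basis the monomials `w^S`, so it injects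
into its tensor product with `L`. -/
def StKum : Prop := ∀ (R₀ π : Type) [CommRing R₀] [IsDomain R₀] [Finite π], (2 : R₀) ≠ 0 →
  ∀ (f : π → R₀),
  (∀ S : Finset π, S.Nonempty → ¬ IsSquare (algebraMap R₀ (FractionRing R₀) (∏ p ∈ S, f p))) →
    (Ideal.span (Set.range fun p : π =>
      (MvPolynomial.X p ^ 2 - MvPolynomial.C (f p) : MvPolynomial π R₀))).IsPrime ∧
    ∀ r : R₀, MvPolynomial.C r ∈ (Ideal.span (Set.range fun p : π =>
      (MvPolynomial.X p ^ 2 - MvPolynomial.C (f p) : MvPolynomial π R₀))) → r = 0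

/-- NSQ. The radicands are independent modulo squares.
PROOF. In `L = k(τ, x, Y)` (fraction field of `MvPolynomial (Fin t ⊕ Fin n ⊕ Fin M × Fin s × Pu n) k`). Let
`S ≠ ∅`, pick `i` occurring in `S` and `l` maximal with `(i,l) ∈ S`. Let `L'` be the subfield generated by all
variables except `Y_{i,l,·}`. The product is `g · gd_{l+1}(Y_i)` with `g ∈ L'^*` (only the factor
`gd_{l+1}(Y_i)` of `f_{i,l}` involves the vector `y_l = Y_{i,l}`; all others involve `Y_{i,m}`, `m < l`, or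
`Y_{i'}`, `i' ≠ i`; nonzero as in XNZ). As a function of `y_l`, `gd_{l+1} = gd_l · q'(y_l)` is a quadratic form
over `L'` whose restriction to the orthogonal complement of `Y_{i,0}, …, Y_{i,l-1}` is
`gd_l · ppf x`; this complement has dimension `2^n - 1 - l ≥ 2` (as `l < s = 2^{n-1}`, `n ≥ 2`) and
contains orthogonal vectors `p, p'` with nonzero norms. If `g gd_{l+1}` were a square in `L = L'(y_l)`, it would
be the square of a polynomial (`L'[y_l]` is integrally closed), of a linear form `h` by degrees; but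
`h(αp + βp')² = g gd_l (α² q(p) + β² q(p'))` has no `αβ` term, while `2 h(p) h(p') ≠ 0`: contradiction. -/
def StNSq : Prop := ∀ (k : Type) [Field k], (2 : k) ≠ 0 → ∀ (t n s M : ℕ)
  (b : Fin s → MvPolynomial (Fin t) k) (σ : Fin M → Matrix (Fin t) (Fin t) k), 2 ≤ n →
  s = 2 ^ (n - 1) → (∀ l, b l ≠ 0) → (∀ i, (σ i).det ≠ 0) →
  ∀ (L : Type) [Field L] [Algebra k L] (τ : Fin t → L) (x : Fin n → L)
    (Y : Fin M → Fin s → Pu n → L),
    Indep (algebraMap k L)
      (Sum.elim τ (Sum.elim x (fun p : Fin M × Fin s × Pu n => Y p.1 p.2.1 p.2.2))) →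
    GenBy (algebraMap k L) (Set.range
      (Sum.elim τ (Sum.elim x (fun p : Fin M × Fin s × Pu n => Y p.1 p.2.1 p.2.2)))) →
    ∀ S : Finset (Fin M × Fin s), S.Nonempty → ¬ IsSquare (∏ p ∈ S, (bs b (σ p.1) τ p.2 *
      (gd (ppf x) (ext0 (Y p.1)) p.2 * gd (ppf x) (ext0 (Y p.1)) (p.2 + 1))))

/-- XVAR. The equations define an integral variety and its function field is as in XF.
PROOF. `R₀ = MvPolynomial (Fin t ⊕ Fin n ⊕ (Fin M × Fin s × Pu n)) k`; `MvPolynomial (VI …) k` is
`MvPolynomial (Fin M × Fin s) R₀` (`sumAlgEquiv` after regrouping the variables) and the ideal corresponds to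
the one of KUM with `f = ` the radicands, which are independent modulo squares in `FractionRing R₀` by NSQ. So
the ideal is prime and the quotient contains `R₀`; its fraction field is generated by the variables. -/
def StXVar : Prop := ∀ (k : Type) [Field k], (2 : k) ≠ 0 → ∀ (t n s M : ℕ)
  (b : Fin s → MvPolynomial (Fin t) k) (σ : Fin M → Matrix (Fin t) (Fin t) k), 2 ≤ n →
  s = 2 ^ (n - 1) → (∀ l, b l ≠ 0) → (∀ i, (σ i).det ≠ 0) →
  (XI n b σ).IsPrime ∧
  ∀ (F : Type) [Field F] [Algebra k F] (θ : (MvPolynomial (VI t n s M) k ⧸ XI n b σ) →ₐ[k] F),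
    Function.Injective θ → (∀ z : F, ∃ f g, z = θ f / θ g) →
    XF k F b σ (fun j => θ (Ideal.Quotient.mk _ (MvPolynomial.X (Sum.inl j))))
      (fun j => θ (Ideal.Quotient.mk _ (MvPolynomial.X (Sum.inr (Sum.inl j)))))
      (fun i l S => θ (Ideal.Quotient.mk _ (MvPolynomial.X (Sum.inr (Sum.inr (Sum.inl (i, l, S)))))))
      (fun i l => θ (Ideal.Quotient.mk _ (MvPolynomial.X (Sum.inr (Sum.inr (Sum.inr (i, l)))))))

/-- SIGMA. Existence of the translations.
PROOF. `P = Π_l b_l ≠ 0`, homogeneous. Write `t = t' + 1 + e`. Build `σ_0 = 1, σ_1, …` successively, with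
`det σ_i ≠ 0` and GP for the family so far. Let `J_p` be the ideal of `k[τ]` generated by `P ∘ σ_i`, `i < p`. If
the `P ∘ σ_i` have no common zero except `0`, stop: NC (`bs b σ_i z l` is `b_l(σ_i z)`, product `P(σ_i z)`).
Otherwise let `z ≠ 0` be a common zero and choose `σ_p` with: `det ≠ 0`; `P(σ_p z) ≠ 0`; for all `i < p`,
`P(σ_p σ_i⁻¹ (τ', 0)) ≠ 0` and `P(σ_i σ_p⁻¹ (τ', 0)) ≠ 0` as polynomials in `τ'` (this gives GP for all
factors `b_l`). Each is the nonvanishing at `σ = σ_p` of a nonzero polynomial in the entries of `σ`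
(replace `σ_p⁻¹` by the adjugate: `P` is homogeneous, this changes values by a power of `det`; specialise `τ'`
to a fixed `a ≠ 0`): nonzero because `P(z') ≠ 0` for some `z' ≠ 0` (if `P` is constant any
`z' ≠ 0`; `k` is infinite) and an invertible matrix maps any given nonzero vector (`z`, `σ_i⁻¹(a,0)`, resp.
`(a,0)` for `σ_i σ⁻¹`) to any given nonzero vector (`z'`, resp. `σ_i⁻¹ z'`). The product of finitely many
nonzero polynomials does not vanish at some point of an infinite field. `P ∘ σ_p` does not vanish at `z`, so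
it is not in `J_p`: the chain `J_p` increases strictly and stops by noetherianity. -/
def StSigma : Prop := ∀ (k : Type) [Field k] [Infinite k] (t' e s : ℕ)
  (b : Fin s → MvPolynomial (Fin (t' + 1 + e)) k), (∀ l, b l ≠ 0) →
  (∀ l, ∃ D, (b l).IsHomogeneous D) →
  ∃ (M : ℕ) (σ : Fin M → Matrix (Fin (t' + 1 + e)) (Fin (t' + 1 + e)) k), 1 ≤ M ∧
    (∀ i, (σ i).det ≠ 0) ∧ GP b σ ∧ NC b σ

end Pool.Agent.Helper44.RED
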