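import Pool.Agent.Helper44.RED.StC

/-!
# Project RED, block D: systems of quadratic forms and odd degree extensions, final assembly
-/

set_option autoImplicit false

open Polynomial

namespace Pool.Agent.Helper44.RED

/-- value at `u` of the quadratic form with matrix `A` -/
def qm {R : Type} [CommRing R] {N : ℕ} (A : Matrix (Fin N) (Fin N) R) (u : Fin N → R) : R :=
  dotProduct u (A.mulVec u)

/-- the quadratic forms in `S` have a common nontrivial zero in some extension field of `K` of odd
degree -/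
def OddZ (K : Type) [Field K] {N : ℕ} (S : Set (Matrix (Fin N) (Fin N) K)) : Prop :=
  ∃ (L : Type) (_ : Field L) (_ : Algebra K L), Odd (Module.finrank K L) ∧
    ∃ u : Fin N → L, u ≠ 0 ∧ ∀ A ∈ S, qm (A.map (algebraMap K L)) u = 0

/-- the quadratic form with matrix `A` has a nontrivial zero -/
def MIso {R : Type} [CommRing R] {N : ℕ} (A : Matrix (Fin N) (Fin N) R) : Prop :=
  ∃ u : Fin N → R, u ≠ 0 ∧ qm A u = 0

/-- SPRINGER. Springer's theorem (no symmetry of `A` needed).
PROOF. Strong induction on the odd degree `d` of `L/K` (for all `L`). `d = 1`: `K ≅ L`. Let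
`L = K(θ)` (primitive element, characteristic 0), `P` the minimal polynomial of `θ`, of degree `d`;
`u_i = g_i(θ)`, `deg g_i < d`, not all zero. Dividing by the gcd `h` of the `g_i` (`h(θ) ≠ 0`) we may
assume that no irreducible polynomial divides all `g_i`. `qm A g ∈ K[X]` is divisible by `P`,
`qm A g = P h`. Let `m = max deg g_i ≤ d - 1` and `v` the vector of the coefficients of `X^m`: if
`qm A v = 0` we are done (`v ≠ 0`); else `deg (P h) = 2 m`, so `deg h = 2m - d ≤ d - 2` is odd (it is
nonnegative as `h ≠ 0`) and `h` has an irreducible factor `P₁` of odd degree `< d`. In the field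
`K[X]/(P₁)` (`AdjoinRoot`) the classes of the `g_i` are not all zero and `qm A g = 0`: induction. -/
def StSpringer : Prop := ∀ (K L : Type) [Field K] [Field L] [CharZero K] [Algebra K L] (N : ℕ)
  (A : Matrix (Fin N) (Fin N) K), Odd (Module.finrank K L) → MIso (A.map (algebraMap K L)) → MIso A

/-- ODDBC. Odd extensions after an arbitrary base change.
PROOF. `L/K` is finite (the rank is not `0`), `L = K(θ)`, `P` the minimal polynomial of `θ`, of odd degree.
The image of `P` in `K'[X]` has an irreducible factor `P₁` of odd degree; `L' = K'[X]/(P₁)`, and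
`θ ↦` class of `X` defines `j`. -/
def StOddBC : Prop := ∀ (K K' L : Type) [Field K] [Field K'] [Field L] [CharZero K] [Algebra K K']
  [Algebra K L], Odd (Module.finrank K L) →
    ∃ (L' : Type) (_ : Field L') (_ : Algebra K' L') (j : L →+* L'), Odd (Module.finrank K' L') ∧
      ∀ c : K, j (algebraMap K L c) = algebraMap K' L' (algebraMap K K' c)

/-- place of odd degree of `F` over `K`: a discrete valuation ring containing `K` with a surjection onto
a field which is an extension of `K` of odd degree -/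
def OddPlace (K : Type) {F : Type} [Field K] [Field F] [Algebra K F] (O : ValuationSubring F) : Prop :=
  IsDiscreteValuationRing O ∧ ∃ (K₁ : Type) (_ : Field K₁) (_ : Algebra K K₁) (ρ : O →+* K₁),
    Odd (Module.finrank K K₁) ∧ Function.Surjective ρ ∧
    ∀ c : K, ∃ h : algebraMap K F c ∈ O, ρ ⟨algebraMap K F c, h⟩ = algebraMap K K₁ c

/-- NORMVAL. A norm of odd valuation and places of odd degree.
PROOF. `B = integralClosure O R` is a Dedekind domain, finite over the DVR `O`, with fraction field `R`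
(`R/F` finite separable). For the finitely many nonzero primes `𝔓` of `B` (all above the maximal ideal
`𝔪` of `O`) let `w_𝔓` be the valuation and `f_𝔓` the residue degree. For `z ≠ 0` in `R`:
`v(N_{R/F} z) = Σ_𝔓 f_𝔓 w_𝔓(z)`: for `z ∈ B` factor `(z)` into primes and use the multiplicativity of
`Ideal.relNorm`, `Ideal.relNorm_singleton` and `Ideal.relNorm_eq_pow_of_isMaximal`
(`relNorm 𝔓 = 𝔪^{f_𝔓}`); every `z ∈ R` is a quotient of elements of `B`. Put
`m_𝔓 = min_i w_𝔓(u_i)`. As `Σ f_𝔓 (w_𝔓(z) - 2 m_𝔓)` is odd there is `𝔓` with `f_𝔓` odd and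
`w_𝔓(z) - 2 m_𝔓` odd. `P` = valuation ring of `w_𝔓` (`B` localised at `𝔓`), `c ∈ R` with
`w_𝔓(c) = - m_𝔓`. The residue field of `P` has degree `f_𝔓` over that of `O`, which is an extension of
`K` of odd degree (isomorphic to the field `K₁` in `OddPlace`, the kernel of the surjection being
`𝔪`). -/
def StNormVal : Prop := ∀ (K F R : Type) [Field K] [Field F] [Field R] [CharZero K] [Algebra K F]
  [Algebra F R] [Algebra K R] [IsScalarTower K F R] [FiniteDimensional F R]
  (O : ValuationSubring F) (ϖ : F), OddPlace K O → Unif O ϖ → ∀ (N : ℕ) (u : Fin N → R) (z : R),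
    u ≠ 0 → z ≠ 0 → (∃ i : ℤ, IsU O (Algebra.norm F z * ϖ ^ (2 * i + 1))) →
    ∃ (P : ValuationSubring R) (c : R), OddPlace K P ∧ (∀ f ∈ O, algebraMap F R f ∈ P) ∧ c ≠ 0 ∧
      (∀ i, c * u i ∈ P) ∧ (∃ i, IsU P (c * u i)) ∧ ¬ IsU P (c ^ 2 * z)

/-- PAR. Degree of a rational function modulo 2.
PROOF. `ν = a f/g` with `a ∈ K^*`, `f, g` monic, factor both into irreducibles. If some monic irreducible
`p` of odd degree has odd exponent in `f/g`, take for `O` the local ring at `p` (PADIC), `ϖ = p`,
residue field `K[X]/(p)`. Otherwise `deg f - deg g = Σ_p deg(p) v_p(ν)` is even; take for `O` the place at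
infinity (INFPLACE), with residue field `K` (`f/g ↦` coefficient of `f` at `deg g` divided by the leading
coefficient of `g`) and uniformizer `X⁻¹`: `ν X^{deg g - deg f}` is a unit. -/
def StPar : Prop := ∀ (K : Type) [Field K] (ν : RatFunc K), ν ≠ 0 →
  (∃ (O : ValuationSubring (RatFunc K)) (ϖ : RatFunc K), OddPlace K O ∧ Unif O ϖ ∧ RatFunc.X ∈ O ∧
    ∃ i : ℤ, IsU O (ν * ϖ ^ (2 * i + 1))) ∨
  (∃ (O : ValuationSubring (RatFunc K)), OddPlace K O ∧ Unif O (RatFunc.X : RatFunc K)⁻¹ ∧
    ∃ i : ℤ, IsU O (ν * RatFunc.X ^ (2 * i)))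

/-- H1. One step of the elimination.
PROOF. Let `R/K(X)` be of odd degree `d`, `u ≠ 0` in `R^N`, `A(u) = 0` for `A ∈ S`,
`G(u) = -X H(u)` (`A(u) = qm (A.map …) u`). (a) `H(u) = 0`, so `G(u) = 0`: apply PAR to `ν = 1`: the
first alternative is impossible? (avoid the discussion: in both cases one gets an odd place `O` with
a uniformizer `ϖ`), then NORMVAL for `z = ϖ` (image in `R`; its norm is `ϖ^d`, so
`N(z) ϖ^{-d} = 1`, `-d = 2i + 1`): `P, c`. (b) `H(u) ≠ 0`: `η = H(u)`, `ν = N(η)`. First case of PAR for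
`ν`: NORMVAL for `z = η`: `P, c`, and `c² H(u) = H(c u) ∈ P` is not a unit of `P`;
`G(cu) = -X H(cu)` is in the maximal ideal of `P` too, as `X ∈ P`. Second case:
`z = G(u) = -X η ≠ 0`, `N(z) = (-X)^d ν`, `ϖ = X⁻¹`, `N(z) ϖ^{2j+1} = - ν X^{d-2j-1}` is a unit for
`d - 2j - 1 = 2i`; NORMVAL: `P, c`; `G(cu)` is in the maximal ideal of `P`, and so is
`H(cu) = -X⁻¹ G(cu)` as `X⁻¹ ∈ P`. In all cases let `ρ : P → K₁` be the residue map of
`OddPlace K P` (its kernel is the maximal ideal, as units map to nonzero elements and `ρ` is a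
surjection from a local ring onto a field), `v = ρ(c u)`: `v ≠ 0`, and `A(v) = ρ(A(cu)) = 0` for
`A ∈ S`, `G(v) = H(v) = 0` (the matrices have entries in `K`). -/
def StH1 : Prop := ∀ (K : Type) [Field K] [CharZero K] (N : ℕ)
  (S : Set (Matrix (Fin N) (Fin N) K)) (G H : Matrix (Fin N) (Fin N) K),
  OddZ (RatFunc K) (insert (G.map (algebraMap K (RatFunc K)) +
      (RatFunc.X : RatFunc K) • H.map (algebraMap K (RatFunc K)))
    ((fun A => A.map (algebraMap K (RatFunc K))) '' S)) →
  OddZ K (insert G (insert H S))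

/-- AB. Theorem of Amer–Brumer type for systems: the generic member of the linear system spanned by
`A_1, …, A_p` is isotropic over `K(λ_1, …, λ_p)` iff the `A_i` have a common nontrivial zero over an odd
degree extension of `K`.
PROOF. (⇒ from right to left) By ODDBC (`K' = K(λ)`) the common zero `u ∈ L^N` gives a zero `j(u)` of
`Σ λ_i A_i` over an odd extension `L'` of `K(λ)`; SPRINGER. (⇒ from left to right) Claim, by induction on
`p`, for all fields `K` and all sets `S`: if `OddZ (K(λ_1..λ_p)) (insert (Σ λ_i A_i) (image of S))` then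
`OddZ K (range A ∪ S)`. `p = 0`: `KT K 0 ≅ K`. `p + 1`: `K(λ_0, …, λ_p) ≅ RatFunc (KT K p)` with one of the
variables (say `λ_0`, `MvPolynomial.finSuccEquiv`) as `X`; transport along this isomorphism, H1 over
`KT K p` with `G = Σ_{i ≥ 1} λ_i A_i`, `H = A_0`, and the induction hypothesis with `insert A_0 S`. Apply the
claim with `S = ∅` (and `L = K(λ)` itself, of degree `1`). -/
def StAB : Prop := ∀ (K : Type) [Field K] [CharZero K] (N p : ℕ)
  (A : Fin p → Matrix (Fin N) (Fin N) K),
  MIso (∑ i, tv K p i • (A i).map (algebraMap K (KT K p))) ↔ OddZ K (Set.range A)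

/-- `l`-th leading principal minor -/
def lm {R : Type} [CommRing R] {N : ℕ} (G : Matrix (Fin N) (Fin N) R) (l : ℕ) : R :=
  Matrix.det (Matrix.of fun p q : Fin l =>
    if h : p.1 < N ∧ q.1 < N then G ⟨p.1, h.1⟩ ⟨q.1, h.2⟩ else 0)

/-- MINORS. Diagonalisation by leading principal minors (Jacobi).
PROOF. Write `d_l = lm G l`, `d_0 = 1`. By induction on the size: `G = [[G', g],[gᵀ, γ]]`, `G'`
invertible, `y = G'⁻¹ g`, `qm G (u', t) = qm G' (u' + t y) + (γ - gᵀ G'⁻¹ g) t²` and
`det G = det G' (γ - gᵀ G'⁻¹ g)` (`Matrix.det_fromBlocks₁₁`). So `qm G` is, after an invertible linear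
substitution, `Σ_l (d_{l+1}/d_l) z_l²`. Isotropy does not change when all coefficients are multiplied by
`d_1` and by squares: coefficients `d_1 d_l d_{l+1}`, `l = 0, …, N`, the first one is `d_1²`, equivalent to
`1`. -/
def StMinors : Prop := ∀ (F : Type) [Field F] (N : ℕ) (G : Matrix (Fin (N + 1)) (Fin (N + 1)) F),
  G.IsSymm → (∀ l ≤ N + 1, lm G l ≠ 0) →
    (MIso G ↔ ¬ Aniso (one (fun l : Fin N => lm G 1 * (lm G (l.1 + 1) * lm G (l.1 + 2)))))

/-- homogenisation (of even degree `2 deg c`, new variable number `0`) -/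
noncomputable def hz {k : Type} [Field k] {m : ℕ} (c : MvPolynomial (Fin m) k) :
    MvPolynomial (Fin (m + 1)) k :=
  ∑ d ∈ Finset.range (c.totalDegree + 1), MvPolynomial.X 0 ^ (2 * c.totalDegree - d) *
    MvPolynomial.rename Fin.succ (MvPolynomial.homogeneousComponent d c)

/-- HOMOG. Homogenisation does not change isotropy.
PROOF. `hz c` is homogeneous of degree `2 D`, `D = deg c`, and
`hz c (τ_0, τ) = τ_0^{2D} c(τ/τ_0)` in `k(τ_0, τ)`. Let `φ : k(t) → k(τ_0, …, τ_m)`, `t_j ↦ τ_{j+1}/τ_0`
(these are independent over `k`, e.g. because `τ_0, τ_{j+1}/τ_0` generate the field of transcendence degree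
`m + 1`, or directly). The target is generated over `φ(k(t))` by `τ_0`, transcendental: `PureExt φ`, so by
PT (`Pres`) and `Aniso.of_im` `<1, c>` is anisotropic iff `<1, φ c>` is, iff `<1, hz c>` is (entries differ
by nonzero squares). -/
def StHomog : Prop := ∀ (k : Type) [Field k], (2 : k) ≠ 0 → ∀ (m c : ℕ)
  (C : Fin c → MvPolynomial (Fin m) k), (∀ l, C l ≠ 0) →
    (∀ l, hz (C l) ≠ 0 ∧ (hz (C l)).IsHomogeneous (2 * (C l).totalDegree)) ∧
    (Aniso (one (toKT (fun l => hz (C l)))) ↔ Aniso (one (toKT C)))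

/-- the generic member `Σ λ_i A_i`; variables `t_1, …, t_m` (first) and `λ_1, …, λ_p` -/
noncomputable def pencil {k : Type} [Field k] {m p N : ℕ}
    (A : Fin p → Matrix (Fin N) (Fin N) (MvPolynomial (Fin m) k)) :
    Matrix (Fin N) (Fin N) (MvPolynomial (Fin (m + p)) k) :=
  ∑ i, (MvPolynomial.X (Fin.natAdd m i) : MvPolynomial (Fin (m + p)) k) •
    (A i).map (MvPolynomial.rename (Fin.castAdd p))

/-- the polynomials `C_l`, `l < N`: homogenisations of `d_1 d_{l+1} d_{l+2}`, `d_l` the leading principal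
minors of the generic member -/
noncomputable def CC {k : Type} [Field k] {m p N : ℕ}
    (A : Fin p → Matrix (Fin (N + 1)) (Fin (N + 1)) (MvPolynomial (Fin m) k)) :
    Fin N → MvPolynomial (Fin (m + p + 1)) k :=
  fun l => hz (lm (pencil A) 1 * (lm (pencil A) (l.1 + 1) * lm (pencil A) (l.1 + 2)))

/-- the system `A` of quadratic forms over `k(t_1, …, t_m)` has a common nontrivial zero in an extension
of odd degree -/
def OddZero {k : Type} [Field k] {m p N : ℕ}
    (A : Fin p → Matrix (Fin N) (Fin N) (MvPolynomial (Fin m) k)) : Prop :=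
  OddZ (KT k m) (Set.range fun i => (A i).map (algebraMap (MvPolynomial (Fin m) k) (KT k m)))

/-- PENCIL. From systems to diagonal forms.
PROOF. AB over `K = KT k m`; there is an isomorphism `KT (KT k m) p ≅ KT k (m + p)` over `k` mapping `t_j` to
`t_j` and `λ_i` to `λ_i` (both are fields generated over `k` by `m + p` independent elements), which maps
`Σ λ_i A_i` to the image of `pencil A`. MINORS over `KT k (m + p)` (`lm` commutes with ring homomorphisms,
the map into the fraction field is injective, `pencil A` is symmetric), HOMOG. If `det (pencil A) = 0` the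
generic member has a nonzero kernel vector over `KT k (m + p)`, so it is isotropic. -/
def StPencil : Prop := ∀ (k : Type) [Field k] [CharZero k] (m p N : ℕ)
  (A : Fin p → Matrix (Fin (N + 1)) (Fin (N + 1)) (MvPolynomial (Fin m) k)), (∀ i, (A i).IsSymm) →
  ((pencil A).det = 0 → OddZero A) ∧
  ((∀ l ≤ N + 1, lm (pencil A) l ≠ 0) → (OddZero A ↔ ¬ Aniso (one (toKT (CC A)))))

/-- coordinate change in all forms of the system -/
noncomputable def cg {k : Type} [Field k] {m p N : ℕ} (P : Matrix (Fin N) (Fin N) k)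
    (A : Fin p → Matrix (Fin N) (Fin N) (MvPolynomial (Fin m) k)) :
    Fin p → Matrix (Fin N) (Fin N) (MvPolynomial (Fin m) k) :=
  fun i => (P.map MvPolynomial.C).transpose * A i * P.map MvPolynomial.C

/-- LEAD. After a coordinate change over `k` all leading principal minors are nonzero.
PROOF. `F = KT k (m + p)`, `G = pencil A` over `F`, symmetric, `det G ≠ 0`. There is `P₀ ∈ GL(F)` with
`P₀ᵀ G P₀` diagonal (`LinearMap.BilinForm.exists_orthogonal_basis`), all leading minors nonzero. The
product of `det P` and of all leading minors of `Pᵀ G P` is a polynomial over `F` in the entries of `P`, not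
zero, so it does not vanish at some `P` with entries in the infinite field `k`
(`MvPolynomial.eq_zero_of_eval_zero_at_prod_finset` or similar). `pencil (cg P A) = Pᵀ (pencil A) P`. For the
second part: `u ↦ P u` maps zeros of `cg P A` to zeros of `A` over any extension, with inverse
`P⁻¹`. -/
def StLead : Prop := ∀ (k : Type) [Field k] [CharZero k] (m p N : ℕ)
  (A : Fin p → Matrix (Fin N) (Fin N) (MvPolynomial (Fin m) k)), (∀ i, (A i).IsSymm) →
  ((pencil A).det ≠ 0 → ∃ P : Matrix (Fin N) (Fin N) k, P.det ≠ 0 ∧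
    ∀ l ≤ N, lm (pencil (cg P A)) l ≠ 0) ∧
  ∀ P : Matrix (Fin N) (Fin N) k, P.det ≠ 0 →
    (∀ i, (cg P A i).IsSymm) ∧ (OddZero (cg P A) ↔ OddZero A)

/-- the coordinate ring `A` (a domain over `k`) has a purely transcendental fraction field -/
def Rational (k A : Type) [Field k] [CommRing A] [Algebra k A] : Prop :=
  ∃ N : ℕ, Nonempty (FractionRing A ≃ₐ[k] FractionRing (MvPolynomial (Fin N) k))

/-- the coordinate ring of `X × A^p` has a purely transcendental fraction field for some `p` -/
def StRational (k A : Type) [Field k] [CommRing A] [Algebra k A] : Prop :=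
  ∃ p N : ℕ, Nonempty (FractionRing (MvPolynomial (Fin p) A) ≃ₐ[k]
    FractionRing (MvPolynomial (Fin N) k))

/-- PUREISO. Purely transcendental extensions and isomorphisms. -/
def StPureIso : Prop := ∀ (k F : Type) [Field k] [Field F] [Algebra k F],
  PureExt (algebraMap k F) ↔ ∃ N : ℕ, Nonempty (F ≃ₐ[k] FractionRing (MvPolynomial (Fin N) k))

/-- FIN1. Rationality of the variety and isotropy.
PROOF. `s = c + e`, `b = bfam e C`: all `b_l ≠ 0`, homogeneous of even degree. XVAR: the ideal is prime and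
(with `F = FractionRing A`, `A` the coordinate ring, `θ` the canonical map) `XF` holds. `1 ≤ M` because of
NC (`k` has a nonzero vector of length `t' + 1 + e`). (i) `<1, C>` isotropic over `k(τ')` implies
`<1, b>` isotropic over `k(τ)` (extend the vector by zeros and map), XRAT and PUREISO: rational, and rational
implies stably rational (`p = 0`: `MvPolynomial (Fin 0) A ≅ A`). (ii) If `X × A^p` is rational, let
`F' = FractionRing (MvPolynomial (Fin p) A)`; the map `F → F'` is purely transcendental (`p` variables),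
`k → F → F'` is `algebraMap k F'`; XNOT and PUREISO: `<1, C>` is isotropic. -/
def StFin1 : Prop := ∀ (k : Type) [Field k] [IsAlgClosed k] [CharZero k] (t' c e n M : ℕ), 3 ≤ n →
  c + e = 2 ^ (n - 1) → c ≤ 2 ^ (n - 2) →
  ∀ (C : Fin c → MvPolynomial (Fin (t' + 1)) k)
    (σ : Fin M → Matrix (Fin (t' + 1 + e)) (Fin (t' + 1 + e)) k),
    (∀ l, C l ≠ 0) → (∀ l, ∃ D, (C l).IsHomogeneous (2 * D)) → (∀ i, (σ i).det ≠ 0) →
    GP (bfam e C) σ → NC (bfam e C) σ →
    (XI n (bfam e C) σ).IsPrime ∧
    (Rational k (MvPolynomial (VI (t' + 1 + e) n (c + e) M) k ⧸ XI n (bfam e C) σ) ↔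
      ¬ Aniso (one (toKT C))) ∧
    (StRational k (MvPolynomial (VI (t' + 1 + e) n (c + e) M) k ⧸ XI n (bfam e C) σ) ↔
      ¬ Aniso (one (toKT C)))

/-- FIN2. The final statement. -/
def StFin2 : Prop := ∀ (k : Type) [Field k] [IsAlgClosed k] [CharZero k] (m p N : ℕ)
  (A : Fin p → Matrix (Fin (N + 1)) (Fin (N + 1)) (MvPolynomial (Fin m) k)), (∀ i, (A i).IsSymm) →
  ((pencil A).det = 0 → OddZero A) ∧
  ((pencil A).det ≠ 0 → ∃ P : Matrix (Fin (N + 1)) (Fin (N + 1)) k, P.det ≠ 0 ∧
    ∀ l ≤ N + 1, lm (pencil (cg P A)) l ≠ 0) ∧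
  ∀ P : Matrix (Fin (N + 1)) (Fin (N + 1)) k, P.det ≠ 0 → (∀ l ≤ N + 1, lm (pencil (cg P A)) l ≠ 0) →
    ∀ n e : ℕ, 3 ≤ n → N + e = 2 ^ (n - 1) → N ≤ 2 ^ (n - 2) →
    (∃ (M : ℕ) (σ : Fin M → Matrix (Fin (m + p + 1 + e)) (Fin (m + p + 1 + e)) k),
      (∀ i, (σ i).det ≠ 0) ∧ GP (bfam e (CC (cg P A))) σ ∧ NC (bfam e (CC (cg P A))) σ) ∧
    ∀ (M : ℕ) (σ : Fin M → Matrix (Fin (m + p + 1 + e)) (Fin (m + p + 1 + e)) k),
      (∀ i, (σ i).det ≠ 0) → GP (bfam e (CC (cg P A))) σ → NC (bfam e (CC (cg P A))) σ →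
      (XI n (bfam e (CC (cg P A))) σ).IsPrime ∧
      (Rational k (MvPolynomial (VI (m + p + 1 + e) n (N + e) M) k ⧸ XI n (bfam e (CC (cg P A))) σ) ↔
        OddZero A) ∧
      (StRational k (MvPolynomial (VI (m + p + 1 + e) n (N + e) M) k ⧸
        XI n (bfam e (CC (cg P A))) σ) ↔ OddZero A)

end Pool.Agent.Helper44.RED
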