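import Pool.Agent.Helper44.RED.StD

/-!
# Project RED, block E: arbitrary projective varieties (Veronese embedding)

A homogeneous form of degree `D` in `N` variables is given by coefficients `c w`, `w : Fin D → Fin N`
(words): `F(x) = Σ_w c_w Π_i x_{w_i}`.
-/

set_option autoImplicit false

open Polynomial

namespace Pool.Agent.Helper44.RED

/-- value of the form of degree `D` with coefficients `c` -/
def fm {R : Type} [CommRing R] {N D : ℕ} (c : (Fin D → Fin N) → R) (x : Fin N → R) : R :=
  ∑ w, c w * ∏ i, x (w i)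

/-- the forms `c j` over `k(t_1, …, t_m)` have a common nontrivial zero in an extension of odd degree -/
def OddPoint {k : Type} [Field k] {m r N D : ℕ}
    (c : Fin r → (Fin D → Fin N) → MvPolynomial (Fin m) k) : Prop :=
  ∃ (L : Type) (_ : Field L) (_ : Algebra (KT k m) L), Odd (Module.finrank (KT k m) L) ∧
    ∃ x : Fin N → L, x ≠ 0 ∧ ∀ j, fm (fun w => algebraMap (KT k m) L
      (algebraMap (MvPolynomial (Fin m) k) (KT k m) (c j w))) x = 0

/-- symmetric matrix of the quadratic form `2 y_a y_b` -/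
def sy {R ι : Type} [CommRing R] [DecidableEq ι] (a b : ι) : Matrix ι ι R :=
  Matrix.single a b 1 + Matrix.single b a 1

/-- index set of the quadratic equations -/
abbrev VJ (r N D : ℕ) : Type :=
  ((Fin D → Fin N) × (Fin D → Fin N) × Fin D) ⊕ ((Fin D → Fin N) × (Fin D → Fin N) × Fin D × Fin D) ⊕
    (Fin r × (Fin D → Fin N))

/-- the quadratic equations of the Veronese image of `V(c)` in the coordinates `y_w`:
`y_w y_{w'} = y_{w[i:=w'_i]} y_{w'[i:=w_i]}`, `y_v y_w = y_v y_{w ∘ swap i j}`, `y_v Σ_w c_{j,w} y_w = 0` -/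
noncomputable def vq {k : Type} [Field k] {m r N D : ℕ}
    (c : Fin r → (Fin D → Fin N) → MvPolynomial (Fin m) k) :
    VJ r N D → Matrix (Fin D → Fin N) (Fin D → Fin N) (MvPolynomial (Fin m) k)
  | Sum.inl (w, w', i) => sy w w' - sy (Function.update w i (w' i)) (Function.update w' i (w i))
  | Sum.inr (Sum.inl (v, w, i, j)) => sy v w - sy v (w ∘ Equiv.swap i j)
  | Sum.inr (Sum.inr (j, v)) => ∑ w, c j w • sy v w

/-- the same matrices indexed by `Fin` -/
noncomputable def ver {k : Type} [Field k] {m r N D : ℕ} (N' : ℕ) (h : N ^ D = N' + 1)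
    (c : Fin r → (Fin D → Fin N) → MvPolynomial (Fin m) k) :
    Fin (Fintype.card (VJ r N D)) → Matrix (Fin (N' + 1)) (Fin (N' + 1)) (MvPolynomial (Fin m) k) :=
  fun q => (vq c ((Fintype.equivFin (VJ r N D)).symm q)).submatrix
    (fun a => (finFunctionFinEquiv.trans (finCongr h)).symm a)
    (fun a => (finFunctionFinEquiv.trans (finCongr h)).symm a)

/-- VER. Systems of forms of degree `D` and systems of quadratic forms.
PROOF. Over an extension `L` of odd degree (fixed) show: nonzero common zeros `y` of the quadratic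
equations exist iff nonzero common zeros `x` of the forms exist. (⇐) `y_w = Π_i x_{w_i}`; if `x_a ≠ 0` then
`y_w ≠ 0` for the constant word `a`; the equations hold. (⇒) Let `y_u ≠ 0` and
`p_i(a) = y_{u[i:=a]} / y_u`, so `p_i(u_i) = 1`. (1) `y_w = y_u Π_i p_i(w_i)`: for a set `S` of positions let
`w_S` be `w` on `S` and `u` elsewhere; the first equation for `w_{S ∪ {i}}`, `u`, position `i` gives
`y_{w_{S ∪ {i}}} y_u = y_{w_S} y_{u[i:=w_i]}`; induction on `S`. (2) The second equation with `v = u` gives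
`y_w = y_{w ∘ swap i j}` for all `w`; with `w = u[0:=a][i:=b]` and (1): `p_0(a) p_i(b) = p_0(b) p_i(a)`
(`i ≠ 0`, divide by `y_u`); with `b = u_0`: `p_i = p_i(u_0) p_0`, and `p_i(u_0) ≠ 0` since `p_i(u_i) = 1`.
(3) So `y_w = λ Π_i p_0(w_i)`, `λ ≠ 0`, and `x = p_0 ≠ 0` (`p_0(u_0) = 1`; `D ≥ 1`). The third equation with
`v = u`: `λ F_j(x) = 0`. -/
def StVer : Prop := ∀ (k : Type) [Field k] [CharZero k] (m r N D N' : ℕ) (h : N ^ D = N' + 1),
  1 ≤ D → ∀ c : Fin r → (Fin D → Fin N) → MvPolynomial (Fin m) k,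
    (∀ q, (ver N' h c q).IsSymm) ∧ (OddZero (ver N' h c) ↔ OddPoint c)

end Pool.Agent.Helper44.RED
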