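import Pool.Agent.Helper44.RED.Cod

/-!
# Project RED, block F: the reduction is primitive recursive and correct

The functions are defined in `Cod.lean` (with lemmas `ev_pmul`, `ev_psum`, `ev_pprod`, `ev_psubst`,
`map_ev`, …).
-/

set_option autoImplicit false

namespace Pool.Agent.Helper44.RED

/-- the variables of `k(X_0, …, X_{m-1})`, extended by zero -/
noncomputable def tvn (k : Type) [Field k] (m : ℕ) : ℕ → KT k m :=
  fun j => if h : j < m then tv k m ⟨j, h⟩ else 0

/-- the variables of `k[X_0, …, X_{v-1}]`, extended by zero -/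
noncomputable def xvn (k : Type) [Field k] (v : ℕ) : ℕ → MvPolynomial (Fin v) k :=
  fun j => if h : j < v then MvPolynomial.X ⟨j, h⟩ else 0

/-- the system `A = (m, N, D, F)` of forms over `k(t_0, …, t_{m-1})` has a common nontrivial zero in an
extension of odd degree -/
def OddPt (k : Type) [Field k] (A : Sys) : Prop :=
  ∃ (L : Type) (_ : Field L) (_ : Algebra (KT k A.1) L), Odd (Module.finrank (KT k A.1) L) ∧
    ∃ x : ℕ → L, (∃ i ≤ A.2.1, x i ≠ 0) ∧ ∀ f ∈ A.2.2.2,
      ∑ q ∈ Finset.range ((A.2.1 + 1) ^ (A.2.2.1 + 1)),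
        algebraMap (KT k A.1) L (ev (f.getD q []) (tvn k A.1)) *
          ∏ i ∈ Finset.range (A.2.2.1 + 1), x (dig (A.2.1 + 1) q i) = 0

/-- the ideal of a presentation over `k` -/
noncomputable def PI (k : Type) [Field k] (X : Prs) : Ideal (MvPolynomial (Fin X.1) k) :=
  Ideal.span {g | ∃ P ∈ X.2, g = ev P (xvn k X.1)}

/-- symmetric matrix of the quadratic equation number `q`, evaluated at `x` -/
def qmat {R : Type} [CommRing R] (A : Sys) (x : ℕ → R) (q : ℕ) :
    Matrix (Fin (nS A)) (Fin (nS A)) R :=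
  Matrix.of fun r c => ev (qe A q r c ++ qe A q c r) x

/-- CPTR. Truncation: monomials containing a variable with number `≥ m` are dropped. -/
def StCPtr : Prop := ∀ (R : Type) [CommRing R] (m : ℕ) (P : PC) (x : ℕ → R),
  ev (ptr m P) x = ev P (fun j => if j < m then x j else 0)

/-- CDET. The function `pdet` computes the determinant.
PROOF. The numbers `q < n^n` correspond to the functions `Fin n → Fin n` (`finFunctionFinEquiv`, digits
`q / n^i % n`), `sgw n q = Π_{j < i} sign (f i - f j)` is `0` if `f` is not injective and the sign of the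
permutation `f` otherwise; `Matrix.det_apply`. -/
def StCDet : Prop := ∀ (R : Type) [CommRing R] (n : ℕ) (f : ℕ → ℕ → PC) (x : ℕ → R),
  ev (pdet n f) x = Matrix.det (Matrix.of fun i j : Fin n => ev (f i j) x)

/-- CZERO. The zero test.
PROOF. The coefficient of `ev P X` at the exponent `e` is the sum of the coefficients of the entries of `P`
whose exponent list gives `e`. -/
def StCZero : Prop := ∀ (k : Type) [Field k] [CharZero k] (P : PC),
  pzero P = true ↔ ev P (fun i => (MvPolynomial.X i : MvPolynomial ℕ k)) = 0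

/-- homogenisation in degree `2 D` -/
noncomputable def hzD {k : Type} [Field k] {m : ℕ} (D : ℕ) (c : MvPolynomial (Fin m) k) :
    MvPolynomial (Fin (m + 1)) k :=
  ∑ d ∈ Finset.range (D + 1), MvPolynomial.X 0 ^ (2 * D - d) *
    MvPolynomial.rename Fin.succ (MvPolynomial.homogeneousComponent d c)

/-- CHOM. Degree bound and homogenisation of codes.
PROOF. Both sides are additive in the list `P`; for one monomial with exponent list `e`, `Σ e ≤ D`, both
sides are `a X_0^{2D - Σ e} Π X_{i+1}^{e_i}`, or `0` if a variable with number `≥ T` occurs. -/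
def StCHom : Prop := ∀ (k : Type) [Field k] (T D : ℕ) (P : PC),
  ((ev P (xvn k T)).totalDegree ≤ pdeg P) ∧
  (pdeg P ≤ D → ev (phom D P) (xvn k (T + 1)) = hzD D (ev P (xvn k T)))

/-- HOMD. Homogenisation in any even degree does not change isotropy. PROOF: as HOMOG. -/
def StHomD : Prop := ∀ (k : Type) [Field k], (2 : k) ≠ 0 → ∀ (m c : ℕ)
  (C : Fin c → MvPolynomial (Fin m) k) (D : Fin c → ℕ), (∀ l, C l ≠ 0) →
    (∀ l, (C l).totalDegree ≤ D l) →
    (∀ l, hzD (D l) (C l) ≠ 0 ∧ (hzD (D l) (C l)).IsHomogeneous (2 * D l)) ∧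
    (Aniso (one (toKT (fun l => hzD (D l) (C l)))) ↔ Aniso (one (toKT C)))

/-- VERC. Veronese embedding on the level of codes.
PROOF. As VER (see `StE.lean`, module M_Ver): the coordinates `y_w` are numbered by `w < (N+1)^(D+1)`
(digits), `qe A q r c` is the coefficient of `y_r y_c` in the equation number `q`, and
`qm (qmat A x q) y = 2 Σ_{r,c} ev (qe A q r c) x y_r y_c`. The three ranges of `q` give exactly the equations
`y_a y_d = y_{a[i:=d_i]} y_{d[i:=a_i]}` (`i ≤ D`), `y_v y_w = y_v y_{w ∘ swap i j}`, `y_v F_j(y) = 0`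
(`F_j(y) = Σ_c f_c y_c`); variables with number `≥ m` vanish at `tvn k m` (CPTR). -/
def StVerC : Prop := StCPtr → ∀ (k : Type) [Field k] [CharZero k] (A : Sys),
  OddZ (KT k A.1) (Set.range fun q : Fin (nP A) => qmat A (tvn k A.1) q.1) ↔ OddPt k A

/-- the generic member after a generic coordinate change: `πᵀ (Σ λ_i A_i) π`, variables `t`, `λ`, `π` -/
noncomputable def gpm {k : Type} [Field k] {m p S : ℕ}
    (A : Fin p → Matrix (Fin S) (Fin S) (MvPolynomial (Fin m) k)) :
    Matrix (Fin S) (Fin S) (MvPolynomial (Fin (m + p + S * S)) k) :=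
  (Matrix.of fun a b : Fin S => (MvPolynomial.X (Fin.natAdd (m + p) (finProdFinEquiv (a, b))) :
    MvPolynomial (Fin (m + p + S * S)) k)).transpose *
  ((pencil A).map (MvPolynomial.rename (Fin.castAdd (S * S)))) *
  (Matrix.of fun a b : Fin S => (MvPolynomial.X (Fin.natAdd (m + p) (finProdFinEquiv (a, b))) :
    MvPolynomial (Fin (m + p + S * S)) k))

/-- GEN. Generic coordinate change.
PROOF. `det (gpm A) = (det π)² det (pencil A)`, `det π ≠ 0`. If it vanishes, use PENCIL (first part).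
Otherwise LEAD gives `P` over `k` with all `lm (pencil (cg P A)) l ≠ 0`; the specialisation `π ↦ P` maps
`lm (gpm A) l` to it, so `lm (gpm A) l ≠ 0`. Over `F = KT k (m + p + S²)` the forms `gpm A` and the image of
`pencil A` are isometric (`π` invertible), so by MINORS over `F` the form `<1, …>` is isotropic iff
`pencil A` is isotropic over `F`, and (`k(t,λ) → F` is purely transcendental; `pencil A` over `k(t,λ)` is
isometric to a diagonal form by LEAD and MINORS; PT) iff `pencil A` is isotropic over `k(t,λ)`, iff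
`OddZero A` (AB, as in the module Pencil). -/
def StGen : Prop := StAB → StPencil → StLead → StMinors → StPT →
  ∀ (k : Type) [Field k] [CharZero k] (m p N : ℕ)
  (A : Fin p → Matrix (Fin (N + 1)) (Fin (N + 1)) (MvPolynomial (Fin m) k)), (∀ i, (A i).IsSymm) →
  ((gpm A).det = 0 → OddZero A) ∧
  ((gpm A).det ≠ 0 → (∀ l ≤ N + 1, lm (gpm A) l ≠ 0) ∧ (OddZero A ↔
    ¬ Aniso (one (toKT (fun l : Fin N => lm (gpm A) 1 *
      (lm (gpm A) (l.1 + 1) * lm (gpm A) (l.1 + 2)))))))

/-- the explicit translations: `(σ_q)_{ij} = x_i^{j+1}`, `x_i = (M + 2 + q)^{B^i}` -/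
def sgx (k : Type) [Field k] (t B M : ℕ) (q : Fin M) : Matrix (Fin t) (Fin t) k :=
  Matrix.of fun i j => (((M + 2 + q.1) ^ (B ^ i.1 * (j.1 + 1)) : ℕ) : k)

/-- SIGX. The explicit translations are in general position and have no common zero.
PROOF. Write `t = t' + 1 + e`, `c_q = M + 2 + q`, `x_i = c_q^{B^i}` (distinct, nonzero, characteristic 0),
`f_z(X) = Σ_j z_j X^{j+1}`, so `(σ_q z)_i = f_z(x_i)`; `det σ_q = Π x_i Π_{i<j} (x_j - x_i) ≠ 0`
(Vandermonde). NC: let `z ≠ 0`, `j*` the largest index with `z_j ≠ 0`, `P = Π_l b_l`, nonzero, homogeneous of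
degree `d` (`= Σ 2 D_l + 2 e < B`). Consider the polynomials `v_i(c) = Σ_j z_j c^{B^i (j+1)}` in one variable
`c`, of degree `(j*+1) B^i` with leading coefficient `z_{j*}`. For a monomial `m` of `P` (`|m| = d < B`)
`Π v_i(c)^{m_i}` has degree `(j*+1) Σ m_i B^i`; these numbers are distinct for distinct `m` (base `B`
expansion), so `P(v(c)) ≠ 0`, of degree `≤ d t B^t < M`; it cannot vanish at the `M` different `c_q`.
GP: let `q ≠ r`, `x_i` for `c_q`, `x'_i` for `c_r`. Then `x_i ≠ x'_{i'}` for all `i, i'`: if `i = i'` as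
`c_q ≠ c_r`; if `i < i'`, `c_q^{B^i} = c_r^{B^{i'}}` would give `c_q = c_r^{B^{i' - i}} ≥ (M+2)² > 2 M + 1 ≥ c_q`;
symmetrically for `i > i'`. Given values `g_0, …, g_{t'}` let `g` be the polynomial of degree `≤ t'` with
`g(x_i) = g_i` for `i ≤ t'` (Lagrange) and `f(X) = X Π_{i' > t'} (X - x'_{i'}) g(X)`, of degree
`≤ 1 + e + t' = t` and divisible by `X`: `f = f_z` for a vector `z ∈ k^t`, and `σ_r z = (τ°, 0)`,
`τ°_i = f(x'_i)`. So the value of `b_l ∘ (σ_q σ_r⁻¹)` at `(τ°, 0)` is `b_l(σ_q z) = b_l((f(x_i))_i)`,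
`f(x_i) = h_i g(x_i)`, `h_i ≠ 0`. For `b_l = C_l` choose `g_i = a_i/h_i` with `C_l(a) ≠ 0`; for
`b_l = τ_0 s_j` choose `g = 1`. -/
def StSigX : Prop := ∀ (k : Type) [Field k] [CharZero k] (t' c e B M : ℕ)
  (C : Fin c → MvPolynomial (Fin (t' + 1)) k) (D : Fin c → ℕ), 1 ≤ e → (∀ l, C l ≠ 0) →
  (∀ l, (C l).IsHomogeneous (2 * D l)) → (∑ l, 2 * D l) + 2 * e < B →
  ((∑ l, 2 * D l) + 2 * e) * (t' + 1 + e) * B ^ (t' + 1 + e) < M →
  (∀ q, (sgx k (t' + 1 + e) B M q).det ≠ 0) ∧
  GP (bfam e C) (sgx k (t' + 1 + e) B M) ∧ NC (bfam e C) (sgx k (t' + 1 + e) B M)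

/-- ISO. The equations as codes.
PROOF. Equivalence `VI t n s M ≃ Fin (nvg t n s M)`: `τ_j ↦ j`, `x_j ↦ t + j`,
`Y_{k,l,S} ↦ t + n + (k s + l)(2^n - 1) + u` where `u + 1 = Σ_{j ∈ S} 2^j`,
`w_{k,l} ↦ t + n + M s (2^n - 1) + k s + l`. Evaluate both sides with the lemmas `ev_…` and CDET;
`rename e` is a ring homomorphism and `bs`, `gd` commute with ring homomorphisms (lemmas `gd_map`, `bs_map`
in `Spec.lean` of helper78); `aeval (lin …) (b l)` with `b l = ev (bc l) X` is `ev (bc l) (lin …)`. -/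
def StIso : Prop := StCDet → ∀ (k : Type) [Field k] (t n s M : ℕ) (b : Fin s → MvPolynomial (Fin t) k)
  (σ : Fin M → Matrix (Fin t) (Fin t) k) (bc : ℕ → PC) (sg : ℕ → ℕ → ℕ → ℕ),
  (∀ l : Fin s, ev (bc l) (xvn k t) = b l) →
  (∀ (l : Fin s) (R : Type) [CommRing R] (x y : ℕ → R), (∀ i < t, x i = y i) →
    ev (bc l) x = ev (bc l) y) →
  (∀ (q : Fin M) (i j : Fin t), σ q i j = ((sg q i j : ℕ) : k)) →
  ∃ e : VI t n s M ≃ Fin (nvg t n s M), ∀ p : Fin M × Fin s,
    MvPolynomial.rename e (eqn b σ p) = ev (eqg t n s M bc sg p.1 p.2) (xvn k (nvg t n s M))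

/-- TRANS. Transport of rationality. -/
def StTrans : Prop := ∀ (k R R' : Type) [Field k] [CommRing R] [CommRing R'] [Algebra k R]
  [Algebra k R'], (R ≃ₐ[k] R') →
    (Rational k R ↔ Rational k R') ∧ (StRational k R ↔ StRational k R')

/-- FINC. Correctness of the reduction.
PROOF. Let `S = nS A ≥ 1`, `N = S - 1`, `p = nP A`, `T = nT A`. (1) VERC: `OddPt k A ↔ OddZ (…)`; the matrices
`Q_q = qmat A (xvn k m) q` over `k[t_0..t_{m-1}]` are symmetric and their images in `KT k m` are
`qmat A (tvn k m) q` (`map_ev`), so this is `OddZero Q` (transport along `nS A = N + 1`). (2) `Gg A r c`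
evaluates at `xvn k T` to the entry of `gpm Q` (the variables of `qe` have numbers `< m`, CPTR), and by CDET
`dd A l` to `lm (gpm Q) l` (`l ≤ S`), `dd A S` to the determinant. None of these codes contains a variable with
number `≥ T` (they evaluate equally at assignments agreeing below `T`), so by CZERO
`pzero (dd A S) = true ↔ det (gpm Q) = 0`. (3) If it is true: `OddZero` by GEN, and `(1, [])` is the affine line:
the zero ideal is prime and the quotient `≅ k[X_0]` is rational. (4) Otherwise GEN, CHOM, HOMD (with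
`D_l = pdeg (cc A l)`): `OddPt ↔ ¬ Aniso (one (toKT C))`, `C_l = ev (phom (pdeg (cc A l)) (cc A l))` at
`xvn k (T + 1)`, homogeneous of degree `2 D_l`, nonzero. With `c = S - 1`, `e = ne A ≥ 1`, `n = nn A = S + 3`,
`c + e = ns A = 2^(n-1)`, `c ≤ 2^(n-2)`, `B = ndeg A + 1`, `M = nM A`: SIGX and FIN1. `ev (bb A l) = bfam e C l`.
ISO: `PI k (redu A)` is the image of `XI` under the isomorphism `rename e`, so it is prime and the quotients are
isomorphic; TRANS. -/
def StFinC : Prop := ∀ (k : Type) [Field k] [IsAlgClosed k] [CharZero k] (A : Sys),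
  (PI k (redu A)).IsPrime ∧
  (Rational k (MvPolynomial (Fin (redu A).1) k ⧸ PI k (redu A)) ↔ OddPt k A) ∧
  (StRational k (MvPolynomial (Fin (redu A).1) k ⧸ PI k (redu A)) ↔ OddPt k A)

/-- PL1. Basic operations on codes are primitive recursive (for composition with arbitrary primitive
recursive functions).
PROOF. `Primrec.list_flatMap`, `list_map`, `list_range`, `list_foldl`, `list_getD`, integer operations
(Helper4/IL/IntPrim.lean: `primrec_int_add`, `primrec_int_mul`, …), powers `primrec_nat_pow`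
(Helper4/IL/Prim.lean). -/
def StPL1 : Prop := ∀ (α : Type) [Primcodable α],
  (∀ f g : α → PC, Primrec f → Primrec g → Primrec fun a => pmul (f a) (g a)) ∧
  (∀ f : α → PC, Primrec f → Primrec fun a => pneg (f a)) ∧
  (∀ f : α → ℤ, Primrec f → Primrec fun a => pint (f a)) ∧
  (∀ f : α → ℕ, Primrec f → Primrec fun a => pvar (f a)) ∧
  (∀ (n : α → ℕ) (f : α → ℕ → PC), Primrec n → Primrec₂ f → Primrec fun a => psum (n a) (f a)) ∧
  (∀ (n : α → ℕ) (f : α → ℕ → PC), Primrec n → Primrec₂ f → Primrec fun a => pprod (n a) (f a)) ∧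
  (∀ (f : α → PC) (y : α → ℕ → PC), Primrec f → Primrec₂ y → Primrec fun a => psubst (f a) (y a)) ∧
  (∀ (b q i : α → ℕ), Primrec b → Primrec q → Primrec i → Primrec fun a => dig (b a) (q a) (i a)) ∧
  (∀ (f g : α → ℕ), Primrec f → Primrec g → Primrec fun a => f a ^ g a)

/-- PL2. Further operations on codes are primitive recursive. -/
def StPL2 : Prop := StPL1 → ∀ (α : Type) [Primcodable α],
  (∀ (n : α → ℕ) (f : α → ℕ → ℕ → PC), Primrec n → Primrec (fun x : α × ℕ × ℕ => f x.1 x.2.1 x.2.2) →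
    Primrec fun a => pdet (n a) (f a)) ∧
  (∀ f : α → PC, Primrec f → Primrec fun a => pdeg (f a)) ∧
  (∀ f : α → PC, Primrec f → Primrec fun a => pzero (f a)) ∧
  (∀ (n : α → ℕ) (f : α → PC), Primrec n → Primrec f → Primrec fun a => phom (n a) (f a)) ∧
  (∀ (n : α → ℕ) (f : α → PC), Primrec n → Primrec f → Primrec fun a => ptr (n a) (f a)) ∧
  (∀ (c : α → Bool) (f : α → PC), Primrec c → Primrec f → Primrec fun a => pif (c a) (f a)) ∧
  (∀ (b q i d : α → ℕ), Primrec b → Primrec q → Primrec i → Primrec d →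
    Primrec fun a => upd (b a) (q a) (i a) (d a)) ∧
  (∀ (b q i j : α → ℕ), Primrec b → Primrec q → Primrec i → Primrec j →
    Primrec fun a => swp (b a) (q a) (i a) (j a))

/-- PQ. The coefficients of the quadratic equations are primitive recursive. -/
def StPQ : Prop := StPL1 → StPL2 → Primrec nS ∧ Primrec nP1 ∧ Primrec nP2 ∧ Primrec nP ∧
  Primrec (fun x : Sys × ℕ × ℕ × ℕ => qe x.1 x.2.1 x.2.2.1 x.2.2.2)

/-- PG. The coefficients `cc`, `bb` and the numbers are primitive recursive. -/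
def StPG : Prop := StPL1 → StPL2 → StPQ → Primrec (fun x : Sys × ℕ => dd x.1 x.2) ∧
  Primrec (fun x : Sys × ℕ => bb x.1 x.2) ∧ Primrec nn ∧ Primrec ns ∧ Primrec nt ∧ Primrec ndeg ∧
  Primrec nM ∧ Primrec (fun x : Sys × ℕ × ℕ × ℕ => sgm x.1 x.2.1 x.2.2.1 x.2.2.2)

/-- PR. The reduction is primitive recursive. -/
def StPR : Prop := StPL1 → StPL2 → StPQ → StPG → Primrec redu

end Pool.Agent.Helper44.RED
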